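import Pool.Agent.Lib.MP_3fe454_an.PD.Basic1
import Pool.Agent.Lib.MP_3fe454_an.PD.Basic2
import Pool.Agent.Lib.MP_3fe454_an.PD.SLabs

-- part Pool.Agent.Lib.MP_3fe454_an.S2.Defs
section

/-!
Definitions for the robust zero entropy theorem for dissipative disc maps all of whose compact
invariant sets contain a periodic point.
-/

set_option autoImplicit false

open Set Metric Filter Topology Function

namespace Pool.Agent.Lib.MP_3fe454_an.S2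

open PD

/-- every nonempty compact forward invariant set contains a periodic point -/
def HP (F : Dis) : Prop :=
  ∀ X : Set ℂ, IsCompact X → X.Nonempty → X ⊆ Disc → MapsTo F.f X X →
    ∃ x ∈ X, x ∈ periodicPts F.f

/-- closeness in the uniform and Lipschitz sense on the disc -/
def LipClose (ε : ℝ) (T f : ℂ → ℂ) : Prop :=
  ∀ w ∈ Disc, ∀ w' ∈ Disc, ‖T w - f w‖ ≤ ε ∧ ‖(T w - T w') - (f w - f w')‖ ≤ ε * ‖w - w'‖

/-- the sign of a boolean -/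
def sg (b : Bool) : ℝ := if b then 1 else -1

/-- a global Lipschitz perturbation of a dominated diagonal map -/
structure Mdl where
  H : ℝ × ℝ → ℝ × ℝ
  s : ℝ
  l : ℝ
  e : ℝ
  e_pos : 0 < e
  e_lt : e < l
  l_lt : l + 2 * e < 1
  dom : l + 4 * e < s
  one_le : 1 ≤ s
  zero : H 0 = 0
  lip : ∀ u v, ‖H u - H v - (s * (u - v).1, l * (u - v).2)‖ ≤ e * ‖u - v‖

/-- forever vertical pairs -/
def Mdl.Ver (m : Mdl) (u v : ℝ × ℝ) : Prop :=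
  ∀ n : ℕ, |(m.H^[n] u - m.H^[n] v).1| ≤ |(m.H^[n] u - m.H^[n] v).2|

/-- c is the centre curve -/
def Mdl.Cen (m : Mdl) (c : ℝ → ℝ) : Prop :=
  c 0 = 0 ∧ (∀ x x', |c x - c x'| ≤ |x - x'|) ∧
    ∀ u, u.2 = c u.1 ↔ (m.H u).2 = c (m.H u).1

/-- a skew product chart for the M-th iterate -/
structure Box (F : Dis) where
  M : ℕ
  A : ℂ ≃L[ℝ] ℝ × ℝ
  Ψ : ℂ ≃ₜ ℝ × ℝ
  Gt : ℂ ≃ₜ ℂ
  φ : ℝ ≃o ℝ
  lam : ℝ
  sig : ℝ
  M_pos : 0 < M
  lam_pos : 0 < lam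
  lam_lt : lam < 1
  one_le_sig : 1 ≤ sig
  mul_lt : lam * sig < 1
  lev : ∀ w, (Ψ (Gt w)).1 = φ (Ψ w).1
  mono : ∀ w w', (Ψ w).1 = (Ψ w').1 → (Ψ w).2 < (Ψ w').2 → (Ψ (Gt w)).2 < (Ψ (Gt w')).2
  contr : ∀ w, |(Ψ (Gt w)).2| ≤ lam * |(Ψ w).2|
  lip : ∀ w w', ‖A (Gt w - Gt w')‖ ≤ sig * ‖A (w - w')‖
  base : ∀ w, ‖A (w - Ψ.symm ((Ψ w).1, 0))‖ ≤ |(Ψ w).2|
  sub : ∀ w, |(Ψ w).1| ≤ 1 → |(Ψ w).2| ≤ 1 → ‖w‖ < 1
  ag : ∀ w, |(Ψ w).1| ≤ 1 → |(Ψ w).2| ≤ 1 → |(Ψ (Gt w)).1| ≤ 1 → F.f^[M] w = Gt w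

namespace Box

variable {F : Dis} (B : Box F)

/-- level -/
noncomputable def X (w : ℂ) : ℝ := (B.Ψ w).1

/-- height -/
noncomputable def Y (w : ℂ) : ℝ := (B.Ψ w).2

/-- point with given level and height -/
noncomputable def pt (x y : ℝ) : ℂ := B.Ψ.symm (x, y)

/-- the closed box -/
def S : Set ℂ := {w | |B.X w| ≤ 1 ∧ |B.Y w| ≤ 1}

/-- the model agrees with the iterate on the whole box -/
def Full : Prop := ∀ w ∈ B.S, F.f^[B.M] w = B.Gt w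

/-- cone condition with margins -/
def Cone : Prop :=
  ∃ s0 l0 e : ℝ, 0 < e ∧ 0 < l0 ∧ l0 + 2 * e < 1 ∧ l0 + 4 * e < s0 ∧
    (∀ w ∈ B.S, ∀ w' ∈ B.S, ‖B.A (F.f^[B.M] w - F.f^[B.M] w') -
      (s0 * (B.A (w - w')).1, l0 * (B.A (w - w')).2)‖ ≤ e * ‖B.A (w - w')‖) ∧
    ∀ w w', B.Y w = 0 → B.Y w' = 0 → B.X w - B.X w' = (B.A (w - w')).1

/-- cone fields of the box are preserved by T -/
def ConeT (l : ℝ) (T : ℂ → ℂ) : Prop :=
  ∀ w ∈ B.S, ∀ w' ∈ B.S,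
    (|(B.A (w - w')).2| ≤ |(B.A (w - w')).1| →
      |(B.A (T w - T w')).2| ≤ |(B.A (T w - T w')).1| ∧
        (0 < (B.A (w - w')).1 → 0 < (B.A (T w - T w')).1) ∧
        ((B.A (w - w')).1 < 0 → (B.A (T w - T w')).1 < 0)) ∧
    (|(B.A (w - w')).1| ≤ |(B.A (w - w')).2| →
      |(B.A (T w - T w')).2| ≤ l * |(B.A (w - w')).2|)

/-- repelling gap on the side sh of the level ξ -/
def Gap (ξ : ℝ) (sh : Bool) : Prop :=
  ∀ x ∈ Ioc (0 : ℝ) (1 / 2), 0 < sg sh * (B.φ (ξ + sg sh * x) - (ξ + sg sh * x))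

end Box

/-- a quadrant at a fixed point with a repelling branch -/
structure Quad (F : Dis) extends Box F where
  χ : ℝ → ℝ
  fix : φ 0 = 0
  gap : ∀ x ∈ Ioc (0 : ℝ) 1, x < φ x
  χ_cont : Continuous χ
  χ_mono : StrictMono χ
  χ_pos : ∀ s, 0 < χ s
  χ_zero : χ 0 = 1
  χ_lim : Tendsto χ atBot (𝓝 0)
  χ_step : ∀ s ≤ -1, φ (χ s) = χ (s + 1)

namespace Quad

variable {F : Dis} (Q : Quad F)

/-- the vertex -/
noncomputable def p : ℂ := Q.pt 0 0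

/-- the unstable branch -/
noncomputable def γ (s : ℝ) : ℂ := F.f^[Q.M * ⌈s⌉₊] (Q.pt (Q.χ (s - ⌈s⌉₊)) 0)

/-- the branch as a set -/
def Gam : Set ℂ := range Q.γ

/-- compact initial piece of the branch -/
def Gc (s : ℝ) : Set ℂ := insert Q.p (Q.γ '' Iic s)

/-- limit set of the branch -/
def om : Set ℂ := ⋂ s : ℝ, closure (Q.γ '' Ici s)

/-- self accumulating branch -/
def SA : Prop := (Q.Gam ∩ Q.om).Nonempty

/-- closed local stable arc -/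
def Sig (y : ℝ) : Set ℂ := {w | Q.X w = 0 ∧ 0 ≤ Q.Y w ∧ Q.Y w ≤ y}

/-- thin strip along the stable arc -/
def T (d : ℝ) : Set ℂ := {w | 0 < Q.X w ∧ Q.X w < d ∧ 0 < Q.Y w ∧ Q.Y w < 1 / 2}

/-- thin strip along the unstable arc -/
def R (h : ℝ) : Set ℂ := {w | 0 < Q.X w ∧ Q.X w < 1 ∧ 0 < Q.Y w ∧ Q.Y w < h}

/-- distance to the stable leaf -/
noncomputable def dd (w : ℂ) : ℝ := infDist (Q.A w) (Q.A '' {u | Q.X u = 0})

/-- depth of a level -/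
noncomputable def dep (x : ℝ) : ℝ := -invFun Q.χ x

/-- Q' is Q seen for the k-th power -/
def IsPow (Q' Q : Quad F) (k : ℕ) : Prop :=
  Q'.M = k * Q.M ∧ Q'.Ψ = Q.Ψ ∧ ∀ w, Q'.Gt w = Q.Gt^[k] w

/-- real passes go from Q to Q' near z -/
def LinkAt (Q' : Quad F) (n : ℕ) (z : ℂ) : Prop :=
  0 < Q.X z ∧ Q.X z < 1 ∧ Q.Y z = 0 ∧ Q'.X (F.f^[n] z) = 0 ∧ 0 < Q'.Y (F.f^[n] z) ∧
    Q'.Y (F.f^[n] z) < 1 / 2 ∧
    ∀ ε > 0, ∃ u, dist u z < ε ∧ 0 < Q.Y u ∧ 0 < Q'.X (F.f^[n] u)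

/-- link -/
def Link (Q' : Quad F) (n : ℕ) : Prop := ∃ z, Q.LinkAt Q' n z

/-- link between quadrants of the same power -/
def Lk (Q' : Quad F) : Prop := Q.M = Q'.M ∧ ∃ n, Q.Link Q' n

/-- honest link -/
def Hon (Q' : Quad F) (n : ℕ) : Prop :=
  ∃ s0, Q'.X (F.f^[n] (Q.γ s0)) = 0 ∧ 0 < Q'.Y (F.f^[n] (Q.γ s0)) ∧
    Q'.Y (F.f^[n] (Q.γ s0)) < 1 ∧
    ∀ ε > 0, ∃ s, |s - s0| < ε ∧ 0 < Q'.X (F.f^[n] (Q.γ s))

/-- quadrants at one vertex use one chart up to signs -/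
def Compat (Q' : Quad F) : Prop :=
  Q.p = Q'.p → ∃ a b : Bool, ∀ w, Q'.X w = sg a * Q.X w ∧ Q'.Y w = sg b * Q.Y w

/-- paths crossing an exit strip -/
def Xc (s1 s2 h' h : ℝ) (e : ℝ → ℂ) (a b : ℝ) : Prop :=
  (∀ t ∈ uIcc a b, Q.χ s1 ≤ Q.X (e t) ∧ Q.X (e t) ≤ Q.χ s2 ∧ h' ≤ Q.Y (e t) ∧ Q.Y (e t) ≤ h) ∧
    Q.X (e a) = Q.χ s1 ∧ Q.X (e b) = Q.χ s2

/-- entering paths -/
def Ent (y1 y2 x d : ℝ) (e : ℝ → ℂ) (a b : ℝ) : Prop :=
  (∀ t ∈ uIcc a b, |Q.X (e t)| ≤ 1 ∧ y1 ≤ Q.Y (e t) ∧ Q.Y (e t) ≤ y2) ∧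
    x ≤ Q.X (e a) ∧ Q.dd (e b) ≤ d

/-- honest entry -/
def EH (Q' : Quad F) : Prop :=
  ∃ (n : ℕ) (s1 s2 y1 y2 x C h0 : ℝ), s1 < s2 ∧ s2 ≤ -1 ∧ 0 < y1 ∧ y2 < 1 ∧ 0 < x ∧ 0 < h0 ∧
    ∀ h' h, 0 < h' → h ≤ h0 → ∀ e a b, Continuous e → Q.Xc s1 s2 h' h e a b →
      ∃ a' ∈ uIcc a b, ∃ b' ∈ uIcc a b, Q'.Ent y1 y2 x (C * h) (F.f^[n] ∘ e) a' b'

/-- penetrating entry -/
def EP (Q' : Quad F) : Prop :=
  ∃ (n : ℕ) (s1 s2 y1 y2 h0 : ℝ), s1 < s2 ∧ s2 ≤ -1 ∧ 0 < y1 ∧ y2 < 1 ∧ 0 < h0 ∧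
    ∀ h' h, 0 < h' → h ≤ h0 → ∃ x > 0, ∀ e a b, Continuous e → Q.Xc s1 s2 h' h e a b →
      ∃ a' ∈ uIcc a b, ∃ b' ∈ uIcc a b, Q'.Ent y1 y2 x 0 (F.f^[n] ∘ e) a' b'

/-- matched connection -/
def Conn (Q' : Quad F) : Prop :=
  ∃ (n : ℕ) (s1 h0 L y1 y2 : ℝ), s1 ≤ -1 ∧ 0 < h0 ∧ 0 < L ∧ 0 < y1 ∧ y2 < 1 ∧
    ∀ u, Q.χ (s1 - 1) ≤ Q.X u → Q.X u ≤ Q.χ (s1 + 1) → 0 < Q.Y u → Q.Y u ≤ h0 →
      0 < Q'.X (F.f^[n] u) ∧ Q'.X (F.f^[n] u) ≤ 1 ∧ y1 ≤ Q'.Y (F.f^[n] u) ∧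
        Q'.Y (F.f^[n] u) ≤ y2 ∧ Q'.dd (F.f^[n] u) ≤ L * Q.Y u

/-- entry region -/
def Reg (x0 y1 y2 : ℝ) : Set ℂ := {w | 0 < Q.X w ∧ Q.X w ≤ x0 ∧ y1 ≤ Q.Y w ∧ Q.Y w ≤ y2}

/-- data of a pass structure: continuous exit time -/
def PSD (Q' : Quad F) (W y1 y2 x0 : ℝ) (c : ℕ) (τ : ℂ → ℝ) : Prop :=
  0 < x0 ∧ x0 ≤ 1 ∧ ContinuousOn τ (Q.Reg x0 y1 y2) ∧ (∀ v ∈ Q.Reg x0 y1 y2, W ≤ τ v) ∧
    (∀ v ∈ Q.Reg x0 y1 y2, ∀ n : ℕ, τ v - W ≤ n → n ≤ τ v →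
      Q'.X (F.f^[c + Q.M * n] v) = Q'.χ (n - τ v) ∧ 0 < Q'.Y (F.f^[c + Q.M * n] v) ∧
        Q'.Y (F.f^[c + Q.M * n] v) ≤ 1) ∧
    (∀ K : ℝ, ∃ d > 0, ∀ v ∈ Q.Reg x0 y1 y2, Q.dd v ≤ d → ∀ n : ℕ, τ v - W ≤ n → n ≤ τ v →
      K * Q'.Y (F.f^[c + Q.M * n] v) ≤ Q.dd v) ∧
    ∀ C j : ℝ, ∃ h0 > 0, ∀ h, 0 < h → h ≤ h0 → ∀ v ∈ Q.Reg x0 y1 y2, ∀ w ∈ Q.Reg x0 y1 y2,
      ∀ n : ℕ, τ w - W ≤ n → n ≤ τ w → h ≤ Q'.Y (F.f^[c + Q.M * n] w) → Q.dd v ≤ C * h →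
        τ w + j ≤ τ v

/-- pass structure -/
def PS (Q' : Quad F) : Prop :=
  ∀ W y1 y2 : ℝ, 0 ≤ W → 0 < y1 → y2 < 1 → ∃ x0 c τ, Q.PSD Q' W y1 y2 x0 c τ

/-- entering paths at Q produce crossing paths at Q' in two ways with uniform times -/
def Prg (Q' : Quad F) : Prop :=
  ∀ y1 y2 x C s1 s2 : ℝ, 0 < y1 → y2 < 1 → 0 < x → s1 < s2 → s2 ≤ -1 →
    ∃ h1 > 0, ∀ h, 0 < h → h ≤ h1 → ∃ h' > 0, h' ≤ h ∧ ∃ (L : Bool → ℕ) (E : Bool → Set ℂ),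
      (∀ j, IsCompact (E j)) ∧ Disjoint (E true) (E false) ∧
      ∀ e a b, Continuous e → Q.Ent y1 y2 x (C * h) e a b → ∀ j, ∃ a' ∈ uIcc a b, ∃ b' ∈ uIcc a b,
        (∀ t ∈ uIcc a' b', e t ∈ E j) ∧ Q'.Xc s1 s2 h' h (F.f^[L j] ∘ e) a' b'

/-- points which can go back inside the box -/
def Cn : Set ℂ := {w | 0 ≤ Q.X w ∧ Q.X w ≤ 1 ∧ 0 ≤ Q.Y w ∧ Q.Y (Q.Gt.symm w) ≤ 1}

/-- points which can go forward inside the box -/
def Cx : Set ℂ := {w | 0 ≤ Q.X w ∧ Q.X (Q.Gt w) ≤ 1 ∧ 0 ≤ Q.Y w ∧ Q.Y w ≤ 1}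

/-- the open quadrant without the far corner -/
def Ns : Set ℂ := {w | w ∈ Q.Cx ∪ Q.Cn ∧ 0 < Q.X w ∧ 0 < Q.Y w}

/-- entrance gate -/
def En : Set ℂ := {w | 1 < Q.Y (Q.Gt.symm w)}

/-- exit gate -/
def Ex : Set ℂ := {w | 1 < Q.X (Q.Gt w)}

end Quad

/-- Q is the quadrant of B at level ξ with signs sh, sv -/
def Box.IsQuad {F : Dis} (B : Box F) (ξ : ℝ) (sh sv : Bool) (Q : Quad F) : Prop :=
  Q.M = B.M ∧ Q.Gt = B.Gt ∧ ∀ w, Q.X w = 2 * sg sh * (B.X w - ξ) ∧ Q.Y w = sg sv * B.Y w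

/-- a cycle of quadrants without honest link -/
structure Cyc (F : Dis) where
  k : ℕ
  M : ℕ
  Q : ℕ → Quad F
  t : ℕ → ℕ
  s : ℕ → ℝ
  k_pos : 0 < k
  Q_per : ∀ i, Q (i + k) = Q i
  t_per : ∀ i, t (i + k) = t i
  s_per : ∀ i, s (i + k) = s i
  pow : ∀ i, (Q i).M = M
  s_neg : ∀ i, s i < 0
  link : ∀ i, (Q i).LinkAt (Q (i + 1)) (M * t i) ((Q i).γ (s i))
  compat : ∀ i j, (Q i).Compat (Q j)
  inj : ∀ i j, (Q i).Ψ = (Q j).Ψ → i ≡ j [MOD k]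
  nohon : ∀ i j, ¬ (Q i).Hon (Q j) 0

namespace Cyc

variable {F : Dis} (C : Cyc F)

/-- the pass tube -/
def Tube (d : ℝ) : Set ℂ := ⋃ l, ((C.Q l).T d ∪ F.f^[C.M * C.t l] '' (C.Q l).R d)

/-- parameter of the link point pushed m steps further -/
def sm (m : ℕ) (l : ℕ) : ℝ := C.s l + C.t l + m

/-- height of that point on the next stable arc -/
noncomputable def ym (m : ℕ) (l : ℕ) : ℝ := (C.Q (l + 1)).Y ((C.Q l).γ (C.sm m l))

/-- the l-th edge from the vertex l to the vertex l + 1 -/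
def Edge (m : ℕ) (l : ℕ) : Set ℂ := (C.Q l).Gc (C.sm m l) ∪ (C.Q (l + 1)).Sig (C.ym m l)

/-- the closed curve of edges -/
def J (m : ℕ) : Set ℂ := ⋃ l, C.Edge m l

/-- the tube cut along the height y in the strip of the quadrant l + 1 -/
def Cut (l : ℕ) (d y : ℝ) : Set ℂ :=
  (⋃ i, F.f^[C.M * C.t i] '' (C.Q i).R d) ∪ (⋃ i ∈ {i | ¬ i ≡ l + 1 [MOD C.k]}, (C.Q i).T d) ∪
    ((C.Q (l + 1)).T d ∩ {w | (C.Q (l + 1)).Y w ≠ y})

/-- y0 and m are small and large enough: thin tubes miss the short stable arcs -/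
def Good (y0 : ℝ) (m : ℕ) : Prop :=
  0 < y0 ∧ y0 ≤ 1 / 2 ∧ (∀ l, C.ym m l ≤ y0) ∧
    ∀ s : ℝ, ∃ d > 0, ∀ l, Disjoint (C.Tube d) ((C.Q l).Gc s ∪ (C.Q l).Sig y0)

end Cyc

/-- data of the gate argument -/
structure OLD (F : Dis) where
  κ : ℕ
  kA : ℕ
  kB : ℕ
  Qa : Quad F
  A : ℕ → Quad F
  B : ℕ → Quad F
  tA : ℕ → ℕ
  tB : ℕ → ℕ
  κ_pos : 0 < κ
  A0 : (A 0).IsPow Qa κ
  powA : ∀ i ≤ kA, (A i).M = κ * Qa.M
  powB : ∀ l ≤ kB, (B l).M = κ * Qa.M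
  linkA : ∀ i < kA, (A i).Link (A (i + 1)) (κ * Qa.M * tA i)
  linkB : ∀ l < kB, (B (l + 1)).Link (B l) (κ * Qa.M * tB l)
  B0p : (B 0).p = Qa.p
  B0c : Qa.Compat (B 0)
  neA : ∀ i, 1 ≤ i → i ≤ kA → (A i).p ≠ Qa.p
  neB : ∀ l, 1 ≤ l → l ≤ kB → (B l).p ≠ Qa.p
  visA : ∃ i ≤ kA, ∃ j, ∃ w ∈ insert (A i).p (A i).Gam, F.f^[Qa.M * j] w ∈ Qa.Ns
  visB : ∃ l ≤ kB, ∃ m, ∃ v ∈ Qa.Ns, F.f^[Qa.M * m] v ∈ (B l).Sig (1 / 2)

/-- the backward tube up to the index l, cut at the height y -/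
def OLD.TubeB {F : Dis} (O : OLD F) (l : ℕ) (d y : ℝ) : Set ℂ :=
  (⋃ i ∈ {i | i < l}, ((O.B i).T d ∪ F.f^[O.κ * O.Qa.M * O.tB i] '' (O.B (i + 1)).R d)) ∪
    ((O.B l).T d ∩ {w | (O.B l).Y w < y})

/-- contracting neighbourhood of a sink -/
structure Trap (F : Dis) where
  q : ℂ
  M : ℕ
  N : Seminorm ℝ ℂ
  r : ℝ
  θ : ℝ
  c : ℝ
  C : ℝ
  M_pos : 0 < M
  r_pos : 0 < r
  θ_pos : 0 < θ
  θ_lt : θ < 1
  c_pos : 0 < c
  low : ∀ v, c * ‖v‖ ≤ N v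
  up : ∀ v, N v ≤ C * ‖v‖
  fix : F.f^[M] q = q
  sub : ∀ w, N (w - q) ≤ r → ‖w‖ < 1
  contr : ∀ w w', N (w - q) ≤ r → N (w' - q) ≤ r →
    N (F.f^[M] w - F.f^[M] w') ≤ θ * N (w - w')

/-- local structure -/
abbrev Loc (F : Dis) := Trap F ⊕ Box F

namespace Loc

variable {F : Dis}

/-- the power of a local structure -/
def M : Loc F → ℕ
  | Sum.inl T => T.M
  | Sum.inr B => B.M

/-- the large set of a local structure -/
def S : Loc F → Set ℂ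
  | Sum.inl T => {w | T.N (w - T.q) ≤ T.r}
  | Sum.inr B => B.S

/-- the exit set around q -/
def Sc (q : ℂ) : Loc F → Set ℂ
  | Sum.inl T => {w | T.N (w - T.q) ≤ T.r}
  | Sum.inr B => {w | |B.X w - B.X q| ≤ 1 / 2 ∧ |B.Y w| ≤ 1 / 2}

/-- the local structure is adapted to q -/
def OK (q : ℂ) : Loc F → Prop
  | Sum.inl T => T.q = q
  | Sum.inr B => B.Full ∧ B.Cone ∧ |B.X q| ≤ 1 / 4 ∧ B.Y q = 0 ∧ B.Gt q = q

end Loc

/-- a local structure at each periodic point -/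
structure Atlas (F : Dis) where
  L : periodicPts F.f → Loc F
  ok : ∀ q : periodicPts F.f, (L q).OK q

namespace Atlas

variable {F : Dis} (At : Atlas F)

/-- the power at q -/
def M (q : periodicPts F.f) : ℕ := (At.L q).M

/-- the exit set at q -/
def Sc (q : periodicPts F.f) : Set ℂ := (At.L q).Sc q

/-- quadrants of the atlas -/
def IsQ (q : periodicPts F.f) (sh sv : Bool) (Q : Quad F) : Prop :=
  ∃ B, At.L q = Sum.inr B ∧ B.IsQuad (B.X q) sh sv Q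

/-- finite atlas with one power -/
def Fin (M0 : ℕ) : Prop := (range At.L).Finite ∧ ∀ q, At.M q = M0

/-- forward trivial point -/
def TF (z : ℂ) : Prop := ∃ q j k0, ∀ k ≥ k0, F.f^[j + k * At.M q] z ∈ At.Sc q

/-- backward trivial point -/
def TB (y : ℂ) : Prop := ∃ q j k0, ∀ k ≥ k0, F.g^[j + k * At.M q] y ∈ At.Sc q

/-- strip along the stable arc at q in the chart of q -/
def Tq (q : periodicPts F.f) (sh sv : Bool) (d : ℝ) : Set ℂ :=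
  {w | ∃ B, At.L q = Sum.inr B ∧ 0 < 2 * sg sh * (B.X w - B.X q) ∧
    2 * sg sh * (B.X w - B.X q) < d ∧ 0 < sg sv * B.Y w ∧ sg sv * B.Y w < 1 / 2}

/-- forbidden strips at q at times of given residues -/
def Vq (q : periodicPts F.f) (𝒜 : Finset (Bool × Bool × ℕ)) (d : ℝ) (t : ℤ) : Set ℂ :=
  {w | ∃ x ∈ 𝒜, (At.M q : ℤ) ∣ t - x.2.2 ∧ w ∈ At.Tq q x.1 x.2.1 d}

/-- the large sets of the atlas -/
def Big : Set (Set ℂ) := {S | ∃ q, S = (At.L q).S}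

/-- a block of times with exits from all exit sets of the family, at all residues -/
def Blk (o : ℤ → ℂ) (A : Finset (periodicPts F.f)) (a b : ℤ) : Prop :=
  ∀ q ∈ A, ∀ j : ℤ, ∃ t, a ≤ t ∧ t < b ∧ (At.M q : ℤ) ∣ t - j ∧ o t ∉ At.Sc q

/-- m consecutive blocks -/
def Blks (o : ℤ → ℂ) (A : Finset (periodicPts F.f)) (m : ℕ) (a b : ℤ) : Prop :=
  ∃ τ : ℕ → ℤ, a ≤ τ 0 ∧ τ m ≤ b ∧ ∀ l < m, τ l ≤ τ (l + 1) ∧ At.Blk o A (τ l) (τ (l + 1))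

end Atlas

/-- forward convergence to a periodic point along a multiple -/
def ConvF (F : Dis) (z : ℂ) : Prop :=
  ∃ N > 0, ∃ p, F.f^[N] p = p ∧ Tendsto (fun k : ℕ => F.f^[k * N] z) atTop (𝓝 p)

/-- backward convergence to a periodic point along a multiple -/
def ConvB (F : Dis) (y : ℂ) : Prop :=
  ∃ N > 0, ∃ p, F.f^[N] p = p ∧ Tendsto (fun k : ℕ => F.g^[k * N] y) atTop (𝓝 p)

/-- full orbit in the attractor -/
def Orb (F : Dis) (o : ℤ → ℂ) : Prop := ∀ t, o t ∈ F.Λ ∧ o (t + 1) = F.f (o t)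

/-- the closed set Y is shadowed by real segments ending in S and avoiding V -/
def Atlas.Adm {F : Dis} (At : Atlas F) (S Y : Set ℂ) (V : ℤ → Set ℂ) : Prop :=
  ∀ O, IsOpen O → Y ⊆ O → ∀ (A : Finset (periodicPts F.f)) (m : ℕ), ∃ o a b, Orb F o ∧ o b ∈ S ∧
    (∀ t, a ≤ t → t ≤ b → o t ∈ O ∧ o t ∉ V t) ∧ At.Blks o A m a b

/-- limit at an internal time -/
def Lim {ι : Type} (U : Ultrafilter ι) (o : ι → ℤ → ℂ) (t : ι → ℤ) (z : ℂ) : Prop :=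
  Tendsto (fun i => o i (t i)) U (𝓝 z)

/-- a family of segments with superblocks -/
def Atlas.Fam {F : Dis} (At : Atlas F) (S Y : Set ℂ) (V : ℤ → Set ℂ) {ι : Type}
    (U : Ultrafilter ι) (o : ι → ℤ → ℂ) (β : ℤ → ι → ℤ) : Prop :=
  (∀ i, Orb F (o i)) ∧ (∀ K (n : ℕ), ∀ᶠ i in U, β K i + n ≤ β (K + 1) i) ∧
    (∀ K O, IsOpen O → Y ⊆ O → ∀ᶠ i in U, ∀ t, β K i ≤ t → t ≤ β (K + 1) i →
      o i t ∈ O ∧ o i t ∉ V t ∧ o i t ∈ S) ∧
    ∀ K A m, ∀ᶠ i in U, At.Blks (o i) A m (β K i) (β (K + 1) i)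

/-- a long stay in the quadrant Q between the internal times a and b -/
def Seg {F : Dis} {ι : Type} (U : Ultrafilter ι) (o : ι → ℤ → ℂ) (Q : Quad F) (L : ℕ)
    (a b : ι → ℤ) (y z : ℂ) : Prop :=
  (∀ n : ℕ, ∀ᶠ i in U, a i + n ≤ b i) ∧ (∀ᶠ i in U, ((L * Q.M : ℕ) : ℤ) ∣ b i - a i) ∧
    (∀ᶠ i in U, ∀ k : ℕ, a i + k * Q.M ≤ b i →
      |Q.X (o i (a i + k * Q.M))| ≤ 1 ∧ |Q.Y (o i (a i + k * Q.M))| ≤ 1 / 2) ∧
    ∀ t w, (∀ᶠ i in U, a i ≤ t i ∧ t i ≤ b i ∧ (L : ℤ) ∣ t i - a i) → Lim U o t w →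
      ∃ s : ℕ, w = F.f^[L * s] y ∨ ((∀ᶠ i in U, t i + (L * s : ℕ) = b i) ∧ w = F.g^[L * s] z) ∨
        w = F.f^[L * s] Q.p

/-- a real pass through a quadrant of the atlas -/
structure Pass {F : Dis} (At : Atlas F) {ι : Type} (U : Ultrafilter ι) (o : ι → ℤ → ℂ)
    (L : ℕ) where
  q : periodicPts F.f
  sh : Bool
  sv : Bool
  Q : Quad F
  a : ι → ℤ
  b : ι → ℤ
  y : ℂ
  z : ℂ
  isq : At.IsQ q sh sv Q
  ly : Lim U o a y
  yX : Q.X y = 0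
  yY : 0 < Q.Y y ∧ Q.Y y < 1 / 2
  aX : ∀ᶠ i in U, 0 < Q.X (o i (a i))
  lz : Lim U o b z
  zX : 0 < Q.X z ∧ Q.X z < 1
  zY : Q.Y z = 0
  bY : ∀ᶠ i in U, 0 < Q.Y (o i (b i))
  seg : Seg U o Q L a b y z

/-- consecutive passes -/
def Pass.Nx {F : Dis} {At : Atlas F} {ι : Type} {U : Ultrafilter ι} {o : ι → ℤ → ℂ} {L : ℕ}
    (P P' : Pass At U o L) : Prop :=
  ∃ n : ℕ, L * P.Q.M * P'.Q.M ∣ n ∧ (∀ᶠ i in U, P'.a i = P.b i + n) ∧
    P.Q.LinkAt P'.Q n P.z ∧ P'.y = F.f^[n] P.z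

/-- the pass lies in a bounded range of superblocks -/
def Pass.InR {F : Dis} {At : Atlas F} {ι : Type} {U : Ultrafilter ι} {o : ι → ℤ → ℂ} {L : ℕ}
    (P : Pass At U o L) (β : ℤ → ι → ℤ) : Prop :=
  ∃ K : ℕ, ∀ᶠ i in U, β (-K) i ≤ P.a i ∧ P.b i ≤ β K i

/-- forward range of a chain -/
def RgF {F : Dis} {At : Atlas F} {ι : Type} {U : Ultrafilter ι} {o : ι → ℤ → ℂ} {L : ℕ}
    (P : ℕ → Pass At U o L) (k : ℕ∞) (s0 : ℕ) (t : ι → ℤ) : Prop :=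
  (∀ᶠ i in U, (P 0).b i + s0 ≤ t i) ∧
    ∃ n s : ℕ, (n : ℕ∞) ≤ k ∧ ∀ᶠ i in U, t i ≤ (P n).b i + s

/-- backward range of a chain -/
def RgB {F : Dis} {At : Atlas F} {ι : Type} {U : Ultrafilter ι} {o : ι → ℤ → ℂ} {L : ℕ}
    (P : ℕ → Pass At U o L) (k : ℕ∞) (s0 : ℕ) (t : ι → ℤ) : Prop :=
  (∀ᶠ i in U, t i + s0 ≤ (P 0).a i) ∧
    ∃ n s : ℕ, (n : ℕ∞) ≤ k ∧ ∀ᶠ i in U, (P n).a i - s ≤ t i

/-- a convex range of internal times on which limits leave all exit sets in one direction -/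
def Win {F : Dis} (At : Atlas F) {ι : Type} (U : Ultrafilter ι) (o : ι → ℤ → ℂ)
    (β : ℤ → ι → ℤ) (Rg : (ι → ℤ) → Prop) : Prop :=
  (∃ t, Rg t) ∧ (∀ t, Rg t → ∃ K : ℕ, ∀ᶠ i in U, β (-K) i ≤ t i ∧ t i ≤ β K i) ∧
    (∀ t t' t'', Rg t → Rg t'' → (∀ᶠ i in U, t i ≤ t' i ∧ t' i ≤ t'' i) → Rg t') ∧
    (((∀ t, Rg t → Rg fun i => t i + 1) ∧ ∀ q (j : ℤ) τ, Rg τ → ∃ t w, Rg t ∧
        (∀ᶠ i in U, τ i ≤ t i ∧ (At.M q : ℤ) ∣ t i - j) ∧ Lim U o t w ∧ w ∉ At.Sc q) ∨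
      ((∀ t, Rg t → Rg fun i => t i - 1) ∧ ∀ q (j : ℤ) τ, Rg τ → ∃ t w, Rg t ∧
        (∀ᶠ i in U, t i ≤ τ i ∧ (At.M q : ℤ) ∣ t i - j) ∧ Lim U o t w ∧ w ∉ At.Sc q))

/-- the two kinds of sources -/
def Src (F : Dis) (S : Set ℂ) : Prop :=
  S ⊆ F.Λ ∧ MapsTo F.g S S ∧
    (S ⊆ periodicPts F.f ∨ ∃ y ∈ F.Λ, S = range fun n : ℕ => F.g^[n] y)

/-- directed arc for the M-th iterate -/
def ArcE (F : Dis) (M : ℕ) (c c' : ℂ) (E : Set ℂ) : Prop :=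
  ∃ e : ℝ → ℂ, ContinuousOn e (Icc 0 1) ∧ InjOn e (Icc 0 1) ∧ e 0 = c ∧ e 1 = c' ∧
    E = e '' Icc 0 1 ∧ E ⊆ F.Λ ∧ ∀ t ∈ Icc (0 : ℝ) 1,
      (∃ t' ∈ Icc t 1, F.f^[M] (e t) = e t') ∧ ∃ t' ∈ Icc 0 t, F.f^[M] (e t') = e t

/-- the orbit segment of length n splits into at most R pieces -/
def Split (T : ℂ → ℂ) (𝒮 : Set (Set ℂ)) (R : ℕ) (w : ℂ) (n : ℕ) : Prop :=
  ∃ r ≤ R, ∃ τ : ℕ → ℕ, τ 0 = 0 ∧ τ r = n ∧ ∀ l < r, τ l ≤ τ (l + 1) ∧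
    (τ (l + 1) ≤ τ l + 1 ∨ ∃ S ∈ 𝒮, ∀ t, τ l ≤ t → t < τ (l + 1) → T^[t] w ∈ S)

/-- linear count of the orbit segments which stay in S -/
def Cnt (T : ℂ → ℂ) (S : Set ℂ) : Prop :=
  ∀ ε > 0, ∃ C : ℕ, ∀ n : ℕ, ∃ lab : ℂ → ℕ, ∀ w, (∀ t < n, T^[t] w ∈ S) →
    lab w < C * (n + 1) ∧ ∀ w', (∀ t < n, T^[t] w' ∈ S) → lab w = lab w' →
      ∀ t < n, dist (T^[t] w) (T^[t] w') < ε

/-- perturbations of the M0-th iterate with orbit segments which need many pieces -/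
structure BD {F : Dis} (At : Atlas F) (M0 : ℕ) where
  T : ℕ → ℂ → ℂ
  w : ℕ → ℂ
  n : ℕ → ℕ
  U : Ultrafilter ℕ
  U_le : (U : Filter ℕ) ≤ atTop
  maps : ∀ R, MapsTo (T R) Disc Disc
  mem : ∀ R, w R ∈ Disc
  close : ∀ R : ℕ, LipClose (1 / ((R : ℝ) + 1)) (T R) F.f^[M0]
  bad : ∀ R, ¬ Split (T R) At.Big (R ^ 2) (w R) (n R)

namespace BD

variable {F : Dis} {At : Atlas F} {M0 : ℕ} (D : BD At M0)

/-- the orbit point at time t -/
def o (R t : ℕ) : ℂ := (D.T R)^[t] (D.w R)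

/-- limit at an internal time -/
def Lim (t : ℕ → ℕ) (z : ℂ) : Prop := Tendsto (fun R => D.o R (t R)) D.U (𝓝 z)

/-- early internal times -/
def Early (t : ℕ → ℕ) : Prop :=
  ∃ k : ℕ, ∀ᶠ R in D.U, Split (D.T R) At.Big (k * R) (D.w R) (t R)

/-- a stay in the box B from the time t near the fixed point c to the exit time e -/
def Stay (c : ℂ) (t : ℕ → ℕ) (B : Box F) (sh : Bool) (e : ℕ → ℕ) : Prop :=
  (∀ᶠ R in D.U, t R ≤ e R) ∧ (∀ s : ℕ → ℕ, (∀ᶠ R in D.U, s R ≤ e R) → D.Early s) ∧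
    (∀ (s : ℕ → ℕ) u, (∀ᶠ R in D.U, t R ≤ s R ∧ s R ≤ e R) → D.Lim s u → B.Y u = 0) ∧
    (∀ (s s' : ℕ → ℕ) u u', (∀ᶠ R in D.U, t R ≤ s R ∧ s R ≤ s' R ∧ s' R ≤ e R) →
      D.Lim s u → D.Lim s' u' → 0 ≤ sg sh * (B.X u' - B.X u)) ∧
    (∀ x, 0 ≤ sg sh * (x - B.X c) → sg sh * x ≤ 7 / 8 → 0 ≤ sg sh * (B.φ x - x)) ∧
    (∀ x, 0 < sg sh * (x - B.X c) → sg sh * x ≤ 7 / 8 → ∃ (s : ℕ → ℕ) (u : ℂ),
      (∀ᶠ R in D.U, t R ≤ s R ∧ s R ≤ e R) ∧ D.Lim s u ∧ 0 ≤ sg sh * (x - B.X u) ∧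
        0 ≤ sg sh * (B.φ (B.X u) - x)) ∧
    ∀ t' s' : ℕ → ℕ, (∀ᶠ R in D.U, t R ≤ t' R ∧ t' R ≤ e R ∧ t' R ≤ s' R) →
      (∀ (s : ℕ → ℕ) u, (∀ᶠ R in D.U, t' R ≤ s R ∧ s R ≤ s' R) → D.Lim s u →
        |B.X u| < 7 / 8 ∧ |B.Y u| < 1 / 2) → ∀ᶠ R in D.U, s' R ≤ e R

/-- ζ is the last fixed level on the side sh up to 3/4 -/
def Last (B : Box F) (sh : Bool) (ζ : ℝ) : Prop :=
  B.φ ζ = ζ ∧ sg sh * ζ ≤ 3 / 4 ∧ ∀ x, B.φ x = x → sg sh * x ≤ 3 / 4 → sg sh * x ≤ sg sh * ζ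

end BD

end Pool.Agent.Lib.MP_3fe454_an.S2
end

-- part Pool.Agent.Lib.MP_3fe454_an.S2.Basic
section

/-!
General facts on iterates, orbits and internal times.
-/

set_option autoImplicit false

open Set Metric Filter Topology Function

namespace Pool.Agent.Lib.MP_3fe454_an.S2

open PD

variable (F : Dis)

theorem inj_iter (n : ℕ) : InjOn F.f^[n] Disc := fun z hz w hw e => by
  rw [← F.iter_g_f hz n, e, F.iter_g_f hw n]

theorem open_iter (n : ℕ) {U : Set ℂ} (hU : IsOpen U) (h : U ⊆ ball 0 1) :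
    IsOpen (F.f^[n] '' U) := by
  refine isOpen_iff_mem_nhds.2 ?_
  rintro _ ⟨z, hz, rfl⟩
  have h1 : F.g^[n] ⁻¹' U ∈ 𝓝 (F.f^[n] z) := (hU.preimage (F.cg.iterate n)).mem_nhds (by
    rwa [mem_preimage, F.iter_g_f (ball_subset_closedBall (h hz))])
  filter_upwards [h1, F.Ω_mem_nhds (mem_ball_zero_iff.1 (h hz)) n] with w k1 k2
  exact ⟨_, k1, (F.Ω_pull k2).2⟩

theorem lip_iter (n : ℕ) : ∃ L > 0, ∀ w ∈ Disc, ∀ w' ∈ Disc,
    ‖F.f^[n] w - F.f^[n] w'‖ ≤ L * ‖w - w'‖ := by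
  have h0 : 0 < F.M := one_pos.trans_le F.one_le_M
  refine ⟨F.M ^ n, pow_pos h0 n, fun w hw w' hw' => ?_⟩
  induction n with
  | zero => simp
  | succ n ih =>
    rw [iterate_succ_apply', iterate_succ_apply', pow_succ', mul_assoc]
    exact ((convex_closedBall 0 1).norm_image_sub_le_of_norm_hasFDerivWithin_le F.deriv F.up
      (F.iter_mem_Disc hw' n) (F.iter_mem_Disc hw n)).trans (mul_le_mul_of_nonneg_left ih h0.le)

theorem Λ_null : MeasureTheory.volume F.Λ = 0 := by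
  have h : Tendsto (fun n : ℕ => ENNReal.ofReal (Real.pi * F.b ^ n)) atTop (𝓝 0) := by
    simpa using ENNReal.tendsto_ofReal
      ((tendsto_pow_atTop_nhds_zero_of_lt_one F.b_pos.le F.b_lt).const_mul Real.pi)
  exact le_zero_iff.1 (ge_of_tendsto' h fun n =>
    (MeasureTheory.measure_mono (iInter_subset _ n)).trans (F.volume_Ω n))

theorem open_not_sub {U : Set ℂ} (hU : IsOpen U) (h : U.Nonempty) : ¬ U ⊆ F.Λ := fun k =>
  hU.measure_ne_zero MeasureTheory.volume h (MeasureTheory.measure_mono_null k (Λ_null F))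

theorem Λ_nonempty : F.Λ.Nonempty :=
  IsCompact.nonempty_iInter_of_sequence_nonempty_isCompact_isClosed _
    (fun n => F.Ω_anti n.le_succ) (fun n => ⟨_, 0, by simp, rfl⟩) (F.Ω_compact 0)
    fun n => (F.Ω_compact n).isClosed

theorem basic_per {z : ℂ} (h : z ∈ periodicPts F.f) (n : ℕ) :
    F.f^[n] z ∈ periodicPts F.f ∧ F.g^[n] z ∈ periodicPts F.f := by
  obtain ⟨k, hk, h⟩ := h
  refine ⟨⟨k, hk, h.apply_iterate n⟩, k, hk, ?_⟩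
  obtain ⟨j, rfl⟩ : ∃ j, k = j + 1 := ⟨k - 1, by omega⟩
  have h1 : F.f^[n] (F.f^[n * j] z) = z := by
    rw [← iterate_add_apply, add_comm, ← Nat.mul_succ]; exact h.const_mul n
  have h2 := F.iter_g_f (F.iter_mem_Disc (F.Λ_sub_Disc (F.periodic_mem_Λ ⟨_, hk, h⟩)) (n * j)) n
  rw [h1] at h2
  exact h2 ▸ h.apply_iterate _

theorem HP.iter {F : Dis} (h : HP F) {n : ℕ} (hn : 0 < n) {X : Set ℂ} (hX : IsCompact X)
    (hne : X.Nonempty) (hs : X ⊆ Disc) (hm : MapsTo F.f^[n] X X) :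
    ∃ x ∈ X, x ∈ periodicPts F.f := by
  obtain ⟨y, hy, k⟩ := h (⋃ r ∈ Finset.range n, F.f^[r] '' X)
    ((Finset.range n).isCompact_biUnion fun r _ => hX.image (F.cf.iterate r))
    (hne.mono fun x hx => mem_iUnion₂.2 ⟨0, Finset.mem_range.2 hn, x, hx, rfl⟩)
    (iUnion₂_subset fun r _ => image_subset_iff.2 fun x hx => F.iter_mem_Disc (hs hx) r) (by
      intro y hy
      obtain ⟨r, hr, x, hx, rfl⟩ := mem_iUnion₂.1 hy
      rw [← iterate_succ_apply' F.f]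
      rcases (Nat.succ_le_of_lt (Finset.mem_range.1 hr)).eq_or_lt with e | e
      · exact mem_iUnion₂.2 ⟨0, Finset.mem_range.2 hn, _, hm hx, by rw [e]; rfl⟩
      · exact mem_iUnion₂.2 ⟨_, Finset.mem_range.2 e, x, hx, rfl⟩)
  obtain ⟨r, -, x, hx, rfl⟩ := mem_iUnion₂.1 hy
  exact ⟨x, hx, F.iter_g_f (hs hx) r ▸ (basic_per F k r).2⟩

theorem HP.per_nonempty {F : Dis} (h : HP F) : (periodicPts F.f).Nonempty :=
  (h _ (isCompact_closedBall 0 1) ⟨0, by simp⟩ subset_rfl fun z _ => F.f_mem_Disc z).imp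
    fun _ k => k.2

theorem g_fix {p : ℂ} {N : ℕ} (hN : 0 < N) (h : F.f^[N] p = p) (k : ℕ) :
    F.g^[N * k] p = p := by
  have h1 := F.iter_g_f (F.Λ_sub_Disc (F.periodic_mem_Λ ⟨N, hN, h⟩)) (N * k)
  rwa [show F.f^[N * k] p = p from IsPeriodicPt.mul_const h k] at h1

theorem per_of_iter {z : ℂ} (hz : z ∈ Disc) {n : ℕ} (h : F.f^[n] z ∈ periodicPts F.f) :
    z ∈ periodicPts F.f := F.iter_g_f hz n ▸ (basic_per F h n).2

theorem per_iter {z : ℂ} (h : z ∈ periodicPts F.f) (n : ℕ) :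
    F.f^[n] z ∈ periodicPts F.f ∧ F.g^[n] z ∈ periodicPts F.f := basic_per F h n

theorem basic_conv {T : ℂ → ℂ} (hT : Continuous T) {z p : ℂ} {N M : ℕ} (hN : 0 < N) (hM : 0 < M)
    (hNp : T^[N] p = p) (hMp : T^[M] p = p) (h : Tendsto (fun k : ℕ => T^[k * N] z) atTop (𝓝 p)) :
    Tendsto (fun k : ℕ => T^[k * M] z) atTop (𝓝 p) := by
  intro V hV
  have h1 : ∀ᶠ q : ℕ in atTop, ∀ r ∈ Finset.range N, T^[r] p = p → T^[r] (T^[q * N] z) ∈ V :=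
    (eventually_all_finset _).2 fun r _ => eventually_imp_distrib_left.2 fun e =>
      ((hT.iterate r).tendsto' _ _ e).comp h hV
  have h2 : Tendsto (fun k : ℕ => k * M / N) atTop atTop :=
    (Nat.tendsto_div_const_atTop hN.ne').comp
      (tendsto_atTop_mono (fun k => Nat.le_mul_of_pos_right k hM) tendsto_id)
  refine mem_map.2 ((h2.eventually h1).mono fun k hk => ?_)
  have := hk _ (Finset.mem_range.2 (Nat.mod_lt (k * M) hN))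
    (IsPeriodicPt.mod (IsPeriodicPt.const_mul hMp k) hNp)
  rwa [← iterate_add_apply, Nat.mod_add_div'] at this

theorem conv_all_f {z p : ℂ} {N M : ℕ} (hN : 0 < N) (hM : 0 < M) (hNp : F.f^[N] p = p)
    (hMp : F.f^[M] p = p) (h : Tendsto (fun k : ℕ => F.f^[k * N] z) atTop (𝓝 p)) :
    Tendsto (fun k : ℕ => F.f^[k * M] z) atTop (𝓝 p) := basic_conv F.cf hN hM hNp hMp h

theorem conv_all_g {y p : ℂ} {N M : ℕ} (hN : 0 < N) (hM : 0 < M) (hNp : F.f^[N] p = p)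
    (hMp : F.f^[M] p = p) (h : Tendsto (fun k : ℕ => F.g^[k * N] y) atTop (𝓝 p)) :
    Tendsto (fun k : ℕ => F.g^[k * M] y) atTop (𝓝 p) :=
  basic_conv F.cg hN hM (by simpa using g_fix F hN hNp 1) (by simpa using g_fix F hM hMp 1) h

/-- the limit point can be taken along multiples of any given number -/
theorem ConvF.mul {F : Dis} {z : ℂ} (h : ConvF F z) {L : ℕ} (hL : 0 < L) :
    ∃ N > 0, L ∣ N ∧ ∃ p, F.f^[N] p = p ∧
      Tendsto (fun k : ℕ => F.f^[k * N] z) atTop (𝓝 p) := by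
  obtain ⟨N, hN, p, h1, h2⟩ := h
  have h3 : F.f^[N * L] p = p := IsPeriodicPt.mul_const h1 L
  exact ⟨N * L, mul_pos hN hL, dvd_mul_left _ _, p, h3, conv_all_f F hN (mul_pos hN hL) h1 h3 h2⟩

theorem ConvB.mul {F : Dis} {y : ℂ} (h : ConvB F y) {L : ℕ} (hL : 0 < L) :
    ∃ N > 0, L ∣ N ∧ ∃ p, F.f^[N] p = p ∧
      Tendsto (fun k : ℕ => F.g^[k * N] y) atTop (𝓝 p) := by
  obtain ⟨N, hN, p, h1, h2⟩ := h
  have h3 : F.f^[N * L] p = p := IsPeriodicPt.mul_const h1 L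
  exact ⟨N * L, mul_pos hN hL, dvd_mul_left _ _, p, h3, conv_all_g F hN (mul_pos hN hL) h1 h3 h2⟩

theorem exists_orb {z : ℂ} (hz : z ∈ F.Λ) : ∃ o, Orb F o ∧ o 0 = z := by
  refine ⟨fun t => F.f^[t.toNat] (F.g^[(-t).toNat] z), fun t =>
    ⟨F.iter_f_mem_Λ (F.iter_g_mem_Λ hz _) _, ?_⟩, rfl⟩
  beta_reduce
  rcases le_or_gt 0 t with h | h
  · rw [show (t + 1).toNat = t.toNat + 1 by omega, show (-(t + 1)).toNat = (-t).toNat by omega,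
      iterate_succ_apply']
  · rw [show (t + 1).toNat = 0 by omega, show t.toNat = 0 by omega,
      show (-t).toNat = (-(t + 1)).toNat + 1 by omega, iterate_succ_apply', iterate_zero_apply,
      iterate_zero_apply, F.f_g (F.iter_g_mem_Λ hz _)]

theorem Orb.add {F : Dis} {o : ℤ → ℂ} (h : Orb F o) (t : ℤ) (n : ℕ) :
    o (t + n) = F.f^[n] (o t) := by
  induction n with
  | zero => simp
  | succ n ih => rw [iterate_succ_apply', ← ih, ← (h _).2, Nat.cast_succ, add_assoc]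

theorem Orb.sub {F : Dis} {o : ℤ → ℂ} (h : Orb F o) (t : ℤ) (n : ℕ) :
    o (t - n) = F.g^[n] (o t) := by
  rw [← F.iter_g_f (F.Λ_sub_Disc (h (t - n)).1) n, ← h.add, sub_add_cancel]

section

variable {F} {ι : Type} {U : Ultrafilter ι} {o : ι → ℤ → ℂ}

theorem lim_exists (ho : ∀ i, Orb F (o i)) (t : ι → ℤ) : ∃ z, Lim U o t z :=
  (F.Λ_compact.ultrafilter_le_nhds' (U.map fun i => o i (t i))
    (Ultrafilter.mem_map.2 (univ_mem' fun i => (ho i _).1))).imp fun _ k => k.2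

theorem Lim.mem (ho : ∀ i, Orb F (o i)) {t : ι → ℤ} {z : ℂ} (h : Lim U o t z) : z ∈ F.Λ :=
  F.Λ_compact.isClosed.mem_of_tendsto h (Eventually.of_forall fun i => (ho i _).1)

theorem Lim.unique {t : ι → ℤ} {z z' : ℂ} (h : Lim U o t z) (h' : Lim U o t z') : z = z' :=
  tendsto_nhds_unique h h'

theorem Lim.congr {t t' : ι → ℤ} {z : ℂ} (h : Lim U o t z) (e : ∀ᶠ i in U, t i = t' i) :
    Lim U o t' z := Tendsto.congr' (e.mono fun i k => by simp only [k]) h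

theorem Lim.add (ho : ∀ i, Orb F (o i)) {t : ι → ℤ} {z : ℂ} (h : Lim U o t z) (n : ℕ) :
    Lim U o (fun i => t i + n) (F.f^[n] z) :=
  (((F.cf.iterate n).tendsto z).comp h).congr fun i => ((ho i).add _ n).symm

theorem Lim.sub (ho : ∀ i, Orb F (o i)) {t : ι → ℤ} {z : ℂ} (h : Lim U o t z) (n : ℕ) :
    Lim U o (fun i => t i - n) (F.g^[n] z) :=
  (((F.cg.iterate n).tendsto z).comp h).congr fun i => ((ho i).sub _ n).symm

theorem Lim.closed {t : ι → ℤ} {z : ℂ} (h : Lim U o t z) {C : Set ℂ} (hC : IsClosed C)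
    (hm : ∀ᶠ i in U, o i (t i) ∈ C) : z ∈ C := hC.mem_of_tendsto h hm

theorem ult_res (U : Ultrafilter ι) (t : ι → ℤ) {n : ℕ} (hn : 0 < n) :
    ∃ r : ℕ, r < n ∧ ∀ᶠ i in U, (n : ℤ) ∣ t i - r :=
  (Ultrafilter.eventually_exists_mem_iff (finite_Iio n)).1 (Eventually.of_forall fun i => by
    have h0 : (0 : ℤ) < n := by exact_mod_cast hn
    have h1 := Int.emod_nonneg (t i) h0.ne'
    have h2 := Int.emod_lt_of_pos (t i) h0
    exact ⟨(t i % n).toNat, mem_Iio.2 (by omega), by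
      rw [Int.toNat_of_nonneg h1]; exact Int.dvd_self_sub_emod⟩)

theorem ult_dich (U : Ultrafilter ι) (t : ι → ℤ) (h : ∀ᶠ i in U, 0 ≤ t i) :
    (∃ s : ℕ, ∀ᶠ i in U, t i = s) ∨ ∀ n : ℕ, ∀ᶠ i in U, (n : ℤ) ≤ t i := by
  refine or_iff_not_imp_right.2 fun k => ?_
  obtain ⟨n, hn⟩ := not_forall.1 k
  obtain ⟨s, -, hs⟩ := (Ultrafilter.eventually_exists_mem_iff (f := U)
    (P := fun (s : ℕ) i => t i = s) (finite_Iio n)).1 (by
      filter_upwards [h, Ultrafilter.eventually_not.2 hn] with i h1 h2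
      exact ⟨(t i).toNat, mem_Iio.2 (by omega), by omega⟩)
  exact ⟨s, hs⟩

end

end Pool.Agent.Lib.MP_3fe454_an.S2
end

-- part Pool.Agent.Lib.MP_3fe454_an.S2.BoxB
section

/-!
Elementary facts on boxes.
-/

set_option autoImplicit false

open Set Metric Filter Topology Function

namespace Pool.Agent.Lib.MP_3fe454_an.S2

open PD

namespace Box

variable {F : Dis} (B : Box F)

theorem cX : Continuous B.X := continuous_fst.comp B.Ψ.continuous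

theorem cY : Continuous B.Y := continuous_snd.comp B.Ψ.continuous

theorem c_pt : Continuous fun p : ℝ × ℝ => B.pt p.1 p.2 := B.Ψ.symm.continuous

theorem X_pt (x y : ℝ) : B.X (B.pt x y) = x := by simp [X, pt]

theorem Y_pt (x y : ℝ) : B.Y (B.pt x y) = y := by simp [Y, pt]

theorem pt_XY (w : ℂ) : B.pt (B.X w) (B.Y w) = w := by simp [X, Y, pt]

theorem ext_XY {w w' : ℂ} (h : B.X w = B.X w') (h' : B.Y w = B.Y w') : w = w' := by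
  rw [← B.pt_XY w, ← B.pt_XY w', h, h']

theorem X_Gt (w : ℂ) : B.X (B.Gt w) = B.φ (B.X w) := B.lev w

theorem X_iter (n : ℕ) (w : ℂ) : B.X (B.Gt^[n] w) = B.φ^[n] (B.X w) := by
  induction n with
  | zero => rfl
  | succ n ih => rw [iterate_succ_apply', iterate_succ_apply', B.X_Gt, ih]

theorem X_symm (w : ℂ) : B.X (B.Gt.symm w) = B.φ.symm (B.X w) := by
  have h := B.X_Gt (B.Gt.symm w)
  rw [B.Gt.apply_symm_apply] at h
  rw [h, B.φ.symm_apply_apply]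

theorem X_symm_iter (n : ℕ) (w : ℂ) : B.X (B.Gt.symm^[n] w) = B.φ.symm^[n] (B.X w) := by
  induction n with
  | zero => rfl
  | succ n ih => rw [iterate_succ_apply', iterate_succ_apply', B.X_symm, ih]

theorem Y_Gt_abs (w : ℂ) : |B.Y (B.Gt w)| ≤ B.lam * |B.Y w| := B.contr w

theorem Y_iter_abs (n : ℕ) (w : ℂ) : |B.Y (B.Gt^[n] w)| ≤ B.lam ^ n * |B.Y w| := by
  induction n with
  | zero => simp
  | succ n ih =>
    rw [iterate_succ_apply', pow_succ', mul_assoc]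
    exact (B.Y_Gt_abs _).trans (mul_le_mul_of_nonneg_left ih B.lam_pos.le)

theorem Y_lt_iff {w w' : ℂ} (h : B.X w = B.X w') :
    B.Y (B.Gt w) < B.Y (B.Gt w') ↔ B.Y w < B.Y w' := by
  refine ⟨fun h1 => ?_, B.mono w w' h⟩
  rcases lt_trichotomy (B.Y w) (B.Y w') with h2 | h2 | h2
  · exact h2
  · rw [B.ext_XY h h2] at h1
    exact absurd h1 (lt_irrefl _)
  · exact absurd (B.mono w' w h.symm h2) (not_lt.2 h1.le)

theorem Y_symm_le_iff {w w' : ℂ} (h : B.X w = B.X w') :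
    B.Y (B.Gt.symm w) ≤ B.Y (B.Gt.symm w') ↔ B.Y w ≤ B.Y w' := by
  have h1 : B.X (B.Gt.symm w') = B.X (B.Gt.symm w) := by rw [B.X_symm, B.X_symm, h]
  have h2 := B.Y_lt_iff h1
  rw [B.Gt.apply_symm_apply, B.Gt.apply_symm_apply] at h2
  rw [← not_lt, ← not_lt, h2]

private theorem boxb_base (w : ℂ) : B.Y (B.Gt (B.pt (B.X w) 0)) = 0 := by
  have h := B.Y_Gt_abs (B.pt (B.X w) 0)
  rw [B.Y_pt, abs_zero, mul_zero] at h
  exact abs_nonpos_iff.1 h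

private theorem boxb_pos (w : ℂ) : 0 < B.Y (B.Gt w) ↔ 0 < B.Y w := by
  have h := B.Y_lt_iff (w := B.pt (B.X w) 0) (w' := w) (B.X_pt _ _)
  rwa [boxb_base, B.Y_pt] at h

private theorem boxb_neg (w : ℂ) : B.Y (B.Gt w) < 0 ↔ B.Y w < 0 := by
  have h := B.Y_lt_iff (w := w) (w' := B.pt (B.X w) 0) (B.X_pt _ _).symm
  rwa [boxb_base, B.Y_pt] at h

private theorem boxb_zero (w : ℂ) : B.Y (B.Gt w) = 0 ↔ B.Y w = 0 := by
  have h1 := boxb_pos B w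
  have h2 := boxb_neg B w
  constructor
  · intro h
    rw [h] at h1 h2
    exact le_antisymm (not_lt.1 fun h3 => lt_irrefl _ (h1.2 h3))
      (not_lt.1 fun h3 => lt_irrefl _ (h2.2 h3))
  · intro h
    rw [h] at h1 h2
    exact le_antisymm (not_lt.1 fun h3 => lt_irrefl _ (h1.1 h3))
      (not_lt.1 fun h3 => lt_irrefl _ (h2.1 h3))

private theorem boxb_iter_symm (n : ℕ) (w : ℂ) : B.Gt^[n] (B.Gt.symm^[n] w) = w :=
  (LeftInverse.iterate B.Gt.apply_symm_apply n) w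

private theorem boxb_symm_iter (n : ℕ) (w : ℂ) : B.Gt.symm^[n] (B.Gt^[n] w) = w :=
  (LeftInverse.iterate B.Gt.symm_apply_apply n) w

theorem Y_iter_pos (n : ℕ) (w : ℂ) : 0 < B.Y (B.Gt^[n] w) ↔ 0 < B.Y w := by
  induction n with
  | zero => rfl
  | succ n ih => rw [iterate_succ_apply', boxb_pos, ih]

theorem Y_iter_zero (n : ℕ) (w : ℂ) : B.Y (B.Gt^[n] w) = 0 ↔ B.Y w = 0 := by
  induction n with
  | zero => rfl
  | succ n ih => rw [iterate_succ_apply', boxb_zero, ih]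

theorem Y_symm_pos (n : ℕ) (w : ℂ) : 0 < B.Y (B.Gt.symm^[n] w) ↔ 0 < B.Y w := by
  rw [← B.Y_iter_pos n (B.Gt.symm^[n] w), boxb_iter_symm]

theorem Y_symm_zero (n : ℕ) (w : ℂ) : B.Y (B.Gt.symm^[n] w) = 0 ↔ B.Y w = 0 := by
  rw [← B.Y_iter_zero n (B.Gt.symm^[n] w), boxb_iter_symm]

theorem Gt_pt (x : ℝ) : B.Gt (B.pt x 0) = B.pt (B.φ x) 0 := by
  apply B.ext_XY
  · rw [B.X_Gt, B.X_pt, B.X_pt]
  · rw [B.Y_pt, boxb_zero, B.Y_pt]

theorem rect_compact (x1 x2 y1 y2 : ℝ) :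
    IsCompact {w | x1 ≤ B.X w ∧ B.X w ≤ x2 ∧ y1 ≤ B.Y w ∧ B.Y w ≤ y2} := by
  have h : IsCompact (B.Ψ ⁻¹' (Icc x1 x2 ×ˢ Icc y1 y2)) :=
    B.Ψ.isCompact_preimage.2 (isCompact_Icc.prod isCompact_Icc)
  convert h using 1
  ext w
  simp only [mem_ofPred_eq, mem_preimage, mem_prod, mem_Icc, X, Y, and_assoc]

theorem rect_conn {I J : Set ℝ} (hI : IsPreconnected I) (hJ : IsPreconnected J) :
    IsPreconnected {w | B.X w ∈ I ∧ B.Y w ∈ J} := by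
  have h : IsPreconnected (B.Ψ ⁻¹' (I ×ˢ J)) :=
    B.Ψ.isPreconnected_preimage.2 (hI.prod hJ)
  exact h

theorem S_compact : IsCompact B.S := by
  convert B.rect_compact (-1) 1 (-1) 1 using 1
  ext w
  simp only [S, mem_ofPred_eq, abs_le, and_assoc]

theorem S_sub : B.S ⊆ ball 0 1 := fun w hw => mem_ball_zero_iff.2 (B.sub w hw.1 hw.2)

private theorem boxb_disc {w : ℂ} (hw : w ∈ B.S) : w ∈ Disc :=
  ball_subset_closedBall (B.S_sub hw)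

private theorem boxb_lev {x : ℝ} {n i : ℕ} (hx : |x| ≤ 1) (h : |B.φ^[n] x| ≤ 1) (hi : i ≤ n) :
    |B.φ^[i] x| ≤ 1 := by
  rw [abs_le] at hx h ⊢
  rcases le_total x (B.φ x) with h1 | h1
  · have hm := B.φ.monotone.monotone_iterate_of_le_map h1
    exact ⟨hx.1.trans (hm (Nat.zero_le i)), (hm hi).trans h.2⟩
  · have hm := B.φ.monotone.antitone_iterate_of_map_le h1
    exact ⟨h.1.trans (hm hi), (hm (Nat.zero_le i)).trans hx.2⟩

theorem iter_ag {w : ℂ} {n : ℕ} (hw : w ∈ B.S) (h : |B.X (B.Gt^[n] w)| ≤ 1) :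
    ∀ i ≤ n, F.f^[B.M * i] w = B.Gt^[i] w ∧ B.Gt^[i] w ∈ B.S := by
  have hS : ∀ i ≤ n, B.Gt^[i] w ∈ B.S := by
    intro i hi
    rw [B.X_iter] at h
    refine ⟨by rw [B.X_iter]; exact boxb_lev B hw.1 h hi, (B.Y_iter_abs i w).trans ?_⟩
    exact mul_le_one₀ (pow_le_one₀ B.lam_pos.le B.lam_lt.le) (abs_nonneg _) hw.2
  intro i hi
  refine ⟨?_, hS i hi⟩
  induction i with
  | zero => rfl
  | succ i ih =>
    have h1 := hS i (by omega)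
    have h2 := hS (i + 1) hi
    rw [iterate_succ_apply'] at h2
    rw [mul_add, mul_one, add_comm, iterate_add_apply, ih (by omega), iterate_succ_apply']
    exact B.ag _ h1.1 h1.2 h2.1

theorem back_ag {w : ℂ} {n : ℕ} (hw : w ∈ B.S) (h : B.Gt.symm^[n] w ∈ B.S) :
    ∀ i ≤ n, F.g^[B.M * i] w = B.Gt.symm^[i] w ∧ B.Gt.symm^[i] w ∈ B.S := by
  intro i hi
  have h1 : B.Gt.symm^[i] w ∈ B.S := by
    have h2 := (B.iter_ag (n := n) h (by rw [boxb_iter_symm]; exact hw.1) (n - i) (by omega)).2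
    have h3 : B.Gt.symm^[n] w = B.Gt.symm^[n - i] (B.Gt.symm^[i] w) := by
      rw [← iterate_add_apply, Nat.sub_add_cancel hi]
    rwa [h3, boxb_iter_symm] at h2
  refine ⟨?_, h1⟩
  have h4 := (B.iter_ag (n := i) h1 (by rw [boxb_iter_symm]; exact hw.1) i le_rfl).1
  rw [boxb_iter_symm] at h4
  have h5 := F.iter_g_f (boxb_disc B h1) (B.M * i)
  rwa [h4] at h5

theorem theta {η : ℝ} (hη : 0 < η) : ∃ θ > 0, ∀ w, |B.X w| ≤ 1 → |B.Y w| ≤ θ →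
    |B.Y (B.Gt.symm w)| ≤ η := by
  have hc : Continuous fun p : ℝ × ℝ => B.Y (B.Gt.symm (B.pt p.1 p.2)) :=
    B.cY.comp (B.Gt.symm.continuous.comp B.c_pt)
  have hK : IsCompact (Icc (-1 : ℝ) 1 ×ˢ Icc (-1 : ℝ) 1) := isCompact_Icc.prod isCompact_Icc
  obtain ⟨δ, hδ, h⟩ := Metric.uniformContinuousOn_iff.1
    (hK.uniformContinuousOn_of_continuous hc.continuousOn) η hη
  refine ⟨min (δ / 2) 1, lt_min (half_pos hδ) one_pos, fun w hX hY => ?_⟩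
  have hY1 : |B.Y w| ≤ 1 := hY.trans (min_le_right _ _)
  have hY2 : |B.Y w| < δ := (hY.trans (min_le_left _ _)).trans_lt (half_lt_self hδ)
  have h1 := h (B.X w, B.Y w) ⟨abs_le.1 hX, abs_le.1 hY1⟩ (B.X w, 0)
    ⟨abs_le.1 hX, by norm_num, by norm_num⟩ (by
      rw [Prod.dist_eq, dist_self, Real.dist_eq, sub_zero]
      exact max_lt hδ hY2)
  have h2 : B.Y (B.Gt.symm (B.pt (B.X w) 0)) = 0 :=
    (B.Y_symm_zero 1 _).2 (B.Y_pt _ _)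
  simp only [B.pt_XY, h2, Real.dist_eq, sub_zero] at h1
  exact h1.le

theorem dist_base : ∃ C > 0, ∀ w, ‖w - B.pt (B.X w) 0‖ ≤ C * |B.Y w| := by
  refine ⟨‖(B.A.symm : ℝ × ℝ →L[ℝ] ℂ)‖ + 1, by positivity, fun w => ?_⟩
  have h1 := (B.A.symm : ℝ × ℝ →L[ℝ] ℂ).le_opNorm (B.A (w - B.pt (B.X w) 0))
  have h2 : ‖B.A (w - B.pt (B.X w) 0)‖ ≤ |B.Y w| := B.base w
  rw [ContinuousLinearEquiv.coe_coe, B.A.symm_apply_apply] at h1
  refine h1.trans ?_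
  exact mul_le_mul (by linarith) h2 (norm_nonneg _) (by positivity)

theorem back_zero {w : ℂ} (h : ∀ k : ℕ, |B.Y (B.Gt.symm^[k] w)| ≤ 1) : B.Y w = 0 := by
  have h1 : ∀ k : ℕ, |B.Y w| ≤ B.lam ^ k := by
    intro k
    have h2 := B.Y_iter_abs k (B.Gt.symm^[k] w)
    rw [boxb_iter_symm] at h2
    exact h2.trans (mul_le_of_le_one_right (pow_nonneg B.lam_pos.le k) (h k))
  exact abs_nonpos_iff.1
    (ge_of_tendsto' (tendsto_pow_atTop_nhds_zero_of_lt_one B.lam_pos.le B.lam_lt) h1)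

private theorem boxb_back {w : ℂ} (hw : w ∈ F.Λ)
    (h : ∀ k : ℕ, F.f^[B.M] (F.g^[B.M * k] w) = B.Gt (F.g^[B.M * k] w)) (k : ℕ) :
    F.g^[B.M * k] w = B.Gt.symm^[k] w := by
  induction k with
  | zero => rfl
  | succ k ih =>
    have h1 := h (k + 1)
    have h2 : F.f^[B.M] (F.g^[B.M * (k + 1)] w) = F.g^[B.M * k] w := by
      rw [mul_add, mul_one, add_comm, iterate_add_apply]
      exact F.iter_f_g (F.iter_g_mem_Λ hw _) _
    rw [iterate_succ_apply', ← ih, ← h2, h1, B.Gt.symm_apply_apply]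

theorem back_near {p : ℂ} (hp : B.Gt p = p) (hX : |B.X p| < 1) : ∃ ε > 0, ∀ w ∈ F.Λ,
    (∀ k : ℕ, dist (F.g^[B.M * k] w) p < ε) → B.Y w = 0 := by
  have hY : B.Y p = 0 := by
    have h1 := B.Y_Gt_abs p
    rw [hp] at h1
    have h2 := B.lam_lt
    have h3 := abs_nonneg (B.Y p)
    exact abs_nonpos_iff.1 (by nlinarith)
  have hU : IsOpen {w | |B.X w| < 1 ∧ |B.Y w| < 1 ∧ |B.X (B.Gt w)| < 1} :=
    (isOpen_lt B.cX.abs continuous_const).inter ((isOpen_lt B.cY.abs continuous_const).inter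
      (isOpen_lt (B.cX.comp B.Gt.continuous).abs continuous_const))
  obtain ⟨ε, hε, h⟩ := Metric.isOpen_iff.1 hU p ⟨hX, by rw [hY]; norm_num, by rwa [hp]⟩
  refine ⟨ε, hε, fun w hw hk => B.back_zero fun k => ?_⟩
  have h1 := boxb_back B hw fun k => by
    have h2 := h (hk k)
    exact B.ag _ h2.1.le h2.2.1.le h2.2.2.le
  rw [← h1]
  exact (h (hk k)).2.1.le

theorem Full.fwd {B : Box F} (hB : B.Full) {z : ℂ} (h : ∀ k : ℕ, F.f^[B.M * k] z ∈ B.S) (k : ℕ) :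
    F.f^[B.M * k] z = B.Gt^[k] z := by
  induction k with
  | zero => rfl
  | succ k ih =>
    rw [mul_add, mul_one, add_comm, iterate_add_apply, hB _ (h k), ih, iterate_succ_apply']

theorem Full.back {B : Box F} (hB : B.Full) {w : ℂ} (hw : w ∈ F.Λ)
    (h : ∀ k : ℕ, F.g^[B.M * k] w ∈ B.S) :
    B.Y w = 0 ∧ ∀ k : ℕ, F.g^[B.M * k] w = B.Gt.symm^[k] w := by
  have h1 := boxb_back B hw fun k => hB _ (h k)
  refine ⟨B.back_zero fun k => ?_, h1⟩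
  rw [← h1]
  exact (h k).2

end Box

end Pool.Agent.Lib.MP_3fe454_an.S2
end

-- part Pool.Agent.Lib.MP_3fe454_an.S2.Top1
section

/-!
Hereditary unicoherence of the attractor and the cycle lemma for continua.
-/

set_option autoImplicit false

open Set Metric Filter Topology Function

namespace Pool.Agent.Lib.MP_3fe454_an.S2

open PD

variable (F : Dis)

theorem log_exists {K : Set ℂ} (hK : IsCompact K) (hΛ : K ⊆ F.Λ) (h : ℂ → ℂ)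
    (hc : ContinuousOn h K) (h0 : ∀ z ∈ K, h z ≠ 0) :
    ∃ l : ℂ → ℂ, ContinuousOn l K ∧ ∀ z ∈ K, Complex.exp (l z) = h z := by
  rcases K.eq_empty_or_nonempty with rfl | hne
  · exact ⟨fun _ => 0, continuousOn_empty _, fun z hz => absurd hz (notMem_empty z)⟩
  obtain ⟨z0, hz0, hmin⟩ := hK.exists_isMinOn hne hc.norm
  have hm : 0 < ‖h z0‖ := norm_pos_iff.2 (h0 z0 hz0)
  obtain ⟨g, hg⟩ := ContinuousMap.exists_restrict_eq hK.isClosed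
    (⟨fun z : K => h z, hc.domRestrict⟩ : C(K, ℂ))
  have hg' : ∀ z ∈ K, g z = h z := fun z hz => congrArg (fun u : C(K, ℂ) => u ⟨z, hz⟩) hg
  obtain ⟨P, hP, hPg, -⟩ := g.continuous.exists_contDiff_approx 1 (ε := fun _ => ‖h z0‖ / 3)
    continuous_const (fun _ => by positivity)
  have hnull : MeasureTheory.volume (P '' F.Λ) = 0 :=
    MeasureTheory.addHaar_image_eq_zero_of_differentiableOn_of_addHaar_eq_zero _
      (hP.differentiable (by simp)).differentiableOn (Λ_null F)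
  obtain ⟨c, hc1, hc2⟩ : ∃ c ∈ ball (0 : ℂ) (‖h z0‖ / 3), c ∉ P '' F.Λ := by
    by_contra hn
    push Not at hn
    exact (measure_ball_pos MeasureTheory.volume (0 : ℂ) (by positivity : 0 < ‖h z0‖ / 3)).ne'
      (MeasureTheory.measure_mono_null hn hnull)
  obtain ⟨n, hn⟩ := exists_subset_nhds_of_isCompact' (V := F.Ω) F.Ω_anti.directed_ge F.Ω_compact
    (fun n => (F.Ω_compact n).isClosed) (U := {z | P z ≠ c}) fun x hx =>
      (isOpen_ne_fun hP.continuous continuous_const).mem_nhds fun e => hc2 ⟨x, hx, e⟩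
  obtain ⟨l, hl, hle⟩ := exists_log (h := fun w => P (F.f^[n] w) - c)
    ((hP.continuous.comp (F.cf.iterate n)).sub continuous_const).continuousOn
    fun w hw => sub_ne_zero.2 (hn ⟨w, hw, rfl⟩)
  have hp : ∀ z ∈ K, F.g^[n] z ∈ Disc ∧ F.f^[n] (F.g^[n] z) = z := fun z hz =>
    F.Ω_pull (mem_iInter.1 (hΛ hz) n)
  have hsl : ∀ z ∈ K, (P z - c) / h z ∈ Complex.slitPlane := by
    intro z hz
    have e : (P z - c) / h z = 1 + (P z - h z - c) / h z := by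
      have := h0 z hz
      field_simp
      ring
    rw [e]
    apply Complex.mem_slitPlane_of_norm_lt_one
    rw [norm_div, div_lt_one (norm_pos_iff.2 (h0 z hz))]
    have h1 := hPg z
    rw [dist_eq_norm, hg' z hz] at h1
    have h2 : ‖h z0‖ ≤ ‖h z‖ := hmin hz
    have h3 := mem_ball_zero_iff.1 hc1
    linarith [norm_sub_le (P z - h z) c]
  refine ⟨fun z => l (F.g^[n] z) - Complex.log ((P z - c) / h z), ?_, fun z hz => ?_⟩
  · refine (hl.comp (F.cg.iterate n).continuousOn fun z hz => (hp z hz).1).sub ?_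
    exact ((hP.continuous.continuousOn.sub continuousOn_const).div hc h0).clog hsl
  · have h1 := Complex.slitPlane_ne_zero (hsl z hz)
    have h2 : P z - c ≠ 0 := fun e => h1 (by rw [e, zero_div])
    have h3 := h0 z hz
    rw [Complex.exp_sub, hle _ (hp z hz).1, (hp z hz).2, Complex.exp_log h1]
    field_simp

theorem unic {A B : Set ℂ} (hA : IsCompact A) (hA' : IsPreconnected A) (hAΛ : A ⊆ F.Λ)
    (hB : IsCompact B) (hB' : IsPreconnected B) (hBΛ : B ⊆ F.Λ) : IsPreconnected (A ∩ B) := by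
  classical
  rw [isPreconnected_iff_subset_of_fully_disjoint_closed (hA.isClosed.inter hB.isClosed)]
  intro u v hu hv hs hd
  by_contra hn
  rw [not_or, not_subset, not_subset] at hn
  obtain ⟨⟨x1, hx1, h1⟩, x0, hx0, h0⟩ := hn
  obtain ⟨φ, e0, e1, -⟩ := exists_continuous_zero_one_of_isClosed hu hv hd
  have k0 : φ x0 = 0 := e0 ((hs hx0).resolve_right h0)
  have k1 : φ x1 = 1 := e1 ((hs hx1).resolve_left h1)
  have hφ : Continuous fun z => (φ z : ℂ) * (Real.pi * Complex.I) :=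
    (Complex.continuous_ofReal.comp φ.continuous).mul continuous_const
  set h : ℂ → ℂ := fun z => if z ∈ A then Complex.exp (φ z * (Real.pi * Complex.I))
    else Complex.exp (-(φ z * (Real.pi * Complex.I))) with hh
  have hA1 : ∀ z ∈ A, h z = Complex.exp (φ z * (Real.pi * Complex.I)) := fun z hz => if_pos hz
  have hB1 : ∀ z ∈ B, h z = Complex.exp (-(φ z * (Real.pi * Complex.I))) := by
    intro z hz
    by_cases hz' : z ∈ A
    · rw [hA1 z hz']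
      rcases hs ⟨hz', hz⟩ with k | k
      · rw [show φ z = 0 from e0 k]
        simp
      · rw [show φ z = 1 from e1 k]
        simp [Complex.exp_neg]
    · exact if_neg hz'
  obtain ⟨l, hl, hle⟩ := log_exists F (hA.union hB) (union_subset hAΛ hBΛ) h
    (((Complex.continuous_exp.comp hφ).continuousOn.congr hA1).union_of_isClosed
      ((Complex.continuous_exp.comp hφ.neg).continuousOn.congr hB1) hA.isClosed hB.isClosed)
    (by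
      rintro z (hz | hz)
      · rw [hA1 z hz]; exact Complex.exp_ne_zero _
      · rw [hB1 z hz]; exact Complex.exp_ne_zero _)
  have a1 := sl_const (u := fun z => l z - φ z * (Real.pi * Complex.I)) hA'
    ((hl.mono subset_union_left).sub hφ.continuousOn) (fun w hw => by
      rw [Complex.exp_sub, hle w (Or.inl hw), hA1 w hw, div_self (Complex.exp_ne_zero _)])
    hx0.1 hx1.1
  have a2 := sl_const (u := fun z => l z + φ z * (Real.pi * Complex.I)) hB'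
    ((hl.mono subset_union_right).add hφ.continuousOn) (fun w hw => by
      rw [Complex.exp_add, hle w (Or.inr hw), hB1 w hw, ← Complex.exp_add, neg_add_cancel,
        Complex.exp_zero])
    hx0.2 hx1.2
  simp only [k0, k1, Complex.ofReal_zero, Complex.ofReal_one, zero_mul, one_mul] at a1 a2
  exact Complex.two_pi_I_ne_zero (by linear_combination a1 - a2)

theorem arc_sub {K : Set ℂ} (hK : IsCompact K) (hK' : IsPreconnected K) (hKΛ : K ⊆ F.Λ)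
    {e : ℝ → ℂ} {a b : ℝ} (hc : ContinuousOn e (Icc a b)) (hi : InjOn e (Icc a b))
    (hΛ : MapsTo e (Icc a b) F.Λ) (ha : e a ∈ K) (hb : e b ∈ K) : MapsTo e (Icc a b) K := by
  intro t ht
  have hab : a ≤ b := ht.1.trans ht.2
  have s1 : Icc a t ⊆ Icc a b := Icc_subset_Icc_right ht.2
  have s2 : Icc t b ⊆ Icc a b := Icc_subset_Icc_left ht.1
  have h := unic F hK hK' hKΛ (isCompact_Icc.image_of_continuousOn hc)
    (isPreconnected_Icc.image e hc) hΛ.image_subset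
  obtain ⟨x, hx, ⟨s, hs, e1⟩, s', hs', e2⟩ := isPreconnected_closed_iff.1 h (e '' Icc a t)
    (e '' Icc t b) (isCompact_Icc.image_of_continuousOn (hc.mono s1)).isClosed
    (isCompact_Icc.image_of_continuousOn (hc.mono s2)).isClosed
    (by
      rintro _ ⟨-, s, hs, rfl⟩
      rcases le_total s t with k | k
      · exact Or.inl ⟨s, ⟨hs.1, k⟩, rfl⟩
      · exact Or.inr ⟨s, ⟨k, hs.2⟩, rfl⟩)
    ⟨e a, ⟨ha, a, left_mem_Icc.2 hab, rfl⟩, a, left_mem_Icc.2 ht.1, rfl⟩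
    ⟨e b, ⟨hb, b, right_mem_Icc.2 hab, rfl⟩, b, right_mem_Icc.2 ht.2, rfl⟩
  have e3 : s = s' := hi (s1 hs) (s2 hs') (e1.trans e2.symm)
  have e4 : s = t := le_antisymm hs.2 (e3 ▸ hs'.1)
  rw [← e4, e1]
  exact hx.1

theorem cyc_false {k : ℕ} (hk : 0 < k) (E : ℕ → Set ℂ) (c : ℕ → ℂ) (hE : ∀ i, E (i + k) = E i)
    (h1 : ∀ i, IsCompact (E i)) (h2 : ∀ i, IsPreconnected (E i)) (h3 : ∀ i, E i ⊆ F.Λ)
    (h4 : ∀ i, c i ∈ E i ∧ c (i + 1) ∈ E i ∧ c i ≠ c (i + 1))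
    (h5 : ∀ i, E i ∩ E (i + 1) = {c (i + 1)}) : False := by
  have key : ∀ m : ℕ, ∃ A : Set ℂ, IsCompact A ∧ IsPreconnected A ∧ A ⊆ F.Λ ∧ E 0 ⊆ A ∧
      A ∩ E (m + 1) = {c (m + 1)} := by
    intro m
    induction m with
    | zero => exact ⟨E 0, h1 0, h2 0, h3 0, Subset.rfl, h5 0⟩
    | succ m ih =>
      obtain ⟨A, a1, a2, a3, a4, a5⟩ := ih
      have b0 : c (m + 1) ∈ A ∩ E (m + 1) := a5 ▸ mem_singleton _
      have b1 := a1.union (h1 (m + 1))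
      have b2 := IsPreconnected.union _ b0.1 b0.2 a2 (h2 (m + 1))
      have b3 := union_subset a3 (h3 (m + 1))
      refine ⟨A ∪ E (m + 1), b1, b2, b3, a4.trans subset_union_left, ?_⟩
      have b4 : c (m + 1 + 1) ∈ (A ∪ E (m + 1)) ∩ E (m + 1 + 1) :=
        ⟨Or.inr (h4 (m + 1)).2.1, (h4 (m + 1 + 1)).1⟩
      have b5 : c (m + 1 + 1) ∉ A := fun k => by
        have : c (m + 1 + 1) ∈ A ∩ E (m + 1) := ⟨k, (h4 (m + 1)).2.1⟩
        rw [a5] at this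
        exact (h4 (m + 1)).2.2 (mem_singleton_iff.1 this).symm
      have b6 := unic F b1 b2 b3 (h1 (m + 1 + 1)) (h2 _) (h3 _)
      rw [isPreconnected_iff_subset_of_fully_disjoint_closed
        (b1.isClosed.inter (h1 _).isClosed)] at b6
      rcases b6 A {c (m + 1 + 1)} a1.isClosed isClosed_singleton (by
        rintro x ⟨hx | hx, hx'⟩
        · exact Or.inl hx
        · exact Or.inr (h5 (m + 1) ▸ (⟨hx, hx'⟩ : x ∈ E (m + 1) ∩ E (m + 1 + 1))))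
        (disjoint_singleton_right.2 b5) with k | k
      · exact absurd (k b4) b5
      · exact Subset.antisymm k (singleton_subset_iff.2 b4)
  obtain ⟨m, rfl⟩ : ∃ m, k = m + 1 := ⟨k - 1, by omega⟩
  obtain ⟨A, -, -, -, a4, a5⟩ := key m
  have e : E (m + 1) = E 0 := by simpa using hE 0
  rw [e, inter_eq_right.2 a4] at a5
  have k0 := (h4 0).1
  have k1 := (h4 0).2.1
  rw [a5, mem_singleton_iff] at k0 k1
  exact (h4 0).2.2 (k0.trans k1.symm)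

end Pool.Agent.Lib.MP_3fe454_an.S2
end

-- part Pool.Agent.Lib.MP_3fe454_an.S2.Defs2
section

/-!
Further definitions: exits, chains of passes, arcs.
-/

set_option autoImplicit false

open Set Metric Filter Topology Function

namespace Pool.Agent.Lib.MP_3fe454_an.S2

open PD

variable {F : Dis}

/-- exits from all exit sets at all residues after the time t -/
def Atlas.ExF (At : Atlas F) {ι : Type} (U : Ultrafilter ι) (o : ι → ℤ → ℂ) (t : ι → ℤ) : Prop :=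
  ∀ q (j : ℤ), ∀ᶠ i in U, ∃ t', t i ≤ t' ∧ (At.M q : ℤ) ∣ t' - j ∧ o i t' ∉ At.Sc q

/-- exits from all exit sets at all residues before the time t -/
def Atlas.ExB (At : Atlas F) {ι : Type} (U : Ultrafilter ι) (o : ι → ℤ → ℂ) (t : ι → ℤ) : Prop :=
  ∀ q (j : ℤ), ∀ᶠ i in U, ∃ t', t' ≤ t i ∧ (At.M q : ℤ) ∣ t' - j ∧ o i t' ∉ At.Sc q

/-- the label of a pass -/
def Pass.lab {At : Atlas F} {ι : Type} {U : Ultrafilter ι} {o : ι → ℤ → ℂ} {L : ℕ}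
    (P : Pass At U o L) : periodicPts F.f × Bool × Bool := (P.q, P.sh, P.sv)

/-- maximal forward chain of passes -/
def ChF {At : Atlas F} {ι : Type} {U : Ultrafilter ι} {o : ι → ℤ → ℂ} {L : ℕ}
    (β : ℤ → ι → ℤ) (P : ℕ → Pass At U o L) (k : ℕ∞) : Prop :=
  (∀ n : ℕ, (n : ℕ∞) < k → (P n).Nx (P (n + 1))) ∧ (∀ n : ℕ, (n : ℕ∞) ≤ k → (P n).InR β) ∧
    ∀ n : ℕ, k = n → ¬ At.TF (P n).z

/-- maximal backward chain of passes -/
def ChB {At : Atlas F} {ι : Type} {U : Ultrafilter ι} {o : ι → ℤ → ℂ} {L : ℕ}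
    (β : ℤ → ι → ℤ) (P : ℕ → Pass At U o L) (k : ℕ∞) : Prop :=
  (∀ n : ℕ, (n : ℕ∞) < k → (P (n + 1)).Nx (P n)) ∧ (∀ n : ℕ, (n : ℕ∞) ≤ k → (P n).InR β) ∧
    ∀ n : ℕ, k = n → ¬ At.TB (P n).y

/-- link whose time is a multiple of the power of the target -/
def Quad.LkD (Q Q' : Quad F) : Prop := ∃ n, Q'.M ∣ n ∧ Q.Link Q' n

/-- minimal admissible set -/
def Atlas.MinAdm (At : Atlas F) (S Y : Set ℂ) : Prop :=
  IsCompact Y ∧ Y ⊆ F.Λ ∧ At.Adm S Y (fun _ => ∅) ∧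
    ∀ Y', IsClosed Y' → Y' ⊆ Y → At.Adm S Y' (fun _ => ∅) → Y' = Y

/-- piece of the centre curve between two levels -/
def Box.Arc (B : Box F) (x ζ : ℝ) : Set ℂ := {w | B.Y w = 0 ∧ B.X w ∈ uIcc x ζ}

end Pool.Agent.Lib.MP_3fe454_an.S2
end
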