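import Pool.Agent.Lib.MP_3fe454_an.S2.Defs2

-- part Pool.Agent.Lib.MP_3fe454_an.S2.QuadB
section

/-!
Elementary facts on quadrants.
-/

set_option autoImplicit false

open Set Metric Filter Topology Function

namespace Pool.Agent.Lib.MP_3fe454_an.S2

open PD

namespace Quad

variable {F : Dis} (Q : Quad F)

theorem p_X : Q.X Q.p = 0 :=
  Q.X_pt 0 0

theorem p_Y : Q.Y Q.p = 0 :=
  Q.Y_pt 0 0

theorem Gt_p : Q.Gt Q.p = Q.p := by
  rw [p, Q.Gt_pt, Q.fix]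

theorem f_p : F.f^[Q.M] Q.p = Q.p := by
  rw [Q.ag Q.p (by rw [show (Q.Ψ Q.p).1 = 0 from Q.p_X]; simp)
    (by rw [show (Q.Ψ Q.p).2 = 0 from Q.p_Y]; simp)
    (by rw [Q.Gt_p, show (Q.Ψ Q.p).1 = 0 from Q.p_X]; simp), Q.Gt_p]

theorem f_p_iter (n : ℕ) : F.f^[Q.M * n] Q.p = Q.p := by
  rw [iterate_mul]
  exact iterate_fixed Q.f_p n

theorem p_per : Q.p ∈ periodicPts F.f :=
  ⟨Q.M, Q.M_pos, Q.f_p⟩

theorem p_Λ : Q.p ∈ F.Λ :=
  F.periodic_mem_Λ Q.p_per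

theorem chi_le_one {s : ℝ} : Q.χ s ≤ 1 ↔ s ≤ 0 := by
  rw [← Q.χ_zero, Q.χ_mono.le_iff_le]

theorem dep_chi (s : ℝ) : Q.dep (Q.χ s) = -s := by
  rw [dep, leftInverse_invFun Q.χ_mono.injective]

theorem quadb_surj {x : ℝ} (h0 : 0 < x) (h1 : x ≤ 1) : ∃ s, Q.χ s = x := by
  obtain ⟨s, hs⟩ := (Q.χ_lim.eventually (gt_mem_nhds h0)).exists
  exact intermediate_value_univ s 0 Q.χ_cont ⟨hs.le, Q.χ_zero ▸ h1⟩

theorem dep_spec {x : ℝ} (h0 : 0 < x) (h1 : x ≤ 1) : Q.χ (-Q.dep x) = x ∧ 0 ≤ Q.dep x := by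
  obtain ⟨s, rfl⟩ := Q.quadb_surj h0 h1
  rw [Q.dep_chi, neg_neg]
  exact ⟨rfl, neg_nonneg.2 (Q.chi_le_one.1 h1)⟩

theorem dep_cont : ContinuousOn Q.dep (Ioc 0 1) := by
  have h : IsEmbedding Q.χ :=
    Q.χ_mono.isEmbedding_of_ordConnected (isPreconnected_range Q.χ_cont).ordConnected
  have h2 : ContinuousOn (fun x => -Q.dep x) (Ioc 0 1) :=
    h.isInducing.continuousOn_iff.2 (continuousOn_id.congr fun x hx => (Q.dep_spec hx.1 hx.2).1)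
  exact h2.neg.congr fun x _ => (neg_neg _).symm

theorem le_dep_iff {x s : ℝ} (h0 : 0 < x) (h1 : x ≤ 1) : s ≤ Q.dep x ↔ x ≤ Q.χ (-s) := by
  rw [← neg_le_neg_iff, ← Q.χ_mono.le_iff_le, (Q.dep_spec h0 h1).1]

theorem phi_iter_chi {s : ℝ} {n : ℕ} (h : s + n ≤ 0) : Q.φ^[n] (Q.χ s) = Q.χ (s + n) := by
  induction n with
  | zero => simp
  | succ n ih =>
    push_cast at h ⊢
    rw [iterate_succ_apply', ih (by linarith), Q.χ_step _ (by linarith), add_assoc]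

theorem phi_iter_pos (n : ℕ) (x : ℝ) : 0 < Q.φ^[n] x ↔ 0 < x := by
  rw [← (Q.φ.strictMono.iterate n).lt_iff_lt (a := 0) (b := x), iterate_fixed Q.fix]

theorem phi_iter_zero (n : ℕ) (x : ℝ) : Q.φ^[n] x = 0 ↔ x = 0 := by
  rw [← (Q.φ.injective.iterate n).eq_iff (a := x) (b := 0), iterate_fixed Q.fix]

theorem quadb_symm (n : ℕ) : Q.φ.symm^[n] 1 = Q.χ (-n) := by
  have h := Q.phi_iter_chi (s := -n) (n := n) (by simp)
  rw [neg_add_cancel, Q.χ_zero] at h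
  rw [← h]
  exact LeftInverse.iterate Q.φ.symm_apply_apply n _

theorem phi_symm_lim : Tendsto (fun n : ℕ => Q.φ.symm^[n] 1) atTop (𝓝 0) := by
  simp only [Q.quadb_symm]
  exact Q.χ_lim.comp (tendsto_neg_atTop_atBot.comp tendsto_natCast_atTop_atTop)

theorem quadb_run {u : ℂ} (h0 : 0 < Q.X u) (h1 : Q.X u ≤ 1) {n : ℕ}
    (hn : (n : ℝ) ≤ Q.dep (Q.X u)) : Q.X (Q.Gt^[n] u) = Q.χ (n - Q.dep (Q.X u)) ∧
      |Q.X (Q.Gt^[n] u)| ≤ 1 := by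
  have e : Q.X (Q.Gt^[n] u) = Q.χ (n - Q.dep (Q.X u)) := by
    rw [Q.X_iter, sub_eq_neg_add, ← Q.phi_iter_chi (by linarith), (Q.dep_spec h0 h1).1]
  refine ⟨e, ?_⟩
  rw [e, abs_of_pos (Q.χ_pos _)]
  exact Q.chi_le_one.2 (by linarith)

theorem run {u : ℂ} (h0 : 0 < Q.X u) (h1 : Q.X u ≤ 1) (h2 : |Q.Y u| ≤ 1) {n : ℕ}
    (hn : (n : ℝ) ≤ Q.dep (Q.X u)) :
    F.f^[Q.M * n] u = Q.Gt^[n] u ∧ Q.X (F.f^[Q.M * n] u) = Q.χ (n - Q.dep (Q.X u)) ∧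
      |Q.Y (F.f^[Q.M * n] u)| ≤ Q.lam ^ n * |Q.Y u| ∧
      (0 < Q.Y u → 0 < Q.Y (F.f^[Q.M * n] u)) := by
  obtain ⟨e, k⟩ := Q.quadb_run h0 h1 hn
  rw [(Q.iter_ag ⟨(abs_of_pos h0).trans_le h1, h2⟩ k n le_rfl).1]
  exact ⟨rfl, e, Q.Y_iter_abs n u, (Q.Y_iter_pos n u).2⟩

theorem leave {u : ℂ} (h0 : 0 < Q.X u) (h1 : Q.X u ≤ 1) (h2 : |Q.Y u| ≤ 1) :
    ∃ n : ℕ, Q.χ (-1) ≤ Q.X (F.f^[Q.M * n] u) := by
  refine ⟨⌊Q.dep (Q.X u)⌋₊, ?_⟩
  rw [(Q.run h0 h1 h2 (Nat.floor_le (Q.dep_spec h0 h1).2)).2.1]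
  exact Q.χ_mono.monotone (by linarith [Nat.lt_floor_add_one (Q.dep (Q.X u))])

theorem dd_cont : Continuous Q.dd :=
  (continuous_infDist_pt _).comp Q.A.continuous

theorem dd_nonneg (w : ℂ) : 0 ≤ Q.dd w :=
  infDist_nonneg

theorem quadb_ne : (Q.A '' {u | Q.X u = 0}).Nonempty := ⟨_, Q.p, Q.p_X, rfl⟩

theorem quadb_dd (w : ℂ) {u : ℂ} (hu : Q.X u = 0) : Q.dd w ≤ ‖Q.A (w - u)‖ := by
  rw [map_sub, ← dist_eq_norm]
  exact infDist_le_dist_of_mem ⟨u, hu, rfl⟩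

theorem dd_zero_iff (w : ℂ) : Q.dd w = 0 ↔ Q.X w = 0 := by
  have h : IsClosed (Q.A '' {u | Q.X u = 0}) :=
    Q.A.toHomeomorph.isClosedMap _ (isClosed_eq Q.cX continuous_const)
  rw [dd, ← h.mem_iff_infDist_zero Q.quadb_ne, Q.A.injective.mem_set_image]
  rfl

theorem dd_Gt (w : ℂ) : Q.dd (Q.Gt w) ≤ Q.sig * Q.dd w := by
  have h : 0 < Q.sig := one_pos.trans_le Q.one_le_sig
  rw [← div_le_iff₀' h]
  refine (le_infDist Q.quadb_ne).2 ?_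
  rintro _ ⟨u, hu, rfl⟩
  rw [div_le_iff₀' h, dist_eq_norm, ← map_sub]
  exact (Q.quadb_dd _ (by rw [Q.X_Gt, hu, Q.fix])).trans (Q.lip w u)

theorem dd_le : ∃ C > 0, ∀ u b, 0 ≤ Q.X u → Q.X b ≤ 0 → Q.dd u ≤ C * ‖u - b‖ := by
  refine ⟨‖(Q.A : ℂ →L[ℝ] ℝ × ℝ)‖ + 1, by positivity, fun u b hu hb => ?_⟩
  have hc : Continuous fun t : ℝ => Q.X (b + t • (u - b)) := Q.cX.comp (by fun_prop)
  obtain ⟨t, ht, e⟩ := intermediate_value_Icc zero_le_one hc.continuousOn (a := 0) (b := 1)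
    (show 0 ∈ Icc _ _ from ⟨by simpa using hb, by simpa using hu⟩)
  refine (Q.quadb_dd u e).trans (((Q.A : ℂ →L[ℝ] ℝ × ℝ).le_opNorm _).trans ?_)
  rw [show u - (b + t • (u - b)) = (1 - t) • (u - b) by module, norm_smul,
    Real.norm_of_nonneg (sub_nonneg.2 ht.2)]
  exact mul_le_mul (le_add_of_nonneg_right zero_le_one)
    (mul_le_of_le_one_left (norm_nonneg _) (sub_le_self _ ht.1))
    (mul_nonneg (sub_nonneg.2 ht.2) (norm_nonneg _)) (by positivity)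

theorem dd_small {x : ℝ} (hx : 0 < x) : ∃ d > 0, ∀ w ∈ Q.S, Q.dd w ≤ d → |Q.X w| < x := by
  obtain ⟨a, ha, h⟩ := (Q.S_compact.inter_right (isClosed_le (continuous_const (y := x))
    Q.cX.abs)).exists_forall_le' Q.dd_cont.continuousOn (a := 0) fun w hw =>
      (Q.dd_nonneg w).lt_of_ne' fun e => by
        have h1 : x ≤ |Q.X w| := hw.2
        rw [(Q.dd_zero_iff w).1 e, abs_zero] at h1
        exact h1.not_gt hx
  refine ⟨a / 2, by positivity, fun w hw k => not_le.1 fun e => ?_⟩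
  linarith [h w ⟨hw, e⟩]

theorem X_small {d : ℝ} (hd : 0 < d) : ∃ x > 0, ∀ w ∈ Q.S, |Q.X w| ≤ x → Q.dd w ≤ d := by
  obtain ⟨a, ha, h⟩ := (Q.S_compact.inter_right (isClosed_le (continuous_const (y := d))
    Q.dd_cont)).exists_forall_le' Q.cX.abs.continuousOn (a := 0) fun w hw =>
      abs_pos.2 fun e => by
        have h1 : d ≤ Q.dd w := hw.2
        rw [(Q.dd_zero_iff w).2 e] at h1
        exact h1.not_gt hd
  refine ⟨a / 2, by positivity, fun w hw k => le_of_not_ge fun e => ?_⟩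
  linarith [h w ⟨hw, e⟩]

theorem quadb_iter (n : ℕ) (w : ℂ) : Q.dd (Q.Gt^[n] w) ≤ Q.sig ^ n * Q.dd w := by
  induction n with
  | zero => simp
  | succ n ih =>
    rw [iterate_succ_apply', pow_succ', mul_assoc]
    exact (Q.dd_Gt _).trans (mul_le_mul_of_nonneg_left ih (zero_le_one.trans Q.one_le_sig))

theorem dd_low : ∃ d1 > 0, ∀ u, 0 < Q.X u → Q.X u ≤ 1 → |Q.Y u| ≤ 1 →
    d1 ≤ Q.sig ^ ⌊Q.dep (Q.X u)⌋₊ * Q.dd u := by
  obtain ⟨d, hd, h⟩ := Q.dd_small (Q.χ_pos (-1))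
  refine ⟨d, hd, fun u h0 h1 h2 => le_trans (le_of_not_ge fun k => ?_) (Q.quadb_iter _ u)⟩
  obtain ⟨e, k1⟩ := Q.quadb_run h0 h1 (Nat.floor_le (Q.dep_spec h0 h1).2)
  have k2 := h _ (Q.iter_ag ⟨(abs_of_pos h0).trans_le h1, h2⟩ k1 _ le_rfl).2 k
  rw [e, abs_of_pos (Q.χ_pos _), Q.χ_mono.lt_iff_lt] at k2
  linarith [Nat.lt_floor_add_one (Q.dep (Q.X u))]

theorem Sig_compact (y : ℝ) : IsCompact (Q.Sig y) := by
  convert Q.rect_compact 0 0 0 y using 1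
  ext w
  exact ⟨fun h => ⟨h.1.ge, h.1.le, h.2⟩, fun h => ⟨le_antisymm h.2.1 h.1, h.2.2⟩⟩

theorem Sig_conn (y : ℝ) : IsPreconnected (Q.Sig y) :=
  Q.rect_conn (I := {0}) (J := Icc 0 y) isPreconnected_singleton isPreconnected_Icc

theorem Sig_mono {y y' : ℝ} (h : y ≤ y') : Q.Sig y ⊆ Q.Sig y' :=
  fun _ k => ⟨k.1, k.2.1, k.2.2.trans h⟩

theorem p_mem_Sig {y : ℝ} (h : 0 ≤ y) : Q.p ∈ Q.Sig y :=
  ⟨Q.p_X, Q.p_Y.ge, Q.p_Y.le.trans h⟩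

theorem Sig_sub {y : ℝ} (h : y ≤ 1) : Q.Sig y ⊆ Q.S := fun w k =>
  ⟨by rw [k.1]; simp, (abs_of_nonneg k.2.1).trans_le (k.2.2.trans h)⟩

theorem axis_fwd {w : ℂ} (h0 : Q.X w = 0) (h1 : |Q.Y w| ≤ 1) (n : ℕ) :
    F.f^[Q.M * n] w = Q.Gt^[n] w ∧ Q.X (F.f^[Q.M * n] w) = 0 ∧
      |Q.Y (F.f^[Q.M * n] w)| ≤ Q.lam ^ n * |Q.Y w| ∧
      (0 < Q.Y w → 0 < Q.Y (F.f^[Q.M * n] w)) := by
  have e : Q.X (Q.Gt^[n] w) = 0 := by rw [Q.X_iter, Q.phi_iter_zero, h0]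
  rw [(Q.iter_ag (n := n) ⟨by rw [h0]; simp, h1⟩ (by rw [e]; simp) n le_rfl).1]
  exact ⟨rfl, e, Q.Y_iter_abs n w, (Q.Y_iter_pos n w).2⟩

theorem Sig_fwd {w : ℂ} {y : ℝ} (h : w ∈ Q.Sig y) (hy : y ≤ 1) (n : ℕ) :
    F.f^[Q.M * n] w ∈ Q.Sig (Q.lam ^ n * y) := by
  obtain ⟨e, h1, h2, h3⟩ := Q.axis_fwd h.1 (Q.Sig_sub hy h).2 n
  refine ⟨h1, ?_, (le_abs_self _).trans (h2.trans (mul_le_mul_of_nonneg_left
    ((abs_of_nonneg h.2.1).trans_le h.2.2) (pow_nonneg Q.lam_pos.le n)))⟩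
  rcases h.2.1.eq_or_lt with k | k
  · rw [e, (Q.Y_iter_zero n w).2 k.symm]
  · exact (h3 k).le

theorem axis_tend {w : ℂ} (h0 : Q.X w = 0) (h1 : |Q.Y w| ≤ 1) :
    Tendsto (fun n : ℕ => F.f^[Q.M * n] w) atTop (𝓝 Q.p) := by
  have h2 : Tendsto (fun n : ℕ => Q.Y (F.f^[Q.M * n] w)) atTop (𝓝 0) := by
    refine squeeze_zero_norm (fun n => (Q.axis_fwd h0 h1 n).2.2.1) ?_
    simpa using (tendsto_pow_atTop_nhds_zero_of_lt_one Q.lam_pos.le Q.lam_lt).mul_const |Q.Y w|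
  refine ((Q.c_pt.tendsto (0, 0)).comp (tendsto_const_nhds.prodMk_nhds h2)).congr fun n => ?_
  have e := Q.pt_XY (F.f^[Q.M * n] w)
  rwa [(Q.axis_fwd h0 h1 n).2.1] at e

theorem axis_per {w : ℂ} (h0 : Q.X w = 0) (h1 : |Q.Y w| ≤ 1) (h : w ∈ periodicPts F.f) :
    w = Q.p := by
  obtain ⟨k, hk, e⟩ := h
  have h2 := (Q.axis_tend h0 h1).comp (tendsto_id.const_mul_atTop' hk)
  refine tendsto_nhds_unique (tendsto_const_nhds.congr fun n => ?_) h2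
  exact (((e.mul_const n).const_mul Q.M).eq).symm

theorem Sig_tiny {O : Set ℂ} (hO : O ∈ 𝓝 Q.p) : ∃ y > 0, y ≤ 1 / 2 ∧ Q.Sig y ⊆ O := by
  have h : Continuous fun y : ℝ => Q.pt 0 y := Q.c_pt.comp (Continuous.prodMk_right 0)
  obtain ⟨ε, hε, k⟩ := Metric.mem_nhds_iff.1 (h.continuousAt (x := 0) hO)
  refine ⟨min (ε / 2) (1 / 2), by positivity, min_le_right _ _, fun w hw => ?_⟩
  have e := Q.pt_XY w
  rw [hw.1] at e
  rw [← e]
  refine k (mem_ball_zero_iff.2 ?_)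
  rw [Real.norm_of_nonneg hw.2.1]
  linarith [hw.2.2, min_le_left (ε / 2) (1 / 2)]

theorem T_open (d : ℝ) : IsOpen (Q.T d) :=
  (isOpen_lt continuous_const Q.cX).inter ((isOpen_lt Q.cX continuous_const).inter
    ((isOpen_lt continuous_const Q.cY).inter (isOpen_lt Q.cY continuous_const)))

theorem R_open (h : ℝ) : IsOpen (Q.R h) :=
  (isOpen_lt continuous_const Q.cX).inter ((isOpen_lt Q.cX continuous_const).inter
    ((isOpen_lt continuous_const Q.cY).inter (isOpen_lt Q.cY continuous_const)))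

theorem T_mono {d d' : ℝ} (h : d ≤ d') : Q.T d ⊆ Q.T d' :=
  fun _ k => ⟨k.1, k.2.1.trans_le h, k.2.2⟩

theorem R_mono {d d' : ℝ} (h : d ≤ d') : Q.R d ⊆ Q.R d' :=
  fun _ k => ⟨k.1, k.2.1, k.2.2.1, k.2.2.2.trans_le h⟩

theorem T_conn (d : ℝ) : IsPreconnected (Q.T d) := by
  convert Q.rect_conn (I := Ioo 0 d) (J := Ioo 0 (1 / 2)) isPreconnected_Ioo isPreconnected_Ioo
    using 1
  ext w
  exact and_assoc.symm

theorem R_conn (d : ℝ) : IsPreconnected (Q.R d) := by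
  convert Q.rect_conn (I := Ioo 0 1) (J := Ioo 0 d) isPreconnected_Ioo isPreconnected_Ioo
    using 1
  ext w
  exact and_assoc.symm

theorem T_sub {d : ℝ} (h : d ≤ 1) : Q.T d ⊆ Q.S := fun _ k =>
  ⟨(abs_of_pos k.1).trans_le (k.2.1.le.trans h),
    (abs_of_pos k.2.2.1).trans_le (k.2.2.2.le.trans (by norm_num))⟩

theorem R_sub {d : ℝ} (h : d ≤ 1) : Q.R d ⊆ Q.S := fun _ k =>
  ⟨(abs_of_pos k.1).trans_le k.2.1.le, (abs_of_pos k.2.2.1).trans_le (k.2.2.2.le.trans h)⟩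

theorem quadb_back (n : ℕ) {η : ℝ} (hη : 0 < η) : ∃ h > 0, ∀ w, 0 ≤ Q.X w → Q.X w ≤ 1 →
    |Q.Y w| ≤ h → |Q.Y (Q.Gt.symm^[n] w)| ≤ η := by
  induction n with
  | zero => exact ⟨η, hη, fun w _ _ k => k⟩
  | succ n ih =>
    obtain ⟨h, h0, k⟩ := ih
    obtain ⟨θ, h1, k1⟩ := Q.theta h0
    refine ⟨θ, h1, fun w a b c => ?_⟩
    rw [iterate_succ_apply]
    refine k _ ?_ ?_ (k1 w ((abs_of_nonneg a).trans_le b) c)
    · rwa [Q.X_symm, Q.φ.le_symm_apply, Q.fix]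
    · rw [Q.X_symm, Q.φ.symm_apply_le]
      exact b.trans (Q.gap 1 ⟨one_pos, le_rfl⟩).le

/-- points of a thin strip R come from the strip T -/
theorem R_back {d : ℝ} (hd : 0 < d) : ∃ h > 0, ∀ u ∈ Q.R h, ∃ n : ℕ,
    F.g^[Q.M * n] u ∈ Q.T d ∧ F.f^[Q.M * n] (F.g^[Q.M * n] u) = u := by
  obtain ⟨n, hn⟩ := (Q.phi_symm_lim.eventually (gt_mem_nhds hd)).exists
  obtain ⟨h, h0, k⟩ := Q.quadb_back n (η := 1 / 4) (by norm_num)
  refine ⟨min h 1, by positivity, fun u hu => ⟨n, ?_⟩⟩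
  have hS := Q.R_sub (min_le_right h 1) hu
  have e : Q.Gt^[n] (Q.Gt.symm^[n] u) = u := LeftInverse.iterate Q.Gt.apply_symm_apply n u
  have a1 : 0 < Q.X (Q.Gt.symm^[n] u) := by
    rw [← Q.phi_iter_pos n, ← Q.X_iter, e]
    exact hu.1
  have a2 : Q.X (Q.Gt.symm^[n] u) ≤ Q.φ.symm^[n] 1 := by
    rw [Q.X_symm_iter]
    exact Q.φ.symm.monotone.iterate n hu.2.1.le
  have a3 := k u hu.1.le hu.2.1.le
    ((abs_of_pos hu.2.2.1).trans_le (hu.2.2.2.le.trans (min_le_left _ _)))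
  have a4 : Q.Gt.symm^[n] u ∈ Q.S := by
    refine ⟨(abs_of_pos a1).trans_le (a2.trans ?_), a3.trans (by norm_num)⟩
    rw [Q.quadb_symm, Q.chi_le_one]
    simp
  rw [(Q.back_ag hS a4 n le_rfl).1, (Q.iter_ag a4 (by rw [e]; exact hS.1) n le_rfl).1]
  exact ⟨⟨a1, a2.trans_lt hn, (Q.Y_symm_pos n u).2 hu.2.2.1,
    (le_abs_self _).trans_lt (a3.trans_lt (by norm_num))⟩, e⟩

end Quad

end Pool.Agent.Lib.MP_3fe454_an.S2
end

-- part Pool.Agent.Lib.MP_3fe454_an.S2.Gam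
section

/-!
The unstable branch of a quadrant.
-/

set_option autoImplicit false

open Set Metric Filter Topology Function

namespace Pool.Agent.Lib.MP_3fe454_an.S2

open PD

namespace Quad

variable {F : Dis} (Q : Quad F)

theorem gam_S {x : ℝ} (h0 : 0 ≤ x) (h1 : x ≤ 1) : Q.pt x 0 ∈ Disc :=
  ball_subset_closedBall (Q.S_sub ⟨by rw [Q.X_pt, abs_of_nonneg h0]; exact h1, by
    rw [Q.Y_pt, abs_zero]; exact zero_le_one⟩)

theorem gam_step {t : ℝ} {n : ℕ} (h : t + n ≤ 0) :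
    F.f^[Q.M * n] (Q.pt (Q.χ t) 0) = Q.pt (Q.χ (t + n)) 0 := by
  have h0 : t ≤ 0 := by linarith [(Nat.cast_nonneg n : (0 : ℝ) ≤ n)]
  obtain ⟨-, h1, h2, -⟩ := Q.run (u := Q.pt (Q.χ t) 0) (n := n) (by rw [Q.X_pt]; exact Q.χ_pos t)
    (by rw [Q.X_pt]; exact Q.chi_le_one.2 h0) (by rw [Q.Y_pt, abs_zero]; exact zero_le_one)
    (by rw [Q.X_pt, Q.dep_chi]; linarith)
  rw [Q.Y_pt, abs_zero, mul_zero, abs_nonpos_iff] at h2
  rw [Q.X_pt, Q.dep_chi, sub_neg_eq_add, add_comm] at h1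
  exact Q.ext_XY (by rw [h1, Q.X_pt]) (by rw [h2, Q.Y_pt])

theorem gam_eq {s : ℝ} {N : ℕ} (h : s ≤ N) :
    Q.γ s = F.f^[Q.M * N] (Q.pt (Q.χ (s - N)) 0) := by
  obtain ⟨k, rfl⟩ := Nat.exists_eq_add_of_le (Nat.ceil_le.2 h)
  have h1 := Nat.le_ceil s
  rw [mul_add, iterate_add_apply, Q.gam_step (by push_cast; linarith), γ]
  congr 3
  push_cast
  ring

theorem γ_loc {s : ℝ} (h : s ≤ 0) : Q.γ s = Q.pt (Q.χ s) 0 := by
  rw [Q.gam_eq (N := 0) (by simpa using h)]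
  simp

theorem γ_iter (n : ℕ) (s : ℝ) : F.f^[Q.M * n] (Q.γ s) = Q.γ (s + n) := by
  have h := Nat.le_ceil s
  rw [Q.gam_eq (s := s + n) (N := n + ⌈s⌉₊) (by push_cast; linarith), mul_add, iterate_add_apply, γ]
  congr 4
  push_cast
  ring

theorem gam_Disc (s : ℝ) : Q.γ s ∈ Disc :=
  F.iter_mem_Disc (Q.gam_S (Q.χ_pos _).le (Q.chi_le_one.2 (sub_nonpos.2 (Nat.le_ceil s)))) _

theorem γ_Λ (s : ℝ) : Q.γ s ∈ F.Λ := by
  refine mem_iInter.2 fun n => ?_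
  obtain ⟨k, hk⟩ := Nat.exists_eq_add_of_le (Nat.le_mul_of_pos_left n Q.M_pos)
  refine ⟨F.f^[k] (Q.γ (s - n)), F.iter_mem_Disc (Q.gam_Disc _) k, ?_⟩
  rw [← iterate_add_apply, ← hk, Q.γ_iter, sub_add_cancel]

theorem γ_back (n : ℕ) (s : ℝ) : F.g^[Q.M * n] (Q.γ s) = Q.γ (s - n) := by
  conv_lhs => rw [← sub_add_cancel s n, ← Q.γ_iter]
  exact F.iter_g_f (Q.gam_Disc _) _

theorem gam_cpt : Continuous fun x : ℝ => Q.pt x 0 :=
  Q.c_pt.comp (continuous_id.prodMk continuous_const)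

theorem γ_cont : Continuous Q.γ := by
  refine continuous_iff_continuousAt.2 fun s => ?_
  obtain ⟨N, hN⟩ := exists_nat_gt s
  have h : Continuous fun t : ℝ => F.f^[Q.M * N] (Q.pt (Q.χ (t - N)) 0) :=
    (F.cf.iterate _).comp (Q.gam_cpt.comp (Q.χ_cont.comp (continuous_sub_right _)))
  refine h.continuousAt.congr ?_
  filter_upwards [Iio_mem_nhds hN] with t ht
  exact (Q.gam_eq (le_of_lt ht)).symm

theorem γ_inj : Injective Q.γ := by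
  intro s s' h
  obtain ⟨N, hN⟩ := exists_nat_ge (max s s')
  have h1 := congrArg (fun w => Q.X (F.g^[Q.M * N] w)) h
  simp only [Q.γ_back] at h1
  rw [Q.γ_loc (by linarith [le_max_left s s']), Q.γ_loc (by linarith [le_max_right s s']),
    Q.X_pt, Q.X_pt] at h1
  exact sub_left_injective (Q.χ_mono.injective h1)

theorem γ_lim : Tendsto Q.γ atBot (𝓝 Q.p) := by
  refine ((Q.gam_cpt.tendsto 0).comp Q.χ_lim).congr' ?_
  filter_upwards [eventually_le_atBot 0] with s hs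
  exact (Q.γ_loc hs).symm

theorem γ_not_per (s : ℝ) : Q.γ s ∉ periodicPts F.f := by
  rintro ⟨P, hP, h⟩
  have h1 : F.f^[Q.M * P] (Q.γ s) = Q.γ s := h.const_mul Q.M
  rw [Q.γ_iter] at h1
  have h2 := Q.γ_inj h1
  have h3 : (0 : ℝ) < P := by exact_mod_cast hP
  linarith

theorem loc_mem {z : ℂ} (h0 : 0 < Q.X z) (h1 : Q.X z ≤ 1) (h2 : Q.Y z = 0) :
    z = Q.γ (-Q.dep (Q.X z)) := by
  obtain ⟨h3, h4⟩ := Q.dep_spec h0 h1
  rw [Q.γ_loc (by linarith), h3, ← h2, Q.pt_XY]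

theorem gam_Gc {s : ℝ} (h : s ≤ 0) : Q.Gc s = {w | 0 ≤ Q.X w ∧ Q.X w ≤ Q.χ s ∧ Q.Y w = 0} := by
  ext w
  constructor
  · rintro (rfl | ⟨t, ht, rfl⟩)
    · exact ⟨Q.p_X.ge, Q.p_X.le.trans (Q.χ_pos s).le, Q.p_Y⟩
    · rw [Q.γ_loc (le_trans ht h), mem_ofPred_eq, Q.X_pt, Q.Y_pt]
      exact ⟨(Q.χ_pos t).le, Q.χ_mono.monotone ht, rfl⟩
  · rintro ⟨h0, h1, h2⟩
    rcases h0.eq_or_lt with h0 | h0
    · exact Or.inl (Q.ext_XY (h0.symm.trans Q.p_X.symm) (h2.trans Q.p_Y.symm))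
    · have h3 := h1.trans (Q.chi_le_one.2 h)
      refine Or.inr ⟨_, ?_, (Q.loc_mem h0 h3 h2).symm⟩
      exact neg_le.1 ((Q.le_dep_iff h0 h3).2 (by rwa [neg_neg]))

theorem gam_image (n : ℕ) (s : ℝ) : F.f^[Q.M * n] '' Q.Gc s = Q.Gc (s + n) := by
  rw [Gc, Gc, image_insert_eq, Q.f_p_iter, image_image]
  congr 1
  ext w
  simp only [Q.γ_iter, mem_image, mem_Iic]
  exact ⟨fun ⟨t, h1, h2⟩ => ⟨t + n, by linarith, h2⟩,
    fun ⟨t, h1, h2⟩ => ⟨t - n, by linarith, by rwa [sub_add_cancel]⟩⟩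

theorem Gc_compact (s : ℝ) : IsCompact (Q.Gc s) := by
  obtain ⟨n, hn⟩ := exists_nat_ge s
  rw [← sub_add_cancel s n, ← Q.gam_image, Q.gam_Gc (sub_nonpos.2 hn)]
  refine IsCompact.image ?_ (F.cf.iterate _)
  refine (congrArg IsCompact ?_).mp (Q.rect_compact 0 (Q.χ (s - n)) 0 0)
  ext w
  simp only [mem_ofPred_eq, le_antisymm_iff (a := Q.Y w), and_comm]

theorem Gc_conn (s : ℝ) : IsPreconnected (Q.Gc s) := by
  obtain ⟨n, hn⟩ := exists_nat_ge s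
  rw [← sub_add_cancel s n, ← Q.gam_image, Q.gam_Gc (sub_nonpos.2 hn)]
  refine IsPreconnected.image ?_ _ (F.cf.iterate _).continuousOn
  refine (congrArg IsPreconnected ?_).mp (Q.rect_conn (I := Icc 0 (Q.χ (s - n))) (J := {0})
    isPreconnected_Icc isPreconnected_singleton)
  ext w
  simp only [mem_ofPred_eq, mem_Icc, mem_singleton_iff, and_assoc]

theorem Gc_Λ (s : ℝ) : Q.Gc s ⊆ F.Λ := by
  rintro w (rfl | ⟨t, -, rfl⟩)
  exacts [Q.p_Λ, Q.γ_Λ t]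

theorem Gc_mono {s s' : ℝ} (h : s ≤ s') : Q.Gc s ⊆ Q.Gc s' :=
  insert_subset_insert (image_mono (Iic_subset_Iic.2 h))

theorem Gc_per {s : ℝ} {w : ℂ} (h : w ∈ Q.Gc s) (hw : w ∈ periodicPts F.f) : w = Q.p := by
  rcases h with rfl | ⟨t, -, rfl⟩
  exacts [rfl, absurd hw (Q.γ_not_per t)]

theorem Gc_zero : Q.Gc 0 = {w | 0 ≤ Q.X w ∧ Q.X w ≤ 1 ∧ Q.Y w = 0} := by
  rw [Q.gam_Gc le_rfl, Q.χ_zero]

theorem Gc_image (n : ℕ) (s : ℝ) : F.f^[Q.M * n] '' Q.Gc s = Q.Gc (s + n) :=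
  Q.gam_image n s

theorem Gc_tiny {O : Set ℂ} (hO : O ∈ 𝓝 Q.p) : ∃ s0, ∀ s ≤ s0, Q.Gc s ⊆ O := by
  obtain ⟨s0, h⟩ := eventually_atBot.1 (Q.γ_lim.eventually hO)
  refine ⟨s0, fun s hs => ?_⟩
  rintro w (rfl | ⟨t, ht, rfl⟩)
  exacts [mem_of_mem_nhds hO, h t (le_trans ht hs)]

theorem far_off (Q' : Quad F) (hM : Q.M = Q'.M) (s' : ℝ) :
    ∃ s0, ∀ s ≥ s0, Q.γ s ∉ Q'.Gc s' := by
  by_contra! h
  have hc : IsClosed (Q.γ '' Icc 0 1) := (isCompact_Icc.image Q.γ_cont).isClosed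
  have hp : Q'.p ∈ Q.γ '' Icc 0 1 := by
    rw [← hc.closure_eq, mem_closure_iff_nhds]
    intro O hO
    obtain ⟨s0, h0⟩ := Q'.Gc_tiny hO
    obtain ⟨s, h1, h2⟩ := h (max 0 (s' - s0 + 1))
    have h3 : 0 ≤ s := le_trans (le_max_left _ _) h1
    have h4 : s' - s0 + 1 ≤ s := le_trans (le_max_right _ _) h1
    have h5 := Nat.floor_le h3
    have h6 := Nat.lt_floor_add_one s
    rw [← sub_add_cancel s' ⌊s⌋₊, ← Q'.Gc_image] at h2
    obtain ⟨v, hv, h7⟩ := h2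
    have h8 : Q.γ (s - ⌊s⌋₊) = v := by
      rw [← Q.γ_back, ← h7, hM]
      exact F.iter_g_f (F.Λ_sub_Disc (Q'.Gc_Λ _ hv)) _
    exact ⟨v, h0 _ (by linarith) hv, _, ⟨by linarith, by linarith⟩, h8⟩
  obtain ⟨t, -, ht⟩ := hp
  exact Q.γ_not_per t (ht ▸ Q'.p_per)

theorem near_axes {η : ℝ} (hη : 0 < η) : ∃ x > 0, ∀ u, 0 < Q.X u → Q.X u ≤ x → 0 ≤ Q.Y u →
    Q.Y u ≤ 1 / 2 → ∀ i : ℕ, (i : ℝ) ≤ Q.dep (Q.X u) →
      infDist (F.f^[Q.M * i] u) (Q.Sig (1 / 2) ∪ Q.Gc 0) ≤ η := by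
  obtain ⟨C, hC, hb⟩ := Q.dist_base
  obtain ⟨i0, hi⟩ := exists_pow_lt_of_lt_one (div_pos hη hC) Q.lam_lt
  obtain ⟨δ, hδ, hu⟩ := Metric.uniformContinuousOn_iff.1
    (((isCompact_Icc (a := (0 : ℝ)) (b := 1)).prod
      (isCompact_Icc (a := (0 : ℝ)) (b := 1 / 2))).uniformContinuousOn_of_continuous
        Q.c_pt.continuousOn) η hη
  obtain ⟨s0, h0⟩ := eventually_atBot.1 (Q.χ_lim.eventually (Iio_mem_nhds hδ))
  have i0' : (0 : ℝ) ≤ i0 := Nat.cast_nonneg _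
  refine ⟨Q.χ (min s0 0 - i0), Q.χ_pos _, fun u h1 h2 h3 h4 i h5 => ?_⟩
  have h6 : Q.X u ≤ 1 := h2.trans (Q.chi_le_one.2 (by linarith [min_le_right s0 0]))
  have h7 : i0 - min s0 0 ≤ Q.dep (Q.X u) := (Q.le_dep_iff h1 h6).2 (by rwa [neg_sub])
  have h8 : |Q.Y u| ≤ 1 / 2 := by rwa [abs_of_nonneg h3]
  obtain ⟨-, a1, a2, a3⟩ := Q.run h1 h6 (h8.trans (by norm_num)) h5
  generalize F.f^[Q.M * i] u = w at a1 a2 a3
  have l0 := Q.lam_pos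
  have b1 : 0 < Q.X w := a1 ▸ Q.χ_pos _
  have b2 : Q.X w ≤ 1 := a1 ▸ Q.chi_le_one.2 (sub_nonpos.2 h5)
  rcases le_total i0 i with k | k
  · have m : Q.pt (Q.X w) 0 ∈ Q.Sig (1 / 2) ∪ Q.Gc 0 := Or.inr (by
      rw [Q.Gc_zero, mem_ofPred_eq, Q.X_pt, Q.Y_pt]
      exact ⟨b1.le, b2, rfl⟩)
    refine (infDist_le_dist_of_mem m).trans ?_
    rw [dist_eq_norm]
    refine (hb w).trans ((le_div_iff₀' hC).1 (a2.trans ?_))
    exact (mul_le_of_le_one_right (by positivity) (h8.trans (by norm_num))).trans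
      ((pow_le_pow_of_le_one l0.le Q.lam_lt.le k).trans hi.le)
  · have b3 : |Q.Y w| ≤ 1 / 2 := a2.trans ((mul_le_of_le_one_left (abs_nonneg _)
      (pow_le_one₀ l0.le Q.lam_lt.le)).trans h8)
    have b4 : 0 ≤ Q.Y w := by
      rcases h3.eq_or_lt with e | e
      · rw [← e, abs_zero, mul_zero, abs_nonpos_iff] at a2
        exact a2.ge
      · exact (a3 e).le
    have b5 := (abs_le.1 b3).2
    have m : Q.pt 0 (Q.Y w) ∈ Q.Sig (1 / 2) ∪ Q.Gc 0 :=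
      Or.inl ⟨Q.X_pt _ _, by rwa [Q.Y_pt], by rwa [Q.Y_pt]⟩
    refine (infDist_le_dist_of_mem m).trans ?_
    have k' : (i : ℝ) ≤ i0 := Nat.cast_le.2 k
    have b6 : Q.X w < δ := a1 ▸ h0 _ (by linarith [min_le_left s0 0])
    have b7 := hu (Q.X w, Q.Y w) ⟨⟨b1.le, b2⟩, b4, b5⟩ (0, Q.Y w)
      ⟨⟨le_rfl, zero_le_one⟩, b4, b5⟩ (by
        rw [Prod.dist_eq, dist_self, Real.dist_eq, sub_zero, abs_of_pos b1]
        exact max_lt b6 hδ)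
    simp only [Q.pt_XY] at b7
    exact b7.le

theorem gam_tΛ (A : Set ℝ) : closure (Q.γ '' A) ⊆ F.Λ :=
  closure_minimal (image_subset_iff.2 fun t _ => Q.γ_Λ t) F.Λ_compact.isClosed

theorem gam_tc (s : ℝ) : IsCompact (closure (Q.γ '' Ici s)) :=
  F.Λ_compact.of_isClosed_subset isClosed_closure (Q.gam_tΛ _)

theorem gam_tp (s : ℝ) : IsPreconnected (closure (Q.γ '' Ici s)) :=
  (isPreconnected_Ici.image _ Q.γ_cont.continuousOn).closure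

theorem gam_dir : Directed (· ⊇ ·) fun s : ℝ => closure (Q.γ '' Ici s) :=
  directed_of_isDirected_le fun _ _ h => closure_mono (image_mono (Ici_subset_Ici.2 h))

theorem om_compact : IsCompact Q.om :=
  (Q.gam_tc 0).of_isClosed_subset (isClosed_iInter fun _ => isClosed_closure) (iInter_subset _ 0)

theorem om_conn : IsPreconnected Q.om := by
  rw [isPreconnected_iff_subset_of_fully_disjoint_closed Q.om_compact.isClosed]
  intro u v hu hv h huv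
  obtain ⟨U, V, hU, hV, h1, h2, h3⟩ := normal_separation hu hv huv
  obtain ⟨s, hs⟩ := exists_subset_nhds_of_isCompact' Q.gam_dir Q.gam_tc (fun _ => isClosed_closure)
    (U := U ∪ V) fun x hx => (hU.union hV).mem_nhds (union_subset_union h1 h2 (h hx))
  refine ((Q.gam_tp s).subset_or_subset hU hV h3 hs).imp (fun k x hx => ?_) fun k x hx => ?_
  · exact (h hx).resolve_right fun a => disjoint_left.1 h3 (k (iInter_subset _ s hx)) (h2 a)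
  · exact (h hx).resolve_left fun a => disjoint_left.1 h3 (h1 a) (k (iInter_subset _ s hx))

theorem om_nonempty : Q.om.Nonempty :=
  IsCompact.nonempty_iInter_of_directed_nonempty_isCompact_isClosed _ Q.gam_dir
    (fun _ => (nonempty_Ici.image _).closure) Q.gam_tc fun _ => isClosed_closure

theorem om_Λ : Q.om ⊆ F.Λ :=
  (iInter_subset _ 0).trans (Q.gam_tΛ _)

theorem gam_f (s : ℝ) : F.f^[Q.M] (Q.γ s) = Q.γ (s + 1) := by
  simpa using Q.γ_iter 1 s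

theorem gam_g (s : ℝ) : F.g^[Q.M] (Q.γ s) = Q.γ (s - 1) := by
  simpa using Q.γ_back 1 s

theorem om_fwd : MapsTo F.f^[Q.M] Q.om Q.om := by
  intro w hw
  refine mem_iInter.2 fun s => MapsTo.closure ?_ (F.cf.iterate _) (mem_iInter.1 hw s)
  rintro _ ⟨t, ht, rfl⟩
  exact ⟨t + 1, mem_Ici.2 (by linarith [mem_Ici.1 ht]), (Q.gam_f t).symm⟩

theorem om_back : MapsTo F.g^[Q.M] Q.om Q.om := by
  intro w hw
  refine mem_iInter.2 fun s => MapsTo.closure ?_ (F.cg.iterate _) (mem_iInter.1 hw (s + 1))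
  rintro _ ⟨t, ht, rfl⟩
  exact ⟨t - 1, mem_Ici.2 (le_sub_iff_add_le.2 ht), (Q.gam_g t).symm⟩

theorem om_of_cluster {c : ℂ} {s : ℝ}
    (h : MapClusterPt c atTop fun k : ℕ => F.f^[Q.M * k] (Q.γ s)) : c ∈ Q.om := by
  refine mem_iInter.2 fun t => ClusterPt.mem_closure_of_mem h _ ?_
  obtain ⟨N, hN⟩ := exists_nat_ge (t - s)
  rw [mem_map]
  filter_upwards [eventually_ge_atTop N] with k hk
  have : (N : ℝ) ≤ k := Nat.cast_le.2 hk
  exact ⟨s + k, show t ≤ s + k by linarith, (Q.γ_iter k s).symm⟩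

theorem tail_closure (s : ℝ) : closure (Q.γ '' Ici s) = Q.γ '' Ici s ∪ Q.om := by
  refine Subset.antisymm (fun w hw => ?_) (union_subset subset_closure (iInter_subset _ s))
  refine or_iff_not_imp_right.2 fun h => ?_
  obtain ⟨t, ht⟩ := not_forall.1 (mt mem_iInter.2 h)
  have h1 : Q.γ '' Ici s ⊆ Q.γ '' Icc s t ∪ Q.γ '' Ici t := by
    rintro _ ⟨r, hr, rfl⟩
    exact (le_total r t).imp (fun k => ⟨r, ⟨hr, k⟩, rfl⟩) fun k => ⟨r, k, rfl⟩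
  have h2 := closure_mono h1 hw
  rw [closure_union, (isCompact_Icc.image Q.γ_cont).isClosed.closure_eq] at h2
  exact image_mono Icc_subset_Ici_self (h2.resolve_right ht)

theorem clos_eq : closure Q.Gam = insert Q.p (Q.Gam ∪ Q.om) := by
  refine Subset.antisymm (fun w hw => ?_) (insert_subset ?_ (union_subset subset_closure ?_))
  · have h1 : Q.Gam ⊆ Q.Gc 0 ∪ Q.γ '' Ici 0 := by
      rintro _ ⟨r, rfl⟩
      exact (le_total r 0).imp (fun k => Or.inr ⟨r, k, rfl⟩) fun k => ⟨r, k, rfl⟩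
    have h2 := closure_mono h1 hw
    rw [closure_union, (Q.Gc_compact 0).isClosed.closure_eq, Q.tail_closure] at h2
    rcases h2 with (h | ⟨r, -, h⟩) | ⟨r, -, h⟩ | h
    exacts [Or.inl h, Or.inr (Or.inl ⟨r, h⟩), Or.inr (Or.inl ⟨r, h⟩), Or.inr (Or.inr h)]
  · exact mem_closure_of_tendsto Q.γ_lim (Eventually.of_forall fun s => ⟨s, rfl⟩)
  · exact (iInter_subset _ 0).trans (closure_mono (image_subset_range _ _))

theorem clos_compact : IsCompact (closure Q.Gam) :=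
  F.Λ_compact.of_isClosed_subset isClosed_closure
    (closure_minimal (range_subset_iff.2 Q.γ_Λ) F.Λ_compact.isClosed)

theorem clos_conn : IsPreconnected (closure Q.Gam) :=
  (isPreconnected_range Q.γ_cont).closure

theorem clos_Λ : closure Q.Gam ⊆ F.Λ :=
  closure_minimal (range_subset_iff.2 Q.γ_Λ) F.Λ_compact.isClosed

theorem clos_fwd : MapsTo F.f^[Q.M] (closure Q.Gam) (closure Q.Gam) := by
  refine MapsTo.closure ?_ (F.cf.iterate _)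
  rintro _ ⟨t, rfl⟩
  exact ⟨t + 1, (Q.gam_f t).symm⟩

theorem clos_back : MapsTo F.g^[Q.M] (closure Q.Gam) (closure Q.Gam) := by
  refine MapsTo.closure ?_ (F.cg.iterate _)
  rintro _ ⟨t, rfl⟩
  exact ⟨t - 1, (Q.gam_g t).symm⟩

theorem Gam_sub {K : Set ℂ} (hK : IsCompact K) (hK' : IsPreconnected K) (hΛ : K ⊆ F.Λ)
    (hf : MapsTo F.f^[Q.M] K K) (hg : MapsTo F.g^[Q.M] K K) (h : (K ∩ Q.Gam).Nonempty) :
    Q.Gam ⊆ K := by
  obtain ⟨_, h0, s, rfl⟩ := h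
  rintro _ ⟨t, rfl⟩
  obtain ⟨n, hn⟩ := exists_nat_ge |t - s|
  obtain ⟨h1, h2⟩ := abs_le.1 hn
  refine arc_sub F hK hK' hΛ (a := s - n) (b := s + n) Q.γ_cont.continuousOn Q.γ_inj.injOn
    (fun r _ => Q.γ_Λ r) ?_ ?_ ⟨by linarith, by linarith⟩
  · rw [← Q.γ_back, iterate_mul]
    exact hg.iterate n h0
  · rw [← Q.γ_iter, iterate_mul]
    exact hf.iterate n h0

theorem SA_of_p (h : Q.p ∈ Q.om) : Q.SA := by
  refine ⟨Q.γ 0, ⟨0, rfl⟩, mem_iInter.2 fun s => ?_⟩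
  rcases le_total s 0 with k | k
  · exact subset_closure ⟨0, k, rfl⟩
  obtain ⟨N, hN⟩ := exists_nat_ge s
  have h1 : Q.χ (s - N) ≤ 1 := Q.chi_le_one.2 (sub_nonpos.2 hN)
  have h2 := arc_sub F (Q.gam_tc s) (Q.gam_tp s) (Q.gam_tΛ _)
    (e := fun x => F.f^[Q.M * N] (Q.pt x 0)) (a := 0) (b := Q.χ (s - N))
    ((F.cf.iterate _).comp Q.gam_cpt).continuousOn
    (fun x hx y hy e => by
      have := congrArg Q.X (inj_iter F _ (Q.gam_S hx.1 (hx.2.trans h1))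
        (Q.gam_S hy.1 (hy.2.trans h1)) e)
      rwa [Q.X_pt, Q.X_pt] at this)
    (fun x hx => F.iter_f_mem_Λ (Q.Gc_Λ 0 (by
      rw [Q.Gc_zero, mem_ofPred_eq, Q.X_pt, Q.Y_pt]
      exact ⟨hx.1, hx.2.trans h1, rfl⟩)) _)
    (by rw [show F.f^[Q.M * N] (Q.pt 0 0) = Q.p from Q.f_p_iter N]; exact mem_iInter.1 h s)
    (by rw [← Q.gam_eq hN]; exact subset_closure ⟨s, self_mem_Ici, rfl⟩)
  rw [Q.gam_eq (k.trans hN)]
  exact h2 ⟨(Q.χ_pos _).le, Q.χ_mono.monotone (sub_le_sub_right k _)⟩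

theorem SA.visit {Q : Quad F} (h : Q.SA) : ∃ s0 < 0, ∃ u : ℕ → ℂ, (∀ k, u k ∈ Q.Gam) ∧
    (∀ k, Q.Y (u k) ≠ 0) ∧ Tendsto u atTop (𝓝 (Q.γ s0)) := by
  obtain ⟨_, ⟨t, rfl⟩, ht⟩ := h
  obtain ⟨n, hn⟩ := exists_nat_gt t
  have h0 : t - n < 0 := sub_neg.2 hn
  have h1 : Q.γ (t - n) ∈ Q.om := by
    rw [← Q.γ_back, iterate_mul]
    exact Q.om_back.iterate n ht
  have h2 : Q.γ (t - n) ∈ Q.X ⁻¹' Ioo 0 1 := by
    rw [mem_preimage, Q.γ_loc h0.le, Q.X_pt, ← Q.χ_zero]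
    exact ⟨Q.χ_pos _, Q.χ_mono h0⟩
  obtain ⟨u, hu, hl⟩ := mem_closure_iff_seq_limit.1
    ((isOpen_Ioo.preimage Q.cX).inter_closure ⟨h2, mem_iInter.1 h1 1⟩)
  refine ⟨t - n, h0, u, fun k => image_subset_range _ _ (hu k).2, fun k e => ?_, hl⟩
  obtain ⟨⟨a1, a2⟩, r, hr, a3⟩ := hu k
  have a4 := Q.γ_inj (a3.trans (Q.loc_mem a1 a2.le e))
  have a5 := (Q.dep_spec a1 a2.le).2
  have a6 : 1 ≤ r := hr
  linarith

end Quad

end Pool.Agent.Lib.MP_3fe454_an.S2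
end

-- part Pool.Agent.Lib.MP_3fe454_an.S2.Att
section

/-!
Convergence of orbits which stay in a local structure; attraction lemma.
-/

set_option autoImplicit false

open Set Metric Filter Topology Function

namespace Pool.Agent.Lib.MP_3fe454_an.S2

open PD

variable {F : Dis}

theorem att_lev (φ : ℝ ≃o ℝ) {x : ℝ} (h : ∀ k : ℕ, |φ^[k] x| ≤ 1) :
    ∃ ξ, φ ξ = ξ ∧ |ξ| ≤ 1 ∧ Tendsto (fun k : ℕ => φ^[k] x) atTop (𝓝 ξ) := by
  obtain ⟨ξ, hξ⟩ : ∃ ξ, Tendsto (fun k : ℕ => φ^[k] x) atTop (𝓝 ξ) := by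
    rcases le_total x (φ x) with e | e
    · exact ⟨_, tendsto_atTop_ciSup (φ.monotone.monotone_iterate_of_le_map e)
        ⟨1, by rintro _ ⟨k, rfl⟩; exact (abs_le.1 (h k)).2⟩⟩
    · exact ⟨_, tendsto_atTop_ciInf (φ.monotone.antitone_iterate_of_map_le e)
        ⟨-1, by rintro _ ⟨k, rfl⟩; exact (abs_le.1 (h k)).1⟩⟩
  exact ⟨ξ, isFixedPt_of_tendsto_iterate hξ φ.continuous.continuousAt,
    le_of_tendsto' hξ.abs h, hξ⟩

theorem att_lev2 (φ : ℝ ≃o ℝ) {x ξ δ : ℝ} (hξ : φ ξ = ξ) (h1 : |ξ| ≤ 1)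
    (ht : Tendsto (fun k : ℕ => φ^[k] x) atTop (𝓝 ξ)) (hφ : φ x ≠ x) (hx : |x| < 1)
    (hδ : 0 < δ) :
    ∃ n0, ∀ᶠ y in 𝓝 x, (∀ n, |φ^[n] y| ≤ 1) ∧ ∀ n ≥ n0, |φ^[n] y - ξ| < δ := by
  obtain ⟨x1, x2⟩ := abs_lt.1 hx
  obtain ⟨y1, y2⟩ := abs_le.1 h1
  have hc := φ.continuous
  have hf : ∀ n, φ^[n] ξ = ξ := fun n => iterate_fixed hξ n
  rcases lt_or_gt_of_ne hφ with e | e
  · have a1 : ξ ≤ φ x :=
      (φ.monotone.antitone_iterate_of_map_le e.le).le_of_tendsto ht 1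
    obtain ⟨n0, hn0⟩ := (ht.eventually (gt_mem_nhds (show ξ < ξ + δ by linarith))).exists
    refine ⟨n0, ?_⟩
    filter_upwards [gt_mem_nhds x2, lt_mem_nhds (a1.trans_lt e),
      hc.continuousAt.eventually_lt continuousAt_id e,
      (hc.iterate n0).continuousAt.eventually_lt continuousAt_const hn0] with y b1 b2 b3 b4
    have m := φ.monotone.antitone_iterate_of_map_le b3.le
    have l : ∀ n, ξ ≤ φ^[n] y := fun n => hf n ▸ φ.monotone.iterate n b2.le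
    refine ⟨fun n => abs_le.2 ⟨y1.trans (l n), (m n.zero_le).trans b1.le⟩, fun n hn => ?_⟩
    have := l n
    have := m hn
    exact abs_lt.2 ⟨by linarith, by linarith⟩
  · have a1 : φ x ≤ ξ :=
      (φ.monotone.monotone_iterate_of_le_map e.le).ge_of_tendsto ht 1
    obtain ⟨n0, hn0⟩ := (ht.eventually (lt_mem_nhds (show ξ - δ < ξ by linarith))).exists
    refine ⟨n0, ?_⟩
    filter_upwards [lt_mem_nhds x1, gt_mem_nhds (e.trans_le a1),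
      continuousAt_id.eventually_lt hc.continuousAt e,
      continuousAt_const.eventually_lt (hc.iterate n0).continuousAt hn0] with y b1 b2 b3 b4
    have m := φ.monotone.monotone_iterate_of_le_map (x := y) b3.le
    have l : ∀ n, φ^[n] y ≤ ξ := fun n => hf n ▸ φ.monotone.iterate n b2.le
    refine ⟨fun n => abs_le.2 ⟨b1.le.trans (m n.zero_le), (l n).trans y2⟩, fun n hn => ?_⟩
    have := l n
    have := m hn
    exact abs_lt.2 ⟨by linarith, by linarith⟩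

theorem att_tend (B : Box F) {u : ℕ → ℂ} {ξ : ℝ}
    (hx : Tendsto (fun k => B.X (u k)) atTop (𝓝 ξ)) (hy : Tendsto (fun k => B.Y (u k)) atTop (𝓝 0)) :
    Tendsto u atTop (𝓝 (B.pt ξ 0)) :=
  ((B.c_pt.tendsto (ξ, 0)).comp (hx.prodMk_nhds hy)).congr fun k => B.pt_XY (u k)

theorem att_f {B : Box F} (hB : B.Full) {z : ℂ} (h : ∀ k : ℕ, F.f^[B.M * k] z ∈ B.S) :
    ∃ ξ, B.φ ξ = ξ ∧ |ξ| ≤ 1 ∧ Tendsto (fun k : ℕ => B.φ^[k] (B.X z)) atTop (𝓝 ξ) ∧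
      Tendsto (fun k : ℕ => F.f^[B.M * k] z) atTop (𝓝 (B.pt ξ 0)) := by
  have e : ∀ k, B.X (F.f^[B.M * k] z) = B.φ^[k] (B.X z) := fun k => by
    rw [hB.fwd h, B.X_iter]
  obtain ⟨ξ, h1, h2, h3⟩ := att_lev B.φ (x := B.X z) fun k => e k ▸ (h k).1
  refine ⟨ξ, h1, h2, h3, att_tend B (h3.congr fun k => (e k).symm) ?_⟩
  refine squeeze_zero_norm (a := fun k => B.lam ^ k * |B.Y z|) (fun k => ?_) ?_
  · rw [hB.fwd h]; exact B.Y_iter_abs k z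
  · simpa using (tendsto_pow_atTop_nhds_zero_of_lt_one B.lam_pos.le B.lam_lt).mul_const |B.Y z|

theorem Box.Full.conv_f {B : Box F} (hB : B.Full) {z : ℂ}
    (h : ∀ k : ℕ, F.f^[B.M * k] z ∈ B.S) : ∃ ξ, B.φ ξ = ξ ∧ |ξ| ≤ 1 ∧
      Tendsto (fun k : ℕ => F.f^[B.M * k] z) atTop (𝓝 (B.pt ξ 0)) :=
  (att_f hB h).imp fun _ h => ⟨h.1, h.2.1, h.2.2.2⟩

theorem Box.Full.conv_b {B : Box F} (hB : B.Full) {w : ℂ} (hw : w ∈ F.Λ)
    (h : ∀ k : ℕ, F.g^[B.M * k] w ∈ B.S) : ∃ ξ, B.φ ξ = ξ ∧ |ξ| ≤ 1 ∧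
      Tendsto (fun k : ℕ => F.g^[B.M * k] w) atTop (𝓝 (B.pt ξ 0)) := by
  obtain ⟨hY, hg⟩ := hB.back hw h
  have e : ∀ k, B.X (F.g^[B.M * k] w) = B.φ.symm^[k] (B.X w) := fun k => by
    rw [hg, B.X_symm_iter]
  obtain ⟨ξ, h1, h2, h3⟩ := att_lev B.φ.symm (x := B.X w) fun k => e k ▸ (h k).1
  refine ⟨ξ, (B.φ.symm_apply_eq.1 h1).symm, h2, att_tend B (h3.congr fun k => (e k).symm) ?_⟩
  refine tendsto_const_nhds.congr fun k => ?_
  rw [hg, (B.Y_symm_zero k w).2 hY]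

theorem Box.fix_pt (B : Box F) {ξ : ℝ} (h : B.φ ξ = ξ) (h1 : |ξ| ≤ 1) :
    F.f^[B.M] (B.pt ξ 0) = B.pt ξ 0 := by
  have e : B.Gt (B.pt ξ 0) = B.pt ξ 0 := by rw [B.Gt_pt, h]
  have a1 : |B.X (B.pt ξ 0)| ≤ 1 := by rwa [B.X_pt]
  have a2 : |B.Y (B.pt ξ 0)| ≤ 1 := by rw [B.Y_pt, abs_zero]; exact zero_le_one
  exact (B.ag _ a1 a2 (by rw [e]; exact a1)).trans e

theorem Box.Full.att {B : Box F} (hB : B.Full) {z : ℂ} (h : ∀ k : ℕ, F.f^[B.M * k] z ∈ B.S)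
    (hX : |B.X z| < 1) (hY : |B.Y z| < 1) (hφ : B.φ (B.X z) ≠ B.X z) :
    ∃ q, F.f^[B.M] q = q ∧ Tendsto (fun k : ℕ => F.f^[B.M * k] z) atTop (𝓝 q) ∧
      ∀ O ∈ 𝓝 q, ∃ n0, ∀ᶠ w in 𝓝 z, ∀ n ≥ n0, F.f^[B.M * n] w ∈ O := by
  obtain ⟨ξ, h1, h2, h3, h4⟩ := att_f hB h
  refine ⟨_, B.fix_pt h1 h2, h4, fun O hO => ?_⟩
  obtain ⟨δ, hδ, hO⟩ := Metric.mem_nhds_iff.1 (B.c_pt.tendsto (ξ, 0) hO)
  obtain ⟨n0, h5⟩ := att_lev2 B.φ h1 h2 h3 hφ hX hδ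
  obtain ⟨n1, h6⟩ := exists_pow_lt_of_lt_one hδ B.lam_lt
  refine ⟨max n0 n1, ?_⟩
  filter_upwards [B.cX.tendsto z h5,
    B.cY.abs.continuousAt.eventually_lt continuousAt_const hY] with w b1 b2 n hn
  have hw : w ∈ B.S := ⟨b1.1 0, b2.le⟩
  rw [(B.iter_ag hw (by rw [B.X_iter]; exact b1.1 n) n le_rfl).1, ← B.pt_XY (B.Gt^[n] w)]
  refine hO (show (B.X (B.Gt^[n] w), B.Y (B.Gt^[n] w)) ∈ ball (ξ, (0 : ℝ)) δ from ?_)
  rw [mem_ball, Prod.dist_eq, max_lt_iff, Real.dist_eq, Real.dist_eq, sub_zero, B.X_iter]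
  refine ⟨b1.2 n (le_of_max_le_left hn), (B.Y_iter_abs n w).trans_lt ?_⟩
  exact lt_of_le_of_lt ((mul_le_of_le_one_right (pow_nonneg B.lam_pos.le n) b2.le).trans
    (pow_le_pow_of_le_one B.lam_pos.le B.lam_lt.le (le_of_max_le_right hn))) h6

theorem Trap.stay (T : Trap F) {w : ℂ} (h : T.N (w - T.q) ≤ T.r) (k : ℕ) :
    T.N (F.f^[T.M * k] w - T.q) ≤ T.θ ^ k * T.N (w - T.q) := by
  induction k with
  | zero => simp
  | succ k ih =>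
    have a1 : T.N (F.f^[T.M * k] w - T.q) ≤ T.r :=
      ih.trans ((mul_le_of_le_one_left (apply_nonneg _ _)
        (pow_le_one₀ T.θ_pos.le T.θ_lt.le)).trans h)
    have a2 := T.contr _ T.q a1 (by rw [sub_self, map_zero]; exact T.r_pos.le)
    rw [T.fix, ← iterate_add_apply, add_comm, ← Nat.mul_succ] at a2
    rw [pow_succ', mul_assoc]
    exact a2.trans (mul_le_mul_of_nonneg_left ih T.θ_pos.le)

theorem Trap.back (T : Trap F) {w : ℂ} (hw : w ∈ F.Λ)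
    (h : ∀ k : ℕ, T.N (F.g^[T.M * k] w - T.q) ≤ T.r) : w = T.q := by
  have a1 : ∀ k : ℕ, T.N (w - T.q) ≤ T.θ ^ k * T.r := fun k => by
    have := T.stay (h k) k
    rw [F.iter_f_g hw] at this
    exact this.trans (mul_le_mul_of_nonneg_left (h k) (pow_nonneg T.θ_pos.le k))
  have a2 := ge_of_tendsto'
    ((tendsto_pow_atTop_nhds_zero_of_lt_one T.θ_pos.le T.θ_lt).mul_const T.r) a1
  have a3 := T.low (w - T.q)
  rw [zero_mul] at a2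
  exact sub_eq_zero.1 (norm_le_zero_iff.1 (nonpos_of_mul_nonpos_right (a3.trans a2) T.c_pos))

theorem Trap.cont (T : Trap F) : Continuous fun w : ℂ => T.N (w - T.q) := by
  refine (LipschitzWith.of_dist_le' (f := T.N) (K := T.C) fun a b => ?_).continuous.comp
    (continuous_id.sub continuous_const)
  rw [dist_eq_norm, dist_eq_norm]
  exact (T.N.norm_sub_map_le_sub a b).trans (T.up _)

theorem att_trap (T : Trap F) {w : ℂ} (h : T.N (w - T.q) ≤ T.r) :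
    Tendsto (fun k : ℕ => F.f^[T.M * k] w) atTop (𝓝 T.q) := by
  rw [tendsto_iff_norm_sub_tendsto_zero]
  refine squeeze_zero (g := fun k => T.θ ^ k * T.N (w - T.q) / T.c) (fun _ => norm_nonneg _)
    (fun k => ?_) ?_
  · rw [le_div_iff₀' T.c_pos]
    exact (T.low _).trans (T.stay h k)
  · simpa using ((tendsto_pow_atTop_nhds_zero_of_lt_one T.θ_pos.le T.θ_lt).mul_const
      (T.N (w - T.q))).div_const T.c

theorem att_shift {h : ℂ → ℂ} (hc : Continuous h) {z p : ℂ} {M c : ℕ} (hM : 0 < M)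
    (ht : Tendsto (fun k : ℕ => h^[M * k] (h^[c] z)) atTop (𝓝 p)) :
    ∃ r : ℕ, Tendsto (fun k : ℕ => h^[k * M] z) atTop (𝓝 (h^[r] p)) := by
  obtain ⟨r, hr⟩ := Nat.exists_eq_add_of_le (Nat.le_mul_of_pos_right c hM)
  refine ⟨r, (tendsto_add_atTop_iff_nat c).1 ((((hc.iterate r).tendsto p).comp ht).congr
    fun k => ?_)⟩
  show h^[r] (h^[M * k] (h^[c] z)) = h^[(k + c) * M] z
  rw [← iterate_add_apply, ← iterate_add_apply, add_mul, hr, mul_comm k M]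
  congr 1
  omega

theorem att_fixN {h : ℂ → ℂ} (hc : Continuous h) {z p : ℂ} {j N : ℕ}
    (ht : Tendsto (fun k : ℕ => h^[j + k * N] z) atTop (𝓝 p)) :
    h^[N] p = p ∧ Tendsto (fun k : ℕ => h^[k * N] (h^[j] z)) atTop (𝓝 p) := by
  have a1 : Tendsto (fun k : ℕ => h^[k * N] (h^[j] z)) atTop (𝓝 p) :=
    ht.congr fun k => by rw [← iterate_add_apply, add_comm]
  refine ⟨isFixedPt_of_tendsto_iterate (x := h^[j] z) (a1.congr fun k => ?_)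
    (hc.iterate N).continuousAt, a1⟩
  rw [mul_comm, iterate_mul]

namespace Atlas

variable (At : Atlas F)

theorem att_cases (q : periodicPts F.f) :
    (∃ T : Trap F, T.q = q ∧ At.M q = T.M ∧ At.Sc q = {w | T.N (w - T.q) ≤ T.r} ∧
      (At.L q).S = {w | T.N (w - T.q) ≤ T.r}) ∨
    ∃ B : Box F, B.Full ∧ |B.X q| ≤ 1 / 4 ∧ B.Y q = 0 ∧ B.Gt q = q ∧ At.M q = B.M ∧
      At.Sc q = {w | |B.X w - B.X q| ≤ 1 / 2 ∧ |B.Y w| ≤ 1 / 2} ∧ (At.L q).S = B.S := by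
  have h := At.ok q
  unfold Atlas.M Atlas.Sc
  generalize At.L q = l at h ⊢
  rcases l with T | B
  · exact Or.inl ⟨T, h, rfl, rfl, rfl⟩
  · exact Or.inr ⟨B, h.1, h.2.2.1, h.2.2.2.1, h.2.2.2.2, rfl, rfl, rfl⟩

theorem att_box {B : Box F} {q w : ℂ} (hq : |B.X q| ≤ 1 / 4)
    (h : |B.X w - B.X q| ≤ 1 / 2 ∧ |B.Y w| ≤ 1 / 2) : |B.X w| < 1 ∧ |B.Y w| < 1 := by
  obtain ⟨a1, a2⟩ := abs_le.1 hq
  obtain ⟨a3, a4⟩ := abs_le.1 h.1
  exact ⟨abs_lt.2 ⟨by linarith, by linarith⟩, by linarith [h.2]⟩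

theorem M_pos (q : periodicPts F.f) : 0 < At.M q := by
  rcases At.att_cases q with ⟨T, -, e, -⟩ | ⟨B, -, -, -, -, e, -⟩
  · exact e ▸ T.M_pos
  · exact e ▸ B.M_pos

theorem fix (q : periodicPts F.f) : F.f^[At.M q] q = q := by
  rcases At.att_cases q with ⟨T, h, e, -⟩ | ⟨B, h1, h2, h3, h4, e, -⟩
  · rw [e, ← h]; exact T.fix
  · rw [e, h1 q ⟨h2.trans (by norm_num), by rw [h3, abs_zero]; exact zero_le_one⟩, h4]

theorem Sc_closed (q : periodicPts F.f) : IsClosed (At.Sc q) := by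
  rcases At.att_cases q with ⟨T, -, -, e, -⟩ | ⟨B, -, -, -, -, -, e, -⟩
  · rw [e]; exact isClosed_le T.cont continuous_const
  · rw [e]
    exact (isClosed_le (B.cX.sub continuous_const).abs continuous_const).inter
      (isClosed_le B.cY.abs continuous_const)

theorem Sc_nhds (q : periodicPts F.f) : At.Sc q ∈ 𝓝 (q : ℂ) := by
  rcases At.att_cases q with ⟨T, h, -, e, -⟩ | ⟨B, -, -, h, -, -, e, -⟩
  · rw [e, ← h]
    exact (T.cont.continuousAt.eventually_lt continuousAt_const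
      (by rw [sub_self, map_zero]; exact T.r_pos)).mono fun w hw => hw.le
  · rw [e]
    filter_upwards [(B.cX.sub (continuous_const (y := B.X q))).abs.continuousAt.eventually_lt
      (continuousAt_const (y := (1 / 2 : ℝ))) (show |B.X q - B.X q| < 1 / 2 by simp),
      B.cY.abs.continuousAt.eventually_lt (continuousAt_const (y := (1 / 2 : ℝ)))
      (show |B.Y q| < 1 / 2 by simp [h])] with w a b using ⟨a.le, b.le⟩

theorem Sc_sub (q : periodicPts F.f) : At.Sc q ⊆ (At.L q).S := by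
  rcases At.att_cases q with ⟨T, -, -, e, e'⟩ | ⟨B, -, h, -, -, -, e, e'⟩
  · rw [e, e']
  · rw [e, e']
    exact fun w hw => ⟨(att_box h hw).1.le, (att_box h hw).2.le⟩

theorem att_loc_f (q : periodicPts F.f) {z : ℂ} (h : ∀ k : ℕ, F.f^[At.M q * k] z ∈ At.Sc q) :
    ∃ p, F.f^[At.M q] p = p ∧ Tendsto (fun k : ℕ => F.f^[At.M q * k] z) atTop (𝓝 p) := by
  have hs := At.Sc_sub q
  rcases At.att_cases q with ⟨T, -, e1, e2, -⟩ | ⟨B, hB, -, -, -, e1, -, e2⟩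
  · rw [e1, e2] at h
    rw [e1]
    exact ⟨T.q, T.fix, att_trap T (h 0)⟩
  · rw [e2] at hs
    rw [e1] at h ⊢
    obtain ⟨ξ, h1, h2, h3⟩ := hB.conv_f fun k => hs (h k)
    exact ⟨_, B.fix_pt h1 h2, h3⟩

theorem att_loc_b (q : periodicPts F.f) {z : ℂ} (hz : z ∈ F.Λ)
    (h : ∀ k : ℕ, F.g^[At.M q * k] z ∈ At.Sc q) :
    ∃ p, F.f^[At.M q] p = p ∧ Tendsto (fun k : ℕ => F.g^[At.M q * k] z) atTop (𝓝 p) := by
  have hs := At.Sc_sub q
  rcases At.att_cases q with ⟨T, -, e1, e2, -⟩ | ⟨B, hB, -, -, -, e1, -, e2⟩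
  · rw [e1, e2] at h
    rw [e1, T.back hz h]
    exact ⟨T.q, T.fix, tendsto_const_nhds.congr fun k => (g_fix F T.M_pos T.fix k).symm⟩
  · rw [e2] at hs
    rw [e1] at h ⊢
    obtain ⟨ξ, h1, h2, h3⟩ := hB.conv_b hz fun k => hs (h k)
    exact ⟨_, B.fix_pt h1 h2, h3⟩

theorem TF.conv {At : Atlas F} {z : ℂ} (hz : z ∈ F.Λ) (h : At.TF z) : ConvF F z := by
  obtain ⟨q, j, k0, h⟩ := h
  obtain ⟨p, h1, h2⟩ := At.att_loc_f q (z := F.f^[j + k0 * At.M q] z) fun k => by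
    rw [← iterate_add_apply, show At.M q * k + (j + k0 * At.M q) = j + (k + k0) * At.M q by ring]
    exact h _ (Nat.le_add_left _ _)
  obtain ⟨r, hr⟩ := att_shift F.cf (At.M_pos q) h2
  refine ⟨_, At.M_pos q, _, ?_, hr⟩
  rw [← iterate_add_apply, add_comm, iterate_add_apply, h1]

theorem TB.conv {At : Atlas F} {y : ℂ} (hy : y ∈ F.Λ) (h : At.TB y) : ConvB F y := by
  obtain ⟨q, j, k0, h⟩ := h
  obtain ⟨p, h1, h2⟩ := At.att_loc_b q (F.iter_g_mem_Λ hy (j + k0 * At.M q)) fun k => by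
    rw [← iterate_add_apply, show At.M q * k + (j + k0 * At.M q) = j + (k + k0) * At.M q by ring]
    exact h _ (Nat.le_add_left _ _)
  obtain ⟨r, hr⟩ := att_shift F.cg (At.M_pos q) h2
  refine ⟨_, At.M_pos q, _, ?_, hr⟩
  have a1 := g_fix F (At.M_pos q) h1 1
  rw [mul_one] at a1
  have a2 : F.g^[At.M q] (F.g^[r] p) = F.g^[r] p := by
    rw [← iterate_add_apply, add_comm, iterate_add_apply, a1]
  have a3 := F.iter_f_g (F.iter_g_mem_Λ (F.periodic_mem_Λ ⟨_, At.M_pos q, h1⟩) r) (At.M q)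
  rwa [a2] at a3

theorem TF_of {z : ℂ} {p : ℂ} (hp : p ∈ periodicPts F.f) {j N : ℕ} (hN : 0 < N)
    (h : Tendsto (fun k : ℕ => F.f^[j + k * N] z) atTop (𝓝 p)) : At.TF z := by
  obtain ⟨h1, h2⟩ := att_fixN F.cf h
  obtain ⟨k0, h3⟩ := eventually_atTop.1
    (conv_all_f F hN (At.M_pos ⟨p, hp⟩) h1 (At.fix ⟨p, hp⟩) h2 (At.Sc_nhds ⟨p, hp⟩))
  refine ⟨⟨p, hp⟩, j, k0, fun k hk => ?_⟩
  rw [add_comm, iterate_add_apply]
  exact h3 k hk

theorem TB_of {y : ℂ} {p : ℂ} (hp : p ∈ periodicPts F.f) {j N : ℕ} (hN : 0 < N)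
    (h : Tendsto (fun k : ℕ => F.g^[j + k * N] y) atTop (𝓝 p)) : At.TB y := by
  obtain ⟨h1, h2⟩ := att_fixN F.cg h
  have h0 := F.iter_f_g (F.periodic_mem_Λ hp) N
  rw [h1] at h0
  obtain ⟨k0, h3⟩ := eventually_atTop.1
    (conv_all_g F hN (At.M_pos ⟨p, hp⟩) h0 (At.fix ⟨p, hp⟩) h2 (At.Sc_nhds ⟨p, hp⟩))
  refine ⟨⟨p, hp⟩, j, k0, fun k hk => ?_⟩
  rw [add_comm, iterate_add_apply]
  exact h3 k hk

theorem per_fixed (q : periodicPts F.f) {w : ℂ} (hw : w ∈ periodicPts F.f)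
    (h : ∀ k : ℕ, F.f^[At.M q * k] w ∈ At.Sc q) : F.f^[At.M q] w = w := by
  obtain ⟨p, h1, h2⟩ := At.att_loc_f q h
  obtain ⟨P, hP, hw⟩ := hw
  have a1 := h2.comp (tendsto_atTop_mono (fun i => Nat.le_mul_of_pos_left i hP) tendsto_id)
  have a2 : w = p := tendsto_nhds_unique tendsto_const_nhds (a1.congr fun i =>
    ((hw.mul_const i).const_mul (At.M q)).eq)
  rw [a2, h1]

/-- a non periodic limit point with full orbit in an exit set cannot be followed by another non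
periodic limit point infinitely later -/
theorem no_full {ι : Type} {U : Ultrafilter ι} {o : ι → ℤ → ℂ} (ho : ∀ i, Orb F (o i))
    (q : periodicPts F.f) {t t' : ι → ℤ} {w w' : ℂ} (hw : Lim U o t w) (hw' : Lim U o t' w')
    (hn : w ∉ periodicPts F.f) (hn' : w' ∉ periodicPts F.f)
    (hf : ∀ k : ℕ, F.f^[At.M q * k] w ∈ At.Sc q) (hb : ∀ k : ℕ, F.g^[At.M q * k] w ∈ At.Sc q)
    (hl : ∀ n : ℕ, ∀ᶠ i in U, t i + n ≤ t' i) : False := by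
  have hs := At.Sc_sub q
  have hΛ := hw.mem ho
  rcases At.att_cases q with ⟨T, -, e1, e2, -⟩ | ⟨B, hB, hq, -, -, e1, e2, e3⟩
  · rw [e1, e2] at hb
    exact hn ⟨T.M, T.M_pos, by rw [T.back hΛ hb]; exact T.fix⟩
  rw [e3] at hs
  rw [e1] at hf hb
  have h0 := hf 0
  rw [e2] at h0
  obtain ⟨hX, hY⟩ : |B.X w| < 1 ∧ |B.Y w| < 1 := att_box hq h0
  by_cases hφ : B.φ (B.X w) = B.X w
  · have a1 := B.fix_pt hφ hX.le
    rw [← (hB.back hΛ fun k => hs (hb k)).1, B.pt_XY] at a1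
    exact hn ⟨B.M, B.M_pos, a1⟩
  obtain ⟨p, h1, -, h2⟩ := hB.att (fun k => hs (hf k)) hX hY hφ
  obtain ⟨r, -, hr⟩ := ult_res U (fun i => t' i - t i) B.M_pos
  have a1 : Lim U o (fun i => t' i - r) p := by
    intro O hO
    obtain ⟨n0, h3⟩ := h2 O hO
    show ∀ᶠ i in U, o i (t' i - r) ∈ O
    filter_upwards [hw h3, hr, hl (r + B.M * n0)] with i b1 b2 b3
    obtain ⟨c, hc⟩ := b2
    have hM : (0 : ℤ) < B.M := Int.natCast_pos.2 B.M_pos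
    push_cast at b3
    have b4 : (n0 : ℤ) ≤ c := le_of_mul_le_mul_left (by linarith) hM
    obtain ⟨n, rfl⟩ := Int.eq_ofNat_of_zero_le ((Int.natCast_nonneg n0).trans b4)
    rw [show t' i - r = t i + (B.M * n : ℕ) by push_cast; linarith, (ho i).add]
    exact b1 n (Int.ofNat_le.1 b4)
  have a2 := hw'.unique ((a1.add ho r).congr (Eventually.of_forall fun i => sub_add_cancel _ _))
  exact hn' (a2 ▸ (per_iter F ⟨B.M, B.M_pos, h1⟩ r).1)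

end Atlas

end Pool.Agent.Lib.MP_3fe454_an.S2
end

-- part Pool.Agent.Lib.MP_3fe454_an.S2.HS4
section

/-!
The pass structure of one quadrant.
-/

set_option autoImplicit false

open Set Metric Filter Topology Function

namespace Pool.Agent.Lib.MP_3fe454_an.S2

open PD

namespace Quad

variable {F : Dis} (Q : Quad F)

theorem hs4_small (K : ℝ) (m : ℕ) {d : ℝ} (hd : 0 < d) :
    ∃ N : ℕ, ∀ n ≥ N, K * Q.lam ^ n * Q.sig ^ (n + m) < d := by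
  have h0 : 0 ≤ Q.lam * Q.sig := mul_nonneg Q.lam_pos.le (zero_le_one.trans Q.one_le_sig)
  have h1 := (tendsto_pow_atTop_nhds_zero_of_lt_one h0 Q.mul_lt).const_mul (K * Q.sig ^ m)
  rw [mul_zero] at h1
  obtain ⟨N, hN⟩ := eventually_atTop.1 (h1.eventually (gt_mem_nhds hd))
  refine ⟨N, fun n hn => ?_⟩
  have h2 := hN n hn
  have e : K * Q.lam ^ n * Q.sig ^ (n + m) = K * Q.sig ^ m * (Q.lam * Q.sig) ^ n := by
    rw [mul_pow, pow_add]; ring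
  rw [e]; exact h2

theorem psd_self {W y1 y2 : ℝ} (hW : 0 ≤ W) (h1 : 0 < y1) (h2 : y2 < 1) :
    Q.PSD Q W y1 y2 (Q.χ (-W)) 0 fun w => Q.dep (Q.X w) := by
  have hx1 : Q.χ (-W) ≤ 1 := Q.chi_le_one.2 (by linarith)
  have hs0 : 0 < Q.sig := zero_lt_one.trans_le Q.one_le_sig
  have reg : ∀ v ∈ Q.Reg (Q.χ (-W)) y1 y2,
      0 < Q.X v ∧ Q.X v ≤ 1 ∧ 0 < Q.Y v ∧ |Q.Y v| ≤ 1 := by
    rintro v ⟨a, b, c, d⟩
    have e : 0 < Q.Y v := h1.trans_le c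
    exact ⟨a, b.trans hx1, e, by rw [abs_of_pos e]; linarith⟩
  have hgt : ∀ v ∈ Q.Reg (Q.χ (-W)) y1 y2, ∀ n : ℕ, (n : ℝ) ≤ Q.dep (Q.X v) →
      Q.X (F.f^[0 + Q.M * n] v) = Q.χ (n - Q.dep (Q.X v)) ∧ 0 < Q.Y (F.f^[0 + Q.M * n] v) ∧
        Q.Y (F.f^[0 + Q.M * n] v) ≤ Q.lam ^ n := by
    intro v hv n hn
    obtain ⟨a, b, c, d⟩ := reg v hv
    obtain ⟨-, r2, r3, r4⟩ := Q.run a b d hn
    rw [zero_add]
    refine ⟨r2, r4 c, (le_abs_self _).trans (r3.trans ?_)⟩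
    exact mul_le_of_le_one_right (pow_nonneg Q.lam_pos.le n) d
  obtain ⟨d1, hd1, low⟩ := Q.dd_low
  have low' : ∀ v ∈ Q.Reg (Q.χ (-W)) y1 y2, ∀ (k : ℕ), Q.dep (Q.X v) ≤ k →
      d1 ≤ Q.sig ^ k * Q.dd v := by
    intro v hv k hk
    obtain ⟨a, b, c, d⟩ := reg v hv
    refine (low v a b d).trans (mul_le_mul_of_nonneg_right ?_ (Q.dd_nonneg v))
    exact pow_le_pow_right₀ Q.one_le_sig (Nat.floor_le_of_le hk)
  refine ⟨Q.χ_pos _, hx1, ?_, fun v hv => ?_, fun v hv n _ hn => ?_, fun K => ?_, fun C j => ?_⟩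
  · exact Q.dep_cont.comp Q.cX.continuousOn fun v hv => ⟨(reg v hv).1, (reg v hv).2.1⟩
  · exact (Q.le_dep_iff (reg v hv).1 (reg v hv).2.1).2 hv.2.1
  · obtain ⟨a, b, c⟩ := hgt v hv n hn
    exact ⟨a, b, c.trans (pow_le_one₀ Q.lam_pos.le Q.lam_lt.le)⟩
  · obtain ⟨N, hN⟩ := Q.hs4_small |K| ⌈W⌉₊ hd1
    obtain ⟨d, hd, hsm⟩ := Q.dd_small (Q.χ_pos (-(N + W)))
    refine ⟨d, hd, fun v hv hdv n hn1 hn2 => ?_⟩
    obtain ⟨a, b, c, e⟩ := reg v hv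
    have hS : v ∈ Q.S := ⟨by rw [abs_of_pos a]; exact b, e⟩
    have t1 : (N : ℝ) + W ≤ Q.dep (Q.X v) :=
      (Q.le_dep_iff a b).2 ((le_abs_self _).trans (hsm v hS hdv).le)
    have t2 : N ≤ n := by
      have : (N : ℝ) ≤ n := by linarith
      exact_mod_cast this
    have t3 := low' v hv (n + ⌈W⌉₊) (by
      have := Nat.le_ceil W
      push_cast; linarith)
    obtain ⟨-, y0, yl⟩ := hgt v hv n hn2
    have t4 : |K| * Q.lam ^ n ≤ Q.dd v := by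
      have t5 := (hN n t2).le.trans t3
      rw [mul_comm (Q.sig ^ _)] at t5
      exact le_of_mul_le_mul_right t5 (pow_pos hs0 _)
    calc K * Q.Y (F.f^[0 + Q.M * n] v) ≤ |K| * Q.Y (F.f^[0 + Q.M * n] v) :=
          mul_le_mul_of_nonneg_right (le_abs_self K) y0.le
      _ ≤ |K| * Q.lam ^ n := mul_le_mul_of_nonneg_left yl (abs_nonneg K)
      _ ≤ Q.dd v := t4
  · obtain ⟨N, hN⟩ := Q.hs4_small |C| ⌈W + j⌉₊ hd1
    have hp : 0 < Q.sig ^ (N + ⌈W + j⌉₊) * (|C| + 1) := by positivity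
    refine ⟨d1 / (Q.sig ^ (N + ⌈W + j⌉₊) * (|C| + 1)), div_pos hd1 hp,
      fun h hh hh0 v hv w hw n hn1 hn2 hY hdv => ?_⟩
    by_contra hc
    have hc' : Q.dep (Q.X v) < Q.dep (Q.X w) + j := not_le.1 hc
    have t3 := low' v hv (n + ⌈W + j⌉₊) (by
      have := Nat.le_ceil (W + j)
      push_cast; linarith)
    have t4 : Q.dd v ≤ |C| * h := hdv.trans (mul_le_mul_of_nonneg_right (le_abs_self C) hh.le)
    have t5 : d1 ≤ Q.sig ^ (n + ⌈W + j⌉₊) * (|C| * h) :=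
      t3.trans (mul_le_mul_of_nonneg_left t4 (pow_pos hs0 _).le)
    rcases le_or_gt N n with hn | hn
    · have t6 : h ≤ Q.lam ^ n := hY.trans (hgt w hw n hn2).2.2
      have t7 := hN n hn
      have t8 : Q.sig ^ (n + ⌈W + j⌉₊) * (|C| * h) ≤
          Q.sig ^ (n + ⌈W + j⌉₊) * (|C| * Q.lam ^ n) :=
        mul_le_mul_of_nonneg_left (mul_le_mul_of_nonneg_left t6 (abs_nonneg C))
          (pow_pos hs0 _).le
      rw [mul_comm] at t7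
      linarith
    · have t6 : Q.sig ^ (n + ⌈W + j⌉₊) ≤ Q.sig ^ (N + ⌈W + j⌉₊) :=
        pow_le_pow_right₀ Q.one_le_sig (by omega)
      have t7 : h * (Q.sig ^ (N + ⌈W + j⌉₊) * (|C| + 1)) ≤ d1 := (le_div_iff₀ hp).1 hh0
      have t8 : Q.sig ^ (n + ⌈W + j⌉₊) * (|C| * h) ≤ Q.sig ^ (N + ⌈W + j⌉₊) * (|C| * h) :=
        mul_le_mul_of_nonneg_right t6 (mul_nonneg (abs_nonneg C) hh.le)
      have t9 : 0 < h * Q.sig ^ (N + ⌈W + j⌉₊) := mul_pos hh (pow_pos hs0 _)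
      nlinarith

theorem ps_self : Q.PS Q := fun _ _ _ hW h1 h2 => ⟨_, _, _, Q.psd_self hW h1 h2⟩

end Quad

end Pool.Agent.Lib.MP_3fe454_an.S2
end

-- part Pool.Agent.Lib.MP_3fe454_an.S2.HS5
section

/-!
Pass structures extend along connections.
-/

set_option autoImplicit false

open Set Metric Filter Topology Function

namespace Pool.Agent.Lib.MP_3fe454_an.S2

open PD

theorem Quad.ps_conn {F : Dis} {Q Q1 Q2 : Quad F} (h : Q.PS Q1) (hc : Q1.Conn Q2)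
    (h1 : Q.M = Q1.M) (h2 : Q1.M = Q2.M) : Q.PS Q2 := by
  intro W y1 y2 hW hy1 hy2
  obtain ⟨n, s1, h0, L, z1, z2, hs1, hh0, hL, hz1, hz2, hc⟩ := hc
  obtain ⟨x1, c, τ, hx1, hx1', hτ, hτW, pc, pd1, pd2⟩ := h (1 - s1) y1 y2 (by linarith) hy1 hy2
  obtain ⟨hx2, hx2', -, hdep, qc, qd1, qd2⟩ := Q2.psd_self (W := W + 2) (by linarith) hz1 hz2
  obtain ⟨d2, hd2, k2⟩ := Q2.dd_small hx2
  obtain ⟨d3, hd3, k3⟩ := qd1 1
  obtain ⟨d1, hd1, k1⟩ := pd1 1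
  obtain ⟨x3, hx3, k4⟩ := Q.X_small (d := min (min d1 h0) (min d2 d3 / L)) (by positivity)
  have hM : Q2.M = Q.M := (h1.trans h2).symm
  have hsub : Q.Reg (min x1 x3) y1 y2 ⊆ Q.Reg x1 y1 y2 := fun v hv =>
    ⟨hv.1, hv.2.1.trans (min_le_left _ _), hv.2.2⟩
  -- the facts for admissible times
  have adm : ∀ v ∈ Q.Reg (min x1 x3) y1 y2, ∀ e : ℕ, τ v + s1 - 1 ≤ e → e ≤ τ v + s1 + 1 →
      Q1.Y (F.f^[c + Q.M * e] v) ≤ Q.dd v ∧
      F.f^[c + n + Q.M * e] v ∈ Q2.Reg (Q2.χ (-(W + 2))) z1 z2 ∧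
      Q2.X (F.f^[c + n + Q.M * e] v) < 1 ∧
      Q2.dd (F.f^[c + n + Q.M * e] v) ≤ L * Q1.Y (F.f^[c + Q.M * e] v) ∧
      Q2.dd (F.f^[c + n + Q.M * e] v) ≤ d3 := by
    intro v hv e e1 e2
    have hv' := hsub hv
    have a1 : Q.dd v ≤ min (min d1 h0) (min d2 d3 / L) := k4 v
      ⟨abs_le.2 ⟨by linarith [hv'.1], hv'.2.1.trans hx1'⟩,
        abs_le.2 ⟨by linarith [hv'.2.2.1], by linarith [hv'.2.2.2]⟩⟩
      (by rw [abs_of_pos hv.1]; exact hv.2.1.trans (min_le_right _ _))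
    rw [le_min_iff, le_min_iff, le_div_iff₀ hL, le_min_iff] at a1
    obtain ⟨⟨a1, a2⟩, a3, a4⟩ := a1
    obtain ⟨b1, b2, -⟩ := pc v hv' e (by linarith) (by linarith)
    have b3 := k1 v hv' a1 e (by linarith) (by linarith)
    rw [one_mul] at b3
    have b4 := hc (F.f^[c + Q.M * e] v) (by rw [b1]; exact Q1.χ_mono.monotone (by linarith))
      (by rw [b1]; exact Q1.χ_mono.monotone (by linarith)) b2 (b3.trans a2)
    rw [← iterate_add_apply, show n + (c + Q.M * e) = c + n + Q.M * e by ring] at b4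
    obtain ⟨c1, c2, c3, c4, c5⟩ := b4
    have c6 : L * Q1.Y (F.f^[c + Q.M * e] v) ≤ Q.dd v * L := by nlinarith
    have c7 := k2 _ ⟨abs_le.2 ⟨by linarith, c2⟩, abs_le.2 ⟨by linarith, by linarith⟩⟩
      (c5.trans (c6.trans a3))
    rw [abs_of_pos c1] at c7
    exact ⟨b3, ⟨c1, c7.le, c3, c4⟩, c7.trans_le hx2', c5, c5.trans (c6.trans a4)⟩
  have shift : ∀ (v : ℂ) (e k : ℕ), F.f^[c + n + Q.M * (e + k)] v =
      F.f^[0 + Q2.M * k] (F.f^[c + n + Q.M * e] v) := fun v e k => by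
    rw [← iterate_add_apply, hM]
    congr 1
    ring
  -- the new exit time does not depend on the admissible time
  have same : ∀ v ∈ Q.Reg (min x1 x3) y1 y2, ∀ e e' : ℕ, τ v + s1 - 1 ≤ e → e ≤ e' →
      e' ≤ τ v + s1 + 1 → e + Q2.dep (Q2.X (F.f^[c + n + Q.M * e] v)) =
        e' + Q2.dep (Q2.X (F.f^[c + n + Q.M * e'] v)) := by
    intro v hv e e' e1 e2 e3
    obtain ⟨k, rfl⟩ := Nat.exists_eq_add_of_le e2
    have k0 : (0 : ℝ) ≤ k := k.cast_nonneg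
    push_cast at e3
    obtain ⟨-, a1, a2, -⟩ := adm v hv e e1 (by linarith)
    have a3 := hdep _ a1
    obtain ⟨-, a4, -⟩ := Q2.run a1.1 a2.le
      (abs_le.2 ⟨by linarith [a1.2.2.1], by linarith [a1.2.2.2]⟩) (n := k) (by linarith)
    rw [shift, zero_add, a4, Q2.dep_chi]
    push_cast
    ring
  have hE : ∀ v ∈ Q.Reg (min x1 x3) y1 y2, τ v + s1 ≤ (⌈τ v + s1⌉₊ : ℕ) ∧
      (⌈τ v + s1⌉₊ : ℕ) < τ v + s1 + 1 := fun v hv =>
    ⟨Nat.le_ceil _, Nat.ceil_lt_add_one (by linarith [hτW v (hsub hv)])⟩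
  have admE := fun v hv => adm v hv ⌈τ v + s1⌉₊ (by linarith [(hE v hv).1]) (hE v hv).2.le
  -- times in the window of the new exit time
  have win : ∀ v ∈ Q.Reg (min x1 x3) y1 y2, ∀ m : ℕ,
      (⌈τ v + s1⌉₊ : ℕ) + Q2.dep (Q2.X (F.f^[c + n + Q.M * ⌈τ v + s1⌉₊] v)) - W ≤ m →
      ∃ k, m = ⌈τ v + s1⌉₊ + k := fun v hv m hm => by
    have := hdep _ (admE v hv).2.1
    exact Nat.exists_eq_add_of_le (by exact_mod_cast (by linarith : ((⌈τ v + s1⌉₊ : ℕ) : ℝ) ≤ m))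
  have hgt : ∀ v ∈ Q.Reg (min x1 x3) y1 y2, ∀ k : ℕ,
      Q2.dep (Q2.X (F.f^[c + n + Q.M * ⌈τ v + s1⌉₊] v)) - (W + 2) ≤ k →
      k ≤ Q2.dep (Q2.X (F.f^[c + n + Q.M * ⌈τ v + s1⌉₊] v)) →
      Q2.Y (F.f^[c + n + Q.M * (⌈τ v + s1⌉₊ + k)] v) ≤
        L * Q1.Y (F.f^[c + Q.M * ⌈τ v + s1⌉₊] v) := fun v hv k e1 e2 => by
    obtain ⟨-, a1, -, a2, a3⟩ := admE v hv
    have := k3 _ a1 a3 k e1 e2
    rw [one_mul] at this
    rw [shift]
    exact this.trans a2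
  refine ⟨min x1 x3, c + n, fun v => (⌈τ v + s1⌉₊ : ℕ) +
    Q2.dep (Q2.X (F.f^[c + n + Q.M * ⌈τ v + s1⌉₊] v)), lt_min hx1 hx3,
    (min_le_left _ _).trans hx1', fun v hv => ?_, fun v hv => ?_, fun v hv m m1 m2 => ?_,
    fun K => ?_, fun C j => ?_⟩
  · obtain ⟨-, a1, a2, -⟩ := admE v hv
    have a3 : ContinuousAt (fun u => ((⌈τ v + s1⌉₊ : ℕ) : ℝ) +
        Q2.dep (Q2.X (F.f^[c + n + Q.M * ⌈τ v + s1⌉₊] u))) v :=
      continuousAt_const.add (ContinuousAt.comp (f := fun u =>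
        Q2.X (F.f^[c + n + Q.M * ⌈τ v + s1⌉₊] u)) (Q2.dep_cont.continuousAt (Ioc_mem_nhds a1.1 a2))
        (Q2.cX.comp (F.cf.iterate _)).continuousAt)
    refine a3.continuousWithinAt.congr_of_eventuallyEq ?_ rfl
    have a4 := ((hτ.mono hsub) v hv).eventually (Ioo_mem_nhds
      (show ((⌈τ v + s1⌉₊ : ℕ) : ℝ) - s1 - 1 < τ v by linarith [(hE v hv).2])
      (show τ v < ((⌈τ v + s1⌉₊ : ℕ) : ℝ) - s1 + 1 by linarith [(hE v hv).1]))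
    filter_upwards [a4, self_mem_nhdsWithin] with u b1 hu
    rcases le_total ⌈τ u + s1⌉₊ ⌈τ v + s1⌉₊ with b2 | b2
    · exact same u hu _ _ (by linarith [(hE u hu).1]) b2 (by linarith [b1.1])
    · exact (same u hu _ _ (by linarith [b1.2]) b2 (hE u hu).2.le).symm
  · have := hdep _ (admE v hv).2.1
    have k0 : (0 : ℝ) ≤ (⌈τ v + s1⌉₊ : ℕ) := Nat.cast_nonneg _
    linarith
  · obtain ⟨k, rfl⟩ := win v hv m m1
    push_cast at m1 m2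
    obtain ⟨a1, a2⟩ := qc _ (admE v hv).2.1 k (by linarith) (by linarith)
    rw [shift]
    refine ⟨a1.trans (congrArg _ ?_), a2⟩
    push_cast
    ring
  · obtain ⟨d, hd, k5⟩ := pd1 (|K| * L)
    refine ⟨d, hd, fun v hv hvd m m1 m2 => ?_⟩
    obtain ⟨k, rfl⟩ := win v hv m m1
    push_cast at m1 m2
    have a1 := hgt v hv k (by linarith) (by linarith)
    have a2 := k5 v (hsub hv) hvd ⌈τ v + s1⌉₊ (by linarith [(hE v hv).1])
      (by linarith [(hE v hv).2])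
    have a3 := (qc _ (admE v hv).2.1 k (by linarith) (by linarith)).2.1
    rw [← shift] at a3
    calc _ ≤ |K| * Q2.Y (F.f^[c + n + Q.M * (⌈τ v + s1⌉₊ + k)] v) :=
          mul_le_mul_of_nonneg_right (le_abs_self K) a3.le
      _ ≤ |K| * (L * Q1.Y (F.f^[c + Q.M * ⌈τ v + s1⌉₊] v)) :=
          mul_le_mul_of_nonneg_left a1 (abs_nonneg K)
      _ ≤ _ := by rwa [← mul_assoc]
  · obtain ⟨g1, hg1, k5⟩ := pd2 (C * L) 0
    obtain ⟨g2, hg2, k6⟩ := qd2 (L * C) j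
    refine ⟨min (g1 * L) g2, by positivity, fun g hg hg' v hv w hw m m1 m2 a1 a2 => ?_⟩
    rw [le_min_iff] at hg'
    obtain ⟨k, rfl⟩ := win w hw m m1
    push_cast at m1 m2
    have a3 := hgt w hw k (by linarith) (by linarith)
    have a4 := k5 (g / L) (by positivity) ((div_le_iff₀ hL).2 hg'.1) v (hsub hv) w (hsub hw)
      ⌈τ w + s1⌉₊ (by linarith [(hE w hw).1]) (by linarith [(hE w hw).2])
      ((div_le_iff₀' hL).2 (a1.trans a3)) (a2.trans_eq (by field_simp))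
    have a5 : ((⌈τ w + s1⌉₊ : ℕ) : ℝ) ≤ (⌈τ v + s1⌉₊ : ℕ) :=
      Nat.cast_le.2 (Nat.ceil_mono (by linarith))
    obtain ⟨b1, b2, -, b3, -⟩ := admE v hv
    rw [shift] at a1
    have a6 := k6 g hg hg'.2 _ b2 _ (admE w hw).2.1 k (by linarith) (by linarith) a1
      (b3.trans (by rw [mul_assoc]; exact mul_le_mul_of_nonneg_left (b1.trans a2) hL.le))
    linarith

end Pool.Agent.Lib.MP_3fe454_an.S2
end
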