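import Pool.Agent.Lib.MP_3fe454_an.S2.Defs2

/-!
Linear algebra in dimension two and derivatives of iterates.
-/

set_option autoImplicit false

open Set Metric Filter Topology Function

namespace Pool.Agent.Lib.MP_3fe454_an.S2

open PD

theorem lin_coord (L : ℂ →L[ℝ] ℂ) (w : ℂ) :
    (L w).re = (L 1).re * w.re + (L Complex.I).re * w.im ∧
      (L w).im = (L 1).im * w.re + (L Complex.I).im * w.im := by
  have h : L w = (w.re : ℂ) * L 1 + (w.im : ℂ) * L Complex.I := by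
    rw [← Complex.real_smul, ← Complex.real_smul, ← map_smul, ← map_smul, ← map_add,
      Complex.real_smul, Complex.real_smul, mul_one, Complex.re_add_im]
  rw [h]
  constructor
  · simp; ring
  · simp; ring

theorem lin_det (L : ℂ →L[ℝ] ℂ) :
    L.det = (L 1).re * (L Complex.I).im - (L Complex.I).re * (L 1).im := by
  rw [det_eq L (e := 1) norm_one]
  simp; ring

theorem lin_CH (L : ℂ →L[ℝ] ℂ) (w : ℂ) :
    (L (L w)).re = ((L 1).re + (L Complex.I).im) * (L w).re - L.det * w.re ∧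
      (L (L w)).im = ((L 1).re + (L Complex.I).im) * (L w).im - L.det * w.im := by
  rw [(lin_coord L (L w)).1, (lin_coord L (L w)).2, (lin_coord L w).1, (lin_coord L w).2,
    lin_det]
  constructor <;> ring

theorem lin_sink (L : ℂ →L[ℝ] ℂ) (x y : ℂ)
    (hs : x + y = (((L 1).re + (L Complex.I).im : ℝ) : ℂ)) (hp : x * y = (L.det : ℂ))
    (hx : ‖x‖ < 1) (hy : ‖y‖ < 1) :
    ∃ (N : Seminorm ℝ ℂ) (θ c C : ℝ), 0 < θ ∧ θ < 1 ∧ 0 < c ∧ (∀ v, c * ‖v‖ ≤ N v) ∧
      (∀ v, N v ≤ C * ‖v‖) ∧ ∀ v, N (L (L v)) ≤ θ * N v := by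
  obtain ⟨θ, hθ1, hθ2⟩ := exists_between (max_lt hx hy)
  have hθx : ‖x‖ < θ := (le_max_left _ _).trans_lt hθ1
  have hθy : ‖y‖ < θ := (le_max_right _ _).trans_lt hθ1
  have hθ0 : 0 < θ := (norm_nonneg _).trans_lt hθx
  set K : ℝ := (θ - ‖x‖)⁻¹ with hK
  have hK0 : 0 < K := inv_pos.2 (by linarith)
  have hK1 : K * (θ - ‖x‖) = 1 := inv_mul_cancel₀ (by linarith)
  let P : ℂ →L[ℝ] ℂ :=
    Complex.ofRealCLM.comp (Complex.reCLM.comp L) - y • Complex.ofRealCLM.comp Complex.reCLM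
  let Q : ℂ →L[ℝ] ℂ :=
    Complex.ofRealCLM.comp (Complex.imCLM.comp L) - y • Complex.ofRealCLM.comp Complex.imCLM
  have hP : ∀ v, P v = ((L v).re : ℂ) - y * (v.re : ℂ) := fun v => by simp [P]
  have hQ : ∀ v, Q v = ((L v).im : ℂ) - y * (v.im : ℂ) := fun v => by simp [Q]
  have hPL : ∀ v, P (L v) = x * P v := fun v => by
    rw [hP, hP, (lin_CH L v).1]
    push_cast at hs ⊢
    linear_combination (-((L v).re : ℂ)) * hs + (v.re : ℂ) * hp
  have hQL : ∀ v, Q (L v) = x * Q v := fun v => by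
    rw [hQ, hQ, (lin_CH L v).2]
    push_cast at hs ⊢
    linear_combination (-((L v).im : ℂ)) * hs + (v.im : ℂ) * hp
  have hL : ∀ v, ‖L v‖ ≤ ‖y‖ * ‖v‖ + ‖P v‖ + ‖Q v‖ := fun v => by
    have h : L v = y * v + P v + Q v * Complex.I := by
      rw [hP, hQ]
      linear_combination -(Complex.re_add_im (L v)) + y * (Complex.re_add_im v)
    calc ‖L v‖ = ‖y * v + P v + Q v * Complex.I‖ := by rw [← h]
      _ ≤ ‖y * v‖ + ‖P v‖ + ‖Q v * Complex.I‖ := norm_add₃_le
      _ = _ := by rw [norm_mul, norm_mul, Complex.norm_I, mul_one]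
  let N : Seminorm ℝ ℂ := Seminorm.of (fun v => ‖v‖ + K * (‖P v‖ + ‖Q v‖))
    (fun u v => by
      have h1 := norm_add_le u v
      have h2 := norm_add_le (P u) (P v)
      have h3 := norm_add_le (Q u) (Q v)
      rw [map_add, map_add]
      nlinarith)
    (fun a v => by
      rw [map_smul, map_smul, norm_smul, norm_smul, norm_smul]
      ring)
  have hN : ∀ v, N v = ‖v‖ + K * (‖P v‖ + ‖Q v‖) := fun v => rfl
  have hNL : ∀ v, N (L v) ≤ θ * N v := fun v => by
    rw [hN, hN, hPL, hQL, norm_mul, norm_mul]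
    have h1 := hL v
    have h2 : ‖y‖ * ‖v‖ ≤ θ * ‖v‖ := mul_le_mul_of_nonneg_right hθy.le (norm_nonneg _)
    have h3 : θ * (‖v‖ + K * (‖P v‖ + ‖Q v‖)) =
        θ * ‖v‖ + (‖P v‖ + ‖Q v‖) + K * (‖x‖ * ‖P v‖ + ‖x‖ * ‖Q v‖) := by
      linear_combination (‖P v‖ + ‖Q v‖) * hK1
    rw [h3]
    linarith
  refine ⟨N, θ * θ, 1, 1 + K * (‖P‖ + ‖Q‖), mul_pos hθ0 hθ0, by nlinarith, one_pos,
    fun v => ?_, fun v => ?_, fun v => ?_⟩
  · rw [hN]
    have := mul_nonneg hK0.le (add_nonneg (norm_nonneg (P v)) (norm_nonneg (Q v)))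
    linarith
  · rw [hN]
    have h1 := P.le_opNorm v
    have h2 := Q.le_opNorm v
    nlinarith
  · calc N (L (L v)) ≤ θ * N (L v) := hNL _
      _ ≤ θ * (θ * N v) := mul_le_mul_of_nonneg_left (hNL v) hθ0.le
      _ = _ := by ring

theorem lin_row {a b c d x y : ℝ} (hs : x + y = a + d) (hp : x * y = a * d - b * c)
    (hne : x ≠ y) :
    ∃ p q : ℝ, (p ≠ 0 ∨ q ≠ 0) ∧ p * a + q * c = x * p ∧ p * b + q * d = x * q := by
  by_cases h1 : a - y ≠ 0 ∨ b ≠ 0
  · exact ⟨a - y, b, h1, by linear_combination (-a) * hs + hp, by linear_combination (-b) * hs⟩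
  · refine ⟨c, d - y, Or.inr fun h => hne ?_, by linear_combination (-c) * hs,
      by linear_combination (-d) * hs + hp⟩
    push Not at h1
    linarith [h1.1]

theorem lin_saddle (L : ℂ →L[ℝ] ℂ) (x y : ℝ)
    (hs : x + y = (L 1).re + (L Complex.I).im) (hp : x * y = L.det) (hne : x ≠ y) :
    ∃ A : ℂ ≃L[ℝ] ℝ × ℝ, ∀ v, A (L v) = (x * (A v).1, y * (A v).2) := by
  rw [lin_det] at hp
  obtain ⟨p, q, hpq, h1, h2⟩ := lin_row hs hp hne
  obtain ⟨r, s, hrs, h3, h4⟩ := lin_row ((add_comm y x).trans hs) ((mul_comm y x).trans hp)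
    hne.symm
  have hxy : x - y ≠ 0 := sub_ne_zero.2 hne
  have hdet : p * s - q * r ≠ 0 := fun h => by
    have e1 : p * r = 0 := by
      apply mul_left_cancel₀ hxy
      linear_combination (-r) * h1 + p * h3 - (L 1).im * h
    have e2 : q * s = 0 := by
      apply mul_left_cancel₀ hxy
      linear_combination (-s) * h2 + q * h4 + (L Complex.I).re * h
    rcases hpq with hp0 | hq0
    · have hr : r = 0 := (mul_eq_zero.1 e1).resolve_left hp0
      have hs0 : s = 0 := by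
        apply mul_left_cancel₀ hp0
        rw [hr] at h
        linarith
      exact hrs.elim (fun h => h hr) (fun h => h hs0)
    · have hs0 : s = 0 := (mul_eq_zero.1 e2).resolve_left hq0
      have hr : r = 0 := by
        apply mul_left_cancel₀ hq0
        rw [hs0] at h
        linarith
      exact hrs.elim (fun h => h hr) (fun h => h hs0)
  let f : ℂ →ₗ[ℝ] ℝ × ℝ :=
    (p • Complex.reLm + q • Complex.imLm).prod (r • Complex.reLm + s • Complex.imLm)
  have hf : ∀ v, f v = (p * v.re + q * v.im, r * v.re + s * v.im) := fun v => by simp [f]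
  have hinj : Injective f := by
    rw [injective_iff_map_eq_zero]
    intro v hv
    rw [hf, Prod.mk_eq_zero] at hv
    apply Complex.ext
    · apply mul_left_cancel₀ hdet
      rw [Complex.zero_re]
      linear_combination s * hv.1 - q * hv.2
    · apply mul_left_cancel₀ hdet
      rw [Complex.zero_im]
      linear_combination p * hv.2 - r * hv.1
  refine ⟨(f.linearEquivOfInjective hinj (by simp)).toContinuousLinearEquiv, fun v => ?_⟩
  simp only [LinearEquiv.coe_toContinuousLinearEquiv', LinearMap.linearEquivOfInjective_apply, hf]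
  rw [(lin_coord L v).1, (lin_coord L v).2]
  refine Prod.ext ?_ ?_
  · linear_combination v.re * h1 + v.im * h2
  · linear_combination v.re * h3 + v.im * h4

theorem lin_real (L : ℂ →L[ℝ] ℂ) (h0 : L.det ≠ 0) (h1 : |L.det| < 1) (x y : ℝ)
    (hs : x + y = (L 1).re + (L Complex.I).im) (hp : x * y = L.det) (hx : 1 ≤ |x|) :
    ∃ (A : ℂ ≃L[ℝ] ℝ × ℝ) (s l : ℝ), 1 ≤ s ∧ 0 < l ∧ l * s < 1 ∧
      ∀ v, A (L (L v)) = (s * (A v).1, l * (A v).2) := by
  have hy0 : y ≠ 0 := fun h => h0 (by rw [← hp, h, mul_zero])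
  have hx2 : 1 ≤ x * x := by
    rw [← abs_mul_abs_self]
    nlinarith
  have hd2 : (x * y) * (x * y) < 1 := by
    rw [hp, ← abs_mul_abs_self]
    nlinarith [abs_nonneg L.det]
  have hne : x ≠ y := fun h => by
    rw [← h] at hd2
    nlinarith
  obtain ⟨A, hA⟩ := lin_saddle L x y hs hp hne
  refine ⟨A, x * x, y * y, hx2, mul_self_pos.2 hy0, by linarith, fun v => ?_⟩
  rw [hA, hA]
  refine Prod.ext ?_ ?_ <;> simp only <;> ring

/-- dichotomy for the square of a dissipative linear map -/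
theorem lin_dich (L : ℂ →L[ℝ] ℂ) (h0 : L.det ≠ 0) (h1 : |L.det| < 1) :
    (∃ (N : Seminorm ℝ ℂ) (θ c C : ℝ), 0 < θ ∧ θ < 1 ∧ 0 < c ∧ (∀ v, c * ‖v‖ ≤ N v) ∧
      (∀ v, N v ≤ C * ‖v‖) ∧ ∀ v, N (L (L v)) ≤ θ * N v) ∨
    ∃ (A : ℂ ≃L[ℝ] ℝ × ℝ) (s l : ℝ), 1 ≤ s ∧ 0 < l ∧ l * s < 1 ∧
      ∀ v, A (L (L v)) = (s * (A v).1, l * (A v).2) := by
  set t := (L 1).re + (L Complex.I).im with ht
  rcases le_or_gt 0 (t ^ 2 - 4 * L.det) with hD | hD
  · have hsq := Real.mul_self_sqrt hD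
    set u := Real.sqrt (t ^ 2 - 4 * L.det)
    have hs : (t + u) / 2 + (t - u) / 2 = t := by ring
    have hp : (t + u) / 2 * ((t - u) / 2) = L.det := by linear_combination (-1 / 4) * hsq
    rcases le_or_gt 1 |(t + u) / 2| with hx | hx
    · exact Or.inr (lin_real L h0 h1 _ _ hs hp hx)
    rcases le_or_gt 1 |(t - u) / 2| with hy | hy
    · exact Or.inr (lin_real L h0 h1 _ _ ((add_comm _ _).trans hs) ((mul_comm _ _).trans hp) hy)
    refine Or.inl (lin_sink L (((t + u) / 2 : ℝ) : ℂ) (((t - u) / 2 : ℝ) : ℂ) ?_ ?_ ?_ ?_)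
    · rw [← Complex.ofReal_add, hs]
    · rw [← Complex.ofReal_mul, hp]
    · rwa [Complex.norm_real, Real.norm_eq_abs]
    · rwa [Complex.norm_real, Real.norm_eq_abs]
  · have hsq := Real.mul_self_sqrt (show 0 ≤ 4 * L.det - t ^ 2 by linarith)
    set u := Real.sqrt (4 * L.det - t ^ 2)
    have hd := (abs_lt.1 h1).2
    have hn : ∀ z : ℂ, z.re * z.re + z.im * z.im = L.det → ‖z‖ < 1 := fun z hz => by
      have h2 := Complex.sq_norm z
      rw [Complex.normSq_apply, hz] at h2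
      nlinarith [norm_nonneg z]
    refine Or.inl (lin_sink L ⟨t / 2, u / 2⟩ ⟨t / 2, -(u / 2)⟩ ?_ ?_ (hn _ ?_) (hn _ ?_))
    · apply Complex.ext
      · rw [Complex.add_re, Complex.ofReal_re]
        simp only
        linarith
      · rw [Complex.add_im, Complex.ofReal_im]
        simp
    · apply Complex.ext
      · rw [Complex.mul_re, Complex.ofReal_re]
        simp only
        linear_combination (1 / 4) * hsq
      · rw [Complex.mul_im, Complex.ofReal_im]
        simp only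
        ring
    · simp only
      linear_combination (1 / 4) * hsq
    · simp only
      linear_combination (1 / 4) * hsq

theorem lin_strict (F : Dis) {z : ℂ} (hz : ‖z‖ < 1) : HasStrictFDerivAt F.f (F.D z) z :=
  hasStrictFDerivAt_of_hasFDerivAt_of_continuousAt
    (mem_of_superset (isOpen_ball.mem_nhds (mem_ball_zero_iff.2 hz)) fun y hy =>
      (F.deriv y (ball_subset_closedBall hy)).hasFDerivAt
        (mem_of_superset (isOpen_ball.mem_nhds hy) ball_subset_closedBall)) F.cD.continuousAt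

theorem lin_iter (F : Dis) (n : ℕ) {q : ℂ} (hq : ‖q‖ < 1) :
    ‖F.f^[n] q‖ < 1 ∧
      ∃ L : ℂ →L[ℝ] ℂ, HasStrictFDerivAt F.f^[n] L q ∧ L.det ≠ 0 ∧ |L.det| ≤ F.b ^ n := by
  induction n with
  | zero =>
    refine ⟨hq, ContinuousLinearMap.id ℝ ℂ, hasStrictFDerivAt_id q, ?_, ?_⟩ <;>
      simp [ContinuousLinearMap.det]
  | succ n ih =>
    obtain ⟨h1, L, hL, h2, h3⟩ := ih
    have hm := mem_closedBall_zero_iff.2 h1.le
    have hdet : ((F.D (F.f^[n] q)).comp L).det = (F.D (F.f^[n] q)).det * L.det := by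
      exact LinearMap.det_comp (F.D (F.f^[n] q) : ℂ →ₗ[ℝ] ℂ) (L : ℂ →ₗ[ℝ] ℂ)
    rw [iterate_succ']
    refine ⟨(F.maps _).trans_lt F.r0_lt, (F.D (F.f^[n] q)).comp L,
      (lin_strict F h1).comp q hL, ?_, ?_⟩
    · rw [hdet]
      refine mul_ne_zero (fun h => ?_) h2
      have := F.det_ge _ hm
      rw [h, abs_zero] at this
      nlinarith [F.m_pos, F.one_le_M]
    · rw [hdet, abs_mul, pow_succ']
      exact mul_le_mul (F.det_le _ hm) h3 (abs_nonneg _) F.b_pos.le

/-- strict differentiability of iterates at interior points -/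
theorem iter_strict (F : Dis) (n : ℕ) (hn : 0 < n) {q : ℂ} (hq : ‖q‖ < 1) :
    ∃ L : ℂ →L[ℝ] ℂ, HasStrictFDerivAt F.f^[n] L q ∧ L.det ≠ 0 ∧ |L.det| < 1 := by
  obtain ⟨-, L, h1, h2, h3⟩ := lin_iter F n hq
  exact ⟨L, h1, h2, h3.trans_lt (pow_lt_one₀ F.b_pos.le F.b_lt hn.ne')⟩

theorem lin_lip (F : Dis) {a b : ℂ} (ha : a ∈ Disc) (hb : b ∈ Disc) :
    ‖F.f a - F.f b‖ ≤ F.M * ‖a - b‖ :=
  (convex_closedBall (0 : ℂ) 1).norm_image_sub_le_of_norm_hasFDerivWithin_le F.deriv F.up hb ha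

theorem lin_lip_iter (F : Dis) (n : ℕ) {a b : ℂ} (ha : a ∈ Disc) (hb : b ∈ Disc) :
    ‖F.f^[n] a - F.f^[n] b‖ ≤ F.M ^ n * ‖a - b‖ := by
  induction n with
  | zero => simp
  | succ n ih =>
    rw [iterate_succ_apply', iterate_succ_apply', pow_succ', mul_assoc]
    exact (lin_lip F (F.iter_mem_Disc ha n) (F.iter_mem_Disc hb n)).trans
      (mul_le_mul_of_nonneg_left ih (by linarith [F.one_le_M]))

theorem lin_seg (F : Dis) {a a' : ℂ} (ha : a ∈ Disc) (ha' : a' ∈ Disc) {t : ℝ}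
    (ht : t ∈ Icc (0 : ℝ) 1) :
    a' + t • (a - a') ∈ Disc ∧ HasDerivWithinAt (fun s : ℝ => F.f (a' + s • (a - a')))
      (F.D (a' + t • (a - a')) (a - a')) (Icc 0 1) t := by
  have hm : MapsTo (fun s : ℝ => a' + s • (a - a')) (Icc 0 1) Disc := fun s hs =>
    (convex_closedBall (0 : ℂ) 1).add_smul_sub_mem ha' ha hs
  refine ⟨hm ht, ?_⟩
  have h1 : HasDerivWithinAt (fun s : ℝ => a' + s • (a - a')) (a - a') (Icc 0 1) t := by
    simpa using (((hasDerivAt_id t).smul_const (a - a')).const_add a').hasDerivWithinAt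
  exact (F.deriv _ (hm ht)).comp_hasDerivWithinAt t h1 hm

theorem lin_four (F : Dis) {η : ℝ} (hη : 0 < η) : ∃ ρ > 0, ∀ a ∈ Disc, ∀ a' ∈ Disc, ∀ b ∈ Disc,
    ∀ b' ∈ Disc, ‖a - b‖ ≤ ρ → ‖a' - b'‖ ≤ ρ →
      ‖(F.f a - F.f a') - (F.f b - F.f b')‖ ≤ F.M * ‖(a - a') - (b - b')‖ + η * ‖b - b'‖ := by
  obtain ⟨ρ, hρ, h⟩ := Metric.uniformContinuousOn_iff_le.1
    ((isCompact_closedBall (0 : ℂ) 1).uniformContinuousOn_of_continuous F.cD.continuousOn) η hη
  refine ⟨ρ, hρ, fun a ha a' ha' b hb b' hb' h1 h2 => ?_⟩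
  have key := norm_image_sub_le_of_norm_deriv_le_segment_01'
    (f := fun s : ℝ => F.f (a' + s • (a - a')) - F.f (b' + s • (b - b')))
    (f' := fun t : ℝ => F.D (a' + t • (a - a')) (a - a') - F.D (b' + t • (b - b')) (b - b'))
    (C := F.M * ‖(a - a') - (b - b')‖ + η * ‖b - b'‖)
    (fun t ht => (lin_seg F ha ha' ht).2.sub (lin_seg F hb hb' ht).2) (fun t ht => ?_)
  · simp only [one_smul, zero_smul, add_zero, add_sub_cancel] at key
    rwa [show F.f a - F.f a' - (F.f b - F.f b') = F.f a - F.f b - (F.f a' - F.f b') by ring]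
  · have ht' := Ico_subset_Icc_self ht
    have hx := (lin_seg F ha ha' ht').1
    have hy := (lin_seg F hb hb' ht').1
    have hd : dist (a' + t • (a - a')) (b' + t • (b - b')) ≤ ρ := by
      rw [dist_eq_norm, show a' + t • (a - a') - (b' + t • (b - b')) =
        (1 - t) • (a' - b') + t • (a - b) by module]
      refine (norm_add_le _ _).trans ?_
      rw [norm_smul, norm_smul, Real.norm_of_nonneg ht.1,
        Real.norm_of_nonneg (sub_nonneg.2 ht'.2)]
      nlinarith [mul_le_mul_of_nonneg_left h1 ht.1,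
        mul_le_mul_of_nonneg_left h2 (sub_nonneg.2 ht'.2)]
    have h3 := h _ hx _ hy hd
    rw [dist_eq_norm] at h3
    set x := a' + t • (a - a')
    set y := b' + t • (b - b')
    have e : F.D x (a - a') - F.D y (b - b') =
        F.D x ((a - a') - (b - b')) + (F.D x - F.D y) (b - b') := by
      rw [map_sub (F.D x) (a - a'), sub_apply]
      ring
    rw [e]
    refine (norm_add_le _ _).trans (add_le_add ?_ ?_)
    · exact (F.D x).le_of_opNorm_le (F.up x hx) _
    · exact (F.D x - F.D y).le_of_opNorm_le h3 _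

theorem lip_close_iter (F : Dis) (n : ℕ) {ε : ℝ} (hε : 0 < ε) : ∃ δ > 0, ∀ T : ℂ → ℂ,
    MapsTo T Disc Disc → LipClose δ T F.f → LipClose ε T^[n] F.f^[n] := by
  induction n generalizing ε with
  | zero =>
    refine ⟨1, one_pos, fun T _ _ w _ w' _ => ⟨?_, ?_⟩⟩
    · simpa using hε.le
    · simpa using mul_nonneg hε.le (norm_nonneg _)
  | succ n ih =>
    have hM : 0 < F.M := by linarith [F.one_le_M]
    have hMn : 0 < F.M ^ n := pow_pos hM n
    obtain ⟨ρ, hρ, h4⟩ := lin_four F (η := ε / (3 * F.M ^ n)) (by positivity)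
    obtain ⟨e, he, he1, he2, he3⟩ : ∃ e > 0, e ≤ ρ ∧ e ≤ 1 ∧ F.M * e ≤ ε / 3 := by
      refine ⟨min ρ (min 1 (ε / 3 / F.M)), by positivity, min_le_left _ _,
        (min_le_right _ _).trans (min_le_left _ _), ?_⟩
      rw [mul_comm, ← le_div_iff₀ hM]
      exact (min_le_right _ _).trans (min_le_right _ _)
    obtain ⟨δ', hδ', hI⟩ := ih he
    obtain ⟨δ, hδ, hδ1, hδ2⟩ : ∃ δ > 0, δ ≤ δ' ∧ δ * (F.M ^ n + 1) ≤ ε / 3 := by
      refine ⟨min δ' (ε / 3 / (F.M ^ n + 1)), by positivity, min_le_left _ _, ?_⟩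
      rw [← le_div_iff₀ (by positivity)]
      exact min_le_right _ _
    refine ⟨δ, hδ, fun T hT hc w hw w' hw' => ?_⟩
    have hI' := hI T hT fun u hu u' hu' => ⟨(hc u hu u' hu').1.trans hδ1,
      (hc u hu u' hu').2.trans (mul_le_mul_of_nonneg_right hδ1 (norm_nonneg _))⟩
    have ha := hT.iterate n hw
    have ha' := hT.iterate n hw'
    have hb := F.iter_mem_Disc hw n
    have hb' := F.iter_mem_Disc hw' n
    have e1 := (hI' w hw w' hw').1
    have e2 := (hI' w' hw' w' hw').1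
    have e3 := (hI' w hw w' hw').2
    have e4 := lin_lip_iter F n hw hw'
    have e5 := hc _ ha _ ha'
    have e6 := lin_lip F ha hb
    have e7 := h4 _ ha _ ha' _ hb _ hb' (e1.trans he1) (e2.trans he1)
    simp only [iterate_succ_apply']
    set a := T^[n] w
    set a' := T^[n] w'
    set b := F.f^[n] w
    set b' := F.f^[n] w'
    have hN := norm_nonneg (w - w')
    constructor
    · have e8 := norm_add_le (T a - F.f a) (F.f a - F.f b)
      rw [sub_add_sub_cancel] at e8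
      have e9 := mul_le_mul_of_nonneg_left e1 hM.le
      nlinarith [e5.1]
    · have e8 := norm_add_le (T a - T a' - (F.f a - F.f a')) (F.f a - F.f a' - (F.f b - F.f b'))
      rw [sub_add_sub_cancel] at e8
      have e9 := norm_add_le (a - a' - (b - b')) (b - b')
      rw [sub_add_cancel] at e9
      have f1 : ‖a - a'‖ ≤ (F.M ^ n + 1) * ‖w - w'‖ := by
        nlinarith [mul_le_mul_of_nonneg_right he2 hN]
      have f2 : δ * ‖a - a'‖ ≤ ε / 3 * ‖w - w'‖ :=
        (mul_le_mul_of_nonneg_left f1 hδ.le).trans (by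
          rw [← mul_assoc]; exact mul_le_mul_of_nonneg_right hδ2 hN)
      have f3 : F.M * ‖a - a' - (b - b')‖ ≤ ε / 3 * ‖w - w'‖ :=
        (mul_le_mul_of_nonneg_left e3 hM.le).trans (by
          rw [← mul_assoc]; exact mul_le_mul_of_nonneg_right he3 hN)
      have f4 : ε / (3 * F.M ^ n) * ‖b - b'‖ ≤ ε / 3 * ‖w - w'‖ :=
        (mul_le_mul_of_nonneg_left e4 (by positivity)).trans (le_of_eq (by field_simp))
      linarith [e5.2]

end Pool.Agent.Lib.MP_3fe454_an.S2
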