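import Pool.Agent.Lib.MP_3fe454_an.S2.Defs2

-- part Pool.Agent.Lib.MP_3fe454_an.S2.Top2
section

/-!
The separation lemma and the rectangle crossing lemma.
-/

set_option autoImplicit false

open Set Metric Filter Topology Function

namespace Pool.Agent.Lib.MP_3fe454_an.S2

open PD

theorem top2_const {X : Type} [TopologicalSpace X] {S : Set X} (hS : IsPreconnected S)
    {u : X → ℂ} (hu : ContinuousOn u S) (h1 : ∀ w ∈ S, Complex.exp (u w) = 1) {a b : X}
    (ha : a ∈ S) (hb : b ∈ S) : u a = u b := by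
  refine Complex.isCoveringMap_exp.constOn_of_comp hS hu ?_ ha hb
  intro x hx y hy
  apply Subtype.ext
  simp only [h1 x hx, h1 y hy]

/-- the quotient of the two linear factors has a continuous logarithm on K -/
def Top2Log (K : Set ℂ) (v a : ℂ) : Prop :=
  ∃ l : ℂ → ℂ, ContinuousOn l K ∧ ∀ w ∈ K, Complex.exp (l w) * (w - v) = w - a

theorem top2_step {K : Set ℂ} {v a b : ℂ} (h : ∀ w ∈ K, ‖a - b‖ < ‖w - a‖)
    (hl : Top2Log K v a) : Top2Log K v b := by
  obtain ⟨l, hl, hle⟩ := hl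
  have hne : ∀ w ∈ K, w - a ≠ 0 := fun w hw h0 => by
    have := h w hw
    rw [h0, norm_zero] at this
    exact absurd this (not_lt.2 (norm_nonneg _))
  have hsl : ∀ w ∈ K, 1 + (a - b) / (w - a) ∈ Complex.slitPlane := by
    intro w hw
    apply Complex.mem_slitPlane_of_norm_lt_one
    rw [norm_div, div_lt_one (norm_pos_iff.2 (hne w hw))]
    exact h w hw
  have hc : ContinuousOn (fun w => Complex.log (1 + (a - b) / (w - a))) K := by
    apply ContinuousOn.clog _ hsl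
    exact continuousOn_const.add (continuousOn_const.div (continuousOn_id.sub continuousOn_const) hne)
  refine ⟨fun w => l w + Complex.log (1 + (a - b) / (w - a)), hl.add hc, fun w hw => ?_⟩
  rw [Complex.exp_add, Complex.exp_log (Complex.slitPlane_ne_zero (hsl w hw)), mul_right_comm,
    hle w hw]
  have := hne w hw
  field_simp
  ring

theorem top2_conn {K B : Set ℂ} (hK : IsClosed K) (hB : IsPreconnected B) (hd : ∀ a ∈ B, a ∉ K)
    {u v : ℂ} (hu : u ∈ B) (hv : v ∈ B) : Top2Log K v u := by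
  have h0 : Top2Log K v v := ⟨fun _ => 0, continuousOn_const, fun w _ => by simp⟩
  have h := hB.induction₂' (fun x y => (Top2Log K v x ↔ Top2Log K v y)) ?_ ?_ hv hu
  · exact h.1 h0
  · intro x hx
    obtain ⟨δ, hδ, hb⟩ := Metric.isOpen_iff.1 hK.isOpen_compl x (hd x hx)
    have hfar : ∀ w ∈ K, δ ≤ ‖w - x‖ := fun w hw => by
      by_contra hlt
      exact hb (mem_ball_iff_norm.2 (not_le.1 hlt)) hw
    filter_upwards [nhdsWithin_le_nhds (ball_mem_nhds x (half_pos hδ))] with y hy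
    have hy' : ‖y - x‖ < δ / 2 := mem_ball_iff_norm.1 hy
    have h1 : Top2Log K v x → Top2Log K v y := top2_step fun w hw => by
      rw [norm_sub_rev]
      linarith [hfar w hw]
    have h2 : Top2Log K v y → Top2Log K v x := top2_step fun w hw => by
      have := norm_sub_le_norm_sub_add_norm_sub w y x
      linarith [hfar w hw]
    exact ⟨⟨h1, h2⟩, ⟨h2, h1⟩⟩
  · intro x y z _ _ _ h1 h2
    exact h1.trans h2

theorem top2_jump {Z : Set ℂ} (hZ : IsPreconnected Z) {a b δ : ℝ} (ha0 : a < 0) (hb0 : 0 < b)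
    (ha : (a : ℂ) ∈ Z) (hb : (b : ℂ) ∈ Z) (hδ : ∀ w ∈ Z, δ ≤ ‖w‖) {u v : ℂ}
    (hu : ‖u‖ < δ / 4) (hv : ‖v‖ < δ / 4) (hu' : 0 < u.im) (hv' : v.im < 0)
    (hl : Top2Log (Z ∪ (fun x : ℝ => (x : ℂ)) '' Icc a b) v u) : False := by
  obtain ⟨l, hl, hle⟩ := hl
  set σ : Set ℂ := (fun x : ℝ => (x : ℂ)) '' Icc a b with hσ
  have hσc : IsPreconnected σ := isPreconnected_Icc.image _ Complex.continuous_ofReal.continuousOn
  have haσ : (a : ℂ) ∈ σ := ⟨a, ⟨le_rfl, by linarith⟩, rfl⟩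
  have hbσ : (b : ℂ) ∈ σ := ⟨b, ⟨by linarith, le_rfl⟩, rfl⟩
  have hfar : ∀ w ∈ Z, 3 * δ / 4 < ‖w - v‖ := fun w hw => by
    have := norm_sub_norm_le w v
    linarith [hδ w hw]
  have hne : ∀ w ∈ Z ∪ σ, w - v ≠ 0 := by
    rintro w (hw | ⟨x, -, rfl⟩) h0
    · have := hfar w hw
      rw [h0, norm_zero] at this
      linarith [norm_nonneg u]
    · have := congrArg Complex.im h0
      simp only [Complex.sub_im, Complex.ofReal_im, Complex.zero_im] at this
      linarith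
  set G : ℂ → ℂ := fun w => (w - u) / (w - v) with hG
  have hGc : ContinuousOn G (Z ∪ σ) :=
    (continuousOn_id.sub continuousOn_const).div (continuousOn_id.sub continuousOn_const) hne
  have hexp : ∀ w ∈ Z ∪ σ, Complex.exp (l w) = G w := fun w hw => by
    rw [hG]
    exact eq_div_of_mul_eq (hne w hw) (hle w hw)
  have hslZ : ∀ w ∈ Z, G w ∈ Complex.slitPlane := by
    intro w hw
    have h1 : G w = 1 + (v - u) / (w - v) := by
      have := hne w (Or.inl hw)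
      simp only [hG]
      field_simp
      ring
    rw [h1]
    apply Complex.mem_slitPlane_of_norm_lt_one
    rw [norm_div, div_lt_one (norm_pos_iff.2 (hne w (Or.inl hw)))]
    have := norm_sub_le v u
    linarith [hfar w hw, norm_nonneg u]
  have him : ∀ x : ℝ, (G x).im =
      ((x - u.re) * v.im - u.im * (x - v.re)) / Complex.normSq (x - v) := by
    intro x
    simp only [hG, Complex.div_im, Complex.sub_re, Complex.sub_im, Complex.ofReal_re,
      Complex.ofReal_im]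
    ring
  have hslσ : ∀ w ∈ σ, -G w ∈ Complex.slitPlane := by
    rintro w ⟨x, hx, rfl⟩
    have h1 : G x * (x - v) = x - u := div_mul_cancel₀ _ (hne x (Or.inr ⟨x, hx, rfl⟩))
    rw [Complex.mem_slitPlane_iff]
    by_cases hy : (G x).im = 0
    · left
      have h2 := congrArg Complex.im h1
      simp only [Complex.mul_im, Complex.sub_im, Complex.ofReal_im, hy, zero_mul, add_zero] at h2
      rw [Complex.neg_re, neg_pos]
      by_contra h3
      nlinarith [not_lt.1 h3]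
    · right
      rw [Complex.neg_im]
      exact neg_ne_zero.2 hy
  have e1 : l a - Complex.log (G a) = l b - Complex.log (G b) := by
    refine top2_const (u := fun w => l w - Complex.log (G w)) hZ ?_ ?_ ha hb
    · exact (hl.mono subset_union_left).sub ((hGc.mono subset_union_left).clog hslZ)
    · intro w hw
      have h0 := Complex.slitPlane_ne_zero (hslZ w hw)
      rw [Complex.exp_sub, hexp w (Or.inl hw), Complex.exp_log h0, div_self h0]
  have e2 : l a - Complex.log (-G a) + Real.pi * Complex.I =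
      l b - Complex.log (-G b) + Real.pi * Complex.I := by
    refine top2_const (u := fun w => l w - Complex.log (-G w) + Real.pi * Complex.I)
      hσc ?_ ?_ haσ hbσ
    · exact ((hl.mono subset_union_right).sub
        ((hGc.mono subset_union_right).neg.clog hslσ)).add continuousOn_const
    · intro w hw
      have h0 := Complex.slitPlane_ne_zero (hslσ w hw)
      have h0' : G w ≠ 0 := neg_ne_zero.1 h0
      rw [Complex.exp_add, Complex.exp_pi_mul_I, Complex.exp_sub, hexp w (Or.inr hw),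
        Complex.exp_log h0]
      field_simp
  have e3 : Complex.log (-G a) - Complex.log (G a) = Complex.log (-G b) - Complex.log (G b) := by
    linear_combination e1 - e2
  have e4 := congrArg Complex.im e3
  simp only [Complex.sub_im, Complex.log_im] at e4
  have hure := abs_le.1 ((Complex.abs_re_le_norm u).trans hu.le)
  have hvre := abs_le.1 ((Complex.abs_re_le_norm v).trans hv.le)
  have hda : δ ≤ -a := by
    have := hδ a ha
    rwa [Complex.norm_real, Real.norm_eq_abs, abs_of_neg ha0] at this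
  have hdb : δ ≤ b := by
    have := hδ b hb
    rwa [Complex.norm_real, Real.norm_eq_abs, abs_of_pos hb0] at this
  have hd0 : 0 < δ := by linarith [norm_nonneg u]
  have i1 : (G b).im < 0 := by
    rw [him]
    apply div_neg_of_neg_of_pos _ (Complex.normSq_pos.2 (hne b (Or.inl hb)))
    nlinarith [mul_pos (show 0 < b - u.re by linarith [hure.2]) (neg_pos.2 hv'),
      mul_pos hu' (show 0 < b - v.re by linarith [hvre.2])]
  have i2 : 0 < (G a).im := by
    rw [him]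
    apply div_pos _ (Complex.normSq_pos.2 (hne a (Or.inl ha)))
    nlinarith [mul_pos (show 0 < u.re - a by linarith [hure.1]) (neg_pos.2 hv'),
      mul_pos hu' (show 0 < v.re - a by linarith [hvre.1])]
  rw [Complex.arg_neg_eq_arg_add_pi_of_im_neg i1,
    Complex.arg_neg_eq_arg_sub_pi_of_im_pos i2] at e4
  linarith [Real.pi_pos]

theorem sep (Θ : ℂ ≃ₜ ℝ × ℝ) {a b c m : ℝ} (ham : a < m) (hmb : m < b) {Z : Set ℂ}
    (hZ : IsCompact Z) (hZ' : IsPreconnected Z) (ha : Θ.symm (a, c) ∈ Z) (hb : Θ.symm (b, c) ∈ Z)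
    (hn : ∀ x ∈ Ioo a b, Θ.symm (x, c) ∉ Z) :
    ∃ ε > 0, ∀ u v : ℂ, dist (Θ u) (m, c) < ε → dist (Θ v) (m, c) < ε → c < (Θ u).2 →
      (Θ v).2 < c → ∀ B : Set ℂ, IsPreconnected B → Disjoint B Z →
        (∀ x ∈ Icc a b, Θ.symm (x, c) ∉ B) → ¬ (u ∈ B ∧ v ∈ B) := by
  set W : ℂ → ℂ := fun w => (((Θ w).1 - m : ℝ) : ℂ) + (((Θ w).2 - c : ℝ) : ℂ) * Complex.I with hW
  have hWc : Continuous W := by
    simp only [hW]
    fun_prop
  have hre : ∀ w, (W w).re = (Θ w).1 - m := fun w => by simp [hW]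
  have him : ∀ w, (W w).im = (Θ w).2 - c := fun w => by simp [hW]
  have hWi : Injective W := fun w w' h => by
    apply Θ.injective
    have h1 := congrArg Complex.re h
    have h2 := congrArg Complex.im h
    rw [hre, hre] at h1
    rw [him, him] at h2
    exact Prod.ext (by linarith) (by linarith)
  have hWs : ∀ x : ℝ, W (Θ.symm (x, c)) = ((x - m : ℝ) : ℂ) := fun x => by simp [hW]
  have hcl : IsCompact (W '' Z) := hZ.image hWc
  have h0 : (0 : ℂ) ∉ W '' Z := by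
    rintro ⟨w, hw, h⟩
    have h1 : W w = W (Θ.symm (m, c)) := by rw [h, hWs]; simp
    exact hn m ⟨ham, hmb⟩ (hWi h1 ▸ hw)
  obtain ⟨δ, hδ, hball⟩ := Metric.isOpen_iff.1 hcl.isClosed.isOpen_compl 0 h0
  have hsm : ∀ w, dist (Θ w) (m, c) < δ / 8 → ‖W w‖ < δ / 4 := by
    intro w hw
    rw [Prod.dist_eq, max_lt_iff, Real.dist_eq, Real.dist_eq] at hw
    have := Complex.norm_le_abs_re_add_abs_im (W w)
    rw [hre, him] at this
    linarith [hw.1, hw.2]
  refine ⟨δ / 8, by positivity, fun u v hu hv hu' hv' B hB hBZ hBs huv => ?_⟩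
  refine top2_jump (Z := W '' Z) (a := a - m) (b := b - m) (δ := δ) (u := W u) (v := W v)
    (hZ'.image _ hWc.continuousOn) (by linarith) (by linarith) ⟨_, ha, hWs a⟩ ⟨_, hb, hWs b⟩
    (fun w hw => ?_) (hsm u hu) (hsm v hv) (by rw [him]; linarith) (by rw [him]; linarith) ?_
  · by_contra h
    exact hball (mem_ball_zero_iff.2 (not_le.1 h)) hw
  · refine top2_conn (B := W '' B) ?_ (hB.image _ hWc.continuousOn) ?_ ⟨u, huv.1, rfl⟩
      ⟨v, huv.2, rfl⟩
    · exact (hcl.union (isCompact_Icc.image Complex.continuous_ofReal)).isClosed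
    · rintro _ ⟨w, hw, rfl⟩ (⟨w', hw', h⟩ | ⟨x, hx, h⟩)
      · exact disjoint_left.1 hBZ hw (hWi h ▸ hw')
      · have h1 : W (Θ.symm (x + m, c)) = W w := by
          rw [hWs, add_sub_cancel_right]
          exact h
        exact hBs (x + m) ⟨by linarith [hx.1], by linarith [hx.2]⟩ (hWi h1 ▸ hw)

theorem sepV (Θ : ℂ ≃ₜ ℝ × ℝ) {a b c m : ℝ} (ham : a < m) (hmb : m < b) {Z : Set ℂ}
    (hZ : IsCompact Z) (hZ' : IsPreconnected Z) (ha : Θ.symm (c, a) ∈ Z) (hb : Θ.symm (c, b) ∈ Z)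
    (hn : ∀ y ∈ Ioo a b, Θ.symm (c, y) ∉ Z) :
    ∃ ε > 0, ∀ u v : ℂ, dist (Θ u) (c, m) < ε → dist (Θ v) (c, m) < ε → c < (Θ u).1 →
      (Θ v).1 < c → ∀ B : Set ℂ, IsPreconnected B → Disjoint B Z →
        (∀ y ∈ Icc a b, Θ.symm (c, y) ∉ B) → ¬ (u ∈ B ∧ v ∈ B) := by
  obtain ⟨ε, hε, h⟩ := sep (Θ.trans (Homeomorph.prodComm ℝ ℝ)) (c := c) ham hmb hZ hZ' ha hb hn
  refine ⟨ε, hε, fun u v hu hv hu' hv' B hB hd hs => h u v ?_ ?_ hu' hv' B hB hd hs⟩
  · rw [Prod.dist_eq, max_comm] at hu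
    exact hu
  · rw [Prod.dist_eq, max_comm] at hv
    exact hv

theorem top2_cvx (Θ : ℂ ≃ₜ ℝ × ℝ) {s t : Set ℝ} (hs : OrdConnected s) (ht : OrdConnected t) :
    IsPreconnected (Θ ⁻¹' (s ×ˢ t)) :=
  (Θ.isPreconnected_preimage).2 (hs.isPreconnected.prod ht.isPreconnected)

theorem rc (Θ : ℂ ≃ₜ ℝ × ℝ) {x1 x2 y1 y2 : ℝ} (hx : x1 < x2) (hy : y1 < y2) {P P' : Set ℂ}
    (hP : IsCompact P) (hPc : IsPreconnected P) (hP' : IsCompact P') (hPc' : IsPreconnected P')
    (hs : ∀ w ∈ P ∪ P', Θ w ∈ Icc x1 x2 ×ˢ Icc y1 y2)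
    (h1 : ∃ w ∈ P, (Θ w).1 = x1) (h2 : ∃ w ∈ P, (Θ w).1 = x2)
    (h3 : ∃ w ∈ P', (Θ w).2 = y1) (h4 : ∃ w ∈ P', (Θ w).2 = y2) : (P ∩ P').Nonempty := by
  obtain ⟨p1, hp1, e1⟩ := h1
  obtain ⟨p2, hp2, e2⟩ := h2
  obtain ⟨p3, hp3, e3⟩ := h3
  obtain ⟨p4, hp4, e4⟩ := h4
  by_contra hne
  have hdis : ∀ w, w ∈ P → w ∈ P' → False := fun w h h' => hne ⟨w, h, h'⟩
  have k1 := hs p1 (Or.inl hp1)
  have k2 := hs p2 (Or.inl hp2)
  have k3 := hs p3 (Or.inr hp3)
  have k4 := hs p4 (Or.inr hp4)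
  simp only [mem_prod, mem_Icc] at k1 k2 k3 k4
  set A1 : Set ℂ := Θ ⁻¹' (Icc (x1 - 1) x1 ×ˢ Icc (Θ p1).2 (Θ p1).2) with hA1
  set A2 : Set ℂ := Θ ⁻¹' (Icc (x1 - 1) (x1 - 1) ×ˢ Icc (y1 - 1) (Θ p1).2) with hA2
  set A3 : Set ℂ := Θ ⁻¹' (Icc x2 (x2 + 1) ×ˢ Icc (Θ p2).2 (Θ p2).2) with hA3
  set A4 : Set ℂ := Θ ⁻¹' (Icc (x2 + 1) (x2 + 1) ×ˢ Icc (y1 - 1) (Θ p2).2) with hA4
  have hc : ∀ a b c d : ℝ, IsCompact (Θ ⁻¹' (Icc a b ×ˢ Icc c d)) := fun a b c d =>
    Θ.isCompact_preimage.2 (isCompact_Icc.prod isCompact_Icc)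
  have hk : ∀ a b c d : ℝ, IsPreconnected (Θ ⁻¹' (Icc a b ×ˢ Icc c d)) := fun a b c d =>
    top2_cvx Θ ordConnected_Icc ordConnected_Icc
  have hZc : IsPreconnected ((P ∪ (A1 ∪ A2)) ∪ (A3 ∪ A4)) := by
    refine IsPreconnected.union p2 (Or.inl hp2) (Or.inl ?_) ?_ ?_
    · simp [hA3, e2]
    · refine IsPreconnected.union p1 hp1 (Or.inl ?_) hPc ?_
      · simp [hA1, e1]
      · refine IsPreconnected.union (Θ.symm (x1 - 1, (Θ p1).2)) ?_ ?_ (hk _ _ _ _) (hk _ _ _ _)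
        · simp [hA1]
        · simp only [hA2, mem_preimage, Homeomorph.apply_symm_apply, mem_prod, mem_Icc, le_refl,
            and_self, and_true, true_and]
          linarith [k1.2.1]
    · refine IsPreconnected.union (Θ.symm (x2 + 1, (Θ p2).2)) ?_ ?_ (hk _ _ _ _) (hk _ _ _ _)
      · simp [hA3]
      · simp only [hA4, mem_preimage, Homeomorph.apply_symm_apply, mem_prod, mem_Icc, le_refl,
          and_self, and_true, true_and]
        linarith [k2.2.1]
  have hZm : ∀ w ∈ (P ∪ (A1 ∪ A2)) ∪ (A3 ∪ A4), (x1 - 1 ≤ (Θ w).1 ∧ (Θ w).1 ≤ x2 + 1) ∧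
      (y1 - 1 ≤ (Θ w).2 ∧ (Θ w).2 ≤ y2) ∧ (x1 - 1 < (Θ w).1 → (Θ w).1 < x2 + 1 → y1 ≤ (Θ w).2) ∧
      (x1 ≤ (Θ w).1 → (Θ w).1 ≤ x2 → w ∈ P) := by
    rintro w ((hw | hw | hw) | hw | hw)
    · have k := hs w (Or.inl hw)
      simp only [mem_prod, mem_Icc] at k
      exact ⟨⟨by linarith [k.1.1], by linarith [k.1.2]⟩, ⟨by linarith [k.2.1], k.2.2⟩,
        fun _ _ => k.2.1, fun _ _ => hw⟩
    · simp only [hA1, mem_preimage, mem_prod, mem_Icc] at hw
      refine ⟨⟨hw.1.1, by linarith [hw.1.2]⟩, ⟨by linarith [hw.2.1], by linarith [hw.2.2]⟩,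
        fun _ _ => by linarith [hw.2.1], fun h _ => ?_⟩
      have : w = p1 := Θ.injective (Prod.ext (by linarith [hw.1.2]) (le_antisymm hw.2.2 hw.2.1))
      exact this ▸ hp1
    · simp only [hA2, mem_preimage, mem_prod, mem_Icc] at hw
      exact ⟨⟨hw.1.1, by linarith [hw.1.2]⟩, ⟨hw.2.1, by linarith [hw.2.2]⟩,
        fun h _ => by linarith [hw.1.2], fun h _ => by linarith [hw.1.2]⟩
    · simp only [hA3, mem_preimage, mem_prod, mem_Icc] at hw
      refine ⟨⟨by linarith [hw.1.1], hw.1.2⟩, ⟨by linarith [hw.2.1], by linarith [hw.2.2]⟩,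
        fun _ _ => by linarith [hw.2.1], fun _ h => ?_⟩
      have : w = p2 := Θ.injective (Prod.ext (by linarith [hw.1.1]) (le_antisymm hw.2.2 hw.2.1))
      exact this ▸ hp2
    · simp only [hA4, mem_preimage, mem_prod, mem_Icc] at hw
      exact ⟨⟨by linarith [hw.1.1], hw.1.2⟩, ⟨hw.2.1, by linarith [hw.2.2]⟩,
        fun _ h => by linarith [hw.1.1], fun _ h => by linarith [hw.1.1]⟩
  obtain ⟨ε, hε, h⟩ := sep Θ (a := x1 - 1) (b := x2 + 1) (c := y1 - 1) (m := (Θ p3).1)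
    (by linarith [k3.1.1]) (by linarith [k3.1.2])
    ((hP.union ((hc _ _ _ _).union (hc _ _ _ _))).union ((hc _ _ _ _).union (hc _ _ _ _))) hZc
    (Or.inl (Or.inr (Or.inr (by
      simp only [mem_preimage, Homeomorph.apply_symm_apply, mem_prod, mem_Icc, le_refl, and_self,
        true_and]
      linarith [k1.2.1]))))
    (Or.inr (Or.inr (by
      simp only [mem_preimage, Homeomorph.apply_symm_apply, mem_prod, mem_Icc, le_refl, and_self,
        true_and]
      linarith [k2.2.1])))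
    (fun x hx' hw => by
      have := (hZm _ hw).2.2.1
      simp only [Homeomorph.apply_symm_apply] at this
      linarith [this hx'.1 hx'.2])
  set η := min (ε / 2) (1 / 2) with hη
  have hη0 : 0 < η := lt_min (half_pos hε) (by norm_num)
  have hη1 : η < ε := (min_le_left _ _).trans_lt (half_lt_self hε)
  have hη2 : η ≤ 1 / 2 := min_le_right _ _
  set B1 : Set ℂ := Θ ⁻¹' (Icc (Θ p3).1 (Θ p3).1 ×ˢ Icc (y1 - 1 + η) y1) with hB1
  set B2 : Set ℂ := Θ ⁻¹' (Icc (Θ p4).1 (Θ p4).1 ×ˢ Icc y2 (y2 + 1)) with hB2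
  set B3 : Set ℂ := Θ ⁻¹' (univ ×ˢ Ioi y2) with hB3
  set B4 : Set ℂ := Θ ⁻¹' (Ioi (x2 + 1) ×ˢ univ) with hB4
  set B5 : Set ℂ := Θ ⁻¹' (univ ×ˢ Iio (y1 - 1)) with hB5
  have hBm : ∀ w ∈ (P' ∪ B1) ∪ (B2 ∪ (B3 ∪ (B4 ∪ B5))), w ∈ P' ∨
      (x1 ≤ (Θ w).1 ∧ (Θ w).1 ≤ x2 ∧ y1 - 1 < (Θ w).2 ∧ (Θ w).2 < y1) ∨ y2 < (Θ w).2 ∨
      x2 + 1 < (Θ w).1 ∨ (Θ w).2 < y1 - 1 := by
    rintro w ((hw | hw) | hw | hw | hw | hw)
    · exact Or.inl hw
    · simp only [hB1, mem_preimage, mem_prod, mem_Icc] at hw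
      rcases hw.2.2.eq_or_lt with h' | h'
      · have : w = p3 := Θ.injective (Prod.ext (le_antisymm hw.1.2 hw.1.1) (by rw [h', e3]))
        exact Or.inl (this ▸ hp3)
      · exact Or.inr (Or.inl ⟨by linarith [hw.1.1, k3.1.1], by linarith [hw.1.2, k3.1.2],
          by linarith [hw.2.1], h'⟩)
    · simp only [hB2, mem_preimage, mem_prod, mem_Icc] at hw
      rcases hw.2.1.eq_or_lt with h' | h'
      · have : w = p4 := Θ.injective (Prod.ext (le_antisymm hw.1.2 hw.1.1) (by rw [← h', e4]))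
        exact Or.inl (this ▸ hp4)
      · exact Or.inr (Or.inr (Or.inl h'))
    · exact Or.inr (Or.inr (Or.inl hw.2))
    · exact Or.inr (Or.inr (Or.inr (Or.inl hw.1)))
    · exact Or.inr (Or.inr (Or.inr (Or.inr hw.2)))
  refine h (Θ.symm ((Θ p3).1, y1 - 1 + η)) (Θ.symm ((Θ p3).1, y1 - 1 - η)) ?_ ?_ ?_ ?_
    ((P' ∪ B1) ∪ (B2 ∪ (B3 ∪ (B4 ∪ B5)))) ?_ ?_ ?_ ⟨Or.inl (Or.inr ?_), ?_⟩
  · rw [Homeomorph.apply_symm_apply, Prod.dist_eq, dist_self, Real.dist_eq, add_sub_cancel_left,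
      abs_of_pos hη0]
    exact max_lt hε hη1
  · rw [Homeomorph.apply_symm_apply, Prod.dist_eq, dist_self, Real.dist_eq, sub_sub_cancel_left,
      abs_neg, abs_of_pos hη0]
    exact max_lt hε hη1
  · simp [hη0]
  · simp [hη0]
  · refine IsPreconnected.union p4 (Or.inl hp4) (Or.inl ?_) ?_ ?_
    · simp [hB2, e4]
    · refine IsPreconnected.union p3 hp3 ?_ hPc' (hk _ _ _ _)
      simp only [hB1, mem_preimage, mem_prod, mem_Icc, le_refl, and_self, true_and, e3, and_true]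
      linarith
    · refine IsPreconnected.union (Θ.symm ((Θ p4).1, y2 + 1)) (by simp [hB2])
        (Or.inl (by simp [hB3])) (hk _ _ _ _) ?_
      refine IsPreconnected.union (Θ.symm (x2 + 2, y2 + 1)) (by simp [hB3])
        (Or.inl (by simp [hB4])) (top2_cvx Θ ordConnected_univ ordConnected_Ioi) ?_
      exact IsPreconnected.union (Θ.symm (x2 + 2, y1 - 2)) (by simp [hB4]) (by
        simp only [hB5, mem_preimage, Homeomorph.apply_symm_apply, mem_prod, mem_univ, mem_Iio,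
          true_and]
        linarith) (top2_cvx Θ ordConnected_Ioi ordConnected_univ)
        (top2_cvx Θ ordConnected_univ ordConnected_Iio)
  · refine disjoint_left.2 fun w hw hw' => ?_
    obtain ⟨g1, g2, g3, g4⟩ := hZm w hw'
    rcases hBm w hw with k | k | k | k | k
    · have k' := hs w (Or.inr k)
      exact hdis w (g4 k'.1.1 k'.1.2) k
    · linarith [g3 (by linarith [k.1]) (by linarith [k.2.1]), k.2.2.2]
    · linarith [g2.2]
    · linarith [g1.2]
    · linarith [g2.1]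
  · intro x hx' hw
    rcases hBm _ hw with k | k | k | k | k
    · have k' := (hs _ (Or.inr k)).2.1
      simp only [Homeomorph.apply_symm_apply] at k'
      linarith
    all_goals simp only [Homeomorph.apply_symm_apply] at k
    · linarith [k.2.2.1]
    · linarith
    · linarith [hx'.2]
    · linarith
  · simp only [hB1, mem_preimage, Homeomorph.apply_symm_apply, mem_prod, mem_Icc, le_refl,
      and_self, true_and]
    linarith
  · refine Or.inr (Or.inr (Or.inr (Or.inr ?_)))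
    simp [hB5, hη0]

end Pool.Agent.Lib.MP_3fe454_an.S2
end

-- part Pool.Agent.Lib.MP_3fe454_an.S2.Top3
section

/-!
Complementary components of forward invariant compact sets, and subpaths.
-/

set_option autoImplicit false

open Set Metric Filter Topology Function

namespace Pool.Agent.Lib.MP_3fe454_an.S2

open PD

theorem top3_out : IsPreconnected (ball (0 : ℂ) 1)ᶜ := by
  have h : (ball (0 : ℂ) 1)ᶜ = (fun p : ℂ × ℝ => p.2 • p.1) '' (sphere 0 1 ×ˢ Ici 1) := by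
    ext z
    simp only [mem_compl_iff, mem_ball_zero_iff, not_lt, mem_image, mem_prod, mem_sphere_zero_iff_norm,
      mem_Ici, Prod.exists]
    constructor
    · intro hz
      have h0 : ‖z‖ ≠ 0 := by linarith
      refine ⟨‖z‖⁻¹ • z, ‖z‖, ⟨?_, hz⟩, ?_⟩
      · rw [norm_smul, norm_inv, norm_norm, inv_mul_cancel₀ h0]
      · rw [smul_smul, mul_inv_cancel₀ h0, one_smul]
    · rintro ⟨a, t, ⟨ha, ht⟩, rfl⟩
      rw [norm_smul, ha, mul_one, Real.norm_eq_abs]
      exact ht.trans (le_abs_self t)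
  rw [h]
  refine ((isPreconnected_sphere ?_ 0 1).prod isPreconnected_Ici).image _ (by fun_prop)
  rw [Complex.rank_real_complex]
  norm_num

theorem top3_img (F : Dis) {M : ℕ} {K : Set ℂ} (hK : IsCompact K) (hm : MapsTo F.f^[M] K K)
    {y : ℂ} (hy : y ∉ K) (hU : connectedComponentIn Kᶜ y ⊆ ball 0 1) {C : Set ℂ}
    (hC : IsPreconnected C) (hCK : C ⊆ Kᶜ)
    (hne : (C ∩ F.f^[M] '' connectedComponentIn Kᶜ y).Nonempty) :
    C ⊆ F.f^[M] '' connectedComponentIn Kᶜ y := by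
  refine hC.subset_of_closure_inter_subset
    (open_iter F M hK.isClosed.isOpen_compl.connectedComponentIn hU) hne ?_
  rintro z ⟨hz, hzC⟩
  have h1 : IsCompact (closure (connectedComponentIn Kᶜ y)) :=
    (isBounded_ball.subset hU).isCompact_closure
  have h2 := closure_minimal (image_mono subset_closure) (h1.image (F.cf.iterate M)).isClosed hz
  obtain ⟨w, hw, rfl⟩ := h2
  refine ⟨w, ?_, rfl⟩
  have hwK : w ∉ K := fun k => hCK hzC (hm k)
  have h3 : IsPreconnected (insert w (connectedComponentIn Kᶜ y)) :=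
    isPreconnected_connectedComponentIn.subset_closure (subset_insert _ _)
      (insert_subset hw subset_closure)
  exact h3.subset_connectedComponentIn (Or.inr (mem_connectedComponentIn hy))
    (insert_subset hwK (connectedComponentIn_subset _ _)) (mem_insert _ _)

theorem comp_inv (F : Dis) {M : ℕ} (hM : 0 < M) {K : Set ℂ} (hK : IsCompact K)
    (hs : K ⊆ ball 0 1) (hm : MapsTo F.f^[M] K K) {x : ℂ} (hx : x ∈ Disc)
    (hx' : F.f^[M] x ∈ connectedComponentIn Kᶜ x) :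
    MapsTo F.f^[M] (connectedComponentIn Kᶜ x)ᶜ (connectedComponentIn Kᶜ x)ᶜ := by
  have hxK : x ∉ K := connectedComponentIn_nonempty_iff.1 ⟨_, hx'⟩
  have hxV := mem_connectedComponentIn (F := Kᶜ) hxK
  have hVK := connectedComponentIn_subset Kᶜ x
  have hout : (ball (0 : ℂ) 1)ᶜ ⊆ connectedComponentIn Kᶜ x := by
    have h1 : ¬ connectedComponentIn Kᶜ x ⊆ ball 0 1 := by
      intro hV
      have h2 := top3_img F hK hm hxK hV isPreconnected_connectedComponentIn hVK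
        ⟨_, hx', x, hxV, rfl⟩
      refine open_not_sub F hK.isClosed.isOpen_compl.connectedComponentIn ⟨x, hxV⟩
        (subset_iInter fun n => ?_)
      have h3 : ∀ k : ℕ, connectedComponentIn Kᶜ x ⊆ F.Ω (M * k) := by
        intro k
        induction k with
        | zero => exact fun z hz => ⟨z, ball_subset_closedBall (hV hz), rfl⟩
        | succ k ih =>
          intro z hz
          obtain ⟨w, hw, rfl⟩ := h2 hz
          obtain ⟨u, hu, rfl⟩ := ih hw
          exact ⟨u, hu, by rw [Nat.mul_succ, add_comm, iterate_add_apply]⟩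
      exact (h3 n).trans (F.Ω_anti (Nat.le_mul_of_pos_left n hM))
    obtain ⟨z, hz, hz'⟩ := not_subset.1 h1
    rw [connectedComponentIn_eq hz]
    exact top3_out.subset_connectedComponentIn hz' (compl_subset_compl.2 hs)
  intro w hw hw'
  have hwK : w ∉ K := fun k => hVK hw' (hm k)
  have hU : connectedComponentIn Kᶜ w ⊆ ball 0 1 := by
    intro z hz
    by_contra hz'
    apply hw
    rw [connectedComponentIn_eq (hout hz'), ← connectedComponentIn_eq hz]
    exact mem_connectedComponentIn hwK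
  have h2 := top3_img F hK hm hwK hU isPreconnected_connectedComponentIn hVK
    ⟨_, hw', w, mem_connectedComponentIn hwK, rfl⟩
  obtain ⟨u, hu, e⟩ := h2 (hout (show (2 : ℂ) ∈ (ball (0 : ℂ) 1)ᶜ by simp))
  have h3 := F.iter_mem_Disc (ball_subset_closedBall (hU hu)) M
  rw [e] at h3
  norm_num at h3

theorem top3_first {l : ℝ → ℝ} {a b α : ℝ} (hl : ContinuousOn l (uIcc a b)) (ha : α ≤ l a)
    (hb : l b ≤ α) : ∃ b' ∈ uIcc a b, l b' = α ∧ ∀ t ∈ uIcc a b', α ≤ l t := by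
  have hc : IsCompact (uIcc a b ∩ l ⁻¹' {α}) :=
    isCompact_uIcc.of_isClosed_subset
      (hl.preimage_isClosed_of_isClosed isClosed_Icc isClosed_singleton) inter_subset_left
  obtain ⟨t0, ht0, e0⟩ := intermediate_value_uIcc hl (mem_uIcc.2 (Or.inr ⟨hb, ha⟩))
  obtain ⟨b', hb', hmin⟩ := hc.exists_isMinOn ⟨t0, ht0, e0⟩
    (show ContinuousOn (fun t : ℝ => |t - a|) _ by fun_prop)
  refine ⟨b', hb'.1, hb'.2, fun t ht => ?_⟩
  by_contra h
  have s1 : uIcc a t ⊆ uIcc a b := uIcc_subset_uIcc_left (uIcc_subset_uIcc_left hb'.1 ht)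
  obtain ⟨t', ht', e'⟩ := intermediate_value_uIcc (hl.mono s1)
    (mem_uIcc.2 (Or.inr ⟨(not_le.1 h).le, ha⟩))
  have h1 : |b' - a| ≤ |t' - a| := hmin ⟨s1 ht', e'⟩
  have h2 : t = b' := by
    rw [mem_uIcc] at ht ht'
    rcases abs_cases (b' - a) with k | k <;> rcases abs_cases (t' - a) with k' | k' <;>
      rcases ht with ht | ht <;> rcases ht' with ht' | ht' <;>
      linarith [k.1, k.2, k'.1, k'.2, ht.1, ht.2, ht'.1, ht'.2]
  rw [h2, show l b' = α from hb'.2] at h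
  exact h le_rfl

theorem sub_path {l : ℝ → ℝ} {a b α β : ℝ} (hl : ContinuousOn l (uIcc a b)) (h : α ≤ β)
    (ha : l a ≤ α) (hb : β ≤ l b) :
    ∃ a' ∈ uIcc a b, ∃ b' ∈ uIcc a b, l a' = α ∧ l b' = β ∧
      ∀ t ∈ uIcc a' b', α ≤ l t ∧ l t ≤ β := by
  obtain ⟨b', hb', e1, h1⟩ := top3_first (l := fun t => -l t) (α := -β) hl.neg
    (by linarith) (by linarith)
  have e1' : l b' = β := neg_injective e1
  have s1 : uIcc b' a ⊆ uIcc a b := by
    rw [uIcc_comm]
    exact uIcc_subset_uIcc_left hb'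
  obtain ⟨a', ha', e2, h2⟩ := top3_first (α := α) (hl.mono s1) (by linarith) ha
  refine ⟨a', s1 ha', b', hb', e2, e1', fun t ht => ?_⟩
  rw [uIcc_comm] at ht
  refine ⟨h2 t ht, neg_le_neg_iff.1 (h1 t ?_)⟩
  rw [uIcc_comm]
  exact uIcc_subset_uIcc_left ha' ht

/-- first time at which a continuous function reaches a value from above -/
theorem first_le {l : ℝ → ℝ} {a b α : ℝ} (hl : ContinuousOn l (uIcc a b)) (ha : α ≤ l a)
    (hb : l b ≤ α) : ∃ b' ∈ uIcc a b, l b' = α ∧ ∀ t ∈ uIcc a b', α ≤ l t :=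
  top3_first hl ha hb

/-- a minimal repetition in a sequence of labels -/
theorem min_repeat {α : Type} (lab : ℕ → α) {i j : ℕ} (hij : i < j) (h : lab i = lab j) :
    ∃ i0 k, 0 < k ∧ i ≤ i0 ∧ i0 + k ≤ j ∧ lab i0 = lab (i0 + k) ∧
      ∀ a < k, ∀ b < k, lab (i0 + a) = lab (i0 + b) → a = b := by
  classical
  have hex : ∃ k, ∃ i0, 0 < k ∧ i ≤ i0 ∧ i0 + k ≤ j ∧ lab i0 = lab (i0 + k) :=
    ⟨j - i, i, by omega, le_rfl, by omega, by rwa [show i + (j - i) = j by omega]⟩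
  obtain ⟨i0, h1, h2, h3, h4⟩ := Nat.find_spec hex
  have key : ∀ a b, a < b → b < Nat.find hex → lab (i0 + a) ≠ lab (i0 + b) := fun a b hab hb e =>
    Nat.find_min hex (m := b - a) (by omega) ⟨i0 + a, by omega, by omega, by omega,
      by rwa [show i0 + a + (b - a) = i0 + b by omega]⟩
  refine ⟨i0, _, h1, h2, h3, h4, fun a ha b hb e => ?_⟩
  rcases lt_trichotomy a b with k | k | k
  · exact absurd e (key a b k hb)
  · exact k
  · exact absurd e.symm (key b a k ha)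

/-- the number of letters true in a window -/
def top3C (ω : ℕ → Bool) (m n : ℕ) : ℤ := ∑ i ∈ Finset.range n, if ω (m + i) then 1 else 0

/-- balanced sequences of slope a -/
def top3S (a : ℝ) : Set (ℕ → Bool) := {ω | ∀ m n : ℕ, |(top3C ω m n : ℝ) - a * n| ≤ 1}

theorem top3C_succ (ω : ℕ → Bool) (m n : ℕ) :
    top3C ω m (n + 1) = top3C ω m n + if ω (m + n) then 1 else 0 :=
  Finset.sum_range_succ _ _

theorem top3S_closed (a : ℝ) : IsClosed (top3S a) := by
  simp only [top3S, ofPred_forall]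
  refine isClosed_iInter fun m => isClosed_iInter fun n => isClosed_le ?_ continuous_const
  have h : Continuous fun ω : ℕ → Bool => top3C ω m n :=
    continuous_finsetSum _ fun i _ =>
      (continuous_of_discreteTopology (f := fun j : Bool => if j then (1 : ℤ) else 0)).comp
        (continuous_apply (m + i))
  exact (((continuous_of_discreteTopology (f := fun z : ℤ => (z : ℝ))).comp h).sub
    continuous_const).abs

theorem top3S_ne {a : ℝ} (h0 : 0 ≤ a) (h1 : a < 1) : (top3S a).Nonempty := by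
  refine ⟨fun i => decide (⌊a * i⌋ < ⌊a * (i + 1 : ℕ)⌋), fun m n => ?_⟩
  have h : top3C (fun i => decide (⌊a * i⌋ < ⌊a * (i + 1 : ℕ)⌋)) m n =
      ⌊a * (m + n : ℕ)⌋ - ⌊a * m⌋ := by
    induction n with
    | zero => simp [top3C]
    | succ n ih =>
      rw [top3C_succ, ih, ← add_assoc]
      have k1 : ⌊a * (m + n : ℕ)⌋ ≤ ⌊a * (m + n + 1 : ℕ)⌋ :=
        Int.floor_le_floor (by push_cast; nlinarith)
      have k2 : ⌊a * (m + n + 1 : ℕ)⌋ ≤ ⌊a * (m + n : ℕ)⌋ + 1 := by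
        rw [← Int.floor_add_one]
        exact Int.floor_le_floor (by push_cast; nlinarith)
      simp only [decide_eq_true_eq]
      split_ifs <;> omega
  rw [h, abs_le]
  push_cast
  constructor <;> nlinarith [Int.floor_le (a * (m + n)), Int.lt_floor_add_one (a * (m + n)),
    Int.floor_le (a * m), Int.lt_floor_add_one (a * m)]

theorem top3S_aper {a : ℝ} (ha : Irrational a) {ω : ℕ → Bool} (hω : ω ∈ top3S a) {p : ℕ}
    (hp : 0 < p) (h : ∀ i, ω (i + p) = ω i) : False := by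
  have h1 : ∀ k i, ω (p * k + i) = ω i := by
    intro k i
    induction k with
    | zero => simp
    | succ k ih => rw [show p * (k + 1) + i = p * k + i + p by ring, h, ih]
  have h2 : ∀ k : ℕ, top3C ω 0 (p * k) = k * top3C ω 0 p := by
    intro k
    induction k with
    | zero => simp [top3C]
    | succ k ih =>
      rw [Nat.mul_succ, top3C, Finset.sum_range_add, ← top3C, ih]
      simp only [zero_add, h1]
      simp only [top3C, zero_add]
      push_cast
      ring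
  have h3 : (top3C ω 0 p : ℝ) - a * p ≠ 0 := fun e =>
    (ha.mul_natCast hp.ne').ne_int (top3C ω 0 p) (by linarith)
  obtain ⟨k, hk⟩ := exists_nat_gt (1 / |(top3C ω 0 p : ℝ) - a * p|)
  have h4 := hω 0 (p * k)
  rw [h2] at h4
  push_cast at h4
  rw [show (k : ℝ) * top3C ω 0 p - a * (p * k) = k * (top3C ω 0 p - a * p) by ring, abs_mul,
    Nat.abs_cast] at h4
  rw [div_lt_iff₀ (abs_pos.2 h3)] at hk
  linarith

theorem chaos {X : Type} [TopologicalSpace X] [T2Space X] (Φ : X → X) (hΦ : Continuous Φ)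
    (D : Bool → Set X) (hc : ∀ j, IsCompact (D j)) (hd : Disjoint (D true) (D false))
    (𝒳 : Set (Set X)) (hne : 𝒳.Nonempty)
    (h : ∀ E ∈ 𝒳, ∀ j, ∃ E', IsCompact E' ∧ E'.Nonempty ∧ E' ⊆ E ∩ D j ∧ Φ '' E' ∈ 𝒳) :
    ∃ K, IsCompact K ∧ K.Nonempty ∧ K ⊆ D true ∪ D false ∧ MapsTo Φ K K ∧
      ∀ x ∈ K, x ∉ periodicPts Φ := by
  have ha : Irrational (√2 - 1) := by simpa using irrational_sqrt_two.sub_natCast 1
  have h0 : (0 : ℝ) ≤ √2 - 1 := by linarith [Real.one_lt_sqrt_two]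
  have h1 : (√2 - 1 : ℝ) < 1 := by linarith [Real.sqrt_two_lt_three_halves]
  set Z : Set (X × (ℕ → Bool)) := {q | q.2 ∈ top3S (√2 - 1) ∧ ∀ n, Φ^[n] q.1 ∈ D (q.2 n)} with hZ
  have hsub : ∀ q ∈ Z, q.1 ∈ D true ∪ D false := fun q hq => by
    have := hq.2 0
    cases e : q.2 0 <;> rw [e] at this
    · exact Or.inr this
    · exact Or.inl this
  have hcl : IsClosed Z := by
    refine ((top3S_closed _).preimage continuous_snd).inter ?_
    have e : {q : X × (ℕ → Bool) | ∀ n, Φ^[n] q.1 ∈ D (q.2 n)} =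
        ⋂ n, ⋃ j : Bool, (Φ^[n] ⁻¹' D j) ×ˢ {ω | ω n = j} := by
      ext q
      simp
    change IsClosed {q : X × (ℕ → Bool) | ∀ n, Φ^[n] q.1 ∈ D (q.2 n)}
    rw [e]
    exact isClosed_iInter fun n => isClosed_iUnion_of_finite fun j =>
      ((hc j).isClosed.preimage (hΦ.iterate n)).prod
        (isClosed_eq (continuous_apply n) continuous_const)
  have hZc : IsCompact Z := (((hc true).union (hc false)).prod isCompact_univ).of_isClosed_subset
    hcl fun q hq => ⟨hsub q hq, mem_univ _⟩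
  refine ⟨Prod.fst '' Z, hZc.image continuous_fst, ?_, ?_, ?_, ?_⟩
  · obtain ⟨ω, hω⟩ := top3S_ne h0 h1
    have key : ∀ n, ∃ E ∈ 𝒳, ∀ y ∈ E, ∃ x, Φ^[n] x = y ∧ ∀ i < n, Φ^[i] x ∈ D (ω i) := by
      intro n
      induction n with
      | zero =>
        obtain ⟨E, hE⟩ := hne
        exact ⟨E, hE, fun y _ => ⟨y, rfl, fun i hi => absurd hi (Nat.not_lt_zero i)⟩⟩
      | succ n ih =>
        obtain ⟨E, hE, ih⟩ := ih
        obtain ⟨E', -, -, k1, k2⟩ := h E hE (ω n)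
        refine ⟨_, k2, ?_⟩
        rintro _ ⟨y, hy, rfl⟩
        obtain ⟨x, e, hx⟩ := ih y (k1 hy).1
        refine ⟨x, by rw [iterate_succ_apply', e], fun i hi => ?_⟩
        rcases (Nat.lt_succ_iff.1 hi).eq_or_lt with rfl | k
        · rw [e]
          exact (k1 hy).2
        · exact hx i k
    obtain ⟨x, hx⟩ := IsCompact.nonempty_iInter_of_sequence_nonempty_isCompact_isClosed
      (fun n => ⋂ i ∈ Iic n, Φ^[i] ⁻¹' D (ω i))
      (fun n => biInter_subset_biInter_left (Iic_subset_Iic.2 (Nat.le_succ n)))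
      (fun n => by
        obtain ⟨E, hE, k⟩ := key (n + 1)
        obtain ⟨E', -, ⟨y, hy⟩, k1, -⟩ := h E hE true
        obtain ⟨x, -, hx⟩ := k y (k1 hy).1
        exact ⟨x, mem_iInter₂.2 fun i hi => hx i (Nat.lt_succ_iff.2 hi)⟩)
      (by simpa using hc (ω 0))
      (fun n => isClosed_biInter fun i _ => (hc _).isClosed.preimage (hΦ.iterate i))
    exact ⟨x, (x, ω), ⟨hω, fun n => mem_iInter₂.1 (mem_iInter.1 hx n) n (mem_Iic.2 le_rfl)⟩, rfl⟩
  · rintro _ ⟨q, hq, rfl⟩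
    exact hsub q hq
  · rintro _ ⟨q, hq, rfl⟩
    refine ⟨(Φ q.1, fun n => q.2 (n + 1)), ⟨fun m n => ?_, fun n => hq.2 (n + 1)⟩, rfl⟩
    have := hq.1 (m + 1) n
    simpa only [top3C, add_right_comm m 1] using this
  · rintro _ ⟨q, hq, rfl⟩ ⟨p, hp, hper⟩
    refine top3S_aper ha hq.1 hp fun i => ?_
    have k1 := hq.2 i
    have k2 := hq.2 (i + p)
    rw [iterate_add_apply, hper.eq] at k2
    by_contra hn
    cases e1 : q.2 i <;> cases e2 : q.2 (i + p) <;> rw [e1] at k1 <;> rw [e2] at k2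
    · exact hn (e2.trans e1.symm)
    · exact disjoint_left.1 hd k2 k1
    · exact disjoint_left.1 hd k1 k2
    · exact hn (e2.trans e1.symm)

end Pool.Agent.Lib.MP_3fe454_an.S2
end

-- part Pool.Agent.Lib.MP_3fe454_an.S2.Mdl1
section

/-!
The model map is a homeomorphism; cones; strong stable leaves.
-/

set_option autoImplicit false

open Set Metric Filter Topology Function

namespace Pool.Agent.Lib.MP_3fe454_an.S2

open PD

theorem mdl_geom {a C ρ σ : ℝ} (ha : 0 < a) (hρ : 0 ≤ ρ) (hρσ : ρ < σ)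
    (h : ∀ k : ℕ, σ ^ k * a ≤ C * ρ ^ k) : False := by
  have hσ : 0 < σ := hρ.trans_lt hρσ
  have h1 : Tendsto (fun k : ℕ => C * (ρ / σ) ^ k) atTop (𝓝 (C * 0)) :=
    (tendsto_pow_atTop_nhds_zero_of_lt_one (div_nonneg hρ hσ.le)
      ((div_lt_one hσ).2 hρσ)).const_mul C
  rw [mul_zero] at h1
  refine absurd (ge_of_tendsto' h1 fun k => ?_) (not_le.2 ha)
  rw [div_pow, ← mul_div_assoc, le_div_iff₀ (pow_pos hσ k), mul_comm]
  exact h k

theorem mdl_norm1 {d : ℝ × ℝ} (h : |d.2| ≤ |d.1|) : ‖d‖ = |d.1| := by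
  rw [Prod.norm_def, Real.norm_eq_abs, Real.norm_eq_abs, max_eq_left h]

theorem mdl_norm2 {d : ℝ × ℝ} (h : |d.1| ≤ |d.2|) : ‖d‖ = |d.2| := by
  rw [Prod.norm_def, Real.norm_eq_abs, Real.norm_eq_abs, max_eq_right h]

namespace Mdl

variable (m : Mdl)

theorem l_pos : 0 < m.l := m.e_pos.trans m.e_lt

theorem le_pos : 0 < m.l + m.e := add_pos m.l_pos m.e_pos

theorem gap : m.l + m.e < m.s - m.e := by linarith [m.dom, m.e_pos]

theorem se_pos : 0 < m.s - m.e := m.le_pos.trans m.gap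

theorem c1 (u v : ℝ × ℝ) : |(m.H u - m.H v).1 - m.s * (u - v).1| ≤ m.e * ‖u - v‖ :=
  (norm_fst_le _).trans (m.lip u v)

theorem c2 (u v : ℝ × ℝ) : |(m.H u - m.H v).2 - m.l * (u - v).2| ≤ m.e * ‖u - v‖ :=
  (norm_snd_le _).trans (m.lip u v)

theorem homeo : ∃ H : ℝ × ℝ ≃ₜ ℝ × ℝ, ⇑H = m.H := by
  have hl := m.l_pos
  have hs : 0 < m.s := by linarith [m.one_le]
  let A : (ℝ × ℝ) →L[ℝ] ℝ × ℝ :=
    (m.s • ContinuousLinearMap.fst ℝ ℝ ℝ).prod (m.l • ContinuousLinearMap.snd ℝ ℝ ℝ)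
  let B : (ℝ × ℝ) →L[ℝ] ℝ × ℝ :=
    (m.s⁻¹ • ContinuousLinearMap.fst ℝ ℝ ℝ).prod (m.l⁻¹ • ContinuousLinearMap.snd ℝ ℝ ℝ)
  let D : (ℝ × ℝ) ≃L[ℝ] ℝ × ℝ := ContinuousLinearEquiv.equivOfInverse A B
    (fun u => by simp [A, B, hl.ne', hs.ne']) (fun u => by simp [A, B, hl.ne', hs.ne'])
  have h1 : ApproximatesLinearOn m.H (D : (ℝ × ℝ) →L[ℝ] ℝ × ℝ) univ ⟨m.e, m.e_pos.le⟩ :=
    fun u _ v _ => m.lip u v
  have h2 : ‖B‖ ≤ m.l⁻¹ := by
    refine B.opNorm_le_bound (by positivity) fun u => ?_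
    have k : m.s⁻¹ ≤ m.l⁻¹ := inv_anti₀ hl (by linarith [m.dom, m.e_pos])
    change ‖(m.s⁻¹ * u.1, m.l⁻¹ * u.2)‖ ≤ _
    rw [Prod.norm_def, norm_mul, norm_mul, Real.norm_of_nonneg (inv_pos.2 hs).le,
      Real.norm_of_nonneg (inv_pos.2 hl).le]
    exact max_le (mul_le_mul k (norm_fst_le u) (norm_nonneg _) (by positivity))
      (mul_le_mul_of_nonneg_left (norm_snd_le u) (by positivity))
  refine ⟨h1.toHomeomorph m.H (Or.inr ?_), rfl⟩
  have h3 : 0 < ‖(D.symm : (ℝ × ℝ) →L[ℝ] ℝ × ℝ)‖ := D.norm_symm_pos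
  rw [← NNReal.coe_lt_coe, NNReal.coe_inv, coe_nnnorm]
  refine m.e_lt.trans_le ?_
  rw [le_inv_comm₀ hl h3]
  exact h2

theorem lipH (u v : ℝ × ℝ) : ‖m.H u - m.H v‖ ≤ (m.s + m.e) * ‖u - v‖ := by
  have h1 := abs_le.1 (m.c1 u v)
  have h2 := abs_le.1 (m.c2 u v)
  have h3 := abs_le.1 (show |(u - v).1| ≤ ‖u - v‖ from norm_fst_le (u - v))
  have h4 := abs_le.1 (show |(u - v).2| ≤ ‖u - v‖ from norm_snd_le (u - v))
  have hl := m.l_pos
  have hs : m.l ≤ m.s := by linarith [m.dom, m.e_pos]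
  rw [Prod.norm_def, Real.norm_eq_abs, Real.norm_eq_abs, max_le_iff, abs_le, abs_le]
  refine ⟨⟨?_, ?_⟩, ?_, ?_⟩ <;> nlinarith [h1.1, h1.2, h2.1, h2.2, h3.1, h3.2, h4.1, h4.2]

theorem cont : Continuous m.H := by
  obtain ⟨H, h⟩ := m.homeo
  exact h ▸ H.continuous

theorem hor (u v : ℝ × ℝ) (h : |(u - v).2| ≤ |(u - v).1|) :
    (m.s - m.e) * |(u - v).1| ≤ |(m.H u - m.H v).1| ∧
      |(m.H u - m.H v).2| ≤ (m.l + m.e) * |(u - v).1| ∧
      (0 < (u - v).1 → 0 < (m.H u - m.H v).1) ∧ ((u - v).1 < 0 → (m.H u - m.H v).1 < 0) := by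
  have h1 := abs_le.1 (m.c1 u v)
  have h2 := abs_le.1 (m.c2 u v)
  rw [mdl_norm1 h] at h1 h2
  have h3 := abs_le.1 h
  have hl := m.l_pos
  have hs := m.se_pos
  refine ⟨?_, abs_le.2 ⟨by nlinarith [h2.1, h3.1], by nlinarith [h2.2, h3.2]⟩, fun k => ?_,
    fun k => ?_⟩
  · rcases le_total 0 (u - v).1 with k | k
    · rw [abs_of_nonneg k] at h1 ⊢
      exact le_trans (by linarith [h1.1]) (le_abs_self _)
    · rw [abs_of_nonpos k] at h1 ⊢
      exact le_trans (by linarith [h1.2]) (neg_le_abs _)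
  · rw [abs_of_pos k] at h1
    nlinarith [h1.1]
  · rw [abs_of_neg k] at h1
    nlinarith [h1.2]

theorem ver (u v : ℝ × ℝ) (h : |(u - v).1| ≤ |(u - v).2|) :
    (m.l - m.e) * |(u - v).2| ≤ |(m.H u - m.H v).2| ∧
      |(m.H u - m.H v).2| ≤ (m.l + m.e) * |(u - v).2| ∧
      (0 < (u - v).2 → 0 < (m.H u - m.H v).2) := by
  have h2 := abs_le.1 (m.c2 u v)
  rw [mdl_norm2 h] at h2
  have hl := m.l_pos
  have he := m.e_lt
  refine ⟨?_, abs_le.2 ⟨by nlinarith [h2.1, neg_abs_le (u - v).2],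
    by nlinarith [h2.2, le_abs_self (u - v).2]⟩, fun k => ?_⟩
  · rcases le_total 0 (u - v).2 with k | k
    · rw [abs_of_nonneg k] at h2 ⊢
      exact le_trans (by linarith [h2.1]) (le_abs_self _)
    · rw [abs_of_nonpos k] at h2 ⊢
      exact le_trans (by linarith [h2.2]) (neg_le_abs _)
  · rw [abs_of_pos k] at h2
    nlinarith [h2.1]

theorem hor1 {u v : ℝ × ℝ} (h : |(u - v).2| ≤ |(u - v).1|) :
    |(m.H u - m.H v).2| ≤ |(m.H u - m.H v).1| := by
  obtain ⟨h1, h2, -⟩ := m.hor u v h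
  nlinarith [m.gap, abs_nonneg (u - v).1]

theorem hor_iter {u v : ℝ × ℝ} (h : |(u - v).2| ≤ |(u - v).1|) (n : ℕ) :
    |(m.H^[n] u - m.H^[n] v).2| ≤ |(m.H^[n] u - m.H^[n] v).1| ∧
      (m.s - m.e) ^ n * |(u - v).1| ≤ |(m.H^[n] u - m.H^[n] v).1| ∧
      (0 < (u - v).1 → 0 < (m.H^[n] u - m.H^[n] v).1) ∧
      ((u - v).1 < 0 → (m.H^[n] u - m.H^[n] v).1 < 0) := by
  induction n with
  | zero => exact ⟨h, by simp, id, id⟩
  | succ n ih =>
    obtain ⟨i1, i2, i3, i4⟩ := ih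
    obtain ⟨h1, -, h3, h4⟩ := m.hor _ _ i1
    simp only [iterate_succ_apply']
    refine ⟨m.hor1 i1, le_trans ?_ h1, fun k => h3 (i3 k), fun k => h4 (i4 k)⟩
    rw [pow_succ', mul_assoc]
    exact mul_le_mul_of_nonneg_left i2 m.se_pos.le

theorem Ver.bound {m : Mdl} {u v : ℝ × ℝ} (h : m.Ver u v) (n : ℕ) :
    ‖m.H^[n] u - m.H^[n] v‖ ≤ ‖u - v‖ * (m.l + m.e) ^ n := by
  induction n with
  | zero => simp
  | succ n ih =>
    rw [mdl_norm2 (h n)] at ih
    rw [mdl_norm2 (h (n + 1)), iterate_succ_apply', iterate_succ_apply', pow_succ, ← mul_assoc,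
      mul_comm]
    exact (m.ver _ _ (h n)).2.1.trans (mul_le_mul_of_nonneg_left ih m.le_pos.le)

theorem Ver_of_bound {u v : ℝ × ℝ} {C : ℝ}
    (h : ∀ n, ‖m.H^[n] u - m.H^[n] v‖ ≤ C * (m.l + m.e) ^ n) : m.Ver u v := by
  intro n
  by_contra hn
  rw [not_le] at hn
  refine mdl_geom ((abs_nonneg _).trans_lt hn) m.le_pos.le m.gap (C := C * (m.l + m.e) ^ n)
    fun k => ((m.hor_iter hn.le k).2.1.trans
      (norm_fst_le (m.H^[k] (m.H^[n] u) - m.H^[k] (m.H^[n] v)))).trans ?_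
  rw [← iterate_add_apply, ← iterate_add_apply, mul_assoc, ← pow_add, add_comm n k]
  exact h _

theorem Ver_refl (u : ℝ × ℝ) : m.Ver u u := fun n => by simp

theorem Ver_symm {u v : ℝ × ℝ} (h : m.Ver u v) : m.Ver v u := fun n => by
  rw [← neg_sub, Prod.fst_neg, Prod.snd_neg, abs_neg, abs_neg]
  exact h n

theorem Ver_trans {u v w : ℝ × ℝ} (h : m.Ver u v) (h' : m.Ver v w) : m.Ver u w := by
  refine m.Ver_of_bound (C := ‖u - v‖ + ‖v - w‖) fun n => ?_
  rw [add_mul]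
  exact (norm_sub_le_norm_sub_add_norm_sub _ (m.H^[n] v) _).trans
    (add_le_add (h.bound n) (h'.bound n))

theorem Ver_iff (u v : ℝ × ℝ) : m.Ver (m.H u) (m.H v) ↔ m.Ver u v := by
  refine ⟨fun h n => ?_, fun h n => h (n + 1)⟩
  cases n with
  | succ n => exact h n
  | zero =>
    by_contra hn
    rw [not_le] at hn
    obtain ⟨h1, h2, -⟩ := m.hor u v hn.le
    have h3 : |(m.H u - m.H v).1| ≤ |(m.H u - m.H v).2| := h 0
    have h4 : 0 < |(u - v).1| := (abs_nonneg _).trans_lt hn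
    nlinarith [m.gap]

theorem Ver_strong {u v : ℝ × ℝ} (h : m.Ver u v) :
    (m.s - m.e) * |(u - v).1| ≤ (m.l + m.e) * |(u - v).2| := by
  have hs : 0 < m.s := by linarith [m.one_le]
  have he := m.e_pos
  have hl := m.l_pos
  have hse := m.se_pos
  have key : ∀ (n : ℕ) (u v : ℝ × ℝ), m.Ver u v → (m.s - m.e) * |(u - v).1| ≤
      (m.l + m.e + (m.s - m.e) * ((m.l + m.e) / m.s) ^ n) * |(u - v).2| := by
    intro n
    induction n with
    | zero =>
      intro u v h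
      have h0 : |(u - v).1| ≤ |(u - v).2| := h 0
      rw [pow_zero]
      nlinarith [abs_nonneg (u - v).2]
    | succ n ih =>
      intro u v h
      have h0 : |(u - v).1| ≤ |(u - v).2| := h 0
      have h1 := ih _ _ ((m.Ver_iff u v).2 h)
      have h2 := (m.ver u v h0).2.1
      have h3 := m.c1 u v
      rw [mdl_norm2 h0] at h3
      have h4 : m.s * |(u - v).1| ≤ |(m.H u - m.H v).1| + m.e * |(u - v).2| := by
        have := abs_sub_abs_le_abs_sub (m.s * (u - v).1) (m.H u - m.H v).1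
        rw [abs_sub_comm, abs_mul, abs_of_pos hs] at this
        linarith
      have ht : 0 ≤ ((m.l + m.e) / m.s) ^ n := by positivity
      have h5 := h1.trans (mul_le_mul_of_nonneg_left h2 (by positivity))
      have h6 : m.e * (m.s - m.e) + (m.l + m.e) * (m.l + m.e) ≤ m.s * (m.l + m.e) := by
        nlinarith [m.dom]
      refine le_of_mul_le_mul_left ?_ hs
      have e1 : m.s * ((m.l + m.e + (m.s - m.e) * ((m.l + m.e) / m.s) ^ (n + 1)) * |(u - v).2|) =
          (m.s * (m.l + m.e) + (m.s - m.e) * ((m.l + m.e) / m.s) ^ n * (m.l + m.e)) *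
            |(u - v).2| := by
        rw [pow_succ]
        field_simp
      rw [e1]
      nlinarith [mul_le_mul_of_nonneg_left h4 hse.le,
        mul_le_mul_of_nonneg_right h6 (abs_nonneg (u - v).2)]
  have h1 : Tendsto (fun n : ℕ => (m.l + m.e + (m.s - m.e) * ((m.l + m.e) / m.s) ^ n) *
      |(u - v).2|) atTop (𝓝 ((m.l + m.e + (m.s - m.e) * 0) * |(u - v).2|)) :=
    (((tendsto_pow_atTop_nhds_zero_of_lt_one (by positivity)
      ((div_lt_one hs).2 (by linarith [m.gap]))).const_mul _).const_add _).mul_const _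
  rw [mul_zero, add_zero] at h1
  exact ge_of_tendsto' h1 fun n => key n u v h

theorem Ver_strict {u v : ℝ × ℝ} (h : m.Ver u v) :
    m.s * |(u - v).1| ≤ (m.l + 2 * m.e) * |(u - v).2| := by
  have h0 : |(u - v).1| ≤ |(u - v).2| := h 0
  nlinarith [m.Ver_strong h, mul_le_mul_of_nonneg_left h0 m.e_pos.le]

theorem Ver_closed : IsClosed {p : (ℝ × ℝ) × (ℝ × ℝ) | m.Ver p.1 p.2} := by
  simp only [Ver, ofPred_forall]
  refine isClosed_iInter fun n => ?_
  have h := m.cont.iterate n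
  exact isClosed_le (by fun_prop) (by fun_prop)

theorem leaf_aux (u : ℝ × ℝ) {γ : ℝ → ℝ × ℝ} (hγ : Continuous γ) {x1 x2 : ℝ}
    (h1 : |(γ x1 - u).2| < (γ x1 - u).1) (h2 : |(γ x2 - u).2| < -(γ x2 - u).1) :
    ∃ x, m.Ver u (γ x) := by
  by_contra hn
  push Not at hn
  have hc := fun n => m.cont.iterate n
  obtain ⟨x, -, ⟨a, ha⟩, b, hb⟩ := isPreconnected_univ
    {x | ∃ n, |(m.H^[n] (γ x) - m.H^[n] u).2| < (m.H^[n] (γ x) - m.H^[n] u).1}
    {x | ∃ n, |(m.H^[n] (γ x) - m.H^[n] u).2| < -(m.H^[n] (γ x) - m.H^[n] u).1}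
    (by
      rw [ofPred_exists]
      exact isOpen_iUnion fun n => isOpen_lt (by have := hc n; fun_prop) (by have := hc n; fun_prop))
    (by
      rw [ofPred_exists]
      exact isOpen_iUnion fun n => isOpen_lt (by have := hc n; fun_prop) (by have := hc n; fun_prop))
    (fun x _ => by
      have h := mt m.Ver_symm (hn x)
      simp only [Ver, not_forall, not_le] at h
      obtain ⟨n, h⟩ := h
      exact (lt_abs.1 h).imp (fun k => ⟨n, k⟩) fun k => ⟨n, k⟩)
    ⟨x1, mem_univ _, 0, h1⟩ ⟨x2, mem_univ _, 0, h2⟩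
  have k1 := (m.hor_iter (ha.le.trans (le_abs_self _)) b).2.2.1 ((abs_nonneg _).trans_lt ha)
  have k2 := (m.hor_iter (hb.le.trans (neg_le_abs _)) a).2.2.2
    (neg_pos.1 ((abs_nonneg _).trans_lt hb))
  rw [← iterate_add_apply, ← iterate_add_apply] at k1 k2
  rw [add_comm] at k1
  exact lt_asymm k1 k2

theorem leaf (u : ℝ × ℝ) (y : ℝ) : ∃! x, m.Ver u (x, y) := by
  obtain ⟨x, hx⟩ := m.leaf_aux u (γ := fun x => (x, y)) (by fun_prop)
    (x1 := u.1 + |y - u.2| + 1) (x2 := u.1 - |y - u.2| - 1)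
    (by simp only [Prod.snd_sub, Prod.fst_sub]; linarith)
    (by simp only [Prod.snd_sub, Prod.fst_sub]; linarith)
  refine ⟨x, hx, fun x' hx' => ?_⟩
  have h := m.Ver_trans (m.Ver_symm hx') hx 0
  simp only [iterate_zero, id, Prod.fst_sub, Prod.snd_sub, sub_self, abs_zero, abs_nonpos_iff] at h
  exact sub_eq_zero.1 h

end Mdl

end Pool.Agent.Lib.MP_3fe454_an.S2
end

-- part Pool.Agent.Lib.MP_3fe454_an.S2.Mdl2
section

/-!
The centre curve of the model.
-/

set_option autoImplicit false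

open Set Metric Filter Topology Function

namespace Pool.Agent.Lib.MP_3fe454_an.S2

open PD

/-- backward forever horizontal pairs -/
def Mdl2H (G : ℝ × ℝ → ℝ × ℝ) (u v : ℝ × ℝ) : Prop :=
  ∀ n : ℕ, |(G^[n] u - G^[n] v).2| ≤ |(G^[n] u - G^[n] v).1|

theorem mdl2_swap (u v : ℝ × ℝ) : |(v - u).1| = |(u - v).1| ∧ |(v - u).2| = |(u - v).2| := by
  rw [← neg_sub u v, Prod.fst_neg, Prod.snd_neg, abs_neg, abs_neg]
  exact ⟨rfl, rfl⟩

namespace Mdl

variable (m : Mdl) {G : ℝ × ℝ → ℝ × ℝ}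

theorem back1 (hG : ∀ u, m.H (G u) = u) {u v : ℝ × ℝ} (h : |(u - v).1| < |(u - v).2|) :
    |(G u - G v).1| < |(G u - G v).2| ∧ |(u - v).2| ≤ (m.l + m.e) * |(G u - G v).2| ∧
      (0 < (u - v).2 → 0 < (G u - G v).2) := by
  have h1 : |(G u - G v).1| < |(G u - G v).2| := by
    by_contra hn
    have := m.hor1 (not_lt.1 hn)
    rw [hG, hG] at this
    exact absurd h (not_lt.2 this)
  have h2 := (m.ver _ _ h1.le).2.1
  rw [hG, hG] at h2
  refine ⟨h1, h2, fun k => ?_⟩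
  rcases lt_abs.1 ((abs_nonneg _).trans_lt h1) with k' | k'
  · exact k'
  · have h3 := (m.ver (G v) (G u) (by
      rw [(mdl2_swap _ _).1, (mdl2_swap _ _).2]
      exact h1.le)).2.2 (by rwa [← neg_sub, Prod.snd_neg])
    rw [hG, hG, ← neg_sub, Prod.snd_neg] at h3
    linarith

theorem back_iter (hG : ∀ u, m.H (G u) = u) {u v : ℝ × ℝ} (h : |(u - v).1| < |(u - v).2|) (n : ℕ) :
    |(G^[n] u - G^[n] v).1| < |(G^[n] u - G^[n] v).2| ∧
      |(u - v).2| ≤ (m.l + m.e) ^ n * |(G^[n] u - G^[n] v).2| ∧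
      (0 < (u - v).2 → 0 < (G^[n] u - G^[n] v).2) := by
  induction n with
  | zero => exact ⟨h, by simp, id⟩
  | succ n ih =>
    obtain ⟨i1, i2, i3⟩ := ih
    obtain ⟨h1, h2, h3⟩ := m.back1 hG i1
    simp only [iterate_succ_apply']
    refine ⟨h1, i2.trans ?_, fun k => h3 (i3 k)⟩
    rw [pow_succ, mul_assoc]
    exact mul_le_mul_of_nonneg_left h2 (pow_pos m.le_pos n).le

theorem hb_bound (hG : ∀ u, m.H (G u) = u) {u v : ℝ × ℝ} (h : Mdl2H G u v) (n : ℕ) :
    (m.s - m.e) ^ n * ‖G^[n] u - G^[n] v‖ ≤ ‖u - v‖ := by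
  have h1 := (m.hor_iter (h n) n).2.1
  rw [(LeftInverse.iterate hG n) u, (LeftInverse.iterate hG n) v] at h1
  rw [mdl_norm1 (h n)]
  exact h1.trans (norm_fst_le (u - v))

theorem hb_of_bound (hG : ∀ u, m.H (G u) = u) {u v : ℝ × ℝ} {C : ℝ}
    (h : ∀ n, (m.s - m.e) ^ n * ‖G^[n] u - G^[n] v‖ ≤ C) : Mdl2H G u v := by
  intro n
  by_contra hn
  rw [not_le] at hn
  refine mdl_geom (mul_pos (pow_pos m.se_pos n) ((abs_nonneg _).trans_lt hn)) m.le_pos.le m.gap
    (C := C) fun k => ?_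
  have h1 := (m.back_iter hG hn k).2.1
  rw [← iterate_add_apply, ← iterate_add_apply] at h1
  have h2 := h (k + n)
  have h3 : |(G^[k + n] u - G^[k + n] v).2| ≤ ‖G^[k + n] u - G^[k + n] v‖ :=
    norm_snd_le (G^[k + n] u - G^[k + n] v)
  have h4 := pow_pos m.se_pos (k + n)
  have h5 := pow_pos m.le_pos k
  rw [← mul_assoc, ← pow_add]
  calc _ ≤ (m.s - m.e) ^ (k + n) * ((m.l + m.e) ^ k * ‖G^[k + n] u - G^[k + n] v‖) :=
        mul_le_mul_of_nonneg_left (h1.trans (mul_le_mul_of_nonneg_left h3 h5.le)) h4.le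
    _ = (m.s - m.e) ^ (k + n) * ‖G^[k + n] u - G^[k + n] v‖ * (m.l + m.e) ^ k := by ring
    _ ≤ _ := mul_le_mul_of_nonneg_right h2 h5.le

theorem hb_pair (hG : ∀ u, m.H (G u) = u) {u v w : ℝ × ℝ} (h : Mdl2H G u w) (h' : Mdl2H G v w) :
    Mdl2H G u v := by
  refine m.hb_of_bound hG (C := ‖u - w‖ + ‖v - w‖) fun n => ?_
  have h1 := norm_sub_le_norm_sub_add_norm_sub (G^[n] u) (G^[n] w) (G^[n] v)
  rw [norm_sub_rev (G^[n] w)] at h1
  nlinarith [m.hb_bound hG h n, m.hb_bound hG h' n, pow_pos m.se_pos n]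

theorem hb_exists (hG : ∀ u, m.H (G u) = u) (hc : Continuous G) (x : ℝ) :
    ∃ y, Mdl2H G (x, y) 0 := by
  by_contra hn
  push Not at hn
  have hc' := fun n => hc.iterate n
  obtain ⟨y, -, ⟨a, ha⟩, b, hb⟩ := isPreconnected_univ
    {y : ℝ | ∃ n, |(G^[n] (x, y) - G^[n] 0).1| < (G^[n] (x, y) - G^[n] 0).2}
    {y : ℝ | ∃ n, |(G^[n] (x, y) - G^[n] 0).1| < -(G^[n] (x, y) - G^[n] 0).2}
    (by
      rw [ofPred_exists]
      exact isOpen_iUnion fun n =>
        isOpen_lt (by have := hc' n; fun_prop) (by have := hc' n; fun_prop))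
    (by
      rw [ofPred_exists]
      exact isOpen_iUnion fun n =>
        isOpen_lt (by have := hc' n; fun_prop) (by have := hc' n; fun_prop))
    (fun y _ => by
      have h := hn y
      simp only [Mdl2H, not_forall, not_le] at h
      obtain ⟨n, h⟩ := h
      exact (lt_abs.1 h).imp (fun k => ⟨n, k⟩) fun k => ⟨n, k⟩)
    ⟨|x| + 1, mem_univ _, 0, by simp⟩ ⟨-(|x| + 1), mem_univ _, 0, by simp⟩
  have k1 := (m.back_iter hG (ha.trans_le (le_abs_self _)) b).2.2 ((abs_nonneg _).trans_lt ha)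
  have k2 := (m.back_iter hG (u := G^[b] 0) (v := G^[b] (x, y)) (by
    rw [(mdl2_swap _ _).1, (mdl2_swap _ _).2]
    exact hb.trans_le (neg_le_abs _)) a).2.2 (by
    rw [← neg_sub, Prod.snd_neg]
    exact (abs_nonneg _).trans_lt hb)
  rw [← iterate_add_apply, ← iterate_add_apply] at k1 k2
  rw [add_comm, ← neg_sub, Prod.snd_neg] at k1
  linarith

end Mdl

theorem Mdl.centre (m : Mdl) : ∃ c, m.Cen c := by
  obtain ⟨H, hH⟩ := m.homeo
  have hG : ∀ u, m.H (H.symm u) = u := fun u => hH ▸ H.apply_symm_apply u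
  have hG' : ∀ u, H.symm (m.H u) = u := fun u => hH ▸ H.symm_apply_apply u
  choose c hc using m.hb_exists hG H.symm.continuous
  have h1 : ∀ u : ℝ × ℝ, u.2 = c u.1 ↔ Mdl2H H.symm u 0 := by
    intro u
    refine ⟨fun h => ?_, fun h => ?_⟩
    · have := hc u.1
      rwa [← h] at this
    · have k := m.hb_pair hG h (hc u.1) 0
      simp only [iterate_zero, id, Prod.fst_sub, Prod.snd_sub, sub_self, abs_zero,
        abs_nonpos_iff] at k
      exact sub_eq_zero.1 k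
  refine ⟨c, ((h1 0).2 fun n => by simp).symm, fun x x' => m.hb_pair hG (hc x) (hc x') 0,
    fun u => ?_⟩
  rw [h1, h1]
  refine ⟨fun h n => ?_, fun h n => ?_⟩
  · rw [← m.zero]
    cases n with
    | zero => exact m.hor1 (h 0)
    | succ n =>
      rw [iterate_succ_apply, iterate_succ_apply, hG', hG']
      exact h n
  · have k := h (n + 1)
    rwa [← m.zero, iterate_succ_apply, iterate_succ_apply, hG', hG'] at k

end Pool.Agent.Lib.MP_3fe454_an.S2
end

-- part Pool.Agent.Lib.MP_3fe454_an.S2.Mdl3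
section

/-!
The skew product chart of the model.
-/

set_option autoImplicit false

open Set Metric Filter Topology Function

namespace Pool.Agent.Lib.MP_3fe454_an.S2

open PD

theorem mdl3_cont {X : Type} [TopologicalSpace X] {f b : X → ℝ} {R : Set (X × ℝ)}
    (hc : IsClosed R) (h1 : ∀ x, (x, f x) ∈ R) (h2 : ∀ x t, (x, t) ∈ R → t = f x)
    (hb : Continuous b) (hfb : ∀ x, |f x| ≤ b x) : Continuous f := by
  refine continuous_iff_continuousAt.2 fun x => ?_
  refine (isCompact_Icc (a := -(b x + 1)) (b := b x + 1)).tendsto_nhds_of_unique_mapClusterPt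
    ?_ fun t _ ht => ?_
  · filter_upwards [hb.continuousAt.eventually (gt_mem_nhds (lt_add_one (b x)))] with y hy
    exact abs_le.1 ((hfb y).trans hy.le)
  · obtain ⟨U, hU, ht⟩ := mapClusterPt_iff_ultrafilter.1 ht
    exact h2 x t (hc.mem_of_tendsto ((tendsto_id'.2 hU).prodMk_nhds ht) (Eventually.of_forall h1))

namespace Mdl

variable {m : Mdl} {c : ℝ → ℝ}

theorem Cen.cont (h : m.Cen c) : Continuous c :=
  (LipschitzWith.of_dist_le_mul (K := 1) fun x y => by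
    rw [NNReal.coe_one, one_mul]
    exact h.2.1 x y).continuous

theorem Cen.img (h : m.Cen c) (x : ℝ) : m.H (x, c x) = ((m.H (x, c x)).1, c (m.H (x, c x)).1) :=
  Prod.ext rfl ((h.2.2 (x, c x)).1 rfl)

theorem Cen.pre (h : m.Cen c) (x : ℝ) : ∃ x', m.H (x', c x') = (x, c x) := by
  obtain ⟨H, hH⟩ := m.homeo
  obtain ⟨u, hu⟩ := H.surjective (x, c x)
  rw [hH] at hu
  have k : u.2 = c u.1 := (h.2.2 u).2 (by rw [hu])
  exact ⟨u.1, by rw [← k, hu]⟩

theorem Cen.slope (h : m.Cen c) (x : ℝ) : (m.s - m.e) * |c x| ≤ (m.l + m.e) * |x| := by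
  obtain ⟨x', e⟩ := h.pre x
  obtain ⟨h1, h2, -⟩ := m.hor (x', c x') 0 (by
    have := h.2.1 x' 0
    simpa [h.1] using this)
  simp only [e, m.zero, sub_zero] at h1 h2
  nlinarith [mul_le_mul_of_nonneg_left h1 m.le_pos.le, mul_le_mul_of_nonneg_left h2 m.se_pos.le]

theorem Cen.proj (h : m.Cen c) (u : ℝ × ℝ) : ∃! x, m.Ver u (x, c x) := by
  have hg := m.gap
  have hs := m.se_pos
  have hl := m.le_pos
  obtain ⟨T, hT0, hT⟩ : ∃ T : ℝ, 0 < T ∧
      (m.s - m.e) * (|u.1| + |u.2|) < (m.s - m.e - (m.l + m.e)) * T := by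
    refine ⟨(m.s - m.e) * (|u.1| + |u.2|) / (m.s - m.e - (m.l + m.e)) + 1,
      by have := sub_pos.2 hg; positivity, ?_⟩
    rw [mul_add _ _ (1 : ℝ), mul_div_cancel₀ _ (sub_pos.2 hg).ne']
    linarith
  have k : ∀ x, |x| = T → |c x - u.2| < T - |u.1| := by
    intro x hx
    have k1 := h.slope x
    rw [hx] at k1
    refine lt_of_mul_lt_mul_left ?_ hs.le
    nlinarith [mul_le_mul_of_nonneg_left (abs_sub (c x) u.2) hs.le]
  obtain ⟨x, hx⟩ := m.leaf_aux u (γ := fun x => (x, c x)) (continuous_id.prodMk h.cont)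
    (x1 := T) (x2 := -T)
    (by
      simp only [Prod.snd_sub, Prod.fst_sub]
      linarith [k T (abs_of_pos hT0), le_abs_self u.1])
    (by
      simp only [Prod.snd_sub, Prod.fst_sub]
      linarith [k (-T) (by rw [abs_neg, abs_of_pos hT0]), neg_abs_le u.1])
  refine ⟨x, hx, fun x' hx' => ?_⟩
  have k1 := m.Ver_strong (m.Ver_trans (m.Ver_symm hx') hx)
  simp only [Prod.fst_sub, Prod.snd_sub] at k1
  have k2 := mul_le_mul_of_nonneg_left (h.2.1 x' x) hl.le
  refine sub_eq_zero.1 (abs_nonpos_iff.1 ?_)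
  by_contra k3
  nlinarith [not_le.1 k3]

end Mdl

theorem Mdl.chart (m : Mdl) : ∃ (Ψ : ℝ × ℝ ≃ₜ ℝ × ℝ) (H : ℝ × ℝ ≃ₜ ℝ × ℝ) (φ : ℝ ≃o ℝ),
    ⇑H = m.H ∧ Ψ 0 = 0 ∧ (∀ u, (Ψ (H u)).1 = φ (Ψ u).1) ∧
    (∀ u v, (Ψ u).1 = (Ψ v).1 → (Ψ u).2 < (Ψ v).2 → (Ψ (H u)).2 < (Ψ (H v)).2) ∧
    (∀ u, |(Ψ (H u)).2| ≤ (m.l + m.e) * |(Ψ u).2|) ∧
    (∀ u, ‖u - Ψ.symm ((Ψ u).1, 0)‖ ≤ |(Ψ u).2|) ∧
    ∀ u, (Ψ u).2 = 0 → (Ψ u).1 = u.1 ∧ |u.2| ≤ |u.1| := by
  obtain ⟨H, hH⟩ := m.homeo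
  obtain ⟨c, hc⟩ := m.centre
  have hcc := hc.cont
  choose P hP hP' using hc.proj
  choose a ha ha' using m.leaf
  have hg := sub_pos.2 m.gap
  have hs := m.se_pos
  have hl := m.le_pos
  have cP : Continuous P := by
    refine mdl3_cont (R := (fun p : (ℝ × ℝ) × ℝ => (p.1, (p.2, c p.2))) ⁻¹'
      {p : (ℝ × ℝ) × (ℝ × ℝ) | m.Ver p.1 p.2})
      (b := fun u => ((m.s - m.e) * |u.1| + (m.l + m.e) * |u.2|) / (m.s - m.e - (m.l + m.e)))
      (m.Ver_closed.preimage (by fun_prop)) hP hP' (by fun_prop) fun u => ?_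
    have k1 := m.Ver_strong (hP u)
    simp only [Prod.fst_sub, Prod.snd_sub] at k1
    have k2 := hc.2.1 (P u) 0
    rw [hc.1, sub_zero, sub_zero] at k2
    have k3 := abs_sub_abs_le_abs_sub (P u) u.1
    rw [abs_sub_comm] at k3
    rw [le_div_iff₀ hg]
    nlinarith [mul_le_mul_of_nonneg_left k3 hs.le, mul_le_mul_of_nonneg_left k2 hl.le,
      mul_le_mul_of_nonneg_left (abs_sub u.2 (c (P u))) hl.le]
  have ca : Continuous fun p : ℝ × ℝ => a (p.1, c p.1) (c p.1 + p.2) := by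
    refine mdl3_cont (R := (fun p : (ℝ × ℝ) × ℝ => ((p.1.1, c p.1.1), (p.2, c p.1.1 + p.1.2))) ⁻¹'
      {p : (ℝ × ℝ) × (ℝ × ℝ) | m.Ver p.1 p.2}) (b := fun p => |p.1| + |p.2|)
      (m.Ver_closed.preimage (by fun_prop)) (fun p => ha _ _) (fun p t h => ha' _ _ _ h)
      (by fun_prop) fun p => ?_
    have k1 := ha (p.1, c p.1) (c p.1 + p.2) 0
    simp only [iterate_zero, id, Prod.fst_sub, Prod.snd_sub, sub_add_cancel_left, abs_neg] at k1
    have k3 := abs_sub_abs_le_abs_sub (a (p.1, c p.1) (c p.1 + p.2)) p.1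
    rw [abs_sub_comm] at k3
    linarith
  let Ψ : ℝ × ℝ ≃ₜ ℝ × ℝ :=
    { toFun := fun u => (P u, u.2 - c (P u))
      invFun := fun p => (a (p.1, c p.1) (c p.1 + p.2), c p.1 + p.2)
      left_inv := fun u => by
        simp only [add_sub_cancel]
        exact Prod.ext (ha' _ _ u.1 (m.Ver_symm (hP u))).symm rfl
      right_inv := fun p => by
        have k := hP' _ p.1 (m.Ver_symm (ha (p.1, c p.1) (c p.1 + p.2)))
        simp only [← k, add_sub_cancel_left]
      continuous_toFun := by fun_prop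
      continuous_invFun := ca.prodMk (by fun_prop) }
  have hm : StrictMono fun x => (m.H (x, c x)).1 := fun x x' h =>
    sub_pos.1 ((m.hor (x', c x') (x, c x) (hc.2.1 x' x)).2.2.1 (sub_pos.2 h))
  have hsj : Surjective fun x => (m.H (x, c x)).1 := fun x => by
    obtain ⟨x', e⟩ := hc.pre x
    exact ⟨x', by simp only [e]⟩
  have hlev : ∀ u, P (m.H u) = (m.H (P u, c (P u))).1 := fun u => by
    have k := (m.Ver_iff _ _).2 (hP u)
    rw [hc.img] at k
    exact (hP' _ _ k).symm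
  have hcy : ∀ u, c (P (m.H u)) = (m.H (P u, c (P u))).2 := fun u => by
    rw [hlev]
    exact ((hc.2.2 (P u, c (P u))).1 rfl).symm
  refine ⟨Ψ, H, hm.orderIsoOfSurjective _ hsj, hH, ?_, fun u => ?_, fun u v h1 h2 => ?_,
    fun u => ?_, fun u => ?_, fun u h => ?_⟩
  · have k : P 0 = 0 := (hP' 0 0 (by simp only [hc.1]; exact m.Ver_refl _)).symm
    change (P 0, (0 : ℝ × ℝ).2 - c (P 0)) = 0
    rw [k, hc.1]
    simp
  · rw [hH]
    exact hlev u
  · change P u = P v at h1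
    change u.2 - c (P u) < v.2 - c (P v) at h2
    change (H u).2 - c (P (H u)) < (H v).2 - c (P (H v))
    have k := hP u
    rw [h1] at k h2
    have k1 := (m.ver v u (m.Ver_trans (hP v) (m.Ver_symm k) 0)).2.2
      (by simp only [Prod.snd_sub]; linarith)
    rw [hH, hcy, hcy, h1]
    simp only [Prod.snd_sub] at k1
    linarith
  · change |(H u).2 - c (P (H u))| ≤ (m.l + m.e) * |u.2 - c (P u)|
    rw [hH, hcy]
    exact (m.ver u _ (hP u 0)).2.1
  · change ‖u - (a (P u, c (P u)) (c (P u) + 0), c (P u) + 0)‖ ≤ |u.2 - c (P u)|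
    rw [add_zero, ← ha' _ _ (P u) (m.Ver_refl _)]
    exact (mdl_norm2 (hP u 0)).le
  · change u.2 - c (P u) = 0 at h
    have k : |u.1 - P u| ≤ |u.2 - c (P u)| := hP u 0
    rw [h, abs_zero, abs_nonpos_iff, sub_eq_zero] at k
    refine ⟨k.symm, ?_⟩
    have k2 := hc.2.1 u.1 0
    rw [hc.1, sub_zero, sub_zero] at k2
    rw [sub_eq_zero.1 h, ← k]
    exact k2

end Pool.Agent.Lib.MP_3fe454_an.S2
end
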