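import Pool.Agent.Lib.MP_3fe454_an.S2.HS5
import Pool.Agent.Lib.MP_3fe454_an.S2.Mdl3
import Pool.Agent.Lib.MP_3fe454_an.S2.Defs2
import Pool.Agent.Lib.MP_3fe454_an.S2.Lin

-- part Pool.Agent.Lib.MP_3fe454_an.S2.HS6
section

/-!
A pass structure produces two crossings.
-/

set_option autoImplicit false

open Set Metric Filter Topology Function

namespace Pool.Agent.Lib.MP_3fe454_an.S2

open PD

namespace Quad

variable {F : Dis} {Q Q' : Quad F}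

/-- the exit time tends to infinity near the stable leaf -/
theorem PSD.tend {W y1 y2 x0 : ℝ} {c : ℕ} {τ : ℂ → ℝ} (h : Q.PSD Q' W y1 y2 x0 c τ) (hW : 1 ≤ W)
    (j : ℝ) : ∃ d > 0, ∀ v ∈ Q.Reg x0 y1 y2, Q.dd v ≤ d → j ≤ τ v := by
  obtain ⟨-, -, -, hτW, hc, -, hd2⟩ := h
  rcases (Q.Reg x0 y1 y2).eq_empty_or_nonempty with e | ⟨w, hw⟩
  · exact ⟨1, one_pos, fun v hv => absurd (e ▸ hv) (notMem_empty v)⟩
  have k1 : τ w - W ≤ ⌊τ w⌋₊ := by linarith [Nat.lt_floor_add_one (τ w)]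
  have k2 : (⌊τ w⌋₊ : ℝ) ≤ τ w := Nat.floor_le (by linarith [hτW w hw])
  obtain ⟨h0, hp, k⟩ := hd2 1 (j - τ w)
  have hm := lt_min hp (hc w hw _ k1 k2).2.1
  refine ⟨_, hm, fun v hv hd => ?_⟩
  have := k _ hm (min_le_left _ _) v hv w hw _ k1 k2 (min_le_right _ _) (by rwa [one_mul])
  linarith

/-- the part of the entry region away from the stable leaf -/
def hs6K (Q : Quad F) (x0 y1 y2 δ : ℝ) : Set ℂ :=
  {w | 0 ≤ Q.X w ∧ Q.X w ≤ x0 ∧ y1 ≤ Q.Y w ∧ Q.Y w ≤ y2} ∩ {w | δ ≤ Q.dd w}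

theorem hs6K_compact (Q : Quad F) (x0 y1 y2 δ : ℝ) : IsCompact (hs6K Q x0 y1 y2 δ) :=
  (Q.rect_compact 0 x0 y1 y2).inter_right (isClosed_le continuous_const Q.dd_cont)

theorem hs6K_sub {x0 y1 y2 δ : ℝ} (hδ : 0 < δ) : hs6K Q x0 y1 y2 δ ⊆ Q.Reg x0 y1 y2 :=
  fun w hw => ⟨hw.1.1.lt_of_ne fun e =>
    (hδ.trans_le hw.2).ne' ((Q.dd_zero_iff w).2 e.symm), hw.1.2⟩

theorem hs6_path {y1 y2 x x1 d δ : ℝ} {e : ℝ → ℂ} {a b : ℝ} (he : Continuous e)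
    (h : Q.Ent y1 y2 x d e a b) (hy1 : 0 < y1) (hy2 : y2 < 1) (h1 : x1 ≤ x) (h2 : d ≤ δ)
    (hδ : 0 < δ) (k : ∀ w ∈ Q.S, Q.dd w ≤ δ → |Q.X w| < x1) :
    ∃ a' ∈ uIcc a b, ∃ b' ∈ uIcc a b, Q.X (e a') = x1 ∧ Q.dd (e b') ≤ δ ∧
      ∀ t ∈ uIcc a' b', e t ∈ hs6K Q x1 y1 y2 δ := by
  obtain ⟨hE, ha, hb⟩ := h
  have k' : ∀ t ∈ uIcc a b, Q.dd (e t) ≤ δ → |Q.X (e t)| < x1 := fun t ht => by
    obtain ⟨k1, k2, k3⟩ := hE t ht
    exact k _ ⟨k1, abs_le.2 ⟨by linarith, by linarith⟩⟩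
  have cX := Q.cX.comp he
  have ha' : δ < Q.dd (e a) := not_le.1 fun k1 => by
    linarith [(abs_lt.1 (k' a left_mem_uIcc k1)).2]
  obtain ⟨b', hb', e1, m1⟩ := first_le (l := fun t => Q.dd (e t)) (α := δ)
    (Q.dd_cont.comp he).continuousOn ha'.le (hb.trans h2)
  have k1 := k' b' hb' e1.le
  obtain ⟨a', ha'', e2, m2⟩ := first_le (l := fun t => -Q.X (e t)) (a := b') (b := a) (α := -x1)
    cX.neg.continuousOn (neg_le_neg (abs_lt.1 k1).2.le) (neg_le_neg (h1.trans ha))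
  rw [uIcc_comm] at ha'' m2
  have s1 := uIcc_subset_uIcc_left hb'
  have s2 := uIcc_subset_uIcc_right ha''
  refine ⟨a', s1 ha'', b', hb', neg_injective e2, e1.le, fun t ht =>
    ⟨⟨?_, neg_le_neg_iff.1 (m2 t ht), (hE t (s1 (s2 ht))).2⟩, m1 t (s2 ht)⟩⟩
  by_contra hn
  obtain ⟨u, hu, e3⟩ := intermediate_value_uIcc (a := a) (b := t) cX.continuousOn
    (mem_uIcc.2 (Or.inr ⟨(not_le.1 hn).le, ((abs_nonneg _).trans k1.le).trans (h1.trans ha)⟩))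
  exact (hδ.trans_le (m1 u (uIcc_subset_uIcc_left (s2 ht) hu))).ne' ((Q.dd_zero_iff _).2 e3)

theorem PS.prg (h : Q.PS Q') : Q.Prg Q' := by
  classical
  intro y1 y2 x C s1 s2 hy1 hy2 hx hs hs2
  obtain ⟨x0, c, τ, hP⟩ := h (-s1) y1 y2 (by linarith) hy1 hy2
  have ht := hP.tend (by linarith)
  obtain ⟨hx0, -, hτ, -, hc, hd1, hd2⟩ := hP
  obtain ⟨x1, x1p, x1a, x1b⟩ : ∃ x1 > 0, x1 ≤ x0 ∧ x1 ≤ x :=
    ⟨min x0 x, lt_min hx0 hx, min_le_left _ _, min_le_right _ _⟩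
  obtain ⟨C1, hC, hC1⟩ : ∃ C1, C ≤ C1 ∧ 0 < C1 :=
    ⟨max C 1, le_max_left _ _, lt_max_of_lt_right one_pos⟩
  have bd : ∀ K : Set ℂ, IsCompact K → K ⊆ Q.Reg x0 y1 y2 → ∃ T : ℕ, ∀ w ∈ K, τ w ≤ T :=
    fun K hK hs => by
      obtain ⟨T, hT⟩ := hK.bddAbove_image (hτ.mono hs)
      exact ⟨⌈T⌉₊, fun w hw => (hT (mem_image_of_mem τ hw)).trans (Nat.le_ceil T)⟩
  obtain ⟨T0, hT0⟩ := bd _ (Q.rect_compact x1 x1 y1 y2) fun w hw =>
    ⟨x1p.trans_le hw.1, hw.2.1.trans x1a, hw.2.2⟩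
  obtain ⟨Δ, hΔ⟩ := exists_nat_gt (s2 - s1)
  obtain ⟨d1, hd1p, k1⟩ := ht (T0 + Δ - s1)
  obtain ⟨h0, hh0, k2⟩ := hd2 C1 (1 + Δ - s1)
  obtain ⟨d3, hd3, k3⟩ := Q.dd_small x1p
  obtain ⟨d4, hd4, k4⟩ := hd1 1
  refine ⟨min h0 (min d1 d3 / C1), by positivity, fun h hp hh => ?_⟩
  have b0 : C1 * h ≤ min d1 d3 := (le_div_iff₀' hC1).1 (hh.trans (min_le_right _ _))
  have b1 : 0 < C1 * h := mul_pos hC1 hp
  have hex : ∃ N : ℕ, ∀ w ∈ Q.Reg x0 y1 y2, (T0 + N : ℝ) ≤ τ w → ∀ n : ℕ, τ w - -s1 ≤ n →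
      n ≤ τ w → Q'.Y (F.f^[c + Q.M * n] w) ≤ h := by
    obtain ⟨T, hT⟩ := bd _ (hs6K_compact Q x0 y1 y2 (min d4 h)) (hs6K_sub (lt_min hd4 hp))
    refine ⟨T + 1, fun w hw a n b b' => ?_⟩
    have k : Q.dd w ≤ min d4 h := not_lt.1 fun k => by
      have := hT w ⟨⟨hw.1.le, hw.2⟩, k.le⟩
      push_cast at a
      linarith [Nat.cast_nonneg (α := ℝ) T0]
    linarith [min_le_right d4 h, k4 w hw (k.trans (min_le_left _ _)) n b b']
  have hN := Nat.find_spec hex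
  have hN' : ∀ v ∈ Q.Reg x0 y1 y2, Q.dd v ≤ C1 * h → T0 + Nat.find hex + Δ - s1 ≤ τ v := by
    intro v hv hd
    rcases e : Nat.find hex with _ | k
    · simpa using k1 v hv (hd.trans (b0.trans (min_le_left _ _)))
    · have := Nat.find_min hex (m := k) (by omega)
      push Not at this
      obtain ⟨w, hw, a, n, b, b', hgt⟩ := this
      have := k2 h hp (hh.trans (min_le_left _ _)) v hv w hw n b b' hgt.le hd
      push_cast
      linarith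
  generalize Nat.find hex = N at hN hN'
  obtain ⟨n, n1, n2⟩ : ∃ n : Bool → ℕ, (n true : ℝ) = T0 + N ∧ (n false : ℝ) = T0 + N + Δ :=
    ⟨fun j => if j then T0 + N else T0 + N + Δ, by simp, by simp⟩
  have hn : ∀ j, (T0 + N : ℝ) ≤ n j ∧ (n j : ℝ) ≤ T0 + N + Δ := fun j => by
    cases j <;> constructor <;> linarith [Nat.cast_nonneg (α := ℝ) Δ]
  obtain ⟨E, hE⟩ : ∃ E : Bool → Set ℂ, ∀ j,
      E j = hs6K Q x0 y1 y2 (C1 * h) ∩ τ ⁻¹' Icc (n j - s2) (n j - s1) := ⟨_, fun _ => rfl⟩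
  have cE : ∀ j, IsCompact (E j) := fun j => hE j ▸
    (hs6K_compact Q x0 y1 y2 _).of_isClosed_subset
      ((hτ.mono (hs6K_sub b1)).preimage_isClosed_of_isClosed (hs6K_compact Q x0 y1 y2 _).isClosed
        isClosed_Icc) inter_subset_left
  have wE : ∀ j, ∀ w ∈ E j, Q'.X (F.f^[c + Q.M * n j] w) = Q'.χ (n j - τ w) ∧
      0 < Q'.Y (F.f^[c + Q.M * n j] w) ∧ Q'.Y (F.f^[c + Q.M * n j] w) ≤ h ∧
      n j - s2 ≤ τ w ∧ τ w ≤ n j - s1 := fun j w hw => by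
    rw [hE] at hw
    obtain ⟨a, b, b'⟩ := hw
    have i1 : τ w - -s1 ≤ n j := by linarith
    have i2 : n j ≤ τ w := by linarith
    obtain ⟨i3, i4, -⟩ := hc w (hs6K_sub b1 a) _ i1 i2
    exact ⟨i3, i4, hN w (hs6K_sub b1 a) ((hn j).1.trans i2) _ i1 i2, b, b'⟩
  choose η hη hη' using fun j => (cE j).exists_forall_le'
    (f := fun w => Q'.Y (F.f^[c + Q.M * n j] w)) (Q'.cY.comp (F.cf.iterate _)).continuousOn
    fun w hw => (wE j w hw).2.1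
  refine ⟨min h (min (η true) (η false)), lt_min hp (lt_min (hη _) (hη _)), min_le_left _ _,
    fun j => c + Q.M * n j, E, cE, disjoint_left.2 fun w a b => ?_, fun e a b he hEnt j => ?_⟩
  · linarith [(wE _ w a).2.2.2.2, (wE _ w b).2.2.2.1]
  obtain ⟨a1, ha1, b2, hb2, e1, e2, m1⟩ := hs6_path he hEnt hy1 hy2 x1b
    (mul_le_mul_of_nonneg_right hC hp.le) b1 fun w hw k =>
      k3 w hw (k.trans (b0.trans (min_le_right _ _)))
  have m2 : ∀ t ∈ uIcc a1 b2, e t ∈ hs6K Q x0 y1 y2 (C1 * h) := fun t ht =>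
    ⟨⟨(m1 t ht).1.1, (m1 t ht).1.2.1.trans x1a, (m1 t ht).1.2.2⟩, (m1 t ht).2⟩
  obtain ⟨a3, ha3, b3, hb3, e3, e4, m3⟩ := sub_path (l := fun t => τ (e t)) (α := n j - s2)
    (β := n j - s1) (hτ.comp he.continuousOn fun t ht => hs6K_sub b1 (m2 t ht)) (by linarith)
    (by linarith [hT0 (e a1) ⟨e1.ge, e1.le, (m1 a1 left_mem_uIcc).1.2.2⟩, (hn j).1,
      Nat.cast_nonneg (α := ℝ) N])
    (by linarith [hN' _ (hs6K_sub b1 (m2 b2 right_mem_uIcc)) e2, (hn j).2])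
  have s0 := uIcc_subset_uIcc ha1 hb2
  have m4 : ∀ t ∈ uIcc b3 a3, e t ∈ E j := fun t ht => by
    rw [hE]
    exact ⟨m2 t (uIcc_subset_uIcc hb3 ha3 ht), m3 t (uIcc_comm a3 b3 ▸ ht)⟩
  refine ⟨b3, s0 hb3, a3, s0 ha3, m4, fun t ht => ?_, ?_, ?_⟩
  · obtain ⟨i1, -, i2, i3, i4⟩ := wE j _ (m4 t ht)
    refine ⟨(Q'.χ_mono.monotone (by linarith)).trans i1.ge,
      i1.le.trans (Q'.χ_mono.monotone (by linarith)), ((min_le_right _ _).trans ?_).trans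
        (hη' j _ (m4 t ht)), i2⟩
    cases j
    exacts [min_le_right _ _, min_le_left _ _]
  · exact (wE j _ (m4 b3 left_mem_uIcc)).1.trans (congrArg _ (by linarith))
  · exact (wE j _ (m4 a3 right_mem_uIcc)).1.trans (congrArg _ (by linarith))

end Quad

end Pool.Agent.Lib.MP_3fe454_an.S2
end

-- part Pool.Agent.Lib.MP_3fe454_an.S2.Adm1
section

/-!
Admissible sets: the two sources and minimal sets.
-/

set_option autoImplicit false

open Set Metric Filter Topology Function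

namespace Pool.Agent.Lib.MP_3fe454_an.S2

open PD

theorem adm1_fix {F : Dis} {o : ℤ → ℂ} (ho : Orb F o) {P : ℕ} {s : ℤ} (h : F.f^[P] (o s) = o s)
    (t : ℤ) : F.f^[P] (o t) = o t := by
  rcases le_total s t with e | e
  · obtain ⟨n, rfl⟩ := Int.le.dest e
    rw [ho.add, ← iterate_add_apply, add_comm, iterate_add_apply, h]
  · obtain ⟨n, rfl⟩ := Int.le.dest e
    have hD := F.Λ_sub_Disc (ho t).1
    refine inj_iter F n (F.iter_mem_Disc hD P) hD ?_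
    rw [← iterate_add_apply, add_comm, iterate_add_apply, ← ho.add, h]

namespace Atlas

variable {F : Dis} (At : Atlas F)

theorem Blks.mono {At : Atlas F} {o : ℤ → ℂ} {A A' : Finset (periodicPts F.f)} {m m' : ℕ}
    {a b a' b' : ℤ} (h : At.Blks o A m a b) (hA : A' ⊆ A) (hm : m' ≤ m) (ha : a' ≤ a)
    (hb : b ≤ b') : At.Blks o A' m' a' b' := by
  obtain ⟨τ, h1, h2, h3⟩ := h
  have key : ∀ k, m' ≤ k → k ≤ m → τ m' ≤ τ k := fun k hk => by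
    induction k, hk using Nat.le_induction with
    | base => exact fun _ => le_rfl
    | succ k _ ih => exact fun e => (ih (Nat.le_of_succ_le e)).trans (h3 k e).1
  exact ⟨τ, ha.trans h1, (key m hm le_rfl).trans (h2.trans hb), fun l hl =>
    ⟨(h3 l (hl.trans_le hm)).1, fun q hq => (h3 l (hl.trans_le hm)).2 q (hA hq)⟩⟩

theorem Adm.mono {At : Atlas F} {S Y : Set ℂ} {V V' : ℤ → Set ℂ} (h : At.Adm S Y V)
    (hV : ∀ t, V' t ⊆ V t) : At.Adm S Y V' := fun O hO hY A m => by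
  obtain ⟨o, a, b, h1, h2, h3, h4⟩ := h O hO hY A m
  exact ⟨o, a, b, h1, h2, fun t ha hb => ⟨(h3 t ha hb).1, fun k => (h3 t ha hb).2 (hV t k)⟩, h4⟩

theorem adm1_blk {o : ℤ → ℂ} {A : Finset (periodicPts F.f)}
    (H : ∀ q ∈ A, ∀ j b : ℤ, ∃ t < b, (At.M q : ℤ) ∣ t - j ∧ o t ∉ At.Sc q) (b : ℤ) :
    ∃ a ≤ b, At.Blk o A a b := by
  have h : ∀ᶠ a in atBot, ∀ q ∈ A, ∀ r ∈ Finset.range (At.M q),
      ∃ t, a ≤ t ∧ t < b ∧ (At.M q : ℤ) ∣ t - r ∧ o t ∉ At.Sc q := by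
    refine (eventually_all_finset _).2 fun q hq => (eventually_all_finset _).2 fun r _ => ?_
    obtain ⟨t, h1, h2⟩ := H q hq r b
    exact (eventually_le_atBot t).mono fun a ha => ⟨t, ha, h1, h2⟩
  obtain ⟨a, h1, h2⟩ := ((eventually_le_atBot b).and h).exists
  refine ⟨a, h1, fun q hq j => ?_⟩
  have hM : (0 : ℤ) < At.M q := Int.natCast_pos.2 (At.M_pos q)
  have e := Int.toNat_of_nonneg (Int.emod_nonneg j hM.ne')
  obtain ⟨t, a1, a2, a3, a4⟩ := h2 q hq (j % At.M q).toNat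
    (Finset.mem_range.2 (Int.ofNat_lt.1 (e ▸ Int.emod_lt_of_pos j hM)))
  refine ⟨t, a1, a2, ?_, a4⟩
  rw [e] at a3
  rw [show t - j = t - j % At.M q - At.M q * (j / At.M q) by rw [Int.emod_def]; ring]
  exact dvd_sub a3 (dvd_mul_right _ _)

theorem adm1_blks {o : ℤ → ℂ} {A : Finset (periodicPts F.f)}
    (H : ∀ q ∈ A, ∀ j b : ℤ, ∃ t < b, (At.M q : ℤ) ∣ t - j ∧ o t ∉ At.Sc q) (m : ℕ) (b : ℤ) :
    ∃ a, At.Blks o A m a b := by
  induction m with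
  | zero => exact ⟨b, fun _ => b, le_rfl, le_rfl, fun l hl => absurd hl (Nat.not_lt_zero l)⟩
  | succ m ih =>
    obtain ⟨a, τ, -, h2, h3⟩ := ih
    obtain ⟨a', h4, h5⟩ := At.adm1_blk H (τ 0)
    refine ⟨a', fun l => Nat.casesOn l a' τ, le_rfl, h2, fun l hl => ?_⟩
    cases l with
    | zero => exact ⟨h4, h5⟩
    | succ l => exact h3 l (Nat.lt_of_succ_lt_succ hl)

theorem adm_back {y : ℂ} (hy : y ∈ F.Λ) (h : ¬ At.TB y) :
    At.Adm (range fun n : ℕ => F.g^[n] y) F.Λ fun _ => ∅ := by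
  intro O _ hO A m
  obtain ⟨o, ho, h0⟩ := exists_orb F hy
  obtain ⟨a, ha⟩ := At.adm1_blks (o := o) (A := A) (fun q _ j b => by
    have hM : (0 : ℤ) < At.M q := Int.natCast_pos.2 (At.M_pos q)
    have e := Int.toNat_of_nonneg (Int.emod_nonneg (-j) hM.ne')
    obtain ⟨k, hk, hk'⟩ : ∃ k ≥ (-b).toNat + 1,
        F.g^[(-j % At.M q).toNat + k * At.M q] y ∉ At.Sc q := by
      by_contra hc
      exact h ⟨q, _, _, fun k hk => of_not_not fun k' => hc ⟨k, hk, k'⟩⟩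
    refine ⟨0 - ((-j % At.M q).toNat + k * At.M q : ℕ), ?_, ?_, ?_⟩
    · have := Nat.le_mul_of_pos_right k (At.M_pos q)
      omega
    · refine ⟨-j / At.M q - k, ?_⟩
      rw [Nat.cast_add, e, Int.emod_def]
      push_cast
      ring
    · rwa [ho.sub, h0]) m 0
  exact ⟨o, a, 0, ho, ⟨0, h0.symm⟩, fun t _ _ => ⟨hO (ho t).1, notMem_empty _⟩, ha⟩

theorem adm_per (h : ¬ ∃ N > 0, ∀ p ∈ periodicPts F.f, F.f^[N] p = p) :
    At.Adm (periodicPts F.f) F.Λ fun _ => ∅ := by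
  intro O _ hO A m
  obtain ⟨p, hp, hN⟩ : ∃ p ∈ periodicPts F.f, F.f^[∏ q ∈ A, At.M q] p ≠ p := by
    by_contra hc
    exact h ⟨_, Finset.prod_pos fun q _ => At.M_pos q, fun p hp =>
      of_not_not fun k => hc ⟨p, hp, k⟩⟩
  obtain ⟨o, ho, h0⟩ := exists_orb F (F.periodic_mem_Λ hp)
  obtain ⟨P, hP, hp'⟩ := id hp
  have hper : ∀ t, IsPeriodicPt F.f P (o t) := adm1_fix ho (s := 0) (by rw [h0]; exact hp')
  obtain ⟨a, ha⟩ := At.adm1_blks (o := o) (A := A) (fun q hq j b => by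
    obtain ⟨k, hk⟩ : ∃ k, F.f^[At.M q * k] (o j) ∉ At.Sc q := by
      by_contra hc
      have a1 : IsPeriodicPt F.f (At.M q) (o 0) := adm1_fix ho
        (At.per_fixed q ⟨P, hP, hper j⟩ fun k => of_not_not fun k' => hc ⟨k, k'⟩) 0
      rw [h0] at a1
      exact hN (a1.trans_dvd (Finset.dvd_prod_of_mem _ hq))
    obtain ⟨n, hn⟩ : ∃ n : ℕ, j + (At.M q * k : ℕ) - b < n :=
      ⟨(j + (At.M q * k : ℕ) - b).toNat + 1, by omega⟩
    refine ⟨j + (At.M q * k : ℕ) - (At.M q * (P * n) : ℕ), ?_, ⟨k - P * n, ?_⟩, ?_⟩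
    · have := (Nat.le_mul_of_pos_left n hP).trans (Nat.le_mul_of_pos_left _ (At.M_pos q))
      omega
    · push_cast
      ring
    · rwa [← (((hper _).mul_const n).const_mul (At.M q)).eq, ← ho.add, sub_add_cancel, ho.add]) m 0
  exact ⟨o, a, 0, ho, h0 ▸ hp, fun t _ _ => ⟨hO (ho t).1, notMem_empty _⟩, ha⟩

theorem exists_min {S : Set ℂ} (h : At.Adm S F.Λ fun _ => ∅) : ∃ Y, At.MinAdm S Y := by
  obtain ⟨Y, -, ⟨h1, h2, h3⟩, h4⟩ := zorn_superset_nonempty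
    {Y | IsCompact Y ∧ Y ⊆ F.Λ ∧ At.Adm S Y fun _ => ∅} (fun c hc hch ⟨Y0, hY0⟩ => by
      refine ⟨⋂₀ c, ⟨(hc hY0).1.of_isClosed_subset (isClosed_sInter fun Y hY => (hc hY).1.isClosed)
        (sInter_subset_of_mem hY0), (sInter_subset_of_mem hY0).trans (hc hY0).2.1,
        fun O hO hs => ?_⟩, fun s hs => sInter_subset_of_mem hs⟩
      have : Nonempty c := ⟨⟨Y0, hY0⟩⟩
      obtain ⟨Y, hY⟩ := exists_subset_nhds_of_isCompact' (V := fun Y : c => Y.1) (U := O)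
        (fun a b => (hch.total a.2 b.2).elim (fun e => ⟨a, Subset.rfl, e⟩)
          fun e => ⟨b, e, Subset.rfl⟩) (fun Y => (hc Y.2).1) (fun Y => (hc Y.2).1.isClosed)
        fun x hx => hO.mem_nhds (hs (sInter_eq_iInter ▸ hx))
      exact (hc Y.2).2.2 O hO hY) F.Λ ⟨F.Λ_compact, Subset.rfl, h⟩
  exact ⟨Y, h1, h2, h3, fun Y' a1 a2 a3 =>
    a2.antisymm (h4 ⟨h1.of_isClosed_subset a1 a2, a2.trans h2, a3⟩ a2)⟩

theorem exists_max {S Y : Set ℂ} (h : At.Adm S Y fun _ => ∅) (q : periodicPts F.f) :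
    ∃ (𝒜 : Finset (Bool × Bool × ℕ)) (d : ℝ), 0 < d ∧ At.Adm S Y (At.Vq q 𝒜 d) ∧
      ∀ x : Bool × Bool × ℕ, x.2.2 < At.M q → x ∉ 𝒜 → ∀ d' > 0,
        ¬ At.Adm S Y (At.Vq q (insert x 𝒜) d') := by
  classical
  obtain ⟨𝒜, h1, h2⟩ := (((Finset.univ : Finset Bool) ×ˢ (Finset.univ : Finset Bool) ×ˢ
    Finset.range (At.M q)).powerset.filter
      fun 𝒜 => ∃ d > 0, At.Adm S Y (At.Vq q 𝒜 d)).exists_max_image Finset.card
    ⟨∅, Finset.mem_filter.2 ⟨Finset.empty_mem_powerset _, 1, one_pos,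
      h.mono fun t w ⟨x, hx, _⟩ => absurd hx (Finset.notMem_empty x)⟩⟩
  obtain ⟨h3, d, hd, h4⟩ := Finset.mem_filter.1 h1
  refine ⟨𝒜, d, hd, h4, fun x hx hn d' hd' h5 => ?_⟩
  have := h2 (insert x 𝒜) (Finset.mem_filter.2 ⟨Finset.mem_powerset.2 (Finset.insert_subset
    (Finset.mem_product.2 ⟨Finset.mem_univ _, Finset.mem_product.2
      ⟨Finset.mem_univ _, Finset.mem_range.2 hx⟩⟩) (Finset.mem_powerset.1 h3)), d', hd', h5⟩)
  rw [Finset.card_insert_of_notMem hn] at this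
  omega

end Atlas

theorem src_back (F : Dis) {y : ℂ} (hy : y ∈ F.Λ) : Src F (range fun n : ℕ => F.g^[n] y) :=
  ⟨range_subset_iff.2 (F.iter_g_mem_Λ hy),
    fun _ ⟨n, hn⟩ => ⟨n + 1, hn ▸ iterate_succ_apply' F.g n y⟩, Or.inr ⟨y, hy, rfl⟩⟩

theorem src_per (F : Dis) : Src F (periodicPts F.f) :=
  ⟨fun _ h => F.periodic_mem_Λ h, fun _ h => (per_iter F h 1).2, Or.inl Subset.rfl⟩

end Pool.Agent.Lib.MP_3fe454_an.S2
end

-- part Pool.Agent.Lib.MP_3fe454_an.S2.Adm2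
section

/-!
Families of segments with superblocks.
-/

set_option autoImplicit false

open Set Metric Filter Topology Function

namespace Pool.Agent.Lib.MP_3fe454_an.S2

open PD

theorem adm2_step {τ : ℕ → ℤ} {N : ℕ} {c : ℤ} (h : ∀ l < N, τ l + c ≤ τ (l + 1)) (l k : ℕ)
    (hk : l + k ≤ N) : τ l + k * c ≤ τ (l + k) := by
  induction k with
  | zero => simp
  | succ k ih =>
    have h1 := ih (by omega)
    have h2 := h (l + k) (by omega)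
    rw [← add_assoc]
    push_cast
    linarith

theorem adm2_mono {τ : ℕ → ℤ} {N : ℕ} (h : ∀ l < N, τ l ≤ τ (l + 1)) {l l' : ℕ} (hl : l ≤ l')
    (hN : l' ≤ N) : τ l ≤ τ l' := by
  obtain ⟨k, rfl⟩ := Nat.exists_eq_add_of_le hl
  simpa using adm2_step (c := 0) (fun l hl => by simpa using h l hl) l k hN

namespace Atlas

variable {F : Dis} {At : Atlas F} {S Y : Set ℂ} {V : ℤ → Set ℂ}

theorem Adm.fam (h : At.Adm S Y V) (hS : MapsTo F.g S S) (hp : (periodicPts F.f).Nonempty) :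
    ∃ (ι : Type) (U : Ultrafilter ι) (o : ι → ℤ → ℂ) (β : ℤ → ι → ℤ), At.Fam S Y V U o β := by
  classical
  obtain ⟨q0, hq0⟩ := hp
  have : Nonempty {O : Set ℂ // IsOpen O ∧ Y ⊆ O} := ⟨⟨univ, isOpen_univ, subset_univ _⟩⟩
  have : IsCodirectedOrder {O : Set ℂ // IsOpen O ∧ Y ⊆ O} :=
    ⟨fun a b => ⟨⟨a.1 ∩ b.1, a.2.1.inter b.2.1, subset_inter a.2.2 b.2.2⟩,
      inter_subset_left, inter_subset_right⟩⟩
  let ι := {O : Set ℂ // IsOpen O ∧ Y ⊆ O} × Finset (periodicPts F.f) × ℕ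
  let l : Filter ι := atBot ×ˢ atTop ×ˢ atTop
  have : l.NeBot := inferInstanceAs (NeBot (atBot ×ˢ atTop ×ˢ atTop))
  have H := fun i : ι => h i.1.1 i.1.2.1 i.1.2.2 i.2.1 (i.2.2 * (2 * i.2.2 + 1))
  choose o a b ho hb hr τ ha hτb hτ using H
  have hU : ∀ (O : Set ℂ) (hO : IsOpen O ∧ Y ⊆ O) (A : Finset (periodicPts F.f)) (m : ℕ),
      ∀ᶠ i : ι in (Ultrafilter.of l : Filter ι), i.1.1 ⊆ O ∧ A ⊆ i.2.1 ∧ m ≤ i.2.2 :=
    fun O hO A m => Ultrafilter.of_le l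
      ((eventually_le_atBot (⟨O, hO⟩ : {O : Set ℂ // IsOpen O ∧ Y ⊆ O})).prod_mk
        ((eventually_ge_atTop A).prod_mk (eventually_ge_atTop m)))
  have idx : ∀ (K : ℤ) (m : ℕ), K.natAbs ≤ m →
      (K + 1 + m).toNat * m = (K + m).toNat * m + m ∧
        (K + m).toNat * m + m ≤ m * (2 * m + 1) := fun K m hK => by
    have e : (K + 1 + m).toNat = (K + m).toNat + 1 := by omega
    have e2 : (K + m).toNat + 1 ≤ 2 * m + 1 := by omega
    refine ⟨by rw [e]; ring, ?_⟩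
    calc (K + m).toNat * m + m = m * ((K + m).toNat + 1) := by ring
      _ ≤ m * (2 * m + 1) := Nat.mul_le_mul_left _ e2
  refine ⟨ι, Ultrafilter.of l, o, fun K i => τ i ((K + i.2.2).toNat * i.2.2), ho,
    fun K n => ?_, fun K O hO hY => ?_, fun K A m => ?_⟩
  · filter_upwards [hU univ ⟨isOpen_univ, subset_univ _⟩ {⟨q0, hq0⟩} (max K.natAbs n)] with i hi
    obtain ⟨-, h2, h3⟩ := hi
    obtain ⟨e1, e2⟩ := idx K i.2.2 (le_of_max_le_left h3)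
    have h4 := adm2_step (τ := τ i) (c := 1) (fun l hl => by
      obtain ⟨t, t1, t2, -⟩ := (hτ i l hl).2 _ (h2 (Finset.mem_singleton_self _)) 0
      omega) _ _ e2
    have h5 : n ≤ i.2.2 := le_of_max_le_right h3
    rw [e1]
    omega
  · filter_upwards [hU O ⟨hO, hY⟩ ∅ K.natAbs] with i hi t t1 t2
    obtain ⟨h1, -, h3⟩ := hi
    obtain ⟨e1, e2⟩ := idx K i.2.2 h3
    rw [e1] at t2
    have m1 := adm2_mono (fun l hl => (hτ i l hl).1) (Nat.zero_le _) (le_of_add_le_left e2)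
    have m2 := adm2_mono (fun l hl => (hτ i l hl).1) e2 le_rfl
    have a1 := ha i
    have a2 := hτb i
    obtain ⟨k1, k2⟩ := hr i t (by omega) (by omega)
    refine ⟨h1 k1, k2, ?_⟩
    have e : t = b i - ((b i - t).toNat : ℕ) := by omega
    rw [e, (ho i).sub]
    exact hS.iterate _ (hb i)
  · filter_upwards [hU univ ⟨isOpen_univ, subset_univ _⟩ A (max K.natAbs m)] with i hi
    obtain ⟨-, h2, h3⟩ := hi
    obtain ⟨e1, e2⟩ := idx K i.2.2 (le_of_max_le_left h3)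
    have h5 : m ≤ i.2.2 := le_of_max_le_right h3
    rw [e1]
    refine ⟨fun l => τ i ((K + i.2.2).toNat * i.2.2 + l), le_rfl,
      adm2_mono (fun l hl => (hτ i l hl).1) (by omega) e2, fun l hl => ?_⟩
    obtain ⟨k1, k2⟩ := hτ i ((K + i.2.2).toNat * i.2.2 + l) (by omega)
    exact ⟨k1, fun q hq => k2 q (h2 hq)⟩

variable {ι : Type} {U : Ultrafilter ι} {o : ι → ℤ → ℂ} {β : ℤ → ι → ℤ}

theorem Fam.mono (h : At.Fam S Y V U o β) {K K' : ℤ} (hK : K ≤ K') :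
    ∀ᶠ i in U, β K i ≤ β K' i := by
  induction K', hK using Int.leInduction with
  | base => exact Eventually.of_forall fun _ => le_rfl
  | succ n _ ih =>
    filter_upwards [ih, h.2.1 n 0] with i h1 h2
    omega

theorem adm2_range (h : At.Fam S Y V U o β) {K K' : ℤ} (hK : K ≤ K') {O : Set ℂ} (hO : IsOpen O)
    (hY : Y ⊆ O) :
    ∀ᶠ i in U, ∀ t, β K i ≤ t → t ≤ β K' i → o i t ∈ O ∧ o i t ∉ V t ∧ o i t ∈ S := by
  induction K', hK using Int.leInduction with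
  | base =>
    filter_upwards [h.2.2.1 K O hO hY, h.2.1 K 0] with i h1 h2 t t1 t2
    exact h1 t t1 (by omega)
  | succ n _ ih =>
    filter_upwards [ih, h.2.2.1 n O hO hY] with i h1 h2 t t1 t2
    rcases le_total t (β n i) with k | k
    · exact h1 t t1 k
    · exact h2 t k t2

theorem Fam.range (h : At.Fam S Y V U o β) (K : ℕ) {O : Set ℂ} (hO : IsOpen O) (hY : Y ⊆ O) :
    ∀ᶠ i in U, ∀ t, β (-K) i ≤ t → t ≤ β K i → o i t ∈ O ∧ o i t ∉ V t ∧ o i t ∈ S :=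
  adm2_range h (by omega) hO hY

theorem adm2_lim_mem (h : At.Fam S Y V U o β) (hY : IsClosed Y) {K K' : ℤ} (hK : K ≤ K')
    {t : ι → ℤ} {w : ℂ} (ht : ∀ᶠ i in U, β K i ≤ t i ∧ t i ≤ β K' i) (hw : Lim U o t w) :
    w ∈ Y := by
  by_contra hn
  obtain ⟨ε, hε, hb⟩ := nhds_basis_closedBall.mem_iff.1 (hY.isOpen_compl.mem_nhds hn)
  obtain ⟨i, h1, h2, h3⟩ := ((adm2_range h hK (O := (closedBall w ε)ᶜ)
    isClosed_closedBall.isOpen_compl (subset_compl_comm.1 hb)).and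
      (ht.and (hw.eventually (closedBall_mem_nhds w hε)))).exists
  exact (h1 _ h2.1 h2.2).1 h3

theorem Fam.lim_mem (h : At.Fam S Y V U o β) (hY : IsClosed Y) (K : ℕ) {t : ι → ℤ} {w : ℂ}
    (ht : ∀ᶠ i in U, β (-K) i ≤ t i ∧ t i ≤ β K i) (hw : Lim U o t w) : w ∈ Y :=
  adm2_lim_mem h hY (by omega) ht hw

theorem Fam.hit (h : At.Fam S Y V U o β) (hY : At.MinAdm S Y) {w : ℂ} (hw : w ∈ Y) :
    ∃ t, (∀ᶠ i in U, β 0 i ≤ t i ∧ t i ≤ β 1 i) ∧ Lim U o t w := by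
  have h01 := h.mono (K := 0) (K' := 1) zero_le_one
  have key := hY.2.2.2 {w | ∃ t, (∀ᶠ i in U, β 0 i ≤ t i ∧ t i ≤ β 1 i) ∧ Lim U o t w}
    (isClosed_of_closure_subset fun z hz => ?_)
    (fun z ⟨t, h1, h2⟩ => adm2_lim_mem h hY.1.isClosed zero_le_one h1 h2)
    fun O hO hs A m => ?_
  · rw [← key] at hw
    exact hw
  · have H : ∀ i, ∃ t, β 0 i ≤ β 1 i → t ∈ Finset.Icc (β 0 i) (β 1 i) ∧
        ∀ t' ∈ Finset.Icc (β 0 i) (β 1 i), dist (o i t) z ≤ dist (o i t') z := fun i => by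
      by_cases hi : β 0 i ≤ β 1 i
      · obtain ⟨t, ht⟩ := Finset.exists_min_image (Finset.Icc (β 0 i) (β 1 i))
          (fun t => dist (o i t) z) (Finset.nonempty_Icc.2 hi)
        exact ⟨t, fun _ => ht⟩
      · exact ⟨0, fun k => absurd k hi⟩
    choose t ht using H
    refine ⟨t, h01.mono fun i hi => Finset.mem_Icc.1 (ht i hi).1,
      Metric.tendsto_nhds.2 fun ε hε => ?_⟩
    obtain ⟨z', ⟨t', h1, h2⟩, hd⟩ := Metric.mem_closure_iff.1 hz (ε / 2) (half_pos hε)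
    filter_upwards [h01, h1, Metric.tendsto_nhds.1 h2 (ε / 2) (half_pos hε)] with i k1 k2 k3
    have k4 := (ht i k1).2 _ (Finset.mem_Icc.2 k2)
    have k5 := dist_triangle_right (o i (t' i)) z z'
    linarith
  · have H : ∀ᶠ i in U, ∀ t, β 0 i ≤ t → t ≤ β 1 i → o i t ∈ O := by
      by_contra hn
      have hn' := Ultrafilter.eventually_not.2 hn
      have H : ∀ i, ∃ t, (¬ ∀ t, β 0 i ≤ t → t ≤ β 1 i → o i t ∈ O) →
          (β 0 i ≤ t ∧ t ≤ β 1 i) ∧ o i t ∉ O := fun i => by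
        by_cases hi : ∀ t, β 0 i ≤ t → t ≤ β 1 i → o i t ∈ O
        · exact ⟨0, fun k => absurd hi k⟩
        · simp only [not_forall] at hi
          obtain ⟨t, t1, t2, t3⟩ := hi
          exact ⟨t, fun _ => ⟨⟨t1, t2⟩, t3⟩⟩
      choose t ht using H
      obtain ⟨z, hz⟩ := lim_exists (U := U) h.1 t
      exact hz.closed hO.isClosed_compl (hn'.mono fun i hi => (ht i hi).2)
        (hs ⟨t, hn'.mono fun i hi => (ht i hi).1, hz⟩)
    obtain ⟨i, k1, k2, k3, k4⟩ := (H.and (h01.and ((h.2.2.2 0 A m).and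
      (h.2.2.1 0 univ isOpen_univ (subset_univ _))))).exists
    rw [zero_add] at k3 k4
    exact ⟨o i, β 0 i, β 1 i, h.1 i, (k4 _ k2 le_rfl).2.2,
      fun t t1 t2 => ⟨k1 t t1 t2, notMem_empty _⟩, k3⟩

theorem MinAdm.per (hY : At.MinAdm S Y) (hS : MapsTo F.g S S) (hp : HP F) :
    ∃ p ∈ Y, p ∈ periodicPts F.f := by
  obtain ⟨ι, U, o, β, h⟩ := hY.2.2.1.fam hS hp.per_nonempty
  refine hp Y hY.1 ?_ (hY.2.1.trans F.Λ_sub_Disc) fun w hw => ?_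
  · obtain ⟨z, hz⟩ := lim_exists (U := U) h.1 (β 0)
    exact ⟨z, adm2_lim_mem h hY.1.isClosed (le_refl 0)
      (Eventually.of_forall fun _ => ⟨le_rfl, le_rfl⟩) hz⟩
  · obtain ⟨t, h1, h2⟩ := h.hit hY hw
    refine adm2_lim_mem h hY.1.isClosed (K := 0) (K' := 1 + 1) (by norm_num) ?_ (h2.add h.1 1)
    filter_upwards [h1, h.2.1 1 1] with i k1 k2
    omega

theorem Fam.exit (h : At.Fam S Y V U o β) (K : ℤ) (q : periodicPts F.f) :
    ∀ᶠ i in U, ∀ j : ℤ, ∃ t, β K i ≤ t ∧ t < β (K + 1) i ∧ (At.M q : ℤ) ∣ t - j ∧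
      o i t ∉ At.Sc q := by
  filter_upwards [h.2.2.2 K {q} 1] with i hi j
  obtain ⟨τ, h1, h2, h3⟩ := hi
  obtain ⟨t, t1, t2, t3⟩ := (h3 0 one_pos).2 q (Finset.mem_singleton_self q) j
  exact ⟨t, h1.trans t1, t2.trans_le h2, t3⟩

theorem Fam.exF (h : At.Fam S Y V U o β) {K : ℤ} {t : ι → ℤ} (ht : ∀ᶠ i in U, t i ≤ β K i) :
    At.ExF U o t := fun q j => by
  filter_upwards [ht, h.exit K q] with i h1 h2
  obtain ⟨t', t1, -, t3⟩ := h2 j
  exact ⟨t', h1.trans t1, t3⟩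

theorem Fam.exB (h : At.Fam S Y V U o β) {K : ℤ} {t : ι → ℤ} (ht : ∀ᶠ i in U, β K i ≤ t i) :
    At.ExB U o t := fun q j => by
  filter_upwards [ht, h.exit (K - 1) q] with i h1 h2
  obtain ⟨t', -, t2, t3⟩ := h2 j
  rw [sub_add_cancel] at t2
  exact ⟨t', t2.le.trans h1, t3⟩

end Atlas

end Pool.Agent.Lib.MP_3fe454_an.S2
end

-- part Pool.Agent.Lib.MP_3fe454_an.S2.Loc1
section

/-!
Existence of the local structures.
-/

set_option autoImplicit false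

open Set Metric Filter Topology Function

namespace Pool.Agent.Lib.MP_3fe454_an.S2

open PD

theorem loc1_norm_lt (F : Dis) {M : ℕ} (hM : 0 < M) {q : ℂ} (hq : F.f^[M] q = q) : ‖q‖ < 1 := by
  obtain ⟨k, rfl⟩ := Nat.exists_eq_succ_of_ne_zero hM.ne'
  rw [← hq, iterate_succ_apply']
  exact (F.maps _).trans_lt F.r0_lt

theorem loc1_strict {G : ℂ → ℂ} {L : ℂ →L[ℝ] ℂ} {q : ℂ} (hL : HasStrictFDerivAt G L q)
    (hq : ‖q‖ < 1) {ε : ℝ} (hε : 0 < ε) : ∃ δ > 0, (∀ w, ‖w - q‖ ≤ δ → ‖w‖ < 1) ∧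
      ∀ w w', ‖w - q‖ ≤ δ → ‖w' - q‖ ≤ δ → ‖G w - G w' - L (w - w')‖ ≤ ε * ‖w - w'‖ := by
  obtain ⟨δ, h0, h⟩ := Metric.eventually_nhds_iff.1 (hL.isLittleO.def hε)
  refine ⟨min (δ / 2) ((1 - ‖q‖) / 2), lt_min (by linarith) (by linarith), fun w hw => ?_,
    fun w w' hw hw' => h (y := (w, w')) ?_⟩
  · have := norm_add_le (w - q) q
    rw [sub_add_cancel] at this
    linarith [hw.trans (min_le_right _ _)]
  · rw [Prod.dist_eq, dist_eq_norm, dist_eq_norm]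
    exact max_lt (by linarith [hw.trans (min_le_left _ _)])
      (by linarith [hw'.trans (min_le_left _ _)])

theorem exists_trap (F : Dis) {M : ℕ} (hM : 0 < M) {q : ℂ} (hq : F.f^[M] q = q)
    {L : ℂ →L[ℝ] ℂ} (hL : HasStrictFDerivAt F.f^[M] L q) (N : Seminorm ℝ ℂ) {θ c C : ℝ}
    (h0 : 0 < θ) (h1 : θ < 1) (hc : 0 < c) (hl : ∀ v, c * ‖v‖ ≤ N v) (hu : ∀ v, N v ≤ C * ‖v‖)
    (hN : ∀ v, N (L v) ≤ θ * N v) : ∃ T : Trap F, T.M = M ∧ T.q = q := by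
  have hC : 0 < C := by
    have := (hl 1).trans (hu 1)
    rw [norm_one] at this
    linarith
  obtain ⟨δ, d0, d1, d2⟩ := loc1_strict hL (loc1_norm_lt F hM hq)
    (ε := (1 - θ) / 2 * c / C) (by have : 0 < 1 - θ := by linarith
                                   positivity)
  have key : ∀ w, N (w - q) ≤ c * δ → ‖w - q‖ ≤ δ := fun w hw =>
    le_of_mul_le_mul_left ((hl _).trans hw) hc
  refine ⟨⟨q, M, N, c * δ, (1 + θ) / 2, c, C, hM, by positivity, by positivity, by linarith, hc,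
    hl, hu, hq, fun w hw => d1 w (key w hw), fun w w' hw hw' => ?_⟩, rfl, rfl⟩
  have a1 := map_add_le_add N (F.f^[M] w - F.f^[M] w' - L (w - w')) (L (w - w'))
  rw [sub_add_cancel] at a1
  have a2 := (hu _).trans (mul_le_mul_of_nonneg_left (d2 w w' (key w hw) (key w' hw')) hC.le)
  have a3 : C * ((1 - θ) / 2 * c / C * ‖w - w'‖) = (1 - θ) / 2 * (c * ‖w - w'‖) := by
    field_simp
  have a4 := mul_le_mul_of_nonneg_left (hl (w - w')) (show 0 ≤ (1 - θ) / 2 by linarith)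
  linarith [hN (w - w')]

/-- projection to the square -/
def loc1_cl (u : ℝ × ℝ) : ℝ × ℝ := (max (-2) (min u.1 2), max (-2) (min u.2 2))

theorem loc1_c1 (x : ℝ) : |max (-2) (min x 2)| ≤ 2 :=
  abs_le.2 ⟨le_max_left _ _, max_le (by norm_num) (min_le_right _ _)⟩

theorem loc1_c2 (x y : ℝ) : |max (-2) (min x 2) - max (-2) (min y 2)| ≤ |x - y| := by
  refine (abs_max_sub_max_le_max _ _ _ _).trans (max_le (by simp) ?_)
  refine (abs_min_sub_min_le_max _ _ _ _).trans (max_le le_rfl (by simp))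

theorem loc1_cl_norm (u : ℝ × ℝ) : ‖loc1_cl u‖ ≤ 2 :=
  norm_prod_le_iff.2 ⟨loc1_c1 _, loc1_c1 _⟩

theorem loc1_cl_lip (u v : ℝ × ℝ) : ‖loc1_cl u - loc1_cl v‖ ≤ ‖u - v‖ :=
  norm_prod_le_iff.2 ⟨(loc1_c2 _ _).trans (norm_fst_le (u - v)),
    (loc1_c2 _ _).trans (norm_snd_le (u - v))⟩

theorem loc1_cl_eq {u : ℝ × ℝ} (h : ‖u‖ ≤ 2) : loc1_cl u = u := by
  obtain ⟨h1, h2⟩ := norm_prod_le_iff.1 h
  rw [Real.norm_eq_abs, abs_le] at h1 h2
  rw [loc1_cl, min_eq_left h1.2, min_eq_left h2.2, max_eq_right h1.1, max_eq_right h2.1]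

theorem loc1_box (F : Dis) {M : ℕ} (hM : 0 < M) {q : ℂ} (hq : F.f^[M] q = q)
    (A : ℂ ≃L[ℝ] ℝ × ℝ) {s l e : ℝ} (hs : 1 ≤ s) (e0 : 0 < e) (e1 : e < l) (e2 : l + 2 * e < 1)
    (e3 : l + 4 * e < s) (e4 : (l + e) * (s + e) < 1) (hD : ∀ w, ‖A (w - q)‖ ≤ 2 → ‖w‖ < 1)
    (hE : ∀ w w', ‖A (w - q)‖ ≤ 2 → ‖A (w' - q)‖ ≤ 2 →
      ‖A (F.f^[M] w - F.f^[M] w') - (s * (A (w - w')).1, l * (A (w - w')).2)‖ ≤
        e * ‖A (w - w')‖) :
    ∃ B : Box F, B.M = M ∧ B.Full ∧ B.Cone ∧ B.X q = 0 ∧ B.Y q = 0 ∧ B.Gt q = q := by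
  let T : ℂ ≃ₜ ℝ × ℝ := (Homeomorph.subRight q).trans A.toHomeomorph
  have hT : ∀ w, T w = A (w - q) := fun _ => rfl
  have hTT : ∀ w w', A (w - w') = T w - T w' := fun w w' => by
    rw [hT, hT, ← map_sub, sub_sub_sub_cancel_right]
  have T0 : T q = 0 := by rw [hT, sub_self, map_zero]
  let m : Mdl :=
    { H := fun u => (s * u.1, l * u.2) +
        (T (F.f^[M] (T.symm (loc1_cl u))) - (s * (loc1_cl u).1, l * (loc1_cl u).2))
      s := s, l := l, e := e, e_pos := e0, e_lt := e1, l_lt := e2, dom := e3, one_le := hs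
      zero := by
        have : T.symm 0 = q := T.symm_apply_eq.2 T0.symm
        simp only [loc1_cl_eq (u := 0) (by simp), this, hq, T0]
        simp
      lip := fun u v => by
        have h := hE (T.symm (loc1_cl u)) (T.symm (loc1_cl v))
          (by rw [← hT, T.apply_symm_apply]; exact loc1_cl_norm u)
          (by rw [← hT, T.apply_symm_apply]; exact loc1_cl_norm v)
        rw [hTT, hTT, T.apply_symm_apply, T.apply_symm_apply] at h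
        refine le_trans (le_of_eq ?_) (h.trans (mul_le_mul_of_nonneg_left (loc1_cl_lip u v) e0.le))
        congr 1
        ext <;> simp <;> ring }
  obtain ⟨Ψ, H, φ, hH, c0, c1, c2, c3, c4, c5⟩ := m.chart
  have hS : ∀ u, |(Ψ u).1| ≤ 1 → |(Ψ u).2| ≤ 1 → ‖u‖ ≤ 2 := fun u h1 h2 => by
    have a1 := c4 u
    have a2 := c5 (Ψ.symm ((Ψ u).1, 0)) (by rw [Ψ.apply_symm_apply])
    rw [Ψ.apply_symm_apply] at a2
    have a3 : ‖Ψ.symm ((Ψ u).1, 0)‖ ≤ 1 := by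
      have a4 : |(Ψ.symm ((Ψ u).1, 0)).1| ≤ 1 := by rw [← a2.1]; exact h1
      exact norm_prod_le_iff.2 ⟨a4, a2.2.trans a4⟩
    have := norm_add_le (u - Ψ.symm ((Ψ u).1, 0)) (Ψ.symm ((Ψ u).1, 0))
    rw [sub_add_cancel] at this
    linarith
  have hF : ∀ w, ‖T w‖ ≤ 2 → F.f^[M] w = T.symm (H (T w)) := fun w hw => by
    rw [hH]
    refine (T.symm_apply_eq.2 ?_).symm
    simp only [m, loc1_cl_eq hw, T.symm_apply_apply]
    abel
  let B : Box F :=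
    { M := M, A := A, Ψ := T.trans Ψ, Gt := (T.trans H).trans T.symm, φ := φ
      lam := l + e, sig := s + e, M_pos := hM, lam_pos := by linarith, lam_lt := by linarith
      one_le_sig := by linarith, mul_lt := e4
      lev := fun w => by simpa using c1 (T w)
      mono := fun w w' h1 h2 => by simpa using c2 (T w) (T w') h1 h2
      contr := fun w => by simpa using c3 (T w)
      lip := fun w w' => by
        rw [hTT, hTT]
        simpa [hH] using m.lipH (T w) (T w')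
      base := fun w => by
        rw [hTT]
        simpa using c4 (T w)
      sub := fun w h1 h2 => hD w (hS (T w) h1 h2)
      ag := fun w h1 h2 _ => hF w (hS (T w) h1 h2) }
  refine ⟨B, rfl, fun w hw => hF w (hS (T w) hw.1 hw.2),
    ⟨s, l, e, e0, by linarith, e2, e3, fun w hw w' hw' =>
      hE w w' (hS (T w) hw.1 hw.2) (hS (T w') hw'.1 hw'.2), fun w w' h1 h2 => ?_⟩, ?_, ?_, ?_⟩
  · change (Ψ (T w)).1 - (Ψ (T w')).1 = (A (w - w')).1
    rw [(c5 (T w) h1).1, (c5 (T w') h2).1, hTT, Prod.fst_sub]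
  · change (Ψ (T q)).1 = 0
    rw [T0, c0, Prod.fst_zero]
  · change (Ψ (T q)).2 = 0
    rw [T0, c0, Prod.snd_zero]
  · exact (hF q (by rw [T0]; simp)).symm.trans hq

theorem exists_box (F : Dis) {M : ℕ} (hM : 0 < M) {q : ℂ} (hq : F.f^[M] q = q)
    {L : ℂ →L[ℝ] ℂ} (hL : HasStrictFDerivAt F.f^[M] L q) (A : ℂ ≃L[ℝ] ℝ × ℝ) {s l : ℝ}
    (hs : 1 ≤ s) (hl : 0 < l) (hls : l * s < 1)
    (hA : ∀ v, A (L v) = (s * (A v).1, l * (A v).2)) :
    ∃ B : Box F, B.M = M ∧ B.Full ∧ B.Cone ∧ B.X q = 0 ∧ B.Y q = 0 ∧ B.Gt q = q := by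
  have l1 : l < 1 := by nlinarith
  obtain ⟨e, ⟨e1, e2, e3, e4⟩, e0⟩ : ∃ e : ℝ, (e < l ∧ l + 2 * e < 1 ∧ l + 4 * e < s ∧
      (l + e) * (s + e) < 1) ∧ 0 < e := by
    have k : ∀ (f : ℝ → ℝ) (c : ℝ), Continuous f → f 0 < c → ∀ᶠ e in 𝓝[>] (0 : ℝ), f e < c :=
      fun f c hf h => nhdsWithin_le_nhds (hf.continuousAt.eventually_lt continuousAt_const h)
    exact (((k (fun e => e) l (by fun_prop) hl).and ((k (fun e => l + 2 * e) 1 (by fun_prop)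
      (by simpa using l1)).and ((k (fun e => l + 4 * e) s (by fun_prop) (by simp; linarith)).and
      (k (fun e => (l + e) * (s + e)) 1 (by fun_prop) (by simpa using hls))))).and
      self_mem_nhdsWithin).exists
  obtain ⟨a, a0, ha⟩ := (A : ℂ →L[ℝ] ℝ × ℝ).bound
  obtain ⟨b, b0, hb⟩ := (A.symm : ℝ × ℝ →L[ℝ] ℂ).bound
  have hb' : ∀ v, ‖v‖ ≤ b * ‖A v‖ := fun v => by simpa using hb (A v)
  obtain ⟨δ, d0, d1, d2⟩ := loc1_strict hL (loc1_norm_lt F hM hq) (ε := e / (a * b))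
    (by positivity)
  have k0 : 0 < 2 * b / δ := by positivity
  obtain ⟨A', hA'⟩ : ∃ A' : ℂ ≃L[ℝ] ℝ × ℝ, ∀ v, A' v = (2 * b / δ) • A v :=
    ⟨((LinearEquiv.smulOfNeZero ℝ ℂ _ k0.ne').trans A.toLinearEquiv).toContinuousLinearEquiv,
      fun v => A.map_smul _ v⟩
  have hn : ∀ v, ‖A' v‖ = 2 * b / δ * ‖A v‖ := fun v => by
    rw [hA', norm_smul, Real.norm_of_nonneg k0.le]
  have key : ∀ w, ‖A' (w - q)‖ ≤ 2 → ‖w - q‖ ≤ δ := fun w hw => by
    rw [hn, div_mul_eq_mul_div, div_le_iff₀ d0] at hw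
    linarith [hb' (w - q)]
  refine loc1_box F hM hq A' hs e0 e1 e2 e3 e4 (fun w hw => d1 w (key w hw))
    fun w w' hw hw' => ?_
  have a1 : A' (F.f^[M] w - F.f^[M] w') - (s * (A' (w - w')).1, l * (A' (w - w')).2) =
      A' (F.f^[M] w - F.f^[M] w' - L (w - w')) := by
    rw [map_sub A' _ (L _), hA' (L _), hA, hA' (w - w')]
    congr 1
    ext <;> simp only [Prod.smul_fst, Prod.smul_snd, smul_eq_mul] <;> ring
  have a2 := (ha _).trans (mul_le_mul_of_nonneg_left ((d2 w w' (key w hw) (key w' hw')).trans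
    (mul_le_mul_of_nonneg_left (hb' _) (by positivity))) a0.le)
  have a3 : a * (e / (a * b) * (b * ‖A (w - w')‖)) = e * ‖A (w - w')‖ := by field_simp
  rw [a1, hn, hn, mul_left_comm]
  exact mul_le_mul_of_nonneg_left (a2.trans_eq a3) k0.le

theorem exists_loc (F : Dis) {P : ℕ} (hP : 0 < P) {q : ℂ} (hq : F.f^[P] q = q) :
    ∃ L : Loc F, L.M = 2 * P ∧ L.OK q ∧ ∀ B, L = Sum.inr B → B.X q = 0 := by
  obtain ⟨L, hL, h0, h1⟩ := iter_strict F P hP (loc1_norm_lt F hP hq)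
  have h2 : HasStrictFDerivAt F.f^[2 * P] (L.comp L) q := by
    rw [two_mul, iterate_add]
    exact HasStrictFDerivAt.comp q (g := F.f^[P]) (f := F.f^[P]) (by rw [hq]; exact hL) hL
  have hq2 : F.f^[2 * P] q = q := by rw [two_mul, iterate_add_apply, hq, hq]
  rcases lin_dich L h0 h1 with ⟨N, θ, c, C, a0, a1, a2, a3, a4, a5⟩ | ⟨A, s, l, a0, a1, a2, a3⟩
  · obtain ⟨T, t1, t2⟩ := exists_trap F (by omega) hq2 h2 N a0 a1 a2 a3 a4 a5
    exact ⟨Sum.inl T, t1, t2, fun _ h => nomatch h⟩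
  · obtain ⟨B, b1, b2, b3, b4, b5, b6⟩ := exists_box F (by omega) hq2 h2 A a0 a1 a2 a3
    refine ⟨Sum.inr B, b1, ⟨b2, b3, by rw [b4]; norm_num, b5, b6⟩, fun B' h => ?_⟩
    rw [← Sum.inr.inj h, b4]

theorem exists_atlas (F : Dis) : Nonempty (Atlas F) := by
  have : ∀ q : periodicPts F.f, ∃ L : Loc F, L.OK q := fun q => by
    obtain ⟨P, hP, hq⟩ := q.2
    obtain ⟨L, -, h, -⟩ := exists_loc F hP hq
    exact ⟨L, h⟩
  choose L h using this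
  exact ⟨⟨L, h⟩⟩

theorem loc1_near (F : Dis) {P : ℕ} (hP : 0 < P) {q : ℂ} (hq : F.f^[P] q = q) :
    ∃ (L : Loc F) (U : Set ℂ), L.M = 2 * P ∧ U ∈ 𝓝 q ∧ ∀ p ∈ U, F.f^[P] p = p → L.OK p := by
  obtain ⟨L, h1, h2, h3⟩ := exists_loc F hP hq
  have two : ∀ p, F.f^[P] p = p → F.f^[L.M] p = p := fun p hp => by
    rw [h1, two_mul, iterate_add_apply, hp, hp]
  rcases L with T | B
  · obtain rfl : T.q = q := h2
    have hc : Continuous fun w : ℂ => T.C * ‖w - T.q‖ := by fun_prop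
    refine ⟨_, {w | T.C * ‖w - T.q‖ < T.r}, h1, (isOpen_lt hc continuous_const).mem_nhds
      (by simpa using T.r_pos), fun p hp hp' => ?_⟩
    have a1 := T.contr p T.q ((T.up _).trans (le_of_lt hp)) (by simpa using T.r_pos.le)
    rw [T.fix, show F.f^[T.M] p = p from two p hp'] at a1
    have a2 : T.N (p - T.q) ≤ 0 := by nlinarith [T.θ_lt]
    have a3 := nonpos_of_mul_nonpos_right ((T.low _).trans a2) T.c_pos
    exact (sub_eq_zero.1 (norm_le_zero_iff.1 a3)).symm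
  · obtain ⟨b1, b2, -, b4, -⟩ := h2
    have cx : Continuous fun w => |B.X w| := (continuous_fst.comp B.Ψ.continuous).abs
    have cy : Continuous fun w => |B.Y w| := (continuous_snd.comp B.Ψ.continuous).abs
    refine ⟨_, {w | |B.X w| < 1 / 4} ∩ {w | |B.Y w| < 1}, h1,
      ((isOpen_lt cx continuous_const).inter (isOpen_lt cy continuous_const)).mem_nhds
        ⟨by simp [h3 B rfl], by simp [b4]⟩, fun p hp hp' => ?_⟩
    have x1 : |B.X p| < 1 / 4 := hp.1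
    have a1 : B.Gt p = p := (b1 p ⟨by linarith, le_of_lt hp.2⟩).symm.trans (two p hp')
    refine ⟨b1, b2, x1.le, ?_, a1⟩
    have a2 := B.contr p
    rw [a1] at a2
    exact abs_nonpos_iff.1 (by nlinarith [B.lam_lt] : |(B.Ψ p).2| ≤ 0)

theorem exists_fin_atlas (F : Dis) {N : ℕ} (hN : 0 < N)
    (h : ∀ p ∈ periodicPts F.f, F.f^[N] p = p) : ∃ At : Atlas F, At.Fin (2 * N) := by
  have hK : IsCompact {p : ℂ | F.f^[N] p = p} :=
    (isCompact_closedBall 0 1).of_isClosed_subset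
      (isClosed_eq (F.cf.iterate N) continuous_id) fun p hp =>
        mem_closedBall_zero_iff.2 (loc1_norm_lt F hN hp).le
  choose L U h1 h2 h3 using fun (q : ℂ) (hq : q ∈ {p : ℂ | F.f^[N] p = p}) => loc1_near F hN hq
  obtain ⟨t, ht⟩ := hK.elim_nhds_subcover' U h2
  have : ∀ p : periodicPts F.f, ∃ q ∈ t, p.1 ∈ U q.1 q.2 := fun p => by
    simpa only [mem_iUnion, exists_prop] using ht (h p.1 p.2)
  choose j j1 j2 using this
  refine ⟨⟨fun p => L (j p).1 (j p).2, fun p => h3 _ _ _ (j2 p) (h p.1 p.2)⟩,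
    (t.finite_toSet.image fun q => L q.1 q.2).subset ?_, fun p => h1 _ _⟩
  rintro _ ⟨p, rfl⟩
  exact ⟨j p, j1 p, rfl⟩

end Pool.Agent.Lib.MP_3fe454_an.S2
end
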