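import Pool.Agent.Lib.MP_3fe454_an.S2.PC0
import Pool.Agent.Lib.MP_3fe454_an.S2.Mdl3
import Pool.Agent.Lib.MP_3fe454_an.S2.HS5
import Pool.Agent.Lib.MP_3fe454_an.S2.Loc1
import Pool.Agent.Lib.MP_3fe454_an.S2.Defs2

-- part Pool.Agent.Lib.MP_3fe454_an.S2.HS2
section

/-!
Honest links and connections.
-/

set_option autoImplicit false

open Set Metric Filter Topology Function

namespace Pool.Agent.Lib.MP_3fe454_an.S2

open PD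

namespace Quad

variable {F : Dis} {Q Q' : Quad F}

theorem hs2_disc {u : ℂ} (h : u ∈ Q.S) : u ∈ Disc := ball_subset_closedBall (Q.S_sub h)

/-- the distance to the stable leaf of the image is controlled by the height -/
theorem hs2_dd (Q Q' : Quad F) (n : ℕ) : ∃ L > 0, ∀ u ∈ Q.S,
    Q'.X (F.f^[n] (Q.pt (Q.X u) 0)) = 0 → Q'.dd (F.f^[n] u) ≤ L * |Q.Y u| := by
  obtain ⟨L, hL, hl⟩ := lip_iter F n
  obtain ⟨C, hC, hc⟩ := Q.dist_base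
  have hA : 0 ≤ ‖(Q'.A : ℂ →L[ℝ] ℝ × ℝ)‖ := norm_nonneg _
  refine ⟨(‖(Q'.A : ℂ →L[ℝ] ℝ × ℝ)‖ + 1) * (L * C), by positivity, fun u hu h0 => ?_⟩
  have hb : Q.pt (Q.X u) 0 ∈ Q.S := by
    refine ⟨?_, ?_⟩
    · rw [Q.X_pt]; exact hu.1
    · rw [Q.Y_pt]; simp
  have h1 : Q'.dd (F.f^[n] u) ≤ dist (Q'.A (F.f^[n] u)) (Q'.A (F.f^[n] (Q.pt (Q.X u) 0))) :=
    infDist_le_dist_of_mem ⟨_, h0, rfl⟩
  have h2 := (Q'.A : ℂ →L[ℝ] ℝ × ℝ).le_opNorm (F.f^[n] u - F.f^[n] (Q.pt (Q.X u) 0))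
  have h3 := hl u (hs2_disc hu) _ (hs2_disc hb)
  have h4 := hc u
  rw [dist_eq_norm, ← map_sub] at h1
  have h5 : ‖F.f^[n] u - F.f^[n] (Q.pt (Q.X u) 0)‖ ≤ L * C * |Q.Y u| := by
    rw [mul_assoc]
    exact h3.trans (mul_le_mul_of_nonneg_left h4 hL.le)
  calc Q'.dd (F.f^[n] u) ≤ _ := h1
    _ ≤ _ := h2
    _ ≤ (‖(Q'.A : ℂ →L[ℝ] ℝ × ℝ)‖ + 1) * (L * C * |Q.Y u|) :=
      mul_le_mul (by linarith) h5 (norm_nonneg _) (by linarith)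
    _ = _ := by ring

theorem hs2_shift (Q : Quad F) (n k : ℕ) (s : ℝ) :
    F.f^[n + Q.M * k] (Q.γ s) = F.f^[n] (Q.γ (s + k)) := by
  rw [iterate_add_apply, Q.γ_iter]

theorem hs2_cont (Q : Quad F) (n : ℕ) :
    Continuous fun p : ℝ × ℝ => F.f^[n] (Q.pt p.1 p.2) := (F.cf.iterate n).comp Q.c_pt

theorem hs2_eh {n : ℕ} {s0 : ℝ} (hs0 : s0 ≤ -2) (h0 : Q'.X (F.f^[n] (Q.γ s0)) = 0)
    (h1 : 0 < Q'.Y (F.f^[n] (Q.γ s0))) (h2 : Q'.Y (F.f^[n] (Q.γ s0)) < 1)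
    (h3 : ∀ ε > 0, ∃ s, |s - s0| < ε ∧ 0 < Q'.X (F.f^[n] (Q.γ s))) : Q.EH Q' := by
  obtain ⟨L, hL, hl⟩ := hs2_dd Q Q' n
  have cX := Q'.cX.comp (hs2_cont Q n)
  have cY := Q'.cY.comp (hs2_cont Q n)
  rw [Q.γ_loc (by linarith)] at h0 h1 h2
  obtain ⟨y0, hy0⟩ : ∃ y0, y0 = Q'.Y (F.f^[n] (Q.pt (Q.χ s0) 0)) := ⟨_, rfl⟩
  have hO : ∀ᶠ p : ℝ × ℝ in 𝓝 (Q.χ s0, 0), |Q'.X (F.f^[n] (Q.pt p.1 p.2))| < 1 ∧
      y0 / 2 < Q'.Y (F.f^[n] (Q.pt p.1 p.2)) ∧ Q'.Y (F.f^[n] (Q.pt p.1 p.2)) < (1 + y0) / 2 := by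
    refine (cX.abs.continuousAt.eventually_lt continuousAt_const ?_).and
      ((continuousAt_const.eventually_lt cY.continuousAt ?_).and
        (cY.continuousAt.eventually_lt continuousAt_const ?_))
    · simp only [comp_apply, h0]; simp
    · simp only [comp_apply]; linarith
    · simp only [comp_apply]; linarith
  obtain ⟨δ, hδ, hd⟩ := Metric.eventually_nhds_iff.1 hO
  obtain ⟨ε, hε, he⟩ := Metric.continuous_iff.1 Q.χ_cont s0 δ hδ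
  obtain ⟨s, hs, hx⟩ := h3 (min ε 1) (lt_min hε one_pos)
  have hs1 : |s - s0| < 1 := hs.trans_le (min_le_right _ _)
  have hs2 : |Q.χ s - Q.χ s0| < δ := he s (hs.trans_le (min_le_left _ _))
  have hs3 : s ≤ -1 := by linarith [(abs_lt.1 hs1).2]
  rw [Q.γ_loc (by linarith)] at hx
  have hne : s ≠ s0 := fun e => by rw [e, h0] at hx; exact lt_irrefl _ hx
  obtain ⟨x0, hx0⟩ : ∃ x0, x0 = Q'.X (F.f^[n] (Q.pt (Q.χ s) 0)) := ⟨_, rfl⟩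
  have hO2 : ∀ᶠ p : ℝ × ℝ in 𝓝 (Q.χ s, 0), x0 / 2 < Q'.X (F.f^[n] (Q.pt p.1 p.2)) :=
    continuousAt_const.eventually_lt cX.continuousAt (by simp only []; linarith)
  obtain ⟨δ2, hδ2, hd2⟩ := Metric.eventually_nhds_iff.1 hO2
  have key : ∀ h' h : ℝ, 0 < h' → h ≤ min (min δ δ2 / 2) 1 → ∀ (e : ℝ → ℂ) (a b : ℝ),
      (∀ t ∈ uIcc a b, Q.χ (min s s0) ≤ Q.X (e t) ∧ Q.X (e t) ≤ Q.χ (max s s0) ∧
        h' ≤ Q.Y (e t) ∧ Q.Y (e t) ≤ h) → Q.X (e a) = Q.χ s → Q.X (e b) = Q.χ s0 →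
      Q'.Ent (y0 / 2) ((1 + y0) / 2) (x0 / 2) (L * h) (F.f^[n] ∘ e) a b := by
    intro h' h hh' hh e a b H ha hb
    have hm : 0 < min δ δ2 := lt_min hδ hδ2
    have hh1 : h ≤ 1 := hh.trans (min_le_right _ _)
    have hh2 : h < min δ δ2 := (hh.trans (min_le_left _ _)).trans_lt (by linarith)
    have hY : ∀ t ∈ uIcc a b, |Q.Y (e t)| ≤ h := fun t ht => by
      rw [abs_of_pos (hh'.trans_le (H t ht).2.2.1)]; exact (H t ht).2.2.2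
    refine ⟨fun t ht => ?_, ?_, ?_⟩
    · have : dist (Q.X (e t), Q.Y (e t)) (Q.χ s0, 0) < δ := by
        rw [Prod.dist_eq, Real.dist_eq, Real.dist_eq, sub_zero]
        refine max_lt ?_ ((hY t ht).trans_lt (hh2.trans_le (min_le_left _ _)))
        obtain ⟨k1, k2, -⟩ := H t ht
        rw [Q.χ_mono.monotone.map_min] at k1
        rw [Q.χ_mono.monotone.map_max] at k2
        obtain ⟨k3, k4⟩ := abs_lt.1 hs2
        rw [abs_lt]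
        rcases min_le_iff.1 k1 with k1 | k1 <;> rcases le_max_iff.1 k2 with k2 | k2 <;>
          constructor <;> linarith
      have := hd this
      rw [Q.pt_XY] at this
      exact ⟨this.1.le, this.2.1.le, this.2.2.le⟩
    · have : dist (Q.X (e a), Q.Y (e a)) (Q.χ s, 0) < δ2 := by
        rw [Prod.dist_eq, Real.dist_eq, Real.dist_eq, sub_zero, ha, sub_self, abs_zero]
        exact max_lt hδ2 ((hY a left_mem_uIcc).trans_lt (hh2.trans_le (min_le_right _ _)))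
      have := hd2 this
      rw [Q.pt_XY] at this
      exact this.le
    · have hS : e b ∈ Q.S := by
        refine ⟨?_, (hY b right_mem_uIcc).trans hh1⟩
        rw [hb, abs_of_pos (Q.χ_pos _)]
        exact Q.chi_le_one.2 (by linarith)
      exact (hl _ hS (by rw [hb]; exact h0)).trans
        (mul_le_mul_of_nonneg_left (hY b right_mem_uIcc) hL.le)
  refine ⟨n, min s s0, max s s0, y0 / 2, (1 + y0) / 2, x0 / 2, L, min (min δ δ2 / 2) 1,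
    min_lt_max.2 hne, max_le hs3 (by linarith), by linarith, by linarith, by linarith,
    lt_min (half_pos (lt_min hδ hδ2)) one_pos, fun h' h hh' hh e a b _ H => ?_⟩
  rcases le_total s s0 with hle | hle
  · refine ⟨a, left_mem_uIcc, b, right_mem_uIcc, key h' h hh' hh e a b H.1 ?_ ?_⟩
    · rw [H.2.1, min_eq_left hle]
    · rw [H.2.2, max_eq_right hle]
  · refine ⟨b, right_mem_uIcc, a, left_mem_uIcc,
      key h' h hh' hh e b a (by rw [uIcc_comm]; exact H.1) ?_ ?_⟩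
    · rw [H.2.2, max_eq_left hle]
    · rw [H.2.1, min_eq_right hle]

theorem Hon.eh {n : ℕ} (h : Q.Hon Q' n) : Q.EH Q' := by
  obtain ⟨s0, h0, h1, h2, h3⟩ := h
  obtain ⟨k, hk⟩ := exists_nat_ge (s0 + 2)
  have e : ∀ s, F.f^[n + Q.M * k] (Q.γ (s - k)) = F.f^[n] (Q.γ s) := fun s => by
    rw [hs2_shift, sub_add_cancel]
  refine hs2_eh (n := n + Q.M * k) (s0 := s0 - k) (by linarith) (by rwa [e]) (by rwa [e])
    (by rwa [e]) fun ε hε => ?_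
  obtain ⟨s, hs, hx⟩ := h3 ε hε
  exact ⟨s - k, by rwa [sub_sub_sub_cancel_right], by rwa [e]⟩

theorem hs2_half (hM : Q.M = Q'.M) {n : ℕ} {s1 : ℝ}
    (hZ : ∀ s ∈ Icc s1 (s1 + 1), Q'.X (F.f^[n] (Q.γ s)) = 0 ∧ 0 < Q'.Y (F.f^[n] (Q.γ s)) ∧
      Q'.Y (F.f^[n] (Q.γ s)) ≤ 1 / 2) {s : ℝ} (hs : s1 ≤ s) :
    Q'.X (F.f^[n] (Q.γ s)) = 0 ∧ 0 < Q'.Y (F.f^[n] (Q.γ s)) ∧
      Q'.Y (F.f^[n] (Q.γ s)) ≤ 1 / 2 := by
  have k1 := Nat.floor_le (sub_nonneg.2 hs)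
  have k2 := Nat.lt_floor_add_one (s - s1)
  obtain ⟨k, hk⟩ : ∃ k, k = ⌊s - s1⌋₊ := ⟨_, rfl⟩
  rw [← hk] at k1 k2
  obtain ⟨h0, h1, h2⟩ := hZ (s - k) ⟨by linarith, by linarith⟩
  have e : F.f^[n] (Q.γ s) = F.f^[Q'.M * k] (F.f^[n] (Q.γ (s - k))) := by
    rw [← iterate_add_apply, add_comm, ← hM, hs2_shift, sub_add_cancel]
  obtain ⟨-, a1, a2, a3⟩ := Q'.axis_fwd h0 (by rw [abs_of_pos h1]; linarith) k
  rw [e]
  refine ⟨a1, a3 h1, ?_⟩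
  rw [abs_of_pos h1, abs_of_pos (a3 h1)] at a2
  have : Q'.lam ^ k ≤ 1 := pow_le_one₀ Q'.lam_pos.le Q'.lam_lt.le
  nlinarith

theorem hs2_conn {n : ℕ} {s0 : ℝ} (hs0 : s0 ≤ -2) (h : Q.LinkAt Q' n (Q.γ s0))
    (hZ : ∀ s, s0 - 2 ≤ s → Q'.X (F.f^[n] (Q.γ s)) = 0 ∧ 0 < Q'.Y (F.f^[n] (Q.γ s)) ∧
      Q'.Y (F.f^[n] (Q.γ s)) ≤ 1 / 2) : Q.Conn Q' := by
  obtain ⟨L, hL, hl⟩ := hs2_dd Q Q' n
  have cX := Q'.cX.comp (hs2_cont Q n)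
  have cY := Q'.cY.comp (hs2_cont Q n)
  obtain ⟨ψ, hψ⟩ : ∃ ψ : ℝ → ℝ, ∀ s, ψ s = Q'.Y (F.f^[n] (Q.γ s)) := ⟨_, fun _ => rfl⟩
  have cψ : Continuous ψ := by
    rw [funext hψ]; exact Q'.cY.comp ((F.cf.iterate n).comp Q.γ_cont)
  have hD : ∀ s, Q.γ s ∈ Disc := fun s => F.Λ_sub_Disc (Q.γ_Λ s)
  have iψ : InjOn ψ (Icc (s0 - 2) (s0 + 2)) := fun s hs s' hs' e => by
    rw [hψ, hψ] at e
    exact Q.γ_inj (inj_iter F n (hD s) (hD s')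
      (Q'.ext_XY ((hZ s hs.1).1.trans (hZ s' hs'.1).1.symm) e))
  have hl2 : s0 - 2 ∈ Icc (s0 - 2) (s0 + 2) := ⟨le_rfl, by linarith⟩
  have hr2 : s0 + 2 ∈ Icc (s0 - 2) (s0 + 2) := ⟨by linarith, le_rfl⟩
  have hin : ∀ s ∈ Icc (s0 - 1) (s0 + 1), min (ψ (s0 - 2)) (ψ (s0 + 2)) < ψ s ∧
      ψ s < max (ψ (s0 - 2)) (ψ (s0 + 2)) := fun s hs => by
    have hs' : s ∈ Icc (s0 - 2) (s0 + 2) := ⟨by linarith [hs.1], by linarith [hs.2]⟩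
    rcases cψ.continuousOn.strictMonoOn_of_injOn_Icc' (by linarith) iψ with m | m
    · exact ⟨min_lt_iff.2 (Or.inl (m hl2 hs' (by linarith [hs.1]))),
        lt_max_iff.2 (Or.inr (m hs' hr2 (by linarith [hs.2])))⟩
    · exact ⟨min_lt_iff.2 (Or.inr (m hs' hr2 (by linarith [hs.2]))),
        lt_max_iff.2 (Or.inl (m hl2 hs' (by linarith [hs.1])))⟩
  have hpar : ∀ x ∈ Icc (Q.χ (s0 - 1)) (Q.χ (s0 + 1)), ∃ s ∈ Icc (s0 - 1) (s0 + 1),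
      Q.pt x 0 = Q.γ s := fun x hx => by
    obtain ⟨s, hs, e⟩ := intermediate_value_Icc (by linarith) Q.χ_cont.continuousOn hx
    exact ⟨s, hs, by rw [Q.γ_loc (by linarith [hs.2]), e]⟩
  have hO : ∀ᶠ y : ℝ in 𝓝 0, ∀ x ∈ Icc (Q.χ (s0 - 1)) (Q.χ (s0 + 1)),
      Q'.X (F.f^[n] (Q.pt x y)) < 1 ∧
        min (ψ (s0 - 2)) (ψ (s0 + 2)) < Q'.Y (F.f^[n] (Q.pt x y)) ∧
        Q'.Y (F.f^[n] (Q.pt x y)) < max (ψ (s0 - 2)) (ψ (s0 + 2)) := by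
    refine isCompact_Icc.eventually_forall_of_forall_eventually fun x hx => ?_
    obtain ⟨s, hs, e⟩ := hpar x hx
    have cX' := cX.comp continuous_swap
    have cY' := cY.comp continuous_swap
    refine (cX'.continuousAt.eventually_lt continuousAt_const ?_).and
      ((continuousAt_const.eventually_lt cY'.continuousAt ?_).and
        (cY'.continuousAt.eventually_lt continuousAt_const ?_))
    · simp only [comp_apply, Prod.swap, e, (hZ s (by linarith [hs.1])).1]; exact one_pos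
    · simp only [comp_apply, Prod.swap, e, ← hψ]; exact (hin s hs).1
    · simp only [comp_apply, Prod.swap, e, ← hψ]; exact (hin s hs).2
  obtain ⟨δ, hδ, hd⟩ := Metric.eventually_nhds_iff.1 hO
  obtain ⟨h0, hh0, hh1, hh2⟩ : ∃ h0 > 0, h0 < δ ∧ h0 ≤ 1 :=
    ⟨min (δ / 2) 1, lt_min (half_pos hδ) one_pos, (min_le_left _ _).trans_lt (half_lt_self hδ),
      min_le_right _ _⟩
  obtain ⟨K, hK⟩ : ∃ K, K = {w | Q.X w ∈ Icc (Q.χ (s0 - 1)) (Q.χ (s0 + 1)) ∧ Q.Y w ∈ Ioc 0 h0} :=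
    ⟨_, rfl⟩
  have Kc : IsPreconnected K := hK ▸ Q.rect_conn isPreconnected_Icc isPreconnected_Ioc
  have KS : ∀ u ∈ K, u ∈ Q.S := fun u hu => by
    rw [hK] at hu
    refine ⟨?_, ?_⟩
    · rw [abs_of_pos ((Q.χ_pos _).trans_le hu.1.1)]
      exact hu.1.2.trans (Q.chi_le_one.2 (by linarith))
    · rw [abs_of_pos hu.2.1]; exact hu.2.2.trans hh2
  have KO : ∀ u ∈ K, Q'.X (F.f^[n] u) < 1 ∧ min (ψ (s0 - 2)) (ψ (s0 + 2)) < Q'.Y (F.f^[n] u) ∧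
      Q'.Y (F.f^[n] u) < max (ψ (s0 - 2)) (ψ (s0 + 2)) := fun u hu => by
    rw [hK] at hu
    have := hd (y := Q.Y u) (by
      rw [Real.dist_eq, sub_zero, abs_of_pos hu.2.1]; exact hu.2.2.trans_lt hh1) _ hu.1
    rwa [Q.pt_XY] at this
  have Kn : ∀ u ∈ K, Q'.X (F.f^[n] u) ≠ 0 := fun u hu e => by
    obtain ⟨s, hs, e'⟩ := intermediate_value_uIcc (a := s0 - 2) (b := s0 + 2) cψ.continuousOn
      (show Q'.Y (F.f^[n] u) ∈ _ from ⟨(KO u hu).2.1.le, (KO u hu).2.2.le⟩)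
    rw [uIcc_of_le (by linarith)] at hs
    rw [hψ] at e'
    have e2 : Q.γ s = u := inj_iter F n (hD s) (hs2_disc (KS u hu))
      (Q'.ext_XY ((hZ s hs.1).1.trans e.symm) e')
    rw [hK] at hu
    have := hu.2.1
    rw [← e2, Q.γ_loc (by linarith [hs.2]), Q.Y_pt] at this
    exact lt_irrefl _ this
  obtain ⟨u0, hu0, hx0⟩ : ∃ u0 ∈ K, 0 < Q'.X (F.f^[n] u0) := by
    have hN : ∀ᶠ u in 𝓝 (Q.γ s0), Q.χ (s0 - 1) < Q.X u ∧ Q.X u < Q.χ (s0 + 1) ∧ Q.Y u < h0 := by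
      refine (continuousAt_const.eventually_lt Q.cX.continuousAt ?_).and
        ((Q.cX.continuousAt.eventually_lt continuousAt_const ?_).and
          (Q.cY.continuousAt.eventually_lt continuousAt_const ?_))
      · rw [Q.γ_loc (by linarith), Q.X_pt]; exact Q.χ_mono (by linarith)
      · rw [Q.γ_loc (by linarith), Q.X_pt]; exact Q.χ_mono (by linarith)
      · rw [Q.γ_loc (by linarith), Q.Y_pt]; exact hh0
    obtain ⟨ε, hε, he⟩ := Metric.eventually_nhds_iff.1 hN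
    obtain ⟨u, hu, hy, hx⟩ := h.2.2.2.2.2.2 ε hε
    obtain ⟨k1, k2, k3⟩ := he hu
    exact ⟨u, by rw [hK]; exact ⟨⟨k1.le, k2.le⟩, hy, k3.le⟩, hx⟩
  have Kp : ∀ u ∈ K, 0 < Q'.X (F.f^[n] u) := fun u hu => by
    by_contra hc
    obtain ⟨w, hw, e⟩ := Kc.intermediate_value hu hu0
      (f := fun w => Q'.X (F.f^[n] w)) (Q'.cX.comp (F.cf.iterate n)).continuousOn
      (show (0 : ℝ) ∈ _ from ⟨not_lt.1 hc, hx0.le⟩)
    exact Kn w hw e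
  refine ⟨n, s0, h0, L, min (ψ (s0 - 2)) (ψ (s0 + 2)), max (ψ (s0 - 2)) (ψ (s0 + 2)),
    by linarith, hh0, hL, ?_, ?_, fun u k1 k2 k3 k4 => ?_⟩
  · rw [hψ, hψ]; exact lt_min (hZ _ le_rfl).2.1 (hZ _ (by linarith)).2.1
  · rw [hψ, hψ]
    exact max_lt (by linarith [(hZ _ le_rfl).2.2])
      (by linarith [(hZ (s0 + 2) (by linarith)).2.2])
  · have hu : u ∈ K := by rw [hK]; exact ⟨⟨k1, k2⟩, k3, k4⟩
    refine ⟨Kp u hu, (KO u hu).1.le, (KO u hu).2.1.le, (KO u hu).2.2.le, ?_⟩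
    obtain ⟨s, hs, e⟩ := hpar _ ⟨k1, k2⟩
    have := hl u (KS u hu) (by rw [e]; exact (hZ s (by linarith [hs.1])).1)
    rwa [abs_of_pos k3] at this

theorem conn_of (hM : Q.M = Q'.M) {n : ℕ} {z : ℂ} (h : Q.LinkAt Q' n z) {s1 : ℝ}
    (hZ : ∀ s ∈ Icc s1 (s1 + 1), Q'.X (F.f^[n] (Q.γ s)) = 0 ∧ 0 < Q'.Y (F.f^[n] (Q.γ s)) ∧
      Q'.Y (F.f^[n] (Q.γ s)) ≤ 1 / 2) : Q.Conn Q' := by
  obtain ⟨s0, hs0, rfl⟩ := h.param
  obtain ⟨k, hk⟩ := exists_nat_ge (s1 - s0 + 2)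
  have h2 := (h.add k).back hs0 2
  refine hs2_conn (by push_cast; linarith) h2 fun s hs => ?_
  rw [hs2_shift, ← hM, hs2_shift]
  refine hs2_half hM hZ ?_
  linarith

end Quad

end Pool.Agent.Lib.MP_3fe454_an.S2
end

-- part Pool.Agent.Lib.MP_3fe454_an.S2.HS3
section

/-!
Penetrating links and the classification of links.
-/

set_option autoImplicit false

open Set Metric Filter Topology Function

namespace Pool.Agent.Lib.MP_3fe454_an.S2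

open PD

namespace Quad

variable {F : Dis} {Q Q' : Quad F}

/-- the first exit from a closed set of reals -/
theorem hs3_exit {Z : Set ℝ} (hZ : IsClosed Z) {a b : ℝ} (ha : a ∈ Z) (hb : ∃ s ∈ Icc a b, s ∉ Z) :
    ∃ c ∈ Icc a b, Icc a c ⊆ Z ∧ ∀ δ > 0, ∃ s ∈ Icc a b, s ∉ Z ∧ c ≤ s ∧ s < c + δ := by
  have hne : (Icc a b \ Z).Nonempty := hb
  have hbd : BddBelow (Icc a b \ Z) := ⟨a, fun s hs => hs.1.1⟩
  obtain ⟨s0, hs0, hs0'⟩ := hb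
  have h1 : a ≤ sInf (Icc a b \ Z) := le_csInf hne fun s hs => hs.1.1
  have h2 : sInf (Icc a b \ Z) ≤ b := (csInf_le hbd ⟨hs0, hs0'⟩).trans hs0.2
  have h3 : Ico a (sInf (Icc a b \ Z)) ⊆ Z := fun s hs => by
    by_contra h
    exact absurd (csInf_le hbd ⟨⟨hs.1, hs.2.le.trans h2⟩, h⟩) (not_le.2 hs.2)
  refine ⟨_, ⟨h1, h2⟩, ?_, fun δ hδ => ?_⟩
  · rcases h1.eq_or_lt with h | h
    · rw [← h, Icc_self]
      exact singleton_subset_iff.2 ha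
    · rw [← closure_Ico h.ne]
      exact closure_minimal h3 hZ
  · obtain ⟨s, hs, h⟩ := exists_lt_of_csInf_lt hne (lt_add_of_pos_right _ hδ)
    exact ⟨s, hs.1, hs.2, csInf_le hbd hs, h⟩

/-- a property which holds near the closed set holds up to a first point outside -/
theorem hs3_side {Z : Set ℝ} (hZ : IsClosed Z) {a b : ℝ} (ha : a ∈ Z) (hb : ∃ s ∈ Icc a b, s ∉ Z)
    {P : ℝ → Prop} (hP : ∀ c ∈ Z, c ∈ Icc a b → ∀ᶠ s in 𝓝 c, P s) :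
    ∃ s ∈ Ioc a b, s ∉ Z ∧ ∀ t ∈ Icc a s, P t := by
  obtain ⟨c, hc, h1, h2⟩ := hs3_exit hZ ha hb
  obtain ⟨δ, hδ, h3⟩ := Metric.eventually_nhds_iff.1 (hP c (h1 ⟨hc.1, le_rfl⟩) hc)
  obtain ⟨s, hs, h4, h5, h6⟩ := h2 δ hδ
  refine ⟨s, ⟨lt_of_le_of_ne hs.1 fun e => h4 (e ▸ ha), hs.2⟩, h4, fun t ht => ?_⟩
  rcases le_total t c with h | h
  · exact (hP t (h1 ⟨ht.1, h⟩) ⟨ht.1, h.trans hc.2⟩).self_of_nhds
  · exact h3 (by rw [Real.dist_eq, abs_lt]; constructor <;> linarith [ht.2])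

/-- parameters on both sides of the link point where the branch is strictly outside -/
theorem pen_param (hM : Q.M = Q'.M) {n : ℕ} {z : ℂ} (h : Q.LinkAt Q' n z) (hn : ¬ Q.Hon Q' n)
    (hZ : ¬ ∃ s1 : ℝ, ∀ s ∈ Icc s1 (s1 + 1), Q'.X (F.f^[n] (Q.γ s)) = 0 ∧
      0 < Q'.Y (F.f^[n] (Q.γ s)) ∧ Q'.Y (F.f^[n] (Q.γ s)) ≤ 1 / 2) :
    ∃ (n' : ℕ) (s1 s0 s2 : ℝ), s1 < s0 ∧ s0 < s2 ∧ s2 ≤ -1 ∧ Q.LinkAt Q' n' (Q.γ s0) ∧
      Q'.X (F.f^[n'] (Q.γ s1)) < 0 ∧ Q'.X (F.f^[n'] (Q.γ s2)) < 0 ∧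
      ∀ s ∈ Icc s1 s2, -1 < Q'.X (F.f^[n'] (Q.γ s)) ∧ Q'.X (F.f^[n'] (Q.γ s)) ≤ 0 ∧
        0 < Q'.Y (F.f^[n'] (Q.γ s)) ∧ Q'.Y (F.f^[n'] (Q.γ s)) < 1 := by
  obtain ⟨s, hs, rfl⟩ := h.param
  set β : ℝ → ℂ := fun t => F.f^[n] (Q.γ t) with hβ
  have cβ : Continuous β := (F.cf.iterate n).comp Q.γ_cont
  have cX : Continuous fun t => Q'.X (β t) := Q'.cX.comp cβ
  have cY : Continuous fun t => Q'.Y (β t) := Q'.cY.comp cβ
  have iβ : Injective β := fun t t' e =>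
    Q.γ_inj (inj_iter F n (F.Λ_sub_Disc (Q.γ_Λ t)) (F.Λ_sub_Disc (Q.γ_Λ t')) e)
  have hsh : ∀ (k : ℕ) (t : ℝ), F.f^[n + Q.M * k] (Q.γ t) = β (t + k) := fun k t => by
    rw [iterate_add_apply, Q.γ_iter]
  set Z : Set ℝ := {t | Q'.X (β t) = 0 ∧ 0 < Q'.Y (β t) ∧ Q'.Y (β t) ≤ 1 / 2} with hZd
  have hcl : IsClosed Z := by
    have e : Z = {t | Q'.X (β t) = 0} ∩ ({t | 0 ≤ Q'.Y (β t)} ∩ {t | Q'.Y (β t) ≤ 1 / 2}) := by
      refine Set.ext fun t => ⟨fun ht => ⟨ht.1, ht.2.1.le, ht.2.2⟩, fun ht => ?_⟩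
      refine ⟨ht.1, lt_of_le_of_ne ht.2.1 fun h0 => Q.γ_not_per t ?_, ht.2.2⟩
      have e1 : β t = Q'.p := Q'.ext_XY (ht.1.trans Q'.p_X.symm) (h0.symm.trans Q'.p_Y.symm)
      exact per_of_iter F (F.Λ_sub_Disc (Q.γ_Λ t)) (n := n) (by
        rw [show F.f^[n] (Q.γ t) = Q'.p from e1]; exact Q'.p_per)
    rw [e]
    exact (isClosed_eq cX continuous_const).inter
      ((isClosed_le continuous_const cY).inter (isClosed_le cY continuous_const))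
  obtain ⟨T, hT⟩ : ∃ T : ℝ, ∀ t, T ≤ t → β t ≠ Q'.pt 0 (1 / 2) := by
    by_cases h0 : ∃ t0, β t0 = Q'.pt 0 (1 / 2)
    · obtain ⟨t0, h0⟩ := h0
      exact ⟨t0 + 1, fun t ht e => by have := iβ (e.trans h0.symm); linarith⟩
    · exact ⟨0, fun t _ e => h0 ⟨t, e⟩⟩
  obtain ⟨k, hk⟩ := exists_nat_ge (T + 1 - s)
  have hl := (h.add k).back hs 2
  rw [← hM, add_assoc, ← Nat.mul_add] at hl
  have hmem : s + k ∈ Z := by
    have h1 := h.add k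
    rw [← hM] at h1
    obtain ⟨-, -, -, h2, h3, h4, -⟩ := h1
    rw [hsh] at h2 h3 h4
    exact ⟨h2, h3, h4.le⟩
  have hP : ∀ c ∈ Z, T ≤ c → ∀ᶠ t in 𝓝 c,
      -1 < Q'.X (β t) ∧ Q'.X (β t) ≤ 0 ∧ 0 < Q'.Y (β t) ∧ Q'.Y (β t) < 1 / 2 := by
    intro c hc hTc
    have h1 : Q'.Y (β c) < 1 / 2 := lt_of_le_of_ne hc.2.2 fun e => hT c hTc
      (Q'.ext_XY (hc.1.trans (Q'.X_pt _ _).symm) (e.trans (Q'.Y_pt _ _).symm))
    have h2 : ∀ᶠ t in 𝓝 c, Q'.X (β t) ≤ 0 := by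
      by_contra h3
      refine hn ⟨c, hc.1, hc.2.1, by linarith, fun ε hε => ?_⟩
      by_contra h4
      refine h3 (Metric.eventually_nhds_iff.2 ⟨ε, hε, fun t ht => ?_⟩)
      by_contra h5
      exact h4 ⟨t, ht, not_le.1 h5⟩
    have h3 : ∀ᶠ t in 𝓝 c, -1 < Q'.X (β t) :=
      cX.continuousAt.eventually (lt_mem_nhds (neg_one_lt_zero.trans_eq hc.1.symm))
    have h4 : ∀ᶠ t in 𝓝 c, 0 < Q'.Y (β t) := cY.continuousAt.eventually (lt_mem_nhds hc.2.1)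
    have h5 : ∀ᶠ t in 𝓝 c, Q'.Y (β t) < 1 / 2 := cY.continuousAt.eventually (gt_mem_nhds h1)
    exact h3.and (h2.and (h4.and h5))
  have hout : ∀ a : ℝ, ∃ t ∈ Icc a (a + 1), t ∉ Z := fun a => by
    by_contra h1
    refine hZ ⟨a, fun t ht => ?_⟩
    by_contra h2
    exact h1 ⟨t, ht, h2⟩
  obtain ⟨σ2, ⟨a1, a2⟩, a3, a4⟩ := hs3_side hcl hmem (hout _)
    fun c hc h1 => hP c hc (by linarith [h1.1])
  obtain ⟨σ1, ⟨b1, b2⟩, b3, b4⟩ := hs3_side (Z := Neg.neg ⁻¹' Z) (a := -(s + k))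
    (b := -(s + k) + 1)
    (P := fun t => -1 < Q'.X (β (-t)) ∧ Q'.X (β (-t)) ≤ 0 ∧ 0 < Q'.Y (β (-t)) ∧
      Q'.Y (β (-t)) < 1 / 2)
    (hcl.preimage continuous_neg) (by rwa [mem_preimage, neg_neg])
    (by
      obtain ⟨t, ht, h1⟩ := hout (s + k - 1)
      exact ⟨-t, ⟨by linarith [ht.2], by linarith [ht.1]⟩, by rwa [mem_preimage, neg_neg]⟩)
    fun c hc h1 => continuous_neg.continuousAt.eventually (hP (-c) hc (by linarith [h1.2]))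
  have hneg : ∀ t, t ∉ Z → (-1 < Q'.X (β t) ∧ Q'.X (β t) ≤ 0 ∧ 0 < Q'.Y (β t) ∧
      Q'.Y (β t) < 1 / 2) → Q'.X (β t) < 0 := fun t h1 h2 =>
    lt_of_le_of_ne h2.2.1 fun e => h1 ⟨e, h2.2.2.1, h2.2.2.2.le⟩
  refine ⟨n + Q.M * (k + 2), -σ1 - (k + 2 : ℕ), s - (2 : ℕ), σ2 - (k + 2 : ℕ), ?_, ?_, ?_, hl,
    ?_, ?_, fun t ht => ?_⟩
  · push_cast; linarith
  · push_cast; linarith
  · push_cast; linarith
  · rw [hsh, sub_add_cancel]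
    exact hneg _ b3 (b4 σ1 ⟨b1.le, le_rfl⟩)
  · rw [hsh, sub_add_cancel]
    exact hneg _ a3 (a4 σ2 ⟨a1.le, le_rfl⟩)
  · rw [hsh]
    have h1 : -1 < Q'.X (β (t + (k + 2 : ℕ))) ∧ Q'.X (β (t + (k + 2 : ℕ))) ≤ 0 ∧
        0 < Q'.Y (β (t + (k + 2 : ℕ))) ∧ Q'.Y (β (t + (k + 2 : ℕ))) < 1 / 2 := by
      rcases le_total (s + k) (t + (k + 2 : ℕ)) with h2 | h2
      · exact a4 _ ⟨h2, by linarith [ht.2]⟩
      · have h3 := b4 (-(t + (k + 2 : ℕ))) ⟨by linarith, by linarith [ht.1]⟩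
        rwa [neg_neg] at h3
    exact ⟨h1.1, h1.2.1, h1.2.2.1, by linarith [h1.2.2.2]⟩

/-- the pulled back horizontal ray leaves the rectangle through the top -/
theorem hs3_ray (Q Q' : Quad F) (n : ℕ) {x1 x2 h : ℝ} (x1p : 0 < x1) (x21 : x2 ≤ 1) (hh : h ≤ 1)
    {u : ℂ} (hu : x1 ≤ Q.X u ∧ Q.X u ≤ x2 ∧ 0 ≤ Q.Y u ∧ Q.Y u ≤ h) (u3 : 0 < Q'.X (F.f^[n] u))
    (hs : ∀ w, x1 ≤ Q.X w → Q.X w ≤ x2 → 0 ≤ Q.Y w → Q.Y w ≤ h → Q'.X (F.f^[n] w) < 1 ∧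
      (Q.X w = x1 → Q'.X (F.f^[n] w) < 0) ∧ (Q.X w = x2 → Q'.X (F.f^[n] w) < 0) ∧
      (Q.Y w = 0 → Q'.X (F.f^[n] w) ≤ 0)) :
    ∃ P : Set ℂ, IsCompact P ∧ IsPreconnected P ∧ u ∈ P ∧
      (∀ w ∈ P, (x1 ≤ Q.X w ∧ Q.X w ≤ x2 ∧ 0 ≤ Q.Y w ∧ Q.Y w ≤ h) ∧
        Q'.X (F.f^[n] u) ≤ Q'.X (F.f^[n] w)) ∧ ∃ w ∈ P, Q.Y w = h := by
  set Rr : Set ℂ := {w | x1 ≤ Q.X w ∧ Q.X w ≤ x2 ∧ 0 ≤ Q.Y w ∧ Q.Y w ≤ h} with hRr
  have hRb : Rr ⊆ ball 0 1 := fun w hw => Q.S_sub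
    ⟨abs_le.2 ⟨by linarith [hw.1], hw.2.1.trans x21⟩,
      abs_le.2 ⟨by linarith [hw.2.2.1], hw.2.2.2.trans hh⟩⟩
  set L : ℝ → ℂ := fun t => Q'.pt t (Q'.Y (F.f^[n] u)) with hL
  have cL : Continuous L := Q'.c_pt.comp (continuous_id.prodMk continuous_const)
  have hLu : L (Q'.X (F.f^[n] u)) = F.f^[n] u := Q'.pt_XY _
  have hLX : ∀ t, Q'.X (L t) = t := fun t => Q'.X_pt _ _
  have hcl : IsClosed (L ⁻¹' (F.f^[n] '' Rr)) :=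
    ((Q.rect_compact x1 x2 0 h).image (F.cf.iterate n)).isClosed.preimage cL
  obtain ⟨c, hc, h1, h2⟩ := hs3_exit hcl (a := Q'.X (F.f^[n] u)) (b := 1) ⟨u, hu, hLu.symm⟩
    ⟨1, ⟨(hs u hu.1 hu.2.1 hu.2.2.1 hu.2.2.2).1.le, le_rfl⟩, by
      rintro ⟨w, hw, e⟩
      have k := (hs w hw.1 hw.2.1 hw.2.2.1 hw.2.2.2).1
      rw [e, hLX] at k
      exact lt_irrefl _ k⟩
  have hpull : ∀ t ∈ Icc (Q'.X (F.f^[n] u)) c,
      F.g^[n] (L t) ∈ Rr ∧ F.f^[n] (F.g^[n] (L t)) = L t := fun t ht => by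
    obtain ⟨w, hw, e⟩ := h1 ht
    rw [← e, F.iter_g_f (ball_subset_closedBall (hRb hw))]
    exact ⟨hw, rfl⟩
  have cg : Continuous fun t => F.g^[n] (L t) := (F.cg.iterate n).comp cL
  refine ⟨(fun t => F.g^[n] (L t)) '' Icc (Q'.X (F.f^[n] u)) c, isCompact_Icc.image cg,
    isPreconnected_Icc.image _ cg.continuousOn, ⟨_, ⟨le_rfl, hc.1⟩, ?_⟩, ?_,
    _, ⟨c, ⟨hc.1, le_rfl⟩, rfl⟩, ?_⟩
  · change F.g^[n] (L _) = u
    rw [hLu, F.iter_g_f (ball_subset_closedBall (hRb hu))]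
  · rintro _ ⟨t, ht, rfl⟩
    refine ⟨(hpull t ht).1, ?_⟩
    rw [(hpull t ht).2, hLX]
    exact ht.1
  · obtain ⟨⟨k1, k2, k3, k4⟩, k5⟩ := hpull c ⟨hc.1, le_rfl⟩
    obtain ⟨-, k6, k7, k8⟩ := hs _ k1 k2 k3 k4
    rw [k5, hLX] at k6 k7 k8
    have k9 : 0 < c := u3.trans_le hc.1
    by_contra hne
    have hsub : {w | x1 < Q.X w ∧ Q.X w < x2 ∧ 0 < Q.Y w ∧ Q.Y w < h} ⊆ Rr :=
      fun w hw => ⟨hw.1.le, hw.2.1.le, hw.2.2.1.le, hw.2.2.2.le⟩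
    have hop : IsOpen {w | x1 < Q.X w ∧ Q.X w < x2 ∧ 0 < Q.Y w ∧ Q.Y w < h} :=
      (isOpen_lt continuous_const Q.cX).inter ((isOpen_lt Q.cX continuous_const).inter
        ((isOpen_lt continuous_const Q.cY).inter (isOpen_lt Q.cY continuous_const)))
    obtain ⟨δ, hδ, k10⟩ := Metric.isOpen_iff.1
      ((open_iter F n hop (hsub.trans hRb)).preimage cL) c
      ⟨_, ⟨lt_of_le_of_ne k1 fun e => by linarith [k6 e.symm],
        lt_of_le_of_ne k2 fun e => by linarith [k7 e],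
        lt_of_le_of_ne k3 fun e => by linarith [k8 e.symm], lt_of_le_of_ne k4 hne⟩, k5⟩
    obtain ⟨s, -, k11, k12, k13⟩ := h2 δ hδ
    exact k11 (image_mono hsub
      (k10 (by rw [mem_ball, Real.dist_eq, abs_lt]; constructor <;> linarith)))

theorem ep_of {n : ℕ} {s1 s0 s2 : ℝ} (h1 : s1 < s0) (h2 : s0 < s2) (h3 : s2 ≤ -1)
    (h : Q.LinkAt Q' n (Q.γ s0)) (ha : Q'.X (F.f^[n] (Q.γ s1)) < 0)
    (hb : Q'.X (F.f^[n] (Q.γ s2)) < 0)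
    (hc : ∀ s ∈ Icc s1 s2, -1 < Q'.X (F.f^[n] (Q.γ s)) ∧ Q'.X (F.f^[n] (Q.γ s)) ≤ 0 ∧
      0 < Q'.Y (F.f^[n] (Q.γ s)) ∧ Q'.Y (F.f^[n] (Q.γ s)) < 1) : Q.EP Q' := by
  have cT : Continuous F.f^[n] := F.cf.iterate n
  have cX : Continuous fun w => Q'.X (F.f^[n] w) := Q'.cX.comp cT
  have cY : Continuous fun w => Q'.Y (F.f^[n] w) := Q'.cY.comp cT
  have x1p := Q.χ_pos s1
  have x10 := Q.χ_mono h1
  have x02 := Q.χ_mono h2
  have x21 : Q.χ s2 ≤ 1 := Q.chi_le_one.2 (by linarith)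
  have g0 := Q.γ_loc (s := s0) (by linarith)
  rw [Q.γ_loc (by linarith)] at ha hb
  have hbot : ∀ x ∈ Icc (Q.χ s1) (Q.χ s2), -1 < Q'.X (F.f^[n] (Q.pt x 0)) ∧
      Q'.X (F.f^[n] (Q.pt x 0)) ≤ 0 ∧ 0 < Q'.Y (F.f^[n] (Q.pt x 0)) ∧
      Q'.Y (F.f^[n] (Q.pt x 0)) < 1 := fun x hx => by
    have k0 : 0 < x := x1p.trans_le hx.1
    have k1 := Q.dep_spec k0 (hx.2.trans x21)
    have k2 := hc (-Q.dep x) ⟨Q.χ_mono.le_iff_le.1 (by rw [k1.1]; exact hx.1),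
      Q.χ_mono.le_iff_le.1 (by rw [k1.1]; exact hx.2)⟩
    rwa [Q.γ_loc (by linarith [k1.2]), k1.1] at k2
  have cp : Continuous fun z : ℝ × ℝ => Q.pt z.2 z.1 := Q.c_pt.comp continuous_swap
  have e1 : ∀ᶠ y in 𝓝 (0 : ℝ), ∀ x ∈ Icc (Q.χ s1) (Q.χ s2), -1 < Q'.X (F.f^[n] (Q.pt x y)) ∧
      Q'.X (F.f^[n] (Q.pt x y)) < 1 ∧ 0 < Q'.Y (F.f^[n] (Q.pt x y)) ∧
      Q'.Y (F.f^[n] (Q.pt x y)) < 1 := by
    refine isCompact_Icc.eventually_forall_of_forall_eventually fun x hx => ?_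
    obtain ⟨k1, k2, k3, k4⟩ := hbot x hx
    exact ((cX.comp cp).continuousAt.eventually (lt_mem_nhds k1)).and
      (((cX.comp cp).continuousAt.eventually (gt_mem_nhds (k2.trans_lt one_pos))).and
        (((cY.comp cp).continuousAt.eventually (lt_mem_nhds k3)).and
          ((cY.comp cp).continuousAt.eventually (gt_mem_nhds k4))))
  have e2 : ∀ x, Q'.X (F.f^[n] (Q.pt x 0)) < 0 →
      ∀ᶠ y in 𝓝 (0 : ℝ), Q'.X (F.f^[n] (Q.pt x y)) < 0 := fun x hx =>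
    (cX.comp (cp.comp (continuous_id.prodMk continuous_const))).continuousAt.eventually
      (gt_mem_nhds hx)
  obtain ⟨δ, hδ, e3⟩ := Metric.eventually_nhds_iff.1 (e1.and ((e2 _ ha).and (e2 _ hb)))
  have h0p : 0 < min (δ / 2) 1 := lt_min (by linarith) one_pos
  have e4 : ∀ w, Q.χ s1 ≤ Q.X w → Q.X w ≤ Q.χ s2 → 0 ≤ Q.Y w → Q.Y w ≤ min (δ / 2) 1 →
      (-1 < Q'.X (F.f^[n] w) ∧ Q'.X (F.f^[n] w) < 1 ∧ 0 < Q'.Y (F.f^[n] w) ∧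
        Q'.Y (F.f^[n] w) < 1) ∧ (Q.X w = Q.χ s1 → Q'.X (F.f^[n] w) < 0) ∧
        (Q.X w = Q.χ s2 → Q'.X (F.f^[n] w) < 0) ∧ (Q.Y w = 0 → Q'.X (F.f^[n] w) ≤ 0) := by
    intro w k1 k2 k3 k4
    obtain ⟨k5, k6, k7⟩ := e3 (y := Q.Y w) (by
      rw [Real.dist_eq, sub_zero, abs_of_nonneg k3]
      linarith [min_le_left (δ / 2) 1])
    have k8 := k5 _ ⟨k1, k2⟩
    have k9 := (hbot _ ⟨k1, k2⟩).2.1
    rw [Q.pt_XY] at k8
    refine ⟨k8, fun e => ?_, fun e => ?_, fun e => ?_⟩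
    · rwa [← e, Q.pt_XY] at k6
    · rwa [← e, Q.pt_XY] at k7
    · have k10 := Q.pt_XY w
      rw [e] at k10
      rwa [k10] at k9
  have hK := Q.rect_compact (Q.χ s1) (Q.χ s2) 0 (min (δ / 2) 1)
  have hKn : {w | Q.χ s1 ≤ Q.X w ∧ Q.X w ≤ Q.χ s2 ∧ 0 ≤ Q.Y w ∧ Q.Y w ≤ min (δ / 2) 1}.Nonempty :=
    ⟨Q.pt (Q.χ s1) 0, by
      rw [mem_ofPred_eq, Q.X_pt, Q.Y_pt]
      exact ⟨le_rfl, by linarith, le_rfl, h0p.le⟩⟩
  obtain ⟨w1, hw1, m1⟩ := hK.exists_isMinOn hKn cY.continuousOn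
  obtain ⟨w2, hw2, m2⟩ := hK.exists_isMaxOn hKn cY.continuousOn
  refine ⟨n, s1, s2, Q'.Y (F.f^[n] w1), Q'.Y (F.f^[n] w2), min (δ / 2) 1, h1.trans h2, h3,
    (e4 w1 hw1.1 hw1.2.1 hw1.2.2.1 hw1.2.2.2).1.2.2.1,
    (e4 w2 hw2.1 hw2.2.1 hw2.2.2.1 hw2.2.2.2).1.2.2.2, h0p, fun h' hh hh' hhh => ?_⟩
  rcases lt_or_ge hh h' with hlt | hle
  · refine ⟨1, one_pos, fun e a b _ hx => ?_⟩
    have := hx.1 a left_mem_uIcc
    linarith [this.2.2.1, this.2.2.2]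
  have e5 : ∀ᶠ u in 𝓝 (Q.γ s0), Q.χ s1 < Q.X u ∧ Q.X u < Q.χ s2 ∧ Q.Y u < h' :=
    (Q.cX.continuousAt.eventually (lt_mem_nhds (by rw [g0, Q.X_pt]; exact x10))).and
      ((Q.cX.continuousAt.eventually (gt_mem_nhds (by rw [g0, Q.X_pt]; exact x02))).and
        (Q.cY.continuousAt.eventually (gt_mem_nhds (by rw [g0, Q.Y_pt]; exact hh'))))
  obtain ⟨ε, hε, e6⟩ := Metric.eventually_nhds_iff.1 e5
  obtain ⟨u, u1, u2, u3⟩ := h.2.2.2.2.2.2 ε hε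
  obtain ⟨u4, u5, u6⟩ := e6 u1
  refine ⟨_, u3, fun e a b ce hx => ?_⟩
  have hin : ∀ t ∈ uIcc a b, Q.χ s1 ≤ Q.X (e t) ∧ Q.X (e t) ≤ Q.χ s2 ∧ 0 ≤ Q.Y (e t) ∧
      Q.Y (e t) ≤ min (δ / 2) 1 := fun t ht => by
    obtain ⟨k1, k2, k3, k4⟩ := hx.1 t ht
    exact ⟨k1, k2, by linarith, k4.trans hhh⟩
  obtain ⟨P, p1, p2, p3, p4, p5⟩ := hs3_ray Q Q' n x1p x21 (hhh.trans (min_le_right _ _))
    (u := u) ⟨u4.le, u5.le, u2.le, by linarith⟩ u3 fun w k1 k2 k3 k4 => by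
      obtain ⟨k5, k6, k7, k8⟩ := e4 w k1 k2 k3 (k4.trans hhh)
      exact ⟨k5.2.1, k6, k7, k8⟩
  have hV : IsPreconnected {w | Q.X w ∈ ({Q.X u} : Set ℝ) ∧ Q.Y w ∈ Icc 0 (Q.Y u)} :=
    Q.rect_conn isPreconnected_singleton isPreconnected_Icc
  have hVc : IsCompact {w | Q.X w ∈ ({Q.X u} : Set ℝ) ∧ Q.Y w ∈ Icc 0 (Q.Y u)} := by
    have e : {w | Q.X w ∈ ({Q.X u} : Set ℝ) ∧ Q.Y w ∈ Icc 0 (Q.Y u)} =
        {w | Q.X u ≤ Q.X w ∧ Q.X w ≤ Q.X u ∧ 0 ≤ Q.Y w ∧ Q.Y w ≤ Q.Y u} :=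
      Set.ext fun w => ⟨fun k => ⟨k.1.ge, k.1.le, k.2⟩, fun k => ⟨le_antisymm k.2.1 k.1, k.2.2⟩⟩
    rw [e]
    exact Q.rect_compact _ _ _ _
  obtain ⟨_, ⟨t, ht, rfl⟩, hw⟩ := rc Q.Ψ (x10.trans x02) (hh'.trans_le hle)
    (isCompact_uIcc.image ce) (isPreconnected_uIcc.image e ce.continuousOn) (p1.union hVc)
    (p2.union u p3 ⟨rfl, u2.le, le_rfl⟩ hV)
    (by
      rintro w (⟨t, ht, rfl⟩ | hw | hw)
      · obtain ⟨k1, k2, k3, k4⟩ := hx.1 t ht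
        exact ⟨⟨k1, k2⟩, hh'.le.trans k3, k4⟩
      · obtain ⟨⟨k1, k2, k3, k4⟩, -⟩ := p4 w hw
        exact ⟨⟨k1, k2⟩, k3, k4⟩
      · have k1 : Q.X w = Q.X u := hw.1
        exact ⟨⟨u4.le.trans k1.ge, k1.le.trans u5.le⟩, hw.2.1, hw.2.2.trans (u6.le.trans hle)⟩)
    ⟨e a, ⟨a, left_mem_uIcc, rfl⟩, hx.2.1⟩ ⟨e b, ⟨b, right_mem_uIcc, rfl⟩, hx.2.2⟩
    ⟨Q.pt (Q.X u) 0, Or.inr ⟨Q.X_pt _ _, by rw [Q.Y_pt]; exact ⟨le_rfl, u2.le⟩⟩, Q.Y_pt _ _⟩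
    (by
      obtain ⟨w, k1, k2⟩ := p5
      exact ⟨w, Or.inl k1, k2⟩)
  have hxt : Q'.X (F.f^[n] u) ≤ Q'.X (F.f^[n] (e t)) := by
    rcases hw with hw | hw
    · exact (p4 _ hw).2
    · linarith [hw.2.2, (hx.1 t ht).2.2.1]
  have hsub : uIcc t a ⊆ uIcc a b := uIcc_subset_uIcc ht left_mem_uIcc
  obtain ⟨k1, k2, k3, k4⟩ := hin a left_mem_uIcc
  obtain ⟨b', hb', k5, -⟩ := first_le (l := fun r => Q'.X (F.f^[n] (e r))) (a := t) (b := a)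
    (α := 0) (cX.comp ce).continuousOn (u3.le.trans hxt) ((e4 _ k1 k2 k3 k4).2.1 hx.2.1).le
  refine ⟨t, ht, b', hsub hb', fun r hr => ?_, hxt, ((Q'.dd_zero_iff _).2 k5).le⟩
  have hr' := hin r (uIcc_subset_uIcc ht (hsub hb') hr)
  obtain ⟨⟨k6, k7, -, -⟩, -⟩ := e4 _ hr'.1 hr'.2.1 hr'.2.2.1 hr'.2.2.2
  exact ⟨abs_le.2 ⟨k6.le, k7.le⟩, m1 hr', m2 hr'⟩

theorem Lk.classify (h : Q.Lk Q') : Q.EH Q' ∨ Q.EP Q' ∨ Q.Conn Q' := by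
  obtain ⟨hM, n, z, h⟩ := h
  by_cases hn : Q.Hon Q' n
  · exact Or.inl hn.eh
  by_cases hZ : ∃ s1 : ℝ, ∀ s ∈ Icc s1 (s1 + 1), Q'.X (F.f^[n] (Q.γ s)) = 0 ∧
      0 < Q'.Y (F.f^[n] (Q.γ s)) ∧ Q'.Y (F.f^[n] (Q.γ s)) ≤ 1 / 2
  · obtain ⟨s1, hZ⟩ := hZ
    exact Or.inr (Or.inr (conn_of hM h hZ))
  · obtain ⟨n', s1, s0, s2, h1, h2, h3, h4, h5, h6, h7⟩ := pen_param hM h hn hZ
    exact Or.inr (Or.inl (ep_of h1 h2 h3 h4 h5 h6 h7))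

end Quad

end Pool.Agent.Lib.MP_3fe454_an.S2
end

-- part Pool.Agent.Lib.MP_3fe454_an.S2.HS7
section

/-!
An honest cycle contradicts the hypothesis on periodic points.
-/

set_option autoImplicit false

open Set Metric Filter Topology Function

namespace Pool.Agent.Lib.MP_3fe454_an.S2

open PD

namespace Quad

variable {F : Dis}

theorem hs7_comp (k n l : ℕ) (e : ℝ → ℂ) :
    F.f^[k + n + l] ∘ e = F.f^[k] ∘ F.f^[n] ∘ F.f^[l] ∘ e := by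
  funext t
  simp only [comp_apply, iterate_add_apply]

theorem hs7_Xc_mono {Q : Quad F} {s1 s2 h' h k : ℝ} {e : ℝ → ℂ} {a b : ℝ}
    (H : Q.Xc s1 s2 h' h e a b) (hk : h ≤ k) : Q.Xc s1 s2 h' k e a b :=
  ⟨fun t ht => ⟨(H.1 t ht).1, (H.1 t ht).2.1, (H.1 t ht).2.2.1, (H.1 t ht).2.2.2.trans hk⟩, H.2⟩

theorem prg_ext {Q0 Q1 Q2 Q3 : Quad F} (h1 : Q0.Prg Q1) (h2 : Q1.EH Q2 ∨ Q1.EP Q2)
    (h3 : Q2.Prg Q3) : Q0.Prg Q3 := by
  intro y1 y2 x C s1 s2 hy1 hy2 hx hs hs2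
  rcases h2 with ⟨n, r1, r2, z1, z2, ξ, C', h0, hr, hr2, hz1, hz2, hξ, hh0, H2⟩ |
    ⟨n, r1, r2, z1, z2, h0, hr, hr2, hz1, hz2, hh0, H2⟩
  · obtain ⟨k1, hk1, H1⟩ := h1 y1 y2 x C r1 r2 hy1 hy2 hx hr hr2
    obtain ⟨k3, hk3, H3⟩ := h3 z1 z2 ξ C' s1 s2 hz1 hz2 hξ hs hs2
    refine ⟨min k1 (min h0 k3), by positivity, fun h hh hle => ?_⟩
    obtain ⟨h', hh', -, L, E, c1, c2, P1⟩ := H1 h hh (hle.trans (min_le_left _ _))
    obtain ⟨h'', hh'', hle'', L', E', -, -, P3⟩ :=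
      H3 h hh (hle.trans ((min_le_right _ _).trans (min_le_right _ _)))
    refine ⟨h'', hh'', hle'', fun j => L' true + n + L j, E, c1, c2, fun e a b he hE j => ?_⟩
    obtain ⟨a1, ha1, b1, hb1, m1, x1⟩ := P1 e a b he hE j
    have ce : Continuous (F.f^[L j] ∘ e) := (F.cf.iterate _).comp he
    obtain ⟨a2, ha2, b2, hb2, x2⟩ := H2 h' h hh'
      (hle.trans ((min_le_right _ _).trans (min_le_left _ _))) _ a1 b1 ce x1
    obtain ⟨a3, ha3, b3, hb3, -, x3⟩ := P3 _ a2 b2 ((F.cf.iterate _).comp ce) x2 true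
    have u1 := uIcc_subset_uIcc ha1 hb1
    have u2 := uIcc_subset_uIcc ha2 hb2
    have u3 := uIcc_subset_uIcc ha3 hb3
    refine ⟨a3, u1 (u2 ha3), b3, u1 (u2 hb3), fun t ht => m1 t (u2 (u3 ht)), ?_⟩
    rw [hs7_comp]
    exact x3
  · obtain ⟨k1, hk1, H1⟩ := h1 y1 y2 x C r1 r2 hy1 hy2 hx hr hr2
    refine ⟨min k1 h0, by positivity, fun h hh hle => ?_⟩
    obtain ⟨h', hh', -, L, E, c1, c2, P1⟩ := H1 h hh (hle.trans (min_le_left _ _))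
    obtain ⟨ξ, hξ, P2⟩ := H2 h' h hh' (hle.trans (min_le_right _ _))
    obtain ⟨k3, hk3, H3⟩ := h3 z1 z2 ξ 0 s1 s2 hz1 hz2 hξ hs hs2
    obtain ⟨h'', hh'', hle'', L', E', -, -, P3⟩ := H3 (min h k3) (by positivity) (min_le_right _ _)
    refine ⟨h'', hh'', hle''.trans (min_le_left _ _), fun j => L' true + n + L j, E, c1, c2,
      fun e a b he hE j => ?_⟩
    obtain ⟨a1, ha1, b1, hb1, m1, x1⟩ := P1 e a b he hE j
    have ce : Continuous (F.f^[L j] ∘ e) := (F.cf.iterate _).comp he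
    obtain ⟨a2, ha2, b2, hb2, x2⟩ := P2 _ a1 b1 ce x1
    obtain ⟨a3, ha3, b3, hb3, -, x3⟩ := P3 _ a2 b2 ((F.cf.iterate _).comp ce)
      (by rw [zero_mul]; exact x2) true
    have u1 := uIcc_subset_uIcc ha1 hb1
    have u2 := uIcc_subset_uIcc ha2 hb2
    have u3 := uIcc_subset_uIcc ha3 hb3
    refine ⟨a3, u1 (u2 ha3), b3, u1 (u2 hb3), fun t ht => m1 t (u2 (u3 ht)), ?_⟩
    rw [hs7_comp]
    exact hs7_Xc_mono x3 (min_le_left _ _)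

theorem prg_close {Q0 Q1 : Quad F} (h1 : Q0.Prg Q1) (h2 : Q1.EH Q0) : ¬ HP F := by
  intro hP
  obtain ⟨n, s1, s2, y1, y2, x, C, h0, hs, hs2, hy1, hy2, hx, hh0, H2⟩ := h2
  obtain ⟨k1, hk1, H1⟩ := h1 y1 y2 x C s1 s2 hy1 hy2 hx hs hs2
  obtain ⟨h', hh', hle', L, E, c1, c2, P1⟩ := H1 (min k1 h0) (by positivity) (min_le_left _ _)
  have step : ∀ e a b, Continuous e → Q0.Ent y1 y2 x (C * min k1 h0) e a b → ∀ j,
      ∃ a' ∈ uIcc a b, ∃ b' ∈ uIcc a b, (∀ t ∈ uIcc a' b', e t ∈ E j) ∧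
        Q0.Ent y1 y2 x (C * min k1 h0) (F.f^[n + L j] ∘ e) a' b' := by
    intro e a b he hE j
    obtain ⟨a1, ha1, b1, hb1, m1, x1⟩ := P1 e a b he hE j
    obtain ⟨a2, ha2, b2, hb2, x2⟩ := H2 h' _ hh' (min_le_right _ _) _ a1 b1
      ((F.cf.iterate _).comp he) x1
    have u1 := uIcc_subset_uIcc ha1 hb1
    have u2 := uIcc_subset_uIcc ha2 hb2
    refine ⟨a2, u1 ha2, b2, u1 hb2, fun t ht => m1 t (u2 ht), ?_⟩
    rw [iterate_add, comp_assoc]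
    exact x2
  obtain ⟨K, k1', k2, -, k4, k5⟩ := chaos F.f^[(n + L true) + (n + L false)] (F.cf.iterate _)
    (fun j => E j ∩ F.f^[n + L j] ⁻¹' E (!j))
    (fun j => (c1 j).inter_right ((c1 _).isClosed.preimage (F.cf.iterate _)))
    (c2.mono inter_subset_left inter_subset_left)
    {Z | ∃ e a b, Continuous e ∧ Q0.Ent y1 y2 x (C * min k1 h0) e a b ∧ Z = e '' uIcc a b}
    (by
      have hχ : Q1.χ s1 ≤ Q1.χ s2 := (Q1.χ_mono hs).le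
      have ce : Continuous fun t : ℝ => Q1.pt t (min k1 h0) :=
        Q1.toBox.c_pt.comp (continuous_id.prodMk continuous_const)
      obtain ⟨a, -, b, -, x2⟩ := H2 h' _ hh' (min_le_right _ _) _ (Q1.χ s1) (Q1.χ s2) ce
        ⟨fun t ht => by
          rw [uIcc_of_le hχ] at ht
          rw [Box.X_pt, Box.Y_pt]
          exact ⟨ht.1, ht.2, hle', le_rfl⟩, Box.X_pt _ _ _, Box.X_pt _ _ _⟩
      exact ⟨_, _, a, b, (F.cf.iterate _).comp ce, x2, rfl⟩)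
    (by
      rintro _ ⟨e, a, b, he, hE, rfl⟩ j
      obtain ⟨a1, ha1, b1, hb1, m1, x1⟩ := step e a b he hE j
      have ce : Continuous (F.f^[n + L j] ∘ e) := (F.cf.iterate _).comp he
      obtain ⟨a2, ha2, b2, hb2, m2, x2⟩ := step _ a1 b1 ce x1 (!j)
      have u1 := uIcc_subset_uIcc ha1 hb1
      have u2 := uIcc_subset_uIcc ha2 hb2
      refine ⟨e '' uIcc a2 b2, isCompact_uIcc.image he, ⟨_, a2, left_mem_uIcc, rfl⟩, ?_,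
        _, a2, b2, (F.cf.iterate _).comp ce, x2, ?_⟩
      · rintro _ ⟨t, ht, rfl⟩
        exact ⟨⟨t, u1 (u2 ht), rfl⟩, m1 t (u2 ht), m2 t ht⟩
      · rw [← image_comp, ← comp_assoc, ← iterate_add]
        cases j
        · rfl
        · rw [add_comm (n + L true)]
          rfl)
  rcases Nat.eq_zero_or_pos ((n + L true) + (n + L false)) with h0 | h0
  · obtain ⟨z, hz⟩ := k2
    refine k5 z hz ⟨1, one_pos, ?_⟩
    rw [h0]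
    rfl
  · obtain ⟨z, hz, p, hp, hper⟩ := hP.iter h0
      (k1'.image (F.cf.iterate ((n + L true) + (n + L false)))) (k2.image _)
      (by
        rintro _ ⟨w, -, rfl⟩
        obtain ⟨m, hm⟩ := Nat.exists_eq_succ_of_ne_zero h0.ne'
        rw [hm, iterate_succ_apply']
        exact mem_closedBall_zero_iff.2 ((F.maps _).trans F.r0_lt.le))
      (by
        rintro _ ⟨w, hw, rfl⟩
        exact ⟨_, k4 hw, rfl⟩)
    obtain ⟨w, hw, rfl⟩ := hz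
    exact k5 _ (k4 hw) ⟨p, hp, hper.iterate _⟩

theorem prg_chain {Q0 Q1 : Quad F} (h : Relation.ReflTransGen Quad.Lk Q0 Q1) : Q0.Prg Q1 := by
  have fin : ∀ Q : Quad F, (Q0.PS Q ∧ Q0.M = Q.M ∨ ∃ Qa Qb : Quad F, Q0.Prg Qa ∧
      (Qa.EH Qb ∨ Qa.EP Qb) ∧ Qb.PS Q ∧ Qb.M = Q.M) → Q0.Prg Q := by
    rintro Q (k | ⟨Qa, Qb, k1, k2, k3, -⟩)
    · exact k.1.prg
    · exact prg_ext k1 k2 k3.prg
  refine fin Q1 ?_
  induction h with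
  | refl => exact Or.inl ⟨Q0.ps_self, rfl⟩
  | @tail Q Q' _ hl ih =>
    rcases hl.classify with k | k | k
    · exact Or.inr ⟨Q, Q', fin Q ih, Or.inl k, Q'.ps_self, rfl⟩
    · exact Or.inr ⟨Q, Q', fin Q ih, Or.inr k, Q'.ps_self, rfl⟩
    · rcases ih with i | ⟨Qa, Qb, i1, i2, i3, i4⟩
      · exact Or.inl ⟨ps_conn i.1 k i.2 hl.1, i.2.trans hl.1⟩
      · exact Or.inr ⟨Qa, Qb, i1, i2, ps_conn i3 k i4 hl.1, i4.trans hl.1⟩

theorem hs_main {Q0 Q1 : Quad F} (h : Relation.ReflTransGen Quad.Lk Q0 Q1) {n : ℕ}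
    (hn : Q1.Hon Q0 n) : ¬ HP F := prg_close (prg_chain h) hn.eh

end Quad

end Pool.Agent.Lib.MP_3fe454_an.S2
end

-- part Pool.Agent.Lib.MP_3fe454_an.S2.Pass1
section

/-!
Construction of passes.
-/

set_option autoImplicit false

open Set Metric Filter Topology Function

namespace Pool.Agent.Lib.MP_3fe454_an.S2

open PD

variable {F : Dis} {At : Atlas F} {ι : Type} {U : Ultrafilter ι} {o : ι → ℤ → ℂ} {L : ℕ}
  {q : periodicPts F.f} {sh sv : Bool} {Q : Quad F}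

theorem Atlas.IsQ.full (h : At.IsQ q sh sv Q) : ∀ w ∈ Q.S, F.f^[Q.M] w = Q.Gt w := by
  obtain ⟨B, h1, h2, h3, h4⟩ := h
  obtain ⟨k1, -, k2, -⟩ := Atlas.mkq_ok h1
  intro w hw
  have e1 := hw.1
  have e2 := hw.2
  rw [(h4 w).1, mkq_abs2] at e1
  rw [(h4 w).2, mkq_abs] at e2
  rw [h2, h3]
  refine k1 w ⟨?_, e2⟩
  linarith [abs_sub_abs_le_abs_sub (B.X w) (B.X q)]

theorem Quad.hon_of_local {Q Q' : Quad F} {n : ℕ} {z : ℂ} (h0 : 0 < Q.X z) (h1 : Q.X z < 1)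
    (h2 : Q.Y z = 0) (h3 : Q'.X (F.f^[n] z) = 0) (h4 : 0 < Q'.Y (F.f^[n] z))
    (h5 : Q'.Y (F.f^[n] z) < 1)
    (h : ∀ ε > 0, ∃ u, dist u z < ε ∧ Q.Y u = 0 ∧ 0 < Q'.X (F.f^[n] u)) : Q.Hon Q' n := by
  have e := Q.loc_mem h0 h1.le h2
  refine ⟨-Q.dep (Q.X z), e ▸ h3, e ▸ h4, e ▸ h5, fun ε hε => ?_⟩
  have c : ContinuousAt (fun u => Q.dep (Q.X u)) z :=
    (Q.dep_cont.continuousAt (Ioc_mem_nhds h0 h1)).comp Q.cX.continuousAt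
  obtain ⟨δ, hδ, k⟩ := Metric.eventually_nhds_iff.1 ((c.eventually (ball_mem_nhds _ hε)).and
    (Q.cX.continuousAt.eventually (Ioo_mem_nhds h0 h1)))
  obtain ⟨u, u1, u2, u3⟩ := h δ hδ
  obtain ⟨k1, k2, k3⟩ := k u1
  refine ⟨-Q.dep (Q.X u), ?_, Q.loc_mem k2 k3.le u2 ▸ u3⟩
  rw [neg_sub_neg, abs_sub_comm]
  exact k1

theorem p1_run {o : ℤ → ℂ} (ho : Orb F o) (hQ : ∀ w ∈ Q.S, F.f^[Q.M] w = Q.Gt w) (c : ℤ) (n : ℕ)
    (h : ∀ j < n, o (c + (j * Q.M : ℕ)) ∈ Q.S) : o (c + (n * Q.M : ℕ)) = Q.Gt^[n] (o c) := by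
  induction n with
  | zero => simp
  | succ n ih =>
    rw [iterate_succ_apply', ← ih fun j hj => h j (by omega), ← hQ _ (h n (by omega)), ← ho.add,
      Nat.succ_mul, Nat.cast_add, add_assoc]

theorem p1_int {P : ℤ → Prop} {a b : ℤ} {M : ℕ} (hM : 0 < M)
    (h : ∀ k : ℕ, a + k * M ≤ b → P (a + k * M)) (t : ℤ) (h1 : a ≤ t) (h2 : t ≤ b)
    (h3 : (M : ℤ) ∣ t - a) : P t := by
  obtain ⟨k, hk⟩ := h3
  have h0 : 0 ≤ k := nonneg_of_mul_nonneg_right (a := (M : ℤ)) (by omega) (by exact_mod_cast hM)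
  lift k to ℕ using h0
  have e : t = a + k * M := by linarith
  exact e ▸ h k (e ▸ h2)

theorem p1_inv (n : ℕ) (x : ℂ) : Q.Gt^[n] (Q.Gt.symm^[n] x) = x :=
  LeftInverse.iterate Q.Gt.apply_symm_apply n x

theorem p1_lam (n : ℕ) (w : ℂ) : |Q.Y (Q.Gt^[n] w)| ≤ |Q.Y w| :=
  (Q.Y_iter_abs n w).trans
    (mul_le_of_le_one_left (abs_nonneg _) (pow_le_one₀ Q.lam_pos.le Q.lam_lt.le))

theorem p1_hgt {j n : ℕ} (h : j ≤ n) (u : ℂ) :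
    |Q.Y (Q.Gt.symm^[j] u)| ≤ |Q.Y (Q.Gt.symm^[n] u)| := by
  obtain ⟨d, rfl⟩ := Nat.exists_eq_add_of_le' h
  rw [← p1_inv (Q := Q) d (Q.Gt.symm^[j] u), iterate_add_apply]
  exact p1_lam d _

theorem p1_lev {u : ℂ} (h1 : Q.X u ≤ 1) (n : ℕ) : Q.X (Q.Gt.symm^[n] u) ≤ Q.χ (-n) := by
  rw [Q.X_symm_iter, ← Q.quadb_symm]
  exact Q.φ.symm.monotone.iterate n h1

theorem p1_pos {u : ℂ} (h0 : 0 < Q.X u) (n : ℕ) : 0 < Q.X (Q.Gt.symm^[n] u) := by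
  rwa [← Q.phi_iter_pos n, ← Q.X_iter, p1_inv]

theorem p1_chi : Tendsto (fun n : ℕ => Q.χ (-n)) atTop (𝓝 0) :=
  Q.phi_symm_lim.congr Q.quadb_symm

theorem p1_zero {x : ℝ} {c : ℕ → ℝ} (hc : Tendsto c atTop (𝓝 0)) (h : ∀ n, |x| ≤ c n) : x = 0 :=
  abs_nonpos_iff.1 (ge_of_tendsto' hc h)

theorem p1_pow : Tendsto (fun n : ℕ => Q.lam ^ n) atTop (𝓝 0) :=
  tendsto_pow_atTop_nhds_zero_of_lt_one Q.lam_pos.le Q.lam_lt

theorem p1_sq {o : ℤ → ℂ} (ho : Orb F o) (hQ : ∀ w ∈ Q.S, F.f^[Q.M] w = Q.Gt w) {a b c : ℤ}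
    (h : ∀ t, a ≤ t → t ≤ b → (Q.M : ℤ) ∣ t - a →
      0 ≤ Q.X (o t) ∧ Q.X (o t) ≤ 1 ∧ |Q.Y (o t)| ≤ 1 / 2) (hc : (Q.M : ℤ) ∣ c - a) {n : ℕ}
    (h1 : a + (n * Q.M : ℕ) ≤ c) (h2 : c + (n * Q.M : ℕ) ≤ b) :
    |Q.X (o c)| ≤ Q.χ (-n) ∧ |Q.Y (o c)| ≤ Q.lam ^ n := by
  have hS : ∀ t, a ≤ t → t ≤ b → (Q.M : ℤ) ∣ t - a → o t ∈ Q.S := fun t t1 t2 t3 =>
    let ⟨k1, k2, k3⟩ := h t t1 t2 t3
    ⟨(abs_of_nonneg k1).trans_le k2, k3.trans (by norm_num)⟩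
  have hd : ∀ (d : ℤ) (j : ℕ), (Q.M : ℤ) ∣ d - a → (Q.M : ℤ) ∣ d + (j * Q.M : ℕ) - a :=
    fun d j k => by
      rw [add_sub_right_comm]
      exact k.add (by push_cast; exact dvd_mul_left _ _)
  have hj : ∀ j < n, j * Q.M ≤ n * Q.M := fun j k => Nat.mul_le_mul_right _ k.le
  constructor
  · have e := p1_run ho hQ c n fun j k => hS _ (by omega) (by have := hj j k; omega) (hd c j hc)
    have k := p1_lev (h _ (by omega) h2 (hd c n hc)).2.1 n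
    rw [e, LeftInverse.iterate Q.Gt.symm_apply_apply n] at k
    exact (abs_of_nonneg (h c (by omega) (by omega) hc).1).trans_le k
  · have hc' : (Q.M : ℤ) ∣ c - (n * Q.M : ℕ) - a := by
      rw [sub_right_comm]
      exact hc.sub (by push_cast; exact dvd_mul_left _ _)
    have e := p1_run ho hQ (c - (n * Q.M : ℕ)) n fun j k =>
      hS _ (by omega) (by have := hj j k; omega) (hd _ j hc')
    rw [sub_add_cancel] at e
    rw [e]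
    exact (Q.Y_iter_abs n _).trans (mul_le_of_le_one_right (pow_pos Q.lam_pos n).le
      (hS _ (by omega) (by omega) hc').2)

theorem p1_X {t : ι → ℤ} {z : ℂ} (h : Lim U o t z) :
    Tendsto (fun i => Q.X (o i (t i))) U (𝓝 (Q.X z)) := (Q.cX.tendsto z).comp h

theorem p1_Y {t : ι → ℤ} {z : ℂ} (h : Lim U o t z) :
    Tendsto (fun i => Q.Y (o i (t i))) U (𝓝 (Q.Y z)) := (Q.cY.tendsto z).comp h

theorem seg_of (ho : ∀ i, Orb F (o i)) (hL : 0 < L) (hQ : ∀ w ∈ Q.S, F.f^[Q.M] w = Q.Gt w)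
    {a b : ι → ℤ} {y z : ℂ} (h1 : ∀ n : ℕ, ∀ᶠ i in U, a i + n ≤ b i)
    (h2 : ∀ᶠ i in U, ((L * Q.M : ℕ) : ℤ) ∣ b i - a i)
    (h3 : ∀ᶠ i in U, ∀ k : ℕ, a i + k * Q.M ≤ b i → 0 ≤ Q.X (o i (a i + k * Q.M)) ∧
      Q.X (o i (a i + k * Q.M)) ≤ 1 ∧ |Q.Y (o i (a i + k * Q.M))| ≤ 1 / 2)
    (hy : Lim U o a y) (hz : Lim U o b z) : Seg U o Q L a b y z := by
  refine ⟨h1, h2, h3.mono fun i k n hn => ⟨(abs_of_nonneg (k n hn).1).trans_le (k n hn).2.1,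
    (k n hn).2.2⟩, fun t w ht hw => ?_⟩
  have hb : ∀ᶠ i in U, (L : ℤ) ∣ b i - a i :=
    h2.mono fun i k => (Int.natCast_dvd_natCast.2 (dvd_mul_right L Q.M)).trans k
  rcases ult_dich U (fun i => t i - a i) (ht.mono fun i k => by omega) with ⟨s, hs⟩ | h4
  · obtain ⟨i, k1, k2⟩ := (hs.and ht).exists
    obtain ⟨r, rfl⟩ : L ∣ s := Int.natCast_dvd_natCast.1 (k1 ▸ k2.2.2)
    exact ⟨r, Or.inl (hw.unique ((hy.add ho _).congr (hs.mono fun i k => by omega)))⟩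
  rcases ult_dich U (fun i => b i - t i) (ht.mono fun i k => by omega) with ⟨s, hs⟩ | h5
  · obtain ⟨i, ⟨k1, k2⟩, k3⟩ := ((hs.and ht).and hb).exists
    obtain ⟨r, rfl⟩ : L ∣ s := Int.natCast_dvd_natCast.1 (by
      rw [← k1, ← sub_sub_sub_cancel_right _ _ (a i)]
      exact k3.sub k2.2.2)
    exact ⟨r, Or.inr (Or.inl ⟨hs.mono fun i k => by omega,
      hw.unique ((hz.sub ho _).congr (hs.mono fun i k => by omega))⟩)⟩
  obtain ⟨r, -, hr⟩ := ult_res U (fun i => t i - a i) (Nat.mul_pos hL Q.M_pos)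
  obtain ⟨i, k1, k2⟩ := (hr.and ht).exists
  obtain ⟨s, rfl⟩ : L ∣ r := Int.natCast_dvd_natCast.1 (by
    simpa using k2.2.2.sub ((Int.natCast_dvd_natCast.2 (dvd_mul_right L Q.M)).trans k1))
  obtain ⟨v, hv⟩ := lim_exists (U := U) ho fun i => t i - (L * s : ℕ)
  have key : ∀ n : ℕ, ∀ᶠ i in U, |Q.X (o i (t i - (L * s : ℕ)))| ≤ Q.χ (-n) ∧
      |Q.Y (o i (t i - (L * s : ℕ)))| ≤ Q.lam ^ n := fun n => by
    filter_upwards [h3, hr, h4 (n * Q.M + L * s), h5 (n * Q.M)] with i k1 k2 k3 k4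
    refine p1_sq (ho i) hQ (p1_int (P := fun t => 0 ≤ Q.X (o i t) ∧ Q.X (o i t) ≤ 1 ∧
      |Q.Y (o i t)| ≤ 1 / 2) Q.M_pos k1) ?_ (by omega) (by omega)
    rw [sub_right_comm]
    exact (Int.natCast_dvd_natCast.2 (dvd_mul_left Q.M L)).trans k2
  have e : v = Q.p := Q.ext_XY
    ((p1_zero p1_chi fun n => le_of_tendsto (p1_X hv).abs ((key n).mono fun _ k => k.1)).trans
      Q.p_X.symm)
    ((p1_zero p1_pow fun n => le_of_tendsto (p1_Y hv).abs ((key n).mono fun _ k => k.2)).trans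
      Q.p_Y.symm)
  exact ⟨s, Or.inr (Or.inr (hw.unique ((e ▸ hv.add ho (L * s)).congr
    (Eventually.of_forall fun i => sub_add_cancel _ _))))⟩

/-- an entrance gives a pass -/
theorem pe (ho : ∀ i, Orb F (o i)) (hL : 0 < L) (h : At.IsQ q sh sv Q) {a : ι → ℤ} {y : ℂ}
    (hy : Lim U o a y) (h0 : Q.X y = 0) (h1 : 0 < Q.Y y) (h2 : Q.Y y < 1 / 2)
    (ha : ∀ᶠ i in U, 0 < Q.X (o i (a i))) :
    ∃ P : Pass At U o L, P.q = q ∧ P.sh = sh ∧ P.sv = sv ∧ P.Q = Q ∧ P.a = a ∧ P.y = y := by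
  have l0 : (0 : ℝ) < L := by exact_mod_cast hL
  let k : ι → ℕ := fun i => ⌊(Q.dep (Q.X (o i (a i))) - 1) / L⌋₊
  let b : ι → ℤ := fun i => a i + (Q.M * (L * k i) : ℕ)
  have g1 : ∀ᶠ i in U, Q.X (o i (a i)) ≤ 1 :=
    (p1_X hy).eventually (eventually_le_nhds (by rw [h0]; norm_num))
  have g2 : ∀ᶠ i in U, Q.Y (o i (a i)) ∈ Ioo 0 (1 / 2) := (p1_Y hy).eventually (Ioo_mem_nhds h1 h2)
  have g3 : ∀ s : ℝ, ∀ᶠ i in U, s ≤ Q.dep (Q.X (o i (a i))) := fun s => by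
    filter_upwards [ha, g1, (p1_X hy).eventually (eventually_le_nhds (h0 ▸ Q.χ_pos (-s)))]
      with i k1 k2 k3
    exact (Q.le_dep_iff k1 k2).2 k3
  have g4 : ∀ n : ℕ, ∀ᶠ i in U, n ≤ L * k i := fun n => (g3 (n * L + 1)).mono fun i k1 =>
    (Nat.le_floor ((le_div_iff₀ l0).2 (by linarith))).trans (Nat.le_mul_of_pos_left _ hL)
  have g5 : ∀ᶠ i in U, ((L * k i : ℕ) : ℝ) ≤ Q.dep (Q.X (o i (a i))) - 1 := (g3 1).mono fun i k1 => by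
    rw [Nat.cast_mul, mul_comm]
    exact (le_div_iff₀ l0).1 (Nat.floor_le (div_nonneg (by linarith) l0.le))
  have g6 : ∀ᶠ i in U, ∀ j : ℕ, j ≤ L * k i →
      Q.X (o i (a i + (Q.M * j : ℕ))) = Q.χ (j - Q.dep (Q.X (o i (a i)))) ∧
      (j : ℝ) - Q.dep (Q.X (o i (a i))) ≤ -1 ∧
      |Q.Y (o i (a i + (Q.M * j : ℕ)))| ≤ Q.lam ^ j * (1 / 2) ∧
      0 < Q.Y (o i (a i + (Q.M * j : ℕ))) := by
    filter_upwards [ha, g1, g2, g5] with i k1 k2 k3 k4 j hj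
    have k5 : (j : ℝ) ≤ (L * k i : ℕ) := by exact_mod_cast hj
    have k6 : |Q.Y (o i (a i))| ≤ 1 / 2 := (abs_of_pos k3.1).trans_le k3.2.le
    obtain ⟨-, r1, r2, r3⟩ := Q.run k1 k2 (k6.trans (by norm_num)) (n := j) (by linarith)
    rw [(ho i).add]
    exact ⟨r1, by linarith, r2.trans (mul_le_mul_of_nonneg_left k6 (pow_pos Q.lam_pos j).le),
      r3 k3.1⟩
  obtain ⟨z, hz⟩ := lim_exists (U := U) ho b
  have z1 : Q.χ (-1 - L) ≤ Q.X z := ge_of_tendsto (p1_X hz) (g6.mono fun i k1 => by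
    rw [(k1 _ le_rfl).1]
    refine Q.χ_mono.monotone ?_
    have := (div_lt_iff₀ l0).1 (Nat.lt_floor_add_one ((Q.dep (Q.X (o i (a i))) - 1) / L))
    push_cast
    linarith)
  have z2 : Q.X z ≤ Q.χ (-1) := le_of_tendsto (p1_X hz) (g6.mono fun i k1 => by
    rw [(k1 _ le_rfl).1]
    exact Q.χ_mono.monotone (k1 _ le_rfl).2.1)
  have z3 : Q.Y z = 0 := p1_zero p1_pow fun n => le_of_tendsto (p1_Y hz).abs (by
    filter_upwards [g6, g4 n] with i k1 k2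
    have := pow_le_pow_of_le_one Q.lam_pos.le Q.lam_lt.le k2
    linarith [(k1 _ le_rfl).2.2.1, pow_pos Q.lam_pos n])
  refine ⟨⟨q, sh, sv, Q, a, b, y, z, h, hy, h0, ⟨h1, h2⟩, ha, hz,
    ⟨(Q.χ_pos _).trans_le z1, z2.trans_lt ((Q.χ_mono (by norm_num)).trans_eq Q.χ_zero)⟩, z3,
    g6.mono fun i k1 => (k1 _ le_rfl).2.2.2,
    seg_of ho hL h.full (fun n => (g4 n).mono fun i k1 => ?_)
      (Eventually.of_forall fun i => ⟨k i, by simp only [b]; push_cast; ring⟩)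
      (g6.mono fun i k1 j hj => ?_) hy hz⟩, rfl, rfl, rfl, rfl, rfl, rfl⟩
  · have := k1.trans (Nat.le_mul_of_pos_left _ Q.M_pos)
    simp only [b]
    omega
  · rw [← Nat.cast_mul, mul_comm] at hj ⊢
    obtain ⟨r1, r2, r3, -⟩ := k1 j (Nat.le_of_mul_le_mul_left (by
      simp only [b] at hj
      omega) Q.M_pos)
    rw [r1]
    exact ⟨(Q.χ_pos _).le, Q.chi_le_one.2 (by linarith), r3.trans
      (mul_le_of_le_one_left (by norm_num) (pow_le_one₀ Q.lam_pos.le Q.lam_lt.le))⟩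

/-- a visit near the unstable arc has an entrance -/
theorem pb (ho : ∀ i, Orb F (o i)) (hL : 0 < L) (h : At.IsQ q sh sv Q) {t : ι → ℤ} {w : ℂ}
    (hw : Lim U o t w) (h0 : 0 ≤ Q.X w) (h1 : Q.X w < 1) (h2 : Q.Y w = 0)
    (ht : ∀ᶠ i in U, 0 < Q.X (o i (t i)) ∧ 0 < Q.Y (o i (t i))) :
    ∃ a y, Lim U o a y ∧ Q.X y = 0 ∧ 0 < Q.Y y ∧ Q.Y y < 1 / 2 ∧
      (∀ᶠ i in U, 0 < Q.X (o i (a i))) ∧ Seg U o Q L a t y w := by
  obtain ⟨θ', t0, t1⟩ := Q.quadb_back L (η := 1 / 4) (by norm_num)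
  obtain ⟨θ, t2, t3, t4⟩ : ∃ θ > 0, θ ≤ θ' ∧ θ ≤ 1 :=
    ⟨min θ' 1, lt_min t0 one_pos, min_le_left _ _, min_le_right _ _⟩
  let k : ι → ℕ := fun i => sInf {m | θ < |Q.Y (Q.Gt.symm^[L * m] (o i (t i)))|}
  let a : ι → ℤ := fun i => t i - (Q.M * (L * k i) : ℕ)
  have g1 : ∀ᶠ i in U, Q.X (o i (t i)) ≤ 1 := (p1_X hw).eventually (eventually_le_nhds h1)
  have g2 : ∀ᶠ i in U, θ < |Q.Y (Q.Gt.symm^[L * k i] (o i (t i)))| := ht.mono fun i k1 => by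
    refine Nat.sInf_mem (s := {m | θ < |Q.Y (Q.Gt.symm^[L * m] (o i (t i)))|}) ?_
    by_contra hn
    refine k1.2.ne' (Q.back_zero fun m => (p1_hgt (Nat.le_mul_of_pos_left m hL) _).trans ?_)
    exact (not_lt.1 fun e => hn ⟨m, e⟩).trans t4
  have g3 : ∀ n : ℕ, ∀ᶠ i in U, n < k i := fun n => by
    obtain ⟨d, d0, d1⟩ := Q.quadb_back (L * n) t2
    filter_upwards [ht, g1, g2, (p1_Y hw).abs.eventually
      (eventually_le_nhds (by rwa [h2, abs_zero]))] with i k1 k2 k3 k4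
    exact lt_of_not_ge fun e => k3.not_ge
      ((p1_hgt (Nat.mul_le_mul_left L e) _).trans (d1 _ k1.1.le k2 k4))
  have g4 : ∀ n : ℕ, ∀ᶠ i in U, n ≤ L * k i := fun n => (g3 n).mono fun i k1 =>
    k1.le.trans (Nat.le_mul_of_pos_left _ hL)
  have c1 : ∀ n : ℕ, Q.χ (-n) ≤ 1 := fun n => Q.chi_le_one.2 (by simp)
  have g5 : ∀ᶠ i in U, o i (a i) = Q.Gt.symm^[L * k i] (o i (t i)) ∧ |Q.Y (o i (a i))| ≤ 1 / 4 := by
    filter_upwards [ht, g1, g3 0] with i k1 k2 k3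
    obtain ⟨m, hm⟩ : ∃ m, k i = m + 1 := ⟨k i - 1, by omega⟩
    have e1 : |Q.Y (Q.Gt.symm^[L * k i] (o i (t i)))| ≤ 1 / 4 := by
      rw [hm, Nat.mul_succ, add_comm, iterate_add_apply]
      exact t1 _ (p1_pos k1.1 _).le ((p1_lev k2 _).trans (c1 _)) ((not_lt.1
        (Nat.notMem_of_lt_sInf (s := {m | θ < |Q.Y (Q.Gt.symm^[L * m] (o i (t i)))|})
          (hm ▸ Nat.lt_succ_self m : m < k i))).trans t3)
    have e2 := (Q.back_ag ⟨(abs_of_pos k1.1).trans_le k2, (p1_hgt (Nat.zero_le _) _).trans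
      (e1.trans (by norm_num))⟩ ⟨(abs_of_pos (p1_pos k1.1 _)).trans_le
        ((p1_lev k2 _).trans (c1 _)), e1.trans (by norm_num)⟩ _ le_rfl).1
    rw [← (ho i).sub] at e2
    exact ⟨e2, e2 ▸ e1⟩
  have g6 : ∀ᶠ i in U, 0 < Q.X (o i (a i)) := by
    filter_upwards [ht, g5] with i k1 k2
    exact k2.1 ▸ p1_pos k1.1 _
  obtain ⟨y, hy⟩ := lim_exists (U := U) ho a
  have y1 : θ ≤ Q.Y y := ge_of_tendsto (p1_Y hy) (by
    filter_upwards [ht, g2, g5] with i k1 k2 k3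
    rw [k3.1, ← abs_of_pos ((Q.Y_symm_pos _ _).2 k1.2)]
    exact k2.le)
  have y2 : |Q.Y y| ≤ 1 / 4 := le_of_tendsto (p1_Y hy).abs (g5.mono fun _ k => k.2)
  refine ⟨a, y, hy, p1_zero (p1_chi (Q := Q)) fun n => le_of_tendsto (p1_X hy).abs ?_, t2.trans_le y1,
    by linarith [le_abs_self (Q.Y y)], g6,
    seg_of ho hL h.full (fun n => (g4 n).mono fun i k1 => ?_)
      (Eventually.of_forall fun i => ⟨k i, by simp only [a]; push_cast; ring⟩) ?_ hy hw⟩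
  · filter_upwards [g1, g4 n, g5, g6] with i k1 k2 k3 k4
    rw [abs_of_pos k4, k3.1]
    exact (p1_lev k1 _).trans (Q.χ_mono.monotone (neg_le_neg (by exact_mod_cast k2)))
  · have := k1.trans (Nat.le_mul_of_pos_left _ Q.M_pos)
    simp only [a]
    omega
  · filter_upwards [ht, g1, g5, g6] with i k1 k2 k3 k4 j hj
    rw [← Nat.cast_mul, mul_comm] at hj ⊢
    obtain ⟨r1, r2⟩ := Q.iter_ag (w := o i (a i)) (n := L * k i)
      ⟨(abs_of_pos k4).trans_le (k3.1 ▸ (p1_lev k2 _).trans (c1 _)), k3.2.trans (by norm_num)⟩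
      (by rw [k3.1, p1_inv, abs_of_pos k1.1]; exact k2) j (Nat.le_of_mul_le_mul_left (by
        simp only [a] at hj
        omega) Q.M_pos)
    rw [(ho i).add, r1]
    refine ⟨?_, (le_abs_self _).trans r2.1, (p1_lam j _).trans (k3.2.trans (by norm_num))⟩
    rw [Q.X_iter]
    exact ((Q.phi_iter_pos j _).2 k4).le

namespace Pass

variable (P : Pass At U o L)

theorem z_gam : ∃ s < 0, P.z = P.Q.γ s :=
  ⟨_, P.Q.χ_mono.lt_iff_lt.1 (by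
    rw [(P.Q.dep_spec P.zX.1 P.zX.2.le).1, P.Q.χ_zero]
    exact P.zX.2), P.Q.loc_mem P.zX.1 P.zX.2.le P.zY⟩

theorem z_not_per : P.z ∉ periodicPts F.f := by
  obtain ⟨s, -, e⟩ := P.z_gam
  exact e ▸ P.Q.γ_not_per s

theorem y_not_per : P.y ∉ periodicPts F.f := fun h => by
  have e := P.Q.axis_per P.yX ((abs_of_pos P.yY.1).trans_le (by linarith [P.yY.2])) h
  exact P.yY.1.ne' (e ▸ P.Q.p_Y)

theorem a_mem {d : ℝ} (hd : 0 < d) : ∀ᶠ i in U, o i (P.a i) ∈ P.Q.T d := by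
  filter_upwards [P.aX, (p1_X P.ly).eventually (eventually_lt_nhds (P.yX ▸ hd)),
    (p1_Y P.ly).eventually (Ioo_mem_nhds P.yY.1 P.yY.2)] with i k1 k2 k3
  exact ⟨k1, k2, k3⟩

theorem stay : ∀ᶠ i in U, ∀ t, P.a i ≤ t → t ≤ P.b i → (At.M P.q : ℤ) ∣ t - P.a i →
    o i t ∈ At.Sc P.q := by
  filter_upwards [P.seg.2.2.1] with i k
  rw [← P.isq.M]
  exact p1_int (P := fun t => o i t ∈ At.Sc P.q) P.Q.M_pos fun n hn => (P.isq.Sc _).2 (k n hn)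

theorem Nx.lkD {P P' : Pass At U o L} (h : P.Nx P') : P.Q.LkD P'.Q :=
  let ⟨n, h1, _, h2, _⟩ := h
  ⟨n, (dvd_mul_left _ _).trans h1, _, h2⟩

theorem Nx.dvd {P P' : Pass At U o L} (h : P.Nx P') :
    ∀ᶠ i in U, (L : ℤ) ∣ P'.a i - P.a i ∧ P.b i ≤ P'.a i := by
  obtain ⟨n, h1, h2, -⟩ := h
  filter_upwards [h2, P.seg.2.1] with i k1 k2
  refine ⟨?_, by omega⟩
  rw [k1, add_sub_right_comm]
  exact ((Int.natCast_dvd_natCast.2 (dvd_mul_right L _)).trans k2).add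
    (Int.natCast_dvd_natCast.2 (((dvd_mul_right L _).mul_right _).trans h1))

end Pass

end Pool.Agent.Lib.MP_3fe454_an.S2
end

-- part Pool.Agent.Lib.MP_3fe454_an.S2.Pass2
section

/-!
The initial pass and the next pass.
-/

set_option autoImplicit false

open Set Metric Filter Topology Function

namespace Pool.Agent.Lib.MP_3fe454_an.S2

open PD

variable {F : Dis} {At : Atlas F} {ι : Type} {U : Ultrafilter ι} {o : ι → ℤ → ℂ} {L : ℕ}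

theorem pass2_exF (ho : ∀ i, Orb F (o i)) {t : ι → ℤ} (he : At.ExF U o t)
    (q : periodicPts F.f) : ∀ᶠ i in U, ∃ k : ℕ, F.f^[At.M q * k] (o i (t i)) ∉ At.Sc q := by
  obtain ⟨r, -, hr⟩ := ult_res U t (At.M_pos q)
  filter_upwards [hr, he q r] with i h1 ⟨t', h2, h3, h4⟩
  obtain ⟨c, hc⟩ : (At.M q : ℤ) ∣ t' - t i := by
    have := dvd_sub h3 h1
    rwa [sub_sub_sub_cancel_right] at this
  have hM : (0 : ℤ) < At.M q := by exact_mod_cast At.M_pos q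
  have h0 : 0 ≤ c := nonneg_of_mul_nonneg_right (by rw [← hc]; omega) hM
  obtain ⟨k, rfl⟩ := Int.eq_ofNat_of_zero_le h0
  refine ⟨k, ?_⟩
  rw [← (ho i).add]
  have e : t i + ((At.M q * k : ℕ) : ℤ) = t' := by push_cast; omega
  rwa [e]

theorem pass2_exB (ho : ∀ i, Orb F (o i)) {t : ι → ℤ} (he : At.ExB U o t)
    (q : periodicPts F.f) : ∀ᶠ i in U, ∃ k : ℕ, F.g^[At.M q * k] (o i (t i)) ∉ At.Sc q := by
  obtain ⟨r, -, hr⟩ := ult_res U t (At.M_pos q)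
  filter_upwards [hr, he q r] with i h1 ⟨t', h2, h3, h4⟩
  obtain ⟨c, hc⟩ : (At.M q : ℤ) ∣ t i - t' := by
    have := dvd_sub h1 h3
    rwa [sub_sub_sub_cancel_right] at this
  have hM : (0 : ℤ) < At.M q := by exact_mod_cast At.M_pos q
  have h0 : 0 ≤ c := nonneg_of_mul_nonneg_right (by rw [← hc]; omega) hM
  obtain ⟨k, rfl⟩ := Int.eq_ofNat_of_zero_le h0
  refine ⟨k, ?_⟩
  rw [← (ho i).sub]
  have e : t i - ((At.M q * k : ℕ) : ℤ) = t' := by push_cast; omega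
  rwa [e]

theorem pass2_trap {q : periodicPts F.f} {T : Trap F} (hq : At.L q = Sum.inl T) :
    T.q = q ∧ At.M q = T.M ∧ At.Sc q = {w | T.N (w - T.q) ≤ T.r} := by
  have h := At.ok q
  rw [Atlas.M, Atlas.Sc]
  rw [hq] at h ⊢
  exact ⟨h, rfl, rfl⟩

theorem pass2_box {q : periodicPts F.f} {B : Box F} (hq : At.L q = Sum.inr B) :
    At.M q = B.M ∧ At.Sc q = {w | |B.X w - B.X q| ≤ 1 / 2 ∧ |B.Y w| ≤ 1 / 2} ∧
      B.φ (B.X q) = B.X q := by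
  refine ⟨?_, ?_, ?_⟩
  · rw [Atlas.M, hq]; rfl
  · rw [Atlas.Sc, hq]; rfl
  · rw [← B.X_Gt, (Atlas.mkq_ok hq).2.2.2.2]

theorem pass2_stay {B : Box F} (hB : B.Full) {a b : ℝ} (ha : -1 ≤ a) (hb : b ≤ 1)
    (ha' : a ≤ B.φ a) (hb' : B.φ b ≤ b) {w : ℂ} (h : (a ≤ B.X w ∧ B.X w ≤ b) ∧ |B.Y w| ≤ 1 / 2)
    (k : ℕ) : (a ≤ B.X (F.f^[B.M * k] w) ∧ B.X (F.f^[B.M * k] w) ≤ b) ∧
      |B.Y (F.f^[B.M * k] w)| ≤ 1 / 2 := by
  induction k with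
  | zero => exact h
  | succ k ih =>
    obtain ⟨⟨h1, h2⟩, h3⟩ := ih
    rw [mul_add, mul_one, add_comm, iterate_add_apply,
      hB _ ⟨abs_le.2 ⟨ha.trans h1, h2.trans hb⟩, by linarith⟩, B.X_Gt]
    refine ⟨⟨ha'.trans (B.φ.monotone h1), (B.φ.monotone h2).trans hb'⟩, (B.Y_Gt_abs _).trans ?_⟩
    exact (mul_le_of_le_one_left (abs_nonneg _) B.lam_lt.le).trans h3

theorem pass2_sign {α : Type} (V : Ultrafilter α) (x : α → ℝ) :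
    (∀ᶠ i in V, x i = 0) ∨ ∃ b, ∀ᶠ i in V, 0 < sg b * x i := by
  have h : ∀ᶠ i in V, x i = 0 ∨ (0 < sg true * x i ∨ 0 < sg false * x i) :=
    Eventually.of_forall fun i => by
      rw [mkq_t, mkq_f]
      rcases lt_trichotomy (x i) 0 with h | h | h
      · exact Or.inr (Or.inr (by linarith))
      · exact Or.inl h
      · exact Or.inr (Or.inl (by linarith))
  rw [Ultrafilter.eventually_or, Ultrafilter.eventually_or] at h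
  exact h.imp_right fun h => h.elim (fun h => ⟨_, h⟩) fun h => ⟨_, h⟩

theorem not_trap (ho : ∀ i, Orb F (o i)) {q : periodicPts F.f} {T : Trap F}
    (hq : At.L q = Sum.inl T) {t : ι → ℤ} {w : ℂ} (hw : Lim U o t w) (h : T.N (w - T.q) < T.r)
    (he : At.ExF U o t) : False := by
  obtain ⟨-, h2, h3⟩ := pass2_trap hq
  have h4 : ∀ᶠ i in U, T.N (o i (t i) - T.q) < T.r :=
    ((T.cont.tendsto w).comp hw).eventually (eventually_lt_nhds h)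
  obtain ⟨i, h5, k, h6⟩ := (h4.and (pass2_exF ho he q)).exists
  refine h6 ?_
  rw [h2, h3]
  refine (T.stay h5.le k).trans (le_trans ?_ h5.le)
  exact mul_le_of_le_one_left (apply_nonneg _ _) (pow_le_one₀ T.θ_pos.le T.θ_lt.le)

theorem side_gap (ho : ∀ i, Orb F (o i)) {q : periodicPts F.f} {B : Box F}
    (hq : At.L q = Sum.inr B) {t : ι → ℤ} {w : ℂ} (hw : Lim U o t w) (h0 : B.X w = B.X q)
    (h1 : |B.Y w| < 1 / 2) (he : At.ExF U o t) :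
    ∃ sh, B.Gap (B.X q) sh ∧ ∀ᶠ i in U, 0 < sg sh * (B.X (o i (t i)) - B.X q) := by
  obtain ⟨hB, -, hx, -, -⟩ := Atlas.mkq_ok hq
  obtain ⟨h2, h3, h4⟩ := pass2_box hq
  obtain ⟨hx1, hx2⟩ := abs_le.1 hx
  have hX : Tendsto (fun i => B.X (o i (t i))) U (𝓝 (B.X q)) := h0 ▸ (B.cX.tendsto w).comp hw
  have hY : ∀ᶠ i in U, |B.Y (o i (t i))| < 1 / 2 :=
    ((B.cY.abs.tendsto w).comp hw).eventually (eventually_lt_nhds h1)
  have kill : ∀ a b, B.X q - 1 / 2 ≤ a → b ≤ B.X q + 1 / 2 → a ≤ B.φ a → B.φ b ≤ b →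
      (∀ᶠ i in U, a ≤ B.X (o i (t i)) ∧ B.X (o i (t i)) ≤ b) → False := by
    intro a b a1 a2 a3 a4 a5
    obtain ⟨i, ⟨a6, a7⟩, k, a8⟩ := ((a5.and hY).and (pass2_exF ho he q)).exists
    obtain ⟨⟨b1, b2⟩, b3⟩ := pass2_stay hB (by linarith) (by linarith) a3 a4 ⟨a6, a7.le⟩ k
    refine a8 ?_
    rw [h2, h3]
    exact ⟨abs_le.2 ⟨by linarith, by linarith⟩, b3⟩
  rcases pass2_sign U fun i => B.X (o i (t i)) - B.X q with h | ⟨sh, h⟩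
  · exact (kill (B.X q) (B.X q) (by linarith) (by linarith) h4.ge h4.le
      (h.mono fun i hi => ⟨by linarith, by linarith⟩)).elim
  refine ⟨sh, fun x hx => ?_, h⟩
  by_contra hn
  cases sh
  · rw [mkq_f] at hn h
    refine kill (B.X q + -1 * x) (B.X q) (by linarith [hx.2]) (by linarith) (by linarith) h4.le ?_
    filter_upwards [h, hX.eventually (eventually_gt_nhds
      (show B.X q + -1 * x < B.X q by linarith [hx.1]))] with i a1 a2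
    exact ⟨a2.le, by linarith⟩
  · rw [mkq_t] at hn h
    refine kill (B.X q) (B.X q + 1 * x) (by linarith) (by linarith [hx.2]) h4.ge (by linarith) ?_
    filter_upwards [h, hX.eventually (eventually_lt_nhds
      (show B.X q < B.X q + 1 * x by linarith [hx.1]))] with i a1 a2
    exact ⟨by linarith, a2.le⟩

/-- a point of the local unstable arc never left the exit set -/
theorem not_gap (ho : ∀ i, Orb F (o i)) {q : periodicPts F.f} {sh sv : Bool} {Q : Quad F}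
    (h : At.IsQ q sh sv Q) {t : ι → ℤ} (ht : ∀ᶠ i in U, 0 ≤ Q.X (o i (t i)) ∧
      Q.X (o i (t i)) ≤ 1 ∧ Q.Y (o i (t i)) = 0) (he : At.ExB U o t) : False := by
  obtain ⟨i, h1, k, h2⟩ := (ht.and (pass2_exB ho he q)).exists
  have h3 : o i (t i) ∈ Q.Gc 0 := by rw [Q.Gc_zero]; exact h1
  have h4 : F.g^[Q.M * k] (o i (t i)) ∈ Q.Gc 0 := by
    rcases h3 with e | ⟨s, hs, e⟩
    · rw [e, g_fix F Q.M_pos Q.f_p]; exact mem_insert _ _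
    · rw [← e, Q.γ_back]
      exact mem_insert_of_mem _ ⟨_, (sub_le_self s (Nat.cast_nonneg k)).trans hs, rfl⟩
  rw [Q.Gc_zero, h.M] at h4
  obtain ⟨a1, a2, a3⟩ := h4
  exact h2 ((h.Sc _).2 ⟨abs_le.2 ⟨by linarith, a2⟩, by rw [a3]; norm_num⟩)

theorem ip (ho : ∀ i, Orb F (o i)) (hL : 0 < L) {q : periodicPts F.f} {t : ι → ℤ}
    (hw : Lim U o t q) (hf : At.ExF U o t) (hb : At.ExB U o t) :
    ∃ P : Pass At U o L, P.q = q ∧ ∀ᶠ i in U, P.a i ≤ t i ∧ ∀ s, P.a i ≤ s → s ≤ t i →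
      (At.M q : ℤ) ∣ s - P.a i → o i s ∈ At.Sc q := by
  rcases hq : At.L q with T | B
  · refine (not_trap ho hq hw ?_ hf).elim
    rw [(pass2_trap hq).1, sub_self, map_zero]
    exact T.r_pos
  obtain ⟨hB, -, hx, hy, -⟩ := Atlas.mkq_ok hq
  obtain ⟨sh, hg, hs⟩ := side_gap ho hq hw rfl (by rw [hy]; norm_num) hf
  have hX : ∀ {sv Q}, B.IsQuad (B.X q) sh sv Q → ∀ᶠ i in U, 0 < Q.X (o i (t i)) :=
    fun h => hs.mono fun i hi => by rw [(h.2.2 _).1]; linarith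
  rcases pass2_sign U fun i => B.Y (o i (t i)) with h | ⟨sv, h⟩
  · obtain ⟨Q, hQ⟩ := B.exists_quad hB hx (pass2_box hq).2.2 hg true
    have h1 : Q.X q < 1 := by rw [(hQ.2.2 _).1, sub_self, mul_zero]; exact one_pos
    refine (not_gap ho ⟨B, hq, hQ⟩ ?_ hb).elim
    filter_upwards [h, hX hQ, ((Q.cX.tendsto q).comp hw).eventually (eventually_lt_nhds h1)]
      with i a1 a2 a3
    exact ⟨a2.le, le_of_lt a3, by rw [(hQ.2.2 _).2, a1, mul_zero]⟩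
  obtain ⟨Q, hQ⟩ := B.exists_quad hB hx (pass2_box hq).2.2 hg sv
  have hI : At.IsQ q sh sv Q := ⟨B, hq, hQ⟩
  have h1 : Q.X q = 0 := by rw [(hQ.2.2 _).1, sub_self, mul_zero]
  obtain ⟨a, y, a1, a2, a3, a4, a5, a6⟩ := pb ho hL hI hw h1.ge (h1.trans_lt one_pos)
    (by rw [(hQ.2.2 _).2, hy, mul_zero])
    ((hX hQ).and (h.mono fun i hi => by rw [(hQ.2.2 _).2]; exact hi))
  obtain ⟨P, p1, -, -, -, p2, -⟩ := pe ho hL hI a1 a2 a3 a4 a5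
  refine ⟨P, p1, ?_⟩
  rw [p2]
  filter_upwards [a6.1 0, a6.2.2.1] with i b1 b2
  refine ⟨by simpa using b1, fun s s1 s2 ⟨c, hc⟩ => ?_⟩
  have hM : (0 : ℤ) < At.M q := by exact_mod_cast At.M_pos q
  have h0 : 0 ≤ c := nonneg_of_mul_nonneg_right (by rw [← hc]; omega) hM
  obtain ⟨k, rfl⟩ := Int.eq_ofNat_of_zero_le h0
  have e : a i + k * Q.M = s := by rw [hI.M, mul_comm, ← hc]; omega
  have b3 := b2 k (e.trans_le s2)
  rw [e] at b3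
  exact (hI.Sc _).2 b3

theorem fs (ho : ∀ i, Orb F (o i)) (hL : 0 < L) (P : Pass At U o L) (hz : At.TF P.z)
    (he : ∀ n : ℕ, At.ExF U o fun i => P.b i + n) : ∃ P' : Pass At U o L, P.Nx P' := by
  have hΛ : P.z ∈ F.Λ := P.lz.mem ho
  obtain ⟨N, hN, hd, p, hp, ht⟩ := (hz.conv hΛ).mul (Nat.mul_pos hL P.Q.M_pos)
  obtain ⟨q, rfl⟩ : ∃ q : periodicPts F.f, (q : ℂ) = p := ⟨⟨p, N, hN, hp⟩, rfl⟩
  have ht' := conv_all_f F hN (At.M_pos q) hp (At.fix q) ht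
  rcases hq : At.L q with T | B
  · have h1 : T.N (q - T.q) < T.r := by
      rw [(pass2_trap hq).1, sub_self, map_zero]
      exact T.r_pos
    obtain ⟨k, hk⟩ := (((T.cont.tendsto q).comp ht).eventually (eventually_lt_nhds h1)).exists
    exact (not_trap ho hq (P.lz.add ho _) hk (he _)).elim
  obtain ⟨hB, -, hx, hy, -⟩ := Atlas.mkq_ok hq
  obtain ⟨hM, -, hφ⟩ := pass2_box hq
  rw [hM] at ht'
  have hx' : |B.X q| < 1 := hx.trans_lt (by norm_num)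
  have hy' : |B.Y q| < 1 / 2 := by rw [hy]; norm_num
  obtain ⟨K, hK⟩ := eventually_atTop.1
    ((((B.cX.abs.tendsto q).comp ht').eventually (eventually_lt_nhds hx')).and
      (((B.cY.abs.tendsto q).comp ht').eventually (eventually_lt_nhds hy')))
  obtain ⟨n, hn⟩ : ∃ n, n = K * N * B.M := ⟨_, rfl⟩
  have e : ∀ k, F.f^[B.M * k] (F.f^[n] P.z) = F.f^[(k + K * N) * B.M] P.z := fun k => by
    rw [← iterate_add_apply, hn, add_mul, mul_comm B.M]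
  have hK' : ∀ k, |B.X (F.f^[B.M * k] (F.f^[n] P.z))| < 1 ∧
      |B.Y (F.f^[B.M * k] (F.f^[n] P.z))| < 1 / 2 := fun k => by
    rw [e]
    exact hK _ ((Nat.le_mul_of_pos_right K hN).trans (Nat.le_add_left _ _))
  have hS : ∀ k, F.f^[B.M * k] (F.f^[n] P.z) ∈ B.S := fun k =>
    ⟨(hK' k).1.le, by linarith [(hK' k).2]⟩
  have hT : Tendsto (fun k => F.f^[B.M * k] (F.f^[n] P.z)) atTop (𝓝 q) :=
    (ht'.comp (tendsto_add_atTop_nat (K * N))).congr fun k => (e k).symm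
  have hl := P.lz.add ho n
  have h0 : |B.X (F.f^[n] P.z)| < 1 ∧ |B.Y (F.f^[n] P.z)| < 1 / 2 := hK' 0
  have hfix : B.φ (B.X (F.f^[n] P.z)) = B.X (F.f^[n] P.z) := by
    by_contra hne
    obtain ⟨p', -, a1, a2⟩ := hB.att hS h0.1 (by linarith [h0.2]) hne
    obtain rfl := tendsto_nhds_unique hT a1
    obtain ⟨n0, a3⟩ := a2 _ (At.Sc_nhds q)
    obtain ⟨i, a4, k, a5⟩ := ((hl.eventually a3).and
      (pass2_exF ho (he (n + B.M * n0)) q)).exists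
    refine a5 ?_
    rw [hM, Nat.cast_add, ← add_assoc, (ho i).add, ← iterate_add_apply, ← mul_add]
    exact a4 _ (Nat.le_add_left _ _)
  have hX : B.X (F.f^[n] P.z) = B.X q := by
    refine tendsto_nhds_unique tendsto_const_nhds (((B.cX.tendsto q).comp hT).congr fun k => ?_)
    rw [comp_apply, hB.fwd hS, B.X_iter, iterate_fixed hfix]
  have hY : B.Y (F.f^[n] P.z) ≠ 0 := fun h => P.z_not_per (per_of_iter F (F.Λ_sub_Disc hΛ) (n := n)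
    (by rw [B.ext_XY hX (h.trans hy.symm)]; exact q.2))
  obtain ⟨sv, hv⟩ : ∃ sv, 0 < sg sv * B.Y (F.f^[n] P.z) := by
    rcases hY.lt_or_gt with h | h
    · exact ⟨false, by rw [mkq_f]; linarith⟩
    · exact ⟨true, by rw [mkq_t]; linarith⟩
  obtain ⟨sh, hg, hs⟩ := side_gap ho hq hl hX h0.2 (he n)
  obtain ⟨Q, hQ⟩ := B.exists_quad hB hx hφ hg sv
  have b1 : Q.X (F.f^[n] P.z) = 0 := by rw [(hQ.2.2 _).1, hX, sub_self, mul_zero]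
  have b2 : 0 < Q.Y (F.f^[n] P.z) := by rw [(hQ.2.2 _).2]; exact hv
  have b3 : Q.Y (F.f^[n] P.z) < 1 / 2 := by
    rw [(hQ.2.2 _).2]
    exact (le_abs_self _).trans_lt ((mkq_abs _ _).trans_lt h0.2)
  have b4 : ∀ᶠ i in U, 0 < Q.X (o i (P.b i + n)) :=
    hs.mono fun i hi => by rw [(hQ.2.2 _).1]; linarith
  obtain ⟨P', -, -, -, p1, p2, p3⟩ := pe ho hL ⟨B, hq, hQ⟩ hl b1 b2 b3 b4
  refine ⟨P', n, ?_, Eventually.of_forall fun i => congrFun p2 i, ?_, p3⟩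
  · rw [p1, hQ.1, hn]
    exact Nat.mul_dvd_mul_right (hd.mul_left K) _
  · rw [p1]
    refine ⟨P.zX.1, P.zX.2, P.zY, b1, b2, b3, fun ε hε => ?_⟩
    obtain ⟨i, ⟨c1, c2⟩, c3⟩ :=
      (((P.lz.eventually (ball_mem_nhds _ hε)).and P.bY).and b4).exists
    exact ⟨_, c1, c2, by rwa [(ho i).add] at c3⟩

end Pool.Agent.Lib.MP_3fe454_an.S2
end
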