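import Pool.Agent.Lib.MP_3fe454_an.S2.Loc1
import Pool.Agent.Lib.MP_3fe454_an.S2.Pass2

/-!
The window lemma and forced visits.
-/

set_option autoImplicit false

open Set Metric Filter Topology Function

namespace Pool.Agent.Lib.MP_3fe454_an.S2

open PD

namespace Atlas

variable {F : Dis} {At : Atlas F} {S Y : Set ℂ} {V : ℤ → Set ℂ} {ι : Type} {U : Ultrafilter ι}
  {o : ι → ℤ → ℂ} {β : ℤ → ι → ℤ}

theorem adm3_mono {c : ℤ → ℂ} {A : Finset (periodicPts F.f)} {a b a' b' : ℤ} (h : At.Blk c A a b)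
    (ha : a' ≤ a) (hb : b ≤ b') : At.Blk c A a' b' := fun q hq j =>
  (h q hq j).imp fun _ k => ⟨ha.trans k.1, k.2.1.trans_le hb, k.2.2⟩

theorem adm3_snoc {c : ℤ → ℂ} {A : Finset (periodicPts F.f)} {m : ℕ} {a b e : ℤ}
    (h : At.Blks c A m a b) (hb : b ≤ e) (k : At.Blk c A b e) : At.Blks c A (m + 1) a e := by
  obtain ⟨τ, h1, h2, h3⟩ := h
  refine ⟨fun l => if l ≤ m then τ l else e, by simpa using h1, by simp, fun l hl => ?_⟩
  beta_reduce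
  rw [if_pos (Nat.le_of_lt_succ hl)]
  by_cases e1 : l < m
  · rw [if_pos (Nat.succ_le_of_lt e1)]
    exact h3 l e1
  · obtain rfl : l = m := by omega
    rw [if_neg (Nat.not_succ_le_self l)]
    exact ⟨h2.trans hb, adm3_mono k h2 le_rfl⟩

theorem adm3_cons {c : ℤ → ℂ} {A : Finset (periodicPts F.f)} {m : ℕ} {a b e : ℤ}
    (h : At.Blks c A m b e) (hb : a ≤ b) (k : At.Blk c A a b) : At.Blks c A (m + 1) a e := by
  obtain ⟨τ, h1, h2, h3⟩ := h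
  refine ⟨fun l => Nat.casesOn l a τ, le_rfl, h2, fun l hl => ?_⟩
  cases l with
  | zero => exact ⟨hb.trans h1, adm3_mono k le_rfl h1⟩
  | succ l => exact h3 l (by omega)

/-- finitely many residues suffice -/
theorem adm3_fin (A : Finset (periodicPts F.f)) : ∃ s : Finset (periodicPts F.f × ℤ),
    ∀ (c : ℤ → ℂ) (a b : ℤ), (∀ x ∈ s, ∃ t, a ≤ t ∧ t < b ∧ (At.M x.1 : ℤ) ∣ t - x.2 ∧
      c t ∉ At.Sc x.1) → At.Blk c A a b := by
  classical
  refine ⟨A.biUnion fun q => (Finset.Ico 0 (At.M q : ℤ)).image fun j => (q, j),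
    fun c a b h q hq j => ?_⟩
  have h0 : (0 : ℤ) < At.M q := by exact_mod_cast At.M_pos q
  obtain ⟨t, h1, h2, h3, h4⟩ := h (q, j % At.M q) (Finset.mem_biUnion.2 ⟨q, hq,
    Finset.mem_image.2 ⟨_, Finset.mem_Ico.2 ⟨Int.emod_nonneg j h0.ne', Int.emod_lt_of_pos j h0⟩,
      rfl⟩⟩)
  refine ⟨t, h1, h2, ?_, h4⟩
  have h5 := dvd_add h3 (Int.mod_modEq j (At.M q)).symm.dvd
  rwa [sub_add_sub_cancel] at h5

theorem adm3_exit {t : ι → ℤ} {w : ℂ} {q : periodicPts F.f} (h : Lim U o t w) (k : w ∉ At.Sc q) :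
    ∀ᶠ i in U, o i (t i) ∉ At.Sc q := h ((At.Sc_closed q).isOpen_compl.mem_nhds k)

/-- many blocks inside a window -/
theorem adm3_blks {Rg : (ι → ℤ) → Prop} (hw : Win At U o β Rg) (A : Finset (periodicPts F.f))
    (m : ℕ) : ∃ a b, Rg a ∧ Rg b ∧ ∀ᶠ i in U, a i ≤ b i ∧ At.Blks (o i) A m (a i) (b i) := by
  classical
  obtain ⟨⟨t0, h0⟩, -, -, hw⟩ := hw
  obtain ⟨s, hs⟩ := adm3_fin (At := At) A
  induction m with
  | zero =>
    exact ⟨t0, t0, h0, h0, Eventually.of_forall fun i =>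
      ⟨le_rfl, fun _ => t0 i, le_rfl, le_rfl, fun l hl => absurd hl l.not_lt_zero⟩⟩
  | succ m ih =>
    obtain ⟨a, b, ha, hb, ih⟩ := ih
    rcases hw with ⟨h1, h2⟩ | ⟨h1, h2⟩
    · have k : ∀ s : Finset (periodicPts F.f × ℤ), ∃ e, Rg e ∧ ∀ᶠ i in U, b i ≤ e i ∧
          ∀ x ∈ s, ∃ t, b i ≤ t ∧ t < e i ∧ (At.M x.1 : ℤ) ∣ t - x.2 ∧ o i t ∉ At.Sc x.1 := by
        intro s
        induction s using Finset.induction_on with
        | empty => exact ⟨b, hb, Eventually.of_forall fun i => ⟨le_rfl, by simp⟩⟩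
        | insert y s _ k =>
          obtain ⟨e, he, k⟩ := k
          obtain ⟨t, w, k1, k2, k3, k4⟩ := h2 y.1 y.2 e he
          refine ⟨_, h1 t k1, ?_⟩
          filter_upwards [k, k2, adm3_exit k3 k4] with i c1 c2 c3
          refine ⟨by omega, fun x hx => ?_⟩
          rcases Finset.mem_insert.1 hx with rfl | hx
          · exact ⟨t i, by omega, by omega, c2.2, c3⟩
          · exact (c1.2 x hx).imp fun _ c => ⟨c.1, by omega, c.2.2⟩
      obtain ⟨e, he, k⟩ := k s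
      refine ⟨a, e, ha, he, ?_⟩
      filter_upwards [ih, k] with i c1 c2
      exact ⟨c1.1.trans c2.1, adm3_snoc c1.2 c2.1 (hs _ _ _ c2.2)⟩
    · have k : ∀ s : Finset (periodicPts F.f × ℤ), ∃ e, Rg e ∧ ∀ᶠ i in U, e i ≤ a i ∧
          ∀ x ∈ s, ∃ t, e i ≤ t ∧ t < a i ∧ (At.M x.1 : ℤ) ∣ t - x.2 ∧ o i t ∉ At.Sc x.1 := by
        intro s
        induction s using Finset.induction_on with
        | empty => exact ⟨a, ha, Eventually.of_forall fun i => ⟨le_rfl, by simp⟩⟩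
        | insert y s _ k =>
          obtain ⟨e, he, k⟩ := k
          obtain ⟨t, w, k1, k2, k3, k4⟩ := h2 y.1 y.2 _ (h1 e he)
          refine ⟨t, k1, ?_⟩
          filter_upwards [k, k2, adm3_exit k3 k4] with i c1 c2 c3
          refine ⟨by omega, fun x hx => ?_⟩
          rcases Finset.mem_insert.1 hx with rfl | hx
          · exact ⟨t i, le_rfl, by omega, c2.2, c3⟩
          · exact (c1.2 x hx).imp fun _ c => ⟨by omega, c.2⟩
      obtain ⟨e, he, k⟩ := k s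
      refine ⟨e, b, he, hb, ?_⟩
      filter_upwards [ih, k] with i c1 c2
      exact ⟨c2.1.trans c1.1, adm3_cons c1.2 c2.1 (hs _ _ _ c2.2)⟩

theorem Fam.window (h : At.Fam S Y V U o β) {Rg : (ι → ℤ) → Prop} (hw : Win At U o β Rg)
    {V' : ℤ → Set ℂ} (hV : ∀ t, Rg t → ∀ᶠ i in U, o i (t i) ∉ V' (t i)) : At.Adm S Y V' := by
  intro O hO hY A m
  obtain ⟨a, b, ha, hb, k⟩ := adm3_blks hw A m
  obtain ⟨K1, k1⟩ := hw.2.1 a ha
  obtain ⟨K2, k2⟩ := hw.2.1 b hb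
  have k3 : ∀ᶠ i in U, ∀ t, a i ≤ t → t ≤ b i → o i t ∉ V' t := by
    by_contra hn
    have e : ∀ i, ∃ t, (¬ ∀ t, a i ≤ t → t ≤ b i → o i t ∉ V' t) →
        (a i ≤ t ∧ t ≤ b i) ∧ o i t ∈ V' t := fun i => by
      by_cases c : ∀ t, a i ≤ t → t ≤ b i → o i t ∉ V' t
      · exact ⟨0, fun c' => absurd c c'⟩
      · push Not at c
        exact c.imp fun t c _ => ⟨⟨c.1, c.2.1⟩, c.2.2⟩
    choose t ht using e
    have e1 := (Ultrafilter.eventually_not.2 hn).mono ht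
    obtain ⟨i, c1, c2⟩ := (e1.and (hV t (hw.2.2.1 a t b ha hb (e1.mono fun i c => c.1)))).exists
    exact c2 c1.2
  obtain ⟨i, ⟨c1, c2, c3, c4⟩, c5, c6, c7⟩ := ((k.and (k1.and (k2.and k3))).and
    ((h.range (K1 + K2) hO hY).and ((h.mono (K := -(K1 + K2 : ℕ)) (K' := -K1) (by omega)).and
      (h.mono (K := K2) (K' := (K1 + K2 : ℕ)) (by omega))))).exists
  exact ⟨o i, a i, b i, h.1 i, (c5 _ (by omega) (by omega)).2.2,
    fun t e1 e2 => ⟨(c5 t (by omega) (by omega)).1, c4 t e1 e2⟩, c1.2⟩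

theorem Fam.visit {q : periodicPts F.f} {𝒜 : Finset (Bool × Bool × ℕ)} {d : ℝ} (hd : 0 < d)
    (h : At.Fam S Y (At.Vq q 𝒜 d) U o β)
    (hmax : ∀ x : Bool × Bool × ℕ, x.2.2 < At.M q → x ∉ 𝒜 → ∀ d' > 0,
      ¬ At.Adm S Y (At.Vq q (insert x 𝒜) d')) {L : ℕ} (P : Pass At U o L) (hq : P.q = q)
    (hP : P.InR β) {Rg : (ι → ℤ) → Prop} (hw : Win At U o β Rg) {d' : ℝ} (hd' : 0 < d') :
    ∃ t, Rg t ∧ ∀ᶠ i in U, (At.M q : ℤ) ∣ t i - P.a i ∧ o i (t i) ∈ P.Q.T d' := by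
  subst hq
  by_contra hn
  obtain ⟨r, hr, k⟩ := ult_res U P.a (At.M_pos P.q)
  have hx : (P.sh, P.sv, r) ∉ 𝒜 := fun hx => by
    obtain ⟨K, k1⟩ := hP
    obtain ⟨i, ⟨c1, c2⟩, c3, c4, c5⟩ := ((k.and k1).and ((P.seg.1 0).and ((P.a_mem hd).and
      (h.range K isOpen_univ (subset_univ Y))))).exists
    exact (c5 (P.a i) c2.1 (by omega)).2.1 ⟨_, hx, c1, P.isq.Tq d ▸ c4⟩
  refine hmax _ hr hx (min d d') (lt_min hd hd') (h.window hw fun t ht => ?_)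
  obtain ⟨K, k1⟩ := hw.2.1 t ht
  filter_upwards [k, k1, h.range K isOpen_univ (subset_univ Y),
    Ultrafilter.eventually_not.2 fun e => hn ⟨t, ht, e⟩] with i c1 c2 c3 c4
  rintro ⟨x, hx', e1, e2⟩
  rcases Finset.mem_insert.1 hx' with rfl | hx'
  · refine c4 ⟨?_, P.Q.T_mono (min_le_right d d') (P.isq.Tq _ ▸ e2)⟩
    have := dvd_sub e1 c1
    rwa [sub_sub_sub_cancel_right] at this
  · obtain ⟨B, b1, b2, b3, b4⟩ := e2
    exact (c3 _ c2.1 c2.2).2.1 ⟨x, hx', e1, B, b1, b2, b3.trans_le (min_le_left d d'), b4⟩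

end Atlas

end Pool.Agent.Lib.MP_3fe454_an.S2
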