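import Pool.Agent.Lib.MP_3fe454_an.S2.Cnt2
import Pool.Agent.Lib.MP_3fe454_an.S2.HS5

-- part Pool.Agent.Lib.MP_3fe454_an.S2.BE1
section

/-!
Early times and visits of fixed points.
-/

set_option autoImplicit false

open Set Metric Filter Topology Function

namespace Pool.Agent.Lib.MP_3fe454_an.S2

open PD

theorem Split.le {T : ℂ → ℂ} {𝒮 : Set (Set ℂ)} {R R' : ℕ} {w : ℂ} {n n' : ℕ}
    (h : Split T 𝒮 R w n) (hR : R ≤ R') (hn : n' ≤ n) : Split T 𝒮 R' w n' := by
  obtain ⟨r, hr, τ, h0, h1, h2⟩ := h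
  refine ⟨r, hr.trans hR, fun l => min (τ l) n', by simp [h0], by simp [h1, hn], fun l hl => ?_⟩
  obtain ⟨a1, a2⟩ := h2 l hl
  refine ⟨min_le_min_right _ a1, a2.imp (fun a => ?_) ?_⟩
  · show min (τ (l + 1)) n' ≤ min (τ l) n' + 1
    omega
  · rintro ⟨S, hS, a⟩
    refine ⟨S, hS, fun t b1 b2 => a t ?_ ?_⟩
    · change min (τ l) n' ≤ t at b1
      change t < min (τ (l + 1)) n' at b2
      omega
    · exact b2.trans_le (min_le_left _ _)

theorem be1_snoc {T : ℂ → ℂ} {𝒮 : Set (Set ℂ)} {R : ℕ} {w : ℂ} {n n' : ℕ}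
    (h : Split T 𝒮 R w n) (hn : n ≤ n')
    (hs : n' ≤ n + 1 ∨ ∃ S ∈ 𝒮, ∀ t, n ≤ t → t < n' → T^[t] w ∈ S) :
    Split T 𝒮 (R + 1) w n' := by
  obtain ⟨r, hr, τ, h0, h1, h2⟩ := h
  refine ⟨r + 1, Nat.succ_le_succ hr, fun l => if l ≤ r then τ l else n', by simp [h0],
    by simp, fun l hl => ?_⟩
  rcases (Nat.le_of_lt_succ hl).eq_or_lt with e | e
  · subst e
    simp only [le_refl, if_true, Nat.not_succ_le_self, if_false, h1]
    exact ⟨hn, hs⟩
  · simp only [if_pos e.le, if_pos (Nat.succ_le_of_lt e)]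
    exact h2 l e

theorem Split.stay {T : ℂ → ℂ} {𝒮 : Set (Set ℂ)} {R : ℕ} {w : ℂ} {n n' : ℕ}
    (h : Split T 𝒮 R w n) {S : Set ℂ} (hS : S ∈ 𝒮) (hn : ∀ t, n ≤ t → t < n' → T^[t] w ∈ S) :
    Split T 𝒮 (R + 1) w n' := by
  rcases le_total n n' with e | e
  · exact be1_snoc h e (Or.inr ⟨S, hS, hn⟩)
  · exact h.le (Nat.le_succ R) e

theorem Split.add {T : ℂ → ℂ} {𝒮 : Set (Set ℂ)} {R : ℕ} {w : ℂ} {n : ℕ}
    (h : Split T 𝒮 R w n) (j : ℕ) : Split T 𝒮 (R + j) w (n + j) := by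
  induction j with
  | zero => exact h
  | succ j ih => exact be1_snoc ih (Nat.le_succ _) (Or.inl le_rfl)

namespace BD

variable {F : Dis} {At : Atlas F} {M0 : ℕ} (D : BD At M0)

theorem o_mem (R t : ℕ) : D.o R t ∈ Disc := (D.maps R).iterate t (D.mem R)

theorem lim_exists (t : ℕ → ℕ) : ∃ z ∈ Disc, D.Lim t z :=
  (isCompact_closedBall (0 : ℂ) 1).ultrafilter_le_nhds (D.U.map fun R => D.o R (t R))
    (le_principal_iff.2 (show ∀ᶠ R in (D.U : Filter ℕ), D.o R (t R) ∈ Disc from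
      Eventually.of_forall fun R => D.o_mem R (t R)))

theorem be1_step {D : BD At M0} {t : ℕ → ℕ} {z : ℂ} (h : D.Lim t z) :
    D.Lim (fun R => t R + 1) (F.f^[M0] z) := by
  have a1 : Tendsto (fun R => F.f^[M0] (D.o R (t R))) D.U (𝓝 (F.f^[M0] z)) :=
    ((F.cf.iterate M0).tendsto z).comp h
  have a2 : Tendsto (fun R => D.o R (t R + 1) - F.f^[M0] (D.o R (t R))) D.U (𝓝 0) := by
    refine squeeze_zero_norm (a := fun R : ℕ => 1 / ((R : ℝ) + 1)) (fun R => ?_)
      (tendsto_one_div_add_atTop_nhds_zero_nat.mono_left D.U_le)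
    have := (D.close R _ (D.o_mem R (t R)) _ (D.o_mem R (t R))).1
    rwa [show D.T R (D.o R (t R)) = D.o R (t R + 1) from
      (iterate_succ_apply' (D.T R) (t R) (D.w R)).symm] at this
  have a3 := a2.add a1
  rw [zero_add] at a3
  exact a3.congr fun R => sub_add_cancel _ _

theorem Lim.add {D : BD At M0} {t : ℕ → ℕ} {z : ℂ} (h : D.Lim t z) (k : ℕ) :
    D.Lim (fun R => t R + k) (F.f^[M0 * k] z) := by
  induction k with
  | zero => exact h
  | succ k ih =>
    have := be1_step ih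
    rwa [← iterate_add_apply, add_comm M0, ← Nat.mul_succ] at this

theorem early_zero : D.Early fun _ => 0 :=
  ⟨0, Eventually.of_forall fun _ =>
    ⟨0, Nat.zero_le _, fun _ => 0, rfl, rfl, fun _ hl => absurd hl (Nat.not_lt_zero _)⟩⟩

theorem Early.le {D : BD At M0} {t t' : ℕ → ℕ} (h : D.Early t)
    (ht : ∀ᶠ R in D.U, t' R ≤ t R + R) : D.Early t' := by
  obtain ⟨k, hk⟩ := h
  refine ⟨k + 1, ?_⟩
  filter_upwards [hk, ht] with R a1 a2
  exact (a1.add R).le (by rw [Nat.succ_mul]) a2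

theorem Early.stay {D : BD At M0} {t t' : ℕ → ℕ} (h : D.Early t) {S : Set ℂ} (hS : S ∈ At.Big)
    (ht : ∀ᶠ R in D.U, ∀ s, t R ≤ s → s < t' R → D.o R s ∈ S) : D.Early t' := by
  obtain ⟨k, hk⟩ := h
  refine ⟨k + 1, ?_⟩
  filter_upwards [hk, ht, D.U_le (eventually_ge_atTop 1)] with R a1 a2 a3
  refine (a1.stay hS a2).le ?_ le_rfl
  rw [Nat.succ_mul]
  exact Nat.add_le_add_left a3 _

theorem Early.exit {D : BD At M0} {t : ℕ → ℕ} (h : D.Early t) {S : Set ℂ} (hS : S ∈ At.Big) :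
    ∀ᶠ R in D.U, ∃ s, t R ≤ s ∧ D.o R s ∉ S := by
  obtain ⟨k, hk⟩ := h
  filter_upwards [hk, D.U_le (eventually_ge_atTop (k + 1))] with R a1 a2
  by_contra hc
  push Not at hc
  refine D.bad R ((a1.stay (n' := D.n R) hS fun s b _ => hc s b).le ?_ le_rfl)
  have a3 : k + 1 ≤ R := a2
  calc k * R + 1 ≤ k * R + R := by omega
    _ = (k + 1) * R := by ring
    _ ≤ R * R := Nat.mul_le_mul_right R a3
    _ = R ^ 2 := by ring

theorem Early.hit {D : BD At M0} (hp : HP F) (hM : 0 < M0) {t : ℕ → ℕ} (h : D.Early t) {z : ℂ}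
    (hz : D.Lim t z) : ∃ (q : periodicPts F.f) (t' : ℕ → ℕ), D.Early t' ∧ D.Lim t' q ∧
      MapClusterPt (q : ℂ) atTop fun k : ℕ => F.f^[M0 * k] z := by
  have hD : z ∈ Disc := isClosed_closedBall.mem_of_tendsto hz
    (Eventually.of_forall fun R => D.o_mem R (t R))
  have hu : ∀ k : ℕ, F.f^[M0 * k] z ∈ Disc := fun k => F.iter_mem_Disc hD _
  have hle : map (fun k : ℕ => F.f^[M0 * k] z) atTop ≤ 𝓟 Disc :=
    le_principal_iff.2 (show ∀ᶠ k in atTop, F.f^[M0 * k] z ∈ Disc from Eventually.of_forall hu)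
  have hs : {c | MapClusterPt c atTop fun k : ℕ => F.f^[M0 * k] z} ⊆ Disc := fun c hc =>
    isClosed_closedBall.closure_subset (mem_closure_iff_clusterPt.2 (ClusterPt.mono hc hle))
  obtain ⟨q, hq, hq'⟩ := hp.iter hM
    (X := {c | MapClusterPt c atTop fun k : ℕ => F.f^[M0 * k] z})
    ((isCompact_closedBall (0 : ℂ) 1).of_isClosed_subset isClosed_setOfPred_clusterPt hs)
    (((isCompact_closedBall (0 : ℂ) 1).exists_mapClusterPt hle).imp fun _ a => a.2) hs (by
      intro c hc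
      have a1 := MapClusterPt.continuousAt_comp (F.cf.iterate M0).continuousAt hc
      have a2 : ((F.f^[M0]) ∘ fun k : ℕ => F.f^[M0 * k] z) =
          (fun k : ℕ => F.f^[M0 * k] z) ∘ fun k => k + 1 := by
        funext k
        show F.f^[M0] (F.f^[M0 * k] z) = F.f^[M0 * (k + 1)] z
        rw [← iterate_add_apply, add_comm M0, ← Nat.mul_succ]
      rw [a2] at a1
      exact a1.of_comp (tendsto_add_atTop_nat 1))
  have hm : ∀ R : ℕ, ∃ l ∈ Finset.range (R + 1), ∀ l' ∈ Finset.range (R + 1),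
      dist (D.o R (t R + l)) q ≤ dist (D.o R (t R + l')) q := fun R =>
    (Finset.range (R + 1)).exists_min_image _ ⟨0, Finset.mem_range.2 (Nat.succ_pos R)⟩
  choose l hl hl' using hm
  refine ⟨⟨q, hq'⟩, fun R => t R + l R, h.le (Eventually.of_forall fun R =>
    Nat.add_le_add_left (Nat.le_of_lt_succ (Finset.mem_range.1 (hl R))) _), ?_, hq⟩
  refine Metric.tendsto_nhds.2 fun ε hε => ?_
  obtain ⟨k, hk⟩ := (mapClusterPt_iff_frequently.1 hq _ (ball_mem_nhds q hε)).exists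
  filter_upwards [hz.add k (isOpen_ball.mem_nhds hk), D.U_le (eventually_ge_atTop k)]
    with R a1 a2
  exact (hl' R k (Finset.mem_range.2 (Nat.lt_succ_of_le a2))).trans_lt a1

end BD

end Pool.Agent.Lib.MP_3fe454_an.S2
end

-- part Pool.Agent.Lib.MP_3fe454_an.S2.BE2
section

/-!
The stay in a box after a visit of a fixed point.
-/

set_option autoImplicit false

open Set Metric Filter Topology Function

namespace Pool.Agent.Lib.MP_3fe454_an.S2

open PD

theorem be2_close {F : Dis} {At : Atlas F} {M0 : ℕ} (D : BD At M0) {ε : ℝ} (hε : 0 < ε) :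
    ∀ᶠ R in D.U, LipClose ε (D.T R) F.f^[M0] := by
  have h : ∀ᶠ R : ℕ in atTop, 1 / ((R : ℝ) + 1) < ε :=
    tendsto_one_div_add_atTop_nhds_zero_nat.eventually (eventually_lt_nhds hε)
  filter_upwards [D.U_le h] with R hR w hw w' hw'
  obtain ⟨h1, h2⟩ := D.close R w hw w' hw'
  exact ⟨h1.trans hR.le, h2.trans (mul_le_mul_of_nonneg_right hR.le (norm_nonneg _))⟩

theorem be2_o {F : Dis} {At : Atlas F} {M0 : ℕ} (D : BD At M0) (R t i : ℕ) :
    (D.T R)^[i] (D.o R t) = D.o R (t + i) := by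
  unfold BD.o
  rw [← iterate_add_apply, add_comm]

theorem be2_sg (b : Bool) : sg b = 1 ∨ sg b = -1 := by
  cases b
  · right; rfl
  · left; rfl

theorem be2_ht {F : Dis} {At : Atlas F} {M0 : ℕ} (D : BD At M0) (B : Box F) (hB : B.Full)
    (hM : B.M = M0) {η : ℝ} (hη : 0 < η) :
    ∀ᶠ R in D.U, ∀ w ∈ B.S, |B.Y w| ≤ η → |B.Y (D.T R w)| ≤ η := by
  have hu : UniformContinuousOn B.Y Disc :=
    (isCompact_closedBall (0 : ℂ) 1).uniformContinuousOn_of_continuous B.cY.continuousOn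
  have hp : 0 < (1 - B.lam) * η := mul_pos (by linarith [B.lam_lt]) hη
  obtain ⟨δ, hδ, h⟩ := Metric.uniformContinuousOn_iff.1 hu _ hp
  filter_upwards [be2_close D (half_pos hδ)] with R hR w hw hy
  have hD : w ∈ Disc := ball_subset_closedBall (B.S_sub hw)
  have h1 := h (D.T R w) (D.maps R hD) (F.f^[M0] w) (F.iter_mem_Disc hD _) (by
    rw [dist_eq_norm]
    exact (hR w hD w hD).1.trans_lt (half_lt_self hδ))
  have h2 : F.f^[M0] w = B.Gt w := by rw [← hM]; exact hB w hw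
  rw [h2, Real.dist_eq] at h1
  have h3 := B.Y_Gt_abs w
  have h4 : B.lam * |B.Y w| ≤ B.lam * η := mul_le_mul_of_nonneg_left hy B.lam_pos.le
  have h5 := abs_sub_abs_le_abs_sub (B.Y (D.T R w)) (B.Y (B.Gt w))
  nlinarith

theorem BD.stay {F : Dis} {At : Atlas F} {M0 : ℕ} (D : BD At M0) (hA : At.Fin M0)
    {q : periodicPts F.f} {t : ℕ → ℕ} (ht : D.Early t) (hq : D.Lim t q) :
    ∃ B sh e, At.L q = Sum.inr B ∧ D.Stay q t B sh e := by
  classical
  have hok := At.ok q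
  have hM := hA.2 q
  have hfix : F.f^[M0] q = q := by rw [← hM]; exact At.fix q
  have hbig : (At.L q).S ∈ At.Big := ⟨q, rfl⟩
  have hex := ht.exit hbig
  unfold Atlas.M at hM
  rcases hL : At.L q with T0 | B
  · exfalso
    rw [hL] at hok hM hex
    obtain ⟨ε, hε, hr⟩ := T0.rob
    have hM' : T0.M = M0 := hM
    have hq' : T0.q = q := hok
    have hn : ∀ᶠ R in D.U, T0.N (D.o R (t R) - T0.q) < T0.r := by
      have := (T0.cont.tendsto (q : ℂ)).comp hq
      refine this.eventually (eventually_lt_nhds ?_)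
      rw [hq', sub_self, map_zero]
      exact T0.r_pos
    have : ∀ᶠ R in (D.U : Filter ℕ), False := by
      filter_upwards [hex, hn, be2_close D hε] with R ⟨s, hs, hs'⟩ h2 h3
      have hm := (hr (D.T R) (by rw [hM']; exact h3)).1
      obtain ⟨i, rfl⟩ := Nat.exists_eq_add_of_le hs
      apply hs'
      rw [← be2_o]
      exact hm.iterate i h2.le
    exact this.exists.elim fun _ h => h
  rw [hL] at hok hM hex hbig
  obtain ⟨hB, hC, hX, hY, hG⟩ := hok
  have hM' : B.M = M0 := hM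
  set K : Set ℂ := {w | |B.X w| ≤ 7 / 8 ∧ |B.Y w| ≤ 1 / 2} with hK
  have hKS : K ⊆ B.S := fun w hw => ⟨by linarith [hw.1], by linarith [hw.2]⟩
  have hKc : IsClosed K :=
    (isClosed_le B.cX.abs continuous_const).inter (isClosed_le B.cY.abs continuous_const)
  have hex' : ∀ᶠ R in D.U, ∃ s, t R ≤ s ∧ D.o R s ∉ K := by
    filter_upwards [hex] with R ⟨s, h1, h2⟩
    exact ⟨s, h1, fun h => h2 (hKS h)⟩
  set e : ℕ → ℕ := fun R => if h : ∃ s, t R ≤ s ∧ D.o R s ∉ K then Nat.find h else t R with he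
  have hE : ∀ᶠ R in D.U, t R ≤ e R ∧ D.o R (e R) ∉ K ∧ ∀ s, t R ≤ s → s < e R → D.o R s ∈ K := by
    filter_upwards [hex'] with R h
    have e1 : e R = Nat.find h := dif_pos h
    rw [e1]
    refine ⟨(Nat.find_spec h).1, (Nat.find_spec h).2, fun s h1 h2 => ?_⟩
    by_contra hc
    exact Nat.find_min h h2 ⟨h1, hc⟩
  -- heights
  have hH : ∀ η > 0, ∀ᶠ R in D.U, ∀ s, t R ≤ s → s ≤ e R → |B.Y (D.o R s)| ≤ η := by
    intro η hη
    have h0 : ∀ᶠ R in D.U, |B.Y (D.o R (t R))| < η := by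
      have := (B.cY.abs.tendsto (q : ℂ)).comp hq
      refine this.eventually (eventually_lt_nhds ?_)
      rw [hY, abs_zero]; exact hη
    filter_upwards [hE, h0, be2_ht D B hB hM' hη] with R h1 h2 h3 s hs hs'
    induction s, hs using Nat.le_induction with
    | base => exact h2.le
    | succ s hs ih =>
      have := h3 _ (hKS (h1.2.2 s hs (by omega))) (ih (by omega))
      rwa [show D.T R (D.o R s) = D.o R (s + 1) from be2_o D R s 1] at this
  have h3 : ∀ (s : ℕ → ℕ) u, (∀ᶠ R in D.U, t R ≤ s R ∧ s R ≤ e R) → D.Lim s u → B.Y u = 0 := by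
    intro s u hs hu
    have hl := (B.cY.abs.tendsto u).comp hu
    refine abs_eq_zero.1 (le_antisymm (le_of_forall_pos_le_add fun η hη => ?_) (abs_nonneg _))
    rw [zero_add]
    refine le_of_tendsto hl ?_
    filter_upwards [hs, hH η hη] with R a1 a2
    exact a2 _ a1.1 a1.2
  -- the side of the exit
  obtain ⟨sh, hsh⟩ : ∃ sh : Bool, ∀ᶠ R in D.U, 7 / 8 < sg sh * B.X (D.o R (e R)) := by
    have h1 : ∀ᶠ R in D.U, 7 / 8 < sg true * B.X (D.o R (e R)) ∨
        7 / 8 < sg false * B.X (D.o R (e R)) := by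
      filter_upwards [hE, hH (1 / 2) (by norm_num)] with R a1 a2
      have b1 := a2 _ a1.1 le_rfl
      have b2 : 7 / 8 < |B.X (D.o R (e R))| := by
        by_contra hc
        exact a1.2.1 ⟨not_lt.1 hc, b1⟩
      have s1 : sg true = 1 := rfl
      have s2 : sg false = -1 := rfl
      rw [s1, s2]
      rcases lt_abs.1 b2 with h | h
      · left; linarith
      · right; linarith
    rcases Ultrafilter.eventually_or.1 h1 with h | h
    · exact ⟨true, h⟩
    · exact ⟨false, h⟩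
  have hlim : ∀ (s : ℕ → ℕ) u, D.Lim s u →
      Tendsto (fun R => sg sh * B.X (D.o R (s R))) D.U (𝓝 (sg sh * B.X u)) := fun s u hu =>
    ((B.cX.tendsto u).comp hu).const_mul _
  have hend : ∀ u, D.Lim e u → 7 / 8 ≤ sg sh * B.X u := fun u hu =>
    ge_of_tendsto (hlim e u hu) (hsh.mono fun R h => h.le)
  -- almost monotone levels
  obtain ⟨ε, hε, l, hl0, hl1, hcone⟩ := B.cone_rob hC
  obtain ⟨σ, hσ⟩ : ∃ σ : Bool, ∀ᶠ R in D.U, ∀ s s', t R ≤ s → s ≤ s' → s' ≤ e R →
      -(‖B.A (D.o R (t R + 1) - D.o R (t R))‖ / (1 - l)) ≤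
        sg σ * (B.A (D.o R s' - D.o R s)).1 := by
    have h1 : ∀ᶠ R in D.U, ∃ σ : Bool, ∀ s s', t R ≤ s → s ≤ s' → s' ≤ e R →
        -(‖B.A (D.o R (t R + 1) - D.o R (t R))‖ / (1 - l)) ≤
          sg σ * (B.A (D.o R s' - D.o R s)).1 := by
      filter_upwards [hE, be2_close D hε] with R a1 a2
      obtain ⟨σ, hσ⟩ := B.am hl0 hl1 (hcone (D.T R) (by rw [hM']; exact a2)) (D.o R (t R))
        (e R - t R) (fun s hs => by
          rw [be2_o]
          exact hKS (a1.2.2 _ (by omega) (by omega)))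
      refine ⟨σ, fun s s' b1 b2 b3 => ?_⟩
      have := hσ (s - t R) (s' - t R) (by omega) (by omega)
      rw [be2_o, be2_o, show D.T R (D.o R (t R)) = D.o R (t R + 1) from be2_o D R _ 1,
        show t R + (s - t R) = s by omega, show t R + (s' - t R) = s' by omega] at this
      exact this
    have h2 := h1.mono fun R h => Bool.exists_bool.1 h
    rcases Ultrafilter.eventually_or.1 h2 with h | h
    · exact ⟨false, h⟩
    · exact ⟨true, h⟩
  have h4σ : ∀ (s s' : ℕ → ℕ) u u', (∀ᶠ R in D.U, t R ≤ s R ∧ s R ≤ s' R ∧ s' R ≤ e R) →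
      D.Lim s u → D.Lim s' u' → 0 ≤ sg σ * (B.X u' - B.X u) := by
    intro s s' u u' hs hu hu'
    obtain ⟨s0, l0, e0, -, -, -, -, -, hc2⟩ := hC
    have y1 := h3 s u (hs.mono fun R h => ⟨h.1, h.2.1.trans h.2.2⟩) hu
    have y2 := h3 s' u' (hs.mono fun R h => ⟨h.1.trans h.2.1, h.2.2⟩) hu'
    rw [hc2 u' u y2 y1]
    have l1 : Tendsto (fun R => D.o R (t R + 1)) D.U (𝓝 (q : ℂ)) := by
      have := be1_step hq
      rwa [hfix] at this
    have l2 : Tendsto (fun R => -(‖B.A (D.o R (t R + 1) - D.o R (t R))‖ / (1 - l))) D.U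
        (𝓝 (-(‖B.A ((q : ℂ) - q)‖ / (1 - l)))) :=
      ((((B.A.continuous.tendsto _).comp (l1.sub hq)).norm).div_const _).neg
    rw [sub_self, map_zero, norm_zero, zero_div, neg_zero] at l2
    have l3 : Tendsto (fun R => sg σ * (B.A (D.o R (s' R) - D.o R (s R))).1) D.U
        (𝓝 (sg σ * (B.A (u' - u)).1)) :=
      (((continuous_fst.comp B.A.continuous).tendsto _).comp (Tendsto.sub hu' hu)).const_mul _
    refine le_of_tendsto_of_tendsto l2 l3 ?_
    filter_upwards [hs, hσ] with R a1 a2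
    exact a2 _ _ a1.1 a1.2.1 a1.2.2
  have hσsh : sg σ = sg sh := by
    obtain ⟨u, -, hu⟩ := D.lim_exists e
    have a1 := h4σ t e q u (hE.mono fun R h => ⟨le_rfl, h.1, le_rfl⟩) hq hu
    have a2 := hend u hu
    have a3 := abs_le.1 hX
    rcases be2_sg σ with b | b <;> rcases be2_sg sh with b' | b' <;> rw [b] at a1 <;>
      rw [b'] at a2 <;> rw [b, b'] <;> linarith [a3.1, a3.2]
  have h6 : ∀ x, 0 < sg sh * (x - B.X q) → sg sh * x ≤ 7 / 8 → ∃ (s : ℕ → ℕ) (u : ℂ),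
      (∀ᶠ R in D.U, t R ≤ s R ∧ s R ≤ e R) ∧ D.Lim s u ∧ 0 ≤ sg sh * (x - B.X u) ∧
        0 ≤ sg sh * (B.φ (B.X u) - x) := by
    intro x hx hx'
    have h0 : ∀ᶠ R in D.U, sg sh * B.X (D.o R (t R)) < sg sh * x := by
      exact (hlim t q hq).eventually (eventually_lt_nhds (by linarith))
    have hs : ∀ᶠ R in D.U, ∃ s, t R ≤ s ∧ s < e R ∧ sg sh * B.X (D.o R s) ≤ sg sh * x ∧
        sg sh * x ≤ sg sh * B.X (D.o R (s + 1)) := by
      filter_upwards [hE, hsh, h0] with R a1 a2 a3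
      have hP : ∃ s, t R ≤ s ∧ sg sh * x < sg sh * B.X (D.o R s) := ⟨e R, a1.1, by linarith⟩
      have b1 := Nat.find_spec hP
      have b2 : Nat.find hP ≤ e R := Nat.find_min' hP ⟨a1.1, by linarith⟩
      have b3 : t R < Nat.find hP := by
        refine lt_of_le_of_ne b1.1 fun h => ?_
        rw [← h] at b1
        linarith [b1.2]
      obtain ⟨s, hs⟩ : ∃ s, Nat.find hP = s + 1 := ⟨Nat.find hP - 1, by omega⟩
      refine ⟨s, by omega, by omega, ?_, ?_⟩
      · by_contra hc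
        exact Nat.find_min hP (show s < Nat.find hP by omega) ⟨by omega, not_le.1 hc⟩
      · rw [← hs]; exact b1.2.le
    obtain ⟨s, hs⟩ := hs.choice
    obtain ⟨u, -, hu⟩ := D.lim_exists s
    have huK : u ∈ K := hKc.mem_of_tendsto hu (by
      filter_upwards [hs, hE] with R a1 a2
      exact a2.2.2 _ a1.1 a1.2.1)
    have hu1 := be1_step hu
    have hGu : F.f^[M0] u = B.Gt u := by rw [← hM']; exact hB u (hKS huK)
    refine ⟨s, u, hs.mono fun R h => ⟨h.1, h.2.1.le⟩, hu, ?_, ?_⟩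
    · have := le_of_tendsto (hlim s u hu) (hs.mono fun R h => h.2.2.1)
      linarith
    · have := ge_of_tendsto (hlim _ _ hu1) (hs.mono fun R h => h.2.2.2)
      rw [hGu, B.X_Gt] at this
      linarith
  refine ⟨B, sh, e, rfl, hE.mono fun R h => h.1, fun s hs => ?_, h3, ?_, ?_, h6, ?_⟩
  · have he' : D.Early e := ht.stay hbig (hE.mono fun R h s a b => hKS (h.2.2 s a b))
    exact he'.le (hs.mono fun R h => h.trans (Nat.le_add_right _ _))
  · rw [← hσsh]; exact h4σ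
  · intro x hx hx'
    rcases hx.eq_or_lt with h | h
    · have hxq : x = B.X q := by
        rcases be2_sg sh with b | b <;> rw [b] at h <;> linarith
      have : B.φ x = x := by rw [hxq, ← B.X_Gt, hG]
      rw [this, sub_self, mul_zero]
    · obtain ⟨s, u, -, -, a1, a2⟩ := h6 x h hx'
      rcases be2_sg sh with b | b <;> rw [b] at a1 a2 ⊢
      · have := B.φ.monotone (show B.X u ≤ x by linarith)
        linarith
      · have := B.φ.monotone (show x ≤ B.X u by linarith)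
        linarith
  · intro t' s' h1 h2
    by_contra hc
    have hc' := Ultrafilter.eventually_not.2 hc
    obtain ⟨u, -, hu⟩ := D.lim_exists e
    have a1 := (h2 e u (by
      filter_upwards [h1, hc'] with R b1 b2
      exact ⟨b1.2.1, (not_le.1 b2).le⟩) hu).1
    have a2 := hend u hu
    have a3 := abs_lt.1 a1
    rcases be2_sg sh with b | b <;> rw [b] at a2 <;> linarith [a3.1, a3.2]

end Pool.Agent.Lib.MP_3fe454_an.S2
end
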