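import Pool.Agent.Lib.MP_3fe454_an.S2.HS5

-- part Pool.Agent.Lib.MP_3fe454_an.S2.CL1
section

/-!
Branches and directed arcs.
-/

set_option autoImplicit false

open Set Metric Filter Topology Function

namespace Pool.Agent.Lib.MP_3fe454_an.S2

open PD

variable {F : Dis}

theorem Quad.gam_in_conn (Q : Quad F) (h : ¬ Q.SA) {K : Set ℂ} (hK : IsCompact K)
    (hK' : IsPreconnected K) (hΛ : K ⊆ F.Λ) (hp : Q.p ∈ K) (ho : (K ∩ Q.om).Nonempty) :
    Q.Gam ⊆ K := by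
  rintro _ ⟨s, rfl⟩
  obtain ⟨z, hz, hz'⟩ := ho
  have h1 : ∀ x ∈ Q.om, x ∈ closure (Q.γ '' Ici s) := fun x hx => mem_iInter.1 hx s
  obtain ⟨x, hx, k1, k2⟩ := isPreconnected_closed_iff.1
    (unic F hK hK' hΛ Q.clos_compact Q.clos_conn Q.clos_Λ) (Q.Gc s) (closure (Q.γ '' Ici s))
    (Q.Gc_compact s).isClosed isClosed_closure
    (by
      rintro x ⟨-, hx⟩
      rw [Q.clos_eq] at hx
      rcases hx with rfl | ⟨t, rfl⟩ | hx
      · exact Or.inl (mem_insert _ _)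
      · rcases le_total t s with k | k
        · exact Or.inl (mem_insert_of_mem _ ⟨t, k, rfl⟩)
        · exact Or.inr (subset_closure ⟨t, k, rfl⟩)
      · exact Or.inr (h1 x hx))
    ⟨Q.p, ⟨hp, Q.clos_eq ▸ mem_insert _ _⟩, mem_insert _ _⟩
    ⟨z, ⟨hz, Q.clos_eq ▸ mem_insert_of_mem _ (Or.inr hz')⟩, h1 z hz'⟩
  rw [Q.tail_closure] at k2
  rcases k1 with rfl | ⟨t, ht, rfl⟩
  · rcases k2 with ⟨t, -, e⟩ | k2
    · exact absurd (e ▸ Q.p_per) (Q.γ_not_per t)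
    · exact absurd (Q.SA_of_p k2) h
  · rcases k2 with ⟨t', ht', e⟩ | k2
    · obtain rfl : t = s := le_antisymm ht (Q.γ_inj e ▸ ht' : t ∈ Ici s)
      exact hx.1
    · exact absurd ⟨_, ⟨t, rfl⟩, k2⟩ h

namespace ArcE

variable {M : ℕ} {c c' : ℂ} {E : Set ℂ}

theorem basic (h : ArcE F M c c' E) : IsCompact E ∧ IsPreconnected E ∧ E ⊆ F.Λ ∧ c ∈ E ∧ c' ∈ E ∧
    c ≠ c' ∧ F.f^[M] c = c ∧ F.f^[M] c' = c' := by
  obtain ⟨e, h1, h2, rfl, rfl, rfl, h3, h4⟩ := h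
  have m0 : (0 : ℝ) ∈ Icc (0 : ℝ) 1 := left_mem_Icc.2 zero_le_one
  have m1 : (1 : ℝ) ∈ Icc (0 : ℝ) 1 := right_mem_Icc.2 zero_le_one
  obtain ⟨t, ht, k⟩ := (h4 0 m0).2
  obtain ⟨t', ht', k'⟩ := (h4 1 m1).1
  rw [le_antisymm ht.2 ht.1] at k
  rw [le_antisymm ht'.2 ht'.1] at k'
  exact ⟨isCompact_Icc.image_of_continuousOn h1, isPreconnected_Icc.image e h1, h3,
    ⟨0, m0, rfl⟩, ⟨1, m1, rfl⟩, fun k => zero_ne_one (h2 m0 m1 k), k, k'⟩

/-- a branch that meets a directed arc runs along it between two parameters -/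
theorem cl1_run {Q : Quad F} (h : ArcE F Q.M c c' E) (hm : (Q.Gam ∩ E).Nonempty) :
    ∃ z ∈ E, z ≠ c ∧ Q.om ⊆ {z} ∧ Q.p ≠ c' := by
  obtain ⟨b1, b2, -⟩ := h.basic
  obtain ⟨e, h1, h2, rfl, rfl, rfl, h3, h4⟩ := h
  have hs : Q.Gam ⊆ e '' Icc 0 1 := by
    refine Q.Gam_sub b1 b2 h3 ?_ ?_ (inter_comm _ _ ▸ hm)
    · rintro _ ⟨t, ht, rfl⟩
      obtain ⟨t', ht', k⟩ := (h4 t ht).1
      exact ⟨t', ⟨ht.1.trans ht'.1, ht'.2⟩, k.symm⟩
    · rintro _ ⟨t, ht, rfl⟩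
      obtain ⟨t', ht', k⟩ := (h4 t ht).2
      have m : t' ∈ Icc (0 : ℝ) 1 := ⟨ht'.1, ht'.2.trans ht.2⟩
      exact ⟨t', m, by rw [← k, F.iter_g_f (F.Λ_sub_Disc (h3 ⟨t', m, rfl⟩))]⟩
  choose τ m k using fun s => hs ⟨s, rfl⟩
  have hc : Continuous τ := by
    have he : IsInducing ((Icc (0 : ℝ) 1).domRestrict e) :=
      (h1.domRestrict.isClosedEmbedding h2.injective).isInducing
    have h5 : Continuous fun s => (⟨τ s, m s⟩ : Icc (0 : ℝ) 1) :=
      he.continuous_iff.2 (Q.γ_cont.congr fun s => (k s).symm)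
    exact continuous_subtype_val.comp h5
  have hτ : StrictMono τ := by
    refine (hc.strictMono_of_inj fun s s' e' => Q.γ_inj (by rw [← k, ← k, e'])).resolve_right
      fun ha => ?_
    obtain ⟨t', ht', k'⟩ := (h4 _ (m 0)).1
    rw [k, Q.gam_f, ← k] at k'
    have := h2 (m _) ⟨(m 0).1.trans ht'.1, ht'.2⟩ k'
    exact (ha (lt_add_one 0)).not_ge (this ▸ ht'.1)
  have lim : ∀ {l : Filter ℝ} [l.NeBot] {a : ℝ}, Tendsto τ l (𝓝 a) →
      a ∈ Icc (0 : ℝ) 1 ∧ Tendsto Q.γ l (𝓝 (e a)) := fun {l} _ {a} ha => by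
    have m' := isClosed_Icc.mem_of_tendsto ha (Eventually.of_forall m)
    exact ⟨m', ((h1 a m').tendsto.comp
      (tendsto_nhdsWithin_iff.2 ⟨ha, Eventually.of_forall m⟩)).congr k⟩
  have u1 : BddAbove (range τ) := ⟨1, by rintro _ ⟨s, rfl⟩; exact (m s).2⟩
  have u2 : BddBelow (range τ) := ⟨0, by rintro _ ⟨s, rfl⟩; exact (m s).1⟩
  obtain ⟨a1, a2⟩ := lim (tendsto_atTop_ciSup hτ.monotone u1)
  obtain ⟨a3, a4⟩ := lim (tendsto_atBot_ciInf hτ.monotone u2)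
  refine ⟨_, ⟨_, a1, rfl⟩, fun k' => ?_, fun x hx => by_contra fun hne => ?_, fun k' => ?_⟩
  · exact ((m 0).1.trans_lt ((hτ zero_lt_one).trans_le (le_ciSup u1 1))).ne'
      (h2 a1 (left_mem_Icc.2 zero_le_one) k')
  · obtain ⟨C, c1, c2, c3⟩ := exists_mem_nhds_isClosed_subset
      (isOpen_compl_singleton.mem_nhds (Ne.symm hne))
    obtain ⟨s, hs'⟩ := eventually_atTop.1 (a2 c1)
    exact c3 (closure_minimal (image_subset_iff.2 hs') c2 (mem_iInter.1 hx s)) rfl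
  · exact (((ciInf_le u2 0).trans_lt (hτ zero_lt_one)).trans_le (m 1).2).ne
      (h2 a3 (right_mem_Icc.2 zero_le_one) ((tendsto_nhds_unique a4 Q.γ_lim).trans k'))

theorem tame {Q : Quad F} (h : ArcE F Q.M c c' E) (hm : (Q.Gam ∩ E).Nonempty) :
    Q.om.Subsingleton := by
  obtain ⟨z, -, -, k, -⟩ := h.cl1_run hm
  exact subsingleton_singleton.anti k

theorem off_start {Q : Quad F} (h : ArcE F Q.M c c' E) (hc : Q.om = {c}) : Disjoint Q.Gam E := by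
  refine disjoint_iff_inter_eq_empty.2 (not_nonempty_iff_eq_empty.1 fun hm => ?_)
  obtain ⟨z, -, k1, k2, -⟩ := h.cl1_run hm
  exact k1 (k2 (hc ▸ mem_singleton c)).symm

theorem off_end {Q : Quad F} (h : ArcE F Q.M c Q.p E) :
    Disjoint Q.Gam E := by
  refine disjoint_iff_inter_eq_empty.2 (not_nonempty_iff_eq_empty.1 fun hm => ?_)
  obtain ⟨z, -, -, -, k⟩ := h.cl1_run hm
  exact k rfl

end ArcE

end Pool.Agent.Lib.MP_3fe454_an.S2
end

-- part Pool.Agent.Lib.MP_3fe454_an.S2.CL2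
section

/-!
A closed chain of branches and arcs contains a self accumulating branch.
-/

set_option autoImplicit false

open Set Metric Filter Topology Function

namespace Pool.Agent.Lib.MP_3fe454_an.S2

open PD

variable {F : Dis}

/-- the continuum of an element -/
def cl2E : Quad F ⊕ Set ℂ → Set ℂ
  | Sum.inl Q => closure Q.Gam
  | Sum.inr E => E

theorem cl2_fin {K T : Set ℂ} {c : ℂ} (hK : IsPreconnected K) (hc : c ∈ K) (hT : T.Finite)
    (h : K ⊆ T) : K = {c} := by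
  have h1 : K.Subsingleton := by
    by_contra h1
    exact hK.infinite_of_nontrivial (not_subsingleton_iff.1 h1) (hT.subset h)
  exact h1.eq_singleton_of_mem hc

theorem cl2_ne {k i j : ℕ} (h1 : 0 < j) (h2 : j < k) : ¬ i ≡ i + j [MOD k] := fun h => by
  have h3 : k ∣ i + j - i := (Nat.modEq_iff_dvd' (Nat.le_add_right i j)).1 h
  rw [Nat.add_sub_cancel_left] at h3
  exact absurd (Nat.le_of_dvd h1 h3) (not_le.2 h2)

theorem cl {k M : ℕ} (hk : 0 < k) (El : ℕ → Quad F ⊕ Set ℂ) (c : ℕ → ℂ)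
    (hE : ∀ i, El (i + k) = El i) (hc : ∀ i, c (i + k) = c i)
    (hb : ∀ i Q, El i = Sum.inl Q → Q.M = M ∧ Q.p = c i ∧ c (i + 1) ∈ Q.om)
    (ha : ∀ i E, El i = Sum.inr E → ArcE F M (c i) (c (i + 1)) E)
    (hd : ∀ i j Q Q', ¬ i ≡ j [MOD k] → El i = Sum.inl Q → El j = Sum.inl Q' →
      Disjoint Q.Gam Q'.Gam)
    (hj : ∀ i E E', El i = Sum.inr E → El (i + 1) = Sum.inr E' → E ∩ E' ⊆ {c (i + 1)}) :
    ∃ i Q, El i = Sum.inl Q ∧ Q.SA := by
  by_contra hn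
  have hS : ∀ i Q, El i = Sum.inl Q → ¬ Q.SA := fun i Q h h' => hn ⟨i, Q, h, h'⟩
  have b : ∀ i, IsCompact (cl2E (El i)) ∧ IsPreconnected (cl2E (El i)) ∧ cl2E (El i) ⊆ F.Λ ∧
      c i ∈ cl2E (El i) ∧ c (i + 1) ∈ cl2E (El i) ∧ c i ≠ c (i + 1) := by
    intro i
    rcases h : El i with Q | E
    · obtain ⟨-, h2, h3⟩ := hb i Q h
      refine ⟨Q.clos_compact, Q.clos_conn, Q.clos_Λ, ?_, ?_, fun e => ?_⟩
      · show c i ∈ closure Q.Gam
        rw [Q.clos_eq, ← h2]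
        exact mem_insert _ _
      · show c (i + 1) ∈ closure Q.Gam
        rw [Q.clos_eq]
        exact Or.inr (Or.inr h3)
      · exact hS i Q h (Q.SA_of_p (by rw [h2, e]; exact h3))
    · obtain ⟨h1, h2, h3, h4, h5, h6, -⟩ := (ha i E h).basic
      exact ⟨h1, h2, h3, h4, h5, h6⟩
  have hk2 : 1 < k := by
    by_contra h
    obtain rfl : k = 1 := by omega
    exact (b 0).2.2.2.2.2 (hc 0).symm
  -- a wild branch lies in the limit set of a wild branch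
  have hw : ∀ i Q, El i = Sum.inl Q → ¬ Q.om.Subsingleton →
      ∃ j Q', El j = Sum.inl Q' ∧ Q.Gam ⊆ Q'.om := by
    intro i Q h hQ
    obtain ⟨h1, h2, h3⟩ := hb i Q h
    have hsub : Q.Gam ⊆ ⋃ j ∈ Ioo 0 k, cl2E (El (i + j)) := by
      refine Q.gam_in_conn (hS i Q h) ((finite_Ioo 0 k).isCompact_biUnion fun j _ => (b _).1)
        (IsPreconnected.biUnion_of_chain ordConnected_Ioo (fun j _ => (b _).2.1) fun j _ _ =>
          ⟨c (i + j + 1), (b _).2.2.2.2.1, (b (i + j + 1)).2.2.2.1⟩)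
        (iUnion₂_subset fun j _ => (b _).2.2.1) ?_ ⟨c (i + 1), ?_, h3⟩
      · refine mem_iUnion₂.2 ⟨k - 1, ⟨by omega, by omega⟩, ?_⟩
        have h4 := (b (i + (k - 1))).2.2.2.2.1
        rwa [show i + (k - 1) + 1 = i + k by omega, hc, ← h2] at h4
      · exact mem_iUnion₂.2 ⟨1, ⟨one_pos, hk2⟩, (b _).2.2.2.1⟩
    obtain ⟨j, hj', hm⟩ := mem_iUnion₂.1 (hsub ⟨0, rfl⟩)
    rcases h' : El (i + j) with Q' | E
    · refine ⟨i + j, Q', h', ?_⟩
      rw [h'] at hm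
      have hm' : Q.γ 0 ∈ closure Q'.Gam := hm
      rw [Q'.clos_eq] at hm'
      have e : Q.M = Q'.M := h1.trans (hb _ Q' h').1.symm
      rcases hm' with k1 | k1 | k1
      · exact absurd (k1 ▸ Q'.p_per) (Q.γ_not_per 0)
      · exact absurd k1 (disjoint_left.1 (hd i (i + j) Q Q' (cl2_ne hj'.1 hj'.2) h h') ⟨0, rfl⟩)
      · exact Q.Gam_sub Q'.om_compact Q'.om_conn Q'.om_Λ (e ▸ Q'.om_fwd) (e ▸ Q'.om_back)
          ⟨_, k1, 0, rfl⟩
    · rw [h'] at hm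
      have hA := ha _ E h'
      rw [← h1] at hA
      exact absurd (hA.tame ⟨_, ⟨0, rfl⟩, hm⟩) hQ
  -- all branches are tame
  have ht : ∀ i Q, El i = Sum.inl Q → Q.om = {c (i + 1)} := by
    have hfin : {Q : Quad F | (∃ i, El i = Sum.inl Q) ∧ ¬ Q.om.Subsingleton}.Finite := by
      refine (((finite_Iio k).image El).preimage Sum.inl_injective.injOn).subset ?_
      rintro Q ⟨⟨i, h⟩, -⟩
      exact ⟨i % k, Nat.mod_lt i hk, (Function.Periodic.map_mod_nat hE i).trans h⟩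
    intro i Q h
    refine Set.Subsingleton.eq_singleton_of_mem ?_ (hb i Q h).2.2
    by_contra hQ
    obtain ⟨Q0, ⟨⟨i0, h0⟩, h1⟩, hmax⟩ := hfin.exists_maximalFor Quad.om _ ⟨Q, ⟨i, h⟩, hQ⟩
    obtain ⟨j, Q', h2, h3⟩ := hw i0 Q0 h0 h1
    have h4 : Q0.om ⊆ Q'.om := by
      refine Subset.trans ?_ (closure_minimal h3 Q'.om_compact.isClosed)
      rw [Q0.clos_eq]
      exact fun w hw => Or.inr (Or.inr hw)
    have h5 : Q'.om ⊆ Q0.om := hmax ⟨⟨j, h2⟩, fun k => h1 (k.anti h4)⟩ h4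
    exact hS i0 Q0 h0 ⟨Q0.γ 0, ⟨0, rfl⟩, h5 (h3 ⟨0, rfl⟩)⟩
  refine cyc_false F hk (fun i => cl2E (El i)) c (fun i => by rw [hE]) (fun i => (b i).1)
    (fun i => (b i).2.1) (fun i => (b i).2.2.1) (fun i => (b i).2.2.2) fun i => ?_
  refine cl2_fin (T := {c i, c (i + 1), c (i + 1 + 1)})
    (unic F (b i).1 (b i).2.1 (b i).2.2.1 (b _).1 (b _).2.1 (b _).2.2.1)
    ⟨(b i).2.2.2.2.1, (b _).2.2.2.1⟩ (toFinite _) ?_
  rintro w ⟨w1, w2⟩
  rcases h : El i with Q | E <;> rcases h' : El (i + 1) with Q' | E' <;>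
    simp only [h, h', cl2E] at w1 w2
  · rw [Q.clos_eq, ht i Q h, (hb i Q h).2.1] at w1
    rw [Q'.clos_eq, ht _ Q' h', (hb _ Q' h').2.1] at w2
    rcases w1 with k1 | k1 | k1
    · exact Or.inl k1
    · rcases w2 with k2 | k2 | k2
      · exact Or.inr (Or.inl k2)
      · exact absurd k2 (disjoint_left.1 (hd i (i + 1) Q Q' (cl2_ne one_pos hk2) h h') k1)
      · exact Or.inr (Or.inr k2)
    · exact Or.inr (Or.inl k1)
  · have hA := ha _ E' h'
    rw [← (hb i Q h).1] at hA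
    rw [Q.clos_eq, ht i Q h, (hb i Q h).2.1] at w1
    rcases w1 with k1 | k1 | k1
    · exact Or.inl k1
    · exact absurd w2 (disjoint_left.1 (hA.off_start (ht i Q h)) k1)
    · exact Or.inr (Or.inl k1)
  · have hA := ha _ E h
    rw [← (hb _ Q' h').1, ← (hb _ Q' h').2.1] at hA
    rw [Q'.clos_eq, ht _ Q' h', (hb _ Q' h').2.1] at w2
    rcases w2 with k2 | k2 | k2
    · exact Or.inr (Or.inl k2)
    · exact absurd w1 (disjoint_left.1 hA.off_end k2)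
    · exact Or.inr (Or.inr k2)
  · exact Or.inr (Or.inl (hj i E E' h h' ⟨w1, w2⟩))

theorem cl_branch {k M : ℕ} (hk : 0 < k) (Q : ℕ → Quad F) (hM : ∀ i < k, (Q i).M = M)
    (ho : ∀ i < k, (Q (i + 1)).p ∈ (Q i).om) (hp : (Q k).p = (Q 0).p)
    (hd : ∀ i < k, ∀ j < k, i ≠ j → Disjoint (Q i).Gam (Q j).Gam) : ∃ i < k, (Q i).SA := by
  obtain ⟨i, Q', h1, h2⟩ := cl (M := M) hk (fun i => Sum.inl (Q (i % k)))
    (fun i => (Q (i % k)).p) (fun i => by rw [Nat.add_mod_right])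
    (fun i => by rw [Nat.add_mod_right]) (fun i Q' h => by
      obtain rfl := Sum.inl_injective h
      have h1 := Nat.mod_lt i hk
      refine ⟨hM _ h1, rfl, ?_⟩
      have h2 := ho _ h1
      rw [← Nat.mod_add_mod]
      rcases (Nat.succ_le_of_lt h1).eq_or_lt with e | e
      · have e' : i % k + 1 = k := e
        rw [e'] at h2 ⊢
        rwa [Nat.mod_self, ← hp]
      · rwa [Nat.mod_eq_of_lt e])
    (fun i E h => absurd h Sum.inl_ne_inr) (fun i j Q1 Q2 h h1 h2 => by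
      obtain rfl := Sum.inl_injective h1
      obtain rfl := Sum.inl_injective h2
      exact hd _ (Nat.mod_lt i hk) _ (Nat.mod_lt j hk) h)
    (fun i E E' h => absurd h Sum.inl_ne_inr)
  obtain rfl := Sum.inl_injective h1
  exact ⟨_, Nat.mod_lt i hk, h2⟩

end Pool.Agent.Lib.MP_3fe454_an.S2
end
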