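import Pool.Agent.Lib.MP_3fe454_an.S2.HS5

-- part Pool.Agent.Lib.MP_3fe454_an.S2.MkQ
section

/-!
Construction of quadrants, powers, and the quadrants of an atlas.
-/

set_option autoImplicit false

open Set Metric Filter Topology Function

namespace Pool.Agent.Lib.MP_3fe454_an.S2

open PD

variable {F : Dis}

theorem exists_chi (φ : ℝ ≃o ℝ) (h0 : φ 0 = 0) (hg : ∀ x ∈ Ioc (0 : ℝ) 1, x < φ x) :
    ∃ χ : ℝ → ℝ, Continuous χ ∧ StrictMono χ ∧ (∀ s, 0 < χ s) ∧ χ 0 = 1 ∧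
      Tendsto χ atBot (𝓝 0) ∧ ∀ s ≤ -1, φ (χ s) = χ (s + 1) := by
  have hs0 : φ.symm 0 = 0 := by rw [φ.symm_apply_eq, h0]
  have a0 : 0 < φ.symm 1 := by rw [← hs0]; exact φ.symm.strictMono one_pos
  have a1 : φ.symm 1 < 1 := by rw [φ.symm_apply_lt]; exact hg 1 ⟨one_pos, le_rfl⟩
  set l : ℝ → ℝ := fun s => 1 + (1 - φ.symm 1) * s with hl
  set χ : ℝ → ℝ := fun s => φ.symm^[⌊-s⌋₊] (l (s + ⌊-s⌋₊)) with hχ
  have step : ∀ s ≤ -1, χ s = φ.symm (χ (s + 1)) := fun s hs => by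
    have e : ⌊-s⌋₊ = ⌊-(s + 1)⌋₊ + 1 := by
      rw [← Nat.floor_add_one (by linarith)]
      congr 1
      ring
    simp only [hχ]
    rw [e, iterate_succ_apply']
    congr 3
    push_cast
    ring
  have base' : ∀ s, -1 < s → χ s = l s := fun s hs => by
    simp only [hχ]
    rw [Nat.floor_eq_zero.2 (by linarith)]
    simp
  have z0 : χ 0 = 1 := by rw [base' 0 (by norm_num)]; simp [hl]
  have base : ∀ s ∈ Ici (-1 : ℝ), χ s = l s := fun s hs => by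
    rcases eq_or_lt_of_le (mem_Ici.1 hs) with rfl | h
    · rw [step _ le_rfl, neg_add_cancel, z0]
      simp [hl]
    · exact base' s h
  have lc : Continuous l := by fun_prop
  have lm : StrictMono l := fun s t h => by
    simp only [hl]
    nlinarith
  have key : ∀ n : ℕ, ContinuousOn χ (Ici (-1 - n)) ∧ StrictMonoOn χ (Ici (-1 - n)) := by
    have b1 : ContinuousOn χ (Ici (-1)) := lc.continuousOn.congr base
    have b2 : StrictMonoOn χ (Ici (-1)) := fun s hs t ht h => by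
      rw [base s hs, base t ht]
      exact lm h
    intro n
    induction n with
    | zero => simpa using ⟨b1, b2⟩
    | succ n ih =>
      have hn : (-1 : ℝ) - (n + 1 : ℕ) ≤ -1 := sub_le_self _ (Nat.cast_nonneg _)
      have hm : ∀ s ∈ Icc ((-1 : ℝ) - (n + 1 : ℕ)) (-1), s + 1 ∈ Ici ((-1 : ℝ) - n) :=
        fun s hs => by
          have := hs.1
          push_cast at this
          exact mem_Ici.2 (by linarith)
      rw [← Icc_union_Ici_eq_Ici hn]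
      refine ⟨ContinuousOn.union_of_isClosed ?_ b1 isClosed_Icc isClosed_Ici,
        StrictMonoOn.union (c := -1) (fun s hs t ht h => ?_) b2 (isGreatest_Icc hn) isLeast_Ici⟩
      · refine ContinuousOn.congr (f := fun s => φ.symm (χ (s + 1))) ?_ fun s hs => step s hs.2
        exact φ.symm.continuous.comp_continuousOn
          (ih.1.comp (f := fun s => s + 1) (by fun_prop) hm)
      · rw [step s hs.2, step t ht.2]
        exact φ.symm.strictMono (ih.2 (hm s hs) (hm t ht) (by linarith))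
  have big : ∀ s : ℝ, ∃ n : ℕ, -1 - (n : ℝ) < s := fun s => by
    obtain ⟨n, hn⟩ := exists_nat_gt (-s)
    exact ⟨n, by linarith⟩
  have hm : StrictMono χ := fun s t h => by
    obtain ⟨n, hn⟩ := big s
    exact (key n).2 hn.le (hn.trans h).le h
  have hpos : ∀ s, 0 < χ s := fun s => by
    have b1 : 0 < l (s + ⌊-s⌋₊) := by
      have b2 := Nat.lt_floor_add_one (-s)
      have b3 := lm (show (-1 : ℝ) < s + ⌊-s⌋₊ by linarith)
      simp only [hl] at b3 ⊢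
      linarith
    have b4 := φ.symm.strictMono.iterate ⌊-s⌋₊ b1
    rwa [iterate_fixed hs0] at b4
  have hst : ∀ s ≤ -1, φ (χ s) = χ (s + 1) := fun s hs => by rw [step s hs, φ.apply_symm_apply]
  refine ⟨χ, continuous_iff_continuousAt.2 fun s => ?_, hm, hpos, z0, ?_, hst⟩
  · obtain ⟨n, hn⟩ := big s
    exact (key n).1.continuousAt (Ici_mem_nhds hn)
  · have bd : BddBelow (range χ) := ⟨0, by rintro _ ⟨s, rfl⟩; exact (hpos s).le⟩
    have t1 := tendsto_atBot_ciInf hm.monotone bd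
    have t2 : Tendsto (fun s => χ (s + 1)) atBot (𝓝 (⨅ s, χ s)) :=
      t1.comp (tendsto_atBot_add_const_right _ 1 tendsto_id)
    have t3 : Tendsto (fun s => χ (s + 1)) atBot (𝓝 (φ (⨅ s, χ s))) :=
      ((φ.continuous.tendsto _).comp t1).congr' ((eventually_le_atBot (-1)).mono hst)
    have e := tendsto_nhds_unique t3 t2
    have b0 : 0 ≤ ⨅ s, χ s := le_ciInf fun s => (hpos s).le
    rcases b0.eq_or_lt with b | b
    · rwa [← b] at t1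
    · exact absurd e (hg _ ⟨b, (ciInf_le bd 0).trans z0.le⟩).ne'

theorem Quad.exists_pow (Q : Quad F) {k : ℕ} (hk : 0 < k) : ∃ Q' : Quad F, Q'.IsPow Q k := by
  obtain ⟨G, hG⟩ : ∃ G : ℂ ≃ₜ ℂ, ∀ w, G w = Q.Gt^[k] w := by
    clear hk
    induction k with
    | zero => exact ⟨Homeomorph.refl _, fun _ => rfl⟩
    | succ k ih =>
      obtain ⟨G, hG⟩ := ih
      exact ⟨G.trans Q.Gt, fun w => by rw [iterate_succ_apply', ← hG]; rfl⟩
  obtain ⟨ψ, hψ⟩ : ∃ ψ : ℝ ≃o ℝ, ∀ x, ψ x = Q.φ^[k] x := by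
    clear hk hG
    induction k with
    | zero => exact ⟨OrderIso.refl _, fun _ => rfl⟩
    | succ k ih =>
      obtain ⟨ψ, hψ⟩ := ih
      exact ⟨ψ.trans Q.φ, fun w => by rw [iterate_succ_apply', ← hψ]; rfl⟩
  have h0 : ψ 0 = 0 := by rw [hψ, iterate_fixed Q.fix]
  have hg : ∀ x ∈ Ioc (0 : ℝ) 1, x < ψ x := fun x hx => by
    have h1 : ∀ j, x ≤ Q.φ^[j] x := fun j => by
      induction j with
      | zero => exact le_rfl
      | succ j ih =>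
        rw [iterate_succ_apply']
        exact (Q.gap x hx).le.trans (Q.φ.monotone ih)
    obtain ⟨j, rfl⟩ := Nat.exists_eq_succ_of_ne_zero hk.ne'
    rw [hψ, iterate_succ_apply']
    exact (Q.gap x hx).trans_le (Q.φ.monotone (h1 j))
  obtain ⟨χ, c1, c2, c3, c4, c5, c6⟩ := exists_chi ψ h0 hg
  have mono : ∀ (j : ℕ) w w', Q.X w = Q.X w' → Q.Y w < Q.Y w' →
      Q.Y (Q.Gt^[j] w) < Q.Y (Q.Gt^[j] w') := fun j w w' e h => by
    induction j with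
    | zero => exact h
    | succ j ih =>
      rw [iterate_succ_apply', iterate_succ_apply']
      exact (Q.Y_lt_iff (by rw [Q.X_iter, Q.X_iter, e])).2 ih
  have lip : ∀ (j : ℕ) w w',
      ‖Q.A (Q.Gt^[j] w - Q.Gt^[j] w')‖ ≤ Q.sig ^ j * ‖Q.A (w - w')‖ := fun j w w' => by
    induction j with
    | zero => simp
    | succ j ih =>
      rw [iterate_succ_apply', iterate_succ_apply', pow_succ', mul_assoc]
      exact (Q.lip _ _).trans (mul_le_mul_of_nonneg_left ih (zero_le_one.trans Q.one_le_sig))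
  refine ⟨{ M := k * Q.M
            A := Q.A
            Ψ := Q.Ψ
            Gt := G
            φ := ψ
            lam := Q.lam ^ k
            sig := Q.sig ^ k
            M_pos := Nat.mul_pos hk Q.M_pos
            lam_pos := pow_pos Q.lam_pos k
            lam_lt := pow_lt_one₀ Q.lam_pos.le Q.lam_lt hk.ne'
            one_le_sig := one_le_pow₀ Q.one_le_sig
            mul_lt := by
              rw [← mul_pow]
              exact pow_lt_one₀ (mul_nonneg Q.lam_pos.le (zero_le_one.trans Q.one_le_sig))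
                Q.mul_lt hk.ne'
            lev := fun w => by rw [hG, hψ]; exact Q.X_iter k w
            mono := fun w w' e h => by rw [hG, hG]; exact mono k w w' e h
            contr := fun w => by rw [hG]; exact Q.Y_iter_abs k w
            lip := fun w w' => by rw [hG, hG]; exact lip k w w'
            base := Q.base
            sub := Q.sub
            ag := fun w h1 h2 h3 => by
              rw [hG] at h3 ⊢
              rw [mul_comm]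
              exact (Q.iter_ag ⟨h1, h2⟩ h3 k le_rfl).1
            χ := χ
            fix := h0
            gap := hg
            χ_cont := c1
            χ_mono := c2
            χ_pos := c3
            χ_zero := c4
            χ_lim := c5
            χ_step := c6 }, rfl, rfl, hG⟩

theorem mkq_t : sg true = 1 := rfl

theorem mkq_f : sg false = -1 := rfl

theorem mkq_sq (b : Bool) : sg b * sg b = 1 := by cases b <;> simp [sg]

theorem mkq_abs (b : Bool) (x : ℝ) : |sg b * x| = |x| := by cases b <;> simp [sg]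

theorem mkq_abs2 (b : Bool) (x : ℝ) : |2 * sg b * x| = 2 * |x| := by
  rw [mul_assoc, abs_mul, mkq_abs, abs_two]

theorem mkq_eq {a b : Bool} (h : 0 < sg a * sg b) : a = b := by
  cases a <;> cases b <;> simp [sg] at h ⊢ <;> linarith

theorem Box.exists_quad (B : Box F) (hB : B.Full) {ξ : ℝ} (hξ : |ξ| ≤ 1 / 4) (hφ : B.φ ξ = ξ)
    {sh : Bool} (hg : B.Gap ξ sh) (sv : Bool) : ∃ Q, B.IsQuad ξ sh sv Q := by
  have s1 := mkq_sq sh
  have s2 := mkq_sq sv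
  have r1 : ∀ x, ξ + sg sh * (2 * sg sh * (x - ξ) / 2) = x := fun x => by
    linear_combination (x - ξ) * s1
  have r2 : ∀ x, 2 * sg sh * (ξ + sg sh * (x / 2) - ξ) = x := fun x => by
    linear_combination x * s1
  have r3 : ∀ y, sg sv * (sg sv * y) = y := fun y => by linear_combination y * s2
  let E : ℝ × ℝ ≃ₜ ℝ × ℝ :=
    { toFun := fun u => (2 * sg sh * (u.1 - ξ), sg sv * u.2)
      invFun := fun u => (ξ + sg sh * (u.1 / 2), sg sv * u.2)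
      left_inv := fun u => Prod.ext (r1 u.1) (r3 u.2)
      right_inv := fun u => Prod.ext (r2 u.1) (r3 u.2)
      continuous_toFun := by fun_prop
      continuous_invFun := by fun_prop }
  have hm : StrictMono fun x => 2 * sg sh * (B.φ (ξ + sg sh * (x / 2)) - ξ) := fun x y h => by
    cases sh
    · have := B.φ.strictMono (show ξ + sg false * (y / 2) < ξ + sg false * (x / 2) by
        rw [mkq_f]; linarith)
      rw [mkq_f] at this ⊢
      dsimp only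
      linarith
    · have := B.φ.strictMono (show ξ + sg true * (x / 2) < ξ + sg true * (y / 2) by
        rw [mkq_t]; linarith)
      rw [mkq_t] at this ⊢
      dsimp only
      linarith
  let ψ : ℝ ≃o ℝ := hm.orderIsoOfRightInverse _
    (fun x => 2 * sg sh * (B.φ.symm (ξ + sg sh * (x / 2)) - ξ)) fun x => by
      simp only [r1, B.φ.apply_symm_apply, r2]
  have hψ : ∀ x, ψ x = 2 * sg sh * (B.φ (ξ + sg sh * (x / 2)) - ξ) := fun _ => rfl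
  have h0 : ψ 0 = 0 := by rw [hψ, zero_div, mul_zero, add_zero, hφ, sub_self, mul_zero]
  have hg' : ∀ x ∈ Ioc (0 : ℝ) 1, x < ψ x := fun x hx => by
    have := hg (x / 2) ⟨half_pos hx.1, by linarith [hx.2]⟩
    rw [hψ]
    linear_combination 2 * this - x * s1
  obtain ⟨χ, c1, c2, c3, c4, c5, c6⟩ := exists_chi ψ h0 hg'
  have hS : ∀ w, |2 * sg sh * (B.X w - ξ)| ≤ 1 → |sg sv * B.Y w| ≤ 1 → w ∈ B.S :=
    fun w h1 h2 => by
      rw [mkq_abs2] at h1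
      rw [mkq_abs] at h2
      refine ⟨?_, h2⟩
      have := abs_sub_abs_le_abs_sub (B.X w) ξ
      linarith
  refine ⟨{ M := B.M
            A := B.A
            Ψ := B.Ψ.trans E
            Gt := B.Gt
            φ := ψ
            lam := B.lam
            sig := B.sig
            M_pos := B.M_pos
            lam_pos := B.lam_pos
            lam_lt := B.lam_lt
            one_le_sig := B.one_le_sig
            mul_lt := B.mul_lt
            lev := fun w => by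
              change 2 * sg sh * (B.X (B.Gt w) - ξ) = ψ (2 * sg sh * (B.X w - ξ))
              rw [hψ, r1, B.X_Gt]
            mono := fun w w' e h => by
              change 2 * sg sh * (B.X w - ξ) = 2 * sg sh * (B.X w' - ξ) at e
              change sg sv * B.Y w < sg sv * B.Y w' at h
              change sg sv * B.Y (B.Gt w) < sg sv * B.Y (B.Gt w')
              have e' : B.X w = B.X w' := by rw [← r1 (B.X w), e, r1]
              cases sv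
              · rw [mkq_f] at h ⊢
                have := (B.Y_lt_iff e'.symm).2 (by linarith)
                linarith
              · rw [mkq_t] at h ⊢
                have := (B.Y_lt_iff e').2 (by linarith)
                linarith
            contr := fun w => by
              change |sg sv * B.Y (B.Gt w)| ≤ B.lam * |sg sv * B.Y w|
              rw [mkq_abs, mkq_abs]
              exact B.contr w
            lip := B.lip
            base := fun w => by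
              change ‖B.A (w - B.Ψ.symm (ξ + sg sh * (2 * sg sh * (B.X w - ξ) / 2), sg sv * 0))‖ ≤
                |sg sv * B.Y w|
              rw [r1, mul_zero, mkq_abs]
              exact B.base w
            sub := fun w h1 h2 => B.sub w (hS w h1 h2).1 (hS w h1 h2).2
            ag := fun w h1 h2 _ => hB w (hS w h1 h2)
            χ := χ
            fix := h0
            gap := hg'
            χ_cont := c1
            χ_mono := c2
            χ_pos := c3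
            χ_zero := c4
            χ_lim := c5
            χ_step := c6 }, rfl, rfl, fun _ => ⟨rfl, rfl⟩⟩

theorem Box.IsQuad.gap {B : Box F} {ξ : ℝ} {sh sv : Bool} {Q : Quad F} (h : B.IsQuad ξ sh sv Q) :
    B.φ ξ = ξ ∧ B.Gap ξ sh := by
  have s1 := mkq_sq sh
  have key : ∀ x, Q.φ (2 * sg sh * (x - ξ)) = 2 * sg sh * (B.φ x - ξ) := fun x => by
    have e := Q.X_Gt (B.pt x 0)
    rw [(h.2.2 _).1, (h.2.2 _).1, h.2.1, B.X_Gt, B.X_pt] at e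
    exact e.symm
  constructor
  · have e := key ξ
    rw [sub_self, mul_zero, Q.fix] at e
    linear_combination (-sg sh / 2) * e - (B.φ ξ - ξ) * s1
  · intro x hx
    have e := key (ξ + sg sh * x)
    rw [show 2 * sg sh * (ξ + sg sh * x - ξ) = 2 * x by linear_combination 2 * x * s1] at e
    have := Q.gap (2 * x) ⟨by linarith [hx.1], by linarith [hx.2]⟩
    rw [e] at this
    linear_combination (1 / 2) * this + x * s1

namespace Quad

theorem Ψ_ext {Q Q' : Quad F} (h : ∀ w, Q.X w = Q'.X w ∧ Q.Y w = Q'.Y w) : Q.Ψ = Q'.Ψ :=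
  Homeomorph.ext fun w => Prod.ext (h w).1 (h w).2

theorem same {Q Q' : Quad F} (h : Q.Ψ = Q'.Ψ) : Q.X = Q'.X ∧ Q.Y = Q'.Y ∧ Q.p = Q'.p ∧
    Q.T = Q'.T ∧ Q.R = Q'.R ∧ Q.Sig = Q'.Sig ∧ Q.S = Q'.S := by
  have h1 : Q.X = Q'.X := funext fun w => congrArg (fun e : ℂ ≃ₜ ℝ × ℝ => (e w).1) h
  have h2 : Q.Y = Q'.Y := funext fun w => congrArg (fun e : ℂ ≃ₜ ℝ × ℝ => (e w).2) h
  refine ⟨h1, h2, congrArg (fun e : ℂ ≃ₜ ℝ × ℝ => e.symm (0, 0)) h, funext fun d => ?_,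
    funext fun d => ?_, funext fun d => ?_, ?_⟩
  · rw [T, T, h1, h2]
  · rw [R, R, h1, h2]
  · rw [Sig, Sig, h1, h2]
  · rw [Box.S, Box.S, h1, h2]

theorem mkq_loc (Q : Quad F) {s : ℝ} (h : s ≤ 0) :
    Q.X (Q.γ s) = Q.χ s ∧ Q.Y (Q.γ s) = 0 := by
  rw [Q.γ_loc h]
  exact ⟨Q.X_pt _ _, Q.Y_pt _ _⟩

theorem mkq_neg (s : ℝ) {a n : ℕ} (ha : 0 < a) (hn : s ≤ n) : s - (a * n : ℕ) ≤ 0 := by
  have : (n : ℝ) ≤ (a * n : ℕ) := Nat.cast_le.2 (Nat.le_mul_of_pos_left n ha)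
  linarith

theorem mkq_gam {Q Q' : Quad F} (h : ∀ u, 0 < Q.X u → Q.X u ≤ 1 → Q.Y u = 0 →
    0 < Q'.X u ∧ Q'.X u ≤ 1 ∧ Q'.Y u = 0) : Q.Gam ⊆ Q'.Gam := by
  rintro _ ⟨s, rfl⟩
  have h0 := mkq_neg s Q'.M_pos (Nat.le_ceil s)
  obtain ⟨h1, h2⟩ := Q.mkq_loc h0
  obtain ⟨a, b, c⟩ := h _ (h1 ▸ Q.χ_pos _) (h1 ▸ Q.chi_le_one.2 h0) h2
  have e := Q.γ_iter (Q'.M * ⌈s⌉₊) (s - (Q'.M * ⌈s⌉₊ : ℕ))
  rw [sub_add_cancel, Q'.loc_mem a b c, mul_left_comm, Q'.γ_iter] at e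
  exact ⟨_, e⟩

theorem IsPow.gam {Q' Q : Quad F} {k : ℕ} (h : Q'.IsPow Q k) : Q'.Gam = Q.Gam := by
  obtain ⟨h1, h2, -⟩ := same h.2.1
  exact (mkq_gam fun u a b c => by rw [← h1, ← h2]; exact ⟨a, b, c⟩).antisymm
    (mkq_gam fun u a b c => by rw [h1, h2]; exact ⟨a, b, c⟩)

theorem LinkAt.congr {Q1 Q2 Q1' Q2' : Quad F} {n : ℕ} {z : ℂ} (h : Q1.LinkAt Q2 n z)
    (h1 : Q1'.Ψ = Q1.Ψ) (h2 : Q2'.Ψ = Q2.Ψ) : Q1'.LinkAt Q2' n z := by
  obtain ⟨a, b, -⟩ := same h1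
  obtain ⟨c, d, -⟩ := same h2
  rw [LinkAt, a, b, c, d]
  exact h

theorem LinkAt.add {Q Q' : Quad F} {n : ℕ} {z : ℂ} (h : Q.LinkAt Q' n z) (k : ℕ) :
    Q.LinkAt Q' (n + Q'.M * k) z := by
  obtain ⟨h1, h2, h3, h4, h5, h6, h7⟩ := h
  have e : ∀ u, F.f^[n + Q'.M * k] u = F.f^[Q'.M * k] (F.f^[n] u) := fun u => by
    rw [add_comm, iterate_add_apply]
  have hy : |Q'.Y (F.f^[n] z)| < 1 / 2 := by rwa [abs_of_pos h5]
  obtain ⟨-, a2, a3, a4⟩ := Q'.axis_fwd h4 (by linarith) k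
  refine ⟨h1, h2, h3, by rw [e, a2], by rw [e]; exact a4 h5, ?_, fun ε hε => ?_⟩
  · rw [e]
    have b1 : Q'.lam ^ k ≤ 1 := pow_le_one₀ Q'.lam_pos.le Q'.lam_lt.le
    have b2 := mul_le_of_le_one_left (abs_nonneg (Q'.Y (F.f^[n] z))) b1
    have b3 := le_abs_self (Q'.Y (F.f^[Q'.M * k] (F.f^[n] z)))
    linarith
  · have c0 := F.cf.iterate n
    have c1 : ∀ᶠ u in 𝓝 z, |Q'.X (F.f^[n] u)| < 1 :=
      (Q'.cX.comp c0).abs.continuousAt.eventually_lt continuousAt_const (by simp [h4])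
    have c2 : ∀ᶠ u in 𝓝 z, |Q'.Y (F.f^[n] u)| < 1 :=
      (Q'.cY.comp c0).abs.continuousAt.eventually_lt continuousAt_const (hy.trans (by norm_num))
    have c3 : ∀ᶠ u in 𝓝 z, |Q'.X (Q'.Gt^[k] (F.f^[n] u))| < 1 :=
      (Q'.cX.comp ((Q'.Gt.continuous.iterate k).comp c0)).abs.continuousAt.eventually_lt
        continuousAt_const (by simp [Q'.X_iter, h4, iterate_fixed Q'.fix])
    obtain ⟨δ, hδ, hb⟩ := Metric.eventually_nhds_iff.1 (c1.and (c2.and c3))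
    obtain ⟨u, u1, u2, u3⟩ := h7 (min ε δ) (lt_min hε hδ)
    obtain ⟨v1, v2, v3⟩ := hb (u1.trans_le (min_le_right _ _))
    refine ⟨u, u1.trans_le (min_le_left _ _), u2, ?_⟩
    rw [e, (Q'.iter_ag ⟨v1.le, v2.le⟩ v3.le k le_rfl).1, Q'.X_iter, Q'.phi_iter_pos]
    exact u3

theorem LinkAt.mul {Q Q' : Quad F} {n N : ℕ} {z : ℂ} (h : Q.LinkAt Q' n z) (h1 : Q'.M ∣ n)
    (h2 : Q'.M ∣ N) (hN : 0 < N) : ∃ t, Q.LinkAt Q' (N * t) z := by
  have _ := h2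
  obtain ⟨a, ha⟩ := h1
  obtain ⟨N, rfl⟩ := Nat.exists_eq_succ_of_ne_zero hN.ne'
  refine ⟨n, ?_⟩
  have e : N.succ * n = n + Q'.M * (N * a) := by
    rw [mul_left_comm, ← ha, Nat.succ_mul, add_comm]
  rw [e]
  exact h.add _

theorem LinkAt.back {Q Q' : Quad F} {n : ℕ} {s : ℝ} (h : Q.LinkAt Q' n (Q.γ s)) (hs : s < 0)
    (k : ℕ) : Q.LinkAt Q' (n + Q.M * k) (Q.γ (s - k)) := by
  obtain ⟨h1, h2, h3, h4, h5, h6, h7⟩ := h
  have hk : s - k < 0 := (sub_le_self s (Nat.cast_nonneg k)).trans_lt hs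
  obtain ⟨a1, a2⟩ := Q.mkq_loc hk.le
  have a3 : 0 < Q.X (Q.γ (s - k)) := a1 ▸ Q.χ_pos _
  have a4 : Q.X (Q.γ (s - k)) < 1 := by
    rw [a1, ← Q.χ_zero]
    exact Q.χ_mono hk
  have e0 : F.f^[Q.M * k] (Q.γ (s - k)) = Q.γ s := by rw [Q.γ_iter, sub_add_cancel]
  have e : F.f^[n + Q.M * k] (Q.γ (s - k)) = F.f^[n] (Q.γ s) := by rw [iterate_add_apply, e0]
  refine ⟨a3, a4, a2, e ▸ h4, e ▸ h5, e ▸ h6, fun ε hε => ?_⟩
  have e1 : Q.Gt^[k] (Q.γ (s - k)) = Q.γ s := by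
    rw [← e0]
    refine (Q.iter_ag ⟨abs_le.2 ⟨by linarith, a4.le⟩, by simp [a2]⟩ ?_ k le_rfl).1.symm
    rw [Q.X_iter, a1, Q.phi_iter_chi (by linarith), abs_of_pos (Q.χ_pos _), Q.chi_le_one]
    linarith
  have e2 : Q.Gt.symm^[k] (Q.γ s) = Q.γ (s - k) := by
    rw [← e1]
    exact (LeftInverse.iterate Q.Gt.symm_apply_apply k) _
  have c0 := Q.Gt.symm.continuous.iterate k
  have c1 : ∀ᶠ u in 𝓝 (Q.γ s), |Q.X (Q.Gt.symm^[k] u)| < 1 :=
    (Q.cX.comp c0).abs.continuousAt.eventually_lt continuousAt_const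
      (by simpa [e2, abs_of_pos a3] using a4)
  have c2 : ∀ᶠ u in 𝓝 (Q.γ s), |Q.Y (Q.Gt.symm^[k] u)| < 1 :=
    (Q.cY.comp c0).abs.continuousAt.eventually_lt continuousAt_const (by simp [e2, a2])
  have c3 : ∀ᶠ u in 𝓝 (Q.γ s), |Q.X u| < 1 :=
    Q.cX.abs.continuousAt.eventually_lt continuousAt_const (by rwa [abs_of_pos h1])
  have c4 : ∀ᶠ u in 𝓝 (Q.γ s), dist (Q.Gt.symm^[k] u) (Q.γ (s - k)) < ε :=
    (c0.dist continuous_const).continuousAt.eventually_lt continuousAt_const (by simpa [e2])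
  obtain ⟨δ, hδ, hb⟩ := Metric.eventually_nhds_iff.1 (c1.and (c2.and (c3.and c4)))
  obtain ⟨u, u1, u2, u3⟩ := h7 δ hδ
  obtain ⟨v1, v2, v3, v4⟩ := hb u1
  have e3 : Q.Gt^[k] (Q.Gt.symm^[k] u) = u := (LeftInverse.iterate Q.Gt.apply_symm_apply k) u
  refine ⟨_, v4, (Q.Y_symm_pos k u).2 u2, ?_⟩
  rw [iterate_add_apply, (Q.iter_ag ⟨v1.le, v2.le⟩ (by rw [e3]; exact v3.le) k le_rfl).1, e3]
  exact u3

theorem LinkAt.param {Q Q' : Quad F} {n : ℕ} {z : ℂ} (h : Q.LinkAt Q' n z) :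
    ∃ s < 0, z = Q.γ s := by
  refine ⟨_, ?_, Q.loc_mem h.1 h.2.1.le h.2.2.1⟩
  rw [← Q.χ_mono.lt_iff_lt, (Q.dep_spec h.1 h.2.1.le).1, Q.χ_zero]
  exact h.2.1

theorem LinkAt.om {Q Q' : Quad F} {t : ℕ} {z : ℂ} (hM : Q.M = Q'.M)
    (h : Q.LinkAt Q' (Q.M * t) z) : Q'.p ∈ Q.om := by
  obtain ⟨s, -, rfl⟩ := h.param
  obtain ⟨-, -, -, h4, h5, h6, -⟩ := h
  have e := Q'.axis_tend h4 (by rw [abs_of_pos h5]; linarith)
  rw [Q.γ_iter, ← hM] at e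
  exact Q.om_of_cluster e.mapClusterPt

theorem Compat.congr {Q1 Q2 Q1' Q2' : Quad F} (h : Q1.Compat Q2) (h1 : Q1'.Ψ = Q1.Ψ)
    (h2 : Q2'.Ψ = Q2.Ψ) : Q1'.Compat Q2' := by
  obtain ⟨a, b, c, -⟩ := same h1
  obtain ⟨a', b', c', -⟩ := same h2
  rw [Compat, a, b, c, a', b', c']
  exact h

end Quad

namespace Atlas

variable {At : Atlas F} {q q' : periodicPts F.f} {sh sv sh' sv' : Bool} {Q Q' : Quad F}

theorem mkq_ok {B : Box F} (h : At.L q = Sum.inr B) :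
    B.Full ∧ B.Cone ∧ |B.X q| ≤ 1 / 4 ∧ B.Y q = 0 ∧ B.Gt q = q := by
  have e := At.ok q
  rw [h] at e
  exact e

theorem IsQ.p (h : At.IsQ q sh sv Q) : Q.p = q := by
  obtain ⟨B, h1, h2⟩ := h
  refine Q.ext_XY ?_ ?_
  · rw [Q.p_X, (h2.2.2 _).1, sub_self, mul_zero]
  · rw [Q.p_Y, (h2.2.2 _).2, (mkq_ok h1).2.2.2.1, mul_zero]

theorem IsQ.M (h : At.IsQ q sh sv Q) : Q.M = At.M q := by
  obtain ⟨B, h1, h2⟩ := h
  rw [Atlas.M, h1]
  exact h2.1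

theorem IsQ.Sc (h : At.IsQ q sh sv Q) (w : ℂ) :
    w ∈ At.Sc q ↔ |Q.X w| ≤ 1 ∧ |Q.Y w| ≤ 1 / 2 := by
  obtain ⟨B, h1, h2⟩ := h
  rw [Atlas.Sc, h1, (h2.2.2 _).1, (h2.2.2 _).2, mkq_abs, mkq_abs2]
  exact and_congr_left' ⟨fun e => by linarith, fun e => by linarith⟩

theorem IsQ.Tq (h : At.IsQ q sh sv Q) (d : ℝ) : At.Tq q sh sv d = Q.T d := by
  obtain ⟨B, h1, h2⟩ := h
  ext w
  simp only [Atlas.Tq, Quad.T, mem_ofPred_eq, (h2.2.2 w).1, (h2.2.2 w).2, h1, Sum.inr.injEq,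
    exists_eq_left']

theorem IsQ.signs (h : At.IsQ q sh sv Q) (h' : At.IsQ q sh' sv' Q') (w : ℂ) :
    Q'.X w = sg sh * sg sh' * Q.X w ∧ Q'.Y w = sg sv * sg sv' * Q.Y w := by
  obtain ⟨B, h1, h2⟩ := h
  obtain ⟨B', h3, h4⟩ := h'
  obtain rfl : B = B' := Sum.inr_injective (h1.symm.trans h3)
  rw [(h2.2.2 _).1, (h2.2.2 _).2, (h4.2.2 _).1, (h4.2.2 _).2]
  exact ⟨by linear_combination (-2 * sg sh' * (B.X w - B.X q)) * mkq_sq sh,
    by linear_combination (-sg sv' * B.Y w) * mkq_sq sv⟩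

theorem IsQ.Ψ_eq (h : At.IsQ q sh sv Q) (h' : At.IsQ q sh sv Q') : Q.Ψ = Q'.Ψ :=
  Quad.Ψ_ext fun w => by
    obtain ⟨a, b⟩ := h.signs h' w
    rw [mkq_sq, one_mul] at a b
    exact ⟨a.symm, b.symm⟩

theorem IsQ.compat (h : At.IsQ q sh sv Q) (h' : At.IsQ q' sh' sv' Q') : Q.Compat Q' := by
  intro e
  obtain rfl : q = q' := Subtype.ext (h.p.symm.trans (e.trans h'.p))
  have key : ∀ a b : Bool, ∃ c, sg c = sg a * sg b := fun a b =>
    ⟨a == b, by cases a <;> cases b <;> simp [sg]⟩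
  obtain ⟨a, ha⟩ := key sh sh'
  obtain ⟨b, hb⟩ := key sv sv'
  exact ⟨a, b, fun w => by rw [ha, hb]; exact h.signs h' w⟩

theorem IsQ.label (h : At.IsQ q sh sv Q) (h' : At.IsQ q' sh' sv' Q') (e : Q.Ψ = Q'.Ψ) :
    q = q' ∧ sh = sh' ∧ sv = sv' := by
  obtain ⟨a, b, c, -⟩ := Quad.same e
  obtain rfl : q = q' := Subtype.ext (h.p.symm.trans (c.trans h'.p))
  obtain ⟨h1, h2⟩ := h.signs h' (Q.pt 1 1)
  rw [← a, Q.X_pt, mul_one] at h1
  rw [← b, Q.Y_pt, mul_one] at h2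
  exact ⟨rfl, mkq_eq (h1 ▸ one_pos), mkq_eq (h2 ▸ one_pos)⟩

theorem IsQ.other (h : At.IsQ q sh sv Q) (sv' : Bool) : ∃ Q', At.IsQ q sh sv' Q' := by
  obtain ⟨B, h1, h2⟩ := h
  obtain ⟨Q', h3⟩ := B.exists_quad (mkq_ok h1).1 (mkq_ok h1).2.2.1 h2.gap.1 h2.gap.2 sv'
  exact ⟨Q', B, h1, h3⟩

theorem mkq_sub (h : At.IsQ q sh sv Q) (h' : At.IsQ q sh sv' Q') : Q.Gam ⊆ Q'.Gam :=
  Quad.mkq_gam fun u a b c => by
    obtain ⟨h1, h2⟩ := h.signs h' u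
    rw [h1, h2, mkq_sq, one_mul, c, mul_zero]
    exact ⟨a, b, rfl⟩

theorem IsQ.gam_eq (h : At.IsQ q sh sv Q) (h' : At.IsQ q sh sv' Q') : Q.Gam = Q'.Gam :=
  (mkq_sub h h').antisymm (mkq_sub h' h)

theorem IsQ.gam_meet (h : At.IsQ q sh sv Q) (h' : At.IsQ q' sh' sv' Q')
    (hm : (Q.Gam ∩ Q'.Gam).Nonempty) : q = q' ∧ sh = sh' := by
  obtain ⟨_, ⟨s, rfl⟩, s', hs⟩ := hm
  have e : ∀ n : ℕ, Q.γ (s - (Q'.M * n : ℕ)) = Q'.γ (s' - (Q.M * n : ℕ)) := fun n => by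
    rw [← Q.γ_back, ← Q'.γ_back, hs, mul_left_comm]
  have t : ∀ (s : ℝ) (a : ℕ), 0 < a → Tendsto (fun n : ℕ => s - (a * n : ℕ)) atTop atBot :=
    fun s a ha => tendsto_atBot_add_const_left _ s (tendsto_neg_atTop_atBot.comp
      (tendsto_natCast_atTop_atTop.comp (tendsto_id.const_mul_atTop' ha)))
  have e1 : Q.p = Q'.p := tendsto_nhds_unique (Q.γ_lim.comp (t s _ Q'.M_pos))
    ((Q'.γ_lim.comp (t s' _ Q.M_pos)).congr fun n => (e n).symm)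
  obtain rfl : q = q' := Subtype.ext (h.p.symm.trans (e1.trans h'.p))
  obtain ⟨n, hn⟩ := exists_nat_ge (max s s')
  have a1 := (Q.mkq_loc (Quad.mkq_neg s Q'.M_pos ((le_max_left _ _).trans hn))).1
  have a2 := (Q'.mkq_loc (Quad.mkq_neg s' Q.M_pos ((le_max_right _ _).trans hn))).1
  rw [← e, (h.signs h' _).1, a1] at a2
  exact ⟨rfl, mkq_eq ((mul_pos_iff_of_pos_right (Q.χ_pos _)).1 (a2 ▸ Q'.χ_pos _))⟩

theorem Fin.labels {M0 : ℕ} (h : At.Fin M0) :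
    {x : periodicPts F.f × Bool × Bool | ∃ Q, At.IsQ x.1 x.2.1 x.2.2 Q}.Finite := by
  refine Finite.of_injOn (f := fun x => (At.L x.1, x.2)) (t := range At.L ×ˢ univ)
    (fun x _ => ⟨mem_range_self _, mem_univ _⟩) ?_ (h.1.prod finite_univ)
  rintro ⟨q, sh, sv⟩ ⟨Q, B, h1, h2⟩ ⟨q', sh', sv'⟩ ⟨Q', B', h3, h4⟩ e
  obtain ⟨e1, e2⟩ := Prod.mk.inj e
  obtain ⟨rfl, rfl⟩ := Prod.mk.inj e2
  obtain rfl : B = B' := Sum.inr_injective (h1.symm.trans (e1.trans h3))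
  have key : ∀ ξ ξ' : ℝ, |ξ| ≤ 1 / 4 → |ξ'| ≤ 1 / 4 → B.Gap ξ sh → B.φ ξ' = ξ' →
      sg sh * (ξ' - ξ) ≤ 0 := fun ξ ξ' a b c d => not_lt.1 fun k => by
    have a1 := (le_abs_self _).trans (mkq_abs sh (ξ' - ξ)).le
    have a2 := abs_sub ξ' ξ
    have a3 := c _ ⟨k, by linarith⟩
    rw [show ξ + sg sh * (sg sh * (ξ' - ξ)) = ξ' by linear_combination (ξ' - ξ) * mkq_sq sh, d,
      sub_self, mul_zero] at a3
    exact a3.false
  have b1 := key _ _ (mkq_ok h1).2.2.1 (mkq_ok h3).2.2.1 h2.gap.2 h4.gap.1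
  have b2 := key _ _ (mkq_ok h3).2.2.1 (mkq_ok h1).2.2.1 h4.gap.2 h2.gap.1
  have b3 : sg sh * (B.X q - B.X q') = 0 := le_antisymm b2 (by linarith)
  have b4 : B.X q = B.X q' := by
    linear_combination sg sh * b3 - (B.X q - B.X q') * mkq_sq sh
  obtain rfl : q = q' :=
    Subtype.ext (B.ext_XY b4 ((mkq_ok h1).2.2.2.1.trans (mkq_ok h3).2.2.2.1.symm))
  rfl

end Atlas

end Pool.Agent.Lib.MP_3fe454_an.S2
end

-- part Pool.Agent.Lib.MP_3fe454_an.S2.Avoid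
section

/-!
Thin strips avoid compact pieces of branches and tiny stable sets.
-/

set_option autoImplicit false

open Set Metric Filter Topology Function

namespace Pool.Agent.Lib.MP_3fe454_an.S2

open PD

namespace Quad

variable {F : Dis}

theorem avoid_T (Q : Quad F) {E : Set ℂ} (hE : IsCompact E) {y : ℝ}
    (h : Disjoint E (Q.Sig y)) : ∃ d > 0, Disjoint E (Q.T d ∩ {w | Q.Y w < y}) := by
  have hK : IsCompact (E ∩ {w | 0 ≤ Q.X w ∧ 0 ≤ Q.Y w ∧ Q.Y w ≤ y}) :=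
    hE.inter_right ((isClosed_le continuous_const Q.cX).inter
      ((isClosed_le continuous_const Q.cY).inter (isClosed_le Q.cY continuous_const)))
  obtain ⟨d, hd, h1⟩ := hK.exists_forall_le' Q.cX.continuousOn (a := 0) fun w hw =>
    hw.2.1.lt_of_ne fun k => disjoint_left.1 h hw.1 ⟨k.symm, hw.2.2⟩
  exact ⟨d, hd, disjoint_left.2 fun w hw k =>
    (h1 w ⟨hw, k.1.1.le, k.1.2.2.1.le, le_of_lt k.2⟩).not_gt k.1.2.1⟩

theorem av_T (Q : Quad F) {E : Set ℂ} (hE : IsCompact E) (h : Disjoint E (Q.Sig (1 / 2))) :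
    ∃ d > 0, Disjoint E (Q.T d) := by
  obtain ⟨d, hd, h1⟩ := Q.avoid_T hE h
  exact ⟨d, hd, disjoint_left.2 fun w hw k => disjoint_left.1 h1 hw ⟨k, k.2.2.2⟩⟩

theorem av_near (Q : Quad F) {z : ℂ} (h : z ∉ Q.Sig (1 / 2)) :
    ∃ d > 0, ∀ᶠ w in 𝓝 z, w ∉ Q.T d := by
  obtain ⟨E, h1, h2, h3⟩ := local_compact_nhds ((Q.Sig_compact _).isClosed.compl_mem_nhds h)
  obtain ⟨d, hd, h4⟩ := Q.av_T h3 (subset_compl_iff_disjoint_right.1 h2)
  exact ⟨d, hd, mem_of_superset h1 fun w hw => disjoint_left.1 h4 hw⟩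

theorem av_R (Q : Quad F) (N : ℕ) (x : ℝ) {E : Set ℂ} (hE : IsCompact E)
    (h : ∀ w, x ≤ Q.X w → Q.X w ≤ 1 → Q.Y w = 0 → F.f^[N] w ∉ E) :
    ∃ d > 0, d ≤ 1 ∧ ∀ w ∈ Q.R d, x ≤ Q.X w → F.f^[N] w ∉ E := by
  have hK := (Q.rect_compact x 1 0 1).inter_right (hE.isClosed.preimage (F.cf.iterate N))
  obtain ⟨d, hd, h1⟩ := hK.exists_forall_le' Q.cY.continuousOn (a := 0) fun w hw =>
    hw.1.2.2.1.lt_of_ne fun k => h w hw.1.1 hw.1.2.1 k.symm hw.2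
  refine ⟨min d 1, lt_min hd one_pos, min_le_right _ _, fun w hw hx k => ?_⟩
  have h2 := lt_min_iff.1 hw.2.2.2
  exact (h1 w ⟨⟨hx, hw.2.1.le, hw.2.2.1.le, h2.2.le⟩, k⟩).not_gt h2.1

theorem avoid_R (Q : Quad F) (t : ℕ) {E : Set ℂ} (hE : IsCompact E)
    (h : Disjoint E (Q.Gc t)) : ∃ d > 0, Disjoint E (F.f^[Q.M * t] '' Q.R d) := by
  obtain ⟨d, hd, -, h1⟩ := Q.av_R (Q.M * t) 0 hE fun w h1 h2 h3 k => by
    refine disjoint_left.1 h k ?_
    rw [← zero_add (t : ℝ), ← Q.Gc_image, Q.Gc_zero]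
    exact ⟨w, ⟨h1, h2, h3⟩, rfl⟩
  refine ⟨d, hd, disjoint_right.2 ?_⟩
  rintro _ ⟨w, hw, rfl⟩
  exact h1 w hw hw.1.le

theorem av_comm {w : ℂ} (hw : w ∈ F.Λ) (a n : ℕ) :
    F.g^[a] (F.f^[n] w) = F.f^[n] (F.g^[a] w) := by
  conv_lhs => rw [← F.iter_f_g hw a, ← iterate_add_apply, add_comm, iterate_add_apply]
  exact F.iter_g_f (F.iter_mem_Disc (F.Λ_sub_Disc (F.iter_g_mem_Λ hw a)) n) a

theorem av_back (Q : Quad F) {s : ℝ} {w : ℂ} (hw : w ∈ Q.Gc s) (k : ℕ) :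
    F.g^[Q.M * k] w ∈ Q.Gc (s - k) := by
  rcases hw with rfl | ⟨s', h, rfl⟩
  · exact .inl (g_fix F Q.M_pos Q.f_p k)
  · exact .inr ⟨s' - k, sub_le_sub_right (mem_Iic.1 h) _, (Q.γ_back k s').symm⟩

theorem av_back' (Q : Quad F) {s : ℝ} {n : ℕ} {w : ℂ} (hw : w ∈ F.f^[n] '' Q.Gc s) (k : ℕ) :
    F.g^[Q.M * k] w ∈ F.f^[n] '' Q.Gc (s - k) := by
  obtain ⟨u, hu, rfl⟩ := hw
  exact ⟨_, Q.av_back hu k, (av_comm (Q.Gc_Λ s hu) _ n).symm⟩

theorem av_p (Q Q' : Quad F) (hM : Q.M = Q'.M) (n : ℕ) :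
    ∃ s, ∃ d > 0, Disjoint (F.f^[n] '' Q.Gc s) (Q'.T d) := by
  have hc := (F.cf.iterate n).continuousAt (x := Q.p)
  by_cases h : F.f^[n] Q.p ∈ Q'.Sig (1 / 2)
  · have h1 := Q'.axis_per h.1 (abs_le.2 ⟨by linarith [h.2.1], by linarith [h.2.2]⟩)
      (per_iter F Q.p_per n).1
    obtain ⟨ε, hε, h2⟩ := Q'.back_near Q'.Gt_p (by rw [Q'.p_X]; simp)
    obtain ⟨s, h3⟩ := Q.Gc_tiny (hc.preimage_mem_nhds (ball_mem_nhds _ hε))
    refine ⟨s, 1, one_pos, disjoint_left.2 fun w hw k => k.2.2.1.ne' (h2 w ?_ fun j => ?_)⟩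
    · obtain ⟨u, hu, rfl⟩ := hw
      exact F.iter_f_mem_Λ (Q.Gc_Λ s hu) n
    · obtain ⟨u, hu, e⟩ := Q.av_back' hw j
      rw [← hM, ← e, ← h1]
      exact h3 _ (sub_le_self _ j.cast_nonneg) hu
  · obtain ⟨d, hd, h1⟩ := Q'.av_near h
    obtain ⟨s, h3⟩ := Q.Gc_tiny (hc.eventually h1)
    refine ⟨s, d, hd, disjoint_left.2 ?_⟩
    rintro _ ⟨u, hu, rfl⟩
    exact h3 s le_rfl hu

theorem nh (Q Q' : Quad F) (hM : Q.M = Q'.M) {n : ℕ} (h : ¬ Q.Hon Q' n) (s : ℝ) :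
    ∃ d > 0, Disjoint (F.f^[n] '' Q.Gc s) (Q'.T d) := by
  obtain ⟨s1, d1, hd1, h1⟩ := Q.av_p Q' hM n
  have hc : Continuous fun r => F.f^[n] (Q.γ r) := (F.cf.iterate n).comp Q.γ_cont
  have h2 : ∃ d > 0, ∀ r ∈ Icc s1 s, F.f^[n] (Q.γ r) ∉ Q'.T d := by
    refine (isCompact_Icc (a := s1) (b := s)).induction_on
      (p := fun S => ∃ d > 0, ∀ r ∈ S, F.f^[n] (Q.γ r) ∉ Q'.T d) ⟨1, one_pos, by simp⟩ ?_ ?_ ?_
    · rintro S S' hS ⟨d, hd, k⟩
      exact ⟨d, hd, fun r hr => k r (hS hr)⟩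
    · rintro S S' ⟨d, hd, k⟩ ⟨d', hd', k'⟩
      refine ⟨min d d', lt_min hd hd', fun r hr m => hr.elim (fun e => ?_) fun e => ?_⟩
      exacts [k r e (Q'.T_mono (min_le_left _ _) m), k' r e (Q'.T_mono (min_le_right _ _) m)]
    · intro r _
      by_cases k : F.f^[n] (Q.γ r) ∈ Q'.Sig (1 / 2)
      · have k1 : 0 < Q'.Y (F.f^[n] (Q.γ r)) := k.2.1.lt_of_ne fun e => Q.γ_not_per r
          (per_of_iter F (F.Λ_sub_Disc (Q.γ_Λ r)) (n := n) (by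
            rw [Q'.ext_XY (k.1.trans Q'.p_X.symm) (e.symm.trans Q'.p_Y.symm)]
            exact Q'.p_per))
        have k2 : ¬ ∀ ε > 0, ∃ s, |s - r| < ε ∧ 0 < Q'.X (F.f^[n] (Q.γ s)) := fun k2 =>
          h ⟨r, k.1, k1, by linarith [k.2.2], k2⟩
        push Not at k2
        obtain ⟨ε, hε, k2⟩ := k2
        exact ⟨ball r ε, mem_nhdsWithin_of_mem_nhds (ball_mem_nhds r hε), 1, one_pos,
          fun r' hr' m => (k2 r' hr').not_gt m.1⟩
      · obtain ⟨d, hd, k1⟩ := Q'.av_near k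
        exact ⟨_, mem_nhdsWithin_of_mem_nhds (hc.continuousAt.eventually k1), d, hd,
          fun _ hr' => hr'⟩
  obtain ⟨d, hd, h2⟩ := h2
  refine ⟨min d d1, lt_min hd hd1, disjoint_left.2 ?_⟩
  rintro _ ⟨u, hu, rfl⟩ m
  by_cases k : u ∈ Q.Gc s1
  · exact disjoint_left.1 h1 ⟨u, k, rfl⟩ (Q'.T_mono (min_le_right _ _) m)
  · rcases hu with rfl | ⟨r, hr, rfl⟩
    · exact k (.inl rfl)
    · exact h2 r ⟨le_of_not_ge fun e => k (.inr ⟨r, e, rfl⟩), hr⟩ (Q'.T_mono (min_le_left _ _) m)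

theorem av_pull (Q : Quad F) {h' : ℝ} (hh : 0 < h') :
    ∃ h > 0, ∀ u ∈ Q.R h, F.g^[Q.M * 1] u ∈ Q.R h' := by
  obtain ⟨θ, hθ, h1⟩ := Q.theta (η := min h' 1 / 2) (half_pos (lt_min hh one_pos))
  refine ⟨min θ 1, lt_min hθ one_pos, fun u hu => ?_⟩
  have h2 := Q.R_sub (min_le_right θ 1) hu
  have h3 := h1 u h2.1 (by
    rw [abs_of_pos hu.2.2.1]
    exact (lt_min_iff.1 hu.2.2.2).1.le)
  have h4 : Q.Gt.symm u ∈ Q.R (min h' 1) := by
    refine ⟨?_, ?_, (Q.Y_symm_pos 1 u).2 hu.2.2.1,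
      ((le_abs_self _).trans h3).trans_lt (half_lt_self (lt_min hh one_pos))⟩
    · rw [Q.X_symm, OrderIso.lt_symm_apply, Q.fix]
      exact hu.1
    · rw [Q.X_symm, OrderIso.symm_apply_lt]
      exact hu.2.1.trans (Q.gap 1 ⟨one_pos, le_rfl⟩)
  rw [(Q.back_ag (n := 1) h2 (Q.R_sub (min_le_right _ _) h4) 1 le_rfl).1]
  exact Q.R_mono (min_le_left _ _) h4

theorem av_pulls (Q : Quad F) (k : ℕ) : ∀ {h' : ℝ}, 0 < h' →
    ∃ h > 0, ∀ u ∈ Q.R h, F.g^[Q.M * k] u ∈ Q.R h' := by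
  induction k with
  | zero => exact fun {h'} hh => ⟨h', hh, fun u hu => hu⟩
  | succ k ih =>
    intro h' hh
    obtain ⟨h1, k1, m1⟩ := ih hh
    obtain ⟨h2, k2, m2⟩ := Q.av_pull k1
    refine ⟨h2, k2, fun u hu => ?_⟩
    rw [mul_add, iterate_add_apply]
    exact m1 _ (m2 u hu)

theorem nh2 (Q Q' : Quad F) (hM : Q.M = Q'.M) (n t : ℕ) (s : ℝ) :
    ∃ d > 0, Disjoint (F.f^[n] '' Q.Gc s) (F.f^[Q'.M * t] '' Q'.R d) := by
  obtain ⟨s1, d1, hd1, h1⟩ := Q.av_p Q' hM n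
  obtain ⟨h, hh, h2⟩ := Q'.R_back hd1
  obtain ⟨k, hk⟩ := exists_nat_ge (s - s1)
  obtain ⟨d, hd, h3⟩ := Q'.av_pulls k hh
  refine ⟨min d 1, lt_min hd one_pos, disjoint_right.2 ?_⟩
  rintro _ ⟨u, hu, rfl⟩ m
  have h4 := Q.av_back' m t
  rw [hM, F.iter_g_f (ball_subset_closedBall (Q'.S_sub (Q'.R_sub (min_le_right _ _) hu)))] at h4
  obtain ⟨j, h5, -⟩ := h2 _ (h3 u (Q'.R_mono (min_le_left _ _) hu))
  have h6 := Q.av_back' (Q.av_back' h4 k) j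
  rw [hM] at h6
  refine disjoint_left.1 h1 (image_mono (Q.Gc_mono ?_) h6) h5
  linarith [t.cast_nonneg (α := ℝ), j.cast_nonneg (α := ℝ)]

theorem tv (Q : Quad F) (t : ℕ) {v : ℂ} (hv : v ∈ periodicPts F.f) :
    ∃ ε > 0, ∀ E : Set ℂ, IsCompact E → (∀ w ∈ E, ∀ n : ℕ, F.f^[Q.M * n] w ∈ ball v ε) →
      ∃ d > 0, Disjoint E (Q.T d ∪ F.f^[Q.M * t] '' Q.R d) := by
  by_cases hp : v = Q.p
  · subst hp
    have h1 : IsCompact (Q.γ '' Icc 0 t) := isCompact_Icc.image Q.γ_cont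
    have h2 : ∀ᶠ w in 𝓝 Q.p, w ∉ Q.γ '' Icc 0 t ∧ Q.X w < Q.χ (-1) ∧ |Q.Y w| < 1 := by
      refine Eventually.and (h1.isClosed.compl_mem_nhds ?_) (Eventually.and ?_ ?_)
      · rintro ⟨r, -, e⟩
        exact Q.γ_not_per r (e ▸ hv)
      · exact Q.cX.continuousAt.eventually_lt continuousAt_const (Q.p_X ▸ Q.χ_pos _)
      · exact Q.cY.abs.continuousAt.eventually_lt continuousAt_const (by simp [Q.p_Y])
    obtain ⟨ε, hε, h3⟩ := Metric.mem_nhds_iff.1 h2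
    refine ⟨ε, hε, fun E hE h => ?_⟩
    have h4 : ∀ w ∈ E, Q.X w ≤ 0 := fun w hw => le_of_not_gt fun k => by
      have h5 := (h3 (h w hw 0)).2
      obtain ⟨n, h6⟩ := Q.leave k (h5.1.le.trans (Q.chi_le_one.2 (by norm_num))) h5.2.le
      exact h6.not_gt (h3 (h w hw n)).2.1
    obtain ⟨d, hd, hd1, h5⟩ := Q.av_R (Q.M * t) (Q.χ (-t)) hE fun w k1 k2 k3 k => by
      have k0 := (Q.χ_pos _).trans_le k1
      obtain ⟨k4, k5⟩ := Q.dep_spec k0 k2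
      rw [← k4, Q.χ_mono.le_iff_le] at k1
      refine (h3 (h _ k 0)).1 ⟨-Q.dep (Q.X w) + t, ⟨by linarith, by linarith⟩, ?_⟩
      rw [← Q.γ_iter, ← Q.loc_mem k0 k2 k3]
      rfl
    refine ⟨d, hd, disjoint_right.2 ?_⟩
    rintro _ (k | ⟨u, hu, rfl⟩) m
    · exact (h4 _ m).not_gt k.1
    rcases le_total (Q.χ (-t)) (Q.X u) with k | k
    · exact h5 u hu k m
    · refine (h4 _ m).not_gt ?_
      rw [(Q.run hu.1 hu.2.1.le (Q.R_sub hd1 hu).2 ((Q.le_dep_iff hu.1 hu.2.1.le).2 k)).2.1]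
      exact Q.χ_pos _
  · have h1 : v ∉ Q.Sig (1 / 2) ∪ Q.Gc t := by
      rintro (h | h)
      · exact hp (Q.axis_per h.1 (abs_le.2 ⟨by linarith [h.2.1], by linarith [h.2.2]⟩) hv)
      · exact hp (Q.Gc_per h hv)
    obtain ⟨ε, hε, h2⟩ := Metric.mem_nhds_iff.1
      (((Q.Sig_compact _).union (Q.Gc_compact _)).isClosed.compl_mem_nhds h1)
    refine ⟨ε, hε, fun E hE h => ?_⟩
    have h3 : Disjoint E (Q.Sig (1 / 2) ∪ Q.Gc t) := disjoint_left.2 fun w hw => h2 (h w hw 0)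
    obtain ⟨d, hd, h4⟩ := Q.av_T hE (h3.mono_right subset_union_left)
    obtain ⟨d', hd', h5⟩ := Q.avoid_R t hE (h3.mono_right subset_union_right)
    exact ⟨min d d', lt_min hd hd', disjoint_union_right.2
      ⟨h4.mono_right (Q.T_mono (min_le_left _ _)),
        h5.mono_right (image_mono (Q.R_mono (min_le_right _ _)))⟩⟩

theorem meet_TR (Q : Quad F) (t : ℕ) {d y : ℝ} (hd : 0 < d) (hy : 0 < y) :
    (Q.T d ∩ {w | Q.Y w < y} ∩ F.f^[Q.M * t] '' Q.R d).Nonempty := by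
  have h1 : Continuous fun r : ℝ => F.f^[Q.M * t] (Q.pt r r) :=
    (F.cf.iterate _).comp (Q.c_pt.comp (continuous_id.prodMk continuous_id))
  have h2 : F.f^[Q.M * t] (Q.pt 0 0) = Q.p := Q.f_p_iter t
  have h3 : ∀ᶠ r in 𝓝 (0 : ℝ), Q.X (F.f^[Q.M * t] (Q.pt r r)) < d ∧
      Q.Y (F.f^[Q.M * t] (Q.pt r r)) < min y (1 / 2) ∧ r < min (min 1 d) (Q.χ (-t)) := by
    refine Eventually.and ?_ (Eventually.and ?_ ?_)
    · exact (Q.cX.comp h1).continuousAt.eventually_lt continuousAt_const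
        (by simpa [h2, Q.p_X] using hd)
    · exact (Q.cY.comp h1).continuousAt.eventually_lt continuousAt_const
        (by simpa [h2, Q.p_Y] using hy)
    · exact gt_mem_nhds (lt_min (lt_min one_pos hd) (Q.χ_pos _))
  obtain ⟨r, ⟨k1, k2, k3⟩, r0⟩ :=
    ((h3.filter_mono nhdsWithin_le_nhds).and (self_mem_nhdsWithin (s := Ioi 0))).exists
  simp only [lt_min_iff] at k2 k3
  have hu : Q.pt r r ∈ Q.R (min 1 d) := by
    simp only [R, mem_ofPred_eq, Q.X_pt, Q.Y_pt, lt_min_iff]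
    exact ⟨r0, k3.1.1, r0, k3.1⟩
  obtain ⟨-, k4, -, k5⟩ := Q.run hu.1 hu.2.1.le (Q.R_sub (min_le_left _ _) hu).2
    ((Q.le_dep_iff hu.1 hu.2.1.le).2 (by rw [Q.X_pt]; exact k3.2.le))
  exact ⟨_, ⟨⟨k4 ▸ Q.χ_pos _, k1, k5 hu.2.2.1, k2.2⟩, k2.1⟩, _,
    Q.R_mono (min_le_right _ _) hu, rfl⟩

theorem LinkAt.meet {Q Q' : Quad F} {n : ℕ} {z : ℂ} (h : Q.LinkAt Q' n z) {d : ℝ} (hd : 0 < d)
    {O : Set ℂ} (hO : O ∈ 𝓝 (F.f^[n] z)) : (F.f^[n] '' Q.R d ∩ Q'.T d ∩ O).Nonempty := by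
  obtain ⟨h1, h2, h3, h4, h5, h6, h7⟩ := h
  have hc := F.cf.iterate n
  have h8 : ∀ᶠ u in 𝓝 z, (0 < Q.X u ∧ Q.X u < 1 ∧ Q.Y u < d) ∧ (Q'.X (F.f^[n] u) < d ∧
      0 < Q'.Y (F.f^[n] u) ∧ Q'.Y (F.f^[n] u) < 1 / 2) ∧ F.f^[n] u ∈ O :=
    ((continuousAt_const.eventually_lt Q.cX.continuousAt h1).and
      ((Q.cX.continuousAt.eventually_lt continuousAt_const h2).and
        (Q.cY.continuousAt.eventually_lt continuousAt_const (h3 ▸ hd)))).and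
      ((((Q'.cX.comp hc).continuousAt.eventually_lt continuousAt_const (h4.trans_lt hd)).and
        ((continuousAt_const.eventually_lt (Q'.cY.comp hc).continuousAt h5).and
          ((Q'.cY.comp hc).continuousAt.eventually_lt continuousAt_const h6))).and
        (hc.continuousAt.preimage_mem_nhds hO))
  obtain ⟨ε, hε, h9⟩ := Metric.mem_nhds_iff.1 h8
  obtain ⟨u, k1, k2, k3⟩ := h7 ε hε
  obtain ⟨k4, k5, k6⟩ := h9 k1
  exact ⟨_, ⟨⟨u, ⟨k4.1, k4.2.1, k2, k4.2.2⟩, rfl⟩, k3, k5⟩, k6⟩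

theorem meet_Sig (Q : Quad F) {d y : ℝ} (hd : 0 < d) (hy : 0 < y) (hy' : y ≤ 1 / 2) {v : ℂ}
    (hv : v ∈ Q.Sig y) {O : Set ℂ} (hO : O ∈ 𝓝 v) :
    (Q.T d ∩ {w | Q.Y w < y} ∩ O).Nonempty := by
  obtain ⟨h1, h2, h3⟩ := hv
  have h4 : Continuous fun r : ℝ => Q.pt r (Q.Y v + r * (y / 2 - Q.Y v)) :=
    Q.c_pt.comp (f := fun r : ℝ => (r, Q.Y v + r * (y / 2 - Q.Y v))) (by fun_prop)
  have h5 : ∀ᶠ r in 𝓝 (0 : ℝ), Q.pt r (Q.Y v + r * (y / 2 - Q.Y v)) ∈ O ∧ r < min 1 d := by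
    refine Eventually.and (h4.continuousAt.preimage_mem_nhds ?_) (gt_mem_nhds (lt_min one_pos hd))
    rwa [zero_mul, add_zero, ← h1, Q.pt_XY]
  obtain ⟨r, ⟨k1, k2⟩, r0⟩ :=
    ((h5.filter_mono nhdsWithin_le_nhds).and (self_mem_nhdsWithin (s := Ioi 0))).exists
  have r1 : 0 < r := r0
  rw [lt_min_iff] at k2
  have k3 : Q.Y v + r * (y / 2 - Q.Y v) < y := by nlinarith [k2.1]
  refine ⟨_, ⟨?_, ?_⟩, k1⟩
  · simp only [T, mem_ofPred_eq, Q.X_pt, Q.Y_pt]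
    exact ⟨r1, k2.2, by nlinarith [k2.1], k3.trans_le hy'⟩
  · simpa only [mem_ofPred_eq, Q.Y_pt] using k3

theorem Sig_disj (Q Q' : Quad F) (h : Q.p ≠ Q'.p) : Disjoint (Q.Sig 1) (Q'.Sig 1) := by
  refine disjoint_left.2 fun w hw hw' => h ?_
  have h1 := (Q.axis_tend hw.1 (Q.Sig_sub le_rfl hw).2).comp
    (tendsto_id.const_mul_atTop' Q'.M_pos)
  have h2 := (Q'.axis_tend hw'.1 (Q'.Sig_sub le_rfl hw').2).comp
    (tendsto_id.const_mul_atTop' Q.M_pos)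
  refine tendsto_nhds_unique h1 (h2.congr fun k => ?_)
  simp only [comp, id, mul_left_comm]

theorem T_off_Sig (Q Q' : Quad F) (h : Q.Compat Q') :
    ∃ d > 0, Disjoint (Q.T d) (Q'.Sig (1 / 2)) := by
  by_cases hp : Q.p = Q'.p
  · obtain ⟨a, b, h1⟩ := h hp
    refine ⟨1, one_pos, disjoint_left.2 fun w hw hw' => ?_⟩
    have h2 := (h1 w).1
    rw [hw'.1] at h2
    refine mul_ne_zero ?_ hw.1.ne' h2.symm
    cases a <;> simp [sg]
  · obtain ⟨d, hd, h1⟩ := Q.av_T (Q'.Sig_compact (1 / 2)) ((Q.Sig_disj Q' hp).symm.mono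
      (Q'.Sig_mono (by norm_num)) (Q.Sig_mono (by norm_num)))
    exact ⟨d, hd, h1.symm⟩

end Quad

end Pool.Agent.Lib.MP_3fe454_an.S2
end

-- part Pool.Agent.Lib.MP_3fe454_an.S2.PC0a
section

/-!
Edges of a cycle of quadrants.
-/

set_option autoImplicit false

open Set Metric Filter Topology Function

namespace Pool.Agent.Lib.MP_3fe454_an.S2

open PD

theorem Quad.near_vertex {F : Dis} {Q Q' : Quad F} (h : Q.Compat Q') (S : ℝ) :
    ∀ᶠ w in 𝓝 Q.p, (w ∈ Q'.Gc S → Q.Y w = 0) ∧ (Q.p ≠ Q'.p → w ∉ Q'.Sig 1) := by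
  by_cases e : Q.p = Q'.p
  · obtain ⟨a, b, hab⟩ := h e
    have hK : IsCompact (Q'.γ '' Icc 0 S) := isCompact_Icc.image Q'.γ_cont
    have hp : Q.p ∉ Q'.γ '' Icc 0 S := by
      rintro ⟨s, -, hs⟩
      exact Q'.γ_not_per s (hs ▸ Q.p_per)
    filter_upwards [hK.isClosed.isOpen_compl.mem_nhds hp] with w hw
    refine ⟨?_, fun k => absurd e k⟩
    rintro (rfl | ⟨s, hs, rfl⟩)
    · exact e ▸ Q.p_Y
    · have h0 : s ≤ 0 := by
        by_contra k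
        exact hw ⟨s, ⟨(not_le.1 k).le, hs⟩, rfl⟩
      have h1 := (Q'.mkq_loc h0).2
      rw [(hab _).2] at h1
      cases b <;> simpa [sg] using h1
  · have h1 : Q.p ∉ Q'.Gc S := fun k => e (Q'.Gc_per k Q.p_per)
    have h2 : Q.p ∉ Q'.Sig 1 := fun k =>
      e (Q'.axis_per k.1 ((abs_of_nonneg k.2.1).trans_le k.2.2) Q.p_per)
    filter_upwards [(Q'.Gc_compact S).isClosed.isOpen_compl.mem_nhds h1,
      (Q'.Sig_compact 1).isClosed.isOpen_compl.mem_nhds h2] with w a b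
    exact ⟨fun k => absurd k a, fun _ => b⟩

namespace Cyc

variable {F : Dis} (C : Cyc F)

theorem Q_mod (i : ℕ) : C.Q (i % C.k) = C.Q i ∧ C.t (i % C.k) = C.t i ∧ C.s (i % C.k) = C.s i :=
  ⟨Periodic.map_mod_nat C.Q_per i, Periodic.map_mod_nat C.t_per i, Periodic.map_mod_nat C.s_per i⟩

theorem Q_congr {i j : ℕ} (h : i ≡ j [MOD C.k]) : C.Q i = C.Q j ∧ C.t i = C.t j ∧ C.s i = C.s j := by
  have h1 := C.Q_mod i
  have h2 := C.Q_mod j
  rw [show i % C.k = j % C.k from h] at h1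
  exact ⟨h1.1.symm.trans h2.1, h1.2.1.symm.trans h2.2.1, h1.2.2.symm.trans h2.2.2⟩

/-- a positive bound which works for all indices -/
theorem unif (P : ℕ → ℝ → Prop) (hP : ∀ i d, P (i % C.k) d → P i d)
    (hm : ∀ i d d', 0 < d' → d' ≤ d → P i d → P i d') (h : ∀ i, ∃ d > 0, P i d) :
    ∃ d > 0, ∀ i, P i d := by
  have key : ∀ n : ℕ, ∃ d > 0, ∀ i < n, P i d := by
    intro n
    induction n with
    | zero => exact ⟨1, one_pos, fun i hi => absurd hi (Nat.not_lt_zero i)⟩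
    | succ n ih =>
      obtain ⟨d, hd, h1⟩ := ih
      obtain ⟨d', hd', h2⟩ := h n
      refine ⟨min d d', lt_min hd hd', fun i hi => ?_⟩
      rcases Nat.lt_succ_iff_lt_or_eq.1 hi with k | rfl
      · exact hm i d _ (lt_min hd hd') (min_le_left _ _) (h1 i k)
      · exact hm i d' _ (lt_min hd hd') (min_le_right _ _) h2
  obtain ⟨d, hd, h1⟩ := key C.k
  exact ⟨d, hd, fun i => hP i d (h1 _ (Nat.mod_lt _ C.k_pos))⟩

theorem M_pos : 0 < C.M := C.pow 0 ▸ (C.Q 0).M_pos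

theorem signs {i j : ℕ} (hp : (C.Q i).p = (C.Q j).p) (hn : ¬ i ≡ j [MOD C.k]) :
    (∀ w, (C.Q j).X w = -(C.Q i).X w ∧ (C.Q j).Y w = (C.Q i).Y w) ∨
      ∀ w, (C.Q j).Y w = -(C.Q i).Y w := by
  obtain ⟨a, b, h⟩ := C.compat i j hp
  cases b
  · exact Or.inr fun w => by simpa [sg] using (h w).2
  · cases a
    · exact Or.inl fun w => by simpa [sg] using h w
    · exact absurd (C.inj i j (Quad.Ψ_ext fun w => by
        simpa [sg, eq_comm] using h w)) hn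

theorem pc0a_push (m l n : ℕ) :
    F.f^[(C.Q (l + 1)).M * n] ((C.Q l).γ (C.sm m l)) = (C.Q l).γ (C.sm m l + n) := by
  rw [C.pow, ← C.pow l, Quad.γ_iter]

theorem pc0a_ym (m l : ℕ) : (C.Q (l + 1)).X ((C.Q l).γ (C.sm m l)) = 0 ∧ 0 < C.ym m l ∧
    C.ym m l ≤ (C.Q (l + 1)).lam ^ m * C.ym 0 l ∧ 0 < C.ym 0 l ∧ C.ym 0 l < 1 / 2 := by
  obtain ⟨-, -, -, h1, h2, h3, -⟩ := C.link l
  have e : F.f^[C.M * C.t l] ((C.Q l).γ (C.s l)) = (C.Q l).γ (C.sm 0 l) := by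
    rw [← C.pow l, Quad.γ_iter, sm]
    simp
  rw [e] at h1 h2 h3
  obtain ⟨-, k1, k2, k3⟩ := (C.Q (l + 1)).axis_fwd h1 (by rw [abs_of_pos h2]; linarith) m
  have e' : C.sm 0 l + m = C.sm m l := by simp [sm]
  rw [pc0a_push, e'] at k1 k2 k3
  rw [abs_of_pos h2] at k2
  exact ⟨k1, k3 h2, (le_abs_self _).trans k2, h2, h3⟩

theorem ym_spec (m l : ℕ) : (C.Q (l + 1)).X ((C.Q l).γ (C.sm m l)) = 0 ∧ 0 < C.ym m l ∧
    C.ym m l < 1 / 2 := by
  obtain ⟨h1, h2, h3⟩ := C.pc0a_ym m l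
  refine ⟨h1, h2, h3.1.trans_lt ?_⟩
  have h4 := pow_le_one₀ (n := m) (C.Q (l + 1)).lam_pos.le (C.Q (l + 1)).lam_lt.le
  nlinarith [h3.2.1, h3.2.2]

theorem ym_lim (l : ℕ) : Tendsto (fun m => C.ym m l) atTop (𝓝 0) := by
  have h := (tendsto_pow_atTop_nhds_zero_of_lt_one (C.Q (l + 1)).lam_pos.le
    (C.Q (l + 1)).lam_lt).mul_const (C.ym 0 l)
  rw [zero_mul] at h
  exact squeeze_zero (fun m => (C.pc0a_ym m l).2.1.le) (fun m => (C.pc0a_ym m l).2.2.1) h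

theorem on_Sig (m l n : ℕ) : (C.Q l).γ (C.sm m l + n) ∈ (C.Q (l + 1)).Sig (C.ym m l) := by
  obtain ⟨h1, h2, h3⟩ := C.ym_spec m l
  have h4 : (C.Q l).γ (C.sm m l) ∈ (C.Q (l + 1)).Sig (C.ym m l) := ⟨h1, h2.le, le_rfl⟩
  have h5 := (C.Q (l + 1)).Sig_fwd h4 (by linarith) n
  rw [pc0a_push] at h5
  refine (C.Q (l + 1)).Sig_mono ?_ h5
  exact mul_le_of_le_one_left h2.le
    (pow_le_one₀ (C.Q (l + 1)).lam_pos.le (C.Q (l + 1)).lam_lt.le)

theorem edge_compact (m l : ℕ) : IsCompact (C.Edge m l) :=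
  ((C.Q l).Gc_compact _).union ((C.Q (l + 1)).Sig_compact _)

theorem edge_conn (m l : ℕ) : IsPreconnected (C.Edge m l) := by
  obtain ⟨h1, h2, -⟩ := C.ym_spec m l
  exact IsPreconnected.union ((C.Q l).γ (C.sm m l)) (Or.inr ⟨_, mem_Iic.2 le_rfl, rfl⟩)
    ⟨h1, h2.le, le_rfl⟩ ((C.Q l).Gc_conn _) ((C.Q (l + 1)).Sig_conn _)

theorem edge_p (m l : ℕ) : (C.Q l).p ∈ C.Edge m l ∧ (C.Q (l + 1)).p ∈ C.Edge m l := by
  exact ⟨Or.inl (Or.inl rfl), Or.inr ((C.Q (l + 1)).p_mem_Sig (C.ym_spec m l).2.1.le)⟩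

theorem pc0a_edges (m : ℕ) {a b : ℕ} (h : a ≤ b) :
    IsPreconnected (insert (C.Q a).p (⋃ l ∈ Ico a b, C.Edge m l)) ∧
      (C.Q b).p ∈ insert (C.Q a).p (⋃ l ∈ Ico a b, C.Edge m l) := by
  induction b, h using Nat.le_induction with
  | base => exact ⟨by simpa using isPreconnected_singleton, Or.inl rfl⟩
  | succ b hb ih =>
    have e : insert (C.Q a).p (⋃ l ∈ Ico a (b + 1), C.Edge m l) =
        insert (C.Q a).p (⋃ l ∈ Ico a b, C.Edge m l) ∪ C.Edge m b := by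
      rw [show Ico a (b + 1) = insert b (Ico a b) by
        ext x
        simp only [mem_Ico, mem_insert_iff]
        omega, biUnion_insert, insert_union, union_comm]
    rw [e]
    exact ⟨IsPreconnected.union _ ih.2 (C.edge_p m b).1 ih.1 (C.edge_conn m b),
      Or.inr (C.edge_p m b).2⟩

theorem edges_conn (m a b : ℕ) : IsPreconnected (insert (C.Q a).p (⋃ l ∈ Ico a b, C.Edge m l)) := by
  by_cases h : a ≤ b
  · exact (C.pc0a_edges m h).1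
  · rw [Ico_eq_empty (by omega)]
    simpa using isPreconnected_singleton

theorem pc0a_J (m : ℕ) : C.J m = ⋃ l ∈ Ico 0 C.k, C.Edge m l := by
  refine Subset.antisymm (iUnion_subset fun l => ?_)
    (iUnion₂_subset fun l _ => subset_iUnion (C.Edge m) l)
  have h1 := C.Q_mod l
  have h2 := (C.Q_congr ((Nat.mod_modEq l C.k).add_right 1)).1
  have e : C.Edge m (l % C.k) = C.Edge m l := by
    simp only [Edge, ym, sm, h1.1, h1.2.1, h1.2.2, h2]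
  rw [← e]
  exact subset_biUnion_of_mem (u := C.Edge m) ⟨Nat.zero_le _, Nat.mod_lt _ C.k_pos⟩

theorem J_compact (m : ℕ) : IsCompact (C.J m) := by
  rw [pc0a_J]
  exact (finite_Ico 0 C.k).isCompact_biUnion fun l _ => C.edge_compact m l

theorem J_conn (m : ℕ) : IsPreconnected (C.J m) := by
  have h := C.edges_conn m 0 C.k
  rwa [← pc0a_J, insert_eq_of_mem (s := C.J m) (mem_iUnion.2 ⟨0, (C.edge_p m 0).1⟩)] at h

end Cyc

end Pool.Agent.Lib.MP_3fe454_an.S2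
end

-- part Pool.Agent.Lib.MP_3fe454_an.S2.PC0
section

/-!
Tubes of a cycle of quadrants.
-/

set_option autoImplicit false

open Set Metric Filter Topology Function

namespace Pool.Agent.Lib.MP_3fe454_an.S2

open PD

namespace Cyc

variable {F : Dis} (C : Cyc F)

/-- the image of a thin strip -/
def pcR (i : ℕ) (d : ℝ) : Set ℂ := F.f^[C.M * C.t i] '' (C.Q i).R d

theorem pc0_mono (i : ℕ) {d d' : ℝ} (h : d ≤ d') :
    (C.Q i).T d ∪ C.pcR i d ⊆ (C.Q i).T d' ∪ C.pcR i d' :=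
  union_subset_union ((C.Q i).T_mono h) (image_mono ((C.Q i).R_mono h))

theorem pc0_congr {i j : ℕ} (h : i ≡ j [MOD C.k]) : C.pcR i = C.pcR j := by
  funext d
  rw [pcR, pcR, (C.Q_congr h).1, (C.Q_congr h).2.1]

theorem pc0_R (i : ℕ) (d : ℝ) : IsPreconnected (C.pcR i d) :=
  ((C.Q i).R_conn d).image _ (F.cf.iterate _).continuousOn

theorem pc0_TR (i : ℕ) {d y : ℝ} (hd : 0 < d) (hy : 0 < y) :
    ((C.Q i).T d ∩ {w | (C.Q i).Y w < y} ∩ C.pcR i d).Nonempty := by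
  rw [pcR, ← C.pow i]
  exact (C.Q i).meet_TR (C.t i) hd hy

theorem pc0_V (i : ℕ) {d : ℝ} (hd : 0 < d) : IsPreconnected ((C.Q i).T d ∪ C.pcR i d) :=
  IsPreconnected.union' ((C.pc0_TR i hd one_pos).mono fun _ h => ⟨h.1.1, h.2⟩)
    ((C.Q i).T_conn d) (C.pc0_R i d)

theorem pc0_RT (i : ℕ) {d : ℝ} (hd : 0 < d) : (C.pcR i d ∩ (C.Q (i + 1)).T d).Nonempty :=
  ((C.link i).meet hd univ_mem).mono inter_subset_left

theorem pc0_res (a i : ℕ) : ∃ n < C.k, a + n ≡ i [MOD C.k] := by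
  refine ⟨(i + C.k * a - a) % C.k, Nat.mod_lt _ C.k_pos,
    ((Nat.mod_modEq _ _).add_left a).trans ?_⟩
  have := Nat.le_mul_of_pos_left a C.k_pos
  rw [show a + (i + C.k * a - a) = i + C.k * a by omega]
  simp [Nat.ModEq]

theorem tube_mono {d d' : ℝ} (h : d ≤ d') : C.Tube d ⊆ C.Tube d' :=
  iUnion_mono fun i => C.pc0_mono i h

theorem tube_conn {d : ℝ} (hd : 0 < d) : IsPreconnected (C.Tube d) :=
  IsPreconnected.iUnion_of_chain (fun i => C.pc0_V i hd) fun i =>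
    (C.pc0_RT i hd).mono fun _ h => ⟨.inr h.1, .inl h.2⟩

theorem cut_conn (l : ℕ) {d y : ℝ} (hd : 0 < d) (hy : 0 < y) (hy' : y < C.ym 0 l) :
    IsPreconnected (C.Cut l d y) := by
  have h2 := hy'.trans (C.ym_spec 0 l).2.2
  have hA := IsPreconnected.biUnion_of_chain (t := Iio C.k)
    (s := fun n => {w | n ≠ 0 ∧ w ∈ (C.Q (l + 1 + n)).T d} ∪ C.pcR (l + 1 + n) d)
    ordConnected_Iio (fun n _ => by
      by_cases h : n = 0
      · simpa [h] using C.pc0_R (l + 1) d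
      · simpa [h] using C.pc0_V (l + 1 + n) hd)
    fun n _ _ => (C.pc0_RT (l + 1 + n) hd).mono fun _ h => ⟨.inr h.1, .inl ⟨n.succ_ne_zero, h.2⟩⟩
  set A := ⋃ n ∈ Iio C.k, ({w | n ≠ 0 ∧ w ∈ (C.Q (l + 1 + n)).T d} ∪ C.pcR (l + 1 + n) d) with e
  have hR : ∀ i, C.pcR i d ⊆ A := fun i w hw => by
    obtain ⟨n, hn, k⟩ := C.pc0_res (l + 1) i
    exact mem_biUnion hn (.inr (C.pc0_congr k ▸ hw))
  have hL := (C.Q (l + 1)).rect_conn (isPreconnected_Ioo (a := 0) (b := d))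
    (isPreconnected_Ioo (a := 0) (b := y))
  have hU := (C.Q (l + 1)).rect_conn (isPreconnected_Ioo (a := 0) (b := d))
    (isPreconnected_Ioo (a := y) (b := 1 / 2))
  have hO : {w | y < (C.Q (l + 1)).Y w} ∈ 𝓝 (F.f^[C.M * C.t l] ((C.Q l).γ (C.s l))) := by
    refine (isOpen_lt continuous_const (C.Q (l + 1)).cY).mem_nhds ?_
    rw [← C.pow l, Quad.γ_iter]
    simpa [ym, sm] using hy'
  obtain ⟨u, hu⟩ := C.pc0_TR (l + 1) hd hy
  obtain ⟨v, hv⟩ := (C.link l).meet hd hO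
  have k1 := fun h => hA.union u (hR _ hu.2) h hL
  have k2 := fun h => (k1 ⟨⟨hu.1.1.1, hu.1.1.2.1⟩, hu.1.1.2.2.1, hu.1.2⟩).union v
    (.inl (hR l hv.1.1)) h hU
  replace k2 := k2 ⟨⟨hv.1.2.1, hv.1.2.2.1⟩, hv.2, hv.1.2.2.2.2⟩
  convert k2 using 1
  refine Subset.antisymm ?_ ?_
  · rintro w ((h | h) | h)
    · obtain ⟨i, hi⟩ := mem_iUnion.1 h
      exact .inl (.inl (hR i hi))
    · obtain ⟨i, hi, hw⟩ := mem_iUnion₂.1 h
      obtain ⟨n, hn, k⟩ := C.pc0_res (l + 1) i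
      refine .inl (.inl (mem_biUnion hn (.inl ⟨?_, (C.Q_congr k).1 ▸ hw⟩)))
      rintro rfl
      exact hi k.symm
    · rcases lt_or_gt_of_ne h.2 with k | k
      · exact .inl (.inr ⟨⟨h.1.1, h.1.2.1⟩, h.1.2.2.1, k⟩)
      · exact .inr ⟨⟨h.1.1, h.1.2.1⟩, k, h.1.2.2.2⟩
  · rintro w ((h | h) | h)
    · obtain ⟨n, hn, h | h⟩ := mem_iUnion₂.1 h
      · refine .inl (.inr (mem_biUnion (fun k => ?_) h.2))
        have := Nat.ModEq.add_left_cancel' (l + 1) (show l + 1 + n ≡ l + 1 + 0 [MOD C.k] from k)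
        exact h.1 (Nat.eq_zero_of_dvd_of_lt (Nat.modEq_zero_iff_dvd.1 this) hn)
      · exact .inl (.inl (mem_iUnion.2 ⟨_, h⟩))
    · exact .inr ⟨⟨h.1.1, h.1.2, h.2.1, h.2.2.trans h2⟩, h.2.2.ne⟩
    · exact .inr ⟨⟨h.1.1, h.1.2, hy.trans h.2.1, h.2.2⟩, h.2.1.ne'⟩

theorem pc0_mod (i : ℕ) (d : ℝ) :
    (C.Q (i % C.k)).T d ∪ C.pcR (i % C.k) d = (C.Q i).T d ∪ C.pcR i d := by
  rw [(C.Q_mod i).1, C.pc0_congr (Nat.mod_modEq i C.k)]

theorem pc0_unif (E : Quad F → Set ℂ)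
    (h : ∀ l i, ∃ d > 0, Disjoint (E (C.Q l)) ((C.Q i).T d ∪ C.pcR i d)) :
    ∃ d > 0, ∀ l, Disjoint (C.Tube d) (E (C.Q l)) := by
  refine C.unif (fun l d => Disjoint (C.Tube d) (E (C.Q l))) (fun l d k => (C.Q_mod l).1 ▸ k)
    (fun l d d' _ e k => k.mono_left (C.tube_mono e)) fun l => ?_
  obtain ⟨d, hd, k⟩ := C.unif (fun i d => Disjoint (E (C.Q l)) ((C.Q i).T d ∪ C.pcR i d))
    (fun i d k => C.pc0_mod i d ▸ k) (fun i d d' _ e k => k.mono_right (C.pc0_mono i e)) (h l)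
  exact ⟨d, hd, disjoint_iUnion_left.2 fun i => (k i).symm⟩

theorem pc0_sig (l i : ℕ) : ∃ y > 0, y ≤ 1 / 2 ∧
    ∃ d > 0, Disjoint ((C.Q l).Sig y) ((C.Q i).T d ∪ C.pcR i d) := by
  obtain ⟨ε, hε, h⟩ := (C.Q i).tv (C.t i) (C.Q l).p_per
  obtain ⟨y, y0, y1, k⟩ := (C.Q l).Sig_tiny (ball_mem_nhds _ hε)
  refine ⟨y, y0, y1, ?_⟩
  have := h _ ((C.Q l).Sig_compact y) fun w hw n => k ((C.Q l).Sig_mono
    (mul_le_of_le_one_left y0.le (pow_le_one₀ (C.Q l).lam_pos.le (C.Q l).lam_lt.le))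
    (by rw [C.pow i, ← C.pow l]; exact (C.Q l).Sig_fwd hw (by linarith) n))
  rwa [C.pow i] at this

theorem pc0_sm (m l : ℕ) : C.sm m (l % C.k) = C.sm m l ∧ C.ym m (l % C.k) = C.ym m l := by
  have e : C.sm m (l % C.k) = C.sm m l := by rw [sm, sm, (C.Q_mod l).2.1, (C.Q_mod l).2.2]
  exact ⟨e, by rw [ym, ym, e, (C.Q_mod l).1, (C.Q_congr ((Nat.mod_modEq l C.k).add_right 1)).1]⟩

theorem exists_good : ∃ y0 m0, ∀ m ≥ m0, C.Good y0 m := by
  obtain ⟨y, y0, hy⟩ := C.unif (fun l y => ∀ i, y ≤ 1 / 2 ∧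
      ∃ d > 0, Disjoint ((C.Q l).Sig y) ((C.Q i).T d ∪ C.pcR i d))
    (fun l d k => (C.Q_mod l).1 ▸ k)
    (fun l y y' _ e k i => ⟨e.trans (k i).1, (k i).2.imp fun d h =>
      ⟨h.1, h.2.mono_left ((C.Q l).Sig_mono e)⟩⟩)
    fun l => C.unif _ (fun i y k => ⟨k.1, k.2.imp fun d h => ⟨h.1, C.pc0_mod i d ▸ h.2⟩⟩)
      (fun i y y' _ e k => ⟨e.trans k.1, k.2.imp fun d h =>
        ⟨h.1, h.2.mono_left ((C.Q l).Sig_mono e)⟩⟩) (C.pc0_sig l)
  obtain ⟨m0, hm⟩ := eventually_atTop.1 ((eventually_all_finset (Finset.range C.k)).2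
    fun l _ => (C.ym_lim l).eventually (ge_mem_nhds y0))
  refine ⟨y, m0, fun m h => ⟨y0, (hy 0 0).1, fun l => (C.pc0_sm m l).2 ▸
    hm m h _ (Finset.mem_range.2 (Nat.mod_lt _ C.k_pos)), fun s => ?_⟩⟩
  refine C.pc0_unif (fun Q => Q.Gc s ∪ Q.Sig y) fun l i => ?_
  have hM := (C.pow l).trans (C.pow i).symm
  obtain ⟨d1, p1, h1⟩ := (hy l i).2
  obtain ⟨d2, p2, h2⟩ := (C.Q l).nh (C.Q i) hM (C.nohon l i) s
  obtain ⟨d3, p3, h3⟩ := (C.Q l).nh2 (C.Q i) hM 0 (C.t i) s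
  rw [iterate_zero, image_id] at h2 h3
  rw [C.pow i] at h3
  refine ⟨min d1 (min d2 d3), by positivity, disjoint_union_left.2 ⟨disjoint_union_right.2
    ⟨h2.mono_right ((C.Q i).T_mono (by simp)), h3.mono_right (image_mono ((C.Q i).R_mono
      (by simp)))⟩, h1.mono_right (C.pc0_mono i (min_le_left _ _))⟩⟩

theorem Good.offJ {C : Cyc F} {y0 : ℝ} {m : ℕ} (h : C.Good y0 m) :
    ∃ d > 0, Disjoint (C.Tube d) (C.J m) := by
  obtain ⟨s, hs⟩ := (finite_range fun l : Fin C.k => C.sm m l).bddAbove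
  obtain ⟨d, hd, k⟩ := h.2.2.2 s
  refine ⟨d, hd, disjoint_iUnion_right.2 fun l => disjoint_union_right.2
    ⟨(k l).mono_right (((C.Q l).Gc_mono ?_).trans subset_union_left),
      (k (l + 1)).mono_right (((C.Q _).Sig_mono (h.2.2.1 l)).trans subset_union_right)⟩⟩
  exact (C.pc0_sm m l).1 ▸ hs ⟨⟨l % C.k, Nat.mod_lt _ C.k_pos⟩, rfl⟩

end Cyc

end Pool.Agent.Lib.MP_3fe454_an.S2
end
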