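import Pool.Agent.Lib.MP_3fe454_an.S2.BE2
import Pool.Agent.Lib.MP_3fe454_an.S2.PC0
import Pool.Agent.Lib.MP_3fe454_an.S2.CL2
import Pool.Agent.Lib.MP_3fe454_an.S2.Mdl3

-- part Pool.Agent.Lib.MP_3fe454_an.S2.BE3
section

/-!
The next element after a stay.
-/

set_option autoImplicit false

open Set Metric Filter Topology Function

namespace Pool.Agent.Lib.MP_3fe454_an.S2

open PD

theorem be3_mono (φ : ℝ ≃o ℝ) (b : Bool) (x y : ℝ) :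
    0 ≤ sg b * (φ x - φ y) ↔ 0 ≤ sg b * (x - y) := by
  cases b <;> simp [sg]

theorem be3_uIcc {b : Bool} {a c x : ℝ} (h : 0 ≤ sg b * (c - a)) :
    x ∈ uIcc a c ↔ 0 ≤ sg b * (x - a) ∧ 0 ≤ sg b * (c - x) := by
  cases b
  · simp only [sg, Bool.false_eq_true, if_false] at h ⊢
    rw [uIcc_of_ge (by linarith), mem_Icc]
    constructor <;> rintro ⟨h1, h2⟩ <;> constructor <;> linarith
  · simp only [sg, if_true] at h ⊢
    rw [uIcc_of_le (by linarith), mem_Icc]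
    constructor <;> rintro ⟨h1, h2⟩ <;> constructor <;> linarith

theorem be3_eq {b : Bool} {x y : ℝ} (h : 0 ≤ sg b * (x - y)) (h' : 0 ≤ sg b * (y - x)) : x = y := by
  cases b <;> simp only [sg, Bool.false_eq_true, if_false, if_true] at h h' <;> linarith

theorem be3_abs {b : Bool} {x : ℝ} (h : -(1 / 4) ≤ sg b * x) (h' : sg b * x ≤ 3 / 4) :
    |x| ≤ 3 / 4 := by
  rw [← mkq_abs b x, abs_le]; constructor <;> linarith

theorem be3_le {b : Bool} {x : ℝ} (h : |x| ≤ 1 / 4) : -(1 / 4) ≤ sg b * x ∧ sg b * x ≤ 1 / 4 := by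
  rw [← mkq_abs b x, abs_le] at h; exact h

/-- parametrisation of a horizontal arc -/
noncomputable def be3_seg {F : Dis} (B : Box F) (a c τ : ℝ) : ℂ := B.pt (a + τ * (c - a)) 0

theorem be3_cont {F : Dis} (B : Box F) (a c : ℝ) : Continuous (be3_seg B a c) := by
  have h : Continuous fun τ : ℝ => ((a + τ * (c - a), 0) : ℝ × ℝ) := by fun_prop
  exact B.c_pt.comp h

theorem be3_inj {F : Dis} (B : Box F) {a c : ℝ} (h : a ≠ c) : Injective (be3_seg B a c) := by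
  intro τ τ' e
  have := congrArg B.X e
  simp only [be3_seg, B.X_pt] at this
  have h2 : (τ - τ') * (c - a) = 0 := by linarith
  rcases mul_eq_zero.1 h2 with h3 | h3
  · linarith
  · exact absurd (by linarith) h

theorem be3_img {F : Dis} (B : Box F) (a c : ℝ) : be3_seg B a c '' Icc 0 1 = B.Arc a c := by
  ext w
  have hs := segment_eq_image' ℝ a c
  rw [segment_eq_uIcc] at hs
  constructor
  · rintro ⟨τ, hτ, rfl⟩
    refine ⟨B.Y_pt _ _, ?_⟩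
    rw [hs]
    exact ⟨τ, hτ, by simp only [be3_seg, B.X_pt, smul_eq_mul]⟩
  · rintro ⟨hY, hX⟩
    rw [hs] at hX
    obtain ⟨τ, hτ, e⟩ := hX
    refine ⟨τ, hτ, B.ext_XY ?_ ?_⟩
    · simp only [be3_seg, B.X_pt]; simpa only [smul_eq_mul] using e
    · simp only [be3_seg, B.Y_pt, hY]

theorem be3_zero {F : Dis} (B : Box F) (a c : ℝ) : be3_seg B a c 0 = B.pt a 0 := by
  simp [be3_seg]

theorem be3_one {F : Dis} (B : Box F) (a c : ℝ) : be3_seg B a c 1 = B.pt c 0 := by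
  simp [be3_seg]

theorem be3_cc {F : Dis} (B : Box F) (a c : ℝ) :
    IsCompact (B.Arc a c) ∧ IsPreconnected (B.Arc a c) := by
  rw [← be3_img]
  exact ⟨isCompact_Icc.image (be3_cont B a c),
    isPreconnected_Icc.image _ (be3_cont B a c).continuousOn⟩

theorem be3_pt {F : Dis} (B : Box F) {w : ℂ} (h : B.Y w = 0) : B.pt (B.X w) 0 = w := by
  rw [← h, B.pt_XY]

theorem be3_sub {F : Dis} (B : Box F) {a c : ℝ} (h : a ≠ c) (hΛ : B.Arc a c ⊆ F.Λ) {K : Set ℂ}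
    (hK : IsCompact K) (hK' : IsPreconnected K) (hKΛ : K ⊆ F.Λ) (ha : B.pt a 0 ∈ K)
    (hc : B.pt c 0 ∈ K) : B.Arc a c ⊆ K := by
  have := arc_sub F hK hK' hKΛ (e := be3_seg B a c) (a := 0) (b := 1)
    (be3_cont B a c).continuousOn (be3_inj B h).injOn
    (fun τ hτ => hΛ (by rw [← be3_img]; exact ⟨τ, hτ, rfl⟩))
    (by rw [be3_zero]; exact ha) (by rw [be3_one]; exact hc)
  rw [← be3_img]; exact this.image_subset

theorem be3_f {F : Dis} {B : Box F} (hB : B.Full) {x : ℝ} (hx : |x| ≤ 1) :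
    F.f^[B.M] (B.pt x 0) = B.pt (B.φ x) 0 := by
  rw [hB _ ⟨by rw [B.X_pt]; exact hx, by rw [B.Y_pt]; simp⟩, B.Gt_pt]

theorem be3_Λ {F : Dis} {B : Box F} (hB : B.Full) {a c : ℝ} (ha : B.φ a = a) (hc : B.φ c = c)
    (h1 : ∀ x ∈ uIcc a c, |x| ≤ 1) : B.Arc a c ⊆ F.Λ := by
  have hs : ∀ x ∈ uIcc a c, B.φ.symm x ∈ uIcc a c := by
    intro x hx
    have e1 : B.φ.symm a = a := by rw [← ha, B.φ.symm_apply_apply, ha]
    have e2 : B.φ.symm c = c := by rw [← hc, B.φ.symm_apply_apply, hc]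
    have := B.φ.symm.monotone.mapsTo_uIcc (a := a) (b := c) hx
    rwa [e1, e2] at this
  have key : ∀ n : ℕ, ∀ x ∈ uIcc a c, B.pt x 0 ∈ F.Ω (B.M * n) := by
    intro n
    induction n with
    | zero =>
      intro x hx
      exact ⟨B.pt x 0, ball_subset_closedBall
        (B.S_sub ⟨by rw [B.X_pt]; exact h1 x hx, by rw [B.Y_pt]; simp⟩), rfl⟩
    | succ n ih =>
      intro x hx
      obtain ⟨z, hz, e⟩ := ih _ (hs x hx)
      refine ⟨z, hz, ?_⟩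
      have e' : F.f^[B.M * n] z = B.pt (B.φ.symm x) 0 := e
      show F.f^[B.M * (n + 1)] z = _
      rw [mul_add, mul_one, add_comm, iterate_add_apply, e', be3_f hB (h1 _ (hs x hx)),
        B.φ.apply_symm_apply]
  intro w hw
  refine mem_iInter.2 fun n => F.Ω_anti (Nat.le_mul_of_pos_left n B.M_pos) ?_
  have := key n _ hw.2
  rwa [be3_pt B hw.1] at this

namespace BD

variable {F : Dis} {At : Atlas F} {M0 : ℕ} {D : BD At M0} {q : periodicPts F.f} {t e : ℕ → ℕ}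
  {B : Box F} {sh : Bool}

theorem exists_last (hB : At.L q = Sum.inr B) (sh : Bool) :
    ∃ ζ, Last B sh ζ ∧ 0 ≤ sg sh * (ζ - B.X q) := by
  obtain ⟨-, -, hX, -, hG⟩ := Atlas.mkq_ok hB
  have hφ : B.φ (B.X q) = B.X q := by rw [← B.X_Gt, hG]
  have hb := be3_le (b := sh) hX
  have hc : IsCompact {x : ℝ | B.φ x = x ∧ sg sh * x ≤ 3 / 4 ∧ sg sh * B.X q ≤ sg sh * x} := by
    refine (isCompact_Icc (a := -(3 / 4 : ℝ)) (b := 3 / 4)).of_isClosed_subset ?_ ?_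
    · exact (isClosed_eq B.φ.continuous continuous_id).inter
        ((isClosed_le (continuous_const.mul continuous_id) continuous_const).inter
          (isClosed_le continuous_const (continuous_const.mul continuous_id)))
    · rintro x ⟨-, h1, h2⟩
      exact abs_le.1 (be3_abs (b := sh) (by linarith [hb.1]) h1)
  obtain ⟨ζ, ⟨h1, h2, h3⟩, hm⟩ := hc.exists_isMaxOn (f := fun x => sg sh * x)
    ⟨B.X q, hφ, by linarith [hb.2], le_rfl⟩ (by fun_prop)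
  refine ⟨ζ, ⟨h1, h2, fun x hx hx' => ?_⟩, by linarith⟩
  by_cases h : sg sh * B.X q ≤ sg sh * x
  · exact hm ⟨hx, hx', h⟩
  · linarith

theorem Last.unique {ζ ζ' : ℝ} (h : Last B sh ζ) (h' : Last B sh ζ') : ζ = ζ' :=
  be3_eq (b := sh) (by linarith [h.2.2 _ h'.1 h'.2.1]) (by linarith [h'.2.2 _ h.1 h.2.1])

theorem be3_M (hA : At.Fin M0) (hB : At.L q = Sum.inr B) : B.M = M0 := by
  have := hA.2 q
  unfold Atlas.M at this
  rw [hB] at this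
  exact this

theorem be3_hit {c : ℂ} (h : D.Stay c t B sh e) {x : ℝ} (hx : B.φ x = x)
    (h0 : 0 < sg sh * (x - B.X c)) (h1 : sg sh * x ≤ 7 / 8) :
    ∃ s : ℕ → ℕ, (∀ᶠ R in D.U, t R ≤ s R ∧ s R ≤ e R) ∧ D.Lim s (B.pt x 0) := by
  obtain ⟨s, u, hs, hu, k1, k2⟩ := h.2.2.2.2.2.1 x h0 h1
  have k3 : 0 ≤ sg sh * (B.X u - x) := (be3_mono B.φ sh _ _).1 (by rwa [hx])
  have e1 := be3_eq k1 k3
  have e2 := be3_pt B (h.2.2.1 s u hs hu)
  rw [← e1] at e2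
  exact ⟨s, hs, e2 ▸ hu⟩

theorem be3_arc (hB : At.L q = Sum.inr B) (h : D.Stay q t B sh e)
    (hg : ¬ B.Gap (B.X q) sh) {ζ : ℝ} (hζ : Last B sh ζ) :
    0 < sg sh * (ζ - B.X q) ∧ (∀ x ∈ uIcc (B.X q) ζ, |x| ≤ 3 / 4 ∧ sg sh * x ≤ 3 / 4 ∧
      0 ≤ sg sh * (B.φ x - x)) ∧ B.Arc (B.X q) ζ ⊆ F.Λ := by
  obtain ⟨hF, -, hX, -, hG⟩ := Atlas.mkq_ok hB
  have hφ : B.φ (B.X q) = B.X q := by rw [← B.X_Gt, hG]
  have hb := be3_le (b := sh) hX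
  have hsq := mkq_sq sh
  have h0 : 0 < sg sh * (ζ - B.X q) := by
    unfold Box.Gap at hg
    push Not at hg
    obtain ⟨x, ⟨hx0, hx1⟩, hx⟩ := hg
    have e1 : sg sh * (B.X q + sg sh * x) = sg sh * B.X q + x := by
      rw [mul_add, ← mul_assoc, hsq, one_mul]
    have k := h.2.2.2.2.1 (B.X q + sg sh * x) (by rw [mul_sub, e1]; linarith)
      (by rw [e1]; linarith [hb.2])
    have e2 : B.φ (B.X q + sg sh * x) = B.X q + sg sh * x :=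
      be3_eq (b := sh) k (by rw [← neg_sub, mul_neg]; linarith)
    have := hζ.2.2 _ e2 (by rw [e1]; linarith [hb.2])
    rw [e1] at this
    rw [mul_sub]; linarith
  have h1 : ∀ x ∈ uIcc (B.X q) ζ, |x| ≤ 3 / 4 ∧ sg sh * x ≤ 3 / 4 ∧
      0 ≤ sg sh * (B.φ x - x) := by
    intro x hx
    obtain ⟨k1, k2⟩ := (be3_uIcc h0.le).1 hx
    have k3 : sg sh * x ≤ 3 / 4 := by
      rw [mul_sub] at k2; linarith [hζ.2.1]
    refine ⟨be3_abs (b := sh) ?_ k3, k3, h.2.2.2.2.1 x k1 (by linarith)⟩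
    rw [mul_sub] at k1; linarith [hb.1]
  exact ⟨h0, h1, be3_Λ hF hφ hζ.1 fun x hx => (h1 x hx).1.trans (by norm_num)⟩

theorem next_branch (hp : HP F) (hA : At.Fin M0) (hB : At.L q = Sum.inr B)
    (h : D.Stay q t B sh e) {sv : Bool} {Q : Quad F} (hQ : At.IsQ q sh sv Q) :
    ∃ (q' : periodicPts F.f) (t' : ℕ → ℕ), D.Early t' ∧ D.Lim t' q' ∧ (q' : ℂ) ∈ Q.om := by
  obtain ⟨-, -, hX, -, hG⟩ := Atlas.mkq_ok hB
  have hφ : B.φ (B.X q) = B.X q := by rw [← B.X_Gt, hG]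
  have hb := be3_le (b := sh) hX
  have hsq := mkq_sq sh
  have hM := be3_M hA hB
  obtain ⟨B1, hB1, hq⟩ := hQ
  have eB : B1 = B := Sum.inr.inj (hB1.symm.trans hB)
  subst eB
  have e1 : sg sh * (B1.X q + sg sh * (1 / 4)) = sg sh * B1.X q + 1 / 4 := by
    rw [mul_add, ← mul_assoc, hsq, one_mul]
  obtain ⟨s, u, hs, hu, k1, k2⟩ := h.2.2.2.2.2.1 (B1.X q + sg sh * (1 / 4))
    (by rw [mul_sub, e1]; linarith) (by rw [e1]; linarith [hb.2])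
  have hY := h.2.2.1 s u hs hu
  rw [mul_sub, e1] at k1 k2
  have k3 : 0 < sg sh * (B1.X u - B1.X q) := by
    by_contra hn
    have hn' : 0 ≤ sg sh * (B1.X q - B1.X u) := by
      rw [← neg_sub, mul_neg]; linarith
    have := (be3_mono B1.φ sh _ _).2 hn'
    rw [hφ, mul_sub] at this
    linarith
  have hXu := (hq.2.2 u).1
  have hYu := (hq.2.2 u).2
  have hu' := Q.loc_mem (z := u) (by rw [hXu, mul_assoc]; linarith)
    (by rw [hXu, mul_assoc, mul_sub]; linarith) (by rw [hYu, hY, mul_zero])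
  obtain ⟨q', t', h1, h2, h3⟩ := Early.hit hp (hM ▸ B1.M_pos)
    (h.2.1 s (hs.mono fun R k => k.2)) hu
  refine ⟨q', t', h1, h2, Q.om_of_cluster (s := -Q.dep (Q.X u)) ?_⟩
  rw [← hu', hq.1, hM]
  exact h3

theorem next_arc (hA : At.Fin M0) (hB : At.L q = Sum.inr B) (h : D.Stay q t B sh e)
    (hg : ¬ B.Gap (B.X q) sh) {ζ : ℝ} (hζ : Last B sh ζ) :
    ArcE F M0 q (B.pt ζ 0) (B.Arc (B.X q) ζ) ∧ B.pt ζ 0 ∈ periodicPts F.f ∧
      ∃ t' : ℕ → ℕ, (∀ᶠ R in D.U, t R ≤ t' R ∧ t' R ≤ e R) ∧ D.Lim t' (B.pt ζ 0) := by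
  obtain ⟨hF, -, hX, hY, hG⟩ := Atlas.mkq_ok hB
  have hφ : B.φ (B.X q) = B.X q := by rw [← B.X_Gt, hG]
  obtain ⟨h0, h1, h2⟩ := be3_arc hB h hg hζ
  have hM := be3_M hA hB
  have hne : B.X q ≠ ζ := by
    intro e; rw [e, sub_self, mul_zero] at h0; exact lt_irrefl _ h0
  have hs := segment_eq_image' ℝ (B.X q) ζ
  rw [segment_eq_uIcc] at hs
  have hζ1 : |ζ| ≤ 1 := (h1 ζ right_mem_uIcc).1.trans (by norm_num)
  refine ⟨⟨be3_seg B (B.X q) ζ, (be3_cont B _ _).continuousOn, (be3_inj B hne).injOn, ?_,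
    be3_one B _ _, (be3_img B _ _).symm, h2, fun τ hτ => ?_⟩, ?_,
    be3_hit h hζ.1 h0 (by linarith [hζ.2.1])⟩
  · rw [be3_zero, be3_pt B hY]
  · have hx : B.X q + τ * (ζ - B.X q) ∈ uIcc (B.X q) ζ := by
      rw [hs]; exact ⟨τ, hτ, by simp only [smul_eq_mul]⟩
    constructor
    · have hy := B.φ.monotone.mapsTo_uIcc (a := B.X q) (b := ζ) hx
      rw [hφ, hζ.1, hs] at hy
      obtain ⟨τ', hτ', e'⟩ := hy
      simp only [smul_eq_mul] at e'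
      refine ⟨τ', ⟨?_, hτ'.2⟩, ?_⟩
      · have k := (h1 _ hx).2.2
        rw [← e'] at k
        have k' : 0 ≤ (τ' - τ) * (sg sh * (ζ - B.X q)) := by
          exact k.trans_eq (by ring)
        have := nonneg_of_mul_nonneg_left k' h0
        linarith
      · rw [← hM, be3_seg, be3_f hF ((h1 _ hx).1.trans (by norm_num)), be3_seg, e']
    · have e1 : B.φ.symm (B.X q) = B.X q := by rw [← hφ, B.φ.symm_apply_apply, hφ]
      have e2 : B.φ.symm ζ = ζ := by rw [← hζ.1, B.φ.symm_apply_apply, hζ.1]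
      have hy := B.φ.symm.monotone.mapsTo_uIcc (a := B.X q) (b := ζ) hx
      rw [e1, e2] at hy
      have k := (h1 _ hy).2.2
      have k0 := (h1 _ hy).1
      rw [hs] at hy
      obtain ⟨τ', hτ', e'⟩ := hy
      simp only [smul_eq_mul] at e'
      rw [B.φ.apply_symm_apply, ← e'] at k
      refine ⟨τ', ⟨hτ'.1, ?_⟩, ?_⟩
      · have k' : 0 ≤ (τ - τ') * (sg sh * (ζ - B.X q)) := by
          exact k.trans_eq (by ring)
        have := nonneg_of_mul_nonneg_left k' h0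
        linarith
      · rw [← hM, be3_seg, e', be3_f hF (k0.trans (by norm_num)), B.φ.apply_symm_apply, be3_seg]
  · exact mk_mem_periodicPts B.M_pos (B.fix_pt hζ.1 hζ1)

theorem no_overlap (hA : At.Fin M0) (hB : At.L q = Sum.inr B) (h : D.Stay q t B sh e)
    (hg : ¬ B.Gap (B.X q) sh) {ζ : ℝ} (hζ : Last B sh ζ) {q' : periodicPts F.f}
    (hq' : (q' : ℂ) = B.pt ζ 0) {t' e' : ℕ → ℕ} (ht' : ∀ᶠ R in D.U, t R ≤ t' R ∧ t' R ≤ e R)
    (hl : D.Lim t' q') {B' : Box F} {sh' : Bool} (hB' : At.L q' = Sum.inr B')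
    (h' : D.Stay q' t' B' sh' e') (hg' : ¬ B'.Gap (B'.X q') sh') {ζ' : ℝ} (hζ' : Last B' sh' ζ') :
    B.Arc (B.X q) ζ ∩ B'.Arc (B'.X q') ζ' ⊆ {(q' : ℂ)} := by
  rintro u ⟨hu, hu'⟩
  by_contra hne
  have hne : u ≠ q' := hne
  obtain ⟨hF, -, -, -, hG⟩ := Atlas.mkq_ok hB
  obtain ⟨hF', -, -, hY', -⟩ := Atlas.mkq_ok hB'
  have hφ : B.φ (B.X q) = B.X q := by rw [← B.X_Gt, hG]
  obtain ⟨h0, h1, h2⟩ := be3_arc hB h hg hζ
  obtain ⟨h0', h1', h2'⟩ := be3_arc hB' h' hg' hζ'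
  have hM := be3_M hA hB
  have hM' := be3_M hA hB'
  have eu := be3_pt B hu.1
  have eu' := be3_pt B' hu'.1
  have eq' := be3_pt B' hY'
  have n1 : B'.X q' ≠ B'.X u := fun e => hne (by rw [← eu', ← e, eq'])
  have n2 : B.X u ≠ ζ := fun e => hne (by rw [← eu, e, hq'])
  have sI : B'.Arc (B'.X q') (B'.X u) ⊆ B'.Arc (B'.X q') ζ' := fun w hw =>
    ⟨hw.1, uIcc_subset_uIcc left_mem_uIcc hu'.2 hw.2⟩
  have sJ : B.Arc (B.X u) ζ ⊆ B.Arc (B.X q) ζ := fun w hw =>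
    ⟨hw.1, uIcc_subset_uIcc hu.2 right_mem_uIcc hw.2⟩
  have hI : B'.Arc (B'.X q') (B'.X u) ⊆ B.Arc (B.X q) ζ :=
    be3_sub B' n1 (sI.trans h2') (be3_cc B _ _).1 (be3_cc B _ _).2 h2
      (by rw [eq', hq']; exact ⟨B.Y_pt _ _, by rw [B.X_pt]; exact right_mem_uIcc⟩)
      (by rw [eu']; exact hu)
  have hJ : B.Arc (B.X u) ζ ⊆ B'.Arc (B'.X q') (B'.X u) :=
    be3_sub B n2 (sJ.trans h2) (be3_cc B' _ _).1 (be3_cc B' _ _).2 (sI.trans h2')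
      (by rw [eu]; exact ⟨hu'.1, right_mem_uIcc⟩)
      (by rw [← hq']; exact ⟨hY', left_mem_uIcc⟩)
  obtain ⟨a1, a2⟩ := (be3_uIcc h0.le).1 hu.2
  obtain ⟨b1, b2⟩ := (be3_uIcc h0'.le).1 hu'.2
  have f1 : F.f^[M0] u = B.pt (B.φ (B.X u)) 0 := by
    rw [← be3_f hF ((h1 _ hu.2).1.trans (by norm_num)), eu, hM]
  have f2 : F.f^[M0] u = B'.pt (B'.φ (B'.X u)) 0 := by
    rw [← be3_f hF' ((h1' _ hu'.2).1.trans (by norm_num)), eu', hM']
  have m1 : F.f^[M0] u ∈ B.Arc (B.X u) ζ := by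
    rw [f1]
    refine ⟨B.Y_pt _ _, ?_⟩
    rw [B.X_pt]
    refine (be3_uIcc a2).2 ⟨(h1 _ hu.2).2.2, ?_⟩
    have := (be3_mono B.φ sh _ _).2 a2
    rwa [hζ.1] at this
  have m2 := (hJ m1).2
  rw [f2, B'.X_pt] at m2
  have fx : B'.φ (B'.X u) = B'.X u := be3_eq (h1' _ hu'.2).2.2 ((be3_uIcc b1).1 m2).2
  have b3 : 0 < sg sh' * (B'.X u - B'.X q') := by
    refine lt_of_le_of_ne b1 fun e => n1 ?_
    exact (be3_eq b1 (by rw [← neg_sub, mul_neg, ← e, neg_zero])).symm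
  obtain ⟨s, hs, hls⟩ := be3_hit h' fx b3 (by linarith [(h1' _ hu'.2).2.1])
  rw [eu'] at hls
  have hse : ∀ᶠ R in D.U, s R ≤ e R := by
    refine h.2.2.2.2.2.2 t' s ((ht'.and hs).mono fun R k => ⟨k.1.1, k.1.2, k.2.1⟩) ?_
    intro s1 u1 hs1 hl1
    have c1 := h'.2.2.1 s1 u1 ((hs1.and hs).mono fun R k => ⟨k.1.1, k.1.2.trans k.2.2⟩) hl1
    have c2 := h'.2.2.2.1 t' s1 q' u1
      ((hs1.and hs).mono fun R k => ⟨le_rfl, k.1.1, k.1.2.trans k.2.2⟩) hl hl1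
    have c3 := h'.2.2.2.1 s1 s u1 u
      ((hs1.and hs).mono fun R k => ⟨k.1.1, k.1.2, k.2.2⟩) hl1 hls
    have c4 := hI ⟨c1, (be3_uIcc b1).2 ⟨c2, c3⟩⟩
    exact ⟨(h1 _ c4.2).1.trans_lt (by norm_num), by rw [c4.1]; norm_num⟩
  have c5 := h.2.2.2.1 t' s q' u
    (((ht'.and hs).and hse).mono fun R k => ⟨k.1.1.1, k.1.2.1, k.2⟩) hl hls
  rw [hq', B.X_pt] at c5
  exact n2 (be3_eq c5 a2)

end BD

end Pool.Agent.Lib.MP_3fe454_an.S2
end

-- part Pool.Agent.Lib.MP_3fe454_an.S2.BE4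
section

/-!
Orbit segments split into boundedly many pieces.
-/

set_option autoImplicit false

open Set Metric Filter Topology Function

namespace Pool.Agent.Lib.MP_3fe454_an.S2

open PD

variable {F : Dis} {At : Atlas F} {M0 : ℕ}

/-- a stay of the orbit in a box -/
structure BE4St (D : BD At M0) where
  q : periodicPts F.f
  t : ℕ → ℕ
  B : Box F
  sh : Bool
  e : ℕ → ℕ
  lim : D.Lim t q
  box : At.L q = Sum.inr B
  stay : D.Stay q t B sh e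

theorem be4_mk (D : BD At M0) (hA : At.Fin M0) {q : periodicPts F.f} {t : ℕ → ℕ} (ht : D.Early t)
    (hq : D.Lim t q) : ∃ s : BE4St D, s.q = q ∧ s.t = t := by
  obtain ⟨B, sh, e, h1, h2⟩ := D.stay hA ht hq
  exact ⟨⟨q, t, B, sh, e, hq, h1, h2⟩, rfl, rfl⟩

theorem be4_el (At : Atlas F) : ∃ el : periodicPts F.f × Bool → Quad F ⊕ Set ℂ,
    ∀ x B, At.L x.1 = Sum.inr B → (∃ Q, At.IsQ x.1 x.2 true Q ∧ el x = Sum.inl Q) ∨
      (¬ B.Gap (B.X x.1) x.2 ∧ ∃ ζ, BD.Last B x.2 ζ ∧ el x = Sum.inr (B.Arc (B.X x.1) ζ)) := by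
  refine Classical.skolem (p := fun (x : periodicPts F.f × Bool) (E : Quad F ⊕ Set ℂ) =>
    ∀ B, At.L x.1 = Sum.inr B → (∃ Q, At.IsQ x.1 x.2 true Q ∧ E = Sum.inl Q) ∨
      (¬ B.Gap (B.X x.1) x.2 ∧ ∃ ζ, BD.Last B x.2 ζ ∧ E = Sum.inr (B.Arc (B.X x.1) ζ))).1
    fun ⟨q, sh⟩ => ?_
  by_cases h : ∃ B, At.L q = Sum.inr B
  swap
  · exact ⟨Sum.inr ∅, fun B hB => absurd ⟨B, hB⟩ h⟩
  obtain ⟨B, hB⟩ := h
  by_cases hg : B.Gap (B.X q) sh
  · have ok : B.Full ∧ B.Cone ∧ |B.X q| ≤ 1 / 4 ∧ B.Y q = 0 ∧ B.Gt q = q := by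
      have := At.ok q
      rwa [hB] at this
    obtain ⟨Q, hQ⟩ := B.exists_quad ok.1 ok.2.2.1 (by rw [← B.X_Gt, ok.2.2.2.2]) hg true
    exact ⟨Sum.inl Q, fun _ _ => .inl ⟨Q, ⟨B, hB, hQ⟩, rfl⟩⟩
  · obtain ⟨ζ, h1, -⟩ := BD.exists_last hB sh
    refine ⟨Sum.inr (B.Arc (B.X q) ζ), fun B' hB' => ?_⟩
    obtain rfl : B = B' := Sum.inr_injective (hB.symm.trans hB')
    exact .inr ⟨hg, ζ, h1, rfl⟩

theorem be4_fin (hA : At.Fin M0) : {q : periodicPts F.f | (∃ sh Q, At.IsQ q sh true Q) ∨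
    ∃ q0 B sh ζ, At.L q0 = Sum.inr B ∧ BD.Last B sh ζ ∧ (q : ℂ) = B.pt ζ 0}.Finite := by
  refine Finite.union (s := {q | ∃ sh Q, At.IsQ q sh true Q}) ((hA.labels.image Prod.fst).subset
    fun q ⟨sh, Q, h⟩ => ⟨(q, sh, true), ⟨Q, h⟩, rfl⟩) ?_
  refine (hA.1.biUnion (t := fun l => ⋃ sh : Bool, {q : periodicPts F.f | ∃ B ζ, l = Sum.inr B ∧
    BD.Last B sh ζ ∧ (q : ℂ) = B.pt ζ 0}) fun l _ => finite_iUnion fun sh =>
      Set.Subsingleton.finite ?_).subset fun q ⟨q0, B, sh, ζ, h⟩ =>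
        mem_biUnion (mem_range_self q0) (mem_iUnion.2 ⟨sh, B, ζ, h⟩)
  rintro q ⟨B, ζ, h1, h2, h3⟩ q' ⟨B', ζ', k1, k2, k3⟩
  obtain rfl : B = B' := Sum.inr_injective (h1.symm.trans k1)
  exact Subtype.ext (by rw [h3, k3, h2.unique k2])

theorem BD.false (D : BD At M0) (hp : HP F) (hA : At.Fin M0)
    (hsa : ∀ q sh sv Q, At.IsQ q sh sv Q → ¬ Q.SA) : False := by
  obtain ⟨el, hel⟩ := be4_el At
  have step : ∀ s : BE4St D, ∃ s' : BE4St D,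
      (∃ Q, At.IsQ s.q s.sh true Q ∧ el (s.q, s.sh) = Sum.inl Q ∧ (s'.q : ℂ) ∈ Q.om) ∨
      (¬ s.B.Gap (s.B.X s.q) s.sh ∧ ∃ ζ, Last s.B s.sh ζ ∧
        el (s.q, s.sh) = Sum.inr (s.B.Arc (s.B.X s.q) ζ) ∧ (s'.q : ℂ) = s.B.pt ζ 0 ∧
        ∀ᶠ R in D.U, s.t R ≤ s'.t R ∧ s'.t R ≤ s.e R) := fun s => by
    rcases hel (s.q, s.sh) s.B s.box with ⟨Q, h1, h2⟩ | ⟨h1, ζ, h2, h3⟩
    · obtain ⟨q', t', k1, k2, k3⟩ := next_branch hp hA s.box s.stay h1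
      obtain ⟨s', rfl, -⟩ := be4_mk D hA k1 k2
      exact ⟨s', .inl ⟨Q, h1, h2, k3⟩⟩
    · obtain ⟨-, k1, t', k2, k3⟩ := next_arc hA s.box s.stay h1 h2
      obtain ⟨s', e1, rfl⟩ := be4_mk D hA (q := ⟨_, k1⟩)
        (s.stay.2.1 t' (k2.mono fun _ h => h.2)) k3
      exact ⟨s', .inr ⟨h1, ζ, h2, h3, by rw [e1], k2⟩⟩
  choose nx hnx using step
  obtain ⟨s0⟩ : Nonempty (BE4St D) := by
    obtain ⟨q, hq⟩ := hp.per_nonempty
    have hM : 0 < M0 := by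
      rw [← hA.2 ⟨q, hq⟩, Atlas.M]
      rcases At.L ⟨q, hq⟩ with T | B
      exacts [T.M_pos, B.M_pos]
    obtain ⟨z, -, hz⟩ := D.lim_exists fun _ => 0
    obtain ⟨q', t', h1, h2, -⟩ := D.early_zero.hit hp hM hz
    exact ⟨(be4_mk D hA h1 h2).choose⟩
  obtain ⟨s, hs⟩ : ∃ s : ℕ → BE4St D, ∀ n, s (n + 1) = nx (s n) :=
    ⟨fun n => nx^[n] s0, fun n => iterate_succ_apply' _ _ _⟩
  have H := fun n => hs n ▸ hnx (s n)
  obtain ⟨i, j, hij, e⟩ : ∃ i j, i < j ∧ ((s i).q, (s i).sh) = ((s j).q, (s j).sh) := by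
    have : ∀ n, ∃ m, 2 * n ≤ m ∧ m ≤ 2 * n + 1 ∧ ((s m).q, (s m).sh) ∈
        {q : periodicPts F.f | (∃ sh Q, At.IsQ q sh true Q) ∨ ∃ q0 B sh ζ, At.L q0 = Sum.inr B ∧
          BD.Last B sh ζ ∧ (q : ℂ) = B.pt ζ 0} ×ˢ (univ : Set Bool) := fun n => by
      rcases H (2 * n) with ⟨Q, h1, -⟩ | ⟨-, ζ, h1, -, h2, -⟩
      · exact ⟨_, le_rfl, by omega, .inl ⟨_, Q, h1⟩, trivial⟩
      · exact ⟨2 * n + 1, by omega, le_rfl, .inr ⟨_, _, _, ζ, (s _).box, h1, h2⟩, trivial⟩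
    choose g g1 g2 g3 using this
    obtain ⟨a, b, h1, h2⟩ := Finite.exists_lt_map_eq_of_forall_mem g3
      ((be4_fin hA).prod finite_univ)
    exact ⟨g a, g b, by have := g2 a; have := g1 b; omega, h2⟩
  obtain ⟨i0, k, k0, -, -, k1, k2⟩ := min_repeat (fun n => ((s n).q, (s n).sh)) hij e
  have nxt : ∀ l, ((s (i0 + (l + 1) % k)).q, (s (i0 + (l + 1) % k)).sh) =
      ((s (i0 + l % k + 1)).q, (s (i0 + l % k + 1)).sh) := fun l => by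
    rw [← Nat.mod_add_mod, add_assoc]
    rcases (Nat.succ_le_of_lt (Nat.mod_lt l k0)).eq_or_lt with h | h
    · rw [show l % k + 1 = k from h, Nat.mod_self]
      exact k1
    · rw [Nat.mod_eq_of_lt h]
  have HL : ∀ n Q, el ((s n).q, (s n).sh) = Sum.inl Q →
      At.IsQ (s n).q (s n).sh true Q ∧ ((s (n + 1)).q : ℂ) ∈ Q.om := fun n Q h => by
    rcases H n with ⟨Q', h1, h2, h3⟩ | ⟨-, ζ, -, h1, -⟩
    · obtain rfl : Q = Q' := Sum.inl_injective (h.symm.trans h2)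
      exact ⟨h1, h3⟩
    · exact absurd (h.symm.trans h1) Sum.inl_ne_inr
  have HR : ∀ n E, el ((s n).q, (s n).sh) = Sum.inr E →
      ¬ (s n).B.Gap ((s n).B.X (s n).q) (s n).sh ∧ ∃ ζ, Last (s n).B (s n).sh ζ ∧
        E = (s n).B.Arc ((s n).B.X (s n).q) ζ ∧ ((s (n + 1)).q : ℂ) = (s n).B.pt ζ 0 ∧
        ∀ᶠ R in D.U, (s n).t R ≤ (s (n + 1)).t R ∧ (s (n + 1)).t R ≤ (s n).e R := fun n E h => by
    rcases H n with ⟨Q', -, h2, -⟩ | ⟨h0, ζ, h1, h2, h3⟩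
    · exact absurd (h.symm.trans h2) Sum.inr_ne_inl
    · exact ⟨h0, ζ, h1, Sum.inr_injective (h.symm.trans h2), h3⟩
  obtain ⟨l, Q, h1, h2⟩ := cl (M := M0) k0
    (fun l => el ((s (i0 + l % k)).q, (s (i0 + l % k)).sh)) (fun l => (s (i0 + l % k)).q)
    (fun l => by rw [Nat.add_mod_right]) (fun l => by rw [Nat.add_mod_right])
    (fun l Q h => by
      obtain ⟨h1, h2⟩ := HL _ Q h
      rw [show (s (i0 + (l + 1) % k)).q = _ from (Prod.ext_iff.1 (nxt l)).1]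
      exact ⟨h1.M.trans (hA.2 _), h1.p, h2⟩)
    (fun l E h => by
      obtain ⟨h1, ζ, h2, rfl, h3, -⟩ := HR _ E h
      rw [show (s (i0 + (l + 1) % k)).q = _ from (Prod.ext_iff.1 (nxt l)).1, h3]
      exact (next_arc hA (s _).box (s _).stay h1 h2).1)
    (fun a b Q Q' hn h h' => disjoint_iff_inter_eq_empty.2 (not_nonempty_iff_eq_empty.1 fun hm => by
      obtain ⟨e1, e2⟩ := (HL _ Q h).1.gam_meet (HL _ Q' h').1 hm
      exact hn (k2 _ (Nat.mod_lt a k0) _ (Nat.mod_lt b k0) (Prod.ext e1 e2))))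
    (fun l E E' h h' => by
      obtain ⟨h1, ζ, h2, rfl, h3, h4⟩ := HR _ E h
      obtain ⟨k1, ζ', k2, rfl, -⟩ := HR _ E' (nxt l ▸ h')
      rw [show (s (i0 + (l + 1) % k)).q = _ from (Prod.ext_iff.1 (nxt l)).1]
      exact no_overlap hA (s _).box (s _).stay h1 h2 h3 h4 (s _).lim (s _).box (s _).stay k1 k2)
  exact hsa _ _ _ Q (HL _ Q h1).1 h2

theorem be (hp : HP F) (hA : At.Fin M0) (hsa : ∀ q sh sv Q, At.IsQ q sh sv Q → ¬ Q.SA) :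
    ∃ (R : ℕ) (ε : ℝ), 0 < ε ∧ ∀ T : ℂ → ℂ, MapsTo T Disc Disc → LipClose ε T F.f^[M0] →
      ∀ w ∈ Disc, ∀ n, Split T At.Big R w n := by
  by_contra hc
  push Not at hc
  choose T h1 h2 w h3 n h4 using fun R : ℕ => hc (R ^ 2) (1 / ((R : ℝ) + 1)) (by positivity)
  exact BD.false ⟨T, w, n, hyperfilter ℕ, Nat.hyperfilter_le_atTop, h1, h3, h2, h4⟩ hp hA hsa

end Pool.Agent.Lib.MP_3fe454_an.S2
end
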