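import Pool.Agent.Lib.MP_3fe454_an.S2.Defs2

-- part Pool.Agent.Lib.MP_3fe454_an.S2.Cnt1
section

/-!
Robust cones, monotone orbits, and counting in local structures.
-/

set_option autoImplicit false

open Set Metric Filter Topology Function

namespace Pool.Agent.Lib.MP_3fe454_an.S2

open PD

variable {F : Dis}

private theorem cnt1_sg (σ : Bool) (x : ℝ) : |sg σ * x| = |x| := by
  cases σ <;> simp [sg]

private theorem cnt1_mono {ε ε' : ℝ} {T f : ℂ → ℂ} (h : LipClose ε T f) (hε : ε ≤ ε') :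
    LipClose ε' T f := fun w hw w' hw' =>
  ⟨(h w hw w' hw').1.trans hε,
    (h w hw w' hw').2.trans (mul_le_mul_of_nonneg_right hε (norm_nonneg _))⟩

private theorem cnt1_seq {l : ℝ} (h0 : 0 < l) (d : ℕ → ℝ × ℝ) (n : ℕ)
    (h : ∀ t < n, (|(d t).2| ≤ |(d t).1| → |(d (t + 1)).2| ≤ |(d (t + 1)).1| ∧
        (0 < (d t).1 → 0 < (d (t + 1)).1) ∧ ((d t).1 < 0 → (d (t + 1)).1 < 0)) ∧
      (|(d t).1| ≤ |(d t).2| → |(d (t + 1)).2| ≤ l * |(d t).2|)) :
    ∃ σ : Bool, ∀ t ≤ n, (|(d t).1| ≤ |(d t).2| ∧ |(d t).2| ≤ l ^ t * |(d 0).2|) ∨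
      (|(d t).2| ≤ |(d t).1| ∧ 0 < sg σ * (d t).1) := by
  classical
  have hv : ∀ t ≤ n, (∀ u < t, |(d u).1| ≤ |(d u).2|) → |(d t).2| ≤ l ^ t * |(d 0).2| := by
    intro t
    induction t with
    | zero => intro _ _; simp
    | succ t ih =>
      intro ht hu
      have h1 := (h t (by omega)).2 (hu t (by omega))
      have h2 := ih (by omega) fun u hu' => hu u (by omega)
      rw [pow_succ', mul_assoc]
      exact h1.trans (mul_le_mul_of_nonneg_left h2 h0.le)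
  by_cases hk : ∃ k, |(d k).2| < |(d k).1|
  · have hk1 := Nat.find_spec hk
    have hk2 : ∀ u < Nat.find hk, |(d u).1| ≤ |(d u).2| :=
      fun u hu => not_lt.1 (Nat.find_min hk hu)
    generalize Nat.find hk = k at hk1 hk2
    refine ⟨decide (0 < (d k).1), fun t ht => ?_⟩
    rcases lt_or_ge t k with h1 | h1
    · exact Or.inl ⟨hk2 t h1, hv t ht fun u hu => hk2 u (by omega)⟩
    · right
      induction t, h1 using Nat.le_induction with
      | base =>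
        refine ⟨hk1.le, ?_⟩
        have h2 : (d k).1 ≠ 0 := abs_pos.1 ((abs_nonneg _).trans_lt hk1)
        by_cases h3 : 0 < (d k).1
        · simp [sg, h3]
        · simpa [sg, h3] using lt_of_le_of_ne (not_lt.1 h3) h2
      | succ t h1 ih =>
        have h2 := ih (by omega)
        have h3 := (h t (by omega)).1 h2.1
        refine ⟨h3.1, ?_⟩
        have h4 := h2.2
        by_cases h5 : 0 < (d k).1
        · simp only [sg, h5, decide_true, if_true, one_mul] at h4 ⊢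
          exact h3.2.1 h4
        · simp only [sg, h5, decide_false, Bool.false_eq_true, if_false, neg_mul, one_mul,
            neg_pos] at h4 ⊢
          exact h3.2.2 h4
  · push Not at hk
    exact ⟨true, fun t ht => Or.inl ⟨hk t, hv t ht fun u _ => hk u⟩⟩

private theorem cnt1_pair (B : Box F) {l : ℝ} (h0 : 0 < l) {T : ℂ → ℂ} (h : B.ConeT l T)
    (w w' : ℂ) (n : ℕ) (hw : ∀ s < n, T^[s] w ∈ B.S) (hw' : ∀ s < n, T^[s] w' ∈ B.S) :
    ∃ σ : Bool, ∀ t ≤ n, (|(B.A (T^[t] w - T^[t] w')).1| ≤ |(B.A (T^[t] w - T^[t] w')).2| ∧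
      |(B.A (T^[t] w - T^[t] w')).2| ≤ l ^ t * |(B.A (w - w')).2|) ∨
      (|(B.A (T^[t] w - T^[t] w')).2| ≤ |(B.A (T^[t] w - T^[t] w')).1| ∧
        0 < sg σ * (B.A (T^[t] w - T^[t] w')).1) :=
  cnt1_seq h0 (fun t => B.A (T^[t] w - T^[t] w')) n fun t ht => by
    simp only [iterate_succ_apply']
    exact h _ (hw t ht) _ (hw' t ht)

private theorem cnt1_geo {l : ℝ} (h0 : 0 < l) (h1 : l < 1) (s : Finset ℕ) :
    ∑ t ∈ s, l ^ t ≤ 1 / (1 - l) := by
  have h := hasSum_geometric_of_lt_one h0.le h1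
  rw [one_div]
  exact sum_le_hasSum s (fun t _ => pow_nonneg h0.le t) h

private theorem cnt1_floor {η x x' : ℝ} (hη : 0 < η) (hx : 0 ≤ x) (hx' : 0 ≤ x')
    (h : ⌊x / η⌋₊ = ⌊x' / η⌋₊) : |x - x'| < η := by
  have h1 := Nat.floor_le (div_nonneg hx hη.le)
  have h2 := Nat.lt_floor_add_one (x / η)
  have h3 := Nat.floor_le (div_nonneg hx' hη.le)
  have h4 := Nat.lt_floor_add_one (x' / η)
  rw [h] at h1 h2
  have h5 : |x / η - x' / η| < 1 := abs_lt.2 ⟨by linarith, by linarith⟩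
  rwa [← sub_div, abs_div, abs_of_pos hη, div_lt_one hη] at h5

private theorem cnt1_lab {η : ℝ} (hη : 0 < η) (m m' : ℕ) (P : ℂ → Prop) (x y : ℂ → ℝ)
    (hx : ∀ w, P w → 0 ≤ x w ∧ x w / η < m) (hy : ∀ w, P w → 0 ≤ y w ∧ y w / η < m') :
    ∃ lab : ℂ → ℕ, ∀ w, P w → lab w < m * m' ∧
      ∀ w', P w' → lab w = lab w' → |x w - x w'| < η ∧ |y w - y w'| < η := by
  have h1 : ∀ w, P w → ⌊x w / η⌋₊ < m := fun w hw =>
    (Nat.floor_lt (div_nonneg (hx w hw).1 hη.le)).2 (hx w hw).2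
  have h2 : ∀ w, P w → ⌊y w / η⌋₊ < m' := fun w hw =>
    (Nat.floor_lt (div_nonneg (hy w hw).1 hη.le)).2 (hy w hw).2
  refine ⟨fun w => ⌊x w / η⌋₊ + m * ⌊y w / η⌋₊, fun w hw => ⟨?_, fun w' hw' h => ?_⟩⟩
  · have h3 := h1 w hw
    have h4 : m * (⌊y w / η⌋₊ + 1) ≤ m * m' := Nat.mul_le_mul_left _ (h2 w hw)
    rw [mul_add, mul_one] at h4
    show ⌊x w / η⌋₊ + m * ⌊y w / η⌋₊ < m * m'
    omega
  · have h3 : ⌊x w / η⌋₊ = ⌊x w' / η⌋₊ := by
      have h4 := congrArg (· % m) h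
      simpa only [Nat.add_mul_mod_self_left, Nat.mod_eq_of_lt (h1 w hw),
        Nat.mod_eq_of_lt (h1 w' hw')] using h4
    have h5 : m * ⌊y w / η⌋₊ = m * ⌊y w' / η⌋₊ := by
      have h6 : ⌊x w / η⌋₊ + m * ⌊y w / η⌋₊ = ⌊x w' / η⌋₊ + m * ⌊y w' / η⌋₊ := h
      omega
    have h7 : 0 < m := (Nat.zero_le _).trans_lt (h1 w hw)
    exact ⟨cnt1_floor hη (hx w hw).1 (hx w' hw').1 h3,
      cnt1_floor hη (hy w hw).1 (hy w' hw').1 (Nat.eq_of_mul_eq_mul_left h7 h5)⟩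

private theorem cnt1_norm (B : Box F) (v : ℂ) :
    ‖v‖ ≤ ‖(B.A.symm : ℝ × ℝ →L[ℝ] ℂ)‖ * ‖B.A v‖ := by
  have h1 := (B.A.symm : ℝ × ℝ →L[ℝ] ℂ).le_opNorm (B.A v)
  rwa [ContinuousLinearEquiv.coe_coe, B.A.symm_apply_apply] at h1

private theorem cnt1_normA (B : Box F) (v : ℂ) :
    ‖B.A v‖ ≤ ‖(B.A : ℂ →L[ℝ] ℝ × ℝ)‖ * ‖v‖ := (B.A : ℂ →L[ℝ] ℝ × ℝ).le_opNorm v

private theorem cnt1_disc (B : Box F) {w : ℂ} (hw : w ∈ B.S) : w ∈ Disc :=
  ball_subset_closedBall (B.S_sub hw)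

theorem Box.cone_rob (B : Box F) (h : B.Cone) : ∃ ε > 0, ∃ l, 0 < l ∧ l < 1 ∧
    ∀ T : ℂ → ℂ, LipClose ε T F.f^[B.M] → B.ConeT l T := by
  obtain ⟨s0, l0, e, he, hl0, h1, h2, h3, -⟩ := h
  set a := ‖(B.A : ℂ →L[ℝ] ℝ × ℝ)‖ with ha
  set b := ‖(B.A.symm : ℝ × ℝ →L[ℝ] ℂ)‖ with hb
  have ha0 : 0 ≤ a := norm_nonneg _
  have hb0 : 0 ≤ b := norm_nonneg _
  have hab : 0 < a * b + 1 := by positivity
  refine ⟨e / (a * b + 1), div_pos he hab, l0 + 2 * e, by linarith, h1, fun T hT w hw w' hw' => ?_⟩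
  have h4 := h3 w hw w' hw'
  have h5 := (hT w (cnt1_disc B hw) w' (cnt1_disc B hw')).2
  have h6 := cnt1_normA B ((T w - T w') - (F.f^[B.M] w - F.f^[B.M] w'))
  have h7 := cnt1_norm B (w - w')
  rw [← ha] at h6
  rw [← hb] at h7
  have h8 : ‖B.A ((T w - T w') - (F.f^[B.M] w - F.f^[B.M] w'))‖ ≤ e * ‖B.A (w - w')‖ := by
    have hε : 0 ≤ e / (a * b + 1) := (div_pos he hab).le
    calc _ ≤ a * (e / (a * b + 1) * (b * ‖B.A (w - w')‖)) :=
          h6.trans (mul_le_mul_of_nonneg_left (h5.trans (mul_le_mul_of_nonneg_left h7 hε)) ha0)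
      _ = (a * b / (a * b + 1)) * (e * ‖B.A (w - w')‖) := by ring
      _ ≤ 1 * (e * ‖B.A (w - w')‖) :=
          mul_le_mul_of_nonneg_right ((div_le_one hab).2 (by linarith)) (by positivity)
      _ = _ := one_mul _
  have h9 : ‖B.A (T w - T w') - (s0 * (B.A (w - w')).1, l0 * (B.A (w - w')).2)‖ ≤
      2 * e * ‖B.A (w - w')‖ := by
    have h10 := norm_add_le (B.A ((T w - T w') - (F.f^[B.M] w - F.f^[B.M] w')))
      (B.A (F.f^[B.M] w - F.f^[B.M] w') - (s0 * (B.A (w - w')).1, l0 * (B.A (w - w')).2))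
    rw [map_sub B.A (T w - T w'), sub_add_sub_cancel, ← map_sub B.A (T w - T w')] at h10
    linarith
  generalize B.A (w - w') = d at h9 ⊢
  generalize B.A (T w - T w') = d' at h9 ⊢
  have h11 : |d'.1 - s0 * d.1| ≤ 2 * e * ‖d‖ := (norm_fst_le (d' - (s0 * d.1, l0 * d.2))).trans h9
  have h12 : |d'.2 - l0 * d.2| ≤ 2 * e * ‖d‖ := (norm_snd_le (d' - (s0 * d.1, l0 * d.2))).trans h9
  have h13 : |d'.2| ≤ l0 * |d.2| + 2 * e * ‖d‖ := by
    have := abs_sub_abs_le_abs_sub d'.2 (l0 * d.2)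
    rw [abs_mul, abs_of_pos hl0] at this
    linarith
  have hn : ‖d‖ = max |d.1| |d.2| := rfl
  constructor
  · intro hd
    rw [hn, max_eq_left hd] at h11 h13
    have h14 := abs_sub_abs_le_abs_sub (s0 * d.1) d'.1
    rw [abs_mul, abs_of_pos (by linarith : 0 < s0), abs_sub_comm] at h14
    have h15 := abs_nonneg d.1
    refine ⟨by nlinarith, fun hp => ?_, fun hp => ?_⟩
    · rw [abs_of_pos hp] at h11
      have := (abs_le.1 h11).1
      nlinarith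
    · rw [abs_of_neg hp] at h11
      have := (abs_le.1 h11).2
      nlinarith
  · intro hd
    rw [hn, max_eq_right hd] at h13
    linarith

theorem Box.am (B : Box F) {l : ℝ} (h0 : 0 < l) (h1 : l < 1) {T : ℂ → ℂ} (h : B.ConeT l T)
    (w : ℂ) (N : ℕ) (hw : ∀ s < N, T^[s] w ∈ B.S) : ∃ σ : Bool, ∀ s s', s ≤ s' → s' ≤ N →
      -(‖B.A (T w - w)‖ / (1 - l)) ≤ sg σ * (B.A (T^[s'] w - T^[s] w)).1 := by
  have hq : 0 ≤ ‖B.A (T w - w)‖ / (1 - l) := div_nonneg (norm_nonneg _) (by linarith)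
  obtain ⟨σ, hσ⟩ := cnt1_pair B h0 h (T w) w (N - 1)
    (fun s hs => by rw [← iterate_succ_apply]; exact hw _ (by omega))
    fun s hs => hw s (by omega)
  refine ⟨σ, fun s s' hs hs' => ?_⟩
  have h2 : ∀ t < N, -(l ^ t * ‖B.A (T w - w)‖) ≤ sg σ * (B.A (T^[t + 1] w - T^[t] w)).1 := by
    intro t ht
    rw [iterate_succ_apply]
    rcases hσ t (by omega) with h3 | h3
    · have h4 := neg_abs_le (sg σ * (B.A (T^[t] (T w) - T^[t] w)).1)
      rw [cnt1_sg] at h4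
      have h5 : l ^ t * |(B.A (T w - w)).2| ≤ l ^ t * ‖B.A (T w - w)‖ :=
        mul_le_mul_of_nonneg_left (norm_snd_le (B.A (T w - w))) (pow_nonneg h0.le t)
      linarith [h3.1, h3.2]
    · have h4 : 0 ≤ l ^ t * ‖B.A (T w - w)‖ := by positivity
      linarith [h3.2]
  have h3 : ∀ k, s + k ≤ N → -((∑ t ∈ Finset.Ico s (s + k), l ^ t) * ‖B.A (T w - w)‖) ≤
      sg σ * (B.A (T^[s + k] w - T^[s] w)).1 := by
    intro k
    induction k with
    | zero => intro _; simp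
    | succ k ih =>
      intro hk
      have h4 := ih (by omega)
      have h5 := h2 (s + k) (by omega)
      rw [← add_assoc, Finset.sum_Ico_succ_top (by omega),
        ← sub_add_sub_cancel (T^[s + k + 1] w) (T^[s + k] w), map_add, Prod.fst_add]
      linarith
  obtain ⟨k, rfl⟩ := Nat.exists_eq_add_of_le hs
  have h4 := h3 k hs'
  have h5 := mul_le_mul_of_nonneg_right (cnt1_geo h0 h1 (Finset.Ico s (s + k)))
    (norm_nonneg (B.A (T w - w)))
  rw [one_div_mul_eq_div] at h5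
  linarith

theorem Box.cnt (B : Box F) {l : ℝ} (h0 : 0 < l) (h1 : l < 1) {T : ℂ → ℂ} (h : B.ConeT l T) :
    Cnt T B.S := by
  intro ε hε
  set a := ‖(B.A : ℂ →L[ℝ] ℝ × ℝ)‖ with ha
  set b := ‖(B.A.symm : ℝ × ℝ →L[ℝ] ℂ)‖ with hb
  have ha0 : 0 ≤ a := norm_nonneg _
  have hb0 : 0 ≤ b := norm_nonneg _
  have hl : 0 < 1 - l := by linarith
  obtain ⟨η, hη, hη2⟩ : ∃ η > 0, b * (η + η * (1 / (1 - l))) < ε := by
    refine ⟨ε / (b * (1 + 1 / (1 - l)) + 1), by positivity, ?_⟩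
    have h2 : 0 < b * (1 + 1 / (1 - l)) + 1 := by positivity
    calc _ = b * (1 + 1 / (1 - l)) / (b * (1 + 1 / (1 - l)) + 1) * ε := by ring
      _ < 1 * ε := mul_lt_mul_of_pos_right ((div_lt_one h2).2 (by linarith)) hε
      _ = ε := one_mul ε
  obtain ⟨m, hm⟩ := exists_nat_gt (2 * a / η)
  have hm0 : (0 : ℝ) < m := lt_of_le_of_lt (by positivity) hm
  have hS : ∀ w ∈ B.S, |(B.A w).1| ≤ a ∧ |(B.A w).2| ≤ a := by
    intro w hw
    have h2 := cnt1_normA B w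
    have h3 : ‖w‖ ≤ 1 := mem_closedBall_zero_iff.1 (cnt1_disc B hw)
    have h4 : ‖B.A w‖ ≤ a := h2.trans (mul_le_of_le_one_right ha0 h3)
    exact ⟨(norm_fst_le _).trans h4, (norm_snd_le _).trans h4⟩
  refine ⟨m * m, fun n => ?_⟩
  rcases Nat.eq_zero_or_pos n with rfl | hn
  · have hm1 : 0 < m := Nat.cast_pos.1 hm0
    exact ⟨fun _ => 0, fun w _ => ⟨by positivity, fun _ _ _ t ht => absurd ht (by omega)⟩⟩
  obtain ⟨lab, hlab⟩ := cnt1_lab hη m (m * (n + 1)) (fun w => ∀ t < n, T^[t] w ∈ B.S)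
    (fun w => (B.A w).2 + a) (fun w => ∑ t ∈ Finset.range n, ((B.A (T^[t] w)).1 + a))
    (fun w hw => by
      have h2 := abs_le.1 (hS w (hw 0 hn)).2
      refine ⟨by linarith, lt_of_le_of_lt ?_ hm⟩
      exact div_le_div_of_nonneg_right (by linarith) hη.le)
    (fun w hw => by
      refine ⟨Finset.sum_nonneg fun t ht => ?_, ?_⟩
      · linarith [(abs_le.1 (hS _ (hw t (Finset.mem_range.1 ht))).1).1]
      · have h2 : ∑ t ∈ Finset.range n, ((B.A (T^[t] w)).1 + a) ≤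
            ∑ _t ∈ Finset.range n, 2 * a := Finset.sum_le_sum fun t ht => by
          linarith [(abs_le.1 (hS _ (hw t (Finset.mem_range.1 ht))).1).2]
        rw [Finset.sum_const, Finset.card_range, nsmul_eq_mul] at h2
        have h3 : (n : ℝ) * (2 * a / η) ≤ n * m := mul_le_mul_of_nonneg_left hm.le n.cast_nonneg
        calc _ ≤ n * (2 * a) / η := div_le_div_of_nonneg_right h2 hη.le
          _ = n * (2 * a / η) := mul_div_assoc _ _ _
          _ < _ := by push_cast; linarith)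
  refine ⟨lab, fun w hw => ⟨by rw [mul_assoc]; exact (hlab w hw).1, fun w' hw' he t ht => ?_⟩⟩
  obtain ⟨h2, h3⟩ := (hlab w hw).2 w' hw' he
  have h4 : |(B.A (w - w')).2| < η := by
    rwa [add_sub_add_right_eq_sub, ← Prod.snd_sub, ← map_sub] at h2
  have h5 : |∑ u ∈ Finset.range n, (B.A (T^[u] w - T^[u] w')).1| < η := by
    rw [← Finset.sum_sub_distrib] at h3
    simpa only [add_sub_add_right_eq_sub, map_sub, Prod.fst_sub] using h3
  obtain ⟨σ, hσ⟩ := cnt1_pair B h0 h w w' n hw hw'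
  have hp : ∀ u : ℕ, l ^ u * |(B.A (w - w')).2| ≤ η * l ^ u := fun u => by
    rw [mul_comm]
    exact mul_le_mul_of_nonneg_right h4.le (pow_nonneg h0.le u)
  have hq : 0 ≤ η * (1 / (1 - l)) := by positivity
  have h6 : ‖B.A (T^[t] w - T^[t] w')‖ ≤ η + η * (1 / (1 - l)) := by
    have hn' : ‖B.A (T^[t] w - T^[t] w')‖ =
      max |(B.A (T^[t] w - T^[t] w')).1| |(B.A (T^[t] w - T^[t] w')).2| := rfl
    rw [hn']
    rcases hσ t ht.le with h7 | h7
    · rw [max_eq_right h7.1]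
      have h8 : η * l ^ t ≤ η := mul_le_of_le_one_right hη.le (pow_le_one₀ h0.le h1.le)
      linarith [h7.2, hp t]
    · rw [max_eq_left h7.1, ← cnt1_sg σ, abs_of_pos h7.2]
      have h8 : ∀ u ∈ Finset.range n, 0 ≤ sg σ * (B.A (T^[u] w - T^[u] w')).1 + η * l ^ u := by
        intro u hu
        rcases hσ u (Finset.mem_range.1 hu).le with h9 | h9
        · have h10 := neg_abs_le (sg σ * (B.A (T^[u] w - T^[u] w')).1)
          rw [cnt1_sg] at h10
          linarith [h9.1, h9.2, hp u]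
        · have h10 : 0 ≤ η * l ^ u := by positivity
          linarith [h9.2]
      have h9 := Finset.single_le_sum h8 (Finset.mem_range.2 ht)
      rw [Finset.sum_add_distrib, ← Finset.mul_sum, ← Finset.mul_sum] at h9
      have h10 := le_abs_self (sg σ * ∑ u ∈ Finset.range n, (B.A (T^[u] w - T^[u] w')).1)
      rw [cnt1_sg] at h10
      have h11 := mul_le_mul_of_nonneg_left (cnt1_geo h0 h1 (Finset.range n)) hη.le
      have h12 : 0 ≤ η * l ^ t := by positivity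
      linarith
  rw [dist_eq_norm]
  exact ((cnt1_norm B _).trans (mul_le_mul_of_nonneg_left h6 hb0)).trans_lt hη2

theorem Trap.rob (T0 : Trap F) : ∃ ε > 0, ∀ T : ℂ → ℂ, LipClose ε T F.f^[T0.M] →
    MapsTo T {w | T0.N (w - T0.q) ≤ T0.r} {w | T0.N (w - T0.q) ≤ T0.r} ∧
      Cnt T {w | T0.N (w - T0.q) ≤ T0.r} := by
  have hc := T0.c_pos
  have hr := T0.r_pos
  have hθ : 0 < 1 - T0.θ := by linarith [T0.θ_lt]
  have hC : 0 < T0.C := by
    have h1 := (T0.low 1).trans (T0.up 1)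
    rw [norm_one, mul_one, mul_one] at h1
    linarith
  have hD : ∀ w, T0.N (w - T0.q) ≤ T0.r → w ∈ Disc :=
    fun w hw => mem_closedBall_zero_iff.2 (T0.sub w hw).le
  have hq : T0.N (T0.q - T0.q) ≤ T0.r := by rw [sub_self, map_zero]; exact hr.le
  refine ⟨min ((1 - T0.θ) * T0.r / T0.C) ((1 - T0.θ) * T0.c / T0.C), by positivity,
    fun T hT => ?_⟩
  have hT1 := cnt1_mono hT (min_le_left _ _)
  have hT2 := cnt1_mono hT (min_le_right _ _)
  have hne : ∀ w w', T0.N (w - T0.q) ≤ T0.r → T0.N (w' - T0.q) ≤ T0.r →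
      T0.N (T w - T w') ≤ T0.N (w - w') := by
    intro w w' hw hw'
    have h1 := (hT2 w (hD w hw) w' (hD w' hw')).2
    have h2 := T0.contr w w' hw hw'
    have h3 := map_add_le_add T0.N ((T w - T w') - (F.f^[T0.M] w - F.f^[T0.M] w'))
      (F.f^[T0.M] w - F.f^[T0.M] w')
    rw [sub_add_cancel] at h3
    have h4 := (T0.up _).trans (mul_le_mul_of_nonneg_left h1 hC.le)
    have h5 : T0.C * ((1 - T0.θ) * T0.c / T0.C * ‖w - w'‖) = (1 - T0.θ) * (T0.c * ‖w - w'‖) := by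
      field_simp
    have h6 := mul_le_mul_of_nonneg_left (T0.low (w - w')) hθ.le
    linarith
  refine ⟨fun w hw => ?_, fun ε hε => ?_⟩
  · have h1 := (hT1 w (hD w hw) w (hD w hw)).1
    have h2 := T0.contr w T0.q hw hq
    rw [T0.fix] at h2
    have h3 := map_add_le_add T0.N (T w - F.f^[T0.M] w) (F.f^[T0.M] w - T0.q)
    rw [sub_add_sub_cancel] at h3
    have h4 := (T0.up _).trans (mul_le_mul_of_nonneg_left h1 hC.le)
    have h5 : T0.C * ((1 - T0.θ) * T0.r / T0.C) = (1 - T0.θ) * T0.r := by field_simp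
    have h6 : T0.θ * T0.N (w - T0.q) ≤ T0.θ * T0.r := mul_le_mul_of_nonneg_left hw T0.θ_pos.le
    show T0.N (T w - T0.q) ≤ T0.r
    linarith
  · have hη : 0 < ε * T0.c / (2 * T0.C) := by positivity
    obtain ⟨m, hm⟩ := exists_nat_gt (2 / (ε * T0.c / (2 * T0.C)))
    have hm1 : 0 < m := Nat.cast_pos.1 (lt_trans (by positivity) hm)
    obtain ⟨lab, hlab⟩ := cnt1_lab hη m m (fun w => ‖w‖ ≤ 1) (fun w => w.re + 1)
      (fun w => w.im + 1)
      (fun w hw => by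
        have h2 := abs_le.1 ((Complex.abs_re_le_norm w).trans hw)
        exact ⟨by linarith, lt_of_le_of_lt (div_le_div_of_nonneg_right (by linarith) hη.le) hm⟩)
      (fun w hw => by
        have h2 := abs_le.1 ((Complex.abs_im_le_norm w).trans hw)
        exact ⟨by linarith, lt_of_le_of_lt (div_le_div_of_nonneg_right (by linarith) hη.le) hm⟩)
    refine ⟨m * m, fun n => ?_⟩
    rcases Nat.eq_zero_or_pos n with rfl | hn
    · exact ⟨fun _ => 0, fun w _ => ⟨by positivity, fun _ _ _ t ht => absurd ht (by omega)⟩⟩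
    refine ⟨lab, fun w hw => ?_⟩
    have h1 := hlab w (T0.sub w (hw 0 hn)).le
    refine ⟨h1.1.trans_le (Nat.le_mul_of_pos_right _ n.succ_pos), fun w' hw' he t ht => ?_⟩
    obtain ⟨h2, h3⟩ := h1.2 w' (T0.sub w' (hw' 0 hn)).le he
    rw [add_sub_add_right_eq_sub, ← Complex.sub_re] at h2
    rw [add_sub_add_right_eq_sub, ← Complex.sub_im] at h3
    have h4 := Complex.norm_le_abs_re_add_abs_im (w - w')
    have h5 : ∀ u ≤ t, T0.N (T^[u] w - T^[u] w') ≤ T0.N (w - w') := by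
      intro u
      induction u with
      | zero => exact fun _ => le_rfl
      | succ u ih =>
        intro hu
        rw [iterate_succ_apply', iterate_succ_apply']
        exact (hne _ _ (hw u (by omega)) (hw' u (by omega))).trans (ih (by omega))
    have h6 := ((T0.low _).trans (h5 t le_rfl)).trans (T0.up _)
    have h7 : T0.C * ‖w - w'‖ < T0.C * (2 * (ε * T0.c / (2 * T0.C))) :=
      mul_lt_mul_of_pos_left (by linarith) hC
    have h8 : T0.C * (2 * (ε * T0.c / (2 * T0.C))) = T0.c * ε := by field_simp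
    rw [dist_eq_norm]
    exact lt_of_mul_lt_mul_left (by linarith) hc.le

theorem Atlas.Fin.cnt {At : Atlas F} {M0 : ℕ} (h : At.Fin M0) : At.Big.Finite ∧
    ∃ ε > 0, ∀ T : ℂ → ℂ, LipClose ε T F.f^[M0] → ∀ S ∈ At.Big, Cnt T S := by
  refine ⟨(h.1.image Loc.S).subset ?_, ?_⟩
  · rintro S ⟨q, rfl⟩
    exact ⟨_, mem_range_self q, rfl⟩
  have h1 : ∀ L ∈ range At.L, ∃ ε > 0, ∀ T : ℂ → ℂ, LipClose ε T F.f^[M0] → Cnt T L.S := by
    rintro L ⟨q, rfl⟩
    have h2 : (At.L q).M = M0 := h.2 q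
    have h3 := At.ok q
    generalize At.L q = L at h2 h3
    rcases L with T0 | B
    · obtain ⟨ε, hε, h4⟩ := T0.rob
      exact ⟨ε, hε, fun T hT => (h4 T (by rw [← h2] at hT; exact hT)).2⟩
    · obtain ⟨ε, hε, l, h4, h5, h6⟩ := B.cone_rob h3.2.1
      exact ⟨ε, hε, fun T hT => B.cnt h4 h5 (h6 T (by rw [← h2] at hT; exact hT))⟩
  have h2 : ∀ᶠ ε in 𝓝[>] (0 : ℝ), ∀ L ∈ range At.L,
      ∀ T : ℂ → ℂ, LipClose ε T F.f^[M0] → Cnt T L.S := by
    refine (eventually_all_finite h.1).2 fun L hL => ?_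
    obtain ⟨ε, hε, h3⟩ := h1 L hL
    filter_upwards [Ioo_mem_nhdsGT hε] with ε' hε' T hT using h3 T (cnt1_mono hT hε'.2.le)
  obtain ⟨ε, h3, h4⟩ := (h2.and self_mem_nhdsWithin).exists
  refine ⟨ε, h4, fun T hT => ?_⟩
  rintro S ⟨q, rfl⟩
  exact h3 _ (mem_range_self q) T hT

end Pool.Agent.Lib.MP_3fe454_an.S2
end

-- part Pool.Agent.Lib.MP_3fe454_an.S2.Cnt2
section

/-!
Polynomial covers give zero entropy.
-/

set_option autoImplicit false

open Set Metric Filter Topology Function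

namespace Pool.Agent.Lib.MP_3fe454_an.S2

open PD

/-- the set W is covered by at most N sets of small dynamical diameter -/
def c2K (T : ℂ → ℂ) (ε : ℝ) (n : ℕ) (W : Set ℂ) (N : ℕ) : Prop :=
  ∃ s : Finset (Set ℂ), s.card ≤ N ∧ (∀ w ∈ W, ∃ A ∈ s, w ∈ A) ∧
    ∀ A ∈ s, ∀ w ∈ A, ∀ w' ∈ A, ∀ t < n, dist (T^[t] w) (T^[t] w') < ε

theorem c2K.mono {T : ℂ → ℂ} {ε : ℝ} {n n' : ℕ} {W W' : Set ℂ} {N N' : ℕ} (h : c2K T ε n W N)
    (hn : n' ≤ n) (hW : W' ⊆ W) (hN : N ≤ N') : c2K T ε n' W' N' := by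
  obtain ⟨s, h1, h2, h3⟩ := h
  exact ⟨s, h1.trans hN, fun w hw => h2 w (hW hw),
    fun A hA w hw w' hw' t ht => h3 A hA w hw w' hw' t (ht.trans_le hn)⟩

theorem c2K_biUnion {ι : Type} {T : ℂ → ℂ} {ε : ℝ} {n N : ℕ} (I : Finset ι) (W : ι → Set ℂ)
    (h : ∀ i ∈ I, c2K T ε n (W i) N) : c2K T ε n (⋃ i ∈ I, W i) (I.card * N) := by
  classical
  choose! s h1 h2 h3 using h
  refine ⟨I.biUnion s, Finset.card_biUnion_le_card_mul _ _ _ h1, fun w hw => ?_, fun A hA => ?_⟩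
  · obtain ⟨i, hi, hw⟩ := mem_iUnion₂.1 hw
    obtain ⟨A, hA, hwA⟩ := h2 i hi w hw
    exact ⟨A, Finset.mem_biUnion.2 ⟨i, hi, hA⟩, hwA⟩
  · obtain ⟨i, hi, hA⟩ := Finset.mem_biUnion.1 hA
    exact h3 i hi A hA

theorem c2K.union {T : ℂ → ℂ} {ε : ℝ} {n N N' : ℕ} {W W' : Set ℂ} (h : c2K T ε n W N)
    (h' : c2K T ε n W' N') : c2K T ε n (W ∪ W') (N + N') := by
  classical
  obtain ⟨s, h1, h2, h3⟩ := h
  obtain ⟨s', k1, k2, k3⟩ := h'
  refine ⟨s ∪ s', (Finset.card_union_le _ _).trans (add_le_add h1 k1), fun w hw => ?_,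
    fun A hA => (Finset.mem_union.1 hA).elim (h3 A) (k3 A)⟩
  rcases hw with hw | hw
  · obtain ⟨A, hA, hwA⟩ := h2 w hw
    exact ⟨A, Finset.mem_union_left _ hA, hwA⟩
  · obtain ⟨A, hA, hwA⟩ := k2 w hw
    exact ⟨A, Finset.mem_union_right _ hA, hwA⟩

theorem c2K.cat {T : ℂ → ℂ} {ε : ℝ} {m k N N' : ℕ} {W W' : Set ℂ} (h : c2K T ε m W N)
    (h' : c2K T ε k W' N') : c2K T ε (m + k) (W ∩ T^[m] ⁻¹' W') (N * N') := by
  classical
  obtain ⟨s, h1, h2, h3⟩ := h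
  obtain ⟨s', k1, k2, k3⟩ := h'
  refine ⟨(s ×ˢ s').image fun p => p.1 ∩ T^[m] ⁻¹' p.2, Finset.card_image_le.trans ?_,
    fun w hw => ?_, fun A hA => ?_⟩
  · rw [Finset.card_product]; exact Nat.mul_le_mul h1 k1
  · obtain ⟨A, hA, hwA⟩ := h2 w hw.1
    obtain ⟨B, hB, hwB⟩ := k2 _ hw.2
    exact ⟨_, Finset.mem_image.2 ⟨(A, B), Finset.mem_product.2 ⟨hA, hB⟩, rfl⟩, hwA, hwB⟩
  · obtain ⟨p, hp, rfl⟩ := Finset.mem_image.1 hA
    obtain ⟨hA, hB⟩ := Finset.mem_product.1 hp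
    intro w hw w' hw' t ht
    rcases lt_or_ge t m with h4 | h4
    · exact h3 _ hA w hw.1 w' hw'.1 t h4
    · obtain ⟨u, rfl⟩ := Nat.exists_eq_add_of_le' h4
      rw [iterate_add_apply, iterate_add_apply]
      exact k3 _ hB _ hw.2 _ hw'.2 u (by omega)

theorem c2K_one (T : ℂ → ℂ) {ε : ℝ} (hε : 0 < ε) : ∃ N, c2K T ε 1 Disc N := by
  classical
  obtain ⟨t, -, hf, hc⟩ := finite_cover_balls_of_compact (isCompact_closedBall (0 : ℂ) 1)
    (half_pos hε)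
  refine ⟨_, hf.toFinset.image fun x => ball x (ε / 2), le_rfl, fun w hw => ?_, fun A hA => ?_⟩
  · obtain ⟨x, hx, hwx⟩ := mem_iUnion₂.1 (hc hw)
    exact ⟨_, Finset.mem_image.2 ⟨x, hf.mem_toFinset.2 hx, rfl⟩, hwx⟩
  · obtain ⟨x, -, rfl⟩ := Finset.mem_image.1 hA
    intro w hw w' hw' t ht
    obtain rfl : t = 0 := by omega
    have h1 := mem_ball.1 hw
    have h2 := mem_ball.1 hw'
    have h3 := dist_triangle_right w w' x
    simp only [iterate_zero, id]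
    linarith

theorem c2K_cnt {T : ℂ → ℂ} {S : Set ℂ} (h : Cnt T S) {ε : ℝ} (hε : 0 < ε) :
    ∃ C : ℕ, ∀ n, c2K T ε n {w | ∀ t < n, T^[t] w ∈ S} (C * (n + 1)) := by
  classical
  obtain ⟨C, hC⟩ := h ε hε
  refine ⟨C, fun n => ?_⟩
  obtain ⟨lab, hl⟩ := hC n
  refine ⟨(Finset.range (C * (n + 1))).image fun k => {w | (∀ t < n, T^[t] w ∈ S) ∧ lab w = k},
    Finset.card_image_le.trans (Finset.card_range _).le, fun w hw => ?_, fun A hA => ?_⟩
  · exact ⟨_, Finset.mem_image.2 ⟨lab w, Finset.mem_range.2 (hl w hw).1, rfl⟩, hw, rfl⟩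
  · obtain ⟨k, -, rfl⟩ := Finset.mem_image.1 hA
    intro w hw w' hw'
    exact (hl w hw.1).2 w' hw'.1 (hw.2.trans hw'.2.symm)

/-- starting points of one piece -/
def c2P (T : ℂ → ℂ) (𝒮 : Set (Set ℂ)) (n : ℕ) : Set ℂ :=
  {w | w ∈ Disc ∧ (n ≤ 1 ∨ ∃ S ∈ 𝒮, ∀ t < n, T^[t] w ∈ S)}

theorem c2K_piece {T : ℂ → ℂ} {𝒮 : Set (Set ℂ)} (hf : 𝒮.Finite) (hc : ∀ S ∈ 𝒮, Cnt T S) {ε : ℝ}
    (hε : 0 < ε) : ∃ C : ℕ, 1 ≤ C ∧ ∀ n, c2K T ε n (c2P T 𝒮 n) (C * (n + 1)) := by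
  classical
  obtain ⟨N, hN⟩ := c2K_one T hε
  have h1 : ∀ S ∈ 𝒮, ∃ C : ℕ, ∀ n, c2K T ε n {w | ∀ t < n, T^[t] w ∈ S} (C * (n + 1)) :=
    fun S hS => c2K_cnt (hc S hS) hε
  choose! C hC using h1
  obtain ⟨B, hB⟩ := (hf.image C).bddAbove
  refine ⟨N + hf.toFinset.card * B + 1, by omega, fun n => ?_⟩
  rcases le_or_gt n 1 with hn | hn
  · exact hN.mono hn (fun w hw => hw.1) (by nlinarith [Nat.zero_le (hf.toFinset.card * B)])
  · have h2 := c2K_biUnion (T := T) (ε := ε) (n := n) (N := B * (n + 1)) hf.toFinset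
      (fun S => {w | ∀ t < n, T^[t] w ∈ S}) fun S hS =>
        (hC S (hf.mem_toFinset.1 hS) n).mono le_rfl subset_rfl
          (Nat.mul_le_mul_right _ (hB ⟨S, hf.mem_toFinset.1 hS, rfl⟩))
    refine h2.mono le_rfl (fun w hw => ?_) ?_
    · obtain ⟨S, hS, hw⟩ := hw.2.resolve_left (by omega)
      exact mem_iUnion₂.2 ⟨S, hf.mem_toFinset.2 hS, hw⟩
    · rw [← mul_assoc]; exact Nat.mul_le_mul_right _ (by omega)

/-- orbit segments with exactly r pieces -/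
def c2S (T : ℂ → ℂ) (𝒮 : Set (Set ℂ)) (r n : ℕ) : Set ℂ :=
  {w | w ∈ Disc ∧ ∃ τ : ℕ → ℕ, τ 0 = 0 ∧ τ r = n ∧ ∀ l < r, τ l ≤ τ (l + 1) ∧
    (τ (l + 1) ≤ τ l + 1 ∨ ∃ S ∈ 𝒮, ∀ t, τ l ≤ t → t < τ (l + 1) → T^[t] w ∈ S)}

theorem c2K_split {T : ℂ → ℂ} (hT : MapsTo T Disc Disc) {𝒮 : Set (Set ℂ)} {ε : ℝ} {C : ℕ}
    (hC : ∀ n, c2K T ε n (c2P T 𝒮 n) (C * (n + 1))) (N r : ℕ) :
    ∀ n ≤ N, c2K T ε n (c2S T 𝒮 r n) ((C * (N + 1) ^ 2) ^ r) := by
  induction r with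
  | zero =>
    intro n _
    refine ⟨{c2S T 𝒮 0 n}, by simp, fun w hw => ⟨_, Finset.mem_singleton_self _, hw⟩,
      fun A hA w hw w' _ t ht => ?_⟩
    rw [Finset.mem_singleton.1 hA] at hw
    obtain ⟨-, τ, h1, h2, -⟩ := hw
    omega
  | succ r ih =>
    intro n hn
    have h1 := c2K_biUnion (T := T) (ε := ε) (n := n)
      (N := (C * (N + 1) ^ 2) ^ r * (C * (N + 1))) (Finset.range (n + 1))
      (fun m => c2S T 𝒮 r m ∩ T^[m] ⁻¹' c2P T 𝒮 (n - m)) fun m hm => by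
        have hm := Finset.mem_range.1 hm
        exact ((ih m (by omega)).cat (hC (n - m))).mono (by omega) subset_rfl
          (Nat.mul_le_mul_left _ (Nat.mul_le_mul_left _ (by omega)))
    refine h1.mono le_rfl (fun w hw => ?_) ?_
    · obtain ⟨hw, τ, h2, h3, h4⟩ := hw
      obtain ⟨h5, h6⟩ := h4 r (Nat.lt_succ_self r)
      rw [h3] at h5 h6
      refine mem_iUnion₂.2 ⟨τ r, Finset.mem_range.2 (by omega),
        ⟨hw, τ, h2, rfl, fun l hl => h4 l (by omega)⟩, hT.iterate _ hw, ?_⟩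
      rcases h6 with h6 | ⟨S, hS, h6⟩
      · exact Or.inl (by omega)
      · refine Or.inr ⟨S, hS, fun t ht => ?_⟩
        rw [← iterate_add_apply]
        exact h6 _ (by omega) (by omega)
    · rw [Finset.card_range]
      calc (n + 1) * ((C * (N + 1) ^ 2) ^ r * (C * (N + 1)))
          ≤ (N + 1) * ((C * (N + 1) ^ 2) ^ r * (C * (N + 1))) :=
            Nat.mul_le_mul_right _ (by omega)
        _ = (C * (N + 1) ^ 2) ^ (r + 1) := by ring

theorem c2K.mincard {T : ℂ → ℂ} {ε : ℝ} {n N : ℕ} {W : Set ℂ} (h : c2K T ε n W N) :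
    Dynamics.coverMincard T W {p : ℂ × ℂ | dist p.1 p.2 < ε} n ≤ N := by
  classical
  obtain ⟨s, h1, h2, h3⟩ := h
  have h4 : Dynamics.IsDynCoverOf T W {p : ℂ × ℂ | dist p.1 p.2 < ε} n
      (s.image fun A => if h : A.Nonempty then h.some else 0 : Finset ℂ) := fun w hw => by
    obtain ⟨A, hA, hwA⟩ := h2 w hw
    have hne : A.Nonempty := ⟨w, hwA⟩
    refine ⟨hne.some, Finset.mem_coe.2 (Finset.mem_image.2 ⟨A, hA, dif_pos hne⟩), ?_⟩
    exact Dynamics.mem_dynEntourage.2 fun t ht => h3 A hA w hwA _ hne.some_mem t ht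
  exact h4.coverMincard_le_card.trans (by exact_mod_cast Finset.card_image_le.trans h1)

theorem c2_poly (C k : ℕ) {c : ℝ} (hc : 0 < c) :
    ∀ᶠ n : ℕ in atTop, ((C * (n + 1) ^ k : ℕ) : ℝ) ≤ Real.exp (c * n) := by
  have h1 := (isLittleO_pow_exp_pos_mul_atTop k hc).comp_tendsto
    (tendsto_atTop_add_const_right atTop (1 : ℝ) tendsto_natCast_atTop_atTop)
  have h2 : (0 : ℝ) < 1 / ((C + 1) * Real.exp c) := by positivity
  filter_upwards [h1.def h2] with n hn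
  simp only [comp_apply, Real.norm_eq_abs] at hn
  rw [abs_of_nonneg (by positivity), abs_of_pos (Real.exp_pos _), mul_add, mul_one,
    Real.exp_add] at hn
  have h3 : 1 / ((C + 1) * Real.exp c) * (Real.exp (c * n) * Real.exp c) =
      Real.exp (c * n) / (C + 1) := by field_simp
  rw [h3, le_div_iff₀ (by positivity)] at hn
  push_cast
  have h4 : (0 : ℝ) ≤ ((n : ℝ) + 1) ^ k := by positivity
  nlinarith

theorem c2_zero {T : ℂ → ℂ}
    (h : ∀ ε > 0, Dynamics.coverEntropyEntourage T Disc {p : ℂ × ℂ | dist p.1 p.2 < ε} ≤ 0) :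
    Dynamics.coverEntropy T Disc = 0 := by
  refine le_antisymm ?_ (Dynamics.coverEntropy_nonneg T (nonempty_closedBall.2 zero_le_one))
  rw [Dynamics.coverEntropy_eq_iSup_basis uniformity_basis_dist]
  exact iSup₂_le h

theorem ent_zero {T : ℂ → ℂ} (hT : MapsTo T Disc Disc) {𝒮 : Set (Set ℂ)} (hf : 𝒮.Finite)
    (hc : ∀ S ∈ 𝒮, Cnt T S) {R : ℕ} (h : ∀ w ∈ Disc, ∀ n, Split T 𝒮 R w n) :
    Dynamics.coverEntropy T Disc = 0 := by
  refine c2_zero fun ε hε => ?_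
  obtain ⟨C, hC1, hC⟩ := c2K_piece hf hc hε
  have key : ∀ n, c2K T ε n Disc (((R + 1) * C ^ R) * (n + 1) ^ (2 * R)) := fun n => by
    have h1 := c2K_biUnion (T := T) (ε := ε) (n := n) (N := (C * (n + 1) ^ 2) ^ R)
      (Finset.range (R + 1)) (fun r => c2S T 𝒮 r n) fun r hr =>
        (c2K_split hT hC n r n le_rfl).mono le_rfl subset_rfl
          (Nat.pow_le_pow_right (Nat.mul_pos hC1 (by positivity))
            (Nat.lt_succ_iff.1 (Finset.mem_range.1 hr)))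
    refine h1.mono le_rfl (fun w hw => ?_) (le_of_eq ?_)
    · obtain ⟨r, hr, τ, h2⟩ := h w hw n
      exact mem_iUnion₂.2 ⟨r, Finset.mem_range.2 (by omega), hw, τ, h2⟩
    · rw [Finset.card_range, mul_pow, ← pow_mul, mul_assoc]
  refine ExpGrowth.expGrowthSup_le_iff.2 fun b hb => ?_
  obtain ⟨c, hc0, hcb⟩ := EReal.lt_iff_exists_real_btwn.1 hb
  have hc0 : 0 < c := by exact_mod_cast hc0
  filter_upwards [c2_poly ((R + 1) * C ^ R) (2 * R) hc0] with n hn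
  refine (ENat.toENNReal_mono (key n).mincard).trans ?_
  have h2 : EReal.exp ((c * n : ℝ) : EReal) ≤ EReal.exp (b * n) := by
    refine EReal.exp_monotone ?_
    rw [EReal.coe_mul]
    exact mul_le_mul_of_nonneg_right hcb.le (by exact_mod_cast Nat.zero_le n)
  refine le_trans ?_ h2
  rw [EReal.exp_coe, ENat.toENNReal_coe, ← ENNReal.ofReal_natCast]
  exact ENNReal.ofReal_le_ofReal hn

theorem ent_of_iter {T : ℂ → ℂ} (hT : MapsTo T Disc Disc) (hc : ContinuousOn T Disc) {M : ℕ}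
    (hM : 0 < M) (h : Dynamics.coverEntropy T^[M] Disc = 0) :
    Dynamics.coverEntropy T Disc = 0 := by
  classical
  refine c2_zero fun ε hε => ?_
  have h1 : ∀ j : ℕ, ∃ δ > 0, ∀ x ∈ Disc, ∀ y ∈ Disc, dist x y < δ →
      dist (T^[j] x) (T^[j] y) < ε := fun j =>
    Metric.uniformContinuousOn_iff.1
      ((isCompact_closedBall (0 : ℂ) 1).uniformContinuousOn_of_continuous (hc.iterate hT j)) ε hε
  have h2 : ∀ k : ℕ, ∃ δ > 0, ∀ j < k, ∀ x ∈ Disc, ∀ y ∈ Disc, dist x y < δ →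
      dist (T^[j] x) (T^[j] y) < ε := fun k => by
    induction k with
    | zero => exact ⟨1, one_pos, fun j hj => absurd hj (Nat.not_lt_zero j)⟩
    | succ k ih =>
      obtain ⟨δ, hδ, H⟩ := ih
      obtain ⟨δ', hδ', H'⟩ := h1 k
      refine ⟨min δ δ', lt_min hδ hδ', fun j hj x hx y hy hd => ?_⟩
      rcases Nat.lt_succ_iff_lt_or_eq.1 hj with hj | rfl
      · exact H j hj x hx y hy (hd.trans_le (min_le_left _ _))
      · exact H' x hx y hy (hd.trans_le (min_le_right _ _))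
  obtain ⟨δ, hδ, H⟩ := h2 M
  refine le_trans ?_ ((Dynamics.coverEntropyEntourage_le_coverEntropy T^[M] Disc
    (dist_mem_uniformity (half_pos hδ))).trans h.le)
  refine ExpGrowth.expGrowthSup_monotone fun n => ENat.toENNReal_mono ?_
  refine le_iInf₂ fun s hs => c2K.mincard ?_
  refine ⟨s.image fun y => {x | x ∈ Disc ∧ ∀ k < n, dist ((T^[M])^[k] x) ((T^[M])^[k] y) < δ / 2},
    Finset.card_image_le, fun w hw => ?_, fun A hA => ?_⟩
  · obtain ⟨y, hy, hwy⟩ := hs hw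
    exact ⟨_, Finset.mem_image.2 ⟨y, hy, rfl⟩, hw, Dynamics.mem_dynEntourage.1 hwy⟩
  · obtain ⟨y, -, rfl⟩ := Finset.mem_image.1 hA
    intro w hw w' hw' t ht
    have h3 : t / M < n := (Nat.div_le_self t M).trans_lt ht
    have h4 := hw.2 _ h3
    have h5 := hw'.2 _ h3
    have h6 := dist_triangle_right ((T^[M])^[t / M] w) ((T^[M])^[t / M] w') ((T^[M])^[t / M] y)
    have h7 := H (t % M) (Nat.mod_lt t hM) _ (((hT.iterate M).iterate (t / M)) hw.1) _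
      (((hT.iterate M).iterate (t / M)) hw'.1) (by linarith)
    rwa [← iterate_mul, ← iterate_add_apply, ← iterate_add_apply, Nat.mod_add_div] at h7

end Pool.Agent.Lib.MP_3fe454_an.S2
end
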