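import Pool.Agent.Lib.MP_3fe454_an.S2.Defs2
import Pool.Agent.Lib.MP_3fe454_an.PD.Main

/-!
End game: from robust zero entropy under the hypothesis HP to the cascade on the boundary.
-/

set_option autoImplicit false

open Set Metric Filter Topology MeasureTheory Function
open scoped ENNReal

namespace Pool.Agent.Lib.MP_3fe454_an.S2

open PD

theorem hp_of_no_cascade (F : Dis) (hno : ¬ Cascade F.f) : HP F := by
  intro X hX hne _ hm
  obtain ⟨x, hx⟩ := hne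
  by_contra hnp
  push Not at hnp
  have hit : ∀ i : ℕ, F.f^[i] x ∈ X := fun i => hm.iterate i hx
  have cΦ : Continuous (Prod.map F.f (id : ℂ → ℂ)) := F.cf.prodMap continuous_id
  have hZ : IsCompact (X ×ˢ ({0} : Set ℂ)) := hX.prod isCompact_singleton
  obtain ⟨ρ, h1, h2, h3, -⟩ := kb (Prod.map F.f id) cΦ (X ×ˢ {0}) hZ
    (fun i => Measure.dirac (F.f^[i] x, 0)) 1 ENNReal.one_ne_top (fun i => by simp)
    (fun i => by
      rw [Measure.dirac_apply' _ hZ.isClosed.measurableSet.compl]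
      exact indicator_of_notMem (by simp [hit i]) _)
    (Or.inr fun i => by
      rw [Measure.map_dirac' cΦ.measurable]
      simp [iterate_succ_apply'])
  haveI : IsProbabilityMeasure ρ := ⟨h1⟩
  haveI : IsProbabilityMeasure (ρ.map Prod.fst) :=
    Measure.isProbabilityMeasure_map measurable_fst.aemeasurable
  have hp : MeasurePreserving F.f (ρ.map Prod.fst) (ρ.map Prod.fst) := by
    refine ⟨F.cf.measurable, ?_⟩
    rw [Measure.map_map F.cf.measurable measurable_fst]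
    have : F.f ∘ (Prod.fst : ℂ × ℂ → ℂ) = Prod.fst ∘ Prod.map F.f id := rfl
    rw [this, ← Measure.map_map measurable_fst cΦ.measurable, h3.map_eq]
  refine hno (F.cascade _ hp ?_)
  rw [Measure.map_apply measurable_fst F.measurableSet_periodic]
  refine lt_of_le_of_lt (measure_mono ?_) (h2.trans_lt zero_lt_one)
  rintro p hp ⟨hpX, -⟩
  exact hnp _ hpX hp

theorem lipClose_of {f h : ℂ → ℂ} {f' h' : ℂ → ℂ →L[ℝ] ℂ} {ε : ℝ}
    (hf : ∀ z ∈ Disc, HasFDerivWithinAt f (f' z) Disc z)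
    (hh : ∀ z ∈ Disc, HasFDerivWithinAt h (h' z) Disc z ∧ ‖h z - f z‖ ≤ ε ∧ ‖h' z - f' z‖ ≤ ε) :
    LipClose ε h f := by
  intro w hw w' hw'
  refine ⟨(hh w hw).2.1, ?_⟩
  have := (convex_closedBall (0 : ℂ) 1).norm_image_sub_le_of_norm_hasFDerivWithin_le
    (f := fun z => h z - f z) (f' := fun z => h' z - f' z) (C := ε)
    (fun z hz => (hh z hz).1.sub (hf z hz)) (fun z hz => (hh z hz).2.2) hw' hw
  rwa [show h w - f w - (h w' - f w') = h w - h w' - (f w - f w') by ring] at this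

theorem final_of
    (rob : ∀ F : Dis, HP F → ∃ ε > 0, ∀ T : ℂ → ℂ, MapsTo T Disc Disc → ContinuousOn T Disc →
      LipClose ε T F.f → Dynamics.coverEntropy T Disc = 0)
    (f : ℂ → ℂ) (f' : ℂ → ℂ →L[ℝ] ℂ) (H α : ℝ) (hα : 0 < α)
    (hd : ∀ z ∈ closedBall (0 : ℂ) 1, HasFDerivWithinAt f (f' z) (closedBall 0 1) z)
    (hh : ∀ z ∈ closedBall (0 : ℂ) 1, ∀ w ∈ closedBall (0 : ℂ) 1,
      ‖f' z - f' w‖ ≤ H * ‖z - w‖ ^ α)
    (hi : InjOn f (closedBall 0 1)) (hm : MapsTo f (closedBall 0 1) (ball 0 1))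
    (hdet : ∀ z ∈ closedBall (0 : ℂ) 1, (f' z).det ≠ 0 ∧ |(f' z).det| < 1)
    (hlim : ∀ ε > 0, ∃ (h : ℂ → ℂ) (h' : ℂ → ℂ →L[ℝ] ℂ),
      MapsTo h (closedBall 0 1) (closedBall 0 1) ∧
      (∀ z ∈ closedBall (0 : ℂ) 1, HasFDerivWithinAt h (h' z) (closedBall 0 1) z ∧
        ‖h z - f z‖ ≤ ε ∧ ‖h' z - f' z‖ ≤ ε) ∧
      0 < Dynamics.coverEntropy h (closedBall 0 1)) :
    ∃ m : ℕ, 1 ≤ m ∧ ∀ k : ℕ, ∃ p ∈ closedBall (0 : ℂ) 1, minimalPeriod f p = m * 2 ^ k := by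
  obtain ⟨F, hF⟩ := exists_dis f f' H α hα hd hh hi hm hdet
  have hc : Cascade F.f := by
    by_contra hno
    obtain ⟨ε, hε, hr⟩ := rob F (hp_of_no_cascade F hno)
    obtain ⟨h, h', h1, h2, h3⟩ := hlim ε hε
    have hl := lipClose_of hd h2
    refine h3.ne' (hr h h1 (fun z hz => (h2 z hz).1.continuousWithinAt) ?_)
    intro w hw w' hw'
    rw [hF w hw, hF w' hw']
    exact hl w hw w' hw'
  obtain ⟨-, -, h3⟩ := transfer F f hF 0 rfl fun _ _ => rfl
  obtain ⟨m, hm1, hk⟩ := hc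
  refine ⟨m, hm1, fun k => ?_⟩
  obtain ⟨p, hp⟩ := hk k
  have := h3 p _ (Nat.mul_pos hm1 (Nat.two_pow_pos k)) hp
  exact ⟨p, this.1, this.2⟩

end Pool.Agent.Lib.MP_3fe454_an.S2
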