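import Pool.Agent.Lib.MP_3fe454_an.S2.PC0
import Pool.Agent.Lib.MP_3fe454_an.S2.Mdl3

-- part Pool.Agent.Lib.MP_3fe454_an.S2.OL1
section

/-!
Gates of a quadrant.
-/

set_option autoImplicit false

open Set Metric Filter Topology Function

namespace Pool.Agent.Lib.MP_3fe454_an.S2

open PD

namespace Quad

variable {F : Dis} (Q : Quad F)

theorem ol1_Cx_sub : Q.Cx ⊆ Q.S := by
  rintro w ⟨h1, h2, h3, h4⟩
  rw [Q.X_Gt] at h2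
  have h5 : Q.X w < 1 := Q.φ.lt_iff_lt.1 (h2.trans_lt (Q.gap 1 ⟨one_pos, le_rfl⟩))
  exact ⟨abs_le.2 ⟨by linarith, h5.le⟩, abs_le.2 ⟨by linarith, h4⟩⟩

theorem ol1_symm_nonneg {w : ℂ} (h : 0 ≤ Q.Y w) : 0 ≤ Q.Y (Q.Gt.symm w) := by
  rcases h.eq_or_lt with h | h
  · exact ((Q.Y_symm_zero 1 w).2 h.symm).ge
  · exact ((Q.Y_symm_pos 1 w).2 h).le

theorem ol1_Cn_sub : Q.Cn ⊆ Q.S := by
  rintro w ⟨h1, h2, h3, h4⟩
  have h5 := Q.Y_Gt_abs (Q.Gt.symm w)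
  rw [Homeomorph.apply_symm_apply, abs_of_nonneg (Q.ol1_symm_nonneg h3)] at h5
  have h6 : Q.lam * Q.Y (Q.Gt.symm w) ≤ 1 * 1 :=
    mul_le_mul Q.lam_lt.le h4 (Q.ol1_symm_nonneg h3) zero_le_one
  exact ⟨abs_le.2 ⟨by linarith, h2⟩, by linarith⟩

theorem Cx_compact : IsCompact Q.Cx :=
  Q.S_compact.of_isClosed_subset ((isClosed_le continuous_const Q.cX).inter
    ((isClosed_le (Q.cX.comp Q.Gt.continuous) continuous_const).inter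
      ((isClosed_le continuous_const Q.cY).inter (isClosed_le Q.cY continuous_const))))
    Q.ol1_Cx_sub

theorem Cn_compact : IsCompact Q.Cn :=
  Q.S_compact.of_isClosed_subset ((isClosed_le continuous_const Q.cX).inter
    ((isClosed_le Q.cX continuous_const).inter ((isClosed_le continuous_const Q.cY).inter
      (isClosed_le (Q.cY.comp Q.Gt.symm.continuous) continuous_const))))
    Q.ol1_Cn_sub

theorem Cx_sub : Q.Cx ⊆ Q.S := Q.ol1_Cx_sub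

theorem Cn_sub : Q.Cn ⊆ Q.S := Q.ol1_Cn_sub

theorem ol1_C_sub {w : ℂ} (h : w ∈ Q.Cx ∪ Q.Cn) : w ∈ Q.S :=
  h.elim (fun h => Q.Cx_sub h) fun h => Q.Cn_sub h

theorem En_open : IsOpen Q.En := isOpen_lt continuous_const (Q.cY.comp Q.Gt.symm.continuous)

theorem Ex_open : IsOpen Q.Ex := isOpen_lt continuous_const (Q.cX.comp Q.Gt.continuous)

theorem Ns_En {w : ℂ} (h : w ∈ Q.Ns) (h' : w ∈ Q.En) : w ∈ Q.Cx ∧ w ∉ Q.Ex := by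
  rcases h.1 with h1 | h1
  · exact ⟨h1, not_lt.2 h1.2.1⟩
  · exact absurd h' (not_lt.2 h1.2.2.2)

theorem Ns_fwd {w : ℂ} (h : w ∈ Q.Ns) (h' : w ∉ Q.Ex) :
    w ∈ Q.Cx ∧ F.f^[Q.M] w = Q.Gt w ∧ Q.Gt w ∈ Q.Ns ∧ Q.X w < Q.X (Q.Gt w) := by
  obtain ⟨h1, h2, h3⟩ := h
  obtain ⟨h4, h5⟩ := Q.ol1_C_sub h1
  have h6 : Q.X (Q.Gt w) ≤ 1 := not_lt.1 h'
  have h7 : Q.X w < Q.X (Q.Gt w) := by
    rw [Q.X_Gt]; exact Q.gap _ ⟨h2, (abs_le.1 h4).2⟩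
  have h8 : 0 < Q.Y (Q.Gt w) := (Q.Y_iter_pos 1 w).2 h3
  have h9 : |Q.X (Q.Gt w)| ≤ 1 := abs_le.2 ⟨by linarith, h6⟩
  refine ⟨⟨h2.le, h6, h3.le, (abs_le.1 h5).2⟩, Q.ag w h4 h5 h9,
    ⟨Or.inr ⟨(h2.trans h7).le, h6, h8.le, ?_⟩, h2.trans h7, h8⟩, h7⟩
  rw [Homeomorph.symm_apply_apply]
  exact (abs_le.1 h5).2

theorem Ns_back {w : ℂ} (h : w ∈ Q.Ns) (h' : w ∉ Q.En) :
    w ∈ Q.Cn ∧ Q.Gt.symm w ∈ Q.Ns ∧ F.f^[Q.M] (Q.Gt.symm w) = w ∧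
      Q.X (Q.Gt.symm w) < Q.X w := by
  obtain ⟨h1, h2, h3⟩ := h
  obtain ⟨h4, h5⟩ := Q.ol1_C_sub h1
  have h6 : Q.Y (Q.Gt.symm w) ≤ 1 := not_lt.1 h'
  have h7 : 0 < Q.X (Q.Gt.symm w) := by
    rw [Q.X_symm, Q.φ.lt_symm_apply, Q.fix]; exact h2
  have h8 : 0 < Q.Y (Q.Gt.symm w) := (Q.Y_symm_pos 1 w).2 h3
  have h9 : Q.X (Q.Gt (Q.Gt.symm w)) ≤ 1 := by
    rw [Homeomorph.apply_symm_apply]; exact (abs_le.1 h4).2
  have hN : Q.Gt.symm w ∈ Q.Ns := ⟨Or.inl ⟨h7.le, h9, h8.le, h6⟩, h7, h8⟩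
  obtain ⟨-, a1, -, a2⟩ := Q.Ns_fwd hN (not_lt.2 h9)
  rw [Homeomorph.apply_symm_apply] at a1 a2
  exact ⟨⟨h2.le, (abs_le.1 h4).2, h3.le, h6⟩, hN, a1, a2⟩

theorem per_C {w : ℂ} (h : w ∈ Q.Cx ∪ Q.Cn) (hw : w ∈ periodicPts F.f) : w = Q.p ∨ w ∈ Q.Ns := by
  obtain ⟨h1, h2⟩ := Q.ol1_C_sub h
  have h3 : 0 ≤ Q.X w := h.elim (fun h => h.1) fun h => h.1
  have h4 : 0 ≤ Q.Y w := h.elim (fun h => h.2.2.1) fun h => h.2.2.1
  rcases h3.eq_or_lt with h5 | h5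
  · exact Or.inl (Q.axis_per h5.symm h2 hw)
  rcases h4.eq_or_lt with h6 | h6
  · refine Or.inl (Q.Gc_per (s := 0) ?_ hw)
    rw [Q.Gc_zero]
    exact ⟨h3, (abs_le.1 h1).2, h6.symm⟩
  · exact Or.inr ⟨h, h5, h6⟩

theorem ol1_succ (w : ℂ) (i : ℕ) : F.f^[Q.M * (i + 1)] w = F.f^[Q.M] (F.f^[Q.M * i] w) := by
  rw [mul_add, mul_one, add_comm, iterate_add_apply]

theorem ol1_per {w : ℂ} {κ : ℕ} (hw : F.f^[κ * Q.M] w = w) (j : ℕ) :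
    F.f^[Q.M * (j + κ)] w = F.f^[Q.M * j] w := by
  rw [mul_add, iterate_add_apply, mul_comm Q.M κ, hw]

theorem per_En {w : ℂ} {κ j : ℕ} (hκ : 0 < κ) (hw : F.f^[κ * Q.M] w = w)
    (h : F.f^[Q.M * j] w ∈ Q.Ns) : ∃ j', F.f^[Q.M * j'] w ∈ Q.Ns ∩ Q.En := by
  by_contra hn
  have hD : w ∈ Disc := F.Λ_sub_Disc (F.periodic_mem_Λ ⟨_, Nat.mul_pos hκ Q.M_pos, hw⟩)
  have step : ∀ i, F.f^[Q.M * (i + 1)] w ∈ Q.Ns → F.f^[Q.M * i] w ∈ Q.Ns ∧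
      Q.X (F.f^[Q.M * i] w) < Q.X (F.f^[Q.M * (i + 1)] w) := fun i hi => by
    obtain ⟨-, a1, a2, a3⟩ := Q.Ns_back hi fun h' => hn ⟨_, hi, h'⟩
    have a4 : Q.Gt.symm (F.f^[Q.M * (i + 1)] w) ∈ Disc :=
      ball_subset_closedBall (Q.S_sub (Q.ol1_C_sub a1.1))
    have e : Q.Gt.symm (F.f^[Q.M * (i + 1)] w) = F.f^[Q.M * i] w :=
      inj_iter F Q.M a4 (F.iter_mem_Disc hD _) (a2.trans (Q.ol1_succ w i))
    rw [e] at a1 a3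
    exact ⟨a1, a3⟩
  have key : ∀ n i, F.f^[Q.M * (i + (n + 1))] w ∈ Q.Ns → F.f^[Q.M * i] w ∈ Q.Ns ∧
      Q.X (F.f^[Q.M * i] w) < Q.X (F.f^[Q.M * (i + (n + 1))] w) := by
    intro n
    induction n with
    | zero => exact step
    | succ n ih =>
      intro i hi
      obtain ⟨a1, a2⟩ := step (i + (n + 1)) hi
      exact ⟨(ih i a1).1, (ih i a1).2.trans a2⟩
  obtain ⟨n, rfl⟩ : ∃ n, κ = n + 1 := ⟨κ - 1, by omega⟩
  have e := Q.ol1_per hw j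
  have h2 := (key n j (e.symm ▸ h)).2
  rw [e] at h2
  exact lt_irrefl _ h2

theorem per_Ex {w : ℂ} {κ j : ℕ} (hκ : 0 < κ) (hw : F.f^[κ * Q.M] w = w)
    (h : F.f^[Q.M * j] w ∈ Q.Ns) : ∃ j', F.f^[Q.M * j'] w ∈ Q.Ns ∩ Q.Ex := by
  by_contra hn
  have step : ∀ i, F.f^[Q.M * i] w ∈ Q.Ns → F.f^[Q.M * (i + 1)] w ∈ Q.Ns ∧
      Q.X (F.f^[Q.M * i] w) < Q.X (F.f^[Q.M * (i + 1)] w) := fun i hi => by
    obtain ⟨-, a1, a2, a3⟩ := Q.Ns_fwd hi fun h' => hn ⟨_, hi, h'⟩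
    rw [Q.ol1_succ, a1]
    exact ⟨a2, a3⟩
  have key : ∀ n, F.f^[Q.M * (j + (n + 1))] w ∈ Q.Ns ∧
      Q.X (F.f^[Q.M * j] w) < Q.X (F.f^[Q.M * (j + (n + 1))] w) := by
    intro n
    induction n with
    | zero => exact step j h
    | succ n ih =>
      obtain ⟨a1, a2⟩ := step (j + (n + 1)) ih.1
      exact ⟨a1, ih.2.trans a2⟩
  obtain ⟨n, rfl⟩ : ∃ n, κ = n + 1 := ⟨κ - 1, by omega⟩
  have h2 := (key n).2
  rw [Q.ol1_per hw j] at h2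
  exact lt_irrefl _ h2

theorem small_sub_Ns : ∃ d > 0, Q.T d ⊆ Q.Ns := by
  refine ⟨Q.φ.symm 1, ?_, ?_⟩
  · rw [gt_iff_lt, Q.φ.lt_symm_apply, Q.fix]; exact one_pos
  · rintro w ⟨h1, h2, h3, h4⟩
    refine ⟨Or.inl ⟨h1.le, ?_, h3.le, by linarith⟩, h1, h3⟩
    rw [Q.X_Gt]
    exact (Q.φ.lt_symm_apply.1 h2).le

end Quad

end Pool.Agent.Lib.MP_3fe454_an.S2
end

-- part Pool.Agent.Lib.MP_3fe454_an.S2.OL2
section

/-!
The parity argument at the gates.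
-/

set_option autoImplicit false

open Set Metric Filter Topology Function

namespace Pool.Agent.Lib.MP_3fe454_an.S2

open PD

/-- closed rectangle in the chart -/
def ol2_R {F : Dis} (Q : Quad F) (x1 x2 y1 y2 : ℝ) : Set ℂ :=
  {w | x1 ≤ Q.X w ∧ Q.X w ≤ x2 ∧ y1 ≤ Q.Y w ∧ Q.Y w ≤ y2}

theorem ol2_R_compact {F : Dis} (Q : Quad F) (x1 x2 y1 y2 : ℝ) :
    IsCompact (ol2_R Q x1 x2 y1 y2) := Q.rect_compact x1 x2 y1 y2

theorem ol2_R_conn {F : Dis} (Q : Quad F) (x1 x2 y1 y2 : ℝ) :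
    IsPreconnected (ol2_R Q x1 x2 y1 y2) := by
  have h := Q.rect_conn (isPreconnected_Icc (a := x1) (b := x2))
    (isPreconnected_Icc (a := y1) (b := y2))
  have e : ol2_R Q x1 x2 y1 y2 = {w | Q.X w ∈ Icc x1 x2 ∧ Q.Y w ∈ Icc y1 y2} := by
    ext w
    exact ⟨fun h => ⟨⟨h.1, h.2.1⟩, h.2.2⟩, fun h => ⟨h.1.1, h.1.2, h.2⟩⟩
  rw [e]
  exact h

theorem ol2_R_pt {F : Dis} (Q : Quad F) {x1 x2 y1 y2 x y : ℝ} (h1 : x1 ≤ x) (h2 : x ≤ x2)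
    (h3 : y1 ≤ y) (h4 : y ≤ y2) : Q.pt x y ∈ ol2_R Q x1 x2 y1 y2 := by
  refine ⟨?_, ?_, ?_, ?_⟩
  · rwa [Q.X_pt]
  · rwa [Q.X_pt]
  · rwa [Q.Y_pt]
  · rwa [Q.Y_pt]

theorem ol2_homeo (G : ℂ ≃ₜ ℂ) (m : ℕ) : ∃ H : ℂ ≃ₜ ℂ, ∀ w, H w = G^[m] w := by
  induction m with
  | zero => exact ⟨Homeomorph.refl ℂ, fun w => rfl⟩
  | succ n ih =>
    obtain ⟨H, hH⟩ := ih
    refine ⟨H.trans G, fun w => ?_⟩
    rw [iterate_succ_apply', ← hH]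
    rfl

theorem ol2_top {F : Dis} (Q : Quad F) {w : ℂ} (h : Q.Y w = 1) : w ∈ Q.En := by
  have h1 := Q.Y_Gt_abs (Q.Gt.symm w)
  rw [Homeomorph.apply_symm_apply, h, abs_one] at h1
  have h2 : 0 < Q.Y (Q.Gt.symm w) := (Q.Y_symm_pos 1 w).2 (by rw [h]; exact one_pos)
  rw [abs_of_pos h2] at h1
  have h3 := Q.lam_lt
  show 1 < Q.Y (Q.Gt.symm w)
  nlinarith

theorem ol2_level {F : Dis} (Q : Quad F) (m : ℕ) : ∃ x1 > 0, ∀ w, 0 ≤ Q.X w → Q.X w ≤ x1 →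
    Q.X w ≤ 1 → |Q.Y w| ≤ 1 → F.f^[Q.M * m] w = Q.Gt^[m] w := by
  have h1 : Q.φ^[m] (Q.φ.symm^[m] 1) = 1 :=
    (Function.LeftInverse.iterate (g := Q.φ) (f := Q.φ.symm) Q.φ.apply_symm_apply m) 1
  have hm : Monotone (Q.φ^[m]) := Q.φ.monotone.iterate m
  have h0 : Q.φ^[m] 0 = 0 := (Q.phi_iter_zero m 0).2 rfl
  refine ⟨Q.φ.symm^[m] 1, (Q.phi_iter_pos m _).1 (by rw [h1]; exact one_pos),
    fun w a b c d => ?_⟩
  have hw : w ∈ Q.S := ⟨by rw [abs_of_nonneg a]; exact c, d⟩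
  have h2 := hm a
  have h3 := hm b
  rw [h0] at h2
  rw [h1] at h3
  refine (Q.iter_ag hw (n := m) ?_ m le_rfl).1
  rw [Q.X_iter, abs_of_nonneg h2]
  exact h3

theorem ol2_low {F : Dis} (Q : Quad F) : ∃ b > 0, b ≤ 1 ∧ ∀ w, 0 < Q.X w → Q.X w ≤ 1 →
    0 < Q.Y w → Q.Y w ≤ b → w ∈ Q.Ns ∧ w ∉ Q.En := by
  obtain ⟨θ, hθ, h⟩ := Q.theta (η := 1) one_pos
  refine ⟨min θ 1, lt_min hθ one_pos, min_le_right _ _, fun w a b c d => ?_⟩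
  have h1 := h w (by rw [abs_of_pos a]; exact b)
    (by rw [abs_of_pos c]; exact d.trans (min_le_left _ _))
  have h2 := (abs_le.1 h1).2
  exact ⟨⟨Or.inr ⟨a.le, b, c.le, h2⟩, a, c⟩, not_lt.2 h2⟩

theorem ol2_corner {F : Dis} (Q : Quad F) {x b : ℝ} (hx : 0 < x) (hb : 0 < b) :
    Q.p ∈ closure {w | Q.X w ∈ Ioo 0 x ∧ Q.Y w ∈ Ioo 0 b} := by
  have hc : Continuous fun t : ℝ => Q.pt t t :=
    Q.c_pt.comp (continuous_id.prodMk continuous_id)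
  have ht : Tendsto (fun t : ℝ => Q.pt t t) (𝓝[>] 0) (𝓝 Q.p) :=
    (hc.tendsto 0).mono_left nhdsWithin_le_nhds
  refine mem_closure_of_tendsto ht ?_
  filter_upwards [Ioo_mem_nhdsGT (lt_min hx hb)] with t h
  refine ⟨?_, ?_⟩
  · rw [Q.X_pt]
    exact ⟨h.1, h.2.trans_le (min_le_left _ _)⟩
  · rw [Q.Y_pt]
    exact ⟨h.1, h.2.trans_le (min_le_right _ _)⟩

theorem Quad.gate {F : Dis} (Q : Quad F) (m : ℕ) {a v : ℂ} (ha : a ∈ Q.Ns ∩ Q.En)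
    (hv : v ∈ Q.Ns ∩ Q.Ex) : ∃ x0 > 0, ∀ x ∈ Ioo (0 : ℝ) x0, ∃ kA : Set ℂ, IsCompact kA ∧
      kA ⊆ Q.Cx ∧ kA ⊆ insert (Q.pt x 0) (Q.Ns \ Q.Ex) ∧ ∀ cA : Set ℂ, IsCompact cA →
        IsPreconnected cA → cA ⊆ Disc → Q.pt x 0 ∈ cA → a ∈ cA → Q.p ∉ cA →
        cA ∩ Q.Ns ⊆ Q.En → ∀ B : Set ℂ, IsPreconnected B →
          Disjoint B (F.f^[Q.M * m] '' (cA ∪ kA)) → Q.p ∈ closure B →
            F.f^[Q.M * m] v ∈ closure B → False := by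
  obtain ⟨x1, hx1, hlev⟩ := ol2_level Q m
  obtain ⟨b, hb, hb1, hlow⟩ := ol2_low Q
  obtain ⟨H, hH⟩ := ol2_homeo Q.Gt m
  obtain ⟨haC, haE⟩ := Q.Ns_En ha.1 ha.2
  have hvE : v ∉ Q.En := fun h => (Q.Ns_En hv.1 h).2 hv.2
  have hvC : v ∈ Q.Cn := (Q.Ns_back hv.1 hvE).1
  have haX : 0 < Q.X a := ha.1.2.1
  have haY : 0 < Q.Y a := ha.1.2.2
  have hvX : 0 < Q.X v := hv.1.2.1
  have hvY : 0 < Q.Y v := hv.1.2.2
  have hvX1 : Q.X v ≤ 1 := hvC.2.1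
  have haφ : Q.φ (Q.X a) ≤ 1 := by
    have := haC.2.1
    rwa [Q.X_Gt] at this
  refine ⟨min (min (Q.X a) (Q.X v)) x1, lt_min (lt_min haX hvX) hx1, fun x hx => ?_⟩
  have hx0 : 0 < x := hx.1
  have hxa : x < Q.X a := hx.2.trans_le ((min_le_left _ _).trans (min_le_left _ _))
  have hxv : x < Q.X v := hx.2.trans_le ((min_le_left _ _).trans (min_le_right _ _))
  have hxx : x < x1 := hx.2.trans_le (min_le_right _ _)
  set U := ol2_R Q (Q.X a) (Q.X a) (Q.Y a) 1 with hU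
  set T := ol2_R Q x (Q.X a) 1 1 with hT
  set V := ol2_R Q x x 0 1 with hV
  set V' := ol2_R Q x x b 1 with hV'
  have hk : ∀ w ∈ U ∪ T ∪ V, x ≤ Q.X w ∧ Q.X w ≤ Q.X a ∧ 0 ≤ Q.Y w ∧ Q.Y w ≤ 1 := by
    rintro w ((h | h) | h)
    · exact ⟨hxa.le.trans h.1, h.2.1, haY.le.trans h.2.2.1, h.2.2.2⟩
    · exact ⟨h.1, h.2.1, zero_le_one.trans h.2.2.1, h.2.2.2⟩
    · exact ⟨h.1, h.2.1.trans hxa.le, h.2.2.1, h.2.2.2⟩
  have hkφ : ∀ w ∈ U ∪ T ∪ V, Q.X (Q.Gt w) ≤ 1 := by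
    intro w hw
    rw [Q.X_Gt]
    exact (Q.φ.monotone (hk w hw).2.1).trans haφ
  have hkC : U ∪ T ∪ V ⊆ Q.Cx := fun w hw =>
    ⟨hx0.le.trans (hk w hw).1, hkφ w hw, (hk w hw).2.2.1, (hk w hw).2.2.2⟩
  have hkE : ∀ w ∈ U ∪ T ∪ V, w ∈ Q.En ∨ Q.X w = x := by
    rintro w ((h | h) | h)
    · left
      have h1 : Q.X a = Q.X w := le_antisymm h.1 h.2.1
      have h2 := (Q.Y_symm_le_iff h1).2 h.2.2.1
      exact lt_of_lt_of_le ha.2 h2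
    · exact Or.inl (ol2_top Q (le_antisymm h.2.2.2 h.2.2.1))
    · exact Or.inr (le_antisymm h.2.1 h.1)
  refine ⟨U ∪ T ∪ V, ((ol2_R_compact Q _ _ _ _).union (ol2_R_compact Q _ _ _ _)).union
    (ol2_R_compact Q _ _ _ _), hkC, ?_, ?_⟩
  · intro w hw
    rcases (hk w hw).2.2.1.eq_or_lt with h0 | h0
    · left
      have h1 : Q.X w = x := by
        rcases hw with (h | h) | h
        · exact absurd h.2.2.1 (by rw [← h0]; exact not_le.2 haY)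
        · exact absurd h.2.2.1 (by rw [← h0]; exact not_le.2 one_pos)
        · exact le_antisymm h.2.1 h.1
      rw [← Q.pt_XY w, h1, ← h0]
    · exact Or.inr ⟨⟨Or.inl (hkC hw), hx0.trans_le (hk w hw).1, h0⟩, not_lt.2 (hkφ w hw)⟩
  intro cA hcA hcA' hcD hxA haA hpA hAE B hB hdis hpB hvB
  have hG : Continuous F.f^[Q.M * m] := F.cf.iterate _
  have hSD : Q.S ⊆ Disc := Q.S_sub.trans ball_subset_closedBall
  have hND : Q.Ns ⊆ Disc := by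
    rintro w ⟨h | h, -⟩
    · exact hSD (Q.Cx_sub h)
    · exact hSD (Q.Cn_sub h)
  have hKD : cA ∪ (U ∪ T ∪ V) ⊆ Disc := union_subset hcD (hkC.trans (Q.Cx_sub.trans hSD))
  -- good points
  set D : Set ℂ := insert Q.p {w | w ∈ Q.Ns ∧ w ∉ Q.En ∧ Q.X w ≠ x} with hD
  have hDK : ∀ w ∈ D, F.f^[Q.M * m] w ∉ F.f^[Q.M * m] '' (cA ∪ (U ∪ T ∪ V)) := by
    rintro w hw ⟨w', hw', e⟩
    have hwD : w ∈ Disc := by
      rcases hw with rfl | hw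
      · exact F.Λ_sub_Disc Q.p_Λ
      · exact hND hw.1
    have e' : w' = w := inj_iter F _ (hKD hw') hwD e
    subst e'
    rcases hw with rfl | hw
    · rcases hw' with h | h
      · exact hpA h
      · have := (hk _ h).1
        rw [Q.p_X] at this
        exact absurd this (not_le.2 hx0)
    · rcases hw' with h | h
      · exact hw.2.1 (hAE ⟨h, hw.1⟩)
      · rcases hkE _ h with h | h
        · exact hw.2.1 h
        · exact hw.2.2 h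
  set W : Set ℂ := insert Q.p {w | Q.X w ∈ Ioo 0 x ∧ Q.Y w ∈ Ioo 0 b} with hW
  set E1 : Set ℂ := {w | Q.X w ∈ Ioc x 1 ∧ Q.Y w ∈ Ioo 0 b} with hE1
  set E2 : Set ℂ := {w | Q.X w ∈ Icc (Q.X v) (Q.X v) ∧ Q.Y w ∈ Ioc 0 (Q.Y v)} with hE2
  have hWc : IsPreconnected W :=
    (Q.rect_conn isPreconnected_Ioo isPreconnected_Ioo).subset_closure (subset_insert _ _)
      (insert_subset (ol2_corner Q hx0 hb) subset_closure)
  have hEc : IsPreconnected (E1 ∪ E2) := by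
    refine IsPreconnected.union (Q.pt (Q.X v) (min (b / 2) (Q.Y v))) ?_ ?_
      (Q.rect_conn isPreconnected_Ioc isPreconnected_Ioo)
      (Q.rect_conn isPreconnected_Icc isPreconnected_Ioc)
    · refine ⟨?_, ?_⟩
      · rw [Q.X_pt]
        exact ⟨hxv, hvX1⟩
      · rw [Q.Y_pt]
        exact ⟨lt_min (by linarith) hvY, (min_le_left _ _).trans_lt (by linarith)⟩
    · refine ⟨?_, ?_⟩
      · rw [Q.X_pt]
        exact ⟨le_rfl, le_rfl⟩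
      · rw [Q.Y_pt]
        exact ⟨lt_min (by linarith) hvY, min_le_right _ _⟩
  have hWD : W ⊆ D := by
    rintro w (h | h)
    · exact Or.inl h
    · obtain ⟨h1, h2⟩ := hlow w h.1.1 (by linarith [h.1.2]) h.2.1 h.2.2.le
      exact Or.inr ⟨h1, h2, h.1.2.ne⟩
  have hED : E1 ∪ E2 ⊆ D := by
    rintro w (h | h)
    · obtain ⟨h1, h2⟩ := hlow w (hx0.trans h.1.1) h.1.2 h.2.1 h.2.2.le
      exact Or.inr ⟨h1, h2, h.1.1.ne'⟩
    · have h1 : Q.X w = Q.X v := le_antisymm h.1.2 h.1.1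
      have h2 : Q.Y (Q.Gt.symm w) ≤ 1 := ((Q.Y_symm_le_iff h1).2 h.2.2).trans hvC.2.2.2
      refine Or.inr ⟨⟨Or.inr ⟨?_, ?_, h.2.1.le, h2⟩, ?_, h.2.1⟩, not_lt.2 h2, ?_⟩
      · rw [h1]
        exact hvX.le
      · rw [h1]
        exact hvX1
      · rw [h1]
        exact hvX
      · rw [h1]
        exact hxv.ne'
  have hvE2 : v ∈ E1 ∪ E2 := Or.inr ⟨⟨le_rfl, le_rfl⟩, hvY, le_rfl⟩
  have hpG : F.f^[Q.M * m] Q.p = Q.p := Q.f_p_iter m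
  set B1 : Set ℂ := insert Q.p (insert (F.f^[Q.M * m] v) B) with hB1
  have hB1c : IsPreconnected B1 :=
    hB.subset_closure ((subset_insert _ _).trans (subset_insert _ _))
      (insert_subset hpB (insert_subset hvB subset_closure))
  set B' : Set ℂ := (B1 ∪ F.f^[Q.M * m] '' W) ∪ F.f^[Q.M * m] '' (E1 ∪ E2) with hB'
  have hB'c : IsPreconnected B' := by
    refine IsPreconnected.union (F.f^[Q.M * m] v) (Or.inl (Or.inr (Or.inl rfl))) ⟨v, hvE2, rfl⟩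
      ?_ (hEc.image _ hG.continuousOn)
    exact IsPreconnected.union Q.p (Or.inl rfl) ⟨Q.p, Or.inl rfl, hpG⟩ hB1c
      (hWc.image _ hG.continuousOn)
  have hB'd : ∀ w ∈ B', w ∉ F.f^[Q.M * m] '' (cA ∪ (U ∪ T ∪ V)) := by
    rintro w (((rfl | rfl | h) | ⟨w, h, rfl⟩) | ⟨w, h, rfl⟩)
    · have := hDK Q.p (Or.inl rfl)
      rwa [hpG] at this
    · exact hDK v (hED hvE2)
    · exact disjoint_left.1 hdis h
    · exact hDK w (hWD h)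
    · exact hDK w (hED h)
  -- the chart after m steps
  set Θ : ℂ ≃ₜ ℝ × ℝ := H.symm.trans Q.Ψ with hΘ
  have hΘs : ∀ s y : ℝ, 0 ≤ s → s ≤ x1 → s ≤ 1 → 0 ≤ y → y ≤ 1 →
      Θ.symm (s, y) = F.f^[Q.M * m] (Q.pt s y) := by
    intro s y h1 h2 h3 h4 h5
    rw [hlev (Q.pt s y) (by rwa [Q.X_pt]) (by rwa [Q.X_pt]) (by rwa [Q.X_pt])
      (by rw [Q.Y_pt, abs_of_nonneg h4]; exact h5), ← hH]
    rfl
  have hx1' : x < 1 := hxv.trans_le hvX1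
  set Z0 : Set ℂ := ((cA ∪ U) ∪ T) ∪ V' with hZ0
  have hZ0K : Z0 ⊆ cA ∪ (U ∪ T ∪ V) := by
    rintro w (((h | h) | h) | h)
    · exact Or.inl h
    · exact Or.inr (Or.inl (Or.inl h))
    · exact Or.inr (Or.inl (Or.inr h))
    · exact Or.inr (Or.inr ⟨h.1, h.2.1, hb.le.trans h.2.2.1, h.2.2.2⟩)
  have hZ0c : IsCompact Z0 := ((hcA.union (ol2_R_compact Q _ _ _ _)).union
    (ol2_R_compact Q _ _ _ _)).union (ol2_R_compact Q _ _ _ _)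
  have hZ0p : IsPreconnected Z0 := by
    refine IsPreconnected.union (Q.pt x 1) (Or.inr (ol2_R_pt Q le_rfl hxa.le le_rfl le_rfl))
      (ol2_R_pt Q le_rfl le_rfl hb1 le_rfl) ?_ (ol2_R_conn Q _ _ _ _)
    refine IsPreconnected.union (Q.pt (Q.X a) 1)
      (Or.inr (ol2_R_pt Q le_rfl le_rfl haC.2.2.2 le_rfl))
      (ol2_R_pt Q hxa.le le_rfl le_rfl le_rfl) ?_ (ol2_R_conn Q _ _ _ _)
    exact IsPreconnected.union a haA ⟨le_rfl, le_rfl, le_rfl, haC.2.2.2⟩ hcA'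
      (ol2_R_conn Q _ _ _ _)
  obtain ⟨ε, hε, hsep⟩ := sepV Θ (a := 0) (b := b) (c := x) (m := b / 2) (by linarith)
    (by linarith) (hZ0c.image hG) (hZ0p.image _ hG.continuousOn)
    (by
      rw [hΘs x 0 hx0.le hxx.le hx1'.le le_rfl zero_le_one]
      exact ⟨_, Or.inl (Or.inl (Or.inl hxA)), rfl⟩)
    (by
      rw [hΘs x b hx0.le hxx.le hx1'.le hb.le hb1]
      exact ⟨_, Or.inr (ol2_R_pt Q le_rfl le_rfl le_rfl hb1), rfl⟩)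
    (by
      intro y hy
      rw [hΘs x y hx0.le hxx.le hx1'.le hy.1.le (hy.2.le.trans hb1)]
      rintro ⟨w, hw, e⟩
      obtain ⟨h1, h2⟩ := hlow (Q.pt x y) (by rwa [Q.X_pt]) (by rw [Q.X_pt]; exact hx1'.le)
        (by rw [Q.Y_pt]; exact hy.1) (by rw [Q.Y_pt]; exact hy.2.le)
      have e' : w = Q.pt x y := inj_iter F _ (hKD (hZ0K hw)) (hND h1) e
      subst e'
      rcases hw with ((h | h) | h) | h
      · exact h2 (hAE ⟨h, h1⟩)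
      · have := h.1
        rw [Q.X_pt] at this
        exact absurd this (not_le.2 hxa)
      · have := h.2.2.1
        rw [Q.Y_pt] at this
        exact absurd this (not_le.2 (hy.2.trans_le hb1))
      · have := h.2.2.1
        rw [Q.Y_pt] at this
        exact absurd this (not_le.2 hy.2))
  obtain ⟨δ, hδ, hδ1, hδ2, hδ3, hδ4⟩ : ∃ δ > 0, δ < ε ∧ δ < x ∧ x + δ ≤ x1 ∧ x + δ ≤ 1 := by
    refine ⟨min (min (ε / 2) (x / 2)) (min (x1 - x) (1 - x)),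
      lt_min (lt_min (by linarith) (by linarith)) (lt_min (by linarith) (by linarith)),
      ?_, ?_, ?_, ?_⟩
    · exact ((min_le_left _ _).trans (min_le_left _ _)).trans_lt (by linarith)
    · exact ((min_le_left _ _).trans (min_le_right _ _)).trans_lt (by linarith)
    · have := (min_le_right (min (ε / 2) (x / 2)) _).trans (min_le_left (x1 - x) (1 - x))
      linarith
    · have := (min_le_right (min (ε / 2) (x / 2)) _).trans (min_le_right (x1 - x) (1 - x))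
      linarith
  refine hsep (Θ.symm (x + δ, b / 2)) (Θ.symm (x - δ, b / 2)) ?_ ?_ ?_ ?_ B' hB'c ?_ ?_ ⟨?_, ?_⟩
  · rw [Homeomorph.apply_symm_apply, Prod.dist_eq, dist_self, Real.dist_eq, add_sub_cancel_left,
      abs_of_pos hδ]
    exact max_lt hδ1 hε
  · rw [Homeomorph.apply_symm_apply, Prod.dist_eq, dist_self, Real.dist_eq, sub_sub_cancel_left,
      abs_neg, abs_of_pos hδ]
    exact max_lt hδ1 hε
  · rw [Homeomorph.apply_symm_apply]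
    exact lt_add_of_pos_right x hδ
  · rw [Homeomorph.apply_symm_apply]
    exact sub_lt_self x hδ
  · exact disjoint_left.2 fun w hw h => hB'd w hw (image_mono hZ0K h)
  · intro y hy h
    refine hB'd _ h ?_
    rw [hΘs x y hx0.le hxx.le hx1'.le hy.1 (hy.2.trans hb1)]
    exact ⟨_, Or.inr (Or.inr (ol2_R_pt Q le_rfl le_rfl hy.1 (hy.2.trans hb1))), rfl⟩
  · rw [hΘs (x + δ) (b / 2) (by linarith) hδ3 hδ4 (by linarith) (by linarith)]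
    refine Or.inr ⟨_, Or.inl ⟨?_, ?_⟩, rfl⟩
    · rw [Q.X_pt]
      exact ⟨lt_add_of_pos_right x hδ, hδ4⟩
    · rw [Q.Y_pt]
      exact ⟨by linarith, by linarith⟩
  · rw [hΘs (x - δ) (b / 2) (by linarith) (by linarith) (by linarith) (by linarith) (by linarith)]
    refine Or.inl (Or.inr ⟨_, Or.inr ⟨?_, ?_⟩, rfl⟩)
    · rw [Q.X_pt]
      exact ⟨by linarith, sub_lt_self x hδ⟩
    · rw [Q.Y_pt]
      exact ⟨by linarith, by linarith⟩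

end Pool.Agent.Lib.MP_3fe454_an.S2
end

-- part Pool.Agent.Lib.MP_3fe454_an.S2.OL3
section

/-!
The forward continuum enters through the entrance gate.
-/

set_option autoImplicit false

open Set Metric Filter Topology Function

namespace Pool.Agent.Lib.MP_3fe454_an.S2

open PD

namespace OLD

variable {F : Dis} (O : OLD F)

theorem ol3_ne (Q : Quad F) {v : ℂ} (hv : v ∈ periodicPts F.f) (hne : v ≠ Q.p) (j : ℕ) :
    F.f^[Q.M * j] v ≠ Q.p := fun h =>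
  hne (inj_iter F (Q.M * j) (F.Λ_sub_Disc (F.periodic_mem_Λ hv)) (F.Λ_sub_Disc Q.p_Λ)
    (h.trans (Q.f_p_iter j).symm))

theorem ol3_off (Q : Quad F) {v : ℂ} (hv : v ∈ periodicPts F.f) (hne : v ≠ Q.p) {j : ℕ}
    (h : F.f^[Q.M * j] v ∉ Q.Ns) : F.f^[Q.M * j] ⁻¹' (Q.Cx ∪ Q.Cn)ᶜ ∈ 𝓝 v := by
  refine (F.cf.iterate _).continuousAt.preimage_mem_nhds
    ((Q.Cx_compact.union Q.Cn_compact).isClosed.isOpen_compl.mem_nhds fun h' => ?_)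
  exact (Q.per_C h' (per_iter F hv _).1).elim (ol3_ne Q hv hne j) h

theorem ol3_p_Cx (Q : Quad F) : Q.p ∈ Q.Cx := by
  refine ⟨Q.p_X.ge, ?_, Q.p_Y.ge, ?_⟩
  · rw [Q.Gt_p, Q.p_X]
    exact zero_le_one
  · rw [Q.p_Y]
    exact zero_le_one

theorem ol3_disc (Q : Quad F) {w : ℂ} (h : w ∈ Q.S) : w ∈ Disc :=
  ball_subset_closedBall (Q.S_sub h)

theorem ol3_back (Q : Quad F) {w : ℂ} (hw : w ∈ F.Λ) {j : ℕ}
    (h : F.f^[Q.M * (j + 1)] w ∈ Q.Ns) (h' : F.f^[Q.M * (j + 1)] w ∉ Q.En) :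
    F.f^[Q.M * j] w ∈ Q.Ns := by
  obtain ⟨-, h1, h2, -⟩ := Q.Ns_back h h'
  have h3 : F.f^[Q.M] (F.f^[Q.M * j] w) = F.f^[Q.M * (j + 1)] w := by
    rw [← iterate_add_apply, mul_add, mul_one, add_comm]
  have h4 := inj_iter F Q.M (F.Λ_sub_Disc (F.iter_f_mem_Λ hw _))
    (ol3_disc Q (h1.1.elim (fun h => Q.Cx_sub h) fun h => Q.Cn_sub h)) (h3.trans h2.symm)
  rw [h4]
  exact h1

theorem ol3_XY : (O.A 0).X = O.Qa.X ∧ (O.A 0).Y = O.Qa.Y :=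
  ⟨(Quad.same O.A0.2.1).1, (Quad.same O.A0.2.1).2.1⟩

theorem ol3_low {i : ℕ} (hi : i ≤ O.kA) {j : ℕ} (h : F.f^[O.Qa.M * j] (O.A i).p ∉ O.Qa.Ns) :
    ∃ s0, ∀ s ≤ s0, F.f^[O.Qa.M * j] ((O.A i).γ s) ∉ O.Qa.Ns := by
  rcases Nat.eq_zero_or_pos i with rfl | hi0
  · obtain ⟨s0, hs0⟩ := eventually_atBot.1
      (((O.A 0).χ_lim.eventually (gt_mem_nhds (O.Qa.χ_pos (-j)))).and (eventually_le_atBot 0))
    refine ⟨s0, fun s hs hN => ?_⟩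
    obtain ⟨h1, h2⟩ := hs0 s hs
    have hX : O.Qa.X ((O.A 0).γ s) = (O.A 0).χ s := by
      rw [← O.ol3_XY.1, (O.A 0).γ_loc h2, Box.X_pt]
    have hY : O.Qa.Y ((O.A 0).γ s) = 0 := by
      rw [← O.ol3_XY.2, (O.A 0).γ_loc h2, Box.Y_pt]
    have h3 : 0 < O.Qa.X ((O.A 0).γ s) := hX ▸ (O.A 0).χ_pos s
    have h4 : O.Qa.X ((O.A 0).γ s) ≤ 1 := hX ▸ (O.A 0).chi_le_one.2 h2
    have h5 := (O.Qa.run h3 h4 (by rw [hY, abs_zero]; exact zero_le_one) (n := j)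
      ((O.Qa.le_dep_iff h3 h4).2 (hX ▸ h1.le))).2.2.1
    rw [hY, abs_zero, mul_zero] at h5
    exact hN.2.2.ne' (abs_nonpos_iff.1 h5)
  · obtain ⟨s0, hs0⟩ := (O.A i).Gc_tiny (ol3_off O.Qa (O.A i).p_per (O.neA i hi0 hi) h)
    exact ⟨s0, fun s hs hN => hs0 s hs (Or.inr ⟨s, self_mem_Iic, rfl⟩) hN.1⟩

theorem ol3_shift {i : ℕ} (hi : i ≤ O.kA) (j : ℕ) (s : ℝ) :
    F.f^[O.Qa.M * (j + O.κ)] ((O.A i).γ (s - 1)) = F.f^[O.Qa.M * j] ((O.A i).γ s) := by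
  have h := (O.A i).γ_iter 1 (s - 1)
  rw [O.powA i hi, mul_one, Nat.cast_one, sub_add_cancel] at h
  rw [mul_add, iterate_add_apply, mul_comm O.Qa.M O.κ, h]

theorem of1 : ∃ i ≤ O.kA, ∃ (j : ℕ), ∃ a ∈ O.Qa.Ns ∩ O.Qa.En,
    (∀ i' < i, ∀ j', ∀ w ∈ insert (O.A i').p (O.A i').Gam, F.f^[O.Qa.M * j'] w ∉ O.Qa.Ns) ∧
    (a = F.f^[O.Qa.M * j] (O.A i).p ∨ (F.f^[O.Qa.M * j] (O.A i).p ∉ O.Qa.Ns ∧ ∃ sa,
      a = F.f^[O.Qa.M * j] ((O.A i).γ sa) ∧ ∀ s ≤ sa,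
        F.f^[O.Qa.M * j] ((O.A i).γ s) ∈ O.Qa.Ns → F.f^[O.Qa.M * j] ((O.A i).γ s) ∈ O.Qa.En)) := by
  classical
  have hv : ∃ i, i ≤ O.kA ∧ ∃ j, ∃ w ∈ insert (O.A i).p (O.A i).Gam,
    F.f^[O.Qa.M * j] w ∈ O.Qa.Ns := O.visA
  obtain ⟨hi, j0, w0, hw0, hN0⟩ := Nat.find_spec hv
  have hmin : ∀ i' < Nat.find hv, ∀ j', ∀ w ∈ insert (O.A i').p (O.A i').Gam,
      F.f^[O.Qa.M * j'] w ∉ O.Qa.Ns := fun i' hi' j' w hw hN =>
    Nat.find_min hv hi' ⟨hi'.le.trans hi, j', w, hw, hN⟩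
  refine ⟨Nat.find hv, hi, ?_⟩
  generalize Nat.find hv = i at hi hw0 hmin
  by_cases hp : ∃ j, F.f^[O.Qa.M * j] (O.A i).p ∈ O.Qa.Ns
  · obtain ⟨j, hj⟩ := hp
    obtain ⟨j', hj'⟩ := O.Qa.per_En O.κ_pos (O.powA i hi ▸ (O.A i).f_p) hj
    exact ⟨j', _, hj', hmin, Or.inl rfl⟩
  push Not at hp
  obtain ⟨s0, rfl⟩ : w0 ∈ (O.A i).Gam := hw0.resolve_left fun h => hp j0 (h ▸ hN0)
  by_contra hcon
  have h1 : ∀ j sa, F.f^[O.Qa.M * (j + 1)] ((O.A i).γ sa) ∈ O.Qa.Ns →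
      ∃ s ≤ sa, F.f^[O.Qa.M * j] ((O.A i).γ s) ∈ O.Qa.Ns := by
    intro j sa hsa
    by_contra h2
    have h3 : ∀ s ≤ sa, F.f^[O.Qa.M * (j + 1)] ((O.A i).γ s) ∈ O.Qa.Ns →
        F.f^[O.Qa.M * (j + 1)] ((O.A i).γ s) ∈ O.Qa.En := fun s hs hN => by
      by_contra h4
      exact h2 ⟨s, hs, ol3_back O.Qa ((O.A i).γ_Λ s) hN h4⟩
    exact hcon ⟨j + 1, _, ⟨hsa, h3 sa le_rfl hsa⟩, hmin, Or.inr ⟨hp _, sa, rfl, h3⟩⟩
  have h2 : ∀ k sa, F.f^[O.Qa.M * (j0 + k)] ((O.A i).γ sa) ∈ O.Qa.Ns →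
      ∃ s ≤ sa, F.f^[O.Qa.M * j0] ((O.A i).γ s) ∈ O.Qa.Ns := by
    intro k
    induction k with
    | zero => exact fun sa h => ⟨sa, le_rfl, h⟩
    | succ k ih =>
      intro sa h
      obtain ⟨s, hs, h3⟩ := h1 (j0 + k) sa h
      obtain ⟨s', hs', h4⟩ := ih s h3
      exact ⟨s', hs'.trans hs, h4⟩
  have h3 : ∀ n : ℕ, ∃ s ≤ s0 - n, F.f^[O.Qa.M * j0] ((O.A i).γ s) ∈ O.Qa.Ns := by
    intro n
    induction n with
    | zero => exact ⟨s0, by simp, hN0⟩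
    | succ n ih =>
      obtain ⟨s, hs, h3⟩ := ih
      obtain ⟨s', hs', h4⟩ := h2 O.κ (s - 1) (by rwa [O.ol3_shift hi])
      exact ⟨s', by push_cast; linarith, h4⟩
  obtain ⟨s1, hs1⟩ := O.ol3_low hi (hp j0)
  obtain ⟨n, hn⟩ := exists_nat_ge (s0 - s1)
  obtain ⟨s, hs, h4⟩ := h3 n
  exact hs1 s (by linarith) h4

/-- good continua -/
def ol3_K (W : Set ℂ) (y : ℝ) (D : Set ℂ) : Prop :=
  IsCompact D ∧ IsPreconnected D ∧ D ⊆ Disc ∧ D ⊆ W ∧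
    ∃ S, ∀ w ∈ D, ∃ i ≤ O.kA, w ∈ (O.A i).Gc S ∪ (O.A i).Sig y

theorem ol3_union {W D D' : Set ℂ} {y : ℝ} (h : O.ol3_K W y D) (h' : O.ol3_K W y D') {z : ℂ}
    (hz : z ∈ D) (hz' : z ∈ D') : O.ol3_K W y (D ∪ D') := by
  obtain ⟨h1, h2, h3, h4, S, h5⟩ := h
  obtain ⟨k1, k2, k3, k4, S', k5⟩ := h'
  refine ⟨h1.union k1, h2.union z hz hz' k2, union_subset h3 k3, union_subset h4 k4, max S S', ?_⟩
  rintro w (hw | hw)
  · obtain ⟨i, hi, h6⟩ := h5 w hw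
    exact ⟨i, hi, h6.imp_left fun h => (O.A i).Gc_mono (le_max_left _ _) h⟩
  · obtain ⟨i, hi, h6⟩ := k5 w hw
    exact ⟨i, hi, h6.imp_left fun h => (O.A i).Gc_mono (le_max_right _ _) h⟩

theorem ol3_arc {W : Set ℂ} {y : ℝ} {i : ℕ} (hi : i ≤ O.kA) {a b : ℝ}
    (h : ∀ s ≤ b, (O.A i).γ s ∈ W) : O.ol3_K W y ((O.A i).γ '' Icc a b) := by
  refine ⟨isCompact_Icc.image (O.A i).γ_cont,
    isPreconnected_Icc.image _ (O.A i).γ_cont.continuousOn, ?_, ?_, b, ?_⟩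
  · rintro _ ⟨s, -, rfl⟩
    exact F.Λ_sub_Disc ((O.A i).γ_Λ s)
  · rintro _ ⟨s, hs, rfl⟩
    exact h s hs.2
  · rintro _ ⟨s, hs, rfl⟩
    exact ⟨i, hi, Or.inl (Or.inr ⟨s, hs.2, rfl⟩)⟩

theorem ol3_Gc {W : Set ℂ} {y : ℝ} {i : ℕ} (hi : i ≤ O.kA) {b : ℝ} (hp : (O.A i).p ∈ W)
    (h : ∀ s ≤ b, (O.A i).γ s ∈ W) : O.ol3_K W y ((O.A i).Gc b) := by
  refine ⟨(O.A i).Gc_compact b, (O.A i).Gc_conn b, ((O.A i).Gc_Λ b).trans F.Λ_sub_Disc, ?_, b,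
    fun w hw => ⟨i, hi, Or.inl hw⟩⟩
  rintro _ (rfl | ⟨s, hs, rfl⟩)
  · exact hp
  · exact h s hs

theorem ol3_link {W : Set ℂ} {y : ℝ} (hy : 0 < y) {i : ℕ} (hi : i + 1 ≤ O.kA)
    (hW : W ∈ 𝓝 (O.A (i + 1)).p) :
    ∃ s D, O.ol3_K W y D ∧ (O.A i).γ s ∈ D ∧ (O.A (i + 1)).p ∈ D := by
  obtain ⟨z, hz⟩ := O.linkA i hi
  obtain ⟨s, -, rfl⟩ := hz.param
  obtain ⟨-, -, -, h1, h2, h3, -⟩ := hz
  obtain ⟨y1, hy1, hy2, hy3⟩ := (O.A (i + 1)).Sig_tiny hW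
  obtain ⟨k, hk⟩ := exists_pow_lt_of_lt_one (lt_min hy hy1) (O.A (i + 1)).lam_lt
  have h4 := (O.A (i + 1)).Sig_fwd (y := 1) ⟨h1, h2.le, by linarith⟩ le_rfl k
  rw [mul_one, O.powA (i + 1) hi, ← O.powA i (by omega), (O.A i).γ_iter, (O.A i).γ_iter] at h4
  refine ⟨_, (O.A (i + 1)).Sig (min y y1), ⟨Quad.Sig_compact _ _, Quad.Sig_conn _ _,
    fun w hw => ol3_disc _ (Quad.Sig_sub _ (by linarith [min_le_right y y1]) hw),
    (Quad.Sig_mono _ (min_le_right _ _)).trans hy3, 0, fun w hw =>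
      ⟨i + 1, hi, Or.inr (Quad.Sig_mono _ (min_le_left _ _) hw)⟩⟩,
    Quad.Sig_mono _ hk.le h4, Quad.p_mem_Sig _ (lt_min hy hy1).le⟩

theorem ol3_chain {W : Set ℂ} {y : ℝ} (hy : 0 < y) (s' : ℝ) (n : ℕ) (hn : n + 1 ≤ O.kA)
    (hG : ∀ i ≤ n, ∀ s, (O.A i).γ s ∈ W) (hV : ∀ i ≤ n, W ∈ 𝓝 (O.A (i + 1)).p) :
    ∃ D, O.ol3_K W y D ∧ (O.A 0).γ s' ∈ D ∧ (O.A (n + 1)).p ∈ D := by
  induction n with
  | zero =>
    obtain ⟨s, D, h1, h2, h3⟩ := O.ol3_link hy hn (hV 0 le_rfl)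
    exact ⟨_, O.ol3_union (O.ol3_arc (Nat.zero_le _) (a := min s s') (b := max s s')
      fun t _ => hG 0 le_rfl t) h1 ⟨s, ⟨min_le_left _ _, le_max_left _ _⟩, rfl⟩ h2,
      Or.inl ⟨s', ⟨min_le_right _ _, le_max_right _ _⟩, rfl⟩, Or.inr h3⟩
  | succ n ih =>
    obtain ⟨D0, k1, k2, k3⟩ := ih (by omega) (fun i hi => hG i (by omega))
      fun i hi => hV i (by omega)
    obtain ⟨s, D, h1, h2, h3⟩ := O.ol3_link hy hn (hV (n + 1) le_rfl)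
    have h4 : O.ol3_K W y ((O.A (n + 1)).Gc s) :=
      O.ol3_Gc (by omega) (mem_of_mem_nhds (hV n (by omega))) fun t _ => hG _ le_rfl t
    exact ⟨_, O.ol3_union k1 (O.ol3_union h4 h1 (Or.inr ⟨s, self_mem_Iic, rfl⟩) h2) k3
      (Or.inl (Or.inl rfl)), Or.inl k2, Or.inr (Or.inr h3)⟩

theorem ol3_start (j : ℕ) (σ : ℝ) : ∃ x0 > 0, ∀ x ∈ Ioo (0 : ℝ) x0, ∃ s' ≤ σ,
    F.f^[O.Qa.M * j] ((O.A 0).γ s') = O.Qa.pt x 0 := by
  refine ⟨min 1 ((O.A 0).χ σ), lt_min one_pos ((O.A 0).χ_pos σ), fun x hx => ?_⟩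
  have hx1 : x ≤ 1 := hx.2.le.trans (min_le_left _ _)
  obtain ⟨h1, h2⟩ := O.Qa.dep_spec hx.1 hx1
  have hj : (0 : ℝ) ≤ j := Nat.cast_nonneg j
  have h3 : -O.Qa.dep x - j ≤ 0 := by linarith
  have h4 : O.Qa.χ (-O.Qa.dep x - j) ≤ x := (O.Qa.χ_mono.monotone (by linarith)).trans h1.le
  have hX : (O.A 0).X (O.Qa.γ (-O.Qa.dep x - j)) = O.Qa.χ (-O.Qa.dep x - j) := by
    rw [O.ol3_XY.1, O.Qa.γ_loc h3, Box.X_pt]
  have hY : (O.A 0).Y (O.Qa.γ (-O.Qa.dep x - j)) = 0 := by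
    rw [O.ol3_XY.2, O.Qa.γ_loc h3, Box.Y_pt]
  have h5 : 0 < (O.A 0).X (O.Qa.γ (-O.Qa.dep x - j)) := hX ▸ O.Qa.χ_pos _
  have h6 : (O.A 0).X (O.Qa.γ (-O.Qa.dep x - j)) ≤ 1 := hX ▸ h4.trans hx1
  refine ⟨-(O.A 0).dep ((O.A 0).X (O.Qa.γ (-O.Qa.dep x - j))), ?_, ?_⟩
  · refine neg_le.1 (((O.A 0).le_dep_iff h5 h6).2 ?_)
    rw [neg_neg, hX]
    exact h4.trans (hx.2.le.trans (min_le_right _ _))
  · rw [← (O.A 0).loc_mem h5 h6 hY, O.Qa.γ_iter, sub_add_cancel,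
      O.Qa.γ_loc (neg_nonpos.2 h2), h1]

theorem of2 : ∃ (j : ℕ), ∃ a ∈ O.Qa.Ns ∩ O.Qa.En, ∃ x0 > 0, ∀ x ∈ Ioo (0 : ℝ) x0, ∀ y > 0,
    ∃ (cA : Set ℂ) (S : ℝ), IsCompact cA ∧ IsPreconnected cA ∧ cA ⊆ Disc ∧ O.Qa.pt x 0 ∈ cA ∧
      a ∈ cA ∧ O.Qa.p ∉ cA ∧ cA ∩ O.Qa.Ns ⊆ O.Qa.En ∧
      ∀ w ∈ cA, ∃ i ≤ O.kA, w ∈ F.f^[O.Qa.M * j] '' ((O.A i).Gc S ∪ (O.A i).Sig y) := by
  obtain ⟨i, hi, j, a, ha, hmin, hcase⟩ := O.of1
  set W : Set ℂ := {w | F.f^[O.Qa.M * j] w ≠ O.Qa.p ∧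
    (F.f^[O.Qa.M * j] w ∈ O.Qa.Ns → F.f^[O.Qa.M * j] w ∈ O.Qa.En)} with hW
  have hγ : ∀ i s, F.f^[O.Qa.M * j] ((O.A i).γ s) ≠ O.Qa.p := fun i s h =>
    (O.A i).γ_not_per s (per_of_iter F (F.Λ_sub_Disc ((O.A i).γ_Λ s)) (h ▸ O.Qa.p_per))
  have hoff : ∀ i', i' + 1 ≤ O.kA → F.f^[O.Qa.M * j] (O.A (i' + 1)).p ∉ O.Qa.Ns →
      W ∈ 𝓝 (O.A (i' + 1)).p := fun i' hi' h =>
    mem_of_superset (ol3_off O.Qa (O.A _).p_per (O.neA _ (by omega) hi') h) fun w hw =>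
      ⟨fun h' => hw (h' ▸ Or.inl (ol3_p_Cx O.Qa)), fun h' => absurd h'.1 hw⟩
  have hG : ∀ i' < i, ∀ s, (O.A i').γ s ∈ W := fun i' hi' s =>
    ⟨hγ i' s, fun h => absurd h (hmin i' hi' j _ (Or.inr ⟨s, rfl⟩))⟩
  have key : ∃ σ, ∀ s' ≤ σ, ∀ y > 0, ∃ D, O.ol3_K W y D ∧ (O.A 0).γ s' ∈ D ∧
      a ∈ F.f^[O.Qa.M * j] '' D := by
    rcases hcase with h | ⟨hp, sa, h, hs⟩
    · cases i with
      | zero =>
        have h1 := ha.1.2.1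
        rw [h, (Quad.same O.A0.2.1).2.2.1, O.Qa.f_p_iter, O.Qa.p_X] at h1
        exact absurd h1 (lt_irrefl _)
      | succ n =>
        refine ⟨0, fun s' _ y hy => ?_⟩
        obtain ⟨D, h1, h2, h3⟩ := O.ol3_chain (W := W) hy s' n hi
          (fun i' hi' => hG i' (by omega)) fun i' hi' => by
            rcases hi'.lt_or_eq with hi' | rfl
            · exact hoff i' (by omega) (hmin _ (by omega) j _ (Or.inl rfl))
            · have h1 : F.f^[O.Qa.M * j] (O.A (i' + 1)).p ∈ O.Qa.En ∩ {O.Qa.p}ᶜ :=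
                ⟨h ▸ ha.2, ol3_ne O.Qa (O.A _).p_per (O.neA _ (by omega) hi) j⟩
              exact mem_of_superset ((F.cf.iterate _).continuousAt.preimage_mem_nhds
                ((O.Qa.En_open.inter isOpen_compl_singleton).mem_nhds h1))
                fun w hw => ⟨hw.2, fun _ => hw.1⟩
        exact ⟨D, h1, h2, _, h3, h.symm⟩
    · have hs' : ∀ s ≤ sa, (O.A i).γ s ∈ W := fun s h => ⟨hγ i s, hs s h⟩
      refine ⟨sa, fun s' hs'' y hy => ?_⟩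
      cases i with
      | zero =>
        exact ⟨_, O.ol3_arc hi (a := s') hs', ⟨s', ⟨le_rfl, hs''⟩, rfl⟩, _,
          ⟨sa, ⟨hs'', le_rfl⟩, rfl⟩, h.symm⟩
      | succ n =>
        obtain ⟨D, h1, h2, h3⟩ := O.ol3_chain (W := W) hy s' n hi
          (fun i' hi' => hG i' (by omega)) fun i' hi' => by
            rcases hi'.lt_or_eq with hi' | rfl
            · exact hoff i' (by omega) (hmin _ (by omega) j _ (Or.inl rfl))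
            · exact hoff i' hi hp
        exact ⟨_, O.ol3_union h1 (O.ol3_Gc hi (h1.2.2.2.1 h3) hs') h3 (Or.inl rfl), Or.inl h2, _,
          Or.inr (Or.inr ⟨sa, self_mem_Iic, rfl⟩), h.symm⟩
  obtain ⟨σ, hσ⟩ := key
  obtain ⟨x0, hx0, hx⟩ := O.ol3_start j σ
  refine ⟨j, a, ha, x0, hx0, fun x hx' y hy => ?_⟩
  obtain ⟨s', h1, h2⟩ := hx x hx'
  obtain ⟨D, ⟨k1, k2, k3, k4, S, k5⟩, h3, h4⟩ := hσ s' h1 y hy
  refine ⟨F.f^[O.Qa.M * j] '' D, S, k1.image (F.cf.iterate _),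
    k2.image _ (F.cf.iterate _).continuousOn, ?_, ⟨_, h3, h2⟩, h4, ?_, ?_, ?_⟩
  · rintro _ ⟨w, hw, rfl⟩
    exact F.iter_mem_Disc (k3 hw) _
  · rintro ⟨w, hw, h⟩
    exact (k4 hw).1 h
  · rintro _ ⟨⟨w, hw, rfl⟩, h⟩
    exact (k4 hw).2 h
  · rintro _ ⟨w, hw, rfl⟩
    obtain ⟨i', hi', h⟩ := k5 w hw
    exact ⟨i', hi', w, h, rfl⟩

end OLD

end Pool.Agent.Lib.MP_3fe454_an.S2
end

-- part Pool.Agent.Lib.MP_3fe454_an.S2.OL4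
section

/-!
The backward chain is reached through the exit gate.
-/

set_option autoImplicit false

open Set Metric Filter Topology Function

namespace Pool.Agent.Lib.MP_3fe454_an.S2

open PD

theorem ol4_disc {F : Dis} (Q : Quad F) {w : ℂ} (h : w ∈ Q.Cx ∪ Q.Cn) : w ∈ Disc :=
  ball_subset_closedBall (Q.S_sub (h.elim (fun h => Q.Cx_sub h) fun h => Q.Cn_sub h))

theorem ol4_cyc {F : Dis} {p : ℂ} {κ M : ℕ} (hκ : 0 < κ) (h : F.f^[κ * M] p = p) (k j : ℕ) :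
    F.f^[M * (κ * k + (κ - 1) * j)] (F.f^[M * j] p) = p ∧
      F.f^[M * j] (F.f^[M * ((κ - 1) * j)] p) = p := by
  obtain ⟨c, rfl⟩ : ∃ c, κ = c + 1 := ⟨κ - 1, by omega⟩
  have e : ∀ n, F.f^[(c + 1) * M * n] p = p := fun n => by
    rw [iterate_mul]; exact iterate_fixed h n
  rw [← iterate_add_apply, ← iterate_add_apply, Nat.add_sub_cancel]
  exact ⟨(congrArg (F.f^[·] p) (by ring)).trans (e (k + j)),
    (congrArg (F.f^[·] p) (by ring)).trans (e j)⟩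

theorem ol4_far {F : Dis} (Q B : Quad F) {κ : ℕ} (hM : B.M = κ * Q.M) {r : ℕ}
    (h : F.g^[Q.M * r] B.p ∉ Q.Cx) (t : ℝ) :
    ∀ᶠ k in atTop, Disjoint (F.f^[Q.M * (κ * k + r)] '' Q.Cx) (B.Gc t) := by
  obtain ⟨s0, hs⟩ := B.Gc_tiny ((F.cg.iterate (Q.M * r)).continuousAt.preimage_mem_nhds
    (Q.Cx_compact.isClosed.isOpen_compl.mem_nhds h))
  obtain ⟨k0, hk⟩ := exists_nat_ge (t - s0)
  filter_upwards [eventually_ge_atTop k0] with k hk'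
  rw [Set.disjoint_left]
  rintro _ ⟨w, hw, rfl⟩ h1
  have hk2 : (k0 : ℝ) ≤ k := by exact_mod_cast hk'
  have e : Q.M * (κ * k + r) = B.M * k + Q.M * r := by rw [hM]; ring
  have h2 : B.Gc t = F.f^[B.M * k] '' B.Gc (t - k) := by rw [B.Gc_image, sub_add_cancel]
  rw [h2, e, iterate_add_apply] at h1
  obtain ⟨u, hu, h3⟩ := h1
  have hw' := ol4_disc Q (Or.inl hw)
  have h4 := inj_iter F _ (F.Λ_sub_Disc (B.Gc_Λ _ hu)) (F.iter_mem_Disc hw' _) h3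
  have h5 := hs _ (by linarith) hu
  rw [mem_preimage, h4, F.iter_g_f hw'] at h5
  exact h5 hw

theorem ol4_off {F : Dis} (Q B : Quad F) {κ : ℕ} (hκ : 0 < κ) (hM : B.M = κ * Q.M)
    (hne : B.p ≠ Q.p) (h : ∀ j, F.f^[Q.M * j] B.p ∉ Q.Ns) (r : ℕ) :
    F.g^[Q.M * r] B.p ∉ Q.Cx ∪ Q.Cn := fun hu => by
  rcases Q.per_C hu (per_iter F B.p_per _).2 with h1 | h1
  · exact hne (by rw [← F.iter_f_g B.p_Λ (Q.M * r), h1, Q.f_p_iter])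
  · refine h ((κ - 1) * r) ?_
    have e : F.f^[κ * Q.M] B.p = B.p := hM ▸ B.f_p
    rwa [← (ol4_cyc hκ e 0 r).2,
      F.iter_g_f (F.iter_mem_Disc (F.Λ_sub_Disc B.p_Λ) _)] at h1

theorem ol4_tiny {F : Dis} (B : Quad F) {m : ℕ} {C : Set ℂ} (hC : IsCompact C) (hs : C ⊆ Disc)
    (h : F.g^[m] B.p ∉ C) : ∃ y > 0, y ≤ 1 / 2 ∧ Disjoint (F.f^[m] '' C) (B.Sig y) := by
  obtain ⟨y, h0, h1, h2⟩ := B.Sig_tiny
    ((hC.image (F.cf.iterate m)).isClosed.isOpen_compl.mem_nhds (x := B.p) (by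
      rintro ⟨w, hw, e⟩
      exact h (by rwa [← e, F.iter_g_f (hs hw)])))
  exact ⟨y, h0, h1, Set.disjoint_left.2 fun w hw hw' => h2 hw' hw⟩

theorem ol4_tiny0 {F : Dis} (Q B : Quad F) (hp : B.p = Q.p) (hc : Q.Compat B) (m : ℕ) :
    ∃ y > 0, Disjoint (F.f^[Q.M * m] '' Q.Ns) (B.Sig y) := by
  obtain ⟨a, b, hab⟩ := hc hp.symm
  have c : Continuous fun w => |Q.Y (Q.Gt.symm^[m] w)| :=
    (Q.cY.comp (Q.Gt.symm.continuous.iterate m)).abs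
  have e : Q.Gt.symm Q.p = Q.p := by rw [Homeomorph.symm_apply_eq, Q.Gt_p]
  obtain ⟨y, h0, -, h2⟩ := B.Sig_tiny ((isOpen_lt c continuous_const (g := fun _ => 1)).mem_nhds
    (x := B.p) (by rw [mem_ofPred_eq, hp, iterate_fixed e, Q.p_Y]; simp))
  refine ⟨y, h0, Set.disjoint_left.2 ?_⟩
  rintro _ ⟨v, hv, rfl⟩ hw
  have x0 : Q.X (F.f^[Q.M * m] v) = 0 := by
    have h := hw.1
    rw [(hab _).1] at h
    exact (mul_eq_zero.1 h).resolve_left (by cases a <;> simp [sg])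
  have e0 : Q.φ.symm 0 = 0 := by rw [OrderIso.symm_apply_eq, Q.fix]
  have x1 : Q.X (Q.Gt.symm^[m] (F.f^[Q.M * m] v)) = 0 := by
    rw [Q.X_symm_iter, x0, iterate_fixed e0]
  have y1 : |Q.Y (Q.Gt.symm^[m] (F.f^[Q.M * m] v))| ≤ 1 := le_of_lt (h2 hw)
  have h3 := (Q.axis_fwd x1 y1 m).1
  rw [(RightInverse.iterate Q.Gt.apply_symm_apply m) _] at h3
  have h4 := inj_iter F _ (ball_subset_closedBall (Q.S_sub ⟨by rw [x1]; simp, y1⟩))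
    (ol4_disc Q hv.1) h3
  rw [h4] at x1
  exact hv.2.1.ne' x1

theorem ol4_desc {F : Dis} (Q B : Quad F) {κ : ℕ} (hκ : 0 < κ) (hM : B.M = κ * Q.M)
    (h0 : ∃ m, ∃ v ∈ Q.Ns, F.f^[Q.M * m] v ∈ B.Sig (1 / 2))
    (h1 : ∀ m, ∃ y > 0, Disjoint (F.f^[Q.M * m] '' Q.Ns) (B.Sig y)) (m1 : ℕ) :
    ∃ m ≥ m1, ∃ v ∈ Q.Ns ∩ Q.Ex, ∃ y > 0, y ≤ 1 / 2 ∧ F.f^[Q.M * m] v ∈ B.Sig y ∧
      Disjoint (F.f^[Q.M * m] '' (Q.Ns \ Q.Ex)) (B.Sig y) := by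
  by_contra hn
  have step : ∀ m ≥ m1, ∀ y ≤ 1 / 2, (∃ v ∈ Q.Ns, F.f^[Q.M * (m + 1)] v ∈ B.Sig y) →
      ∃ v ∈ Q.Ns, F.f^[Q.M * m] v ∈ B.Sig y := by
    rintro m hm y hy ⟨v, hv, h⟩
    have : ∃ u ∈ Q.Ns \ Q.Ex, F.f^[Q.M * (m + 1)] u ∈ B.Sig y := by
      by_contra hc
      have hd : Disjoint (F.f^[Q.M * (m + 1)] '' (Q.Ns \ Q.Ex)) (B.Sig y) :=
        Set.disjoint_left.2 (by rintro _ ⟨u, hu, rfl⟩ h'; exact hc ⟨u, hu, h'⟩)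
      obtain ⟨ε, hε, hd'⟩ := h1 (m + 1)
      refine hn ⟨m + 1, by omega, v, ⟨hv, by_contra fun h' => hc ⟨v, ⟨hv, h'⟩, h⟩⟩, y, ?_, hy, h, hd⟩
      by_contra hy0
      exact Set.disjoint_left.1 hd' ⟨v, hv, rfl⟩ (B.Sig_mono (by linarith) h)
    obtain ⟨u, hu, h'⟩ := this
    obtain ⟨-, e, h2, -⟩ := Q.Ns_fwd hu.1 hu.2
    exact ⟨Q.Gt u, h2, by rwa [← e, ← iterate_add_apply, ← Nat.mul_succ]⟩
  have down : ∀ y ≤ 1 / 2, ∀ m, m1 ≤ m → (∃ v ∈ Q.Ns, F.f^[Q.M * m] v ∈ B.Sig y) →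
      ∃ v ∈ Q.Ns, F.f^[Q.M * m1] v ∈ B.Sig y := fun y hy m hm => by
    induction m, hm using Nat.le_induction with
    | base => exact id
    | succ m hm ih => exact fun h => ih (step m hm y hy h)
  obtain ⟨m0, v, hv, h⟩ := h0
  obtain ⟨ε, hε, hd⟩ := h1 m1
  obtain ⟨k, hk1, hk2⟩ := ((eventually_ge_atTop m1).and
    ((tendsto_pow_atTop_nhds_zero_of_lt_one B.lam_pos.le B.lam_lt).eventually
      (gt_mem_nhds hε))).exists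
  have h2 := B.Sig_fwd h (by norm_num) k
  have hl : B.lam ^ k ≤ 1 := pow_le_one₀ B.lam_pos.le B.lam_lt.le
  have hl0 := pow_pos B.lam_pos k
  obtain ⟨u, hu, h3⟩ := down (B.lam ^ k * (1 / 2)) (by linarith) (κ * k + m0) (by nlinarith) ⟨v, hv, by
    rwa [← iterate_add_apply, hM, show κ * Q.M * k + Q.M * m0 = Q.M * (κ * k + m0) by ring] at h2⟩
  exact Set.disjoint_left.1 hd ⟨u, hu, rfl⟩ (B.Sig_mono (by linarith) h3)

theorem OLD.ob {F : Dis} (O : OLD F) : ∃ l ≤ O.kB, ∃ (m : ℕ), ∃ v ∈ O.Qa.Ns ∩ O.Qa.Ex, ∃ y > 0,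
    y ≤ 1 / 2 ∧ F.f^[O.Qa.M * m] v ∈ (O.B l).Sig y ∧
    Disjoint (F.f^[O.Qa.M * m] '' (O.Qa.Ns \ O.Qa.Ex)) ((O.B l).Sig y) ∧
    ∀ l' < l, Disjoint (F.f^[O.Qa.M * m] '' O.Qa.Ns) ((O.B l').Sig (1 / 2)) ∧
      Disjoint (F.f^[O.Qa.M * m] '' O.Qa.Cx) ((O.B (l' + 1)).Gc (O.tB l')) := by
  classical
  obtain ⟨hl, hv⟩ := Nat.find_spec O.visB
  have hmin := fun l' => Nat.find_min O.visB (m := l')
  set l := Nat.find O.visB
  have hκ := O.κ_pos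
  have d1 : ∀ m, ∀ l' < l, Disjoint (F.f^[O.Qa.M * m] '' O.Qa.Ns) ((O.B l').Sig (1 / 2)) :=
    fun m l' h => Set.disjoint_left.2 (by
      rintro _ ⟨u, hu, rfl⟩ h'
      exact hmin l' h ⟨by omega, m, u, hu, h'⟩)
  have fx : ∀ i ≤ l, F.f^[O.κ * O.Qa.M] (O.B i).p = (O.B i).p := fun i hi =>
    O.powB i (hi.trans hl) ▸ (O.B i).f_p
  have nv : ∀ i < l, ∀ j, F.f^[O.Qa.M * j] (O.B i).p ∉ O.Qa.Ns := fun i hi j h =>
    hmin i hi ⟨by omega, _, _, h, by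
      rw [(ol4_cyc hκ (fx i hi.le) 0 j).1]; exact (O.B i).p_mem_Sig (by norm_num)⟩
  have off : ∀ l' < l, (∀ j, F.f^[O.Qa.M * j] (O.B (l' + 1)).p ∉ O.Qa.Ns) → ∀ r,
      F.g^[O.Qa.M * r] (O.B (l' + 1)).p ∉ O.Qa.Cx := fun l' h h' r hc =>
    ol4_off O.Qa _ hκ (O.powB _ (by omega)) (O.neB _ (by omega) (by omega)) h' r (Or.inl hc)
  have far : ∀ r, (∀ l' < l, F.g^[O.Qa.M * r] (O.B (l' + 1)).p ∉ O.Qa.Cx) →
      ∀ᶠ k in atTop, ∀ l' ∈ Finset.range l, Disjoint (F.f^[O.Qa.M * (O.κ * k + r)] '' O.Qa.Cx)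
        ((O.B (l' + 1)).Gc (O.tB l')) := fun r h =>
    (eventually_all_finset _).2 fun l' hl' => ol4_far O.Qa _
      (O.powB _ (by have := Finset.mem_range.1 hl'; omega)) (h l' (Finset.mem_range.1 hl')) _
  by_cases hx : ∃ j, F.f^[O.Qa.M * j] (O.B l).p ∈ O.Qa.Ns
  · obtain ⟨j0, h0⟩ := hx
    obtain ⟨j, hj⟩ := O.Qa.per_Ex hκ (fx l le_rfl) h0
    have bk : ∀ k, F.g^[O.Qa.M * (O.κ * k + (O.κ - 1) * j)] (O.B l).p ∉ O.Qa.Cx := fun k hc => by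
      rw [← (ol4_cyc hκ (fx l le_rfl) k j).1, F.iter_g_f (ol4_disc _ hj.1.1)] at hc
      exact not_lt.2 hc.2.1 hj.2
    obtain ⟨k, hk⟩ := (far ((O.κ - 1) * j) fun l' h => by
      rcases (Nat.succ_le_of_lt h).eq_or_lt with e | e
      · have := bk 0
        rwa [Nat.mul_zero, Nat.zero_add, ← e] at this
      · exact off l' h (nv _ e) _).exists
    obtain ⟨y, y0, y1, y2⟩ := ol4_tiny (O.B l) O.Qa.Cx_compact
      (fun w hw => ol4_disc _ (Or.inl hw)) (bk k)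
    exact ⟨l, hl, _, _, hj, y, y0, y1,
      by rw [(ol4_cyc hκ (fx l le_rfl) k j).1]; exact (O.B l).p_mem_Sig y0.le,
      y2.mono_left (image_mono fun w hw => (O.Qa.Ns_fwd hw.1 hw.2).1),
      fun l' h => ⟨d1 _ l' h, hk l' (Finset.mem_range.2 h)⟩⟩
  · have nv' : ∀ i ≤ l, ∀ j, F.f^[O.Qa.M * j] (O.B i).p ∉ O.Qa.Ns := fun i hi j => by
      rcases hi.eq_or_lt with e | e
      · exact fun h => hx ⟨j, e ▸ h⟩
      · exact nv i e j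
    obtain ⟨k0, hk0⟩ := eventually_atTop.1 ((eventually_all_finset (Finset.range O.κ)).2
      fun r _ => far r fun l' h => off l' h (nv' _ h) r)
    obtain ⟨m, hm, v, h1, y, h2, h3, h4, h5⟩ := ol4_desc O.Qa (O.B l) hκ (O.powB l hl) hv
      (fun m => by
        rcases Nat.eq_zero_or_pos l with e | e
        · rw [e]; exact ol4_tiny0 O.Qa _ O.B0p O.B0c m
        · obtain ⟨y, y0, -, y2⟩ := ol4_tiny (O.B l) (O.Qa.Cx_compact.union O.Qa.Cn_compact)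
            (fun w hw => ol4_disc _ hw)
            (ol4_off O.Qa _ hκ (O.powB l hl) (O.neB l e hl) (nv' l le_rfl) m)
          exact ⟨y, y0, y2.mono_left (image_mono fun w hw => hw.1)⟩) (k0 * O.κ)
    refine ⟨l, hl, m, v, h1, y, h2, h3, h4, h5, fun l' h => ⟨d1 _ l' h, ?_⟩⟩
    have := hk0 (m / O.κ) ((Nat.le_div_iff_mul_le hκ).2 hm) (m % O.κ)
      (Finset.mem_range.2 (Nat.mod_lt _ hκ)) l' (Finset.mem_range.2 h)
    rwa [Nat.div_add_mod] at this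

end Pool.Agent.Lib.MP_3fe454_an.S2
end

-- part Pool.Agent.Lib.MP_3fe454_an.S2.OL5
section

/-!
The gate argument produces an honest link.
-/

set_option autoImplicit false

open Set Metric Filter Topology Function

namespace Pool.Agent.Lib.MP_3fe454_an.S2

open PD

theorem ol5_ev {P : ℝ → Prop} (hm : ∀ d d', d' ≤ d → P d → P d') (h : ∃ d > 0, P d) :
    ∀ᶠ d in 𝓝[>] (0 : ℝ), P d := by
  obtain ⟨d, hd, h⟩ := h
  filter_upwards [Ioc_mem_nhdsGT hd] with d' k using hm d d' k.2 h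

theorem ol5_all {k : ℕ} {P : ℕ → ℝ → Prop} (h : ∀ i ≤ k, ∀ᶠ d in 𝓝[>] (0 : ℝ), P i d) :
    ∀ᶠ d in 𝓝[>] (0 : ℝ), ∀ i ≤ k, P i d :=
  (eventually_all_finite (finite_le_nat k)).2 h

theorem ol5_ex {P : ℝ → Prop} (h : ∀ᶠ d in 𝓝[>] (0 : ℝ), P d) : ∃ d > 0, P d :=
  (h.and self_mem_nhdsWithin).exists.imp fun _ k => ⟨k.2, k.1⟩

theorem ol5_half {F : Dis} (Q : Quad F) (d : ℝ) : Q.T d ∩ {w | Q.Y w < 1 / 2} = Q.T d :=
  inter_eq_left.2 fun _ h => h.2.2.2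

theorem ol5_conn {F : Dis} (Q : Quad F) (d : ℝ) {y : ℝ} (hy : y ≤ 1 / 2) :
    IsPreconnected (Q.T d ∩ {w | Q.Y w < y}) := by
  convert Q.rect_conn (I := Ioo 0 d) (J := Ioo 0 y) isPreconnected_Ioo isPreconnected_Ioo using 1
  ext w
  exact ⟨fun h => ⟨⟨h.1.1, h.1.2.1⟩, h.1.2.2.1, h.2⟩,
    fun h => ⟨⟨h.1.1, h.1.2, h.2.1, h.2.2.trans_le hy⟩, h.2.2⟩⟩

namespace OLD

variable {F : Dis} (O : OLD F)

theorem ol5_zero (d y : ℝ) : O.TubeB 0 d y = (O.B 0).T d ∩ {w | (O.B 0).Y w < y} := by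
  simp [TubeB]

theorem ol5_succ (l : ℕ) (d y : ℝ) : O.TubeB (l + 1) d y = O.TubeB l d (1 / 2) ∪
    F.f^[O.κ * O.Qa.M * O.tB l] '' (O.B (l + 1)).R d ∪
      (O.B (l + 1)).T d ∩ {w | (O.B (l + 1)).Y w < y} := by
  rw [TubeB, TubeB, ol5_half, show {i | i < l + 1} = insert l {i | i < l} from
    Set.ext fun i => by simp only [mem_ofPred_eq, mem_insert_iff]; omega, biUnion_insert,
    union_comm (_ ∪ _) (⋃ i ∈ _, _), union_assoc (⋃ i ∈ _, _) ((O.B l).T d)]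

theorem ol5_clos (l : ℕ) {d y : ℝ} (hd : 0 < d) (hy : 0 < y) (hy' : y ≤ 1 / 2) :
    (O.B l).Sig y ⊆ closure (O.TubeB l d y) := fun _ hv =>
  closure_mono subset_union_right (mem_closure_iff_nhds.2 fun _ k =>
    inter_comm _ _ ▸ (O.B l).meet_Sig hd hy hy' hv k)

/-- the two strips of the quadrant with index l -/
def ol5V (l : ℕ) (d : ℝ) : Set ℂ :=
  (O.B l).T d ∪ F.f^[(O.B l).M * O.tB (l - 1)] '' (O.B l).R d

theorem ol5_mono (l : ℕ) {d d' : ℝ} (h : d' ≤ d) : O.ol5V l d' ⊆ O.ol5V l d :=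
  union_subset_union ((O.B l).T_mono h) (image_mono ((O.B l).R_mono h))

theorem ol5_sub {l : ℕ} (hl : l ≤ O.kB) {d y : ℝ} {w : ℂ} (h : w ∈ O.TubeB l d y) :
    ∃ l' ≤ O.kB, w ∈ O.ol5V l' d := by
  rcases h with h | h
  · obtain ⟨i, hi, h | h⟩ := mem_iUnion₂.1 h
    · exact ⟨i, (le_of_lt hi).trans hl, .inl h⟩
    · have k : i + 1 ≤ O.kB := (Nat.succ_le_of_lt hi).trans hl
      exact ⟨i + 1, k, .inr (by rwa [O.powB _ k, Nat.add_sub_cancel])⟩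
  · exact ⟨l, hl, .inl h.1⟩

theorem ol5_off (m : ℕ) : ∀ᶠ x in 𝓝[>] (0 : ℝ), ∀ l ≤ O.kB,
    F.f^[O.Qa.M * m] (O.Qa.pt x 0) ∉ (O.B l).Sig (1 / 2) := by
  refine ol5_all fun l hl => ?_
  rcases Nat.eq_zero_or_pos l with rfl | h0
  · obtain ⟨a, b, e⟩ := O.B0c O.B0p.symm
    filter_upwards [Ioc_mem_nhdsGT (O.Qa.χ_pos (-m))] with x hx k
    have h1 : x ≤ 1 := hx.2.trans (O.Qa.chi_le_one.2 (by simp))
    have h2 := (O.Qa.run (u := O.Qa.pt x 0) (by rw [Box.X_pt]; exact hx.1) (by rwa [Box.X_pt])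
      (by simp [Box.Y_pt]) (n := m)
      (by rw [Box.X_pt]; exact (O.Qa.le_dep_iff hx.1 h1).2 hx.2)).2.1
    have h3 := k.1
    rw [(e _).1, h2] at h3
    refine mul_ne_zero ?_ (O.Qa.χ_pos _).ne' h3
    cases a <;> simp [sg]
  · have c : Continuous fun x : ℝ => F.f^[O.Qa.M * m] (O.Qa.pt x 0) :=
      (F.cf.iterate _).comp (O.Qa.c_pt.comp (f := fun x : ℝ => (x, (0 : ℝ))) (by fun_prop))
    refine nhdsWithin_le_nhds (c.continuousAt.eventually_mem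
      (((O.B l).Sig_compact _).isClosed.isOpen_compl.mem_nhds fun k => ?_))
    rw [show O.Qa.pt 0 0 = O.Qa.p from rfl, O.Qa.f_p_iter] at k
    exact O.neB l h0 hl ((O.B l).axis_per k.1
      (by rw [abs_of_nonneg k.2.1]; linarith [k.2.2]) O.Qa.p_per).symm

theorem tubeB_conn {l : ℕ} (hl : l ≤ O.kB) {d y : ℝ} (hd : 0 < d) (hy : 0 < y) (hy' : y ≤ 1 / 2) :
    IsPreconnected (O.TubeB l d y) ∧ O.Qa.p ∈ closure (O.TubeB l d y) ∧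
      (O.B l).Sig y ⊆ closure (O.TubeB l d y) := by
  refine and_assoc.1 ⟨?_, O.ol5_clos l hd hy hy'⟩
  induction l generalizing y with
  | zero =>
    exact ⟨O.ol5_zero d y ▸ ol5_conn _ d hy',
      O.ol5_clos 0 hd hy hy' (O.B0p ▸ (O.B 0).p_mem_Sig hy.le)⟩
  | succ l ih =>
    obtain ⟨k1, k2⟩ := ih (Nat.le_of_succ_le hl) (y := 1 / 2) (by norm_num) le_rfl
    obtain ⟨z, hz⟩ := O.linkB l hl
    obtain ⟨u, ⟨u1, u2⟩, -⟩ := hz.meet hd univ_mem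
    obtain ⟨v, v1, v2⟩ := (O.B (l + 1)).meet_TR (O.tB l) hd hy
    rw [O.powB _ hl] at v2
    rw [ol5_succ]
    refine ⟨IsPreconnected.union v (.inr v2) v1 (IsPreconnected.union u (.inr ?_) u1 k1
      (((O.B (l + 1)).R_conn d).image _ (F.cf.iterate _).continuousOn)) (ol5_conn _ d hy'),
      closure_mono (subset_union_left.trans subset_union_left) k2⟩
    rwa [ol5_half]

theorem avoidAB (h : ∀ i ≤ O.kA, ∀ l ≤ O.kB, ∀ n, ¬ (O.A i).Hon (O.B l) n) :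
    ∃ y > 0, ∀ (n : ℕ) (S : ℝ), ∃ d > 0, ∀ i ≤ O.kA, ∀ l ≤ O.kB, ∀ y',
      Disjoint (O.TubeB l d y') (F.f^[O.Qa.M * n] '' ((O.A i).Gc S ∪ (O.A i).Sig y)) := by
  have per : ∀ i r, F.f^[O.Qa.M * r] (O.A i).p ∈ periodicPts F.f := fun i r =>
    (per_iter F (O.A i).p_per _).1
  choose ε ε0 hε using fun i l r => (O.B l).tv (O.tB (l - 1)) (per i r)
  obtain ⟨y, y0, y1, hy⟩ : ∃ y > 0, y ≤ 1 ∧ ∀ i ≤ O.kA, ∀ l ≤ O.kB, ∀ r ≤ O.κ, (O.A i).Sig y ⊆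
      F.f^[O.Qa.M * r] ⁻¹' ball (F.f^[O.Qa.M * r] (O.A i).p) (ε i l r) := by
    refine ol5_ex (Eventually.and (ol5_ev (fun _ _ k l => k.trans l) ⟨1, one_pos, le_rfl⟩)
      (ol5_all fun i _ => ol5_all fun l _ => ol5_all fun r _ =>
        ol5_ev (fun _ _ k l => ((O.A i).Sig_mono k).trans l) ?_))
    obtain ⟨y, y0, -, k⟩ := (O.A i).Sig_tiny ((F.cf.iterate (O.Qa.M * r)).continuousAt.preimage_mem_nhds
      (ball_mem_nhds _ (ε0 i l r)))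
    exact ⟨y, y0, k⟩
  refine ⟨y, y0, fun n S => ?_⟩
  obtain ⟨d, d0, hd⟩ : ∃ d > 0, ∀ i ≤ O.kA, ∀ l ≤ O.kB,
      Disjoint (F.f^[O.Qa.M * n] '' ((O.A i).Gc S ∪ (O.A i).Sig y)) (O.ol5V l d) := by
    refine ol5_ex (ol5_all fun i hi => ol5_all fun l hl => ?_)
    have hM : (O.A i).M = (O.B l).M := (O.powA i hi).trans (O.powB l hl).symm
    have k1 := ol5_ev (fun _ _ k l => l.mono_right ((O.B _).T_mono k))
      ((O.A i).nh (O.B l) hM (h i hi l hl (O.Qa.M * n)) S)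
    have k2 := ol5_ev (fun _ _ k l => l.mono_right (image_mono ((O.B _).R_mono k)))
      ((O.A i).nh2 (O.B l) hM (O.Qa.M * n) (O.tB (l - 1)) S)
    have k3 := ol5_ev (P := fun d => Disjoint (F.f^[O.Qa.M * n] '' (O.A i).Sig y) (O.ol5V l d))
      (fun _ _ k l => l.mono_right (O.ol5_mono _ k))
      (hε i l (n % O.κ) _ (((O.A i).Sig_compact y).image (F.cf.iterate _)) (by
        rintro _ ⟨w, hw, rfl⟩ k
        have e : (O.B l).M * k + O.Qa.M * n =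
            O.Qa.M * (n % O.κ) + (O.A i).M * (k + n / O.κ) := by
          rw [O.powA i hi, O.powB l hl]
          conv_lhs => rw [← Nat.mod_add_div n O.κ]
          ring
        rw [← iterate_add_apply, e, iterate_add_apply]
        exact hy i hi l hl _ (Nat.mod_lt n O.κ_pos).le ((O.A i).Sig_mono
          (mul_le_of_le_one_left y0.le (pow_le_one₀ (O.A i).lam_pos.le (O.A i).lam_lt.le))
          ((O.A i).Sig_fwd hw y1 _))))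
    filter_upwards [k1, k2, k3] with d e1 e2 e3
    rw [image_union]
    exact disjoint_union_left.2 ⟨disjoint_union_right.2 ⟨e1, e2⟩, e3⟩
  refine ⟨d, d0, fun i hi l hl y' => disjoint_left.2 fun w hw hw' => ?_⟩
  obtain ⟨l', k1, k2⟩ := O.ol5_sub hl hw
  exact disjoint_left.1 (hd i hi l' k1) hw' k2

theorem par : ∃ i ≤ O.kA, ∃ l ≤ O.kB, ∃ n, (O.A i).Hon (O.B l) n := by
  by_contra hc
  push Not at hc
  obtain ⟨y, y0, hy⟩ := O.avoidAB hc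
  obtain ⟨l, hl, m, v, hv, yb, b0, b1, b2, b3, b4⟩ := O.ob
  obtain ⟨j, a, ha, x0, x0p, h0⟩ := O.of2
  obtain ⟨x1, x1p, h1⟩ := O.Qa.gate m ha hv
  obtain ⟨x, -, ⟨k0, k1⟩, k2⟩ := ol5_ex
    (Eventually.and (Eventually.and (Ioo_mem_nhdsGT x0p) (Ioo_mem_nhdsGT x1p)) (O.ol5_off m))
  obtain ⟨cA, S, c1, c2, c3, c4, c5, c6, c7, c8⟩ := h0 x k0 y y0
  obtain ⟨kA, a1, a2, a3, a4⟩ := h1 x k1
  obtain ⟨d1, d1p, hd1⟩ := hy (m + j) S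
  have hE : IsCompact (F.f^[O.Qa.M * m] '' kA) := a1.image (F.cf.iterate _)
  have off : ∀ l' ≤ O.kB, ∀ y' ≤ 1 / 2,
      Disjoint (F.f^[O.Qa.M * m] '' (O.Qa.Ns \ O.Qa.Ex)) ((O.B l').Sig y') →
      ∀ᶠ d in 𝓝[>] (0 : ℝ),
        Disjoint (F.f^[O.Qa.M * m] '' kA) ((O.B l').T d ∩ {w | (O.B l').Y w < y'}) :=
    fun l' e1 y' e2 e3 => ol5_ev
      (fun _ _ k l => l.mono_right (inter_subset_inter_left _ ((O.B _).T_mono k)))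
      ((O.B l').avoid_T hE (disjoint_left.2 (by
        rintro _ ⟨w, hw, rfl⟩ k
        rcases a3 hw with rfl | e
        · exact k2 l' e1 ((O.B l').Sig_mono e2 k)
        · exact disjoint_left.1 e3 ⟨w, e, rfl⟩ k)))
  obtain ⟨d, d0, ⟨e0, e1⟩, e2⟩ := ol5_ex (Eventually.and (Eventually.and (Ioc_mem_nhdsGT d1p)
    (off l hl yb b1 b3)) (ol5_all (k := l) (P := fun i d => i < l →
      Disjoint (F.f^[O.Qa.M * m] '' kA)
        ((O.B i).T d ∪ F.f^[O.κ * O.Qa.M * O.tB i] '' (O.B (i + 1)).R d)) fun i _ => by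
    by_cases hi : i < l
    swap
    · exact Eventually.of_forall fun _ k => absurd k hi
    have f1 := off i (hi.le.trans hl) _ le_rfl ((b4 i hi).1.mono_left (image_mono sdiff_subset))
    have f2 := ol5_ev (fun _ _ k l => l.mono_right (image_mono ((O.B _).R_mono k)))
      ((O.B (i + 1)).avoid_R (O.tB i) hE ((b4 i hi).2.mono_left (image_mono a2)))
    filter_upwards [f1, f2] with d g1 g2 _
    rw [ol5_half] at g1
    rw [O.powB _ ((Nat.succ_le_of_lt hi).trans hl)] at g2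
    exact disjoint_union_right.2 ⟨g1, g2⟩))
  obtain ⟨t1, t2, t3⟩ := O.tubeB_conn hl d0 b0 b1
  refine a4 cA c1 c2 c3 c4 c5 c6 c7 _ t1 ?_ t2 (t3 b2)
  rw [image_union]
  refine disjoint_union_right.2 ⟨disjoint_left.2 ?_, Disjoint.symm (disjoint_union_right.2
    ⟨disjoint_iUnion₂_right.2 fun i hi => e2 i (le_of_lt hi) hi, e1⟩)⟩
  rintro _ hw ⟨w, k, rfl⟩
  obtain ⟨i, hi, u, hu, rfl⟩ := c8 w k
  refine disjoint_left.1 (hd1 i hi l hl yb) ?_ ⟨u, hu, by rw [mul_add, iterate_add_apply]⟩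
  exact union_subset_union (iUnion₂_mono fun i _ => union_subset_union ((O.B _).T_mono e0.2)
    (image_mono ((O.B _).R_mono e0.2))) (inter_subset_inter_left _ ((O.B _).T_mono e0.2)) hw

end OLD

end Pool.Agent.Lib.MP_3fe454_an.S2
end
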