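import Pool.Agent.Lib.MP_3fe454_an.S2.PC0
import Pool.Agent.Lib.MP_3fe454_an.S2.Mdl3

-- part Pool.Agent.Lib.MP_3fe454_an.S2.PC1
section

/-!
The branches of a cycle do not come back near its stable arcs.
-/

set_option autoImplicit false

open Set Metric Filter Topology Function

namespace Pool.Agent.Lib.MP_3fe454_an.S2

open PD

theorem pc1_rect {F : Dis} (Q : Quad F) {N : Set ℂ} (hN : N ∈ 𝓝 Q.p) :
    ∃ ρ > 0, ∀ w, 0 ≤ Q.X w → Q.X w ≤ ρ → 0 ≤ Q.Y w → Q.Y w ≤ ρ → w ∈ N := by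
  have hc : ContinuousAt (fun p : ℝ × ℝ => Q.pt p.1 p.2) (0, 0) := Q.c_pt.continuousAt
  obtain ⟨ε, hε, h⟩ := Metric.mem_nhds_iff.1 (hc hN)
  refine ⟨ε / 2, by positivity, fun w h1 h2 h3 h4 => ?_⟩
  have hm : (Q.X w, Q.Y w) ∈ ball ((0 : ℝ), (0 : ℝ)) ε := by
    rw [mem_ball, Prod.dist_eq, max_lt_iff, Real.dist_eq, Real.dist_eq, sub_zero, sub_zero,
      abs_of_nonneg h1, abs_of_nonneg h3]
    constructor <;> linarith
  have := h hm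
  simp only [mem_preimage] at this
  rwa [Q.pt_XY] at this

theorem pc1_push {F : Dis} (Q Q' : Quad F) (hM : Q'.M = Q.M) {ρ : ℝ} (hρ : 0 < ρ) :
    ∃ d > 0, ∀ w ∈ Q'.Gam, w ∈ Q.T d →
      ∃ s, 0 < Q.X (Q'.γ s) ∧ Q.X (Q'.γ s) < ρ ∧ 0 < Q.Y (Q'.γ s) ∧ Q.Y (Q'.γ s) < ρ := by
  obtain ⟨n, hn⟩ := exists_pow_lt_of_lt_one hρ Q.lam_lt
  have hc : Continuous Q.φ^[n] := Q.φ.continuous.iterate n
  have h0 : Q.φ^[n] 0 = 0 := (Q.phi_iter_zero n 0).2 rfl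
  have hev : ∀ᶠ x in 𝓝 (0 : ℝ), Q.φ^[n] x < min ρ 1 := by
    apply hc.continuousAt.eventually_lt continuousAt_const
    rw [h0]; exact lt_min hρ one_pos
  obtain ⟨ε, hε, h⟩ := Metric.eventually_nhds_iff.1 hev
  refine ⟨min ε 1, lt_min hε one_pos, ?_⟩
  rintro w ⟨s, rfl⟩ ⟨h1, h2, h3, h4⟩
  have hS : Q'.γ s ∈ Q.S := Q.T_sub (min_le_right ε 1) ⟨h1, h2, h3, h4⟩
  have hx : Q.φ^[n] (Q.X (Q'.γ s)) < min ρ 1 := by
    apply h
    rw [Real.dist_eq, sub_zero, abs_of_pos h1]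
    exact h2.trans_le (min_le_left _ _)
  have hp : 0 < Q.φ^[n] (Q.X (Q'.γ s)) := (Q.phi_iter_pos n _).2 h1
  have hag := (Q.iter_ag (n := n) hS (by
    rw [Q.X_iter, abs_of_pos hp]; exact (hx.trans_le (min_le_right _ _)).le) n le_rfl).1
  have he : Q'.γ (s + n) = Q.Gt^[n] (Q'.γ s) := by
    rw [← Q'.γ_iter, hM]; exact hag
  refine ⟨s + n, ?_, ?_, ?_, ?_⟩
  · rw [he, Q.X_iter]; exact hp
  · rw [he, Q.X_iter]; exact hx.trans_le (min_le_left _ _)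
  · rw [he]; exact (Q.Y_iter_pos n _).2 h3
  · rw [he]
    have h5 := Q.Y_iter_abs n (Q'.γ s)
    rw [abs_of_pos h3] at h5
    have h6 : Q.lam ^ n * Q.Y (Q'.γ s) ≤ Q.lam ^ n * 1 :=
      mul_le_mul_of_nonneg_left (by linarith) (pow_pos Q.lam_pos n).le
    have := le_abs_self (Q.Y (Q.Gt^[n] (Q'.γ s)))
    linarith

theorem pc1_seg {F : Dis} (Q : Quad F) (a b y : ℝ) :
    IsCompact {w | a ≤ Q.X w ∧ Q.X w ≤ b ∧ Q.Y w = y} ∧
      IsPreconnected {w | a ≤ Q.X w ∧ Q.X w ≤ b ∧ Q.Y w = y} := by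
  constructor
  · have := Q.rect_compact a b y y
    convert this using 3
    constructor
    · rintro ⟨h1, h2, h3⟩; exact ⟨h1, h2, h3.ge, h3.le⟩
    · rintro ⟨h1, h2, h3, h4⟩; exact ⟨h1, h2, le_antisymm h4 h3⟩
  · have := Q.rect_conn (I := Icc a b) (J := {y}) isPreconnected_Icc isPreconnected_singleton
    convert this using 3
    simp only [mem_Icc, mem_singleton_iff, and_assoc]

theorem Cyc.pc1_one {F : Dis} (C : Cyc F) (i l : ℕ) :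
    ∃ d0 > 0, Disjoint (C.Q i).Gam ((C.Q (l + 1)).T d0) := by
  obtain ⟨y0, m, hm⟩ := C.exists_good
  have hG : C.Good y0 m := hm m le_rfl
  set Q := C.Q (l + 1) with hQ
  -- a small rectangle at the vertex
  obtain ⟨ρ1, hρ1, hr⟩ := C.unif
    (fun j ρ => ∀ w, 0 ≤ Q.X w → Q.X w ≤ ρ → 0 ≤ Q.Y w → Q.Y w ≤ ρ →
      (w ∈ (C.Q j).Gc (C.t j) → Q.Y w = 0) ∧ (Q.p ≠ (C.Q j).p → w ∉ (C.Q j).Sig 1))
    (fun j d h => by
      have e := C.Q_mod j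
      rw [e.1, e.2.1] at h; exact h)
    (fun j d d' _ hd h w h1 h2 h3 h4 => h w h1 (h2.trans hd) h3 (h4.trans hd))
    (fun j => pc1_rect Q (Quad.near_vertex (C.compat (l + 1) j) (C.t j)))
  have hy := C.ym_spec 0 l
  set ρ := min (min ρ1 y0) (C.ym 0 l) with hρ
  have hρp : 0 < ρ := lt_min (lt_min hρ1 hG.1) hy.2.1
  have hρa : ρ ≤ ρ1 := (min_le_left _ _).trans (min_le_left _ _)
  have hρb : ρ ≤ y0 := (min_le_left _ _).trans (min_le_right _ _)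
  have hρc : ρ ≤ C.ym 0 l := min_le_right _ _
  obtain ⟨d0, hd0, hp⟩ := pc1_push Q (C.Q i) (by rw [C.pow, hQ, C.pow]) hρp
  refine ⟨d0, hd0, disjoint_left.2 fun w hw hw' => ?_⟩
  obtain ⟨s, ha1, ha2, ha3, ha4⟩ := hp w hw hw'
  set a := (C.Q i).γ s with ha
  set ya := Q.Y a with hya
  set ka : Set ℂ := {w | 0 ≤ Q.X w ∧ Q.X w ≤ Q.X a ∧ Q.Y w = ya} with hka
  have hkc : IsCompact ka := (pc1_seg Q 0 (Q.X a) ya).1
  have hkr : ∀ w ∈ ka, ∀ j, (w ∈ (C.Q j).Gc (C.t j) → Q.Y w = 0) ∧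
      (Q.p ≠ (C.Q j).p → w ∉ (C.Q j).Sig 1) := by
    rintro w ⟨h1, h2, h3⟩ j
    exact hr j w h1 (by linarith) (by rw [h3]; exact ha3.le) (by rw [h3]; linarith)
  -- tubes which miss the segment
  obtain ⟨d1, hd1, hR⟩ := C.unif
    (fun j d => Disjoint ka (F.f^[C.M * C.t j] '' (C.Q j).R d))
    (fun j d h => by
      have e := C.Q_mod j
      rw [e.1, e.2.1] at h; exact h)
    (fun j d d' _ hd h => h.mono_right (image_mono ((C.Q j).R_mono hd)))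
    (fun j => by
      have := (C.Q j).avoid_R (C.t j) hkc (disjoint_left.2 fun w hw hw' => by
        have := (hkr w hw j).1 hw'
        rw [hw.2.2] at this
        exact ha3.ne' this)
      rwa [C.pow] at this)
  obtain ⟨d2, hd2, hT⟩ := C.unif
    (fun j d => ¬ j ≡ l + 1 [MOD C.k] → Disjoint ka ((C.Q j).T d))
    (fun j d h hj => by
      have e := C.Q_mod j
      rw [e.1] at h
      exact h fun h' => hj ((Nat.mod_modEq j C.k).symm.trans h'))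
    (fun j d d' _ hd h hj => (h hj).mono_right ((C.Q j).T_mono hd))
    (fun j => by
      by_cases hj : j ≡ l + 1 [MOD C.k]
      · exact ⟨1, one_pos, fun h => absurd hj h⟩
      by_cases hpp : Q.p = (C.Q j).p
      · refine ⟨1, one_pos, fun _ => disjoint_left.2 fun w hw hw' => ?_⟩
        rcases C.signs hpp (fun h => hj h.symm) with h | h
        · have h1 := (h w).1
          have h2 := hw'.1
          have h3 := hw.1
          rw [h1] at h2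
          linarith
        · have h1 := h w
          have h2 := hw'.2.2.1
          have h3 := hw.2.2
          rw [h1, h3] at h2
          linarith
      · obtain ⟨d, hd, h⟩ := (C.Q j).av_T hkc (disjoint_left.2 fun w hw hw' =>
          (hkr w hw j).2 hpp ((C.Q j).Sig_mono (by norm_num) hw'))
        exact ⟨d, hd, fun _ => h⟩)
  obtain ⟨d3, hd3, hJ⟩ := hG.offJ
  obtain ⟨d4, hd4, hE⟩ := hG.2.2.2 s
  set d := min (min (min d1 d2) (min d3 d4)) (Q.X a) with hd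
  have hdp : 0 < d := lt_min (lt_min (lt_min hd1 hd2) (lt_min hd3 hd4)) ha1
  have hda : d ≤ Q.X a := min_le_right _ _
  have hd1' : d ≤ d1 := (min_le_left _ _).trans ((min_le_left _ _).trans (min_le_left _ _))
  have hd2' : d ≤ d2 := (min_le_left _ _).trans ((min_le_left _ _).trans (min_le_right _ _))
  have hd3' : d ≤ d3 := (min_le_left _ _).trans ((min_le_right _ _).trans (min_le_left _ _))
  have hd4' : d ≤ d4 := (min_le_left _ _).trans ((min_le_right _ _).trans (min_le_right _ _))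
  have hya2 : ya < 1 / 2 := by linarith [hy.2.2]
  set Z0 : Set ℂ := C.J m ∪ (C.Q i).Gc s ∪ Q.Sig ya with hZ0
  set kL : Set ℂ := {w | 0 ≤ Q.X w ∧ Q.X w ≤ d / 4 ∧ Q.Y w = ya} with hkL
  set kR : Set ℂ := {w | 3 * d / 4 ≤ Q.X w ∧ Q.X w ≤ Q.X a ∧ Q.Y w = ya} with hkR
  have hpJ : ∀ j, (C.Q j).p ∈ C.J m := fun j => mem_iUnion.2 ⟨j, (C.edge_p m j).1⟩
  have hZ0T : Disjoint (C.Tube d) Z0 := by
    refine disjoint_union_right.2 ⟨disjoint_union_right.2 ⟨?_, ?_⟩, ?_⟩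
    · exact hJ.mono_left (C.tube_mono hd3')
    · exact ((hE i).mono_left (C.tube_mono hd4')).mono_right subset_union_left
    · exact ((hE (l + 1)).mono_left (C.tube_mono hd4')).mono_right
        ((Q.Sig_mono (by linarith)).trans subset_union_right)
  have hZ0c : IsPreconnected Z0 := by
    refine IsPreconnected.union Q.p (Or.inl (hpJ (l + 1))) (Q.p_mem_Sig ha3.le) ?_ (Q.Sig_conn ya)
    exact IsPreconnected.union (C.Q i).p (hpJ i) (mem_insert _ _) (C.J_conn m) ((C.Q i).Gc_conn s)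
  have hZc : IsPreconnected (Z0 ∪ kL ∪ kR) := by
    refine IsPreconnected.union a (Or.inl (Or.inl (Or.inr ?_))) ⟨by linarith, le_rfl, rfl⟩ ?_
      (pc1_seg Q _ _ _).2
    · exact mem_insert_of_mem _ ⟨s, mem_Iic.2 le_rfl, rfl⟩
    · refine IsPreconnected.union (Q.pt 0 ya) (Or.inr ?_) ?_ hZ0c (pc1_seg Q _ _ _).2
      · exact ⟨Q.X_pt _ _, by rw [Q.Y_pt]; exact ha3.le, (Q.Y_pt _ _).le⟩
      · exact ⟨(Q.X_pt _ _).ge, by rw [Q.X_pt]; linarith, Q.Y_pt _ _⟩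
  have hZk : IsCompact (Z0 ∪ kL ∪ kR) :=
    ((((C.J_compact m).union ((C.Q i).Gc_compact s)).union (Q.Sig_compact ya)).union
      (pc1_seg Q _ _ _).1).union (pc1_seg Q _ _ _).1
  have hTT : Q.T d ⊆ C.Tube d := fun w hw => mem_iUnion.2 ⟨l + 1, Or.inl hw⟩
  have hCT : C.Cut l d ya ⊆ C.Tube d := by
    rintro w ((hw | hw) | hw)
    · obtain ⟨j, hj⟩ := mem_iUnion.1 hw
      exact mem_iUnion.2 ⟨j, Or.inr hj⟩
    · obtain ⟨j, -, hj⟩ := mem_iUnion₂.1 hw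
      exact mem_iUnion.2 ⟨j, Or.inl hj⟩
    · exact hTT hw.1
  have hCk : ∀ w ∈ C.Cut l d ya, w ∉ ka := by
    rintro w ((hw | hw) | hw) hk
    · obtain ⟨j, hj⟩ := mem_iUnion.1 hw
      exact disjoint_left.1 (hR j) hk (image_mono ((C.Q j).R_mono hd1') hj)
    · obtain ⟨j, hj', hj⟩ := mem_iUnion₂.1 hw
      exact disjoint_left.1 (hT j hj') hk ((C.Q j).T_mono hd2' hj)
    · exact hw.2 hk.2.2
  obtain ⟨ε, hε, hs⟩ := sep Q.Ψ (a := d / 4) (b := 3 * d / 4) (c := ya) (m := d / 2)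
    (by linarith) (by linarith) hZk hZc
    (Or.inl (Or.inr ⟨by
      change 0 ≤ Q.X (Q.pt _ _); rw [Q.X_pt]; linarith, (Q.X_pt _ _).le, Q.Y_pt _ _⟩))
    (Or.inr ⟨(Q.X_pt _ _).ge, by
      change Q.X (Q.pt _ _) ≤ _; rw [Q.X_pt]; linarith, Q.Y_pt _ _⟩)
    (by
      rintro x ⟨hx1, hx2⟩ ((h | h) | h)
      · refine disjoint_left.1 hZ0T (hTT ?_) h
        change Q.pt x ya ∈ Q.T d
        refine ⟨?_, ?_, ?_, ?_⟩ <;> simp only [Q.X_pt, Q.Y_pt] <;> linarith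
      · have := h.2.1
        change Q.X (Q.pt x ya) ≤ _ at this
        rw [Q.X_pt] at this; linarith
      · have := h.1
        change _ ≤ Q.X (Q.pt x ya) at this
        rw [Q.X_pt] at this; linarith)
  set e := min (ε / 2) (min (ya / 2) ((1 / 2 - ya) / 2)) with he
  have hep : 0 < e := lt_min (by linarith) (lt_min (by linarith) (by linarith))
  have he1 : e ≤ ε / 2 := min_le_left _ _
  have he2 : e ≤ ya / 2 := (min_le_right _ _).trans (min_le_left _ _)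
  have he3 : e ≤ (1 / 2 - ya) / 2 := (min_le_right _ _).trans (min_le_right _ _)
  have hΨ : ∀ x y, Q.Ψ (Q.pt x y) = (x, y) := fun x y => Q.Ψ.apply_symm_apply _
  refine hs (Q.pt (d / 2) (ya + e)) (Q.pt (d / 2) (ya - e)) ?_ ?_ ?_ ?_ (C.Cut l d ya)
    (C.cut_conn l hdp ha3 (by linarith)) ?_ ?_ ⟨Or.inr ⟨?_, ?_⟩, Or.inr ⟨?_, ?_⟩⟩
  · rw [hΨ, Prod.dist_eq, dist_self, Real.dist_eq, max_lt_iff]
    refine ⟨hε, ?_⟩
    rw [add_sub_cancel_left, abs_of_pos hep]; linarith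
  · rw [hΨ, Prod.dist_eq, dist_self, Real.dist_eq, max_lt_iff]
    refine ⟨hε, ?_⟩
    rw [sub_sub_cancel_left, abs_neg, abs_of_pos hep]; linarith
  · rw [hΨ]; simp only; linarith
  · rw [hΨ]; simp only; linarith
  · refine disjoint_left.2 fun w hw => ?_
    rintro ((h | h) | h)
    · exact disjoint_left.1 hZ0T (hCT hw) h
    · exact hCk w hw ⟨h.1, by linarith [h.2.1], h.2.2⟩
    · exact hCk w hw ⟨by linarith [h.1], h.2.1, h.2.2⟩
  · rintro x ⟨hx1, hx2⟩ h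
    refine hCk _ h ?_
    change Q.pt x ya ∈ ka
    refine ⟨?_, ?_, Q.Y_pt _ _⟩ <;> rw [Q.X_pt] <;> linarith
  · refine ⟨?_, ?_, ?_, ?_⟩ <;> simp only [← hQ, Q.X_pt, Q.Y_pt] <;> linarith
  · change Q.Y _ ≠ ya
    rw [Q.Y_pt]; linarith
  · refine ⟨?_, ?_, ?_, ?_⟩ <;> simp only [← hQ, Q.X_pt, Q.Y_pt] <;> linarith
  · change Q.Y _ ≠ ya
    rw [Q.Y_pt]; linarith

theorem Cyc.pc1 {F : Dis} (C : Cyc F) :
    ∃ d0 > 0, ∀ i j, Disjoint (C.Q i).Gam ((C.Q j).T d0) := by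
  refine C.unif (fun i d => ∀ j, Disjoint (C.Q i).Gam ((C.Q j).T d))
    (fun i d h => by rw [(C.Q_mod i).1] at h; exact h)
    (fun i d d' _ hd h j => (h j).mono_right ((C.Q j).T_mono hd)) fun i => ?_
  refine C.unif (fun j d => Disjoint (C.Q i).Gam ((C.Q j).T d))
    (fun j d h => by rw [(C.Q_mod j).1] at h; exact h)
    (fun j d d' _ hd h => h.mono_right ((C.Q j).T_mono hd)) fun j => ?_
  have h := C.pc1_one i (j + C.k - 1)
  have e : j + C.k - 1 + 1 = j + C.k := by have := C.k_pos; omega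
  rwa [e, C.Q_per] at h

end Pool.Agent.Lib.MP_3fe454_an.S2
end

-- part Pool.Agent.Lib.MP_3fe454_an.S2.PC2
section

/-!
The invariant side of a cycle.
-/

set_option autoImplicit false

open Set Metric Filter Topology Function

namespace Pool.Agent.Lib.MP_3fe454_an.S2

open PD

namespace Cyc

variable {F : Dis} (C : Cyc F)

theorem pc2_compact (P : ℕ → Set ℂ) (hP : ∀ l, P (l % C.k) = P l) (hc : ∀ l, IsCompact (P l)) :
    IsCompact (⋃ l, P l) := by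
  have e : ⋃ l, P l = ⋃ l ∈ Iio C.k, P l :=
    (iUnion_subset fun l => hP l ▸ subset_biUnion_of_mem (u := P) (Nat.mod_lt l C.k_pos)).antisymm
      (iUnion₂_subset fun l _ => subset_iUnion P l)
  rw [e]
  exact (finite_Iio _).isCompact_biUnion fun l _ => hc l

theorem pc2_open {d : ℝ} (hd : d ≤ 1) : IsOpen (C.Tube d) :=
  isOpen_iUnion fun l => ((C.Q l).T_open d).union
    (open_iter F _ ((C.Q l).R_open d) (((C.Q l).R_sub hd).trans (C.Q l).S_sub))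

/-- thin tubes miss the branches -/
theorem pc2_gam : ∃ d > 0, d ≤ 1 ∧ ∀ l, Disjoint (C.Tube d) (C.Q l).Gam := by
  obtain ⟨d1, h1, k1⟩ := C.pc1
  obtain ⟨d2, h2, k2⟩ := C.unif
    (fun j h => ∀ u ∈ (C.Q j).R h, ∃ n : ℕ, F.g^[C.M * n] u ∈ (C.Q j).T d1)
    (fun i d h => (C.Q_mod i).1 ▸ h)
    (fun i d d' _ hd h u hu => h u ((C.Q i).R_mono hd hu)) fun i => by
      obtain ⟨h, h0, k⟩ := (C.Q i).R_back h1
      exact ⟨h, h0, fun u hu => (k u hu).imp fun n e => C.pow i ▸ e.1⟩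
  refine ⟨min (min d1 d2) 1, lt_min (lt_min h1 h2) one_pos, min_le_right _ _, fun l => ?_⟩
  refine disjoint_right.2 ?_
  rintro _ ⟨s, rfl⟩ hw
  obtain ⟨j, hw | ⟨u, hu, e⟩⟩ := mem_iUnion.1 hw
  · exact disjoint_left.1 (k1 l j) ⟨s, rfl⟩
      ((C.Q j).T_mono ((min_le_left _ _).trans (min_le_left _ _)) hw)
  · obtain ⟨n, hn⟩ := k2 j u ((C.Q j).R_mono ((min_le_left _ _).trans (min_le_right _ _)) hu)
    have e1 := F.iter_g_f (ball_subset_closedBall ((C.Q j).S_sub ((C.Q j).R_sub (min_le_right _ _) hu))) (C.M * C.t j)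
    rw [e, ← C.pow l, (C.Q l).γ_back] at e1
    rw [← e1, ← C.pow l, (C.Q l).γ_back] at hn
    exact disjoint_left.1 (k1 l j) ⟨_, rfl⟩ hn

/-- a point of the tube whose image is in the tube -/
theorem pc2_point {d : ℝ} (h0 : 0 < d) (h1 : d ≤ 1) :
    ∃ x ∈ Disc, x ∈ C.Tube d ∧ F.f^[C.M] x ∈ C.Tube d := by
  obtain ⟨Q, hQ⟩ : ∃ Q, Q = C.Q 0 := ⟨_, rfl⟩
  have t : Q.T d ⊆ C.Tube d := hQ ▸ subset_union_left.trans
    (subset_iUnion (fun l => (C.Q l).T d ∪ F.f^[C.M * C.t l] '' (C.Q l).R d) 0)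
  obtain ⟨x, hx⟩ := Q.φ.surjective (d / 2)
  have x0 : 0 < x := Q.φ.lt_iff_lt.1 (by rw [Q.fix, hx]; linarith)
  have x1 : x < d / 2 := Q.φ.lt_iff_lt.1 (hx ▸ Q.gap _ ⟨by linarith, by linarith⟩)
  have m : Q.pt x (1 / 4) ∈ Q.T d := by
    refine ⟨?_, ?_, ?_, ?_⟩ <;> simp only [Box.X_pt, Box.Y_pt] <;> linarith
  have e : Q.X (Q.Gt (Q.pt x (1 / 4))) = d / 2 := by rw [Q.X_Gt, Q.X_pt, hx]
  have y := Q.Y_Gt_abs (Q.pt x (1 / 4))
  rw [Q.Y_pt, abs_of_pos (by norm_num : (0 : ℝ) < 1 / 4)] at y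
  have m' : Q.Gt (Q.pt x (1 / 4)) ∈ Q.T d :=
    ⟨by rw [e]; linarith, by rw [e]; linarith, (Q.Y_iter_pos 1 _).2 m.2.2.1, by
      have := Q.lam_lt
      linarith [le_abs_self (Q.Y (Q.Gt (Q.pt x (1 / 4))))]⟩
  refine ⟨_, ball_subset_closedBall (Q.S_sub (Q.T_sub h1 m)), t m, ?_⟩
  rw [← C.pow 0, ← hQ, Q.ag _ (Q.T_sub h1 m).1 (Q.T_sub h1 m).2 (Q.T_sub h1 m').1]
  exact t m'

theorem pc2 {y0 : ℝ} {m : ℕ} (h : C.Good y0 m) : ∃ d0 > 0, ∃ W : Set ℂ,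
    MapsTo F.f^[C.M] W W ∧ Disjoint W (C.Tube d0) ∧ C.J m ⊆ W ∧ IsPreconnected Wᶜ := by
  obtain ⟨d1, h1, h1', k1⟩ := C.pc2_gam
  obtain ⟨d2, h2, k2⟩ := h.2.2.2 0
  obtain ⟨K, hK⟩ : ∃ K, K = ⋃ l, (closure (C.Q l).Gam ∪ (C.Q (l + 1)).Sig (C.ym m l)) := ⟨_, rfl⟩
  have y1 : ∀ l, C.ym m l ≤ 1 := fun l => by linarith [(C.ym_spec m l).2.2]
  have c1 : IsCompact K := hK ▸ C.pc2_compact _ (fun l => by
      have a := C.Q_mod l
      have b := (C.Q_congr ((Nat.mod_modEq l C.k).add_right 1)).1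
      simp only [ym, sm, a.1, a.2.1, a.2.2, b])
    fun l => (C.Q l).clos_compact.union ((C.Q _).Sig_compact _)
  have c2 : K ⊆ ball 0 1 := hK ▸ iUnion_subset fun l => union_subset
    (fun z hz => mem_ball_zero_iff.2 ((F.Λ_norm ((C.Q l).clos_Λ hz)).trans_lt F.r0_lt))
    (((C.Q _).Sig_sub (y1 l)).trans (C.Q _).S_sub)
  have c3 : MapsTo F.f^[C.M] K K := by
    subst hK
    refine mapsTo_iUnion_iUnion fun l => MapsTo.union_union (C.pow l ▸ (C.Q l).clos_fwd)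
      fun w hw => ?_
    have := (C.Q _).Sig_fwd hw (y1 l) 1
    rw [mul_one, C.pow, pow_one] at this
    exact (C.Q _).Sig_mono
      (mul_le_of_le_one_left (C.ym_spec m l).2.1.le (C.Q _).lam_lt.le) this
  have c4 : C.J m ⊆ K := hK ▸ iUnion_mono fun l => union_subset_union_left _ (by
    rw [(C.Q l).clos_eq]
    exact insert_subset_insert ((image_subset_range _ _).trans subset_union_left))
  have d0 := lt_min h1 h2
  have d1' := (min_le_left d1 d2).trans h1'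
  have c5 : C.Tube (min d1 d2) ⊆ Kᶜ := by
    refine subset_compl_iff_disjoint_right.2 (hK ▸ disjoint_iUnion_right.2 fun l => ?_)
    exact disjoint_union_right.2
      ⟨((k1 l).mono_left (C.tube_mono (min_le_left _ _))).closure_right (C.pc2_open d1'),
        (k2 (l + 1)).mono (C.tube_mono (min_le_right _ _))
          (((C.Q _).Sig_mono (h.2.2.1 l)).trans subset_union_right)⟩
  obtain ⟨x, x1, x2, x3⟩ := C.pc2_point d0 d1'
  have c6 := (C.tube_conn d0).subset_connectedComponentIn x2 c5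
  refine ⟨_, d0, _, comp_inv F C.M_pos c1 c2 c3 x1 (c6 x3), disjoint_compl_left.mono_right c6,
    c4.trans (subset_compl_comm.1 (connectedComponentIn_subset _ _)), ?_⟩
  rw [compl_compl]
  exact isPreconnected_connectedComponentIn

/-- the other side of a stable edge -/
theorem side (m l : ℕ) {u : ℂ} (h0 : (C.Q (l + 1)).X u = 0) (h1 : 0 < (C.Q (l + 1)).Y u)
    (h2 : (C.Q (l + 1)).Y u < C.ym m l) (h3 : ∀ i, u ∉ (C.Q i).Gc (C.sm m i)) :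
    (∃ i, ∀ w, (C.Q i).X w = -(C.Q (l + 1)).X w ∧ (C.Q i).Y w = (C.Q (l + 1)).Y w) ∨
      ∃ ε > 0, ∀ v v' : ℂ, dist v u < ε → dist v' u < ε → (C.Q (l + 1)).X v < 0 →
        0 < (C.Q (l + 1)).X v' → ∀ B : Set ℂ, IsPreconnected B → Disjoint B (C.J m) →
          ¬ (v ∈ B ∧ v' ∈ B) := by
  refine or_iff_not_imp_left.2 fun hn => ?_
  obtain ⟨s1, s2, s3⟩ := C.ym_spec m l
  have hk := C.k_pos
  obtain ⟨N, hN⟩ : ∃ N, N = insert (C.Q (l + 1)).p (⋃ i ∈ Ico (l + 1) (l + C.k), C.Edge m i) ∪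
    (C.Q l).Gc (C.sm m l) := ⟨_, rfl⟩
  have n1 : IsCompact N := hN ▸ (((finite_Ico _ _).isCompact_biUnion
    fun i _ => C.edge_compact m i).insert _).union ((C.Q l).Gc_compact _)
  have n2 : IsPreconnected N := by
    refine hN ▸ IsPreconnected.union (C.Q l).p ?_ (mem_insert _ _) (C.edges_conn m _ _)
      ((C.Q l).Gc_conn _)
    obtain ⟨k, e⟩ : ∃ k, C.k = k + 1 := ⟨C.k - 1, by omega⟩
    have e' : C.Q (l + k + 1) = C.Q l := by rw [add_assoc, ← e, C.Q_per]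
    rcases Nat.eq_zero_or_pos k with rfl | k0
    · exact Or.inl (congrArg Quad.p e'.symm)
    · exact Or.inr (mem_biUnion (x := l + k) ⟨by omega, by omega⟩ (e' ▸ (C.edge_p m (l + k)).2))
  have e0 : C.Edge m l ⊆ C.J m := subset_iUnion (C.Edge m) l
  have n3 : N ⊆ C.J m := hN ▸ union_subset (insert_subset (e0 (C.edge_p m l).2)
    (iUnion₂_subset fun i _ => subset_iUnion (C.Edge m) i)) (subset_union_left.trans e0)
  have n4 : u ∉ N := by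
    subst hN
    rintro ((rfl | hu) | hu)
    · exact h1.ne' (C.Q _).p_Y
    · obtain ⟨i, hi, hu | hu⟩ := mem_iUnion₂.1 hu
      · exact h3 i hu
      by_cases hp : (C.Q (l + 1)).p = (C.Q (i + 1)).p
      · have := ((C.signs hp fun e => by
          have := Nat.le_of_dvd (by have := hi.1; omega)
            ((Nat.modEq_iff_dvd' (by have := hi.1; omega)).1 e)
          have := hi.2
          omega).resolve_left fun e => hn ⟨_, e⟩) u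
        linarith [hu.2.1]
      · exact disjoint_left.1 (Quad.Sig_disj _ _ hp) ⟨h0, h1.le, by linarith⟩
          ((C.Q _).Sig_mono (by linarith [(C.ym_spec m i).2.2]) hu)
    · exact h3 l hu
  have g1 : (C.Q l).γ (C.sm m l) ∈ N := hN ▸ Or.inr (mem_insert_of_mem _ ⟨_, self_mem_Iic, rfl⟩)
  have g2 : (C.Q (l + 1)).p ∈ N := hN ▸ Or.inl (mem_insert _ _)
  have g3 : (C.Q (l + 1)).Sig (C.ym m l) ⊆ C.J m := subset_union_right.trans e0
  have g4 : (C.Q (l + 1)).Y ((C.Q l).γ (C.sm m l)) = C.ym m l := rfl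
  generalize C.Q (l + 1) = Q at h0 h1 h2 s1 g2 g3 g4 ⊢
  have hu : Q.pt 0 (Q.Y u) = u := by rw [← h0, Q.pt_XY]
  have hc : Continuous fun y => Q.pt 0 y := Q.c_pt.comp (Continuous.prodMk_right 0)
  obtain ⟨δ, d0, hδ⟩ := Metric.mem_nhds_iff.1 (inter_mem
    (hc.continuousAt.preimage_mem_nhds (n1.isClosed.isOpen_compl.mem_nhds (hu.symm ▸ n4)))
    (Ioo_mem_nhds h1 h2))
  have hab : ∀ y ∈ Icc (Q.Y u - δ / 2) (Q.Y u + δ / 2), Q.pt 0 y ∉ N ∧ 0 < y ∧ y < C.ym m l :=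
    fun y hy => hδ (by
      rw [Real.ball_eq_Ioo]
      exact ⟨by linarith [hy.1], by linarith [hy.2]⟩)
  have ha := hab _ (left_mem_Icc.2 (by linarith))
  have hb := hab _ (right_mem_Icc.2 (by linarith))
  obtain ⟨U, hU⟩ : ∃ U, U = {w | Q.X w ∈ Icc (0 : ℝ) 0 ∧ Q.Y w ∈ Icc (Q.Y u + δ / 2) (C.ym m l)} :=
    ⟨_, rfl⟩
  have u1 : IsCompact U := by
    rw [hU]
    simpa only [mem_Icc, and_assoc] using Q.rect_compact 0 0 (Q.Y u + δ / 2) (C.ym m l)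
  have u2 : IsPreconnected U := hU ▸ Q.rect_conn isPreconnected_Icc isPreconnected_Icc
  have u3 : ∀ w, w ∈ U ↔ Q.X w = 0 ∧ Q.Y u + δ / 2 ≤ Q.Y w ∧ Q.Y w ≤ C.ym m l := fun w => by
    rw [hU, Icc_self]
    rfl
  obtain ⟨ε, e1, hε⟩ := sepV Q.Ψ (a := Q.Y u - δ / 2) (b := Q.Y u + δ / 2) (c := 0) (m := Q.Y u)
    (by linarith) (by linarith) ((n1.union (Q.Sig_compact (Q.Y u - δ / 2))).union u1)
    ((n2.union _ g2 (Q.p_mem_Sig ha.2.1.le) (Q.Sig_conn _)).union _ (Or.inl g1)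
      ((u3 _).2 ⟨s1, g4 ▸ hb.2.2.le, g4.le⟩) u2)
    (Or.inl (Or.inr ⟨Q.X_pt _ _, (Q.Y_pt 0 _).symm ▸ ha.2.1.le, (Q.Y_pt 0 _).le⟩))
    (Or.inr ((u3 _).2 ⟨Q.X_pt _ _, (Q.Y_pt 0 _).ge, (Q.Y_pt 0 _).trans_le hb.2.2.le⟩))
    (by
      rintro y hy ((k | k) | k)
      · exact (hab y (Ioo_subset_Icc_self hy)).1 k
      · exact hy.1.not_ge ((Q.Y_pt 0 y).symm.trans_le k.2.2)
      · exact hy.2.not_ge (((u3 _).1 k).2.1.trans_eq (Q.Y_pt 0 y)))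
  obtain ⟨η, η0, hη⟩ := Metric.continuous_iff.1 Q.Ψ.continuous u ε e1
  have hΨ : Q.Ψ u = (0, Q.Y u) := Prod.ext h0 rfl
  refine ⟨η, η0, fun v v' hv hv' x1 x2 B b1 b2 k => hε v' v (hΨ ▸ hη v' hv') (hΨ ▸ hη v hv) x2 x1
    B b1 (b2.mono_right (union_subset (union_subset n3 ((Q.Sig_mono ha.2.2.le).trans g3))
      fun w hw => g3 ?_)) (fun y hy k' => disjoint_left.1 b2 k' (g3 ?_)) k.symm⟩
  · obtain ⟨w1, w2, w3⟩ := (u3 w).1 hw
    exact ⟨w1, hb.2.1.le.trans w2, w3⟩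
  · exact ⟨Q.X_pt 0 y, (hab y hy).2.1.le.trans_eq (Q.Y_pt 0 y).symm,
      (Q.Y_pt 0 y).trans_le (hab y hy).2.2.le⟩

end Cyc

end Pool.Agent.Lib.MP_3fe454_an.S2
end

-- part Pool.Agent.Lib.MP_3fe454_an.S2.PC3
section

/-!
Points near the far part of a branch lie on the invariant side or in a strip.
-/

set_option autoImplicit false

open Set Metric Filter Topology Function

namespace Pool.Agent.Lib.MP_3fe454_an.S2

open PD

namespace Cyc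

variable {F : Dis} (C : Cyc F)

theorem pc3_far (m : ℕ) : ∃ S0 : ℝ, ∀ l, ∀ s ≥ S0, C.sm m l ≤ s ∧
    ∀ i, (C.Q l).γ s ∉ (C.Q i).Gc (C.sm m i) := by
  have h : ∀ᶠ s in atTop, ∀ l ∈ Finset.range C.k, C.sm m l ≤ s ∧ ∀ i ∈ Finset.range C.k,
      (C.Q l).γ s ∉ (C.Q i).Gc (C.sm m i) := by
    refine (Finset.range C.k).eventually_all.2 fun l _ => (eventually_ge_atTop _).and ?_
    refine (Finset.range C.k).eventually_all.2 fun i _ => ?_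
    obtain ⟨s0, hs0⟩ := (C.Q l).far_off (C.Q i) (by rw [C.pow, C.pow]) (C.sm m i)
    exact eventually_atTop.2 ⟨s0, hs0⟩
  obtain ⟨S0, hS0⟩ := eventually_atTop.1 h
  have hsm : ∀ l, C.sm m (l % C.k) = C.sm m l := fun l => by
    unfold sm; rw [(C.Q_mod l).2.1, (C.Q_mod l).2.2]
  refine ⟨S0, fun l s hs => ?_⟩
  obtain ⟨a, b⟩ := hS0 s hs (l % C.k) (Finset.mem_range.2 (Nat.mod_lt _ C.k_pos))
  refine ⟨hsm l ▸ a, fun i => ?_⟩
  have := b (i % C.k) (Finset.mem_range.2 (Nat.mod_lt _ C.k_pos))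
  rwa [hsm, (C.Q_mod l).1, (C.Q_mod i).1] at this

theorem pc3_tri {m : ℕ} {d0 : ℝ} (hd : 0 < d0) {W : Set ℂ} (hT : Disjoint W (C.Tube d0)) {u : ℂ}
    (hu : u ∈ C.J m) (hp : u ∉ periodicPts F.f) (h3 : ∀ i, u ∉ (C.Q i).Gc (C.sm m i)) :
    ∀ᶠ v in 𝓝 u, v ∈ C.J m ∨ (∃ i, v ∈ (C.Q i).T d0 ∧ (C.Q i).X u = 0 ∧ 0 < (C.Q i).Y u ∧
      (C.Q i).Y u < 1 / 2) ∨ ∀ B : Set ℂ, IsPreconnected B → Disjoint B (C.J m) → Wᶜ ⊆ B →
        v ∉ B := by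
  obtain ⟨l, hl⟩ := mem_iUnion.1 hu
  have hs : u ∈ (C.Q (l + 1)).Sig (C.ym m l) := hl.resolve_left (h3 l)
  obtain ⟨hX, hY0, hY1⟩ := hs
  obtain ⟨y0, y1, y2⟩ := C.ym_spec m l
  have hY0' : 0 < (C.Q (l + 1)).Y u := by
    refine lt_of_le_of_ne hY0 fun e => hp ?_
    rw [(C.Q (l + 1)).ext_XY (w := u) (w' := (C.Q (l + 1)).p) (by rw [hX, Quad.p_X])
      (by rw [← e, Quad.p_Y])]
    exact (C.Q (l + 1)).p_per
  have hY1' : (C.Q (l + 1)).Y u < C.ym m l := by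
    refine lt_of_le_of_ne hY1 fun e => h3 l ?_
    rw [(C.Q (l + 1)).ext_XY (w := u) (w' := (C.Q l).γ (C.sm m l)) (by rw [hX, y0]) e]
    exact Or.inr ⟨_, mem_Iic.2 le_rfl, rfl⟩
  have cX := (C.Q (l + 1)).cX.continuousAt (x := u)
  have cY := (C.Q (l + 1)).cY.continuousAt (x := u)
  have hnear : ∀ᶠ v in 𝓝 u, -d0 < (C.Q (l + 1)).X v ∧ (C.Q (l + 1)).X v < d0 ∧
      0 < (C.Q (l + 1)).Y v ∧ (C.Q (l + 1)).Y v < C.ym m l := by
    refine (cX.eventually (lt_mem_nhds ?_)).and ((cX.eventually (gt_mem_nhds ?_)).and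
      ((cY.eventually (lt_mem_nhds hY0')).and (cY.eventually (gt_mem_nhds hY1'))))
    · rw [hX]; linarith
    · rw [hX]; exact hd
  have hneg : ∀ᶠ v in 𝓝 u, (C.Q (l + 1)).X v < 0 → (∃ i, v ∈ (C.Q i).T d0 ∧ (C.Q i).X u = 0 ∧
      0 < (C.Q i).Y u ∧ (C.Q i).Y u < 1 / 2) ∨ ∀ B : Set ℂ, IsPreconnected B →
        Disjoint B (C.J m) → Wᶜ ⊆ B → v ∉ B := by
    rcases C.side m l hX hY0' hY1' h3 with ⟨i, hi⟩ | ⟨ε, hε, h⟩
    · filter_upwards [hnear] with v hv hx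
      refine Or.inl ⟨i, ⟨?_, ?_, ?_, ?_⟩, ?_, ?_, ?_⟩
      · rw [(hi v).1]; linarith
      · rw [(hi v).1]; linarith [hv.1]
      · rw [(hi v).2]; exact hv.2.2.1
      · rw [(hi v).2]; linarith [hv.2.2.2]
      · rw [(hi u).1, hX, neg_zero]
      · rw [(hi u).2]; exact hY0'
      · rw [(hi u).2]; linarith
    · obtain ⟨v', ⟨hv', -⟩, hv''⟩ := (C.Q (l + 1)).meet_Sig hd (by norm_num : (0 : ℝ) < 1 / 2) le_rfl
        (v := u) ⟨hX, hY0, by linarith⟩ (ball_mem_nhds u hε)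
      filter_upwards [ball_mem_nhds u hε] with v hv hx
      refine Or.inr fun B hB hBJ hWB hvB => h v v' hv hv'' hx hv'.1 B hB hBJ ⟨hvB, hWB ?_⟩
      exact fun hw => disjoint_left.1 hT hw (mem_iUnion.2 ⟨l + 1, Or.inl hv'⟩)
  filter_upwards [hnear, hneg] with v hv hn
  rcases lt_trichotomy ((C.Q (l + 1)).X v) 0 with h | h | h
  · exact Or.inr (hn h)
  · exact Or.inl (mem_iUnion.2 ⟨l, Or.inr ⟨h, hv.2.2.1.le, hv.2.2.2.le⟩⟩)
  · exact Or.inr (Or.inl ⟨l + 1, ⟨h, hv.2.1, hv.2.2.1, by linarith [hv.2.2.2]⟩, hX, hY0',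
      by linarith⟩)

theorem pc3_loc {m : ℕ} {d0 : ℝ} (hd : 0 < d0)
    (h1 : ∀ i j, Disjoint (C.Q i).Gam ((C.Q j).T d0)) {W : Set ℂ} (hT : Disjoint W (C.Tube d0))
    (hJ : C.J m ⊆ W) (hW : IsPreconnected Wᶜ) : ∃ S1 : ℝ, ∀ l, ∀ s ≥ S1,
      ∀ᶠ v in 𝓝 ((C.Q l).γ s), v ∈ W ∨ ∃ i, v ∈ (C.Q i).T d0 ∧ (C.Q i).X ((C.Q l).γ s) = 0 ∧
        0 < (C.Q i).Y ((C.Q l).γ s) ∧ (C.Q i).Y ((C.Q l).γ s) < 1 / 2 := by
  obtain ⟨S0, hS0⟩ := C.pc3_far m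
  refine ⟨S0 + 1, fun l s hs => ?_⟩
  have hJW : Disjoint Wᶜ (C.J m) := disjoint_left.2 fun w hw hj => hw (hJ hj)
  have hc : IsCompact (Icc (s - 1) s ∩ (C.Q l).γ ⁻¹' C.J m) :=
    isCompact_Icc.inter_right ((C.J_compact m).isClosed.preimage (C.Q l).γ_cont)
  have hsm : C.sm m l ≤ s := (hS0 l s (by linarith)).1
  have hne : (Icc (s - 1) s ∩ (C.Q l).γ ⁻¹' C.J m).Nonempty := by
    refine ⟨C.sm m l + ⌊s - C.sm m l⌋₊, ⟨?_, ?_⟩,
      mem_iUnion.2 ⟨l, Or.inr (C.on_Sig m l _)⟩⟩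
    · linarith [Nat.lt_floor_add_one (s - C.sm m l)]
    · linarith [Nat.floor_le (sub_nonneg.2 hsm)]
  obtain ⟨s', ⟨⟨h2, h3⟩, h4⟩, h5⟩ := hc.exists_isGreatest hne
  have tri := C.pc3_tri hd hT h4 ((C.Q l).γ_not_per s') (hS0 l s' (by linarith)).2
  rcases eq_or_lt_of_le h3 with rfl | hlt
  · filter_upwards [tri] with v hv
    rcases hv with h | h | h
    · exact Or.inl (hJ h)
    · exact Or.inr h
    · exact Or.inl (by_contra fun hw => h _ hW hJW Subset.rfl hw)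
  · have off : ∀ s'' ∈ Ioc s' s, (C.Q l).γ s'' ∉ C.J m := fun s'' h hj =>
      absurd (h5 ⟨⟨by linarith [h.1], h.2⟩, hj⟩) (not_le.2 h.1)
    obtain ⟨r, hr, hb⟩ := Metric.isOpen_iff.1 (C.J_compact m).isClosed.isOpen_compl _
      (off s ⟨hlt, le_rfl⟩)
    have h6 : ∀ᶠ s'' in 𝓝[>] s', s'' ∈ Ioc s' s := Ioc_mem_nhdsGT hlt
    obtain ⟨s'', h7, h8⟩ :=
      (h6.and (((C.Q l).γ_cont.continuousAt.eventually tri).filter_mono nhdsWithin_le_nhds)).exists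
    filter_upwards [ball_mem_nhds _ hr] with v hv
    refine Or.inl (by_contra fun hw => ?_)
    rcases h8 with h | ⟨i, h, -⟩ | h
    · exact off s'' h7 h
    · exact disjoint_left.1 (h1 l i) ⟨s'', rfl⟩ h
    · refine h (Wᶜ ∪ ball ((C.Q l).γ s) r ∪ (C.Q l).γ '' Ioc s' s) ?_ ?_
        (subset_union_left.trans subset_union_left) (Or.inr ⟨s'', h7, rfl⟩)
      · refine IsPreconnected.union ((C.Q l).γ s) (Or.inr (mem_ball_self hr))
          ⟨s, ⟨hlt, le_rfl⟩, rfl⟩ ?_ (isPreconnected_Ioc.image _ (C.Q l).γ_cont.continuousOn)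
        exact IsPreconnected.union v hw hv hW (convex_ball _ _).isPreconnected
      · refine disjoint_union_left.2 ⟨disjoint_union_left.2 ⟨hJW, ?_⟩, ?_⟩
        · exact disjoint_left.2 fun w h => hb h
        · exact disjoint_left.2 (by rintro _ ⟨a, ha, rfl⟩; exact off a ha)

theorem pc3 {m : ℕ} {d0 : ℝ} (hd : 0 < d0)
    (h1 : ∀ i j, Disjoint (C.Q i).Gam ((C.Q j).T d0)) {W : Set ℂ} (hT : Disjoint W (C.Tube d0))
    (hJ : C.J m ⊆ W) (hW : IsPreconnected Wᶜ) : ∃ S ≥ (0 : ℝ), ∃ r > 0, ∀ l, ∀ s ∈ Icc S (S + 1),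
      ∀ v, dist v ((C.Q l).γ s) < r →
        v ∈ W ∨ ∃ i, v ∈ (C.Q i).T d0 ∧ (C.Q i).X ((C.Q l).γ s) ≤ 0 := by
  obtain ⟨S1, hS1⟩ := C.pc3_loc hd h1 hT hJ hW
  refine ⟨max S1 0, le_max_right _ _, ?_⟩
  refine C.unif (fun l r => ∀ s ∈ Icc (max S1 0) (max S1 0 + 1), ∀ v, dist v ((C.Q l).γ s) < r →
    v ∈ W ∨ ∃ i, v ∈ (C.Q i).T d0 ∧ (C.Q i).X ((C.Q l).γ s) ≤ 0) ?_ ?_ fun l => ?_
  · intro i d h
    rwa [(C.Q_mod i).1] at h
  · intro i d d' _ hd' h s hs v hv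
    exact h s hs v (hv.trans_le hd')
  have loc : ∀ s0 ∈ Icc (max S1 0) (max S1 0 + 1), ∃ ρ > 0, ∀ v ∈ ball ((C.Q l).γ s0) ρ,
      ∀ b ∈ ball ((C.Q l).γ s0) ρ, b ∈ (C.Q l).Gam →
        v ∈ W ∨ ∃ i, v ∈ (C.Q i).T d0 ∧ (C.Q i).X b ≤ 0 := by
    intro s0 hs0
    have e1 := hS1 l s0 ((le_max_left _ _).trans hs0.1)
    have e2 : ∀ᶠ b in 𝓝 ((C.Q l).γ s0), ∀ i ∈ Finset.range C.k,
        (C.Q i).X ((C.Q l).γ s0) = 0 → 0 < (C.Q i).Y ((C.Q l).γ s0) →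
        (C.Q i).Y ((C.Q l).γ s0) < 1 / 2 →
        (C.Q i).X b < d0 ∧ 0 < (C.Q i).Y b ∧ (C.Q i).Y b < 1 / 2 := by
      refine (Finset.range C.k).eventually_all.2 fun i _ => ?_
      by_cases h : (C.Q i).X ((C.Q l).γ s0) = 0 ∧ 0 < (C.Q i).Y ((C.Q l).γ s0) ∧
        (C.Q i).Y ((C.Q l).γ s0) < 1 / 2
      · have cX := (C.Q i).cX.continuousAt (x := (C.Q l).γ s0)
        have cY := (C.Q i).cY.continuousAt (x := (C.Q l).γ s0)
        filter_upwards [cX.eventually (gt_mem_nhds (h.1.trans_lt hd)),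
          cY.eventually (lt_mem_nhds h.2.1), cY.eventually (gt_mem_nhds h.2.2)] with b a1 a2 a3
        exact fun _ _ _ => ⟨a1, a2, a3⟩
      · exact Eventually.of_forall fun b a1 a2 a3 => absurd ⟨a1, a2, a3⟩ h
    obtain ⟨ρ, hρ, h⟩ := Metric.eventually_nhds_iff_ball.1 (e1.and e2)
    refine ⟨ρ, hρ, fun v hv b hb hg => ?_⟩
    rcases (h v hv).1 with hw | ⟨i, a0, a1, a2, a3⟩
    · exact Or.inl hw
    refine Or.inr ⟨i, a0, not_lt.1 fun hx => ?_⟩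
    have := (h b hb).2 (i % C.k) (Finset.mem_range.2 (Nat.mod_lt _ C.k_pos))
    rw [(C.Q_mod i).1] at this
    exact disjoint_left.1 (h1 l i) hg ⟨hx, this a1 a2 a3⟩
  choose! ρ hρ using loc
  obtain ⟨δ, hδ, h⟩ := lebesgue_number_lemma_of_metric
    (isCompact_Icc.image (C.Q l).γ_cont (s := Icc (max S1 0) (max S1 0 + 1)))
    (c := fun s0 : Icc (max S1 0) (max S1 0 + 1) => ball ((C.Q l).γ s0) (ρ s0))
    (fun _ => isOpen_ball) (by
      rintro _ ⟨s, hs, rfl⟩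
      exact mem_iUnion.2 ⟨⟨s, hs⟩, mem_ball_self (hρ s hs).1⟩)
  refine ⟨δ, hδ, fun s hs v hv => ?_⟩
  obtain ⟨s0, h0⟩ := h _ ⟨s, hs, rfl⟩
  exact (hρ s0 s0.2).2 v (h0 hv) _ (h0 (mem_ball_self hδ)) ⟨s, rfl⟩

end Cyc

end Pool.Agent.Lib.MP_3fe454_an.S2
end

-- part Pool.Agent.Lib.MP_3fe454_an.S2.PC4
section

/-!
No periodic point and no deep backward orbit in the strips of a cycle.
-/

set_option autoImplicit false

open Set Metric Filter Topology Function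

namespace Pool.Agent.Lib.MP_3fe454_an.S2

open PD

theorem pc4_lip (F : Dis) (M N : ℕ) : ∃ L > 0, ∀ i ≤ N, ∀ w ∈ Disc, ∀ w' ∈ Disc,
    ‖F.f^[M * i] w - F.f^[M * i] w'‖ ≤ L * ‖w - w'‖ := by
  choose L hL h using fun i => lip_iter F (M * i)
  refine ⟨∑ i ∈ Finset.range (N + 1), L i,
    Finset.sum_pos (fun i _ => hL i) Finset.nonempty_range_add_one, fun i hi w hw w' hw' => ?_⟩
  refine (h i w hw w' hw').trans (mul_le_mul_of_nonneg_right ?_ (norm_nonneg _))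
  exact Finset.single_le_sum (fun i _ => (hL i).le) (Finset.mem_range.2 (Nat.lt_succ_of_le hi))

theorem pc4_pow {a c e : ℝ} (h0 : 0 ≤ a) (h1 : a < 1) (he : 0 < e) :
    ∀ᶠ n : ℕ in atTop, c * a ^ n ≤ e := by
  have h := (tendsto_pow_atTop_nhds_zero_of_lt_one h0 h1).const_mul c
  rw [mul_zero] at h
  exact h.eventually (eventually_le_nhds he)

theorem Quad.exit_close {F : Dis} (Q : Quad F) {S η : ℝ} (hS : 0 ≤ S) (hη : 0 < η) (K : ℝ) :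
    ∃ δ > 0, ∀ u, 0 < Q.X u → Q.X u ≤ 1 → 0 ≤ Q.Y u → Q.Y u ≤ 1 / 2 → Q.dd u ≤ δ →
      ∃ n ≥ 1, ∃ s ∈ Icc S (S + 1), K * ‖F.f^[Q.M * n] u - Q.γ s‖ ≤ Q.dd u ∧
        ∀ i ≤ n, infDist (F.f^[Q.M * i] u) (Q.Sig (1 / 2) ∪ Q.Gc (S + 1)) ≤ η := by
  obtain ⟨C, hC, h1⟩ := Q.dist_base
  obtain ⟨L, hL, h2⟩ := pc4_lip F Q.M ⌈S + 1⌉₊
  obtain ⟨d1, hd1, h3⟩ := Q.dd_low
  obtain ⟨x, hx, h4⟩ := Q.near_axes hη
  have hs : 0 < Q.sig := zero_lt_one.trans_le Q.one_le_sig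
  obtain ⟨n1, h5⟩ := eventually_atTop.1
    ((pc4_pow (c := |K| * (L * C)) (mul_pos Q.lam_pos hs).le Q.mul_lt hd1).and
      ((pc4_pow (c := L * C) Q.lam_pos.le Q.lam_lt hη).and (eventually_ge_atTop 1)))
  obtain ⟨δ, hδ, h6⟩ := Q.dd_small (lt_min hx (Q.χ_pos (-n1)))
  refine ⟨δ, hδ, fun u u1 u2 u3 u4 u5 => ?_⟩
  have uY : |Q.Y u| ≤ 1 := by rw [abs_of_nonneg u3]; linarith
  have uS : u ∈ Q.S := ⟨by rw [abs_of_pos u1]; exact u2, uY⟩
  have h7 := h6 u uS u5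
  rw [abs_of_pos u1, lt_min_iff] at h7
  have t0 := (Q.dep_spec u1 u2).2
  have h8 : (n1 : ℝ) ≤ Q.dep (Q.X u) := (Q.le_dep_iff u1 u2).2 h7.2.le
  have h9 := h3 u u1 u2 uY
  have h10 := h4 u u1 h7.1.le u3 u4
  have t1 := Nat.floor_le t0
  have t2 := Nat.lt_floor_add_one (Q.dep (Q.X u))
  obtain ⟨k1, k2, k3⟩ := h5 _ (Nat.le_floor h8)
  obtain ⟨-, r1, r2, -⟩ := Q.run u1 u2 uY t1
  generalize ⌊Q.dep (Q.X u)⌋₊ = n0 at *
  generalize Q.dep (Q.X u) = τ at *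
  have c1 : ‖F.f^[Q.M * n0] u - Q.γ (n0 - τ)‖ ≤ C * Q.lam ^ n0 := by
    rw [Q.γ_loc (by linarith), ← r1]
    refine (h1 _).trans (mul_le_mul_of_nonneg_left (r2.trans ?_) hC.le)
    exact mul_le_of_le_one_right (pow_pos Q.lam_pos _).le uY
  have c2 : ∀ i ≤ ⌈S + 1⌉₊,
      ‖F.f^[Q.M * (n0 + i)] u - Q.γ (n0 - τ + i)‖ ≤ L * C * Q.lam ^ n0 := fun i hi => by
    rw [← Q.γ_iter, add_comm n0 i, mul_add, iterate_add_apply, mul_assoc]
    exact (h2 i hi _ (F.iter_mem_Disc (ball_subset_closedBall (Q.S_sub uS)) _) _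
      (Q.gam_Disc _)).trans (mul_le_mul_of_nonneg_left c1 hL.le)
  have j1 := Nat.le_ceil (S + τ - n0)
  have j2 := Nat.ceil_lt_add_one (a := S + τ - n0) (by linarith)
  have j3 : ⌈S + τ - n0⌉₊ ≤ ⌈S + 1⌉₊ := Nat.ceil_mono (by linarith)
  generalize ⌈S + τ - n0⌉₊ = j at *
  refine ⟨n0 + j, k3.trans (Nat.le_add_right _ _), n0 - τ + j, ⟨by linarith, by linarith⟩, ?_,
    fun i hi => ?_⟩
  · refine le_of_mul_le_mul_left (le_trans ?_ (k1.trans h9)) (pow_pos hs n0)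
    have := mul_le_mul (le_abs_self K) (c2 j j3) (norm_nonneg _) (abs_nonneg K)
    calc _ ≤ Q.sig ^ n0 * (|K| * (L * C * Q.lam ^ n0)) :=
          mul_le_mul_of_nonneg_left this (pow_pos hs n0).le
      _ = _ := by rw [mul_pow]; ring
  · rcases le_total i n0 with le | le
    · refine (infDist_le_infDist_of_subset (union_subset_union_right _ (Q.Gc_mono (by linarith)))
        ⟨Q.p, Or.inr (mem_insert _ _)⟩).trans (h10 i ((Nat.cast_le.2 le).trans t1))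
    · obtain ⟨i, rfl⟩ := Nat.exists_eq_add_of_le le
      have hi' : i ≤ j := by omega
      have hi'' : (i : ℝ) ≤ j := Nat.cast_le.2 hi'
      refine (infDist_le_dist_of_mem (y := Q.γ (n0 - τ + i))
        (Or.inr (mem_insert_of_mem _ (mem_image_of_mem _ (mem_Iic.2 (by linarith)))))).trans ?_
      rw [dist_eq_norm]
      exact (c2 i (hi'.trans j3)).trans k2

namespace Cyc

variable {F : Dis} (C : Cyc F)

theorem pc4_unif (P : Quad F → ℝ → Prop) (hm : ∀ Q d d', 0 < d' → d' ≤ d → P Q d → P Q d')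
    (h : ∀ i, ∃ d > 0, P (C.Q i) d) : ∃ d > 0, ∀ i, P (C.Q i) d :=
  C.unif (fun i d => P (C.Q i) d) (fun i _ k => (C.Q_mod i).1 ▸ k) (fun _ => hm _) h

theorem pcD : ∃ d0 > 0, d0 ≤ 1 ∧ ∃ (W : Set ℂ) (S : ℝ), MapsTo F.f^[C.M] W W ∧
    (∀ j, Disjoint W ((C.Q j).T d0)) ∧
    (∀ i j, Disjoint ((C.Q j).T d0) ((C.Q i).Sig (1 / 2) ∪ (C.Q i).Gc S)) ∧
    ∀ η > 0, ∃ δ > 0, ∀ j, ∀ u ∈ (C.Q j).T d0, (C.Q j).dd u ≤ δ → ∃ n ≥ 1,
      (∀ i ≤ n, infDist (F.f^[C.M * i] u) ((C.Q j).Sig (1 / 2) ∪ (C.Q j).Gc S) ≤ η) ∧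
      (F.f^[C.M * n] u ∈ W ∨ ∃ i, F.f^[C.M * n] u ∈ (C.Q i).T d0 ∧
        (C.Q i).dd (F.f^[C.M * n] u) ≤ (C.Q j).dd u / 2) := by
  obtain ⟨y0, m, hG⟩ := C.exists_good
  obtain ⟨d1, hd1, h1⟩ := C.pc1
  obtain ⟨d2, hd2, W, w1, w2, w3, w4⟩ := C.pc2 (hG m le_rfl)
  obtain ⟨d3, hd3, h3⟩ := C.pc4_unif (fun Q d => ∀ j, Disjoint ((C.Q j).T d) (Q.Sig (1 / 2)))
    (fun Q d d' _ le k j => (k j).mono_left ((C.Q j).T_mono le)) fun i =>
      C.pc4_unif (fun Q d => Disjoint (Q.T d) ((C.Q i).Sig (1 / 2)))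
        (fun Q d d' _ le k => k.mono_left (Q.T_mono le)) fun j => Quad.T_off_Sig _ _ (C.compat j i)
  obtain ⟨d0, hd0, e1, e2, e3, e4⟩ : ∃ d0 > 0, d0 ≤ d1 ∧ d0 ≤ d2 ∧ d0 ≤ d3 ∧ d0 ≤ 1 :=
    ⟨min (min d1 d2) (min d3 1), lt_min (lt_min hd1 hd2) (lt_min hd3 one_pos),
      (min_le_left _ _).trans (min_le_left _ _), (min_le_left _ _).trans (min_le_right _ _),
      (min_le_right _ _).trans (min_le_left _ _), (min_le_right _ _).trans (min_le_right _ _)⟩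
  have g1 : ∀ i j, Disjoint (C.Q i).Gam ((C.Q j).T d0) := fun i j =>
    (h1 i j).mono_right ((C.Q j).T_mono e1)
  have g2 : Disjoint W (C.Tube d0) := w2.mono_right (C.tube_mono e2)
  obtain ⟨S, hS, r, hr, h4⟩ := C.pc3 hd0 g1 g2 w3 w4
  obtain ⟨c, hc, h5⟩ := C.pc4_unif
    (fun Q c => ∀ u b, 0 ≤ Q.X u → Q.X b ≤ 0 → c * Q.dd u ≤ ‖u - b‖)
    (fun Q d d' _ le k u b k1 k2 =>
      (mul_le_mul_of_nonneg_right le (Q.dd_nonneg u)).trans (k u b k1 k2)) fun i => by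
      obtain ⟨c, hc, k⟩ := (C.Q i).dd_le
      exact ⟨c⁻¹, inv_pos.2 hc, fun u b k1 k2 => (inv_mul_le_iff₀ hc).2 (k u b k1 k2)⟩
  refine ⟨d0, hd0, e4, W, S + 1, w1, fun j => g2.mono_right fun u hu => mem_iUnion.2 ⟨j, Or.inl hu⟩,
    fun i j => ?_, fun η hη => ?_⟩
  · have g3 := (h3 i j).mono_left ((C.Q j).T_mono e3)
    refine g3.union_right (disjoint_left.2 fun u hu k => ?_)
    rcases k with rfl | ⟨s, -, rfl⟩
    · exact disjoint_left.1 g3 hu ((C.Q i).p_mem_Sig (by norm_num))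
    · exact disjoint_left.1 (g1 i j) ⟨s, rfl⟩ hu
  · obtain ⟨δ, hδ, h6⟩ := C.pc4_unif (fun Q δ => ∀ u, 0 < Q.X u → Q.X u ≤ 1 → 0 ≤ Q.Y u →
      Q.Y u ≤ 1 / 2 → Q.dd u ≤ δ → ∃ n ≥ 1, ∃ s ∈ Icc S (S + 1),
        (1 + 2 / c) * ‖F.f^[Q.M * n] u - Q.γ s‖ ≤ Q.dd u ∧
          ∀ i ≤ n, infDist (F.f^[Q.M * i] u) (Q.Sig (1 / 2) ∪ Q.Gc (S + 1)) ≤ η)
      (fun Q d d' _ le k u k1 k2 k3 k4 k5 => k u k1 k2 k3 k4 (k5.trans le))
      fun i => (C.Q i).exit_close hS hη _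
    refine ⟨min δ (r / 2), lt_min hδ (half_pos hr), fun j u hu k => ?_⟩
    obtain ⟨n, hn, s, hs, k1, k2⟩ := h6 j u hu.1 (hu.2.1.le.trans e4) hu.2.2.1.le hu.2.2.2.le
      (k.trans (min_le_left _ _))
    rw [C.pow j] at k1 k2
    have k3 := k.trans (min_le_right _ _)
    have k4 := norm_nonneg (F.f^[C.M * n] u - (C.Q j).γ s)
    have k5 := mul_nonneg (div_pos two_pos hc).le k4
    refine ⟨n, hn, k2, (h4 j s hs _ (by rw [dist_eq_norm]; linarith)).imp_right ?_⟩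
    rintro ⟨i, k6, k7⟩
    refine ⟨i, k6, ?_⟩
    have k8 := mul_le_mul_of_nonneg_left (h5 i _ _ k6.1.le k7) (div_pos two_pos hc).le
    rw [← mul_assoc, div_mul_cancel₀ _ hc.ne'] at k8
    linarith

theorem pc4_small {δ d0 : ℝ} (hδ : 0 < δ) (h0 : 0 < d0) (h1 : d0 ≤ 1) :
    ∃ d > 0, ∀ i, ∀ u ∈ (C.Q i).T d, u ∈ (C.Q i).T d0 ∧ (C.Q i).dd u ≤ δ := by
  refine C.pc4_unif (fun Q d => ∀ u ∈ Q.T d, u ∈ Q.T d0 ∧ Q.dd u ≤ δ)
    (fun Q d d' _ le k u hu => k u (Q.T_mono le hu)) fun i => ?_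
  obtain ⟨x, hx, k⟩ := (C.Q i).X_small hδ
  refine ⟨min d0 x, lt_min h0 hx, fun u hu => ?_⟩
  have k1 := (C.Q i).T_mono (min_le_left _ _) hu
  refine ⟨k1, k u ((C.Q i).T_sub h1 k1) ?_⟩
  rw [abs_of_pos hu.1]
  exact hu.2.1.le.trans (min_le_right _ _)

theorem pc_fin : ∃ d0 > 0, ∀ j, ∀ w ∈ (C.Q j).T d0, w ∉ periodicPts F.f ∧
    ∃ d > 0, ∀ i, ∀ u ∈ (C.Q i).T d, ∀ n : ℕ, F.f^[C.M * n] u ≠ w := by
  obtain ⟨d0, hd0, h0, W, S, h1, h2, h3, h4⟩ := C.pcD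
  have hW : ∀ b, MapsTo F.f^[C.M * b] W W := fun b => by
    rw [iterate_mul]; exact h1.iterate b
  have ad : ∀ a b u, F.f^[C.M * (a + b)] u = F.f^[C.M * a] (F.f^[C.M * b] u) := fun a b u => by
    rw [mul_add, iterate_add_apply]
  have A : ∀ j, ∀ w ∈ (C.Q j).T d0, ∃ δ > 0, ∀ N i, ∀ u ∈ (C.Q i).T d0, (C.Q i).dd u ≤ δ →
      F.f^[C.M * N] u ≠ w := fun j w hw => by
    obtain ⟨η, hη, k⟩ := C.pc4_unif (fun Q η => η ≤ infDist w (Q.Sig (1 / 2) ∪ Q.Gc S))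
      (fun Q d d' _ le k => le.trans k) fun i =>
        ⟨_, ((((C.Q i).Sig_compact _).union ((C.Q i).Gc_compact S)).isClosed.notMem_iff_infDist_pos
          ⟨_, Or.inr (mem_insert _ _)⟩).1 (disjoint_left.1 (h3 i j) hw), le_rfl⟩
    obtain ⟨δ, hδ, k1⟩ := h4 (η / 2) (half_pos hη)
    refine ⟨δ, hδ, fun N => ?_⟩
    induction N using Nat.strong_induction_on with
    | _ N ih =>
      intro i u hu hd e
      obtain ⟨n, hn, k2, k3⟩ := k1 i u hu hd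
      rcases le_or_gt N n with le | lt
      · have := k2 N le
        rw [e] at this
        linarith [k i]
      · obtain ⟨N', rfl⟩ := Nat.exists_eq_add_of_le' lt.le
        rw [ad] at e
        rcases k3 with k3 | ⟨i', k3, k4⟩
        · exact disjoint_left.1 (h2 j) (e ▸ hW N' k3) hw
        · exact ih N' (by omega) i' _ k3 (by linarith [(C.Q i).dd_nonneg u]) e
  obtain ⟨δ1, hδ1, h5⟩ := h4 1 one_pos
  obtain ⟨d, hd, h6⟩ := C.pc4_small hδ1 hd0 h0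
  refine ⟨d, hd, fun j w hw => ?_⟩
  obtain ⟨w1, w2⟩ := h6 j w hw
  obtain ⟨δ, hδ, k⟩ := A j w w1
  refine ⟨fun hp => ?_, ?_⟩
  · obtain ⟨p, hp0, hp⟩ := hp
    have bk : ∀ a, ∃ b, F.f^[C.M * b] (F.f^[C.M * a] w) = w := fun a => by
      obtain ⟨q, rfl⟩ := Nat.exists_eq_add_of_le' hp0
      refine ⟨a * q, ?_⟩
      rw [← ad, show C.M * (a * q + a) = (q + Nat.succ 0) * (C.M * a) by
        rw [Nat.succ_eq_add_one]; ring]
      exact hp.mul_const _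
    have ds : ∀ N : ℕ, ∃ i a, F.f^[C.M * a] w ∈ (C.Q i).T d0 ∧
        (C.Q i).dd (F.f^[C.M * a] w) ≤ δ1 * (1 / 2) ^ N := fun N => by
      induction N with
      | zero => exact ⟨j, 0, w1, by simpa using w2⟩
      | succ N ih =>
        obtain ⟨i, a, k1, k2⟩ := ih
        obtain ⟨n, -, -, k3 | ⟨i', k3, k4⟩⟩ := h5 i _ k1 (k2.trans (mul_le_of_le_one_right hδ1.le
          (pow_le_one₀ (by norm_num) (by norm_num))))
        · obtain ⟨b, e⟩ := bk (n + a)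
          rw [ad n a] at e
          exact (disjoint_left.1 (h2 j) (e ▸ hW b k3) w1).elim
        · refine ⟨i', n + a, ad n a w ▸ k3, ?_⟩
          rw [ad, pow_succ]
          linarith
    obtain ⟨N, hN⟩ := (pc4_pow (a := 1 / 2) (c := δ1) (by norm_num) (by norm_num) hδ).exists
    obtain ⟨i, a, k1, k2⟩ := ds N
    obtain ⟨b, e⟩ := bk a
    exact k b i _ k1 (k2.trans hN) e
  · obtain ⟨d', hd', k1⟩ := C.pc4_small hδ hd0 h0
    exact ⟨d', hd', fun i u hu n => k n i u (k1 i u hu).1 (k1 i u hu).2⟩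

end Cyc

end Pool.Agent.Lib.MP_3fe454_an.S2
end
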