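import Pool.Agent.Lib.MP_3fe454_an.S2.Loc1
import Pool.Agent.Lib.MP_3fe454_an.S2.Pass2
import Pool.Agent.Lib.MP_3fe454_an.S2.PC4
import Pool.Agent.Lib.MP_3fe454_an.S2.OL5
import Pool.Agent.Lib.MP_3fe454_an.S2.Adm3

-- part Pool.Agent.Lib.MP_3fe454_an.S2.Chain2
section

/-!
Repeated quadrants give cycles, which contradict the source.
-/

set_option autoImplicit false

open Set Metric Filter Topology Function

namespace Pool.Agent.Lib.MP_3fe454_an.S2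

open PD

variable {F : Dis} {At : Atlas F}

/-- all quadrants can be raised to a common power -/
theorem exists_pw (N : ℕ) (hN : 0 < N) : ∃ pw : Quad F → Quad F, (∀ Q : Quad F, Q.M ∣ N →
    (pw Q).IsPow Q (N / Q.M) ∧ (pw Q).M = N) ∧ ∀ Q Q' : Quad F, Q.M ∣ N → Q'.M ∣ N → Q.LkD Q' →
      ∃ t, (pw Q).Link (pw Q') (N * t) := by
  have h : ∀ Q : Quad F, ∃ Q' : Quad F, Q.M ∣ N → Q'.IsPow Q (N / Q.M) := fun Q => by
    by_cases k : Q.M ∣ N
    · obtain ⟨Q', h⟩ := Q.exists_pow (Nat.div_pos (Nat.le_of_dvd hN k) Q.M_pos)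
      exact ⟨Q', fun _ => h⟩
    · exact ⟨Q, fun h => absurd h k⟩
  choose pw h using h
  refine ⟨pw, fun Q k => ⟨h Q k, (h Q k).1.trans (Nat.div_mul_cancel k)⟩, ?_⟩
  rintro Q Q' k k' ⟨n, h1, z, h2⟩
  obtain ⟨t, h3⟩ := h2.mul h1 k' hN
  exact ⟨t, z, h3.congr (h Q k).2.1 (h Q' k').2.1⟩

theorem exists_cyc (hp : HP F) (lab : ℕ → periodicPts F.f × Bool × Bool) (Q : ℕ → Quad F) {k : ℕ}
    (hk : 0 < k) (hQ : ∀ n ≤ k, At.IsQ (lab n).1 (lab n).2.1 (lab n).2.2 (Q n))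
    (hl : ∀ n < k, (Q n).LkD (Q (n + 1))) (h : lab 0 = lab k) :
    ∃ (C : Cyc F) (i0 : ℕ), i0 + C.k ≤ k ∧ lab i0 = lab (i0 + C.k) ∧
      ∀ l < C.k, ∃ κ, (C.Q l).IsPow (Q (i0 + l)) κ := by
  obtain ⟨i0, c, hc, -, hik, hlab, hinj⟩ := min_repeat lab hk h
  obtain ⟨pw, h1, h2⟩ := exists_pw (F := F) (∏ n ∈ Finset.range (k + 1), (Q n).M)
    (Finset.prod_pos fun n _ => (Q n).M_pos)
  generalize hN : ∏ n ∈ Finset.range (k + 1), (Q n).M = N at h1 h2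
  have hd : ∀ n ≤ k, (Q n).M ∣ N := fun n hn =>
    hN ▸ Finset.dvd_prod_of_mem _ (Finset.mem_range.2 (Nat.lt_succ_of_le hn))
  have hlt : ∀ l, i0 + l % c < k := fun l => by
    have := Nat.mod_lt l hc
    omega
  have hΨ : ∀ n ≤ k, (pw (Q n)).Ψ = (Q n).Ψ := fun n hn => (h1 _ (hd n hn)).1.2.1
  have hM : ∀ l, (pw (Q (i0 + l % c))).M = N := fun l => (h1 _ (hd _ (hlt l).le)).2
  have hnx : ∀ l, (Q (i0 + (l + 1) % c)).Ψ = (Q (i0 + l % c + 1)).Ψ := fun l => by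
    rw [← Nat.mod_add_mod]
    rcases (Nat.succ_le_of_lt (Nat.mod_lt l hc)).eq_or_lt with e | e
    · have e' : l % c + 1 = c := e
      have a := hQ i0 (by omega)
      rw [hlab] at a
      rw [add_assoc, e', Nat.mod_self]
      exact a.Ψ_eq (hQ _ hik)
    · rw [Nat.mod_eq_of_lt e, add_assoc]
  have hlk : ∀ l, ∃ (t : ℕ) (s : ℝ), s < 0 ∧ (pw (Q (i0 + l % c))).LinkAt
      (pw (Q (i0 + (l + 1) % c))) (N * t) ((pw (Q (i0 + l % c))).γ s) := fun l => by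
    obtain ⟨t, z, hz⟩ := h2 _ _ (hd _ (hlt l).le) (hd _ (hlt l)) (hl _ (hlt l))
    obtain ⟨s, hs, rfl⟩ := hz.param
    exact ⟨t, s, hs, hz.congr rfl (by rw [hΨ _ (hlt _).le, hΨ _ (hlt l), hnx])⟩
  choose t s hs hlk using hlk
  have hch : ∀ j m, Relation.ReflTransGen Quad.Lk (pw (Q (i0 + j % c)))
      (pw (Q (i0 + (j + m) % c))) := fun j m => by
    induction m with
    | zero => exact Relation.ReflTransGen.refl
    | succ m ih => exact ih.tail ⟨(hM _).trans (hM _).symm, _, _, hlk (j + m)⟩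
  refine ⟨⟨c, N, fun l => pw (Q (i0 + l % c)), fun l => t (l % c), fun l => s (l % c), hc,
    fun l => by rw [Nat.add_mod_right], fun l => by rw [Nat.add_mod_right],
    fun l => by rw [Nat.add_mod_right], hM, fun l => hs _, fun l => ?_, fun i j => ?_,
    fun i j e => ?_, fun i j e => ?_⟩, i0, hik, hlab, fun l hl => ?_⟩
  · have := hlk (l % c)
    rwa [Nat.mod_mod, Nat.mod_add_mod] at this
  · exact ((hQ _ (hlt i).le).compat (hQ _ (hlt j).le)).congr (hΨ _ (hlt i).le) (hΨ _ (hlt j).le)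
  · rw [hΨ _ (hlt i).le, hΨ _ (hlt j).le] at e
    obtain ⟨e1, e2, e3⟩ := (hQ _ (hlt i).le).label (hQ _ (hlt j).le) e
    exact hinj _ (Nat.mod_lt i hc) _ (Nat.mod_lt j hc) (Prod.ext e1 (Prod.ext e2 e3))
  · obtain ⟨c, rfl⟩ := Nat.exists_eq_add_of_lt hc
    have := hch j (i + c * j)
    rw [show j + (i + c * j) = i + (0 + c + 1) * j by ring, Nat.add_mul_mod_self_left] at this
    exact Quad.hs_main this e hp
  · rw [show i0 + l = i0 + l % c by rw [Nat.mod_eq_of_lt (show l < c from hl)]]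
    exact ⟨_, (h1 _ (hd _ (hlt l).le)).1⟩

theorem Cyc.src (C : Cyc F) (j : ℕ) {S : Set ℂ} (hS : Src F S) {ι : Type} (U : Ultrafilter ι)
    (u : ι → ℂ) (h1 : ∀ᶠ i in U, u i ∈ S) (h2 : ∀ d > 0, ∀ᶠ i in U, u i ∈ (C.Q j).T d) : False := by
  obtain ⟨d0, hd0, h⟩ := C.pc_fin
  obtain ⟨-, -, hS | ⟨y, hy, rfl⟩⟩ := hS
  · obtain ⟨i, a, b⟩ := (h1.and (h2 d0 hd0)).exists
    exact (h j _ b).1 (hS a)
  have hn : ∀ i, ∃ n : ℕ, u i ∈ range (fun n : ℕ => F.g^[n] y) → F.g^[n] y = u i := fun i => by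
    by_cases k : u i ∈ range fun n : ℕ => F.g^[n] y
    · exact k.imp fun n hn _ => hn
    · exact ⟨0, fun h => absurd h k⟩
  choose n hn using hn
  rcases ult_dich U (fun i => (n i : ℤ)) (Eventually.of_forall fun i => Int.natCast_nonneg _) with
    ⟨s, hs⟩ | hs
  · have e : ∀ᶠ i in U, u i = F.g^[s] y := by
      filter_upwards [h1, hs] with i a b
      rw [← hn i a, Int.natCast_inj.1 b]
    obtain ⟨i, a, b⟩ := (e.and (h2 1 one_pos)).exists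
    obtain ⟨i', a', b'⟩ := (e.and (h2 _ b.1)).exists
    rw [a', ← a] at b'
    exact lt_irrefl _ b'.2.1
  obtain ⟨r, -, hr⟩ := ult_res U (fun i => (n i : ℤ)) C.M_pos
  obtain ⟨i0, a0, b0, c0⟩ := (h1.and ((h2 d0 hd0).and hr)).exists
  obtain ⟨-, d, hd, h3⟩ := h j _ b0
  obtain ⟨i, a, b, c, e⟩ := (h1.and ((h2 d hd).and (hr.and (hs (n i0))))).exists
  obtain ⟨m, hm⟩ := Nat.exists_eq_add_of_le' (Int.ofNat_le.1 e)
  obtain ⟨m, rfl⟩ : C.M ∣ m := by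
    have := c.sub c0
    rw [hm] at this
    exact Int.natCast_dvd_natCast.1 (by simpa using this)
  refine h3 j _ b m ?_
  rw [← hn i a, ← hn i0 a0, hm, iterate_add_apply, F.iter_f_g (F.iter_g_mem_Λ hy _)]

theorem no_repeat (hp : HP F) {S Y : Set ℂ} {V : ℤ → Set ℂ} {ι : Type} {U : Ultrafilter ι}
    {o : ι → ℤ → ℂ} {β : ℤ → ι → ℤ} {L : ℕ} (h : At.Fam S Y V U o β) (hS : Src F S)
    (P : ℕ → Pass At U o L) {k : ℕ} (hk : 0 < k) (hn : ∀ n < k, (P n).Nx (P (n + 1)))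
    (hr : ∀ n ≤ k, (P n).InR β) : (P 0).lab ≠ (P k).lab := fun e => by
  obtain ⟨C, i0, hi, -, hC⟩ := exists_cyc hp (fun n => (P n).lab) (fun n => (P n).Q) hk
    (fun n _ => (P n).isq) (fun n hn' => (hn n hn').lkD) e
  obtain ⟨κ, hκ⟩ := hC 0 C.k_pos
  obtain ⟨K, hK⟩ := hr i0 (by omega)
  refine C.src 0 hS U (fun i => o i ((P i0).a i)) ?_ fun d hd => ?_
  · filter_upwards [hK, (P i0).seg.1 0, h.range K isOpen_univ (subset_univ _)] with i a b c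
    exact (c _ a.1 (by omega)).2.2
  · rw [(Quad.same hκ.2.1).2.2.2.1]
    exact (P i0).a_mem hd

end Pool.Agent.Lib.MP_3fe454_an.S2
end

-- part Pool.Agent.Lib.MP_3fe454_an.S2.Pass3
section

/-!
The previous pass.
-/

set_option autoImplicit false

open Set Metric Filter Topology Function

namespace Pool.Agent.Lib.MP_3fe454_an.S2

open PD

theorem pass3_fix (φ : ℝ ≃o ℝ) {ξ : ℝ} (hξ : φ ξ = ξ) (k : ℕ) : φ^[k] ξ = ξ :=
  iterate_fixed hξ k

theorem pass3_up (φ : ℝ ≃o ℝ) {ξ x c : ℝ} (hξ : φ ξ = ξ) (hx : ξ < x) (hc : ξ < c)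
    (ht : Tendsto (fun k : ℕ => φ.symm^[k] x) atTop (𝓝 ξ)) (h : φ c ≤ c) (k : ℕ) :
    ξ ≤ φ^[k] x ∧ φ^[k] x ≤ c := by
  have h1 : x ≤ c := by
    by_contra hn
    have h2 : ∀ j : ℕ, c ≤ φ.symm^[j] x := by
      intro j
      induction j with
      | zero => exact (not_le.1 hn).le
      | succ j ih =>
        rw [iterate_succ_apply', φ.le_symm_apply]
        exact h.trans ih
    exact absurd (ge_of_tendsto' ht h2) (not_le.2 hc)
  induction k with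
  | zero => exact ⟨hx.le, h1⟩
  | succ k ih =>
    rw [iterate_succ_apply']
    exact ⟨hξ ▸ φ.monotone ih.1, (φ.monotone ih.2).trans h⟩

theorem pass3_down (φ : ℝ ≃o ℝ) {ξ x c : ℝ} (hξ : φ ξ = ξ) (hx : x < ξ) (hc : c < ξ)
    (ht : Tendsto (fun k : ℕ => φ.symm^[k] x) atTop (𝓝 ξ)) (h : c ≤ φ c) (k : ℕ) :
    φ^[k] x ≤ ξ ∧ c ≤ φ^[k] x := by
  have h1 : c ≤ x := by
    by_contra hn
    have h2 : ∀ j : ℕ, φ.symm^[j] x ≤ c := by
      intro j
      induction j with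
      | zero => exact (not_le.1 hn).le
      | succ j ih =>
        rw [iterate_succ_apply', φ.symm_apply_le]
        exact ih.trans h
    exact absurd (le_of_tendsto' ht h2) (not_le.2 hc)
  induction k with
  | zero => exact ⟨hx.le, h1⟩
  | succ k ih =>
    rw [iterate_succ_apply']
    exact ⟨hξ ▸ φ.monotone ih.1, h.trans (φ.monotone ih.2)⟩

theorem pass3_side (φ : ℝ ≃o ℝ) {ξ x t : ℝ} {sh : Bool} (hξ : φ ξ = ξ)
    (hx : 0 < sg sh * (x - ξ)) (h0 : 0 < t)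
    (ht : Tendsto (fun k : ℕ => φ.symm^[k] x) atTop (𝓝 ξ))
    (h : sg sh * (φ (ξ + sg sh * t) - (ξ + sg sh * t)) ≤ 0) (k : ℕ) : |φ^[k] x - ξ| ≤ t := by
  cases sh
  · rw [mkq_f] at hx h
    obtain ⟨a, b⟩ := pass3_down φ (c := ξ + -1 * t) hξ (by linarith) (by linarith) ht
      (by linarith) k
    exact abs_le.2 ⟨by linarith, by linarith⟩
  · rw [mkq_t] at hx h
    obtain ⟨a, b⟩ := pass3_up φ (c := ξ + 1 * t) hξ (by linarith) (by linarith) ht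
      (by linarith) k
    exact abs_le.2 ⟨by linarith, by linarith⟩

theorem pass3_sign {x : ℝ} (h : x ≠ 0) : ∃ sh, 0 < sg sh * x := by
  rcases lt_or_gt_of_ne h with k | k
  · exact ⟨false, by rw [mkq_f]; linarith⟩
  · exact ⟨true, by rw [mkq_t]; linarith⟩

theorem pass3_ult {ι : Type} (U : Ultrafilter ι) (x : ι → ℝ) :
    (∀ᶠ i in U, x i = 0) ∨ ∃ sv, ∀ᶠ i in U, 0 < sg sv * x i := by
  have h : ∀ᶠ i in U, x i = 0 ∨ (0 < sg true * x i ∨ 0 < sg false * x i) := by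
    refine Eventually.of_forall fun i => ?_
    by_cases k : x i = 0
    · exact Or.inl k
    · obtain ⟨sh, k'⟩ := pass3_sign k
      cases sh
      · exact Or.inr (Or.inr k')
      · exact Or.inr (Or.inl k')
  rcases Ultrafilter.eventually_or.1 h with k | k
  · exact Or.inl k
  · rcases Ultrafilter.eventually_or.1 k with k | k
    · exact Or.inr ⟨true, k⟩
    · exact Or.inr ⟨false, k⟩

/-- a backward trivial point goes back to a periodic point along the power of that point -/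
theorem pass3_conv {F : Dis} {At : Atlas F} {y : ℂ} (hΛ : y ∈ F.Λ) (hy : At.TB y) {K : ℕ}
    (hK : 0 < K) : ∃ (q : periodicPts F.f) (N : ℕ), 0 < N ∧ K ∣ N ∧
      Tendsto (fun k : ℕ => F.g^[k * At.M q] y) atTop (𝓝 q) := by
  obtain ⟨N, hN, hd, p, hp, ht⟩ := (Atlas.TB.conv hΛ hy).mul hK
  refine ⟨⟨p, N, hN, hp⟩, N, hN, hd, ?_⟩
  exact conv_all_g F hN (At.M_pos ⟨p, N, hN, hp⟩) hp (At.fix ⟨p, N, hN, hp⟩) ht

theorem pass3_shift {F : Dis} {y p : ℂ} {M : ℕ}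
    (ht : Tendsto (fun k : ℕ => F.g^[k * M] y) atTop (𝓝 p)) (c : ℕ) :
    Tendsto (fun k : ℕ => F.g^[M * k] (F.g^[c * M] y)) atTop (𝓝 p) := by
  refine ((tendsto_add_atTop_iff_nat c).2 ht).congr fun k => ?_
  rw [← iterate_add_apply, add_mul, mul_comm k M]

theorem bs {F : Dis} {At : Atlas F} {ι : Type} {U : Ultrafilter ι} {o : ι → ℤ → ℂ} {L : ℕ}
    (ho : ∀ i, Orb F (o i)) (hL : 0 < L) (P : Pass At U o L) (hy : At.TB P.y) :
    (∃ q sh, (∃ Q, At.IsQ q sh true Q) ∧ ∃ n : ℕ, L * P.Q.M * At.M q ∣ n ∧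
      ∀ sv Q, At.IsQ q sh sv Q → 0 < Q.X (F.g^[n] P.y) ∧ Q.X (F.g^[n] P.y) < 1 ∧
        Q.Y (F.g^[n] P.y) = 0 ∧ ∀ᶠ i in U, Q.Y (o i (P.a i - n)) = 0) ∨
      ∃ P' : Pass At U o L, P'.Nx P := by
  have hΛ : P.y ∈ F.Λ := P.ly.mem ho
  obtain ⟨q, N, hN, hd, ht⟩ := pass3_conv hΛ hy (Nat.mul_pos hL P.Q.M_pos)
  -- a far backward iterate whose backward orbit stays in a given neighbourhood of q
  have key : ∀ O ∈ 𝓝 (q : ℂ), ∃ n : ℕ, L * P.Q.M * At.M q ∣ n ∧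
      (∀ k : ℕ, F.g^[At.M q * k] (F.g^[n] P.y) ∈ O) ∧
      Tendsto (fun k : ℕ => F.g^[At.M q * k] (F.g^[n] P.y)) atTop (𝓝 q) := by
    intro O hO
    obtain ⟨k0, hk⟩ := eventually_atTop.1 (ht hO)
    refine ⟨N * k0 * At.M q, Nat.mul_dvd_mul (hd.mul_right _) dvd_rfl, fun k => ?_,
      pass3_shift ht _⟩
    have h1 : k0 ≤ k + N * k0 := (Nat.le_mul_of_pos_left k0 hN).trans (Nat.le_add_left _ _)
    have h2 := hk _ h1
    rw [← iterate_add_apply, show At.M q * k + N * k0 * At.M q = (k + N * k0) * At.M q by ring]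
    exact h2
  have hnp : ∀ n : ℕ, F.g^[n] P.y ∉ periodicPts F.f := fun n h =>
    P.y_not_per (F.iter_f_g hΛ n ▸ (per_iter F h n).1)
  rcases hq : At.L q with T | B
  · exfalso
    have e0 : T.q = q := by
      have := At.ok q
      rw [hq] at this
      exact this
    have e1 : At.M q = T.M := by
      unfold Atlas.M
      rw [hq]
      rfl
    have e2 : At.Sc q = {w | T.N (w - T.q) ≤ T.r} := by
      unfold Atlas.Sc
      rw [hq]
      rfl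
    obtain ⟨n, -, h1, -⟩ := key _ (At.Sc_nhds q)
    rw [e1, e2] at h1
    refine hnp n ?_
    rw [T.back (F.iter_g_mem_Λ hΛ n) h1, e0]
    exact q.2
  obtain ⟨hB, -, hξ, hYq, hG⟩ := Atlas.mkq_ok hq
  have e1 : At.M q = B.M := by
    unfold Atlas.M
    rw [hq]
    rfl
  have e2 : At.Sc q = {w | |B.X w - B.X q| ≤ 1 / 2 ∧ |B.Y w| ≤ 1 / 2} := by
    unfold Atlas.Sc
    rw [hq]
    rfl
  have hO : {w | |B.X w - B.X q| < 1 / 2 ∧ |B.Y w| < 1 / 2} ∈ 𝓝 (q : ℂ) := by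
    refine IsOpen.mem_nhds ?_ ⟨by simp, by rw [hYq]; simp⟩
    exact (isOpen_lt (B.cX.sub continuous_const).abs continuous_const).inter
      (isOpen_lt B.cY.abs continuous_const)
  obtain ⟨n, hn, h1, h2⟩ := key _ hO
  rw [e1] at h1 h2
  have hw : Lim U o (fun i => P.a i - n) (F.g^[n] P.y) := P.ly.sub ho n
  have hfn : F.f^[n] (F.g^[n] P.y) = P.y := F.iter_f_g hΛ n
  have hwp := hnp n
  have hwΛ := F.iter_g_mem_Λ hΛ n
  obtain ⟨w, ew⟩ : ∃ w, F.g^[n] P.y = w := ⟨_, rfl⟩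
  rw [ew] at h1 h2 hw hfn hwp hwΛ
  have hS : ∀ u, |B.X u - B.X q| ≤ 1 / 2 → |B.Y u| ≤ 1 / 2 → u ∈ B.S := fun u a b =>
    ⟨(Atlas.att_box hξ ⟨a, b⟩).1.le, (Atlas.att_box hξ ⟨a, b⟩).2.le⟩
  obtain ⟨hY, hb⟩ := hB.back hwΛ fun k => hS _ (h1 k).1.le (h1 k).2.le
  have hφ : B.φ (B.X q) = B.X q := by rw [← B.X_Gt, hG]
  have hlev : Tendsto (fun k : ℕ => B.φ.symm^[k] (B.X w)) atTop (𝓝 (B.X q)) := by
    refine ((B.cX.tendsto _).comp h2).congr fun k => ?_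
    simp only [comp]
    rw [hb, B.X_symm_iter]
  have hne : B.X w - B.X q ≠ 0 := fun h =>
    hwp (by rw [B.ext_XY (sub_eq_zero.1 h) (hY.trans hYq.symm)]; exact q.2)
  obtain ⟨sh, hsh⟩ := pass3_sign hne
  have hw0 : |B.X w - B.X q| < 1 / 2 ∧ |B.Y w| < 1 / 2 := by simpa using h1 0
  have hgap : B.Gap (B.X q) sh := by
    intro t ht'
    by_contra hc
    have h3 := pass3_side B.φ hφ hsh ht'.1 hlev (not_lt.1 hc)
    refine At.no_full ho q hw P.lz hwp P.z_not_per (fun k => ?_) (fun k => ?_) fun m => ?_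
    · have h4 : |B.X (B.Gt^[k] w) - B.X q| ≤ 1 / 2 := by
        rw [B.X_iter]
        exact (h3 k).trans ht'.2
      have h5 : B.Y (B.Gt^[k] w) = 0 := (B.Y_iter_zero k w).2 hY
      have h6 : |B.Y (B.Gt^[k] w)| ≤ 1 / 2 := by rw [h5]; simp
      rw [e1, e2, (B.iter_ag (hS _ hw0.1.le hw0.2.le) (hS _ h4 h6).1 k le_rfl).1]
      exact ⟨h4, h6⟩
    · rw [e1, e2]
      exact ⟨(h1 k).1.le, (h1 k).2.le⟩
    · filter_upwards [P.seg.1 m] with i hi
      have : (0 : ℤ) ≤ n := Int.natCast_nonneg n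
      linarith
  have hex : ∀ sv, ∃ Q, At.IsQ q sh sv Q := fun sv => by
    obtain ⟨Q, hQ⟩ := B.exists_quad hB hξ hφ hgap sv
    exact ⟨Q, B, hq, hQ⟩
  have hco : ∀ sv Q, At.IsQ q sh sv Q → ∀ u, Q.X u = 2 * sg sh * (B.X u - B.X q) ∧
      Q.Y u = sg sv * B.Y u := by
    rintro sv Q ⟨B', h3, h4⟩ u
    obtain rfl : B = B' := Sum.inr.inj (hq.symm.trans h3)
    exact h4.2.2 u
  have hQw : ∀ sv Q, At.IsQ q sh sv Q → 0 < Q.X w ∧ Q.X w < 1 ∧ Q.Y w = 0 := by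
    intro sv Q hQ
    obtain ⟨a, b⟩ := hco sv Q hQ w
    have c := mkq_abs2 sh (B.X w - B.X q)
    have d := le_abs_self (2 * sg sh * (B.X w - B.X q))
    rw [a, b, hY]
    exact ⟨by linarith, by linarith [hw0.1], mul_zero _⟩
  rcases pass3_ult U (fun i => B.Y (o i (P.a i - n))) with h3 | ⟨sv, h3⟩
  · refine Or.inl ⟨q, sh, hex true, n, hn, fun sv Q hQ => ?_⟩
    obtain ⟨a, b, c⟩ := hQw sv Q hQ
    rw [ew]
    refine ⟨a, b, c, h3.mono fun i hi => ?_⟩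
    rw [(hco sv Q hQ _).2, hi, mul_zero]
  obtain ⟨Q, hQ⟩ := hex sv
  obtain ⟨a, b, c⟩ := hQw sv Q hQ
  have h4 : ∀ᶠ i in U, 0 < Q.Y (o i (P.a i - n)) := h3.mono fun i hi => by
    rw [(hco sv Q hQ _).2]
    exact hi
  have h5 : ∀ᶠ i in U, 0 < Q.X (o i (P.a i - n)) :=
    ((Q.cX.tendsto w).comp hw).eventually (lt_mem_nhds a)
  obtain ⟨a', y', b1, b2, b3, b4, b5, b6⟩ := pb ho hL hQ hw a.le b c (h5.and h4)
  refine Or.inr ⟨⟨q, sh, sv, Q, a', fun i => P.a i - n, y', w, hQ, b1, b2, ⟨b3, b4⟩, b5, hw,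
    ⟨a, b⟩, c, h4, b6⟩, n, ?_, Eventually.of_forall fun i => (sub_add_cancel _ _).symm,
    ⟨a, b, c, ?_, ?_, ?_, fun ε hε => ?_⟩, hfn.symm⟩
  · show L * Q.M * P.Q.M ∣ n
    rw [hQ.M, mul_right_comm]
    exact hn
  · show P.Q.X (F.f^[n] w) = 0
    rw [hfn]
    exact P.yX
  · show 0 < P.Q.Y (F.f^[n] w)
    rw [hfn]
    exact P.yY.1
  · show P.Q.Y (F.f^[n] w) < 1 / 2
    rw [hfn]
    exact P.yY.2
  · have h6 : ∀ᶠ i in U, dist (o i (P.a i - n)) w < ε := Metric.tendsto_nhds.1 hw ε hε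
    obtain ⟨i, c1, c2, c3⟩ := (h6.and (h4.and P.aX)).exists
    refine ⟨o i (P.a i - n), c1, c2, ?_⟩
    rw [← (ho i).add, sub_add_cancel]
    exact c3

end Pool.Agent.Lib.MP_3fe454_an.S2
end

-- part Pool.Agent.Lib.MP_3fe454_an.S2.Chain1
section

/-!
Chains of passes in a family.
-/

set_option autoImplicit false

open Set Metric Filter Topology Function

namespace Pool.Agent.Lib.MP_3fe454_an.S2

open PD

variable {F : Dis} {At : Atlas F} {S Y : Set ℂ} {V : ℤ → Set ℂ} {ι : Type} {U : Ultrafilter ι}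
  {o : ι → ℤ → ℂ} {β : ℤ → ι → ℤ} {L : ℕ}

theorem chain1_hi (h : At.Fam S Y V U o β) (P : Pass At U o L) {K : ℤ}
    (ha : ∀ᶠ i in U, P.a i ≤ β K i) : ∀ᶠ i in U, P.b i ≤ β (K + 1) i := by
  filter_upwards [h.exit K P.q, P.stay, ha] with i h1 h2 h3
  obtain ⟨t, t1, t2, t3, t4⟩ := h1 (P.a i)
  by_contra k
  exact t4 (h2 t (by omega) (by omega) t3)

theorem chain1_lo (h : At.Fam S Y V U o β) (P : Pass At U o L) {K : ℤ}
    (hb : ∀ᶠ i in U, β (K + 1) i ≤ P.b i) : ∀ᶠ i in U, β K i ≤ P.a i := by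
  filter_upwards [h.exit K P.q, P.stay, hb] with i h1 h2 h3
  obtain ⟨t, t1, t2, t3, t4⟩ := h1 (P.a i)
  by_contra k
  exact t4 (h2 t (by omega) (by omega) t3)

theorem chain1_inR (h : At.Fam S Y V U o β) (P : Pass At U o L) {K K' : ℤ}
    (ha : ∀ᶠ i in U, β K i ≤ P.a i) (hb : ∀ᶠ i in U, P.b i ≤ β K' i) : P.InR β := by
  refine ⟨K.natAbs + K'.natAbs, ?_⟩
  filter_upwards [ha, hb, h.mono (show -((K.natAbs + K'.natAbs : ℕ) : ℤ) ≤ K by omega),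
    h.mono (show K' ≤ ((K.natAbs + K'.natAbs : ℕ) : ℤ) by omega)] with i h1 h2 h3 h4
  exact ⟨h3.trans h1, h2.trans h4⟩

theorem chain1_le (P : Pass At U o L) : ∀ᶠ i in U, P.a i ≤ P.b i :=
  (P.seg.1 0).mono fun i h => by simpa using h

theorem chain1_gen {α : Type*} {G T : α → Prop} {R : α → α → Prop}
    (h : ∀ a, G a → T a → ∃ a', R a a' ∧ G a') {a0 : α} (h0 : G a0) :
    ∃ (P : ℕ → α) (k : ℕ∞), P 0 = a0 ∧ (∀ n : ℕ, (n : ℕ∞) < k → R (P n) (P (n + 1))) ∧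
      (∀ n : ℕ, (n : ℕ∞) ≤ k → G (P n)) ∧ ∀ n : ℕ, k = n → ¬ T (P n) := by
  classical
  have h1 : ∀ a, ∃ a', G a → G a' ∧ (T a → R a a') := fun a => by
    by_cases k : G a ∧ T a
    · obtain ⟨a', r, g⟩ := h a k.1 k.2
      exact ⟨a', fun _ => ⟨g, fun _ => r⟩⟩
    · exact ⟨a, fun g => ⟨g, fun t => absurd ⟨g, t⟩ k⟩⟩
  choose f hf using h1
  have h2 : ∀ n, G (f^[n] a0) := fun n => by
    induction n with
    | zero => exact h0
    | succ n ih =>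
      rw [iterate_succ_apply']
      exact (hf _ ih).1
  have h3 : ∀ n, T (f^[n] a0) → R (f^[n] a0) (f^[n + 1] a0) := fun n t => by
    rw [iterate_succ_apply']
    exact (hf _ (h2 n)).2 t
  by_cases k : ∃ n, ¬ T (f^[n] a0)
  · refine ⟨fun n => f^[n] a0, (Nat.find k : ℕ), rfl, fun n hn => h3 n ?_, fun n _ => h2 n,
      fun n hn => ?_⟩
    · exact not_not.1 (Nat.find_min k (by exact_mod_cast hn))
    · obtain rfl : Nat.find k = n := by exact_mod_cast hn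
      exact Nat.find_spec k
  · exact ⟨fun n => f^[n] a0, ⊤, rfl, fun n _ => h3 n (not_not.1 fun t => k ⟨n, t⟩),
      fun n _ => h2 n, fun n hn => absurd hn (ENat.top_ne_natCast n)⟩

theorem chain1_sub {k : ℕ∞} {n0 : ℕ} (hn : (n0 : ℕ∞) ≤ k) : ∃ k' : ℕ∞,
    (∀ n : ℕ, (n : ℕ∞) < k' → ((n0 + n : ℕ) : ℕ∞) < k) ∧
      (∀ n : ℕ, (n : ℕ∞) ≤ k' → ((n0 + n : ℕ) : ℕ∞) ≤ k) ∧
      ∀ n : ℕ, k' = n → k = (n0 + n : ℕ) := by
  induction k using ENat.recTopCoe with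
  | top =>
    exact ⟨⊤, fun n _ => ENat.natCast_lt_top _, fun n _ => le_top,
      fun n hn => absurd hn (ENat.top_ne_natCast n)⟩
  | coe m =>
    have h0 : n0 ≤ m := by exact_mod_cast hn
    refine ⟨(m - n0 : ℕ), fun n h => ?_, fun n h => ?_, fun n h => ?_⟩
    · have : n < m - n0 := by exact_mod_cast h
      exact_mod_cast (by omega : n0 + n < m)
    · have : n ≤ m - n0 := by exact_mod_cast h
      exact_mod_cast (by omega : n0 + n ≤ m)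
    · have : m - n0 = n := by exact_mod_cast h
      exact_mod_cast (by omega : m = n0 + n)

theorem Atlas.Fam.first (h : At.Fam S Y V U o β) (hL : 0 < L) {q : periodicPts F.f} {t : ι → ℤ}
    (ht : ∀ᶠ i in U, β 0 i ≤ t i ∧ t i ≤ β 1 i) (hw : Lim U o t q) :
    ∃ P : Pass At U o L, P.q = q ∧ P.InR β := by
  obtain ⟨P, hq, hP⟩ := ip (At := At) h.1 hL hw (h.exF (ht.mono fun i k => k.2))
    (h.exB (ht.mono fun i k => k.1))
  refine ⟨P, hq, chain1_inR h P (K := -1) ?_ (chain1_hi h P (K := 1) ?_)⟩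
  · filter_upwards [h.exit (-1) q, hP, ht] with i h1 h2 h3
    obtain ⟨s, s1, s2, s3, s4⟩ := h1 (P.a i)
    rw [show (-1 : ℤ) + 1 = 0 from rfl] at s2
    by_contra k
    exact s4 (h2.2 s (by omega) (by omega) s3)
  · filter_upwards [hP, ht] with i h2 h3
    exact h2.1.trans h3.2

theorem Atlas.Fam.next (h : At.Fam S Y V U o β) (hL : 0 < L) (P : Pass At U o L) (hP : P.InR β)
    (hz : At.TF P.z) : ∃ P' : Pass At U o L, P.Nx P' ∧ P'.InR β := by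
  obtain ⟨K, hK⟩ := hP
  have h1 : ∀ n : ℕ, ∀ᶠ i in U, P.b i + n ≤ β (K + 1) i := fun n => by
    filter_upwards [hK, h.2.1 K n] with i h1 h2
    omega
  obtain ⟨P', hn⟩ := fs h.1 hL P hz fun n => h.exF (h1 n)
  refine ⟨P', hn, ?_⟩
  obtain ⟨n, -, e, -⟩ := hn
  refine chain1_inR h P' (K := -K) ?_ (chain1_hi h P' (K := K + 1) ?_)
  · filter_upwards [hK, e, chain1_le P] with i h2 h3 h4
    omega
  · filter_upwards [h1 n, e] with i h2 h3
    omega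

theorem Atlas.Fam.prev (h : At.Fam S Y V U o β) (hL : 0 < L) (P : Pass At U o L) (hP : P.InR β)
    (hy : At.TB P.y) : ∃ P' : Pass At U o L, P'.Nx P ∧ P'.InR β := by
  obtain ⟨K, hK⟩ := hP
  have h1 : ∀ n : ℕ, ∀ᶠ i in U, β (-K - 1) i ≤ P.a i - n := fun n => by
    filter_upwards [hK, h.2.1 (-K - 1) n] with i h1 h2
    rw [sub_add_cancel] at h2
    omega
  rcases bs h.1 hL P hy with ⟨q, sh, ⟨Q, hQ⟩, n, -, k⟩ | ⟨P', hn⟩
  · obtain ⟨k1, k2, -, k3⟩ := k true Q hQ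
    have hl : Tendsto (fun i => Q.X (o i (P.a i - n))) U (𝓝 (Q.X (F.g^[n] P.y))) :=
      ((continuous_fst.comp Q.Ψ.continuous).tendsto _).comp (P.ly.sub h.1 n)
    refine (not_gap h.1 hQ (t := fun i => P.a i - n) ?_ (h.exB (h1 n))).elim
    filter_upwards [k3, hl.eventually (lt_mem_nhds k1), hl.eventually (gt_mem_nhds k2)]
      with i a1 a2 a3
    exact ⟨a2.le, a3.le, a1⟩
  · refine ⟨P', hn, ?_⟩
    obtain ⟨n, -, e, -⟩ := hn
    refine chain1_inR h P' (chain1_lo h P' (K := -K - 2) ?_) (K' := K) ?_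
    · filter_upwards [h1 n, e] with i h2 h3
      rw [show -(K : ℤ) - 2 + 1 = -K - 1 by ring]
      omega
    · filter_upwards [hK, e, chain1_le P] with i h2 h3 h4
      omega

theorem Atlas.Fam.chain_f (h : At.Fam S Y V U o β) (hL : 0 < L) (P0 : Pass At U o L)
    (hP : P0.InR β) : ∃ (P : ℕ → Pass At U o L) (k : ℕ∞), P 0 = P0 ∧ ChF β P k := by
  exact chain1_gen (G := fun P => P.InR β) (T := fun P => At.TF P.z) (R := fun P P' => P.Nx P')
    (fun P => h.next hL P) hP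

theorem Atlas.Fam.chain_b (h : At.Fam S Y V U o β) (hL : 0 < L) (P0 : Pass At U o L)
    (hP : P0.InR β) : ∃ (P : ℕ → Pass At U o L) (k : ℕ∞), P 0 = P0 ∧ ChB β P k := by
  exact chain1_gen (G := fun P => P.InR β) (T := fun P => At.TB P.y) (R := fun P P' => P'.Nx P)
    (fun P => h.prev hL P) hP

theorem ChF.shift {P : ℕ → Pass At U o L} {k : ℕ∞} (h : ChF β P k) {n0 : ℕ}
    (hn : (n0 : ℕ∞) ≤ k) : ∃ k' : ℕ∞, ChF β (fun n => P (n0 + n)) k' ∧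
      ∀ n : ℕ, (n : ℕ∞) ≤ k' → ((n0 + n : ℕ) : ℕ∞) ≤ k := by
  obtain ⟨k', h1, h2, h3⟩ := chain1_sub hn
  exact ⟨k', ⟨fun n a => h.1 _ (h1 n a), fun n a => h.2.1 _ (h2 n a), fun n a => h.2.2 _ (h3 n a)⟩,
    h2⟩

theorem ChB.shift {P : ℕ → Pass At U o L} {k : ℕ∞} (h : ChB β P k) {n0 : ℕ}
    (hn : (n0 : ℕ∞) ≤ k) : ∃ k' : ℕ∞, ChB β (fun n => P (n0 + n)) k' ∧
      ∀ n : ℕ, (n : ℕ∞) ≤ k' → ((n0 + n : ℕ) : ℕ∞) ≤ k := by
  obtain ⟨k', h1, h2, h3⟩ := chain1_sub hn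
  exact ⟨k', ⟨fun n a => h.1 _ (h1 n a), fun n a => h.2.1 _ (h2 n a), fun n a => h.2.2 _ (h3 n a)⟩,
    h2⟩

theorem last_at {P : ℕ → Pass At U o L} {k : ℕ∞}
    (h : ∀ n n' : ℕ, n < n' → (n' : ℕ∞) ≤ k → (P n).lab ≠ (P n').lab) :
    ∃ n0 : ℕ, (n0 : ℕ∞) ≤ k ∧ (P n0).q = (P 0).q ∧
      ∀ n : ℕ, n0 < n → (n : ℕ∞) ≤ k → (P n).q ≠ (P 0).q := by
  have hi : InjOn (fun n => ((P n).sh, (P n).sv)) {n : ℕ | (n : ℕ∞) ≤ k ∧ (P n).q = (P 0).q} := by
    intro n hn n' hn' e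
    have e' : (P n).lab = (P n').lab := Prod.ext (hn.2.trans hn'.2.symm) e
    rcases lt_trichotomy n n' with a | a | a
    · exact absurd e' (h n n' a hn'.1)
    · exact a
    · exact absurd e'.symm (h n' n a hn.1)
  obtain ⟨n0, h0, h1⟩ := exists_max_image _ id (Finite.of_finite_image (toFinite _) hi)
    ⟨0, by simp, rfl⟩
  exact ⟨n0, h0.1, h0.2, fun n a b e => absurd (h1 n ⟨b, e⟩) (not_le.2 a)⟩

end Pool.Agent.Lib.MP_3fe454_an.S2
end

-- part Pool.Agent.Lib.MP_3fe454_an.S2.Chain3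
section

/-!
Along a maximal chain the limits leave every exit set.
-/

set_option autoImplicit false

open Set Metric Filter Topology Function

namespace Pool.Agent.Lib.MP_3fe454_an.S2

open PD

variable {F : Dis} {At : Atlas F} {S Y : Set ℂ} {V : ℤ → Set ℂ} {ι : Type} {U : Ultrafilter ι}
  {o : ι → ℤ → ℂ} {β : ℤ → ι → ℤ} {L : ℕ}

theorem ChF.le {P : ℕ → Pass At U o L} {k : ℕ∞} (h : ChF β P k) {n n' : ℕ} (hn : n ≤ n')
    (hk : (n' : ℕ∞) ≤ k) : ∀ᶠ i in U, (P n).b i ≤ (P n').b i ∧ (L : ℤ) ∣ (P n').a i - (P n).a i := by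
  induction n', hn using Nat.le_induction with
  | base => exact Eventually.of_forall fun i => ⟨le_rfl, by rw [sub_self]; exact dvd_zero _⟩
  | succ m hm ih =>
    have h1 : (m : ℕ∞) < k := lt_of_lt_of_le (by exact_mod_cast Nat.lt_succ_self m) hk
    filter_upwards [ih h1.le, (h.1 m h1).dvd, (P (m + 1)).seg.1 0] with i a1 a2 a3
    refine ⟨by omega, ?_⟩
    rw [show (P (m + 1)).a i - (P n).a i =
      ((P (m + 1)).a i - (P m).a i) + ((P m).a i - (P n).a i) by ring]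
    exact dvd_add a2.1 a1.2

theorem ChB.le {P : ℕ → Pass At U o L} {k : ℕ∞} (h : ChB β P k) {n n' : ℕ} (hn : n ≤ n')
    (hk : (n' : ℕ∞) ≤ k) : ∀ᶠ i in U, (P n').a i ≤ (P n).a i ∧ (L : ℤ) ∣ (P n).a i - (P n').a i := by
  induction n', hn using Nat.le_induction with
  | base => exact Eventually.of_forall fun i => ⟨le_rfl, by rw [sub_self]; exact dvd_zero _⟩
  | succ m hm ih =>
    have h1 : (m : ℕ∞) < k := lt_of_lt_of_le (by exact_mod_cast Nat.lt_succ_self m) hk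
    filter_upwards [ih h1.le, (h.1 m h1).dvd, (P (m + 1)).seg.1 0] with i a1 a2 a3
    refine ⟨by omega, ?_⟩
    rw [show (P n).a i - (P (m + 1)).a i =
      ((P n).a i - (P m).a i) + ((P m).a i - (P (m + 1)).a i) by ring]
    exact dvd_add a1.2 a2.1

theorem ChF.win (h : At.Fam S Y V U o β) {P : ℕ → Pass At U o L} {k : ℕ∞} (hP : ChF β P k)
    (s0 : ℕ) : Win At U o β (RgF P k s0) := by
  have ho := h.1
  refine ⟨⟨fun i => (P 0).b i + s0, Eventually.of_forall fun i => le_rfl, 0, s0, zero_le,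
    Eventually.of_forall fun i => le_rfl⟩, ?_, ?_, Or.inl ⟨?_, ?_⟩⟩
  · rintro t ⟨h1, n, s, hn, h2⟩
    obtain ⟨K0, k0⟩ := hP.2.1 0 zero_le
    obtain ⟨K1, k1⟩ := hP.2.1 n hn
    refine ⟨K0 + K1 + 1, ?_⟩
    filter_upwards [h1, h2, k0, k1, (P 0).seg.1 0, h.2.1 K1 s,
      h.mono (K := -((K0 + K1 + 1 : ℕ) : ℤ)) (K' := -(K0 : ℤ)) (by omega),
      h.mono (K := (K1 : ℤ) + 1) (K' := ((K0 + K1 + 1 : ℕ) : ℤ)) (by omega)]
      with i a1 a2 a3 a4 a5 a6 a7 a8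
    exact ⟨by omega, by omega⟩
  · rintro t t' t'' ⟨h1, -⟩ ⟨-, n, s, hn, h2⟩ h3
    refine ⟨?_, n, s, hn, ?_⟩
    · filter_upwards [h1, h3] with i a1 a2
      omega
    · filter_upwards [h2, h3] with i a1 a2
      omega
  · rintro t ⟨h1, n, s, hn, h2⟩
    refine ⟨?_, n, s + 1, hn, ?_⟩
    · filter_upwards [h1] with i a1
      omega
    · filter_upwards [h2] with i a1
      omega
  rintro q j τ ⟨h1, n, s, hn, h2⟩
  by_contra hc
  have key : ∀ (t : ι → ℤ) (w : ℂ) (m r : ℕ), (m : ℕ∞) ≤ k →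
      (∀ᶠ i in U, τ i ≤ t i ∧ t i ≤ (P m).b i + r ∧ (At.M q : ℤ) ∣ t i - j) → Lim U o t w →
      w ∈ At.Sc q := by
    intro t w m r hm ht hw
    by_contra hw'
    refine hc ⟨t, w, ⟨?_, m, r, hm, ht.mono fun i a => a.2.1⟩, ht.mono fun i a => ⟨a.1, a.2.2⟩,
      hw, hw'⟩
    filter_upwards [h1, ht] with i a1 a2
    omega
  have hM := At.M_pos q
  by_cases hk : k = ⊤
  · have hlt : ∀ m : ℕ, (m : ℕ∞) < k := fun m => hk ▸ ENat.natCast_lt_top m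
    obtain ⟨r, -, hr⟩ := ult_res U (fun i => j - (P (n + 1)).b i) hM
    have hl := (P (n + 1)).lz.add ho r
    refine At.no_full ho q hl (P (n + 1 + 1)).lz (fun e => (P (n + 1)).z_not_per
      (per_of_iter F (F.Λ_sub_Disc ((P (n + 1)).lz.mem ho)) e)) (P (n + 1 + 1)).z_not_per
      (fun m => key _ _ (n + 1) (r + At.M q * m) (hlt _).le ?_ (hl.add ho _))
      (fun m => key _ _ (n + 1) r (hlt _).le ?_ (hl.sub ho _)) fun m => ?_
    · filter_upwards [h2, hr, (hP.1 n (hlt n)).dvd, (P (n + 1)).seg.1 s] with i a1 a2 a3 a4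
      refine ⟨by omega, by omega, ?_⟩
      rw [show (P (n + 1)).b i + r + ((At.M q * m : ℕ) : ℤ) - j =
        At.M q * m - (j - (P (n + 1)).b i - r) by push_cast; ring]
      exact dvd_sub (dvd_mul_right _ _) a2
    · filter_upwards [h2, hr, (hP.1 n (hlt n)).dvd, (P (n + 1)).seg.1 (s + At.M q * m)]
        with i a1 a2 a3 a4
      refine ⟨by omega, by omega, ?_⟩
      rw [show (P (n + 1)).b i + r - ((At.M q * m : ℕ) : ℤ) - j =
        -(At.M q * m + (j - (P (n + 1)).b i - r)) by push_cast; ring]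
      exact (dvd_add (dvd_mul_right _ _) a2).neg_right
    · filter_upwards [(hP.1 (n + 1) (hlt _)).dvd, (P (n + 1 + 1)).seg.1 (r + m)] with i a1 a2
      omega
  · obtain ⟨m, rfl⟩ := ENat.ne_top_iff_exists.1 hk
    obtain ⟨r, -, hr⟩ := ult_res U (fun i => j - (P m).b i) hM
    refine hP.2.2 m rfl ⟨q, r, s, fun l hl =>
      key _ _ m (r + l * At.M q) le_rfl ?_ ((P m).lz.add ho _)⟩
    have hs : s ≤ l * At.M q := hl.trans (Nat.le_mul_of_pos_right l hM)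
    filter_upwards [h2, hr, hP.le (by exact_mod_cast hn) le_rfl] with i a1 a2 a3
    refine ⟨by omega, le_rfl, ?_⟩
    rw [show (P m).b i + ((r + l * At.M q : ℕ) : ℤ) - j =
      l * At.M q - (j - (P m).b i - r) by push_cast; ring]
    exact dvd_sub (dvd_mul_left _ _) a2

theorem ChB.win (h : At.Fam S Y V U o β) {P : ℕ → Pass At U o L} {k : ℕ∞} (hP : ChB β P k)
    (s0 : ℕ) : Win At U o β (RgB P k s0) := by
  have ho := h.1
  refine ⟨⟨fun i => (P 0).a i - s0, Eventually.of_forall fun i => (sub_add_cancel _ _).le, 0, s0,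
    zero_le, Eventually.of_forall fun i => le_rfl⟩, ?_, ?_, Or.inr ⟨?_, ?_⟩⟩
  · rintro t ⟨h1, n, s, hn, h2⟩
    obtain ⟨K0, k0⟩ := hP.2.1 0 zero_le
    obtain ⟨K1, k1⟩ := hP.2.1 n hn
    have e := h.2.1 (-(K1 : ℤ) - 1) s
    rw [sub_add_cancel] at e
    refine ⟨K0 + K1 + 1, ?_⟩
    filter_upwards [h1, h2, k0, k1, (P 0).seg.1 0, e,
      h.mono (K := -((K0 + K1 + 1 : ℕ) : ℤ)) (K' := -(K1 : ℤ) - 1) (by omega),
      h.mono (K := (K0 : ℤ)) (K' := ((K0 + K1 + 1 : ℕ) : ℤ)) (by omega)]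
      with i a1 a2 a3 a4 a5 a6 a7 a8
    exact ⟨by omega, by omega⟩
  · rintro t t' t'' ⟨-, n, s, hn, h2⟩ ⟨h1, -⟩ h3
    refine ⟨?_, n, s, hn, ?_⟩
    · filter_upwards [h1, h3] with i a1 a2
      omega
    · filter_upwards [h2, h3] with i a1 a2
      omega
  · rintro t ⟨h1, n, s, hn, h2⟩
    refine ⟨?_, n, s + 1, hn, ?_⟩
    · filter_upwards [h1] with i a1
      omega
    · filter_upwards [h2] with i a1
      omega
  rintro q j τ ⟨h1, n, s, hn, h2⟩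
  by_contra hc
  have key : ∀ (t : ι → ℤ) (w : ℂ) (m r : ℕ), (m : ℕ∞) ≤ k →
      (∀ᶠ i in U, t i ≤ τ i ∧ (P m).a i - r ≤ t i ∧ (At.M q : ℤ) ∣ t i - j) → Lim U o t w →
      w ∈ At.Sc q := by
    intro t w m r hm ht hw
    by_contra hw'
    refine hc ⟨t, w, ⟨?_, m, r, hm, ht.mono fun i a => a.2.1⟩, ht.mono fun i a => ⟨a.1, a.2.2⟩,
      hw, hw'⟩
    filter_upwards [h1, ht] with i a1 a2
    omega
  have hM := At.M_pos q
  by_cases hk : k = ⊤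
  · have hlt : ∀ m : ℕ, (m : ℕ∞) < k := fun m => hk ▸ ENat.natCast_lt_top m
    obtain ⟨r, -, hr⟩ := ult_res U (fun i => (P (n + 1)).a i - j) hM
    have hl := (P (n + 1)).ly.sub ho r
    refine At.no_full ho q hl (P (n + 1)).lz (fun e => (P (n + 1)).y_not_per
      (F.iter_f_g ((P (n + 1)).ly.mem ho) r ▸ (per_iter F e r).1)) (P (n + 1)).z_not_per
      (fun m => key _ _ (n + 1) r (hlt _).le ?_ (hl.add ho _))
      (fun m => key _ _ (n + 1) (r + At.M q * m) (hlt _).le ?_ (hl.sub ho _)) fun m => ?_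
    · filter_upwards [h2, hr, (hP.1 n (hlt n)).dvd, (P (n + 1)).seg.1 (s + At.M q * m)]
        with i a1 a2 a3 a4
      refine ⟨by omega, by omega, ?_⟩
      rw [show (P (n + 1)).a i - r + ((At.M q * m : ℕ) : ℤ) - j =
        At.M q * m + ((P (n + 1)).a i - j - r) by push_cast; ring]
      exact dvd_add (dvd_mul_right _ _) a2
    · filter_upwards [h2, hr, (hP.1 n (hlt n)).dvd, (P (n + 1)).seg.1 s] with i a1 a2 a3 a4
      refine ⟨by omega, by omega, ?_⟩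
      rw [show (P (n + 1)).a i - r - ((At.M q * m : ℕ) : ℤ) - j =
        ((P (n + 1)).a i - j - r) - At.M q * m by push_cast; ring]
      exact dvd_sub a2 (dvd_mul_right _ _)
    · filter_upwards [(P (n + 1)).seg.1 m] with i a1
      omega
  · obtain ⟨m, rfl⟩ := ENat.ne_top_iff_exists.1 hk
    obtain ⟨r, -, hr⟩ := ult_res U (fun i => (P m).a i - j) hM
    refine hP.2.2 m rfl ⟨q, r, s, fun l hl =>
      key _ _ m (r + l * At.M q) le_rfl ?_ ((P m).ly.sub ho _)⟩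
    have hs : s ≤ l * At.M q := hl.trans (Nat.le_mul_of_pos_right l hM)
    filter_upwards [h2, hr, hP.le (by exact_mod_cast hn) le_rfl] with i a1 a2 a3
    refine ⟨by omega, le_rfl, ?_⟩
    rw [show (P m).a i - ((r + l * At.M q : ℕ) : ℤ) - j =
      ((P m).a i - j - r) - l * At.M q by push_cast; ring]
    exact dvd_sub a2 (dvd_mul_left _ _)

end Pool.Agent.Lib.MP_3fe454_an.S2
end

-- part Pool.Agent.Lib.MP_3fe454_an.S2.Chain4
section

/-!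
Forced visits of the forward chain give a visit of a branch.
-/

set_option autoImplicit false

open Set Metric Filter Topology Function

namespace Pool.Agent.Lib.MP_3fe454_an.S2

open PD

variable {F : Dis} {At : Atlas F} {ι : Type} {U : Ultrafilter ι} {o : ι → ℤ → ℂ}
  {β : ℤ → ι → ℤ} {L : ℕ}

/-- two limits along multiples agree -/
theorem chain4_two {T : ℂ → ℂ} {z a b : ℂ} {L M s c : ℕ} (hL : 0 < L) (hM : 0 < M)
    (h1 : Tendsto (fun m : ℕ => T^[L * (s + m)] z) atTop (𝓝 a))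
    (h2 : Tendsto (fun m : ℕ => T^[L * c + M * m] z) atTop (𝓝 b)) : a = b := by
  obtain ⟨M', rfl⟩ : ∃ M', M = M' + 1 := ⟨M - 1, by omega⟩
  obtain ⟨L', rfl⟩ : ∃ L', L = L' + 1 := ⟨L - 1, by omega⟩
  have t1 : Tendsto (fun m : ℕ => c + (M' + 1) * m + M' * s) atTop atTop :=
    tendsto_atTop_mono (fun m => by simp only [id]; nlinarith [Nat.zero_le (M' * m), Nat.zero_le (M' * s)])
      tendsto_id
  have t2 : Tendsto (fun m : ℕ => (L' + 1) * (m + s)) atTop atTop :=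
    tendsto_atTop_mono (fun m => by simp only [id]; nlinarith [Nat.zero_le (L' * m), Nat.zero_le (L' * s)])
      tendsto_id
  refine tendsto_nhds_unique (h1.comp t1) ((h2.comp t2).congr fun m => ?_)
  simp only [Function.comp]
  congr 1
  ring

/-- the backward orbit of a point of the branch tends to the vertex -/
theorem chain4_back (Q : Quad F) (s : ℝ) :
    Tendsto (fun m : ℕ => F.g^[Q.M * m] (Q.γ s)) atTop (𝓝 Q.p) := by
  have h : Tendsto (fun m : ℕ => s - (m : ℝ)) atTop atBot :=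
    tendsto_atBot_add_const_left _ s (tendsto_neg_atTop_atBot.comp tendsto_natCast_atTop_atTop)
  exact (Q.γ_lim.comp h).congr fun m => (Q.γ_back m s).symm

/-- a time at bounded distance after an exit -/
theorem chain4_after (ho : ∀ i, Orb F (o i)) {P : ℕ → Pass At U o L} {k : ℕ∞}
    (hP : ChF β P k) {t : ι → ℤ} {w : ℂ} (hd : ∀ᶠ i in U, (L : ℤ) ∣ t i - (P 0).a i)
    (hw : Lim U o t w) {n s : ℕ} (hn : (n : ℕ∞) ≤ k) (h1 : ∀ᶠ i in U, (P n).b i ≤ t i)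
    (h2 : ∀ᶠ i in U, t i ≤ (P n).b i + s) : ∃ s' : ℕ, w = F.f^[L * s'] (P n).z := by
  rcases ult_dich U (fun i => t i - (P n).b i) (h1.mono fun i h => by omega) with ⟨c, hc⟩ | hc
  · obtain ⟨i, e1, e2, e3, e4⟩ :=
      (hc.and (hd.and ((hP.le (Nat.zero_le n) hn).and (P n).seg.2.1))).exists
    have e5 : (L : ℤ) ∣ (P n).b i - (P n).a i :=
      Dvd.dvd.trans ⟨((P n).Q.M : ℤ), by push_cast; ring⟩ e4
    have e6 : (L : ℤ) ∣ (c : ℤ) := by
      have : (c : ℤ) = (t i - (P 0).a i) - ((P n).a i - (P 0).a i) - ((P n).b i - (P n).a i) := by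
        omega
      rw [this]
      exact (e2.sub e3.2).sub e5
    obtain ⟨s', hs'⟩ := Int.natCast_dvd_natCast.1 e6
    refine ⟨s', ?_⟩
    rw [← hs']
    exact hw.unique (((P n).lz.add ho c).congr (hc.mono fun i h => by omega))
  · obtain ⟨i, e1, e2⟩ := ((hc (s + 1)).and h2).exists
    push_cast at e1
    omega

/-- the shape of sampled limit points in the forward range -/
theorem ChF.shape (ho : ∀ i, Orb F (o i)) (hL : 0 < L) {P : ℕ → Pass At U o L} {k : ℕ∞}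
    (hP : ChF β P k) {t : ι → ℤ} {w : ℂ} (ht : RgF P k 0 t)
    (hd : ∀ᶠ i in U, (L : ℤ) ∣ t i - (P 0).a i) (hw : Lim U o t w) :
    ∃ n s : ℕ, (n : ℕ∞) ≤ k ∧ (w = F.f^[L * s] (P n).z ∨
      (1 ≤ n ∧ (w = F.g^[L * s] (P n).z ∨ w = F.f^[L * s] (P n).Q.p))) := by
  obtain ⟨h0, n, s, hn, hs⟩ := ht
  induction n generalizing s with
  | zero =>
    obtain ⟨s', e⟩ := chain4_after ho hP hd hw hn (h0.mono fun i h => by simpa using h) hs
    exact ⟨0, s', hn, Or.inl e⟩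
  | succ n ih =>
    have hn' : (n : ℕ∞) < k := lt_of_lt_of_le (by exact_mod_cast Nat.lt_succ_self n) hn
    obtain ⟨c, hc, ha, -, hy⟩ := hP.1 n hn'
    rcases U.em fun i => (P (n + 1)).b i ≤ t i with h1 | h1
    · obtain ⟨s', e⟩ := chain4_after ho hP hd hw hn h1 hs
      exact ⟨n + 1, s', hn, Or.inl e⟩
    rcases U.em fun i => (P (n + 1)).a i ≤ t i with h2 | h2
    · have h3 : ∀ᶠ i in U, (P (n + 1)).a i ≤ t i ∧ t i ≤ (P (n + 1)).b i ∧
          (L : ℤ) ∣ t i - (P (n + 1)).a i := by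
        filter_upwards [h1, h2, hd, hP.le (Nat.zero_le (n + 1)) hn] with i e1 e2 e3 e4
        refine ⟨e2, by omega, ?_⟩
        have : t i - (P (n + 1)).a i = (t i - (P 0).a i) - ((P (n + 1)).a i - (P 0).a i) := by
          ring
        rw [this]
        exact e3.sub e4.2
      obtain ⟨s', e | ⟨-, e⟩ | e⟩ := (P (n + 1)).seg.2.2.2 t w h3 hw
      · obtain ⟨c', rfl⟩ : L ∣ c := Dvd.dvd.trans ⟨(P n).Q.M * (P (n + 1)).Q.M, by ring⟩ hc
        refine ⟨n, s' + c', hn'.le, Or.inl ?_⟩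
        rw [e, hy, mul_add, iterate_add_apply]
      · exact ⟨n + 1, s', hn, Or.inr ⟨by omega, Or.inl e⟩⟩
      · exact ⟨n + 1, s', hn, Or.inr ⟨by omega, Or.inr e⟩⟩
    · refine ih c hn'.le ?_
      filter_upwards [h2, ha] with i e1 e2
      omega

/-- exit points of the chain do not converge to the first vertex -/
theorem chain4_fwd {P : ℕ → Pass At U o L} {k : ℕ∞} (hP : ChF β P k) (hL : 0 < L) {p : ℂ}
    (hp : p ∈ periodicPts F.f) (hne : ∀ n : ℕ, 1 ≤ n → (n : ℕ∞) ≤ k → (P n).Q.p ≠ p) {n s : ℕ}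
    (hn : (n : ℕ∞) ≤ k)
    (h : Tendsto (fun m : ℕ => F.f^[L * (s + m)] (P n).z) atTop (𝓝 p)) : False := by
  rcases hn.lt_or_eq with hn' | hn'
  · obtain ⟨c, hc, -, -, hy⟩ := hP.1 n hn'
    obtain ⟨c', rfl⟩ : L ∣ c := Dvd.dvd.trans ⟨(P n).Q.M * (P (n + 1)).Q.M, by ring⟩ hc
    have h1 := (P (n + 1)).yY
    have h2 := (P (n + 1)).Q.axis_tend (P (n + 1)).yX
      (abs_le.2 ⟨by linarith [h1.1], by linarith [h1.2]⟩)
    refine hne (n + 1) (by omega) (Order.add_one_le_of_lt hn') (chain4_two (c := c') hL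
      (P (n + 1)).Q.M_pos h (h2.congr fun m => ?_)).symm
    rw [hy, ← iterate_add_apply, add_comm]
  · refine hP.2.2 n hn'.symm (At.TF_of hp (j := L * s) hL (h.congr fun m => ?_))
    congr 1
    ring

/-- exit points of later passes do not come from the first vertex -/
theorem chain4_bwd (P : Pass At U o L) (hL : 0 < L) {p : ℂ} {s : ℕ}
    (h : Tendsto (fun m : ℕ => F.g^[L * (s + m)] P.z) atTop (𝓝 p)) : P.Q.p = p := by
  obtain ⟨s0, -, e⟩ := P.z_gam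
  refine (chain4_two (c := 0) hL P.Q.M_pos h ((chain4_back P.Q s0).congr fun m => ?_)).symm
  rw [e, mul_zero, zero_add]

theorem ChF.vis (ho : ∀ i, Orb F (o i)) {P : ℕ → Pass At U o L} {k : ℕ∞} (hP : ChF β P k)
    (hL : L = (P 0).Q.M) (hne : ∀ n : ℕ, 1 ≤ n → (n : ℕ∞) ≤ k → (P n).Q.p ≠ (P 0).Q.p)
    (hv : ∀ d > 0, ∃ t, RgF P k 0 t ∧
      ∀ᶠ i in U, (L : ℤ) ∣ t i - (P 0).a i ∧ o i (t i) ∈ (P 0).Q.T d) :
    ∃ n : ℕ, (n : ℕ∞) ≤ k ∧ ∃ j, ∃ w ∈ insert (P n).Q.p (P n).Q.Gam,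
      F.f^[(P 0).Q.M * j] w ∈ (P 0).Q.Ns := by
  have hL0 : 0 < L := hL ▸ (P 0).Q.M_pos
  have hx : 0 < (P 0).Q.φ.symm 1 := by
    rw [OrderIso.lt_symm_apply, (P 0).Q.fix]
    exact one_pos
  have hz := (P 0).zX
  obtain ⟨t, ht, hd⟩ := hv (min ((P 0).Q.φ.symm 1) ((P 0).Q.X (P 0).z / 2))
    (lt_min hx (by linarith [hz.1]))
  obtain ⟨w, hw⟩ := lim_exists (U := U) ho t
  have hwΛ : w ∈ F.Λ := hw.mem ho
  have hc : w ∈ {w | 0 ≤ (P 0).Q.X w ∧
      (P 0).Q.X w ≤ min ((P 0).Q.φ.symm 1) ((P 0).Q.X (P 0).z / 2) ∧ 0 ≤ (P 0).Q.Y w ∧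
      (P 0).Q.Y w ≤ 1 / 2} :=
    hw.closed ((P 0).Q.rect_compact _ _ _ _).isClosed
      (hd.mono fun i h => ⟨h.2.1.le, h.2.2.1.le, h.2.2.2.1.le, h.2.2.2.2.le⟩)
  obtain ⟨c1, c2, c3, c4⟩ := hc
  have c5 := (le_min_iff.1 c2).1
  have c6 := (le_min_iff.1 c2).2
  have cY : |(P 0).Q.Y w| ≤ 1 := abs_le.2 ⟨by linarith, by linarith⟩
  obtain ⟨n, s, hn, hs⟩ := hP.shape ho hL0 ht (hd.mono fun i h => h.1) hw
  have hzΛ : (P n).z ∈ F.Λ := (P n).lz.mem ho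
  rcases c1.eq_or_lt with hX | hX
  · exfalso
    have h1 := (P 0).Q.axis_tend hX.symm cY
    rw [← hL] at h1
    rcases hs with e | ⟨h2, e | e⟩
    · refine chain4_fwd hP hL0 (P 0).Q.p_per hne hn (s := s) (h1.congr fun m => ?_)
      rw [e, ← iterate_add_apply]
      congr 1
      ring
    · refine chain4_fwd hP hL0 (P 0).Q.p_per hne hn (s := 0)
        ((h1.comp (tendsto_add_atTop_nat s)).congr fun m => ?_)
      simp only [Function.comp]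
      rw [e, mul_add, iterate_add_apply, F.iter_f_g hzΛ, zero_add]
    · have h3 : w = (P 0).Q.p :=
        (P 0).Q.axis_per hX.symm cY (e ▸ (per_iter F (P n).Q.p_per _).1)
      refine hne n h2 hn (inj_iter F (L * s) (F.Λ_sub_Disc (P n).Q.p_Λ)
        (F.Λ_sub_Disc (P 0).Q.p_Λ) ?_)
      have h4 := (P 0).Q.f_p_iter s
      rw [← hL] at h4
      rw [← e, h3, h4]
  rcases c3.eq_or_lt with hY | hY
  · exfalso
    have hX1 : (P 0).Q.X w ≤ 1 := by linarith [hz.2]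
    have hg := (P 0).Q.loc_mem hX hX1 hY.symm
    have h1 := chain4_back (P 0).Q (-(P 0).Q.dep ((P 0).Q.X w))
    rw [← hg, ← hL] at h1
    rcases hs with e | ⟨h2, e | e⟩
    · rcases Nat.eq_zero_or_pos n with rfl | h2
      · obtain ⟨s0, hs0, e0⟩ := (P 0).z_gam
        have e1 : w = (P 0).Q.γ (s0 + s) := by
          rw [e, e0, ← (P 0).Q.γ_iter, ← hL]
        have e2 := (P 0).Q.γ_inj (hg.symm.trans e1)
        have e3 := ((P 0).Q.dep_spec hX hX1).1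
        have e4 := ((P 0).Q.mkq_loc hs0.le).1
        have e5 : (P 0).Q.χ s0 ≤ (P 0).Q.χ (s0 + s) :=
          (P 0).Q.χ_mono.monotone (le_add_of_nonneg_right (Nat.cast_nonneg s))
        rw [← e0] at e4
        rw [e2] at e3
        linarith [hz.1]
      · refine hne n h2 hn (chain4_bwd (P n) hL0 (s := 0)
          ((h1.comp (tendsto_add_atTop_nat s)).congr fun m => ?_))
        simp only [Function.comp]
        rw [e, mul_add, iterate_add_apply, F.iter_g_f (F.Λ_sub_Disc hzΛ), zero_add]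
    · refine hne n h2 hn (chain4_bwd (P n) hL0 (s := s) (h1.congr fun m => ?_))
      rw [e, ← iterate_add_apply]
      congr 1
      ring
    · exact (P 0).Q.γ_not_per _ (hg ▸ e ▸ (per_iter F (P n).Q.p_per _).1)
  have hN : w ∈ (P 0).Q.Ns := by
    refine ⟨Or.inl ⟨c1, ?_, c3, by linarith⟩, hX, hY⟩
    rw [(P 0).Q.X_Gt]
    exact (OrderIso.le_symm_apply _).1 c5
  obtain ⟨s0, -, e0⟩ := (P n).z_gam
  refine ⟨n, hn, ?_⟩
  rw [← hL]
  rcases hs with e | ⟨-, e | e⟩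
  · exact ⟨s, (P n).z, Or.inr ⟨s0, e0.symm⟩, e ▸ hN⟩
  · obtain ⟨M', hM'⟩ : ∃ M', (P n).Q.M = M' + 1 := ⟨(P n).Q.M - 1, by have := (P n).Q.M_pos; omega⟩
    refine ⟨s * M', F.g^[(P n).Q.M * (L * s)] (P n).z,
      Or.inr ⟨s0 - (L * s : ℕ), by rw [e0, (P n).Q.γ_back]⟩, ?_⟩
    have e1 : (P n).Q.M * (L * s) = L * (s * M') + L * s := by rw [hM']; ring
    rw [e1, iterate_add_apply, ← e, F.iter_f_g hwΛ]
    exact hN
  · exact ⟨s, (P n).Q.p, Or.inl rfl, e ▸ hN⟩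

end Pool.Agent.Lib.MP_3fe454_an.S2
end

-- part Pool.Agent.Lib.MP_3fe454_an.S2.Chain5
section

/-!
Forced visits of the backward chain give a visit of a stable arc.
-/

set_option autoImplicit false

open Set Metric Filter Topology Function

namespace Pool.Agent.Lib.MP_3fe454_an.S2

open PD

variable {F : Dis} {At : Atlas F} {ι : Type} {U : Ultrafilter ι} {o : ι → ℤ → ℂ}
  {β : ℤ → ι → ℤ} {L : ℕ}

theorem ch5_two {T : ℂ → ℂ} {y p p' : ℂ} {a b : ℕ} (ha : 0 < a) (hb : 0 < b)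
    (h : Tendsto (fun j : ℕ => T^[a * j] y) atTop (𝓝 p))
    (h' : Tendsto (fun j : ℕ => T^[b * j] y) atTop (𝓝 p')) : p = p' := by
  have h1 := h.comp (tendsto_id.const_mul_atTop' hb)
  have h2 := h'.comp (tendsto_id.const_mul_atTop' ha)
  refine tendsto_nhds_unique h1 (h2.congr fun j => ?_)
  simp only [Function.comp, id]
  rw [Nat.mul_left_comm]

theorem ch5_shift {T : ℂ → ℂ} {y p : ℂ} (a s : ℕ) :
    Tendsto (fun j : ℕ => T^[a * j] (T^[a * s] y)) atTop (𝓝 p) ↔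
      Tendsto (fun j : ℕ => T^[a * j] y) atTop (𝓝 p) := by
  rw [← tendsto_add_atTop_iff_nat (f := fun j : ℕ => T^[a * j] y) s]
  simp only [mul_add, iterate_add_apply]

theorem ch5_back (Q : Quad F) (s : ℝ) :
    Tendsto (fun j : ℕ => F.g^[Q.M * j] (Q.γ s)) atTop (𝓝 Q.p) := by
  simp only [Q.γ_back]
  exact Q.γ_lim.comp (tendsto_atBot_add_const_left _ s
    (tendsto_neg_atTop_atBot.comp tendsto_natCast_atTop_atTop))

theorem ch5_sig (Q : Quad F) {v : ℂ} (hv : v ∈ Q.Sig (1 / 2)) (L s : ℕ) :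
    ∃ m, F.f^[L * m] (F.f^[L * s] v) ∈ Q.Sig (1 / 2) := by
  obtain ⟨c, hc⟩ : ∃ c, Q.M = c + 1 := ⟨Q.M - 1, by have := Q.M_pos; omega⟩
  refine ⟨s * c, ?_⟩
  rw [← iterate_add_apply, show L * (s * c) + L * s = Q.M * (L * s) by rw [hc]; ring]
  refine Q.Sig_mono ?_ (Q.Sig_fwd hv (by norm_num) _)
  have := pow_le_one₀ (n := L * s) Q.lam_pos.le Q.lam_lt.le
  linarith

/-- the shape of sampled limit points in the backward range -/
theorem ChB.shape (ho : ∀ i, Orb F (o i)) (hL : 0 < L) {P : ℕ → Pass At U o L} {k : ℕ∞}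
    (hP : ChB β P k) {s0 : ℕ} {t : ι → ℤ} {w : ℂ} (ht : RgB P k s0 t)
    (hd : ∀ᶠ i in U, (L : ℤ) ∣ t i - (P 0).a i) (hw : Lim U o t w) :
    ∃ n s : ℕ, (n : ℕ∞) ≤ k ∧ ((w = F.g^[L * s] (P n).y ∧ (n = 0 → s0 ≤ L * s)) ∨
      (1 ≤ n ∧ (w = F.f^[L * s] (P n).y ∨ w = F.f^[L * s] (P n).Q.p))) := by
  classical
  obtain ⟨h0, hex⟩ := ht
  obtain ⟨n, ⟨s, hk, hs⟩, hmin⟩ : ∃ n : ℕ,
      (∃ s : ℕ, (n : ℕ∞) ≤ k ∧ ∀ᶠ i in U, (P n).a i - s ≤ t i) ∧
      ∀ m < n, ¬ ∃ s : ℕ, (m : ℕ∞) ≤ k ∧ ∀ᶠ i in U, (P m).a i - s ≤ t i :=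
    ⟨Nat.find hex, Nat.find_spec hex, fun m hm => Nat.find_min hex hm⟩
  have hdn : ∀ᶠ i in U, (L : ℤ) ∣ t i - (P n).a i := by
    filter_upwards [hd, hP.le (Nat.zero_le n) hk] with i h1 h2
    have := h1.add h2.2
    rwa [sub_add_sub_cancel] at this
  rcases U.em fun i => t i ≤ (P n).a i with h1 | h1
  · rcases ult_dich U (fun i => (P n).a i - t i) (h1.mono fun i hi => sub_nonneg.2 hi) with
      ⟨s', h2⟩ | h2
    · obtain ⟨i, hi1, hi2⟩ := (h2.and hdn).exists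
      have h3 : (L : ℤ) ∣ (s' : ℤ) := by
        rw [← hi1]; exact dvd_sub_comm.1 hi2
      obtain ⟨c, rfl⟩ := Int.natCast_dvd_natCast.1 h3
      refine ⟨n, c, hk, Or.inl ⟨?_, ?_⟩⟩
      · refine hw.unique (((P n).ly.sub ho (L * c)).congr ?_)
        filter_upwards [h2] with i hi
        linarith
      · rintro rfl
        obtain ⟨i, hi1, hi2⟩ := (h2.and h0).exists
        have : (s0 : ℤ) ≤ ((L * c : ℕ) : ℤ) := by linarith
        exact_mod_cast this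
    · obtain ⟨i, hi1, hi2⟩ := ((h2 (s + 1)).and hs).exists
      push_cast at hi1
      linarith
  · obtain ⟨m, rfl⟩ : ∃ m, n = m + 1 := by
      refine Nat.exists_eq_succ_of_ne_zero ?_
      rintro rfl
      obtain ⟨i, hi1, hi2⟩ := (h1.and h0).exists
      have : (0 : ℤ) ≤ s0 := Int.natCast_nonneg _
      exact hi1 (by linarith)
    have hmk : (m : ℕ∞) < k := lt_of_lt_of_le (by exact_mod_cast Nat.lt_succ_self m) hk
    obtain ⟨n', -, h3, -, -⟩ := hP.1 m hmk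
    have hm : ∀ s : ℕ, ¬ ∀ᶠ i in U, (P m).a i - s ≤ t i := fun s h =>
      hmin m (Nat.lt_succ_self m) ⟨s, hmk.le, h⟩
    have h4 : ∀ᶠ i in U, t i ≤ (P (m + 1)).b i := by
      filter_upwards [Ultrafilter.eventually_not.2 (hm n'), h3] with i hi1 hi2
      have := not_le.1 hi1
      linarith
    obtain ⟨s', h5 | ⟨h5, -⟩ | h5⟩ := (P (m + 1)).seg.2.2.2 t w (by
      filter_upwards [h1, h4, hdn] with i hi1 hi2 hi3
      exact ⟨(not_le.1 hi1).le, hi2, hi3⟩) hw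
    · exact ⟨m + 1, s', hk, Or.inr ⟨Nat.succ_pos m, Or.inl h5⟩⟩
    · refine absurd ?_ (hm (n' + L * s'))
      filter_upwards [h5, h3] with i hi1 hi2
      push_cast at hi1 ⊢
      linarith
    · exact ⟨m + 1, s', hk, Or.inr ⟨Nat.succ_pos m, Or.inr h5⟩⟩

theorem ChB.vis (ho : ∀ i, Orb F (o i)) {P : ℕ → Pass At U o L} {k : ℕ∞} (hP : ChB β P k)
    {sh sv : Bool} {Qa : Quad F} (hQ : At.IsQ (P 0).q sh sv Qa) (hL : L = Qa.M)
    (hne : ∀ n : ℕ, 1 ≤ n → (n : ℕ∞) ≤ k → (P n).Q.p ≠ Qa.p)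
    (hv : ∀ (s0 : ℕ), ∀ d > 0, ∃ t, RgB P k s0 t ∧
      ∀ᶠ i in U, (L : ℤ) ∣ t i - (P 0).a i ∧ o i (t i) ∈ Qa.T d) :
    ∃ l : ℕ, (l : ℕ∞) ≤ k ∧ ∃ m, ∃ v ∈ Qa.Ns, F.f^[Qa.M * m] v ∈ (P l).Q.Sig (1 / 2) := by
  subst hL
  have hM := Qa.M_pos
  have hd0 : 0 < Qa.φ.symm 1 := by rw [Qa.φ.lt_symm_apply, Qa.fix]; exact one_pos
  have hd1 : Qa.φ.symm 1 ≤ 1 := by
    rw [Qa.φ.symm_apply_le]; exact (Qa.gap 1 ⟨one_pos, le_rfl⟩).le
  have hy0 : 0 < |Qa.Y (P 0).y| := by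
    rw [((P 0).isq.signs hQ _).2, mul_assoc, mkq_abs, mkq_abs]
    exact abs_pos.2 (P 0).yY.1.ne'
  obtain ⟨s1, hs1⟩ := exists_pow_lt_of_lt_one hy0 Qa.lam_lt
  obtain ⟨t, ht, h1⟩ := hv (Qa.M * s1) _ hd0
  obtain ⟨w, hw⟩ := lim_exists (U := U) ho t
  have hC : w ∈ {w | 0 ≤ Qa.X w ∧ Qa.X w ≤ Qa.φ.symm 1 ∧ 0 ≤ Qa.Y w ∧ Qa.Y w ≤ 1 / 2} :=
    hw.closed (Qa.rect_compact _ _ _ _).isClosed
      (h1.mono fun i hi => ⟨hi.2.1.le, hi.2.2.1.le, hi.2.2.2.1.le, hi.2.2.2.2.le⟩)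
  obtain ⟨c1, c2, c3, c4⟩ := hC
  obtain ⟨n, s, hk, hsh⟩ := hP.shape ho hM ht (h1.mono fun i hi => hi.1) hw
  have hyΛ : (P n).y ∈ F.Λ := (P n).ly.mem ho
  have hyS : (P n).y ∈ (P n).Q.Sig (1 / 2) := ⟨(P n).yX, (P n).yY.1.le, (P n).yY.2.le⟩
  have hwY : |Qa.Y w| ≤ 1 / 2 := abs_le.2 ⟨by linarith, c4⟩
  rcases c1.eq_or_lt with d1 | d1
  · exfalso
    have e1 := Qa.axis_tend d1.symm (hwY.trans (by norm_num))
    have e2 : 1 ≤ n → ¬ Tendsto (fun j : ℕ => F.f^[Qa.M * j] (P n).y) atTop (𝓝 Qa.p) :=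
      fun hn h => hne n hn hk (ch5_two (P n).Q.M_pos hM ((P n).Q.axis_tend (P n).yX
        (abs_le.2 ⟨by linarith [(P n).yY.1], by linarith [(P n).yY.2]⟩)) h)
    rcases hsh with ⟨e3, e4⟩ | ⟨e3, e4 | e4⟩
    · have e5 : F.f^[Qa.M * s] w = (P n).y := by rw [e3, F.iter_f_g hyΛ]
      rcases Nat.eq_zero_or_pos n with rfl | hn
      · have e6 := (Qa.axis_fwd d1.symm (hwY.trans (by norm_num)) s).2.2.1
        have e7 : Qa.lam ^ s ≤ Qa.lam ^ s1 :=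
          pow_le_pow_of_le_one Qa.lam_pos.le Qa.lam_lt.le (Nat.le_of_mul_le_mul_left (e4 rfl) hM)
        have e8 : Qa.lam ^ s * |Qa.Y w| ≤ Qa.lam ^ s * 1 :=
          mul_le_mul_of_nonneg_left (hwY.trans (by norm_num)) (pow_pos Qa.lam_pos s).le
        rw [e5] at e6
        linarith
      · exact e2 hn (e5 ▸ (ch5_shift Qa.M s).2 e1)
    · exact e2 e3 ((ch5_shift Qa.M s).1 (e4 ▸ e1))
    · have e5 : w = Qa.p := Qa.axis_per d1.symm (hwY.trans (by norm_num))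
        (e4 ▸ (per_iter F (P n).Q.p_per _).1)
      exact hne n e3 hk (inj_iter F (Qa.M * s) (F.Λ_sub_Disc (P n).Q.p_Λ) (F.Λ_sub_Disc Qa.p_Λ)
        (by rw [← e4, e5, Qa.f_p_iter]))
  rcases c3.eq_or_lt with d2 | d2
  · exfalso
    have e0 := Qa.loc_mem d1 (c2.trans hd1) d2.symm
    have e1 : Tendsto (fun j : ℕ => F.g^[Qa.M * j] w) atTop (𝓝 Qa.p) := by
      rw [e0]; exact ch5_back Qa _
    have e2 : ¬ Tendsto (fun j : ℕ => F.g^[Qa.M * j] (P n).y) atTop (𝓝 Qa.p) := by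
      intro h
      rcases hk.eq_or_lt with hn | hn
      · refine hP.2.2 n hn.symm (At.TB_of (j := 0) Qa.p_per hM (h.congr fun j => ?_))
        rw [zero_add, mul_comm]
      · obtain ⟨n', h2, -, -, h3⟩ := hP.1 n hn
        obtain ⟨c, rfl⟩ : Qa.M ∣ n' := Dvd.dvd.trans ⟨_, mul_assoc _ _ _⟩ h2
        have h4 : F.g^[Qa.M * c] (P n).y = (P (n + 1)).z := by
          rw [h3, F.iter_g_f (F.Λ_sub_Disc ((P (n + 1)).lz.mem ho))]
        obtain ⟨s', -, h5⟩ := (P (n + 1)).z_gam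
        refine hne (n + 1) (Nat.succ_pos n) (Order.add_one_le_of_lt hn)
          (ch5_two (P (n + 1)).Q.M_pos hM (ch5_back _ s') ?_)
        rw [← h5, ← h4]
        exact (ch5_shift Qa.M c).2 h
    rcases hsh with ⟨e3, -⟩ | ⟨-, e4 | e4⟩
    · exact e2 ((ch5_shift Qa.M s).1 (e3 ▸ e1))
    · have e5 : F.g^[Qa.M * s] w = (P n).y := by rw [e4, F.iter_g_f (F.Λ_sub_Disc hyΛ)]
      exact e2 (e5 ▸ (ch5_shift Qa.M s).2 e1)
    · exact Qa.γ_not_per _ (e0 ▸ e4 ▸ (per_iter F (P n).Q.p_per _).1)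
  have hN : w ∈ Qa.Ns := by
    refine ⟨Or.inl ⟨d1.le, ?_, d2.le, by linarith⟩, d1, d2⟩
    rw [Qa.X_Gt]
    exact Qa.φ.le_symm_apply.1 c2
  rcases hsh with ⟨e3, -⟩ | ⟨-, e4 | e4⟩
  · exact ⟨n, hk, s, w, hN, by rw [e3, F.iter_f_g hyΛ]; exact hyS⟩
  · obtain ⟨m, hm⟩ := ch5_sig (P n).Q hyS Qa.M s
    exact ⟨n, hk, m, w, hN, e4 ▸ hm⟩
  · obtain ⟨m, hm⟩ := ch5_sig (P n).Q ((P n).Q.p_mem_Sig (by norm_num)) Qa.M s
    exact ⟨n, hk, m, w, hN, e4 ▸ hm⟩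

end Pool.Agent.Lib.MP_3fe454_an.S2
end

-- part Pool.Agent.Lib.MP_3fe454_an.S2.Part1
section

/-!
Backward orbits are trivial and periods are bounded.
-/

set_option autoImplicit false

open Set Metric Filter Topology Function

namespace Pool.Agent.Lib.MP_3fe454_an.S2

open PD

variable {F : Dis}

theorem part1_up {r : Quad F → Quad F → Prop} (Q : ℕ → Quad F) {k : ℕ}
    (h : ∀ i < k, r (Q i) (Q (i + 1))) : ∀ i ≤ k, Relation.ReflTransGen r (Q 0) (Q i) := by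
  intro i hi
  induction i with
  | zero => exact .refl
  | succ i ih => exact (ih (by omega)).tail (h i (by omega))

theorem part1_down {r : Quad F → Quad F → Prop} (Q : ℕ → Quad F) {k : ℕ}
    (h : ∀ i < k, r (Q (i + 1)) (Q i)) : ∀ i ≤ k, Relation.ReflTransGen r (Q i) (Q 0) := by
  intro i hi
  induction i with
  | zero => exact .refl
  | succ i ih => exact (ih (by omega)).head (h i (by omega))

theorem part1_prod (Q : ℕ → Quad F) (k : ℕ) : ∃ N > 0, ∀ i ≤ k, (Q i).M ∣ N :=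
  ⟨∏ i ∈ Finset.range (k + 1), (Q i).M, Finset.prod_pos fun i _ => (Q i).M_pos,
    fun _ hi => Finset.dvd_prod_of_mem _ (Finset.mem_range.2 (Nat.lt_succ_of_le hi))⟩

theorem ol_apply (hp : HP F) (Qa : Quad F) (A B C : ℕ → Quad F) (kA kB kC : ℕ) (hA : A 0 = Qa)
    (hC : C 0 = Qa) (hB : C kC = B 0) (lA : ∀ i < kA, (A i).LkD (A (i + 1)))
    (lB : ∀ l < kB, (B (l + 1)).LkD (B l)) (lC : ∀ l < kC, (C (l + 1)).LkD (C l))
    (B0p : (B 0).p = Qa.p) (B0c : Qa.Compat (B 0))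
    (neA : ∀ i, 1 ≤ i → i ≤ kA → (A i).p ≠ Qa.p) (neB : ∀ l, 1 ≤ l → l ≤ kB → (B l).p ≠ Qa.p)
    (visA : ∃ j, ∃ w ∈ insert (A kA).p (A kA).Gam, F.f^[Qa.M * j] w ∈ Qa.Ns)
    (visB : ∃ m, ∃ v ∈ Qa.Ns, F.f^[Qa.M * m] v ∈ (B kB).Sig (1 / 2)) : False := by
  obtain ⟨N1, p1, d1⟩ := part1_prod A kA
  obtain ⟨N2, p2, d2⟩ := part1_prod B kB
  obtain ⟨N3, p3, d3⟩ := part1_prod C kC
  obtain ⟨N, hN, e1, e2, e3⟩ : ∃ N > 0, (∀ i ≤ kA, (A i).M ∣ N) ∧ (∀ i ≤ kB, (B i).M ∣ N) ∧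
      ∀ i ≤ kC, (C i).M ∣ N :=
    ⟨N1 * N2 * N3, by positivity, fun i hi => ((d1 i hi).mul_right _).mul_right _,
      fun i hi => ((d2 i hi).mul_left _).mul_right _, fun i hi => (d3 i hi).mul_left _⟩
  obtain ⟨pw, w1, w2⟩ := exists_pw (F := F) N hN
  have ea : Qa.M ∣ N := hA ▸ e1 0 (Nat.zero_le _)
  have eN : N / Qa.M * Qa.M = N := Nat.div_mul_cancel ea
  have lk : ∀ Q Q' : Quad F, Q.M ∣ N → Q'.M ∣ N → Q.LkD Q' → (pw Q).Lk (pw Q') :=
    fun Q Q' h1 h2 h3 => ⟨(w1 Q h1).2.trans (w1 Q' h2).2.symm, (w2 Q Q' h1 h2 h3).elim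
      fun _ h => ⟨_, h⟩⟩
  have sA := fun i hi => Quad.same (w1 _ (e1 i hi)).1.2.1
  have sB := fun i hi => Quad.same (w1 _ (e2 i hi)).1.2.1
  choose! tA htA using fun i (hi : i < kA) => w2 _ _ (e1 i hi.le) (e1 (i + 1) hi) (lA i hi)
  choose! tB htB using fun i (hi : i < kB) => w2 _ _ (e2 (i + 1) hi) (e2 i hi.le) (lB i hi)
  obtain ⟨i, hi, l, hl, n, hn⟩ := OLD.par
    { κ := N / Qa.M
      kA := kA
      kB := kB
      Qa := Qa
      A := fun i => pw (A i)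
      B := fun i => pw (B i)
      tA := tA
      tB := tB
      κ_pos := Nat.div_pos (Nat.le_of_dvd hN ea) Qa.M_pos
      A0 := by rw [hA]; exact (w1 Qa ea).1
      powA := fun i hi => by rw [eN]; exact (w1 _ (e1 i hi)).2
      powB := fun i hi => by rw [eN]; exact (w1 _ (e2 i hi)).2
      linkA := by rw [eN]; exact htA
      linkB := by rw [eN]; exact htB
      B0p := (sB 0 (Nat.zero_le _)).2.2.1.trans B0p
      B0c := B0c.congr rfl (w1 _ (e2 0 (Nat.zero_le _))).1.2.1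
      neA := fun i h1 h2 => (sA i h2).2.2.1 ▸ neA i h1 h2
      neB := fun i h1 h2 => (sB i h2).2.2.1 ▸ neB i h1 h2
      visA := ⟨kA, le_rfl, by
        rw [(sA kA le_rfl).2.2.1, (w1 _ (e1 kA le_rfl)).1.gam]
        exact visA⟩
      visB := ⟨kB, le_rfl, by
        rw [(sB kB le_rfl).2.2.2.2.2.1]
        exact visB⟩ }
  have c1 := part1_up (r := Quad.Lk) (fun i => pw (A i))
    (fun i hi => lk _ _ (e1 i hi.le) (e1 (i + 1) hi) (lA i hi)) i hi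
  have c2 := part1_down (r := Quad.Lk) (fun i => pw (B i))
    (fun i hi => lk _ _ (e2 (i + 1) hi) (e2 i hi.le) (lB i hi)) l hl
  have c3 := part1_down (r := Quad.Lk) (fun i => pw (C i))
    (fun i hi => lk _ _ (e3 (i + 1) hi) (e3 i hi.le) (lC i hi)) kC le_rfl
  rw [hB, hC, ← hA] at c3
  exact Quad.hs_main ((c2.trans c3).trans c1) hn hp

section

variable {At : Atlas F} {S Y : Set ℂ} {V : ℤ → Set ℂ} {ι : Type} {U : Ultrafilter ι}
  {o : ι → ℤ → ℂ} {β : ℤ → ι → ℤ} {L : ℕ}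

theorem part1_lt {n n' : ℕ} {k : ℕ∞} (h : n < n') (h' : (n' : ℕ∞) ≤ k) : (n : ℕ∞) < k :=
  (Nat.cast_lt.2 h).trans_le h'

theorem part1_le {n n' : ℕ} {k : ℕ∞} (h : n ≤ n') (h' : (n' : ℕ∞) ≤ k) : (n : ℕ∞) ≤ k :=
  (Nat.cast_le.2 h).trans h'

theorem part1_nrF (hp : HP F) (h : At.Fam S Y V U o β) (hS : Src F S) {P : ℕ → Pass At U o L}
    {k : ℕ∞} (hP : ChF β P k) (n n' : ℕ) (h1 : n < n') (h2 : (n' : ℕ∞) ≤ k) :
    (P n).lab ≠ (P n').lab := by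
  obtain ⟨m, rfl⟩ := Nat.exists_eq_add_of_le h1.le
  exact no_repeat hp h hS (fun i => P (n + i)) (k := m) (by omega)
    (fun i hi => hP.1 (n + i) (part1_lt (by omega) h2))
    fun i hi => hP.2.1 (n + i) (part1_le (by omega) h2)

theorem part1_nrB (hp : HP F) (h : At.Fam S Y V U o β) (hS : Src F S) {P : ℕ → Pass At U o L}
    {k : ℕ∞} (hP : ChB β P k) (n n' : ℕ) (h1 : n < n') (h2 : (n' : ℕ∞) ≤ k) :
    (P n).lab ≠ (P n').lab := by
  have := no_repeat hp h hS (fun i => P (n' - i)) (k := n' - n) (by omega)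
    (fun i hi => by
      have e := hP.1 (n' - (i + 1)) (part1_lt (by omega) h2)
      rwa [show n' - (i + 1) + 1 = n' - i by omega] at e)
    fun i _ => hP.2.1 (n' - i) (part1_le (by omega) h2)
  rw [Nat.sub_zero, show n' - (n' - n) = n by omega] at this
  exact this.symm

theorem part1_ne {P P' : Pass At U o L} (h : P.q ≠ P'.q) : P.Q.p ≠ P'.Q.p := by
  rw [P.isq.p, P'.isq.p]
  exact fun e => h (Subtype.ext e)

end

theorem part1 (hp : HP F) (At : Atlas F) {S : Set ℂ} (hS : Src F S)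
    (h : At.Adm S F.Λ fun _ => ∅) : False := by
  obtain ⟨Y, hY⟩ := At.exists_min h
  obtain ⟨p, hpY, hpp⟩ := hY.per hS.2.1 hp
  obtain ⟨q, rfl⟩ : ∃ q : periodicPts F.f, p = q := ⟨⟨p, hpp⟩, rfl⟩
  obtain ⟨𝒜, d, hd, hA, hmax⟩ := At.exists_max hY.2.2.1 q
  obtain ⟨ι, U, o, β, hF⟩ := hA.fam hS.2.1 hp.per_nonempty
  obtain ⟨t, ht, hl⟩ := hF.hit hY hpY
  have hL := At.M_pos q
  obtain ⟨P0, q0, r0⟩ := hF.first hL ht hl
  obtain ⟨P, k, rfl, c1⟩ := hF.chain_f hL P0 r0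
  obtain ⟨n0, a1, a2, a3⟩ := last_at (part1_nrF hp hF hS c1)
  obtain ⟨kA, cA, a4⟩ := c1.shift a1
  have neA : ∀ n : ℕ, 1 ≤ n → (n : ℕ∞) ≤ kA → (P (n0 + n)).Q.p ≠ (P n0).Q.p := fun n h1 h2 =>
    part1_ne (a2 ▸ a3 _ (by omega) (a4 n h2))
  have rA := c1.2.1 n0 a1
  have qA := a2.trans q0
  have hM : At.M q = (P n0).Q.M := by rw [(P n0).isq.M, qA]
  obtain ⟨R, k', eR, c2⟩ := hF.chain_b hL (P n0) rA
  obtain ⟨n1, b1, b2, b3⟩ := last_at (part1_nrB hp hF hS c2)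
  obtain ⟨kB, cB, b4⟩ := c2.shift b1
  rw [eR] at b2 b3
  have neB : ∀ n : ℕ, 1 ≤ n → (n : ℕ∞) ≤ kB → (R (n1 + n)).Q.p ≠ (P n0).Q.p := fun n h1 h2 =>
    part1_ne (b3 _ (by omega) (b4 n h2))
  obtain ⟨i, hi, visA⟩ := cA.vis hF.1 hM neA fun d' hd' =>
    hF.visit hd hmax (P n0) qA rA (cA.win hF 0) hd'
  have hQ : At.IsQ (R n1).q (P n0).sh (P n0).sv (P n0).Q := b2 ▸ (P n0).isq
  obtain ⟨l, hl, visB⟩ := cB.vis hF.1 hQ hM neB fun s0 d' hd' => by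
    obtain ⟨t, t1, t2⟩ := hF.visit hd hmax (P n0) qA rA (cB.win hF s0) hd'
    refine ⟨t, t1, (t2.and (c2.le (Nat.zero_le n1) b1)).mono fun j hj => ⟨?_, hj.1.2⟩⟩
    have e := hj.1.1.add hj.2.2
    rwa [eR, sub_add_sub_cancel] at e
  exact ol_apply hp (P n0).Q (fun n => (P (n0 + n)).Q) (fun n => (R (n1 + n)).Q)
    (fun n => (R n).Q) i l n1 rfl (congrArg Pass.Q eR) rfl
    (fun n hn => (cA.1 n (part1_lt hn hi)).lkD) (fun n hn => (cB.1 n (part1_lt hn hl)).lkD)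
    (fun n hn => (c2.1 n (part1_lt hn b1)).lkD) ((R n1).isq.p.trans hQ.p.symm)
    (hQ.compat (R n1).isq) (fun n h1 h2 => neA n h1 (part1_le h2 hi))
    (fun n h1 h2 => neB n h1 (part1_le h2 hl)) visA visB

theorem HP.tb (hp : HP F) (At : Atlas F) {y : ℂ} (hy : y ∈ F.Λ) : At.TB y :=
  by_contra fun h => part1 hp At (src_back F hy) (At.adm_back hy h)

theorem HP.bounded (hp : HP F) : ∃ N > 0, ∀ p ∈ periodicPts F.f, F.f^[N] p = p :=
  by_contra fun h => (exists_atlas F).elim fun At => part1 hp At (src_per F) (At.adm_per h)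

end Pool.Agent.Lib.MP_3fe454_an.S2
end
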