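import Pool.Agent.Lib.MP_3fe454_an.S2.Part1
import Pool.Agent.Lib.MP_3fe454_an.S2.CL2

/-!
No quadrant of a finite atlas has a self accumulating branch.
-/

set_option autoImplicit false

open Set Metric Filter Topology Function

namespace Pool.Agent.Lib.MP_3fe454_an.S2

open PD

variable {F : Dis} {At : Atlas F} {M0 : ℕ}

theorem part2_M (hA : At.Fin M0) {q : periodicPts F.f} {sh sv : Bool} {Q : Quad F}
    (hQ : At.IsQ q sh sv Q) : Q.M = M0 := hQ.M.trans (hA.2 q)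

theorem part2_orb {o : ℤ → ℂ} (ho : Orb F o) {Q : Quad F} (h : o 0 ∈ Q.Gam) {t : ℤ}
    (ht : (Q.M : ℤ) ∣ t) : o t ∈ Q.Gam := by
  obtain ⟨s, hs⟩ := h
  obtain ⟨m, rfl⟩ := ht
  obtain ⟨n, rfl | rfl⟩ := Int.eq_nat_or_neg m
  · have e := ho.add 0 (Q.M * n)
    rw [← hs, Q.γ_iter, zero_add, Nat.cast_mul] at e
    exact ⟨_, e.symm⟩
  · have e := ho.sub 0 (Q.M * n)
    rw [← hs, Q.γ_back, zero_sub, Nat.cast_mul, ← mul_neg] at e
    exact ⟨_, e.symm⟩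

section

variable {ι : Type} {U : Ultrafilter ι} {o : ι → ℤ → ℂ}

/-- the invariant of the backward chain -/
def part2_Inv (M0 : ℕ) (Q0 : Quad F) (P : Pass At U o 1) : Prop :=
  (∀ᶠ i in U, (M0 : ℤ) ∣ P.b i) ∧ Relation.ReflTransGen Quad.Lk P.Q Q0

theorem part2_a (hA : At.Fin M0) {Q0 : Quad F} {P : Pass At U o 1} (h : part2_Inv M0 Q0 P) :
    ∀ᶠ i in U, (M0 : ℤ) ∣ P.a i := by
  filter_upwards [h.1, P.seg.2.1] with i h1 h2
  rw [one_mul, part2_M hA P.isq] at h2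
  simpa using h1.sub h2

theorem part2_step (hp : HP F) (hA : At.Fin M0) {q : periodicPts F.f} {sh sv : Bool} {Q0 : Quad F}
    (hQ : At.IsQ q sh sv Q0) (ho : ∀ i, Orb F (o i))
    (hg : ∀ i t, (M0 : ℤ) ∣ t → o i t ∈ Q0.Gam) {P : Pass At U o 1} (h : part2_Inv M0 Q0 P) :
    ∃ P' : Pass At U o 1, P'.Nx P ∧ part2_Inv M0 Q0 P' := by
  have hy := P.ly.mem ho
  have ha := part2_a hA h
  rcases bs ho one_pos P (hp.tb At hy) with ⟨q', sh', ⟨Q', hQ'⟩, n, hn, H⟩ | ⟨P', hP'⟩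
  · exfalso
    have hn' : (M0 : ℤ) ∣ n := by
      rw [hA.2] at hn
      exact Int.natCast_dvd_natCast.2 ((dvd_mul_left _ _).trans hn)
    have hl : Tendsto (fun i => o i (P.a i - n)) U (𝓝 (F.g^[n] P.y)) := P.ly.sub ho n
    obtain ⟨c1, c2, -, c4⟩ := H _ _ hQ'
    have t1 := (Q'.cX.tendsto _).comp hl
    obtain ⟨i, d1, d2, d3, d4⟩ := (ha.and (c4.and ((t1.eventually (lt_mem_nhds c1)).and
      (t1.eventually (gt_mem_nhds c2))))).exists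
    obtain ⟨rfl, rfl⟩ := hQ.gam_meet hQ'
      ⟨_, hg i _ (d1.sub hn'), _, (Q'.loc_mem d3 d4.le d2).symm⟩
    obtain ⟨c1, c2, c3, c4⟩ := H _ _ hQ
    have e := F.iter_f_g hy n
    refine Quad.hs_main h.2 (Quad.hon_of_local (n := n) c1 c2 c3 (by rw [e]; exact P.yX)
      (by rw [e]; exact P.yY.1) (by rw [e]; linarith [P.yY.2]) fun ε hε => ?_) hp
    obtain ⟨i, d1, d2, d3⟩ := ((hl.eventually (ball_mem_nhds _ hε)).and (c4.and P.aX)).exists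
    refine ⟨_, d1, d2, ?_⟩
    rwa [← (ho i).add, sub_add_cancel]
  · refine ⟨P', hP', ?_, Relation.ReflTransGen.head ?_ h.2⟩
    · obtain ⟨n, hn, e, -⟩ := hP'
      rw [part2_M hA P.isq] at hn
      have hn' : (M0 : ℤ) ∣ n := Int.natCast_dvd_natCast.2 ((dvd_mul_left _ _).trans hn)
      filter_upwards [ha, e] with i h1 h2
      rw [h2] at h1
      simpa using h1.sub hn'
    · obtain ⟨n, -, e⟩ := hP'.lkD
      exact ⟨(part2_M hA P'.isq).trans (part2_M hA P.isq).symm, n, e⟩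

end

/-- an infinite backward chain of passes made by points of a self accumulating branch -/
theorem sa_chain (hp : HP F) (hA : At.Fin M0) {q : periodicPts F.f} {sh sv : Bool} {Q : Quad F}
    (hQ : At.IsQ q sh sv Q) (h : Q.SA) : ∃ (U : Ultrafilter ℕ) (o : ℕ → ℤ → ℂ)
      (P : ℕ → Pass At U o 1), (∀ n, (P (n + 1)).Nx (P n)) ∧
      ∀ n, (∀ᶠ i in U, o i ((P n).a i) ∈ Q.Gam) ∧ (P n).Q.Gam ⊆ closure Q.Gam := by
  obtain ⟨s0, hs0, u, hu, hY, hl⟩ := h.visit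
  have hΛ : ∀ k, u k ∈ F.Λ := fun k => by
    obtain ⟨s, e⟩ := hu k
    exact e ▸ Q.γ_Λ s
  choose o ho h0 using fun k => exists_orb F (hΛ k)
  let U : Ultrafilter ℕ := Ultrafilter.of atTop
  have hlim : Lim U o (fun _ => 0) (Q.γ s0) :=
    (hl.mono_left (Ultrafilter.of_le atTop)).congr fun k => (h0 k).symm
  obtain ⟨sv0, Q0, hQ0, hpos⟩ : ∃ sv0 Q0, At.IsQ q sh sv0 Q0 ∧ ∀ᶠ i in U, 0 < Q0.Y (o i 0) := by
    rcases U.em fun i => 0 < Q.Y (o i 0) with e | e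
    · exact ⟨sv, Q, hQ, e⟩
    · obtain ⟨Q0, hQ0⟩ := hQ.other (!sv)
      refine ⟨_, Q0, hQ0, e.mono fun i hi => ?_⟩
      have a1 : sg sv * sg (!sv) = -1 := by cases sv <;> simp [sg]
      have a2 : Q.Y (o i 0) < 0 := lt_of_le_of_ne (not_lt.1 hi) (h0 i ▸ hY i)
      rw [(hQ.signs hQ0 _).2, a1]
      linarith
  obtain ⟨x1, x2⟩ := Q.mkq_loc hs0.le
  have x3 : Q0.X (Q.γ s0) = Q.χ s0 := by rw [(hQ.signs hQ0 _).1, mkq_sq, one_mul, x1]
  have x4 : Q0.Y (Q.γ s0) = 0 := by rw [(hQ.signs hQ0 _).2, x2, mul_zero]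
  have x5 : 0 < Q0.X (Q.γ s0) := x3 ▸ Q.χ_pos s0
  have x6 : Q0.X (Q.γ s0) < 1 := by
    rw [x3, ← Q.χ_zero]
    exact Q.χ_mono hs0
  have x7 : ∀ᶠ i in U, 0 < Q0.X (o i 0) :=
    ((Q0.cX.tendsto _).comp hlim).eventually (lt_mem_nhds x5)
  obtain ⟨a, y, b1, b2, b3, b4, b5, b6⟩ := pb ho one_pos hQ0 hlim x5.le x6 x4 (x7.and hpos)
  let P0 : Pass At U o 1 :=
    ⟨q, sh, sv0, Q0, a, fun _ => 0, y, Q.γ s0, hQ0, b1, b2, ⟨b3, b4⟩, b5, hlim, ⟨x5, x6⟩, x4, hpos,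
      b6⟩
  have hM : Q0.M = M0 := part2_M hA hQ0
  have hG : Q.Gam = Q0.Gam := hQ.gam_eq hQ0
  have hg : ∀ i t, (M0 : ℤ) ∣ t → o i t ∈ Q0.Gam := fun i t ht =>
    part2_orb (ho i) (hG ▸ h0 i ▸ hu i) (hM ▸ ht)
  choose nx hn1 hn2 using fun P : {P : Pass At U o 1 // part2_Inv M0 Q0 P} =>
    part2_step hp hA hQ0 ho hg P.2
  let st : {P : Pass At U o 1 // part2_Inv M0 Q0 P} → {P : Pass At U o 1 // part2_Inv M0 Q0 P} :=
    fun P => ⟨nx P, hn2 P⟩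
  let p0 : {P : Pass At U o 1 // part2_Inv M0 Q0 P} :=
    ⟨P0, Eventually.of_forall fun _ => dvd_zero _, Relation.ReflTransGen.refl⟩
  refine ⟨U, o, fun n => (st^[n] p0).1, fun n => ?_, fun n => ?_⟩
  · simp only [iterate_succ_apply']
    exact hn1 _
  · dsimp only
    generalize st^[n] p0 = PP
    obtain ⟨P, hP⟩ := PP
    dsimp only
    have e : P.Q.M = Q0.M := (part2_M hA P.isq).trans hM.symm
    obtain ⟨s, -, hs⟩ := P.z_gam
    rw [hG]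
    refine ⟨(part2_a hA hP).mono fun i hi => hg i _ hi, P.Q.Gam_sub Q0.clos_compact Q0.clos_conn
      Q0.clos_Λ (e ▸ Q0.clos_fwd) (e ▸ Q0.clos_back) ⟨P.z, ?_, s, hs.symm⟩⟩
    exact P.lz.closed isClosed_closure (hP.1.mono fun i hi => subset_closure (hg i _ hi))

theorem no_SA (hp : HP F) (hA : At.Fin M0) {q : periodicPts F.f} {sh sv : Bool} {Q : Quad F}
    (hQ : At.IsQ q sh sv Q) : ¬ Q.SA := by
  intro hS
  have fin : {K : Set ℂ | ∃ q sh sv Q, At.IsQ q sh sv Q ∧ Q.SA ∧ K = closure Q.Gam}.Finite := by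
    refine (hA.labels.image fun x => closure (⋃ Q ∈ {Q | At.IsQ x.1 x.2.1 x.2.2 Q}, Q.Gam)).subset ?_
    rintro _ ⟨q, sh, sv, Q, h1, -, rfl⟩
    refine ⟨(q, sh, sv), ⟨Q, h1⟩, congrArg closure (Subset.antisymm ?_ ?_)⟩
    · exact iUnion₂_subset fun Q' h' => (Atlas.IsQ.gam_eq h' h1).subset
    · exact subset_biUnion_of_mem (u := fun Q : Quad F => Q.Gam) h1
  obtain ⟨_, ⟨q0, sh0, sv0, Q0, hQ0, hS0, rfl⟩, hmin⟩ :=
    fin.exists_minimal ⟨_, q, sh, sv, Q, hQ, hS, rfl⟩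
  obtain ⟨U, o, P, hn, hP⟩ := sa_chain hp hA hQ0 hS0
  obtain ⟨l1, l2, hl, e⟩ := Set.Finite.exists_lt_map_eq_of_forall_mem (f := fun n => (P n).lab)
    (t := {x | ∃ Q, At.IsQ x.1 x.2.1 x.2.2 Q}) (fun n => ⟨_, (P n).isq⟩) hA.labels
  have lk : ∀ n < l2, (P (l2 - n)).Q.LkD (P (l2 - (n + 1))).Q := fun n h => by
    rw [show l2 - n = l2 - (n + 1) + 1 by omega]
    exact (hn _).lkD
  obtain ⟨C, i0, c1, c2, c3⟩ := exists_cyc hp (fun n => (P (l2 - n)).lab) (fun n => (P (l2 - n)).Q)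
    (Nat.sub_pos_of_lt hl) (fun n _ => (P _).isq) (fun n h => lk n (by omega))
    (by rw [Nat.sub_zero, Nat.sub_sub_self hl.le]; exact e.symm)
  obtain ⟨i1, k, k0, k1, k2, k3, k4⟩ := min_repeat (fun n => ((P (l2 - n)).q, (P (l2 - n)).sh))
    (Nat.lt_add_of_pos_right C.k_pos) (congrArg (fun x => (x.1, x.2.1)) c2)
  obtain ⟨a, ha, hSA⟩ := cl_branch (M := M0) k0 (fun a => (P (l2 - (i1 + a))).Q)
    (fun a _ => part2_M hA (P _).isq) (fun a ha => by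
      obtain ⟨n, ⟨t, rfl⟩, z, hz⟩ := lk (i1 + a) (by omega)
      have e1 := (part2_M hA (P (l2 - (i1 + a))).isq).trans
        (part2_M hA (P (l2 - (i1 + a + 1))).isq).symm
      rw [← e1] at hz
      exact hz.om e1)
    (by
      rw [(P _).isq.p, (P _).isq.p]
      exact congrArg (fun x => (x.1 : ℂ)) k3.symm)
    fun a ha b hb hab => disjoint_iff_inter_eq_empty.2 (not_nonempty_iff_eq_empty.1 fun hm => by
      obtain ⟨e1, e2⟩ := (P _).isq.gam_meet (P _).isq hm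
      exact hab (k4 a ha b hb (Prod.ext e1 e2)))
  have h1 := hmin ⟨_, _, _, _, (P (l2 - (i1 + a))).isq, hSA, rfl⟩
    (closure_minimal (hP _).2 isClosed_closure)
  obtain ⟨d, hd, h2⟩ := C.pc1
  obtain ⟨κ, h3⟩ := c3 (i1 + a - i0) (by omega)
  rw [show i0 + (i1 + a - i0) = i1 + a by omega] at h3
  have h4 := h2 (i1 + a - i0) (i1 + a - i0)
  rw [h3.gam, (Quad.same h3.2.1).2.2.2.1] at h4
  obtain ⟨i, d1, d2⟩ := ((hP (l2 - (i1 + a))).1.and ((P (l2 - (i1 + a))).a_mem hd)).exists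
  exact disjoint_left.1 (h4.closure_left (Quad.T_open _ d)) (h1 (subset_closure d1)) d2

end Pool.Agent.Lib.MP_3fe454_an.S2
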