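import Pool.Agent.Lib.MP_3fe454_an.S2.Part2
import Pool.Agent.Lib.MP_3fe454_an.S2.BE4
import Pool.Agent.Lib.MP_3fe454_an.S2.Cnt2

/-!
Robust zero entropy.
-/

set_option autoImplicit false

open Set Metric Filter Topology Function

namespace Pool.Agent.Lib.MP_3fe454_an.S2

open PD

theorem robust (F : Dis) (h : HP F) : ∃ ε > 0, ∀ T : ℂ → ℂ, MapsTo T Disc Disc →
    ContinuousOn T Disc → LipClose ε T F.f → Dynamics.coverEntropy T Disc = 0 := by
  obtain ⟨N, hN, hb⟩ := h.bounded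
  obtain ⟨At, hA⟩ := exists_fin_atlas F hN hb
  obtain ⟨R, ε1, hε1, h1⟩ := be h hA fun q sh sv Q hQ => no_SA h hA hQ
  obtain ⟨hf, ε2, hε2, h2⟩ := hA.cnt
  obtain ⟨δ, hδ, h3⟩ := lip_close_iter F (2 * N) (lt_min hε1 hε2)
  refine ⟨δ, hδ, fun T hT hc hl => ?_⟩
  have h4 := h3 T hT hl
  have mono : ∀ ε : ℝ, min ε1 ε2 ≤ ε → LipClose ε T^[2 * N] F.f^[2 * N] := by
    intro ε hε w hw w' hw'
    obtain ⟨a, b⟩ := h4 w hw w' hw'
    exact ⟨a.trans hε, b.trans (mul_le_mul_of_nonneg_right hε (norm_nonneg _))⟩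
  refine ent_of_iter hT hc (M := 2 * N) (by omega) ?_
  exact ent_zero (hT.iterate _) hf (h2 _ (mono _ (min_le_right _ _)))
    (h1 _ (hT.iterate _) (mono _ (min_le_left _ _)))

end Pool.Agent.Lib.MP_3fe454_an.S2
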